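import Mathlib

/-!
MP_d9606f_gt.  Public definitions of the hand-in (helper73): the group `SL_n(ℚ_p)`, lattices,
smooth actions on closed manifolds, invariant Riemannian metrics, distal actions.
-/

open scoped Manifold ContDiff
open MeasureTheory

namespace Pool.Agent.H73.PZ

noncomputable section

/-- The group `SL_n(ℚ_p)` with its usual topology. -/
abbrev SLn (p : ℕ) [Fact p.Prime] (n : ℕ) : Type := Matrix.SpecialLinearGroup (Fin n) ℚ_[p]

/-- The Borel sets of `SL_n(ℚ_p)`. -/
instance instMeasurableSpaceSLn (p : ℕ) [Fact p.Prime] (n : ℕ) : MeasurableSpace (SLn p n) :=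
  borel _

instance instBorelSpaceSLn (p : ℕ) [Fact p.Prime] (n : ℕ) : BorelSpace (SLn p n) := ⟨rfl⟩

/-- A lattice in `SL_n(ℚ_p)`: a discrete subgroup `Γ` for which left translation by `Γ` has a
fundamental domain of finite Haar measure. -/
def IsLattice {p : ℕ} [Fact p.Prime] {n : ℕ} (Γ : Subgroup (SLn p n)) : Prop :=
  DiscreteTopology Γ ∧ ∃ μ : Measure (SLn p n), μ.IsHaarMeasure ∧
    ∃ F : Set (SLn p n), IsFundamentalDomain Γ F μ ∧ μ F ≠ ⊤

section Action

variable (d : ℕ) (Γ : Type) [Group Γ] (M : Type) [TopologicalSpace M]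
  [ChartedSpace (EuclideanSpace ℝ (Fin d)) M] [MulAction Γ M]

/-- The action of `Γ` on the smooth manifold `M` (of dimension `d`) is smooth: every element of `Γ`
acts by a smooth map (hence by a diffeomorphism, as its inverse acts by a smooth map too). -/
def IsSmoothAction : Prop :=
  ∀ γ : Γ, ContMDiff (𝓡 d) (𝓡 d) ∞ (fun x : M => γ • x)

/-- The action is isometric: some smooth Riemannian metric on `M` is invariant under `Γ`. -/
def IsIsometricAction [IsManifold (𝓡 d) ∞ M] : Prop :=
  ∃ g : Bundle.ContMDiffRiemannianMetric (𝓡 d) ∞ (EuclideanSpace ℝ (Fin d))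
      (fun x : M => TangentSpace (𝓡 d) x),
    ∀ (γ : Γ) (x : M) (v w : TangentSpace (𝓡 d) x),
      g.inner (γ • x) (mfderiv (𝓡 d) (𝓡 d) (fun y : M => γ • y) x v)
        (mfderiv (𝓡 d) (𝓡 d) (fun y : M => γ • y) x w) = g.inner x v w

end Action

/-- The action of `Γ` on the space `M` is distal: for `x ≠ y` the closure of the orbit of `(x, y)`
in `M × M` does not meet the diagonal. -/
def IsDistalAction (Γ : Type) [Group Γ] (M : Type) [TopologicalSpace M] [MulAction Γ M] : Prop :=
  ∀ x y : M, x ≠ y →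
    Disjoint (closure (Set.range fun γ : Γ => (γ • x, γ • y))) (Set.diagonal M)

end

end Pool.Agent.H73.PZ
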