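import Mathlib
import Pool.Agent.H73.PZ.Pub

/-!
The group `SL_n(ℚ_p)`: the size function, the subgroups `KK = SL_n(ℤ_p)` and `KM M` (congruence
subgroups), transvections `EE`, diagonal matrices `dg`.  (MP_d9606f_gt, helper73; proved.)
-/

open Matrix Classical
open scoped Matrix.Norms.Elementwise

namespace Pool.Agent.H73.PZ

noncomputable section

variable {p : ℕ} [Fact p.Prime] {n : ℕ}

/-- The maximum of the absolute values of the entries of `g` and `g⁻¹`. -/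
def size (g : SLn p n) : ℝ := max ‖(g : Matrix (Fin n) (Fin n) ℚ_[p])‖
  ‖((g⁻¹ : SLn p n) : Matrix (Fin n) (Fin n) ℚ_[p])‖

theorem size_nonneg (g : SLn p n) : 0 ≤ size g := le_trans (norm_nonneg _) (le_max_left _ _)

theorem norm_le_size (g : SLn p n) (i j : Fin n) : ‖g.1 i j‖ ≤ size g :=
  le_trans (Matrix.norm_entry_le_entrywise_sup_norm _) (le_max_left _ _)

theorem norm_inv_le_size (g : SLn p n) (i j : Fin n) : ‖(g⁻¹).1 i j‖ ≤ size g :=
  le_trans (Matrix.norm_entry_le_entrywise_sup_norm _) (le_max_right _ _)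

theorem size_le {g : SLn p n} {R : ℝ} (hR : 0 ≤ R) (h : ∀ i j, ‖g.1 i j‖ ≤ R)
    (h' : ∀ i j, ‖(g⁻¹).1 i j‖ ≤ R) : size g ≤ R :=
  max_le ((Matrix.norm_le_iff hR).2 h) ((Matrix.norm_le_iff hR).2 h')

theorem size_inv (g : SLn p n) : size g⁻¹ = size g := by
  apply le_antisymm
  · exact size_le (size_nonneg _) (norm_inv_le_size g) (by rw [inv_inv]; exact norm_le_size g)
  · refine size_le (size_nonneg _) (fun i j => ?_) (norm_le_size g⁻¹)
    have := norm_inv_le_size g⁻¹ i j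
    rwa [inv_inv] at this

theorem norm_mul_entry_le (g h : SLn p n) (i j : Fin n) {a b : ℝ} (ha : 0 ≤ a) (hb : 0 ≤ b)
    (hg : ∀ i j, ‖g.1 i j‖ ≤ a) (hh : ∀ i j, ‖h.1 i j‖ ≤ b) : ‖(g * h).1 i j‖ ≤ a * b := by
  rw [Matrix.SpecialLinearGroup.coe_mul, Matrix.mul_apply]
  refine IsUltrametricDist.norm_sum_le_of_forall_le_of_nonneg (mul_nonneg ha hb) fun k _ => ?_
  rw [norm_mul]
  exact mul_le_mul (hg i k) (hh k j) (norm_nonneg _) ha

theorem size_mul_le (g h : SLn p n) : size (g * h) ≤ size g * size h := by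
  refine size_le (mul_nonneg (size_nonneg _) (size_nonneg _)) (fun i j => ?_) (fun i j => ?_)
  · exact norm_mul_entry_le g h i j (size_nonneg _) (size_nonneg _) (norm_le_size g)
      (norm_le_size h)
  · rw [_root_.mul_inv_rev, mul_comm (size g)]
    exact norm_mul_entry_le h⁻¹ g⁻¹ i j (size_nonneg _) (size_nonneg _) (norm_inv_le_size h)
      (norm_inv_le_size g)

theorem norm_one_entry (i j : Fin n) : ‖(1 : Matrix (Fin n) (Fin n) ℚ_[p]) i j‖ ≤ 1 := by
  rw [Matrix.one_apply]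
  split_ifs <;> simp

theorem size_one_le : size (1 : SLn p n) ≤ 1 := by
  refine size_le zero_le_one (fun i j => ?_) (fun i j => ?_)
  · rw [Matrix.SpecialLinearGroup.coe_one]; exact norm_one_entry i j
  · rw [inv_one, Matrix.SpecialLinearGroup.coe_one]; exact norm_one_entry i j

theorem one_le_size (hn : 0 < n) (g : SLn p n) : 1 ≤ size g := by
  have h1 : size (g * g⁻¹) ≤ size g * size g := by
    have := size_mul_le g g⁻¹
    rwa [size_inv] at this
  rw [mul_inv_cancel] at h1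
  have h2 : (1 : ℝ) ≤ size (1 : SLn p n) := by
    have := norm_le_size (1 : SLn p n) ⟨0, hn⟩ ⟨0, hn⟩
    simpa using this
  nlinarith [size_nonneg g]

/-- If all entries of `g` are integral then so are those of `g⁻¹` (Cramer's rule). -/
theorem norm_inv_entry_le_one {g : SLn p n} (h : ∀ i j, ‖g.1 i j‖ ≤ 1) (i j : Fin n) :
    ‖(g⁻¹).1 i j‖ ≤ 1 := by
  rw [Matrix.SpecialLinearGroup.coe_inv, Matrix.adjugate_apply, Matrix.det_apply]
  refine IsUltrametricDist.norm_sum_le_of_forall_le_of_nonneg zero_le_one fun σ _ => ?_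
  rw [Units.smul_def, zsmul_eq_mul, norm_mul]
  have h1 : ‖(((Equiv.Perm.sign σ : ℤˣ) : ℤ) : ℚ_[p])‖ ≤ 1 := Padic.norm_int_le_one _
  have h2 : ‖∏ k, (Matrix.updateRow g.1 j (Pi.single i 1)) (σ k) k‖ ≤ 1 := by
    rw [norm_prod]
    refine Finset.prod_le_one (fun _ _ => norm_nonneg _) fun k _ => ?_
    rw [Matrix.updateRow_apply]
    split_ifs
    · rw [Pi.single_apply]; split_ifs <;> simp
    · exact h _ _
  calc _ ≤ (1 : ℝ) * 1 := mul_le_mul h1 h2 (norm_nonneg _) zero_le_one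
    _ = 1 := one_mul 1

/-- The maximal compact subgroup `SL_n(ℤ_p)`. -/
def KK (p : ℕ) [Fact p.Prime] (n : ℕ) : Subgroup (SLn p n) where
  carrier := {g | size g ≤ 1}
  mul_mem' {a b} ha hb := (size_mul_le a b).trans
    (by
      have h1 : size a ≤ 1 := ha
      have h2 : size b ≤ 1 := hb
      nlinarith [size_nonneg a, size_nonneg b])
  one_mem' := size_one_le
  inv_mem' {a} ha := by
    change size a⁻¹ ≤ 1
    rw [size_inv]; exact ha

theorem mem_KK {g : SLn p n} : g ∈ KK p n ↔ size g ≤ 1 := Iff.rfl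

theorem mem_KK_iff {g : SLn p n} : g ∈ KK p n ↔ ∀ i j, ‖g.1 i j‖ ≤ 1 :=
  ⟨fun h i j => (norm_le_size g i j).trans h,
    fun h => size_le zero_le_one h (norm_inv_entry_le_one h)⟩

/-- The congruence subgroup of level `p ^ M`. -/
def KM (p : ℕ) [Fact p.Prime] (n : ℕ) (M : ℕ) : Subgroup (SLn p n) where
  carrier := {g | g ∈ KK p n ∧
    ∀ i j, ‖g.1 i j - (1 : Matrix (Fin n) (Fin n) ℚ_[p]) i j‖ ≤ (p : ℝ) ^ (-(M : ℤ))}
  mul_mem' {a b} ha hb := by
    refine ⟨mul_mem ha.1 hb.1, fun i j => ?_⟩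
    have hp : (0 : ℝ) ≤ (p : ℝ) ^ (-(M : ℤ)) := by positivity
    have e : (a * b).1 i j - (1 : Matrix (Fin n) (Fin n) ℚ_[p]) i j =
        (∑ k, (a.1 i k - (1 : Matrix (Fin n) (Fin n) ℚ_[p]) i k) * b.1 k j) +
          (b.1 i j - (1 : Matrix (Fin n) (Fin n) ℚ_[p]) i j) := by
      rw [Matrix.SpecialLinearGroup.coe_mul, Matrix.mul_apply]
      simp only [sub_mul, Finset.sum_sub_distrib, ← Matrix.mul_apply, Matrix.one_mul]
      ring
    rw [e]
    refine (IsUltrametricDist.norm_add_le_max _ _).trans (max_le ?_ (hb.2 i j))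
    refine IsUltrametricDist.norm_sum_le_of_forall_le_of_nonneg hp fun k _ => ?_
    rw [norm_mul]
    calc _ ≤ (p : ℝ) ^ (-(M : ℤ)) * 1 :=
          mul_le_mul (ha.2 i k) (mem_KK_iff.1 hb.1 k j) (norm_nonneg _) hp
      _ = _ := mul_one _
  one_mem' := ⟨one_mem _, fun i j => by
    rw [Matrix.SpecialLinearGroup.coe_one, sub_self, norm_zero]; positivity⟩
  inv_mem' {a} ha := by
    refine ⟨inv_mem ha.1, fun i j => ?_⟩
    have hp : (0 : ℝ) ≤ (p : ℝ) ^ (-(M : ℤ)) := by positivity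
    have e : (a⁻¹).1 i j - (1 : Matrix (Fin n) (Fin n) ℚ_[p]) i j =
        -∑ k, (a⁻¹).1 i k * (a.1 k j - (1 : Matrix (Fin n) (Fin n) ℚ_[p]) k j) := by
      have h1 : ∑ k, (a⁻¹).1 i k * a.1 k j = (1 : Matrix (Fin n) (Fin n) ℚ_[p]) i j := by
        rw [← Matrix.mul_apply, ← Matrix.SpecialLinearGroup.coe_mul, inv_mul_cancel,
          Matrix.SpecialLinearGroup.coe_one]
      have h2 : ∑ k, (a⁻¹).1 i k * (1 : Matrix (Fin n) (Fin n) ℚ_[p]) k j = (a⁻¹).1 i j := by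
        rw [← Matrix.mul_apply, Matrix.mul_one]
      simp only [mul_sub, Finset.sum_sub_distrib, h1, h2]
      ring
    rw [e, norm_neg]
    refine IsUltrametricDist.norm_sum_le_of_forall_le_of_nonneg hp fun k _ => ?_
    rw [norm_mul]
    calc _ ≤ 1 * (p : ℝ) ^ (-(M : ℤ)) :=
          mul_le_mul (mem_KK_iff.1 (inv_mem ha.1) i k) (ha.2 k j) (norm_nonneg _) zero_le_one
      _ = _ := one_mul _

theorem mem_KM {g : SLn p n} {M : ℕ} : g ∈ KM p n M ↔ g ∈ KK p n ∧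
    ∀ i j, ‖g.1 i j - (1 : Matrix (Fin n) (Fin n) ℚ_[p]) i j‖ ≤ (p : ℝ) ^ (-(M : ℤ)) := Iff.rfl

theorem KM_le_KK (M : ℕ) : KM p n M ≤ KK p n := fun _ h => h.1

theorem KM_anti {M M' : ℕ} (h : M ≤ M') : KM p n M' ≤ KM p n M := fun g hg =>
  ⟨hg.1, fun i j => (hg.2 i j).trans (zpow_le_zpow_right₀
    (by exact_mod_cast (Fact.out : p.Prime).one_lt.le) (by omega))⟩

/-- The elementary matrix `1 + x e_ij`. -/
abbrev EE {i j : Fin n} (h : i ≠ j) (x : ℚ_[p]) : SLn p n :=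
  Matrix.SpecialLinearGroup.transvection h x

/-- The diagonal matrix `diag(p ^ a_i)`, if `∑ a_i = 0`. -/
def dg (p : ℕ) [Fact p.Prime] {n : ℕ} (a : Fin n → ℤ) : SLn p n :=
  if h : Matrix.det (Matrix.diagonal fun i => (p : ℚ_[p]) ^ (a i)) = 1 then
    (⟨Matrix.diagonal fun i => (p : ℚ_[p]) ^ (a i), h⟩ :
      Matrix.SpecialLinearGroup (Fin n) ℚ_[p]) else 1

theorem pne : (p : ℚ_[p]) ≠ 0 := by
  exact_mod_cast (Fact.out : p.Prime).ne_zero

theorem dg_coe {a : Fin n → ℤ} (ha : ∑ i, a i = 0) :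
    (dg p a).1 = Matrix.diagonal fun i => (p : ℚ_[p]) ^ (a i) := by
  have h : Matrix.det (Matrix.diagonal fun i => (p : ℚ_[p]) ^ (a i)) = 1 := by
    rw [Matrix.det_diagonal]
    have : ∏ i, (p : ℚ_[p]) ^ (a i) = (p : ℚ_[p]) ^ (∑ i, a i) := by
      classical
      induction (Finset.univ : Finset (Fin n)) using Finset.induction_on with
      | empty => simp
      | insert i s hi ih => rw [Finset.prod_insert hi, Finset.sum_insert hi, ih, zpow_add₀ pne]
    rw [this, ha, zpow_zero]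
  have e : dg p a = (⟨Matrix.diagonal fun i => (p : ℚ_[p]) ^ (a i), h⟩ :
      Matrix.SpecialLinearGroup (Fin n) ℚ_[p]) := dif_pos h
  rw [e]

theorem dg_add {a b : Fin n → ℤ} (ha : ∑ i, a i = 0) (hb : ∑ i, b i = 0) :
    dg p (fun i => a i + b i) = dg p a * dg p b := by
  have hab : ∑ i, (a i + b i) = 0 := by rw [Finset.sum_add_distrib, ha, hb, add_zero]
  apply Subtype.ext
  rw [dg_coe hab, Matrix.SpecialLinearGroup.coe_mul, dg_coe ha, dg_coe hb,
    Matrix.diagonal_mul_diagonal]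
  congr 1
  funext i
  rw [zpow_add₀ pne]

theorem dg_zero : dg p (fun _ : Fin n => 0) = 1 := by
  apply Subtype.ext
  rw [dg_coe (by simp), Matrix.SpecialLinearGroup.coe_one]
  simp

theorem dg_neg {a : Fin n → ℤ} (ha : ∑ i, a i = 0) : dg p (fun i => -a i) = (dg p a)⁻¹ := by
  have hb : ∑ i, -a i = 0 := by rw [Finset.sum_neg_distrib, ha, neg_zero]
  rw [eq_inv_iff_mul_eq_one, ← dg_add hb ha]
  simp only [neg_add_cancel]
  exact dg_zero

theorem norm_p_zpow (k : ℤ) : ‖(p : ℚ_[p]) ^ k‖ = (p : ℝ) ^ (-k) := by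
  exact Padic.norm_p_zpow k

theorem size_dg_le {a : Fin n → ℤ} (ha : ∑ i, a i = 0) {s : ℤ} (h : ∀ i, |a i| ≤ s)
    : size (dg p a) ≤ (p : ℝ) ^ s := by
  have hp1 : (1 : ℝ) ≤ p := by exact_mod_cast (Fact.out : p.Prime).one_lt.le
  have hp0 : (0 : ℝ) ≤ (p : ℝ) ^ s := by positivity
  refine size_le hp0 (fun i j => ?_) (fun i j => ?_)
  · rw [dg_coe ha, Matrix.diagonal_apply]
    split_ifs
    · rw [norm_p_zpow]
      exact zpow_le_zpow_right₀ hp1 (neg_le.1 (abs_le.1 (h i)).1)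
    · simpa using hp0
  · rw [← dg_neg ha, dg_coe (by rw [Finset.sum_neg_distrib, ha, neg_zero]),
      Matrix.diagonal_apply]
    split_ifs
    · rw [norm_p_zpow, neg_neg]
      exact zpow_le_zpow_right₀ hp1 (abs_le.1 (h i)).2
    · simpa using hp0

/-- Conjugating a transvection by a diagonal matrix. -/
theorem dg_conj {a : Fin n → ℤ} (ha : ∑ i, a i = 0) {i j : Fin n} (h : i ≠ j) (x : ℚ_[p]) :
    dg p a * EE h x = EE h ((p : ℚ_[p]) ^ (a i - a j) * x) * dg p a := by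
  apply Subtype.ext
  rw [Matrix.SpecialLinearGroup.coe_mul, Matrix.SpecialLinearGroup.coe_mul, dg_coe ha,
    Matrix.SpecialLinearGroup.transvection_coe, Matrix.SpecialLinearGroup.transvection_coe]
  ext k l
  rw [Matrix.diagonal_mul, Matrix.mul_diagonal, Matrix.add_apply, Matrix.add_apply,
    Matrix.one_apply, Matrix.single_apply, Matrix.single_apply]
  by_cases hkl : k = l
  · subst hkl
    have : ¬(i = k ∧ j = k) := fun hh => h (hh.1.trans hh.2.symm)
    simp [this]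
  · by_cases hh : i = k ∧ j = l
    · obtain ⟨rfl, rfl⟩ := hh
      simp [hkl]
      rw [zpow_sub₀ pne]
      have h3 : (p : ℚ_[p]) ^ a j ≠ 0 := zpow_ne_zero _ pne
      field_simp
    · simp [hkl, hh]

/-- The exponents of `Dm m = diag(p ^ (-m), 1, …, 1, p ^ m)`. -/
def lam (n : ℕ) (m : ℕ) (i : Fin n) : ℤ :=
  if i.1 = 0 then -(m : ℤ) else if i.1 + 1 = n then (m : ℤ) else 0

/-- `Dm m = diag(p ^ (-m), 1, …, 1, p ^ m)`. -/
def Dm (p : ℕ) [Fact p.Prime] (n : ℕ) (m : ℕ) : SLn p n := dg p (lam n m)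

theorem sum_lam (hn : 2 ≤ n) (m : ℕ) : ∑ i, lam n m i = 0 := by
  obtain ⟨k, rfl⟩ : ∃ k, n = k + 2 := ⟨n - 2, by omega⟩
  rw [Fin.sum_univ_succ, Fin.sum_univ_castSucc]
  simp only [lam]
  have h2 : ∀ i : Fin k, i.1 ≠ k := fun i => i.2.ne
  simp [h2]

theorem Dm_succ (hn : 2 ≤ n) (m : ℕ) : Dm p n (m + 1) = Dm p n 1 * Dm p n m := by
  unfold Dm
  rw [← dg_add (sum_lam hn 1) (sum_lam hn m)]
  congr 1
  funext i
  unfold lam
  split_ifs <;> push_cast <;> ring

theorem size_Dm_le (hn : 2 ≤ n) (m : ℕ) : size (Dm p n m) ≤ (p : ℝ) ^ m := by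
  have := size_dg_le (p := p) (sum_lam hn m) (s := (m : ℤ)) (fun i => by
    unfold lam; split_ifs <;> simp)
  simpa [Dm] using this

end

end Pool.Agent.H73.PZ
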