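import Mathlib
import Pool.Agent.H73.PZ.Grp

/-!
MODULE G1 (MP_d9606f_gt, paper `/team-store/h73_padic_zimmer.md`, Part A).
Topology of `SL_n(ℚ_p)` and its congruence subgroups.

Plan (all elementary).
* The map `g ↦ g.1` is a closed embedding (`Matrix.SpecialLinearGroup.isClosedEmbedding_val`) and
  `ℚ_[p]` is a proper space.  `{g | size g ≤ R}` is the preimage of a closed bounded set
  (`{A | ∀ i j, ‖A i j‖ ≤ R}` intersected with the same condition on the adjugate, continuous),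
  so it is compact.
* `KM M` is open: it is the preimage under the continuous entries of the open sets
  `{x | ‖x - δ_ij‖ ≤ p^(-M)}` (closed balls of positive radius are open, ultrametric), and for
  `KK` one uses `mem_KK_iff`.
* `KM_conj`: `g u g⁻¹ - 1 = g (u - 1) g⁻¹`, so the entries are bounded by
  `size g ^ 2 * p^(-M')`; choose `M'` with `size g ^ 2 ≤ p^(M' - M)`.
* `exists_KM_subset`: a neighbourhood of `1` contains `{g | ∀ i j, ‖g i j - δ_ij‖ < ε}` (embedding,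
  finitely many entries), so it contains `KM M` when `p^(-M) < ε`.
* `KM_finite`: `KK` is compact and is covered by the open sets `{u * s | u ∈ KM M}`, `s ∈ KK`.
-/

open Matrix Topology

namespace Pool.Agent.H73.PZ

variable {p : ℕ} [Fact p.Prime] {n : ℕ}

private theorem g1_size_le_iff {g : SLn p n} {R : ℝ} (hR : 0 ≤ R) :
    size g ≤ R ↔ (∀ i j, ‖g.1 i j‖ ≤ R) ∧ ∀ i j, ‖(g⁻¹).1 i j‖ ≤ R :=
  ⟨fun h => ⟨fun i j => (norm_le_size g i j).trans h, fun i j => (norm_inv_le_size g i j).trans h⟩,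
    fun h => size_le hR h.1 h.2⟩

private theorem g1_cont_entry (i j : Fin n) : Continuous fun g : SLn p n => g.1 i j :=
  Matrix.SpecialLinearGroup.continuous_apply (n := Fin n) (R := ℚ_[p]) (fun g => g) continuous_id i
    |> fun h => (continuous_apply j).comp h

private theorem g1_cont_entry_inv (i j : Fin n) : Continuous fun g : SLn p n => (g⁻¹).1 i j :=
  (g1_cont_entry i j).comp continuous_inv

theorem isCompact_size_le (R : ℝ) : IsCompact {g : SLn p n | size g ≤ R} := by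
  by_cases hR : 0 ≤ R
  · have hS : IsCompact {A : Fin n → Fin n → ℚ_[p] | ∀ i j, ‖A i j‖ ≤ R} := by
      have h1 : IsCompact (Set.pi Set.univ fun _ : Fin n =>
          Set.pi Set.univ fun _ : Fin n => Metric.closedBall (0 : ℚ_[p]) R) :=
        isCompact_univ_pi fun _ => isCompact_univ_pi fun _ => isCompact_closedBall _ _
      have e : {A : Fin n → Fin n → ℚ_[p] | ∀ i j, ‖A i j‖ ≤ R} =
          Set.pi Set.univ fun _ : Fin n =>
          Set.pi Set.univ fun _ : Fin n => Metric.closedBall (0 : ℚ_[p]) R := by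
        ext A
        simp [Set.mem_pi]
      rw [e]
      exact h1
    have h2 := (Matrix.SpecialLinearGroup.isClosedEmbedding_val (n := Fin n)
      (R := ℚ_[p])).isCompact_preimage hS
    have h3 : IsClosed {g : SLn p n | ∀ i j, ‖(g⁻¹).1 i j‖ ≤ R} := by
      simp only [Set.ofPred_forall]
      exact isClosed_iInter fun i => isClosed_iInter fun j =>
        isClosed_le (continuous_norm.comp (g1_cont_entry_inv i j)) continuous_const
    have h4 := h2.inter_right h3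
    have e : {g : SLn p n | size g ≤ R} = ((fun g : SLn p n =>
        (g : Matrix (Fin n) (Fin n) ℚ_[p])) ⁻¹' {A : Fin n → Fin n → ℚ_[p] | ∀ i j, ‖A i j‖ ≤ R}) ∩
        {g : SLn p n | ∀ i j, ‖(g⁻¹).1 i j‖ ≤ R} := by
      ext g
      exact g1_size_le_iff hR
    rw [e]
    exact h4
  · have : {g : SLn p n | size g ≤ R} = ∅ := by
      ext g
      simp only [Set.mem_ofPred_eq, Set.mem_empty_iff_false, iff_false]
      intro h
      exact hR ((size_nonneg g).trans h)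
    rw [this]
    exact isCompact_empty

private theorem g1_open_ball (i j : Fin n) (c : ℚ_[p]) {r : ℝ} (hr : r ≠ 0) :
    IsOpen {g : SLn p n | ‖g.1 i j - c‖ ≤ r} := by
  have h := (IsUltrametricDist.isOpen_closedBall c hr).preimage (g1_cont_entry (p := p) i j)
  convert h using 1
  ext g
  simp [dist_eq_norm]

theorem isOpen_KK : IsOpen (KK p n : Set (SLn p n)) := by
  have e : (KK p n : Set (SLn p n)) = ⋂ i, ⋂ j, {g : SLn p n | ‖g.1 i j - 0‖ ≤ 1} := by
    ext g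
    simp only [SetLike.mem_coe, mem_KK_iff, Set.mem_iInter, Set.mem_ofPred_eq, sub_zero]
  rw [e]
  exact isOpen_iInter_of_finite fun i => isOpen_iInter_of_finite fun j =>
    g1_open_ball i j 0 one_ne_zero

private theorem g1_ppos (M : ℕ) : (0 : ℝ) < (p : ℝ) ^ (-(M : ℤ)) :=
  zpow_pos (by exact_mod_cast (Fact.out : p.Prime).pos) _

private theorem g1_ple (M : ℕ) : (p : ℝ) ^ (-(M : ℤ)) ≤ 1 := by
  have h1 : (1 : ℝ) ≤ p := by exact_mod_cast (Fact.out : p.Prime).one_lt.le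
  exact zpow_le_one_of_nonpos₀ h1 (by omega)

theorem isOpen_KM (M : ℕ) : IsOpen (KM p n M : Set (SLn p n)) := by
  have e : (KM p n M : Set (SLn p n)) = (KK p n : Set (SLn p n)) ∩
      ⋂ i, ⋂ j, {g : SLn p n | ‖g.1 i j - (1 : Matrix (Fin n) (Fin n) ℚ_[p]) i j‖ ≤
        (p : ℝ) ^ (-(M : ℤ))} := by
    ext g
    simp only [SetLike.mem_coe, mem_KM, Set.mem_inter_iff, Set.mem_iInter, Set.mem_ofPred_eq]
  rw [e]
  exact isOpen_KK.inter (isOpen_iInter_of_finite fun i => isOpen_iInter_of_finite fun j =>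
    g1_open_ball i j _ (g1_ppos M).ne')

theorem isCompact_KK : IsCompact (KK p n : Set (SLn p n)) := by
  have h := isCompact_size_le (p := p) (n := n) 1
  exact h

theorem locallyCompactSpace_SLn : LocallyCompactSpace (SLn p n) := by
  have : LocallyCompactSpace (Matrix (Fin n) (Fin n) ℚ_[p]) :=
    inferInstanceAs (LocallyCompactSpace (Fin n → Fin n → ℚ_[p]))
  exact (Matrix.SpecialLinearGroup.isClosedEmbedding_val (n := Fin n)
    (R := ℚ_[p])).locallyCompactSpace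

/-- It suffices to look at the entries. -/
private theorem g1_mem_KM {g : SLn p n} {M : ℕ}
    (h : ∀ i j, ‖g.1 i j - (1 : Matrix (Fin n) (Fin n) ℚ_[p]) i j‖ ≤ (p : ℝ) ^ (-(M : ℤ))) :
    g ∈ KM p n M := by
  refine mem_KM.2 ⟨mem_KK_iff.2 fun i j => ?_, h⟩
  have e : g.1 i j = (g.1 i j - (1 : Matrix (Fin n) (Fin n) ℚ_[p]) i j) +
      (1 : Matrix (Fin n) (Fin n) ℚ_[p]) i j := by ring
  rw [e]
  exact (IsUltrametricDist.norm_add_le_max _ _).trans
    (max_le ((h i j).trans (g1_ple M)) (norm_one_entry i j))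

theorem exists_KM_subset {U : Set (SLn p n)} (hU : U ∈ 𝓝 (1 : SLn p n)) :
    ∃ M : ℕ, (KM p n M : Set (SLn p n)) ⊆ U := by
  have h0 := (Matrix.SpecialLinearGroup.isClosedEmbedding_val (n := Fin n)
    (R := ℚ_[p])).isEmbedding.isInducing.nhds_eq_comap (1 : SLn p n)
  have hU0 : U ∈ Filter.comap (Subtype.val : SLn p n → Matrix (Fin n) (Fin n) ℚ_[p])
      (𝓝 ((1 : SLn p n) : Matrix (Fin n) (Fin n) ℚ_[p])) := by
    have h1 := hU
    exact Eq.mp (congrArg (fun F : Filter (SLn p n) => U ∈ F) h0) h1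
  obtain ⟨V, hV, hVU⟩ := Filter.mem_comap.1 hU0
  obtain ⟨ε, hε, hball⟩ := (Metric.mem_nhds_iff (α := Fin n → Fin n → ℚ_[p])
    (x := fun i j => (1 : Matrix (Fin n) (Fin n) ℚ_[p]) i j) (s := V)).1 hV
  have hp1 : (1 : ℝ) < p := by exact_mod_cast (Fact.out : p.Prime).one_lt
  obtain ⟨M, hM⟩ := exists_pow_lt_of_lt_one hε (inv_lt_one_of_one_lt₀ hp1)
  refine ⟨M, fun g hg => hVU ?_⟩
  have hb : (fun i j => g.1 i j : Fin n → Fin n → ℚ_[p]) ∈
      Metric.ball (fun i j => (1 : Matrix (Fin n) (Fin n) ℚ_[p]) i j) ε → g.1 ∈ V :=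
    fun h => hball h
  refine hb ?_
  rw [Metric.mem_ball, dist_pi_lt_iff hε]
  intro i
  rw [dist_pi_lt_iff hε]
  intro j
  rw [dist_eq_norm]
  have h := (mem_KM.1 hg).2 i j
  refine lt_of_le_of_lt h ?_
  rw [_root_.zpow_neg, zpow_natCast, ← inv_pow]
  exact hM

private theorem g1_conj_entry (g u : SLn p n) {a b c : ℝ} (ha : 0 ≤ a) (hb : 0 ≤ b) (hc : 0 ≤ c)
    (hg : ∀ i j, ‖g.1 i j‖ ≤ a) (hg' : ∀ i j, ‖(g⁻¹).1 i j‖ ≤ b)
    (hu : ∀ i j, ‖u.1 i j - (1 : Matrix (Fin n) (Fin n) ℚ_[p]) i j‖ ≤ c) (i j : Fin n) :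
    ‖(g * u * g⁻¹).1 i j - (1 : Matrix (Fin n) (Fin n) ℚ_[p]) i j‖ ≤ a * c * b := by
  have e : (g * u * g⁻¹).1 - (1 : Matrix (Fin n) (Fin n) ℚ_[p]) = g.1 * (u.1 - 1) * (g⁻¹).1 := by
    have h1 : g.1 * (g⁻¹).1 = (1 : Matrix (Fin n) (Fin n) ℚ_[p]) := by
      rw [← Matrix.SpecialLinearGroup.coe_mul, mul_inv_cancel, Matrix.SpecialLinearGroup.coe_one]
    rw [Matrix.mul_sub, Matrix.sub_mul, Matrix.mul_one, h1, Matrix.SpecialLinearGroup.coe_mul,
      Matrix.SpecialLinearGroup.coe_mul]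
  have e2 : (g * u * g⁻¹).1 i j - (1 : Matrix (Fin n) (Fin n) ℚ_[p]) i j =
      (g.1 * (u.1 - 1) * (g⁻¹).1) i j := by
    rw [← e, Matrix.sub_apply]
  rw [e2, Matrix.mul_apply]
  refine IsUltrametricDist.norm_sum_le_of_forall_le_of_nonneg (by positivity) fun k _ => ?_
  rw [norm_mul]
  refine mul_le_mul ?_ (hg' k j) (norm_nonneg _) (by positivity)
  rw [Matrix.mul_apply]
  refine IsUltrametricDist.norm_sum_le_of_forall_le_of_nonneg (by positivity) fun l _ => ?_
  rw [norm_mul, Matrix.sub_apply]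
  exact mul_le_mul (hg i l) (hu l k) (norm_nonneg _) ha

theorem KM_conj (g : SLn p n) (M : ℕ) : ∃ M' : ℕ, ∀ u ∈ KM p n M', g * u * g⁻¹ ∈ KM p n M := by
  have hp1 : (1 : ℝ) < p := by exact_mod_cast (Fact.out : p.Prime).one_lt
  have hp0 : (0 : ℝ) < p := by linarith
  obtain ⟨M', hM'⟩ := pow_unbounded_of_one_lt (size g * size g * (p : ℝ) ^ M) hp1
  refine ⟨M', fun u hu => g1_mem_KM fun i j => ?_⟩
  refine (g1_conj_entry g u (size_nonneg g) (size_nonneg g) (g1_ppos M').le (norm_le_size g)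
    (norm_inv_le_size g) (mem_KM.1 hu).2 i j).trans ?_
  rw [_root_.zpow_neg, _root_.zpow_neg, zpow_natCast, zpow_natCast]
  have h1 : (0 : ℝ) < (p : ℝ) ^ M := by positivity
  have h2 : (0 : ℝ) < (p : ℝ) ^ M' := by positivity
  rw [show size g * ((p : ℝ) ^ M')⁻¹ * size g = (size g * size g) / (p : ℝ) ^ M' by
    field_simp, inv_eq_one_div, div_le_div_iff₀ h2 h1]
  linarith

theorem KM_conj_KK {k : SLn p n} (hk : k ∈ KK p n) {M : ℕ} {u : SLn p n} (hu : u ∈ KM p n M) :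
    k * u * k⁻¹ ∈ KM p n M := by
  refine g1_mem_KM fun i j => ?_
  have h := g1_conj_entry k u zero_le_one zero_le_one (g1_ppos M).le (mem_KK_iff.1 hk)
    (mem_KK_iff.1 (inv_mem hk)) (mem_KM.1 hu).2 i j
  simpa using h

theorem KM_finite (M : ℕ) : ∃ S : Finset (SLn p n), (∀ s ∈ S, s ∈ KK p n) ∧
    ∀ k ∈ KK p n, ∃ s ∈ S, ∃ u ∈ KM p n M, k = u * s := by
  obtain ⟨t, ht, hcov⟩ := (isCompact_KK (p := p) (n := n)).elim_nhds_subcover
    (fun k => {x : SLn p n | x * k⁻¹ ∈ KM p n M}) (by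
      intro k _
      have h1 : IsOpen {x : SLn p n | x * k⁻¹ ∈ KM p n M} :=
        (isOpen_KM M).preimage (continuous_mul_const (k⁻¹))
      refine h1.mem_nhds ?_
      simp only [Set.mem_ofPred_eq, mul_inv_cancel]
      exact one_mem _)
  refine ⟨t, ht, fun k hk => ?_⟩
  obtain ⟨s, hs⟩ := Set.mem_iUnion.1 (hcov hk)
  obtain ⟨hst, hks⟩ := Set.mem_iUnion.1 hs
  exact ⟨s, hst, k * s⁻¹, hks, by group⟩

theorem EE_mem_KM {i j : Fin n} (h : i ≠ j) {x : ℚ_[p]} {M : ℕ}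
    (hx : ‖x‖ ≤ (p : ℝ) ^ (-(M : ℤ))) : EE h x ∈ KM p n M := by
  refine g1_mem_KM fun k l => ?_
  rw [Matrix.SpecialLinearGroup.transvection_coe, Matrix.add_apply, add_sub_cancel_left,
    Matrix.single_apply]
  split_ifs
  · exact hx
  · rw [norm_zero]
    exact (g1_ppos M).le

theorem EE_mem_KK {i j : Fin n} (h : i ≠ j) {x : ℚ_[p]} (hx : ‖x‖ ≤ 1) : EE h x ∈ KK p n := by
  refine KM_le_KK 0 (EE_mem_KM h ?_)
  simpa using hx

end Pool.Agent.H73.PZ
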