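import Mathlib
import Pool.Agent.H73.PZ.Grp

/-!
MODULE G7 (MP_d9606f_gt, paper `/team-store/h73_padic_zimmer.md`, Part A).
Relations between elementary matrices and generation of `SL_n(ℚ_p)`.

* The relations are matrix computations (`Matrix.SpecialLinearGroup.transvection_coe`, products of
  `Matrix.single`): `Subtype.ext` and expand.
* `EE_induction`: `Matrix.SpecialLinearGroup.diagonal_transvection_induction'` reduces to
  `diag2n hij c hc`, for which Whitehead's formula holds (compare `diag2_decompose` for `n = 2`):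
  `diag2n hij a = EE hij a * EE hji (-a⁻¹) * EE hij a * EE hij (-1) * EE hji 1 * EE hij (-1)`.
-/

set_option linter.unusedSimpArgs false

namespace Pool.Agent.H73.PZ

variable {p : ℕ} [Fact p.Prime] {n : ℕ}

/-- The Heisenberg relation. -/
theorem EE_heis {i j k : Fin n} (hik : i ≠ k) (hkj : k ≠ j) (hij : i ≠ j) (x y : ℚ_[p]) :
    EE hik x * EE hkj y = EE hkj y * EE hik x * EE hij (x * y) := by
  apply Subtype.ext
  simp only [Matrix.SpecialLinearGroup.coe_mul, Matrix.SpecialLinearGroup.transvection_coe,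
    mul_add, add_mul, mul_one, one_mul, Matrix.single_mul_single_same,
    Matrix.single_mul_single_of_ne _ _ _ _ hij.symm, Matrix.single_mul_single_of_ne _ _ _ _ hik.symm,
    zero_mul, add_zero]
  abel

theorem EE_comm_left {i j k : Fin n} (hik : i ≠ k) (hij : i ≠ j) (x y : ℚ_[p]) :
    EE hik x * EE hij y = EE hij y * EE hik x := by
  apply Subtype.ext
  simp only [Matrix.SpecialLinearGroup.coe_mul, Matrix.SpecialLinearGroup.transvection_coe,
    mul_add, add_mul, mul_one, one_mul,
    Matrix.single_mul_single_of_ne _ _ _ _ hij.symm, Matrix.single_mul_single_of_ne _ _ _ _ hik.symm,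
    add_zero]
  abel

theorem EE_comm_right {i j k : Fin n} (hkj : k ≠ j) (hij : i ≠ j) (x y : ℚ_[p]) :
    EE hkj x * EE hij y = EE hij y * EE hkj x := by
  apply Subtype.ext
  simp only [Matrix.SpecialLinearGroup.coe_mul, Matrix.SpecialLinearGroup.transvection_coe,
    mul_add, add_mul, mul_one, one_mul,
    Matrix.single_mul_single_of_ne _ _ _ _ hij.symm, Matrix.single_mul_single_of_ne _ _ _ _ hkj.symm,
    add_zero]
  abel

theorem EE_add {i j : Fin n} (h : i ≠ j) (x y : ℚ_[p]) : EE h (x + y) = EE h x * EE h y :=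
  Matrix.SpecialLinearGroup.transvection_add h x y

theorem EE_nsmul {i j : Fin n} (h : i ≠ j) (x : ℚ_[p]) (t : ℕ) :
    EE h ((t : ℚ_[p]) * x) = EE h x ^ t := by
  induction t with
  | zero => simp
  | succ t ih =>
    rw [pow_succ, ← ih, ← EE_add]; congr 1; push_cast; ring

theorem EE_inv {i j : Fin n} (h : i ≠ j) (x : ℚ_[p]) : (EE h x)⁻¹ = EE h (-x) :=
  Matrix.SpecialLinearGroup.transvection_inv h x

/-- The Weyl element. -/
theorem EE_weyl {i j : Fin n} (hij : i ≠ j) {a : ℚ_[p]} (ha : a ≠ 0) :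
    ((EE hij a * EE hij.symm (-a⁻¹) * EE hij a : SLn p n) : Matrix (Fin n) (Fin n) ℚ_[p]) =
      1 - Matrix.single i i 1 - Matrix.single j j 1 + Matrix.single i j a
        - Matrix.single j i a⁻¹ := by
  simp only [Matrix.SpecialLinearGroup.coe_mul, Matrix.SpecialLinearGroup.transvection_coe,
    mul_add, add_mul, mul_one, one_mul, Matrix.single_mul_single_same,
    Matrix.single_mul_single_of_ne _ _ _ _ hij.symm, Matrix.single_mul_single_of_ne _ _ _ _ hij,
    add_zero, zero_add, mul_neg, neg_mul, mul_inv_cancel₀ ha, inv_mul_cancel₀ ha,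
    ← Matrix.single_neg]
  abel

theorem EE_whitehead {i j : Fin n} (hij : i ≠ j) {a : ℚ_[p]} (ha : a ≠ 0) :
    Matrix.SpecialLinearGroup.diag2n hij a ha =
      (EE hij a * EE hij.symm (-a⁻¹) * EE hij a) * (EE hij (-1) * EE hij.symm 1 * EE hij (-1)) := by
  apply Subtype.ext
  have h1 := EE_weyl (p := p) hij ha
  have h2 := EE_weyl (p := p) hij (a := -1) (neg_ne_zero.mpr one_ne_zero)
  have h3 : (-(-1 : ℚ_[p])⁻¹) = 1 := by norm_num
  rw [h3] at h2
  rw [Matrix.SpecialLinearGroup.coe_mul, h1, h2, Matrix.SpecialLinearGroup.diag2n_coe]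
  have h4 : (-1 : ℚ_[p])⁻¹ = -1 := by norm_num
  rw [h4]
  simp only [mul_add, add_mul, mul_sub, sub_mul, mul_one, one_mul, Matrix.single_mul_single_same,
    Matrix.single_mul_single_of_ne _ _ _ _ hij.symm, Matrix.single_mul_single_of_ne _ _ _ _ hij,
    add_zero, zero_add, sub_zero, zero_sub, mul_neg, neg_mul, ← Matrix.single_neg]
  have h5 : (Matrix.diagonal fun k => if k = i then a else if k = j then a⁻¹ else 1) =
      (1 : Matrix (Fin n) (Fin n) ℚ_[p]) - Matrix.single i i 1 - Matrix.single j j 1 +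
        Matrix.single i i a + Matrix.single j j a⁻¹ := by
    ext k l
    simp only [Matrix.diagonal_apply, Matrix.sub_apply, Matrix.add_apply, Matrix.one_apply,
      Matrix.single_apply]
    by_cases hkl : k = l
    · subst hkl
      by_cases h6 : k = i
      · subst h6
        simp [hij.symm]
      · by_cases h7 : k = j
        · subst h7
          simp [hij, h6]
        · simp [h6, h7, Ne.symm h6, Ne.symm h7]
    · have h6 : ∀ t : Fin n, ¬ (t = k ∧ t = l) := fun t ht => hkl (ht.1.symm.trans ht.2)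
      simp [hkl, h6]
  rw [h5]
  abel

theorem EE_induction (hn : 2 ≤ n) (P : SLn p n → Prop)
    (hE : ∀ (i j : Fin n) (h : i ≠ j) (x : ℚ_[p]), P (EE h x))
    (hm : ∀ a b, P a → P b → P (a * b)) (g : SLn p n) : P g := by
  have : Nontrivial (Fin n) := Fin.nontrivial_iff_two_le.mpr hn
  refine Matrix.SpecialLinearGroup.diagonal_transvection_induction' P g ?_ ?_ hm
  · intro i j hij c hc
    rw [EE_whitehead hij hc]
    exact hm _ _ (hm _ _ (hm _ _ (hE _ _ _ _) (hE _ _ _ _)) (hE _ _ _ _))
      (hm _ _ (hm _ _ (hE _ _ _ _) (hE _ _ _ _)) (hE _ _ _ _))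
  · intro i j hij a
    exact hE i j hij a

end Pool.Agent.H73.PZ
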