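import Mathlib
import Pool.Agent.H73.PZ.Grp

/-!
MODULE G4 (MP_d9606f_gt, paper `/team-store/h73_padic_zimmer.md`, A4).
Cartan decomposition of `SL_n(ℚ_p)`: `g = k * diag(p ^ a_i) * k'`.

Proof (Gauss elimination with maximal pivots).  By induction on the size one proves for every
matrix `A` over `ℚ_p` (square, `det A ≠ 0`): there are invertible `P, Q` with entries of norm
`≤ 1` and `‖det P‖ = ‖det Q‖ = 1` such that `P A Q` is diagonal with non-zero diagonal entries.
Choose an entry `A i j` of maximal norm, move it to the corner by permutation matrices, and clear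
its row and its column by transvections whose coefficients `-A i' j / A i j`, `-A i j' / A i j`
have norm `≤ 1`.  (Alternatively: Smith normal form over the principal ideal domain `ℤ_[p]`,
`Submodule.smithNormalForm`, applied to `p ^ s * A`, or `Matrix.Pivot`-style induction.)
So `g = P⁻¹ D Q⁻¹`, `D = diag(d_i)`, `P⁻¹, Q⁻¹` integral with integral inverse.  Write
`d_i = p ^ (a_i) * u_i`, `‖u_i‖ = 1`; `det g = 1` gives `p ^ (∑ a_i) * (unit) = 1`, hence
`∑ a_i = 0`.  Put `k = P⁻¹ * diag(δ, 1, …, 1)`, `k' = diag(δ⁻¹ u_0, u_1, …) * Q⁻¹` with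
`δ = (det P⁻¹)⁻¹`, a unit; then `det k = 1`, `det k' = 1` (as `det g = 1`), and diagonal matrices
commute.  (`0 < n`; for `n = 0` the statement is trivial as well.)
-/

namespace Pool.Agent.H73.PZ

variable {p : ℕ} [Fact p.Prime] {n : ℕ}

/-- integral entries and determinant of norm one -/
private def G4_I (P : Matrix (Fin n) (Fin n) ℚ_[p]) : Prop :=
  (∀ i j, ‖P i j‖ ≤ 1) ∧ ‖P.det‖ = 1

private theorem G4_mul {P Q : Matrix (Fin n) (Fin n) ℚ_[p]} (hP : G4_I P) (hQ : G4_I Q) :
    G4_I (P * Q) := by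
  refine ⟨fun i j => ?_, ?_⟩
  · rw [Matrix.mul_apply]
    refine IsUltrametricDist.norm_sum_le_of_forall_le_of_nonneg zero_le_one fun k _ => ?_
    rw [norm_mul]
    exact mul_le_one₀ (hP.1 i k) (norm_nonneg _) (hQ.1 k j)
  · rw [Matrix.det_mul, norm_mul, hP.2, hQ.2, mul_one]

private theorem G4_rows {P : Matrix (Fin n) (Fin n) ℚ_[p]} (hP : G4_I P)
    (s : Equiv.Perm (Fin n)) : G4_I (P.submatrix s id) := by
  refine ⟨fun i j => hP.1 _ _, ?_⟩
  rw [Matrix.det_permute, norm_mul, hP.2, mul_one]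
  rcases Int.units_eq_one_or (Equiv.Perm.sign s) with h | h <;> rw [h] <;> simp

private theorem G4_cols {P : Matrix (Fin n) (Fin n) ℚ_[p]} (hP : G4_I P)
    (s : Equiv.Perm (Fin n)) : G4_I (P.submatrix id s) := by
  refine ⟨fun i j => hP.1 _ _, ?_⟩
  rw [Matrix.det_permute', norm_mul, hP.2, mul_one]
  rcases Int.units_eq_one_or (Equiv.Perm.sign s) with h | h <;> rw [h] <;> simp

/-- block diagonal matrix with blocks `c`, `M` -/
private noncomputable def G4_bd (c : ℚ_[p]) (M : Matrix (Fin n) (Fin n) ℚ_[p]) :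
    Matrix (Fin (n + 1)) (Fin (n + 1)) ℚ_[p] :=
  Matrix.of fun i j => Fin.cases (Fin.cases c (fun _ => 0) j)
    (fun i' => Fin.cases 0 (fun j' => M i' j') j) i

private theorem G4_bd00 (c : ℚ_[p]) (M : Matrix (Fin n) (Fin n) ℚ_[p]) : G4_bd c M 0 0 = c := rfl
private theorem G4_bd0s (c : ℚ_[p]) (M : Matrix (Fin n) (Fin n) ℚ_[p]) (j : Fin n) :
    G4_bd c M 0 j.succ = 0 := rfl
private theorem G4_bds0 (c : ℚ_[p]) (M : Matrix (Fin n) (Fin n) ℚ_[p]) (i : Fin n) :
    G4_bd c M i.succ 0 = 0 := rfl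
private theorem G4_bdss (c : ℚ_[p]) (M : Matrix (Fin n) (Fin n) ℚ_[p]) (i j : Fin n) :
    G4_bd c M i.succ j.succ = M i j := rfl

private theorem G4_bd_mul (c c' : ℚ_[p]) (M M' : Matrix (Fin n) (Fin n) ℚ_[p]) :
    G4_bd c M * G4_bd c' M' = G4_bd (c * c') (M * M') := by
  ext i j
  rw [Matrix.mul_apply, Fin.sum_univ_succ]
  refine Fin.cases ?_ (fun i' => ?_) i
  · refine Fin.cases ?_ (fun j' => ?_) j
    · simp only [G4_bd00, G4_bd0s, zero_mul, Finset.sum_const_zero, add_zero]
    · simp only [G4_bd00, G4_bd0s, zero_mul, mul_zero, Finset.sum_const_zero, add_zero]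
  · refine Fin.cases ?_ (fun j' => ?_) j
    · simp only [G4_bds0, zero_mul, mul_zero, Finset.sum_const_zero, add_zero]
    · simp only [G4_bds0, G4_bdss, zero_mul, zero_add, Matrix.mul_apply]

private theorem G4_bd_det (c : ℚ_[p]) (M : Matrix (Fin n) (Fin n) ℚ_[p]) :
    (G4_bd c M).det = c * M.det := by
  rw [Matrix.det_succ_row_zero, Fin.sum_univ_succ]
  have h : ∀ i : Fin n, (-1 : ℚ_[p]) ^ ((i.succ : Fin (n + 1)) : ℕ) * G4_bd c M 0 i.succ *
      ((G4_bd c M).submatrix Fin.succ i.succ.succAbove).det = 0 := by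
    intro i
    rw [G4_bd0s, mul_zero, zero_mul]
  rw [Finset.sum_eq_zero fun i _ => h i, add_zero, G4_bd00]
  have h2 : (G4_bd c M).submatrix Fin.succ (Fin.succAbove 0) = M := by
    ext i j
    rw [Matrix.submatrix_apply, Fin.succAbove_zero]
    rfl
  rw [h2]
  simp

private theorem G4_bd_diag (c : ℚ_[p]) (d : Fin n → ℚ_[p]) :
    G4_bd c (Matrix.diagonal d) = Matrix.diagonal (Fin.cons c d : Fin (n + 1) → ℚ_[p]) := by
  ext i j
  refine Fin.cases ?_ (fun i' => ?_) i
  · refine Fin.cases ?_ (fun j' => ?_) j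
    · rw [G4_bd00, Matrix.diagonal_apply_eq, Fin.cons_zero]
    · rw [G4_bd0s, Matrix.diagonal_apply_ne _ (Fin.succ_ne_zero j').symm]
  · refine Fin.cases ?_ (fun j' => ?_) j
    · rw [G4_bds0, Matrix.diagonal_apply_ne _ (Fin.succ_ne_zero i')]
    · rw [G4_bdss]
      by_cases h : i' = j'
      · rw [h, Matrix.diagonal_apply_eq, Matrix.diagonal_apply_eq, Fin.cons_succ]
      · rw [Matrix.diagonal_apply_ne _ h, Matrix.diagonal_apply_ne _ (by
          intro h2
          exact h (Fin.succ_injective _ h2))]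

private theorem G4_bd_I {P : Matrix (Fin n) (Fin n) ℚ_[p]} (hP : G4_I P) : G4_I (G4_bd 1 P) := by
  refine ⟨fun i j => ?_, ?_⟩
  · refine Fin.cases ?_ (fun i' => ?_) i
    · refine Fin.cases ?_ (fun j' => ?_) j
      · rw [G4_bd00, norm_one]
      · rw [G4_bd0s, norm_zero]
        exact zero_le_one
    · refine Fin.cases ?_ (fun j' => ?_) j
      · rw [G4_bds0, norm_zero]
        exact zero_le_one
      · rw [G4_bdss]
        exact hP.1 _ _
  · rw [G4_bd_det, one_mul, hP.2]

/-- unitriangular matrices supported on the first column / row -/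
private noncomputable def G4_L (v : Fin n → ℚ_[p]) : Matrix (Fin (n + 1)) (Fin (n + 1)) ℚ_[p] :=
  Matrix.of fun i j => Fin.cases (Fin.cases 1 (fun _ => 0) j)
    (fun i' => Fin.cases (v i') (fun j' => if i' = j' then 1 else 0) j) i

private theorem G4_L00 (v : Fin n → ℚ_[p]) : G4_L v 0 0 = 1 := rfl
private theorem G4_L0s (v : Fin n → ℚ_[p]) (j : Fin n) : G4_L v 0 j.succ = 0 := rfl
private theorem G4_Ls0 (v : Fin n → ℚ_[p]) (i : Fin n) : G4_L v i.succ 0 = v i := rfl
private theorem G4_Lss (v : Fin n → ℚ_[p]) (i j : Fin n) :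
    G4_L v i.succ j.succ = if i = j then 1 else 0 := rfl

private theorem G4_L_det (v : Fin n → ℚ_[p]) : (G4_L v).det = 1 := by
  rw [Matrix.det_succ_row_zero, Fin.sum_univ_succ]
  have h : ∀ i : Fin n, (-1 : ℚ_[p]) ^ ((i.succ : Fin (n + 1)) : ℕ) * G4_L v 0 i.succ *
      ((G4_L v).submatrix Fin.succ i.succ.succAbove).det = 0 := by
    intro i
    rw [G4_L0s, mul_zero, zero_mul]
  rw [Finset.sum_eq_zero fun i _ => h i, add_zero, G4_L00]
  have h2 : (G4_L v).submatrix Fin.succ (Fin.succAbove 0) = 1 := by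
    ext i j
    rw [Matrix.submatrix_apply, Fin.succAbove_zero, G4_Lss, Matrix.one_apply]
  rw [h2]
  simp

private theorem G4_L_I {v : Fin n → ℚ_[p]} (hv : ∀ i, ‖v i‖ ≤ 1) : G4_I (G4_L v) := by
  refine ⟨fun i j => ?_, ?_⟩
  · refine Fin.cases ?_ (fun i' => ?_) i
    · refine Fin.cases ?_ (fun j' => ?_) j
      · rw [G4_L00, norm_one]
      · rw [G4_L0s, norm_zero]
        exact zero_le_one
    · refine Fin.cases ?_ (fun j' => ?_) j
      · rw [G4_Ls0]
        exact hv i'
      · rw [G4_Lss]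
        split_ifs
        · rw [norm_one]
        · rw [norm_zero]
          exact zero_le_one
  · rw [G4_L_det, norm_one]

private theorem G4_tr {P : Matrix (Fin n) (Fin n) ℚ_[p]} (hP : G4_I P) : G4_I P.transpose :=
  ⟨fun i j => hP.1 j i, by rw [Matrix.det_transpose]; exact hP.2⟩

private theorem G4_lu (A : Matrix (Fin (n + 1)) (Fin (n + 1)) ℚ_[p]) (h : A 0 0 ≠ 0) :
    A = G4_L (fun i => A i.succ 0 / A 0 0) *
      G4_bd (A 0 0) (Matrix.of fun i j => A i.succ j.succ - A i.succ 0 * A 0 j.succ / A 0 0) *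
      (G4_L (fun j => A 0 j.succ / A 0 0)).transpose := by
  ext i j
  rw [Matrix.mul_apply, Fin.sum_univ_succ]
  have key0 : ∀ i' : Fin n, ∀ B : Matrix (Fin n) (Fin n) ℚ_[p],
      (G4_L (fun i => A i.succ 0 / A 0 0) * G4_bd (A 0 0) B) i'.succ 0 = A i'.succ 0 := by
    intro i' B
    rw [Matrix.mul_apply, Fin.sum_univ_succ, G4_Ls0, G4_bd00]
    simp only [G4_bds0, mul_zero, Finset.sum_const_zero, add_zero]
    rw [div_mul_cancel₀ _ h]
  have key1 : ∀ i' j' : Fin n, ∀ B : Matrix (Fin n) (Fin n) ℚ_[p],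
      (G4_L (fun i => A i.succ 0 / A 0 0) * G4_bd (A 0 0) B) i'.succ j'.succ = B i' j' := by
    intro i' j' B
    rw [Matrix.mul_apply, Fin.sum_univ_succ, G4_bd0s, mul_zero, zero_add]
    simp only [G4_Lss, G4_bdss, ite_mul, one_mul, zero_mul]
    rw [Finset.sum_ite_eq, if_pos (Finset.mem_univ _)]
  have key2 : ∀ B : Matrix (Fin n) (Fin n) ℚ_[p],
      (G4_L (fun i => A i.succ 0 / A 0 0) * G4_bd (A 0 0) B) 0 0 = A 0 0 := by
    intro B
    rw [Matrix.mul_apply, Fin.sum_univ_succ, G4_L00, G4_bd00]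
    simp only [G4_bds0, mul_zero, Finset.sum_const_zero, add_zero, one_mul]
  have key3 : ∀ j' : Fin n, ∀ B : Matrix (Fin n) (Fin n) ℚ_[p],
      (G4_L (fun i => A i.succ 0 / A 0 0) * G4_bd (A 0 0) B) 0 j'.succ = 0 := by
    intro j' B
    rw [Matrix.mul_apply, Fin.sum_univ_succ, G4_bd0s, mul_zero, zero_add]
    simp only [G4_L0s, zero_mul, Finset.sum_const_zero]
  refine Fin.cases ?_ (fun i' => ?_) i
  · refine Fin.cases ?_ (fun j' => ?_) j
    · simp only [key2, key3, Matrix.transpose_apply, G4_L00, zero_mul, Finset.sum_const_zero,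
        add_zero, mul_one]
    · simp only [key2, key3, Matrix.transpose_apply, G4_Ls0, zero_mul, Finset.sum_const_zero,
        add_zero]
      rw [mul_div_cancel₀ _ h]
  · refine Fin.cases ?_ (fun j' => ?_) j
    · simp only [key0, key1, Matrix.transpose_apply, G4_L00, G4_L0s, mul_zero,
        Finset.sum_const_zero, add_zero, mul_one]
    · simp only [key0, key1, Matrix.transpose_apply, G4_Ls0, G4_Lss, mul_ite, mul_one, mul_zero]
      rw [Finset.sum_ite_eq, if_pos (Finset.mem_univ _), Matrix.of_apply]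
      ring

private theorem G4_smith : ∀ (n : ℕ) (A : Matrix (Fin n) (Fin n) ℚ_[p]), A.det ≠ 0 →
    ∃ (P Q : Matrix (Fin n) (Fin n) ℚ_[p]) (d : Fin n → ℚ_[p]), G4_I P ∧ G4_I Q ∧
      (∀ i, d i ≠ 0) ∧ A = P * Matrix.diagonal d * Q := by
  intro n
  induction n with
  | zero =>
    intro A _
    have h1 : G4_I (1 : Matrix (Fin 0) (Fin 0) ℚ_[p]) :=
      ⟨fun i => i.elim0, by rw [Matrix.det_one, norm_one]⟩
    exact ⟨1, 1, fun _ => 1, h1, h1, fun i => i.elim0, by ext i; exact i.elim0⟩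
  | succ n ih =>
    intro A hA
    obtain ⟨⟨i0, j0⟩, hmax⟩ := Finite.exists_max (fun x : Fin (n + 1) × Fin (n + 1) => ‖A x.1 x.2‖)
    have hmax' : ∀ i j, ‖A i j‖ ≤ ‖A i0 j0‖ := fun i j => hmax (i, j)
    have hne : A i0 j0 ≠ 0 := by
      intro h0
      apply hA
      have h1 : A = 0 := by
        ext i j
        have := hmax' i j
        rw [h0, norm_zero] at this
        simpa using this
      rw [h1, Matrix.det_zero]
    set s := Equiv.swap 0 i0 with hs
    set t := Equiv.swap 0 j0 with ht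
    set A' := A.submatrix s t with hA'
    have h00 : A' 0 0 = A i0 j0 := by
      rw [hA', Matrix.submatrix_apply, hs, ht, Equiv.swap_apply_left, Equiv.swap_apply_left]
    have hne' : A' 0 0 ≠ 0 := by rw [h00]; exact hne
    have hle : ∀ i j, ‖A' i j / A' 0 0‖ ≤ 1 := by
      intro i j
      rw [norm_div, h00]
      exact div_le_one_of_le₀ (hmax' _ _) (norm_nonneg _)
    have hlu := G4_lu A' hne'
    set B : Matrix (Fin n) (Fin n) ℚ_[p] :=
      Matrix.of fun i j => A' i.succ j.succ - A' i.succ 0 * A' 0 j.succ / A' 0 0 with hB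
    have hdetA' : A'.det ≠ 0 := by
      have h1 : A' = (A.submatrix s id).submatrix id t := by
        ext i j
        rfl
      rw [h1, Matrix.det_permute', Matrix.det_permute]
      refine mul_ne_zero ?_ (mul_ne_zero ?_ hA)
      · rcases Int.units_eq_one_or (Equiv.Perm.sign t) with h | h <;> rw [h] <;> simp
      · rcases Int.units_eq_one_or (Equiv.Perm.sign s) with h | h <;> rw [h] <;> simp
    have hdetB : B.det ≠ 0 := by
      intro h0
      apply hdetA'
      rw [hlu, Matrix.det_mul, Matrix.det_mul, G4_bd_det, h0, mul_zero, mul_zero, zero_mul]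
    obtain ⟨P, Q, d, hP, hQ, hd, hPQ⟩ := ih B hdetB
    have h2 : A' = (G4_L (fun i => A' i.succ 0 / A' 0 0) * G4_bd 1 P) *
        Matrix.diagonal (Fin.cons (A' 0 0) d : Fin (n + 1) → ℚ_[p]) *
        (G4_bd 1 Q * (G4_L (fun j => A' 0 j.succ / A' 0 0)).transpose) := by
      have h3 : G4_bd (A' 0 0) B = G4_bd 1 P *
          Matrix.diagonal (Fin.cons (A' 0 0) d : Fin (n + 1) → ℚ_[p]) * G4_bd 1 Q := by
        rw [← G4_bd_diag, G4_bd_mul, G4_bd_mul, ← hPQ, one_mul, mul_one]
      rw [h3] at hlu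
      refine hlu.trans ?_
      simp only [Matrix.mul_assoc]
    have hP' : G4_I (G4_L (fun i => A' i.succ 0 / A' 0 0) * G4_bd 1 P) :=
      G4_mul (G4_L_I fun i => hle _ _) (G4_bd_I hP)
    have hQ' : G4_I (G4_bd 1 Q * (G4_L (fun j => A' 0 j.succ / A' 0 0)).transpose) :=
      G4_mul (G4_bd_I hQ) (G4_tr (G4_L_I fun i => hle _ _))
    generalize G4_L (fun i => A' i.succ 0 / A' 0 0) * G4_bd 1 P = P' at h2 hP'
    generalize G4_bd 1 Q * (G4_L (fun j => A' 0 j.succ / A' 0 0)).transpose = Q' at h2 hQ'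
    refine ⟨P'.submatrix s id, Q'.submatrix id t, Fin.cons (A' 0 0) d, G4_rows hP' s,
      G4_cols hQ' t, fun i => ?_, ?_⟩
    · refine Fin.cases ?_ (fun i' => ?_) i
      · rw [Fin.cons_zero]
        exact hne'
      · rw [Fin.cons_succ]
        exact hd i'
    · have h4 : A = A'.submatrix s t := by
        ext i j
        rw [hA', Matrix.submatrix_apply, Matrix.submatrix_apply, hs, ht, Equiv.swap_apply_self,
          Equiv.swap_apply_self]
      refine h4.trans ?_
      refine (congrArg (fun M => M.submatrix s t) h2).trans ?_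
      ext i j
      simp only [Matrix.submatrix_apply, Matrix.mul_apply, id]

private theorem G4_unit {x : ℚ_[p]} (hx : x ≠ 0) :
    ∃ (a : ℤ) (u : ℚ_[p]), ‖u‖ = 1 ∧ x = (p : ℚ_[p]) ^ a * u := by
  refine ⟨x.valuation, (p : ℚ_[p]) ^ (-x.valuation) * x, ?_, ?_⟩
  · rw [norm_mul, norm_p_zpow, neg_neg, Padic.norm_eq_zpow_neg_valuation hx,
      ← zpow_add₀ (by exact_mod_cast (Fact.out : p.Prime).ne_zero : (p : ℝ) ≠ 0)]
    simp
  · rw [← mul_assoc, ← zpow_add₀ pne]
    simp

private theorem G4_prod (a : Fin n → ℤ) : ∏ i, (p : ℚ_[p]) ^ (a i) = (p : ℚ_[p]) ^ (∑ i, a i) := by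
  classical
  induction (Finset.univ : Finset (Fin n)) using Finset.induction_on with
  | empty => simp
  | insert i s hi ih => rw [Finset.prod_insert hi, Finset.sum_insert hi, ih, zpow_add₀ pne]

theorem cartan (hn : 0 < n) (g : SLn p n) : ∃ k ∈ KK p n, ∃ k' ∈ KK p n, ∃ a : Fin n → ℤ,
    ∑ i, a i = 0 ∧ g = k * dg p a * k' := by
  obtain ⟨P, Q, d, hP, hQ, hd, hg⟩ := G4_smith n g.1 (by rw [g.2]; exact one_ne_zero)
  choose a u hu hau using fun i => G4_unit (hd i)
  have hdet : P.det * (∏ i, d i) * Q.det = 1 := by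
    have h1 := g.2
    rw [hg, Matrix.det_mul, Matrix.det_mul, Matrix.det_diagonal] at h1
    exact h1
  have hprod : ∏ i, d i = (p : ℚ_[p]) ^ (∑ i, a i) * ∏ i, u i := by
    rw [← G4_prod, ← Finset.prod_mul_distrib]
    exact Finset.prod_congr rfl fun i _ => hau i
  have hun : ‖∏ i, u i‖ = 1 := by
    rw [norm_prod]
    exact Finset.prod_eq_one fun i _ => hu i
  have hsum : ∑ i, a i = 0 := by
    have h1 := congrArg norm hdet
    rw [norm_mul, norm_mul, hP.2, hQ.2, one_mul, mul_one, norm_one, hprod, norm_mul, hun, mul_one,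
      norm_p_zpow] at h1
    have h2 : (p : ℝ) ^ (-∑ i, a i) = (p : ℝ) ^ (0 : ℤ) := by rw [h1, zpow_zero]
    have h3 := zpow_right_injective₀ (a := (p : ℝ)) (by exact_mod_cast (Fact.out : p.Prime).pos)
      (by exact_mod_cast (Fact.out : p.Prime).one_lt.ne') h2
    simpa using h3
  rw [hsum, zpow_zero, one_mul] at hprod
  have hPne : P.det ≠ 0 := by
    intro h0
    have := hP.2
    rw [h0, norm_zero] at this
    exact zero_ne_one this
  set i0 : Fin n := ⟨0, hn⟩ with hi0
  set e : Fin n → ℚ_[p] := fun i => if i = i0 then (P.det)⁻¹ else 1 with he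
  set e' : Fin n → ℚ_[p] := fun i => if i = i0 then P.det else 1 with he'
  have hee : ∀ i, e i * e' i = 1 := by
    intro i
    by_cases h : i = i0
    · simp only [he, he', h, if_true]
      exact inv_mul_cancel₀ hPne
    · simp only [he, he', h, if_false, mul_one]
  have hen : ∀ i, ‖e i‖ ≤ 1 := by
    intro i
    by_cases h : i = i0
    · simp only [he, h, if_true, norm_inv, hP.2, inv_one, le_refl]
    · simp only [he, h, if_false, norm_one, le_refl]
  have hen' : ∀ i, ‖e' i‖ ≤ 1 := by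
    intro i
    by_cases h : i = i0
    · simp only [he', h, if_true, hP.2, le_refl]
    · simp only [he', h, if_false, norm_one, le_refl]
  have hprode : ∏ i, e i = (P.det)⁻¹ := by
    simp only [he]
    rw [Finset.prod_ite_eq', if_pos (Finset.mem_univ _)]
  have hprode' : ∏ i, e' i = P.det := by
    simp only [he']
    rw [Finset.prod_ite_eq', if_pos (Finset.mem_univ _)]
  have hk : (P * Matrix.diagonal e).det = 1 := by
    rw [Matrix.det_mul, Matrix.det_diagonal, hprode, mul_inv_cancel₀ hPne]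
  have hk' : (Matrix.diagonal (fun i => e' i * u i) * Q).det = 1 := by
    rw [Matrix.det_mul, Matrix.det_diagonal, Finset.prod_mul_distrib, hprode', ← hprod]
    exact hdet
  obtain ⟨k, hk1⟩ : ∃ k : SLn p n, k.1 = P * Matrix.diagonal e := ⟨⟨_, hk⟩, rfl⟩
  obtain ⟨k', hk1'⟩ : ∃ k : SLn p n, k.1 = Matrix.diagonal (fun i => e' i * u i) * Q :=
    ⟨⟨_, hk'⟩, rfl⟩
  refine ⟨k, ?_, k', ?_, a, hsum, ?_⟩
  · rw [mem_KK_iff]
    intro i j
    rw [hk1, Matrix.mul_diagonal, norm_mul]
    exact mul_le_one₀ (hP.1 i j) (norm_nonneg _) (hen j)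
  · rw [mem_KK_iff]
    intro i j
    rw [hk1', Matrix.diagonal_mul, norm_mul, norm_mul, hu, mul_one]
    exact mul_le_one₀ (hen' i) (norm_nonneg _) (hQ.1 i j)
  · apply Subtype.ext
    rw [Matrix.SpecialLinearGroup.coe_mul, Matrix.SpecialLinearGroup.coe_mul, dg_coe hsum, hk1,
      hk1', hg]
    have h5 : Matrix.diagonal d = Matrix.diagonal e *
        (Matrix.diagonal fun i => (p : ℚ_[p]) ^ (a i)) * Matrix.diagonal (fun i => e' i * u i) := by
      rw [Matrix.diagonal_mul_diagonal, Matrix.diagonal_mul_diagonal]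
      congr 1
      funext i
      rw [hau i]
      linear_combination (-(p : ℚ_[p]) ^ (a i) * u i) * hee i
    rw [h5]
    simp only [Matrix.mul_assoc]

end Pool.Agent.H73.PZ
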