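import Mathlib
import Pool.Agent.H73.PZ.Pub
import Pool.Agent.H73.PZ.Grp

/-!
MP_d9606f_gt.  The definitions used in the statements of the hand-ins (helper73), for smooth actions
on manifolds `M` with any model `I`; the hand-ins use `I = 𝓡 d` (closed manifolds of dimension `d`).
The group `SLn p n`, lattices (`IsLattice`) and distal actions (`IsDistalAction`) are in `Pub.lean`;
`size g` (file `Grp.lean`) is the maximum of the `p`-adic absolute values of the entries of `g` and
of `g⁻¹`.
-/

open scoped Manifold ContDiff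

namespace Pool.Agent.H73.PZ

noncomputable section

section Generic

variable {E : Type} [NormedAddCommGroup E] [NormedSpace ℝ E] {H : Type} [TopologicalSpace H]
  (I : ModelWithCorners ℝ E H) (M : Type) [TopologicalSpace M] [ChartedSpace H M]

/-- Smooth real functions on `M`. -/
def SmoothFn (f : M → ℝ) : Prop := ContMDiff I 𝓘(ℝ, ℝ) ∞ f

/-- The derivative of a map `f : M → M`. -/
def push {M : Type} [TopologicalSpace M] [ChartedSpace H M] (f : M → M) (x : M)
    (v : TangentSpace I x) : TangentSpace I (f x) := mfderiv I I f x v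

/-- Smooth Riemannian metrics on `M`. -/
def RMetric [IsManifold I ∞ M] : Type :=
  Bundle.ContMDiffRiemannianMetric I ∞ E (fun x : M => TangentSpace I x)

/-- The scalar product of the metric `g` at `x`, as a bilinear map. -/
def RMetric.bil {M : Type} [TopologicalSpace M] [ChartedSpace H M] [IsManifold I ∞ M]
    (g : RMetric I M) (x : M) : TangentSpace I x →L[ℝ] TangentSpace I x →L[ℝ] ℝ :=
  Bundle.ContMDiffRiemannianMetric.inner g x

/-- The scalar product of the metric `g` at `x`. -/
def RMetric.form {M : Type} [TopologicalSpace M] [ChartedSpace H M] [IsManifold I ∞ M]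
    (g : RMetric I M) (x : M) (v w : TangentSpace I x) : ℝ := g.bil I x v w

/-- Every element of `Γ` acts by a smooth map (so by a diffeomorphism). -/
def SmoothAction (Γ : Type) [Group Γ] [MulAction Γ M] : Prop :=
  ∀ γ : Γ, ContMDiff I I ∞ (fun x : M => γ • x)

/-- Some smooth Riemannian metric on `M` is invariant under `Γ`. -/
def IsometricAction (Γ : Type) [Group Γ] [MulAction Γ M] [IsManifold I ∞ M] : Prop :=
  ∃ g : RMetric I M, ∀ (γ : Γ) (x : M) (v w : TangentSpace I x),
    g.form I (γ • x) (push I (fun y : M => γ • y) x v) (push I (fun y : M => γ • y) x w) =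
      g.form I x v w

/-- Growth of the derivatives: for some smooth Riemannian metric on `M` and some `C`,
`‖Dγ v‖ ≤ C (N γ) ^ s ‖v‖` for all `γ ∈ Γ` and all tangent vectors `v`. -/
def GrowthLE (Γ : Type) [Group Γ] [MulAction Γ M] [IsManifold I ∞ M] (N : Γ → ℝ) (s : ℝ) :
    Prop :=
  ∃ (g : RMetric I M) (C : ℝ), ∀ (γ : Γ) (x : M) (v : TangentSpace I x),
    g.form I (γ • x) (push I (fun y : M => γ • y) x v) (push I (fun y : M => γ • y) x v) ≤
      (C * N γ ^ s) ^ 2 * g.form I x v v

/-- Asymptotic pairs: there are `x ≠ y` in `M` and `γ_k ∈ Γ` with `N γ_k ≤ C q ^ k` such that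
`|f (γ_k x) - f (γ_k y)| ≤ C_f q ^ (- c k)` for every smooth function `f` on `M`. -/
def AsymptoticPair (Γ : Type) [Group Γ] [MulAction Γ M] (N : Γ → ℝ) (q c : ℝ) : Prop :=
  ∃ x y : M, x ≠ y ∧ ∃ γ : ℕ → Γ, (∃ C : ℝ, ∀ k, N (γ k) ≤ C * q ^ k) ∧
    ∀ f : M → ℝ, SmoothFn I M f → ∃ C : ℝ, ∀ k : ℕ,
      |f (γ k • x) - f (γ k • y)| ≤ C * q ^ (-(c * k))

end Generic

/-- The size of an element of a subgroup of `SL_n(ℚ_p)`. -/
def sz {p : ℕ} [Fact p.Prime] {n : ℕ} (Γ : Subgroup (SLn p n)) (γ : Γ) : ℝ := size (γ : SLn p n)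

end

end Pool.Agent.H73.PZ
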