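import Mathlib
import Pool.Agent.H73.PZ.Pub
import Pool.Agent.H73.PZ.Grp

/-!
MP_d9606f_gt.  Public definitions, second part (helper73).  `size g` (file `Grp.lean`) is the maximum
of the `p`-adic absolute values of the entries of `g` and of `g⁻¹`.
-/

open scoped Manifold ContDiff

namespace Pool.Agent.H73.PZ

/-- Slow growth of the derivatives: for some smooth Riemannian metric on `M`, some `C` and some
`s < 1 / (7 d + 12)`, `‖Dγ‖ ≤ C (size γ) ^ s` for all `γ ∈ Γ`. -/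
def HasSlowGrowth (p : ℕ) [Fact p.Prime] (n d : ℕ) (Γ : Subgroup (SLn p n)) (M : Type)
    [TopologicalSpace M] [ChartedSpace (EuclideanSpace ℝ (Fin d)) M] [IsManifold (𝓡 d) ∞ M]
    [MulAction Γ M] : Prop :=
  ∃ g : Bundle.ContMDiffRiemannianMetric (𝓡 d) ∞ (EuclideanSpace ℝ (Fin d))
      (fun x : M => TangentSpace (𝓡 d) x),
    ∃ C s : ℝ, s < 1 / (7 * (d : ℝ) + 12) ∧ ∀ (γ : Γ) (x : M) (v : TangentSpace (𝓡 d) x),
      g.inner (γ • x) (mfderiv (𝓡 d) (𝓡 d) (fun y : M => γ • y) x v)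
        (mfderiv (𝓡 d) (𝓡 d) (fun y : M => γ • y) x v) ≤
      (C * size (γ : SLn p n) ^ s) ^ 2 * g.inner x v v

/-- Exponentially asymptotic pair with a universal rate: there are `x ≠ y` in `M` and `γ_k ∈ Γ`,
`size γ_k ≤ C p ^ k`, such that `|f (γ_k x) - f (γ_k y)| ≤ C_f p ^ (- k / (7 d + 13))` for every
smooth function `f` on `M`. -/
def HasAsymptoticPair (p : ℕ) [Fact p.Prime] (n d : ℕ) (Γ : Subgroup (SLn p n)) (M : Type)
    [TopologicalSpace M] [ChartedSpace (EuclideanSpace ℝ (Fin d)) M]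
    [MulAction Γ M] : Prop :=
  ∃ x y : M, x ≠ y ∧ ∃ γ : ℕ → Γ, (∃ C : ℝ, ∀ k, size ((γ k : Γ) : SLn p n) ≤ C * (p : ℝ) ^ k) ∧
    ∀ f : M → ℝ, ContMDiff (𝓡 d) 𝓘(ℝ, ℝ) ∞ f → ∃ C : ℝ, ∀ k : ℕ,
      |f (γ k • x) - f (γ k • y)| ≤ C * (p : ℝ) ^ (-((k : ℝ) / (7 * (d : ℝ) + 13)))

/-- The elements of `S` act `(1 + ε)`-almost isometrically for some smooth Riemannian metric:
`(1 + ε)⁻¹ ‖v‖ ≤ ‖Dγ v‖ ≤ (1 + ε) ‖v‖` for `γ ∈ S` and all tangent vectors `v`. -/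
def AlmostIsometric (ε : ℝ) (d : ℕ) (Γ : Type) [Group Γ] (S : Set Γ) (M : Type)
    [TopologicalSpace M] [ChartedSpace (EuclideanSpace ℝ (Fin d)) M] [IsManifold (𝓡 d) ∞ M]
    [MulAction Γ M] : Prop :=
  ∃ g : Bundle.ContMDiffRiemannianMetric (𝓡 d) ∞ (EuclideanSpace ℝ (Fin d))
      (fun x : M => TangentSpace (𝓡 d) x),
    ∀ γ ∈ S, ∀ (x : M) (v : TangentSpace (𝓡 d) x),
      g.inner (γ • x) (mfderiv (𝓡 d) (𝓡 d) (fun y : M => γ • y) x v)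
          (mfderiv (𝓡 d) (𝓡 d) (fun y : M => γ • y) x v) ≤ (1 + ε) ^ 2 * g.inner x v v ∧
      g.inner x v v ≤ (1 + ε) ^ 2 *
          g.inner (γ • x) (mfderiv (𝓡 d) (𝓡 d) (fun y : M => γ • y) x v)
          (mfderiv (𝓡 d) (𝓡 d) (fun y : M => γ • y) x v)

end Pool.Agent.H73.PZ
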