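import Mathlib

/-!
Abstract differential calculus on a closed manifold with a group action (MP_d9606f_gt, paper Part C,
definitions, helper73).

`XX X [i₁, …, i_k] f = X i_k (… (X i₁ f))` (the first index acts first).

`Calc Γ M ι d`: an algebra `A` of (smooth) functions, derivations `X i`, functions `ψ j`, the
composition operators `cmp γ`, the chain rule, and the analytic facts (L), (E), (mu), (comp) of the
paper.  `dst x y = max_j |ψ j x - ψ j y|`, `J γ i j = X i (ψ j ∘ γ)`.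
-/

open MeasureTheory Filter
open scoped Topology

namespace Pool.Agent.H73.PZ

noncomputable section

/-- Iterated derivations: the head of the list acts first. -/
def XX {A ι : Type} [CommRing A] [Algebra ℝ A] (X : ι → Derivation ℝ A A) : List ι → A →ₗ[ℝ] A
  | [] => LinearMap.id
  | i :: I => (XX X I).comp (X i : A →ₗ[ℝ] A)

section

variable {A ι : Type} [CommRing A] [Algebra ℝ A] (X : ι → Derivation ℝ A A)

@[simp] theorem XX_nil (f : A) : XX X [] f = f := rfl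

@[simp] theorem XX_cons (i : ι) (I : List ι) (f : A) : XX X (i :: I) f = XX X I (X i f) := rfl

end

/-- The differential calculus of a smooth action of `Γ` on a closed manifold `M` of dimension
`d`. -/
structure Calc (Γ : Type) [Group Γ] (M : Type) [TopologicalSpace M] [MeasurableSpace M]
    [MulAction Γ M] (ι : Type) [Fintype ι] (d : ℕ) where
  /-- the algebra of smooth functions -/
  A : Subalgebra ℝ (M → ℝ)
  cont : ∀ f : A, Continuous f.1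
  /-- vector fields -/
  X : ι → Derivation ℝ A A
  /-- the functions of the frame -/
  ψ : ι → A
  /-- composition with an element of the group -/
  cmp : Γ → (A →ₐ[ℝ] A)
  cmp_apply : ∀ (γ : Γ) (f : A) (x : M), (cmp γ f).1 x = f.1 (γ • x)
  chain : ∀ (γ : Γ) (i : ι) (f : A), X i (cmp γ f) = ∑ j, X i (cmp γ (ψ j)) * cmp γ (X j f)
  sep : ∀ x y : M, (∀ j, (ψ j).1 x = (ψ j).1 y) → x = y
  /-- the constant in (L) -/
  L : ℝ
  L_nonneg : 0 ≤ L
  /-- the radius in (L) and (E) -/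
  δ : ℝ
  δ_pos : 0 < δ
  lip : ∀ (f : A) (Λ : ℝ), (∀ i x, |(X i f).1 x| ≤ Λ) → ∀ x y : M,
    ‖(fun j => (ψ j).1 x - (ψ j).1 y : ι → ℝ)‖ ≤ δ →
    |f.1 x - f.1 y| ≤ L * Λ * ‖(fun j => (ψ j).1 x - (ψ j).1 y : ι → ℝ)‖
  /-- the approximate exponential map in (E) -/
  E : M → (ι → ℝ) → M
  expo : ∀ f : A, ∃ C : ℝ, ∀ (x : M) (a : ι → ℝ), ‖a‖ ≤ δ →
    |f.1 (E x a) - f.1 x - ∑ i, a i * (X i f).1 x| ≤ C * ‖a‖ ^ 2
  /-- the measure -/
  μ : Measure M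
  finite : IsFiniteMeasure μ
  ball : ∃ c : ℝ, 0 < c ∧ ∀ (x : M) (r : ℝ), 0 < r → r ≤ 1 →
    ENNReal.ofReal (c * r ^ d) ≤
      μ {y | ‖(fun j => (ψ j).1 x - (ψ j).1 y : ι → ℝ)‖ ≤ r}
  distort : ∃ K : ℝ, 0 ≤ K ∧ ∀ (γ : Γ) (B : ℝ), 0 ≤ B →
    (∀ i j x, |(X i (cmp γ⁻¹ (ψ j))).1 x| ≤ B) →
    ∀ f : A, (∀ x, 0 ≤ f.1 x) → ∫ x, f.1 (γ • x) ∂μ ≤ K * (1 + B) ^ d * ∫ x, f.1 x ∂μ
  complete : ∀ F : ℕ → A, (∀ I : List ι, ∃ C ρ : ℝ, 0 ≤ ρ ∧ ρ < 1 ∧
    ∀ m x, |(XX X I (F (m + 1) - F m)).1 x| ≤ C * ρ ^ m) →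
    ∃ G : A, ∀ x, Tendsto (fun m => (F m).1 x) atTop (𝓝 (G.1 x))

namespace Calc

variable {Γ : Type} [Group Γ] {M : Type} [TopologicalSpace M] [MeasurableSpace M]
  [MulAction Γ M] {ι : Type} [Fintype ι] {d : ℕ} (c : Calc Γ M ι d)

/-- The embedding distance. -/
def dst (x y : M) : ℝ := ‖(fun j => (c.ψ j).1 x - (c.ψ j).1 y : ι → ℝ)‖

/-- The Jacobi matrix `J γ i j = X i (ψ j ∘ γ)`. -/
def J (γ : Γ) (i j : ι) : c.A := c.X i (c.cmp γ (c.ψ j))

/-- Iterated derivatives. -/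
abbrev D (I : List ι) : c.A →ₗ[ℝ] c.A := XX c.X I

theorem val_add (f g : c.A) (x : M) : (f + g).1 x = f.1 x + g.1 x := rfl
theorem val_sub (f g : c.A) (x : M) : (f - g).1 x = f.1 x - g.1 x := rfl
theorem val_mul (f g : c.A) (x : M) : (f * g).1 x = f.1 x * g.1 x := rfl
theorem val_smul (r : ℝ) (f : c.A) (x : M) : (r • f).1 x = r * f.1 x := rfl
theorem val_zero (x : M) : (0 : c.A).1 x = 0 := rfl
theorem val_one (x : M) : (1 : c.A).1 x = 1 := rfl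

/-- Evaluation at a point as an algebra homomorphism. -/
def ev (x : M) : c.A →ₐ[ℝ] ℝ := (Pi.evalAlgHom ℝ (fun _ : M => ℝ) x).comp c.A.val

theorem ev_apply (x : M) (f : c.A) : c.ev x f = f.1 x := rfl

theorem val_sum {κ : Type} (s : Finset κ) (f : κ → c.A) (x : M) :
    (∑ k ∈ s, f k).1 x = ∑ k ∈ s, (f k).1 x := by
  rw [← c.ev_apply x, map_sum]; rfl

theorem ext' {f g : c.A} (h : ∀ x, f.1 x = g.1 x) : f = g := Subtype.ext (funext h)

theorem bdd [CompactSpace M] (f : c.A) : ∃ C : ℝ, 0 ≤ C ∧ ∀ x, |f.1 x| ≤ C := by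
  obtain ⟨C, hC⟩ := (isCompact_range ((c.cont f).abs)).bddAbove
  refine ⟨max C 0, le_max_right _ _, fun x => (hC ⟨x, rfl⟩).trans (le_max_left _ _)⟩

theorem cmp_mul (γ γ' : Γ) (f : c.A) : c.cmp (γ * γ') f = c.cmp γ' (c.cmp γ f) := by
  apply c.ext'; intro x
  rw [c.cmp_apply, c.cmp_apply, c.cmp_apply, mul_smul]

theorem cmp_one (f : c.A) : c.cmp 1 f = f := by
  apply c.ext'; intro x
  rw [c.cmp_apply, one_smul]

/-- Chain rule for `J`: `J^{γ γ'} = J^{γ'} (J^γ ∘ γ')`. -/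
theorem J_mul (γ γ' : Γ) (i j : ι) :
    c.J (γ * γ') i j = ∑ l, c.J γ' i l * c.cmp γ' (c.J γ l j) := by
  unfold J
  rw [c.cmp_mul, c.chain]

theorem J_mul_apply (γ γ' : Γ) (i j : ι) (x : M) :
    (c.J (γ * γ') i j).1 x = ∑ l, (c.J γ' i l).1 x * (c.J γ l j).1 (γ' • x) := by
  rw [c.J_mul, c.val_sum]
  refine Finset.sum_congr rfl fun l _ => ?_
  rw [c.val_mul, c.cmp_apply]

theorem J_one_mul (γ : Γ) (i j : ι) : c.J γ i j = ∑ l, c.J 1 i l * c.J γ l j := by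
  have := c.J_mul γ 1 i j
  rw [mul_one] at this
  rw [this]
  exact Finset.sum_congr rfl fun l _ => by rw [c.cmp_one]

theorem J_mul_one (γ : Γ) (i j : ι) :
    c.J γ i j = ∑ l, c.J γ i l * c.cmp γ (c.J 1 l j) := by
  have := c.J_mul 1 γ i j
  rwa [one_mul] at this

/-- `|J^γ| ≤ C N(γ)^s` for all `γ`. -/
def Adm (N : Γ → ℝ) (s : ℝ) : Prop :=
  ∃ C : ℝ, 0 ≤ C ∧ ∀ (γ : Γ) (i j : ι) (x : M), |(c.J γ i j).1 x| ≤ C * N γ ^ s

end Calc

end

end Pool.Agent.H73.PZ
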