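import Mathlib
import Pool.Agent.H73.PZ.Cal

/-!
Framed manifolds: a finite atlas of balls together with functions `ψ j` and vector fields `X j` that
form a frame (MP_d9606f_gt, paper Part C, definitions, helper73).

`Fr d M`: charts `φ c` (`c` in a finite type `κ`), balls `ball (z c) (r c)` whose closure is in the
target, half balls covering `M`; an algebra `A` of functions on `M` that are smooth in all charts,
and containing every function that is smooth on all the balls; functions `ψ j ∈ A`, separating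
points, among them (`ψ (co c k)`) the coordinates `k` of the charts `φ c` over the closed balls;
derivations `X j` of `A`; `LF`: the derivative in a chart is expressed by the `X j`; `LF2`: the `X j`
are expressed by the partial derivatives in a chart.
-/

open MeasureTheory Filter
open scoped Topology ContDiff

namespace Pool.Agent.H73.PZ

noncomputable section

/-- Euclidean space. -/
abbrev Eu (d : ℕ) : Type := EuclideanSpace ℝ (Fin d)

/-- A framed manifold. -/
structure Fr (d : ℕ) (M : Type) [TopologicalSpace M] where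
  /-- index set of the charts -/
  κ : Type
  finκ : Fintype κ
  /-- the charts -/
  φ : κ → OpenPartialHomeomorph M (Eu d)
  /-- centres of the balls -/
  z : κ → Eu d
  /-- radii of the balls -/
  r : κ → ℝ
  r_pos : ∀ c, 0 < r c
  ball : ∀ c, Metric.closedBall (z c) (r c) ⊆ (φ c).target
  cover : ∀ x, ∃ c, x ∈ (φ c).source ∧ φ c x ∈ Metric.ball (z c) (r c / 2)
  /-- the smooth functions -/
  A : Subalgebra ℝ (M → ℝ)
  smooth : ∀ (f : A) (c : κ), ContDiffOn ℝ ∞ (f.1 ∘ (φ c).symm) (φ c).target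
  of_smooth : ∀ f : M → ℝ,
    (∀ c, ContDiffOn ℝ ∞ (f ∘ (φ c).symm) (Metric.ball (z c) (r c))) → f ∈ A
  /-- index set of the frame -/
  ι : Type
  finι : Fintype ι
  /-- the functions of the frame -/
  ψ : ι → A
  /-- the indices of the coordinate functions -/
  co : κ → Fin d → ι
  ψ_co : ∀ c k x, x ∈ (φ c).source → φ c x ∈ Metric.closedBall (z c) (r c) →
    (ψ (co c k)).1 x = φ c x k
  sep : ∀ x y : M, (∀ j, (ψ j).1 x = (ψ j).1 y) → x = y
  /-- the vector fields -/
  X : ι → Derivation ℝ A A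
  LF : ∀ (c : κ) (f : A) (w : Eu d), w ∈ (φ c).target → ∀ u : Eu d,
    fderiv ℝ (f.1 ∘ (φ c).symm) w u =
      ∑ j, fderiv ℝ ((ψ j).1 ∘ (φ c).symm) w u * (X j f).1 ((φ c).symm w)
  LF2 : ∀ (c : κ) (f : A) (j : ι) (x : M), x ∈ (φ c).source →
    φ c x ∈ Metric.ball (z c) (r c) →
    (X j f).1 x = ∑ k, fderiv ℝ (f.1 ∘ (φ c).symm) (φ c x) (EuclideanSpace.single k 1) *
      (X j (ψ (co c k))).1 x

attribute [instance] Fr.finκ Fr.finι

namespace Fr

variable {d : ℕ} {M : Type} [TopologicalSpace M] (F : Fr d M)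

theorem cont (f : F.A) : Continuous f.1 := by
  rw [continuous_iff_continuousAt]
  intro x
  obtain ⟨c, hx, hb⟩ := F.cover x
  have h1 : ContinuousOn (f.1 ∘ (F.φ c).symm) (F.φ c).target := (F.smooth f c).continuousOn
  have h2 : ContinuousOn ((f.1 ∘ (F.φ c).symm) ∘ F.φ c) (F.φ c).source :=
    h1.comp (F.φ c).continuousOn (fun y hy => (F.φ c).map_source hy)
  have h3 : ContinuousOn f.1 (F.φ c).source := h2.congr fun y hy => by
    simp [(F.φ c).left_inv hy]
  exact h3.continuousAt ((F.φ c).open_source.mem_nhds hx)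

/-- The distance. -/
def dst (x y : M) : ℝ := ‖(fun j => (F.ψ j).1 x - (F.ψ j).1 y : F.ι → ℝ)‖

theorem bdd [CompactSpace M] (f : F.A) : ∃ C : ℝ, 0 ≤ C ∧ ∀ x, |f.1 x| ≤ C := by
  obtain ⟨C, hC⟩ := (isCompact_range ((F.cont f).abs)).bddAbove
  exact ⟨max C 0, le_max_right _ _, fun x => (hC ⟨x, rfl⟩).trans (le_max_left _ _)⟩

/-- Evaluation at a point as an algebra homomorphism. -/
def ev (x : M) : F.A →ₐ[ℝ] ℝ := (Pi.evalAlgHom ℝ (fun _ : M => ℝ) x).comp F.A.val

theorem ev_apply (x : M) (f : F.A) : F.ev x f = f.1 x := rfl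

theorem val_add (f g : F.A) (x : M) : (f + g).1 x = f.1 x + g.1 x := rfl
theorem val_sub (f g : F.A) (x : M) : (f - g).1 x = f.1 x - g.1 x := rfl
theorem val_mul (f g : F.A) (x : M) : (f * g).1 x = f.1 x * g.1 x := rfl

theorem val_sum {κ : Type} (s : Finset κ) (f : κ → F.A) (x : M) :
    (∑ k ∈ s, f k).1 x = ∑ k ∈ s, (f k).1 x := by
  rw [← F.ev_apply x, map_sum]; rfl

end Fr

end

end Pool.Agent.H73.PZ
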