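import Mathlib
import Pool.Agent.H73.PZ.Fr

/-!
MODULE F0 (MP_d9606f_gt, paper Part C, uniform bounds in the charts).

* `fderiv_bdd`: `f ∘ φ.symm` is smooth on the open target, so its derivative is continuous on the
  compact set `closedBall (z c) (r c)` (`ContDiffOn.continuousOn_fderiv_of_isOpen`).
* `taylor`: the second derivative is bounded by `C` on the (convex, compact) closed ball; so
  `‖fderiv f w'' - fderiv f w‖ ≤ C ‖w'' - w‖` on the closed ball (mean value inequality for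
  `fderiv f`, or `ContDiffOn` on a convex compact set is Lipschitz), and the mean value inequality
  for `w'' ↦ f w'' - fderiv f w w''` on the segment from `w` to `w'`
  (`Convex.norm_image_sub_le_of_norm_fderiv_le'` or `..._hasFDerivWithin_le'`) gives the bound
  `C ‖w' - w‖²`.
* `common_ball`: let `U c = {x ∈ source | φ c x ∈ ball (z c) (r c)}`, open (`isOpen_inter_preimage`).
  `K = (⋃ c, U c ×ˢ U c)ᶜ` is closed in the compact space `M × M`, misses the diagonal (`cover`), and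
  `dst` is continuous and positive on `K` (`sep`); if `K` is non-empty let `δ` be half its minimum.
* `exists_half`: choice of a chart.
-/

open MeasureTheory Filter
open scoped Topology ContDiff

namespace Pool.Agent.H73.PZ.Fr

variable {d : ℕ} {M : Type} [TopologicalSpace M] (F : Fr d M)

private theorem F0_bdd {G : Type} [NormedAddCommGroup G] [NormedSpace ℝ G] {h : Eu d → G}
    {s : Set (Eu d)} (hs : IsOpen s) (hh : ContDiffOn ℝ ∞ h s) {z : Eu d} {r : ℝ}
    (hb : Metric.closedBall z r ⊆ s) : ∃ C : ℝ, 0 ≤ C ∧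
    ∀ w ∈ Metric.closedBall z r, DifferentiableAt ℝ h w ∧ ‖fderiv ℝ h w‖ ≤ C := by
  have h1 : ContinuousOn (fun w => fderiv ℝ h w) (Metric.closedBall z r) :=
    (hh.continuousOn_fderiv_of_isOpen hs (by simp)).mono hb
  obtain ⟨C, hC⟩ := (isCompact_closedBall z r).exists_bound_of_continuousOn h1
  refine ⟨max C 0, le_max_right _ _, fun w hw => ⟨?_, (hC w hw).trans (le_max_left _ _)⟩⟩
  exact (hh.differentiableOn (by simp)).differentiableAt (hs.mem_nhds (hb hw))

theorem fderiv_bdd (f : F.A) (c : F.κ) : ∃ C : ℝ, 0 ≤ C ∧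
    ∀ w ∈ Metric.closedBall (F.z c) (F.r c), ‖fderiv ℝ (f.1 ∘ (F.φ c).symm) w‖ ≤ C := by
  obtain ⟨C, hC0, hC⟩ := F0_bdd (F.φ c).open_target (F.smooth f c) (F.ball c)
  exact ⟨C, hC0, fun w hw => (hC w hw).2⟩

theorem taylor (f : F.A) (c : F.κ) : ∃ C : ℝ, 0 ≤ C ∧
    ∀ w ∈ Metric.closedBall (F.z c) (F.r c), ∀ w' ∈ Metric.closedBall (F.z c) (F.r c),
      |f.1 ((F.φ c).symm w') - f.1 ((F.φ c).symm w) -
        fderiv ℝ (f.1 ∘ (F.φ c).symm) w (w' - w)| ≤ C * ‖w' - w‖ ^ 2 := by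
  obtain ⟨C, hC0, hC⟩ := F0_bdd (F.φ c).open_target (F.smooth f c) (F.ball c)
  have h2 : ContDiffOn ℝ ∞ (fderiv ℝ (f.1 ∘ (F.φ c).symm)) (F.φ c).target :=
    (F.smooth f c).fderiv_of_isOpen (F.φ c).open_target (by simp)
  obtain ⟨C', hC'0, hC'⟩ := F0_bdd (F.φ c).open_target h2 (F.ball c)
  refine ⟨C', hC'0, ?_⟩
  intro w hw w' hw'
  have hconv : Convex ℝ (Metric.closedBall (F.z c) (F.r c)) := convex_closedBall _ _
  have hseg : segment ℝ w w' ⊆ Metric.closedBall (F.z c) (F.r c) := hconv.segment_subset hw hw'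
  have key := Convex.norm_image_sub_le_of_norm_fderiv_le' (f := f.1 ∘ (F.φ c).symm)
    (C := C' * ‖w' - w‖) (s := segment ℝ w w')
    (φ := fderiv ℝ (f.1 ∘ (F.φ c).symm) w) (x := w) (y := w')
    (fun v hv => (hC v (hseg hv)).1) ?_ (convex_segment w w') (left_mem_segment ℝ w w')
    (right_mem_segment ℝ w w')
  · rw [Real.norm_eq_abs] at key
    refine key.trans (le_of_eq ?_)
    ring
  · intro v hv
    have h3 := hconv.norm_image_sub_le_of_norm_fderiv_le (𝕜 := ℝ)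
      (f := fderiv ℝ (f.1 ∘ (F.φ c).symm))
      (fun v hv => (hC' v hv).1) (fun v hv => (hC' v hv).2) hw (hseg hv)
    refine h3.trans (mul_le_mul_of_nonneg_left ?_ hC'0)
    exact norm_sub_le_of_mem_segment hv

theorem lipschitz (f : F.A) (c : F.κ) : ∃ C : ℝ, 0 ≤ C ∧
    ∀ w ∈ Metric.closedBall (F.z c) (F.r c), ∀ w' ∈ Metric.closedBall (F.z c) (F.r c),
      |f.1 ((F.φ c).symm w') - f.1 ((F.φ c).symm w)| ≤ C * ‖w' - w‖ := by
  obtain ⟨C, hC0, hC⟩ := F0_bdd (F.φ c).open_target (F.smooth f c) (F.ball c)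
  refine ⟨C, hC0, ?_⟩
  intro w hw w' hw'
  have h3 := (convex_closedBall (F.z c) (F.r c)).norm_image_sub_le_of_norm_fderiv_le (𝕜 := ℝ)
      (f := f.1 ∘ (F.φ c).symm)
      (fun v hv => (hC v hv).1) (fun v hv => (hC v hv).2) hw hw'
  rw [Real.norm_eq_abs] at h3
  exact h3

theorem common_ball [CompactSpace M] : ∃ δ : ℝ, 0 < δ ∧ ∀ x y : M, F.dst x y ≤ δ →
    ∃ c, x ∈ (F.φ c).source ∧ y ∈ (F.φ c).source ∧ F.φ c x ∈ Metric.ball (F.z c) (F.r c) ∧
      F.φ c y ∈ Metric.ball (F.z c) (F.r c) := by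
  have hUo : ∀ c, IsOpen ((F.φ c).source ∩ F.φ c ⁻¹' Metric.ball (F.z c) (F.r c)) := fun c =>
    (F.φ c).isOpen_inter_preimage Metric.isOpen_ball
  set W : Set (M × M) := ⋃ c, ((F.φ c).source ∩ F.φ c ⁻¹' Metric.ball (F.z c) (F.r c)) ×ˢ
    ((F.φ c).source ∩ F.φ c ⁻¹' Metric.ball (F.z c) (F.r c)) with hW
  have hWo : IsOpen W := isOpen_iUnion fun c => (hUo c).prod (hUo c)
  have hK : IsCompact Wᶜ := hWo.isClosed_compl.isCompact
  have hdc : Continuous fun p : M × M => F.dst p.1 p.2 := by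
    unfold dst
    refine (continuous_pi fun j => ?_).norm
    exact ((F.cont (F.ψ j)).comp continuous_fst).sub ((F.cont (F.ψ j)).comp continuous_snd)
  have hmem : ∀ x y : M, (x, y) ∈ W → ∃ c, x ∈ (F.φ c).source ∧ y ∈ (F.φ c).source ∧
      F.φ c x ∈ Metric.ball (F.z c) (F.r c) ∧ F.φ c y ∈ Metric.ball (F.z c) (F.r c) := by
    intro x y hxy
    rw [hW, Set.mem_iUnion] at hxy
    obtain ⟨c, hc⟩ := hxy
    exact ⟨c, hc.1.1, hc.2.1, hc.1.2, hc.2.2⟩
  rcases Set.eq_empty_or_nonempty Wᶜ with hE | hE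
  · refine ⟨1, one_pos, fun x y _ => hmem x y ?_⟩
    rw [Set.compl_empty_iff] at hE
    rw [hE]
    exact Set.mem_univ _
  · obtain ⟨p, hp, hmin⟩ := hK.exists_isMinOn hE hdc.continuousOn
    have hpos : 0 < F.dst p.1 p.2 := by
      rcases lt_or_eq_of_le (norm_nonneg (fun j => (F.ψ j).1 p.1 - (F.ψ j).1 p.2 : F.ι → ℝ))
        with h | h
      · exact h
      · exfalso
        have h0 : (fun j => (F.ψ j).1 p.1 - (F.ψ j).1 p.2 : F.ι → ℝ) = 0 := norm_eq_zero.1 h.symm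
        have h1 : p.1 = p.2 := F.sep _ _ fun j => sub_eq_zero.1 (congrFun h0 j)
        obtain ⟨c, hc1, hc2⟩ := F.cover p.1
        apply hp
        rw [hW, Set.mem_iUnion]
        have hc3 : F.φ c p.1 ∈ Metric.ball (F.z c) (F.r c) :=
          Metric.ball_subset_ball (by linarith [F.r_pos c]) hc2
        refine ⟨c, ⟨hc1, hc3⟩, ?_⟩
        rw [← h1]
        exact ⟨hc1, hc3⟩
    refine ⟨F.dst p.1 p.2 / 2, by positivity, fun x y hxy => hmem x y ?_⟩
    by_contra hcon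
    have h2 : F.dst p.1 p.2 ≤ F.dst x y := hmin (show (x, y) ∈ Wᶜ from hcon)
    linarith

end Pool.Agent.H73.PZ.Fr
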