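import Mathlib
import Pool.Agent.H73.PZ.Fr

/-!
Covers of closed manifolds by chart balls, with bump functions (MP_d9606f_gt, definitions,
helper73).

`smoothA d M`: the algebra of smooth functions.
`Cov d M`: finitely many points `c` (with their charts `chartAt c`), radii `r c`, bump functions
`β c = 1` on the closed chart ball of radius `r c`, and a partition of unity `χ c` subordinate to
the chart balls; the chart balls of half radius cover `M`.
-/

open MeasureTheory Filter Bundle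
open scoped Topology ContDiff Manifold

namespace Pool.Agent.H73.PZ

noncomputable section

variable (d : ℕ) (M : Type) [TopologicalSpace M] [ChartedSpace (Eu d) M]

/-- The algebra of smooth functions. -/
def smoothA : Subalgebra ℝ (M → ℝ) where
  carrier := {f | ContMDiff (𝓡 d) 𝓘(ℝ, ℝ) ∞ f}
  mul_mem' {f g} hf hg := by
    have : ContMDiff (𝓡 d) 𝓘(ℝ, ℝ) ∞ (fun x => f x * g x) := hf.mul hg
    exact this
  add_mem' {f g} hf hg := by
    have : ContMDiff (𝓡 d) 𝓘(ℝ, ℝ) ∞ (fun x => f x + g x) := hf.add hg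
    exact this
  algebraMap_mem' r := contMDiff_const

variable {d M}

theorem mem_smoothA {f : M → ℝ} : f ∈ smoothA d M ↔ ContMDiff (𝓡 d) 𝓘(ℝ, ℝ) ∞ f := Iff.rfl

variable (d M)

/-- Finite covers by chart balls with bump functions. -/
structure Cov where
  /-- centres -/
  S : Finset M
  /-- radii -/
  r : S → ℝ
  r_pos : ∀ c, 0 < r c
  ball : ∀ c : S, Metric.closedBall (chartAt (Eu d) c.1 c.1) (r c) ⊆ (chartAt (Eu d) c.1).target
  cover : ∀ x : M, ∃ c : S, x ∈ (chartAt (Eu d) c.1).source ∧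
    chartAt (Eu d) c.1 x ∈ Metric.ball (chartAt (Eu d) c.1 c.1) (r c / 2)
  /-- bump functions -/
  β : S → M → ℝ
  β_smooth : ∀ c, ContMDiff (𝓡 d) 𝓘(ℝ, ℝ) ∞ (β c)
  β_supp : ∀ c : S, tsupport (β c) ⊆ (chartAt (Eu d) c.1).source
  β_one : ∀ (c : S) (x : M), x ∈ (chartAt (Eu d) c.1).source →
    chartAt (Eu d) c.1 x ∈ Metric.closedBall (chartAt (Eu d) c.1 c.1) (r c) → β c x = 1
  /-- partition of unity -/
  χ : S → M → ℝ
  χ_smooth : ∀ c, ContMDiff (𝓡 d) 𝓘(ℝ, ℝ) ∞ (χ c)
  χ_supp : ∀ c : S, tsupport (χ c) ⊆ {x | x ∈ (chartAt (Eu d) c.1).source ∧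
    chartAt (Eu d) c.1 x ∈ Metric.ball (chartAt (Eu d) c.1 c.1) (r c)}
  χ_sum : ∀ x, ∑ c, χ c x = 1

end

end Pool.Agent.H73.PZ
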