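import Mathlib
import Pool.Agent.H73.PZ.Cov

/-!
MODULE E2 (MP_d9606f_gt, closed manifolds): local facts in the charts `chartAt c`.

* `smooth_local`: `contMDiffOn_chart_symm` composed with `f`; `contMDiffOn_iff_contDiffOn`
  (`𝓡 d = 𝓘(ℝ, Eu d)`).
* `smooth_of_local`: at `x` choose `c ∈ S` with `chartAt c x ∈ ball .. (r c / 2)`; on the open set
  `source ∩ chartAt c ⁻¹' ball` one has `f = (f ∘ (chartAt c).symm) ∘ chartAt c`, smooth by
  `contMDiffOn_chart`.
* `trans_diff`: transition maps are smooth (`contMDiffOn_chart` composed with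
  `contMDiffOn_chart_symm` on the open set `target ∩ symm ⁻¹' source'`).
* `diff_local`: `f` is differentiable in the chart (from `smooth_local`).
-/

open MeasureTheory Filter Bundle
open scoped Topology ContDiff Manifold

namespace Pool.Agent.H73.PZ

variable {d : ℕ} {M : Type} [TopologicalSpace M] [ChartedSpace (Eu d) M] [IsManifold (𝓡 d) ∞ M]

theorem smooth_local (f : smoothA d M) (c : M) :
    ContDiffOn ℝ ∞ (f.1 ∘ (chartAt (Eu d) c).symm) (chartAt (Eu d) c).target := by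
  have hf : ContMDiff (𝓡 d) 𝓘(ℝ, ℝ) ∞ f.1 := f.2
  have h : ContMDiffOn (𝓡 d) 𝓘(ℝ, ℝ) ∞ (f.1 ∘ (chartAt (Eu d) c).symm)
      (chartAt (Eu d) c).target :=
    hf.comp_contMDiffOn contMDiffOn_chart_symm
  exact contMDiffOn_iff_contDiffOn.mp h

theorem diff_local (f : smoothA d M) (c : M) {w : Eu d} (hw : w ∈ (chartAt (Eu d) c).target) :
    DifferentiableAt ℝ (f.1 ∘ (chartAt (Eu d) c).symm) w :=
  ((smooth_local f c).contDiffAt ((chartAt (Eu d) c).open_target.mem_nhds hw)).differentiableAt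
    (by simp)

theorem smooth_of_local (C : Cov d M) (f : M → ℝ)
    (h : ∀ c : C.S, ContDiffOn ℝ ∞ (f ∘ (chartAt (Eu d) c.1).symm)
      (Metric.ball (chartAt (Eu d) c.1 c.1) (C.r c))) : f ∈ smoothA d M := by
  rw [mem_smoothA]
  intro x
  obtain ⟨c, hx, hb⟩ := C.cover x
  have hr := C.r_pos c
  have hb' : chartAt (Eu d) c.1 x ∈ Metric.ball (chartAt (Eu d) c.1 c.1) (C.r c) :=
    Metric.ball_subset_ball (by linarith) hb
  have h1 : ContMDiffAt (𝓡 d) 𝓘(ℝ, ℝ) ∞ (f ∘ (chartAt (Eu d) c.1).symm)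
      (chartAt (Eu d) c.1 x) :=
    ((h c).contDiffAt (Metric.isOpen_ball.mem_nhds hb')).contMDiffAt
  have h2 : ContMDiffAt (𝓡 d) (𝓡 d) ∞ (chartAt (Eu d) c.1) x :=
    contMDiffOn_chart.contMDiffAt ((chartAt (Eu d) c.1).open_source.mem_nhds hx)
  have h3 : ContMDiffAt (𝓡 d) 𝓘(ℝ, ℝ) ∞
      ((f ∘ (chartAt (Eu d) c.1).symm) ∘ (chartAt (Eu d) c.1)) x :=
    ContMDiffAt.comp x h1 h2
  refine h3.congr_of_eventuallyEq ?_
  filter_upwards [(chartAt (Eu d) c.1).open_source.mem_nhds hx] with y hy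
  change f y = f ((chartAt (Eu d) c.1).symm (chartAt (Eu d) c.1 y))
  rw [(chartAt (Eu d) c.1).left_inv hy]

theorem trans_diff (c c' : M) {w : Eu d} (hw : w ∈ (chartAt (Eu d) c).target)
    (hw' : (chartAt (Eu d) c).symm w ∈ (chartAt (Eu d) c').source) :
    DifferentiableAt ℝ (fun v => chartAt (Eu d) c' ((chartAt (Eu d) c).symm v)) w := by
  have h1 : ContMDiffAt (𝓡 d) (𝓡 d) ∞ (chartAt (Eu d) c') ((chartAt (Eu d) c).symm w) :=
    contMDiffOn_chart.contMDiffAt ((chartAt (Eu d) c').open_source.mem_nhds hw')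
  have h2 : ContMDiffAt (𝓡 d) (𝓡 d) ∞ (chartAt (Eu d) c).symm w :=
    contMDiffOn_chart_symm.contMDiffAt ((chartAt (Eu d) c).open_target.mem_nhds hw)
  have h3 : ContMDiffAt (𝓡 d) (𝓡 d) ∞
      (chartAt (Eu d) c' ∘ (chartAt (Eu d) c).symm) w := ContMDiffAt.comp w h1 h2
  exact (contMDiffAt_iff_contDiffAt.mp h3).differentiableAt (by simp)

end Pool.Agent.H73.PZ
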