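import Mathlib
import Pool.Agent.H73.PZ.Cov

/-!
MODULE N3 (MP_d9606f_gt, closed manifolds): smoothness of the tensors `f • (du ⊗ dv)`.

`dL f x` is the differential of `f` at `x` as a continuous linear functional.
Proof of `tensor_smooth`.  `contMDiffAt_section` / `contMDiffAt_hom_bundle` (twice), or: write the
tensor through the trivialisation of the tangent bundle at `x₀`:
`inCoordinates (Eu d) (TangentSpace (𝓡 d)) .. x₀ x x₀ x (f x • (dL u x).smulRight (dL v x))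
  = f x • (a x).smulRight (b x)` where `a x = (dL u x) ∘L (trivializationAt .. x₀).symmL ℝ x`, and
`a` is smooth near `x₀`: it is `inTangentCoordinates` of `mfderiv u`
(`ContMDiffAt.mfderiv_const`; the target `𝓘(ℝ, ℝ)` has trivial tangent coordinates).  The map
`(s, a, b) ↦ s • a.smulRight b` is smooth (bounded multilinear:
`ContinuousLinearMap.smulRightL`, `ContMDiffAt.clm_apply`).
`sum_smooth`: finite sums of smooth sections are smooth (`ContMDiff.sum_section` or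
`ContMDiff.add_section` with induction).
-/

open MeasureTheory Filter Bundle
open scoped Topology ContDiff Manifold

namespace Pool.Agent.H73.PZ

noncomputable section

variable {d : ℕ} {M : Type} [TopologicalSpace M] [ChartedSpace (Eu d) M]

/-- The differential of a function. -/
def dL (f : M → ℝ) (x : M) : TangentSpace (𝓡 d) x →L[ℝ] ℝ := mfderiv (𝓡 d) 𝓘(ℝ, ℝ) f x

/-- The tensor `∑ h i j dψ i ⊗ dψ j`. -/
def tensG {ι : Type} [Fintype ι] (ψ : ι → M → ℝ) (h : ι → ι → M → ℝ) (x : M) :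
    TangentSpace (𝓡 d) x →L[ℝ] TangentSpace (𝓡 d) x →L[ℝ] ℝ :=
  ∑ i, ∑ j, h i j x • (dL (ψ i) x).smulRight (dL (ψ j) x)

theorem tensG_apply {ι : Type} [Fintype ι] (ψ : ι → M → ℝ) (h : ι → ι → M → ℝ) (x : M)
    (v w : TangentSpace (𝓡 d) x) :
    tensG ψ h x v w = ∑ i, ∑ j, h i j x * (dL (ψ i) x v * dL (ψ j) x w) := by
  unfold tensG
  simp only [sum_apply, smul_apply,
    ContinuousLinearMap.smulRight_apply, smul_eq_mul]

variable [IsManifold (𝓡 d) ∞ M]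

private def N3_a (u : M → ℝ) (x₀ x : M) : Eu d →L[ℝ] ℝ :=
  (dL u x).comp ((trivializationAt (Eu d) (TangentSpace (𝓡 d)) x₀).symmL ℝ x)

private theorem N3_a_smooth {u : M → ℝ} (hu : ContMDiff (𝓡 d) 𝓘(ℝ, ℝ) ∞ u) (x₀ : M) :
    ContMDiffAt (𝓡 d) 𝓘(ℝ, Eu d →L[ℝ] ℝ) ∞ (N3_a (d := d) u x₀) x₀ := by
  have h : ContMDiffAt (𝓡 d) 𝓘(ℝ, Eu d →L[ℝ] ℝ) ∞
      (inTangentCoordinates (𝓡 d) 𝓘(ℝ, ℝ) id u (mfderiv (𝓡 d) 𝓘(ℝ, ℝ) u) x₀) x₀ :=
    ContMDiffAt.mfderiv_const (hu x₀) (by simp)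
  refine h.congr_of_eventuallyEq ?_
  refine Filter.Eventually.of_forall fun x => ?_
  ext v
  simp [N3_a, inTangentCoordinates, ContinuousLinearMap.inCoordinates, dL]
  rfl

private theorem N3_in {f u v : M → ℝ} (x₀ x : M)
   (hx : x ∈ (trivializationAt (Eu d) (TangentSpace (𝓡 d)) x₀).baseSet) :
   ContinuousLinearMap.inCoordinates (Eu d) (TangentSpace (𝓡 d) (M := M)) (Eu d →L[ℝ] ℝ)
     (fun x : M => TangentSpace (𝓡 d) x →L[ℝ] ℝ) x₀ x x₀ x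
     (f x • (dL u x).smulRight (dL v x)) = f x • (N3_a u x₀ x).smulRight (N3_a v x₀ x) := by
  ext a b
  have h := inCoordinates_apply_eq₂ (F₁ := Eu d) (E₁ := (TangentSpace (𝓡 d) (M := M)))
    (F₂ := Eu d) (E₂ := (TangentSpace (𝓡 d) (M := M))) (F₃ := ℝ) (E₃ := Bundle.Trivial M ℝ)
    (𝕜 := ℝ) (x₀ := x₀) (x := x) (ϕ := f x • (dL u x).smulRight (dL v x)) (v := a) (w := b)
    hx hx (by simp)
  refine h.trans ?_
  simp [N3_a]
  left
  rw [Bundle.Trivialization.symmL_apply, Bundle.Trivialization.symmL_apply] <;> exact hx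

theorem tensor_smooth {f u v : M → ℝ} (hf : ContMDiff (𝓡 d) 𝓘(ℝ, ℝ) ∞ f)
    (hu : ContMDiff (𝓡 d) 𝓘(ℝ, ℝ) ∞ u) (hv : ContMDiff (𝓡 d) 𝓘(ℝ, ℝ) ∞ v) :
    ContMDiff (𝓡 d) ((𝓡 d).prod 𝓘(ℝ, Eu d →L[ℝ] Eu d →L[ℝ] ℝ)) ∞
      (fun b : M => TotalSpace.mk' (Eu d →L[ℝ] Eu d →L[ℝ] ℝ)
        (E := fun x : M => TangentSpace (𝓡 d) x →L[ℝ] TangentSpace (𝓡 d) x →L[ℝ] ℝ) b
        (f b • (dL u b).smulRight (dL v b))) := by
  intro x₀
  rw [contMDiffAt_hom_bundle]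
  refine ⟨contMDiffAt_id, ?_⟩
  have h1 := N3_a_smooth (d := d) hu x₀
  have h2 := N3_a_smooth (d := d) hv x₀
  have h3 : ContMDiffAt (𝓡 d) 𝓘(ℝ, Eu d →L[ℝ] Eu d →L[ℝ] ℝ) ∞
      (fun x => f x • (N3_a (d := d) u x₀ x).smulRight (N3_a (d := d) v x₀ x)) x₀ := by
    refine (hf x₀).smul ?_
    have h4 : ContDiff ℝ ∞ (fun p : (Eu d →L[ℝ] ℝ) × (Eu d →L[ℝ] ℝ) => p.1.smulRight p.2) :=
      isBoundedBilinearMap_smulRight.contDiff
    exact h4.contMDiff.contMDiffAt.comp x₀ (h1.prodMk_space h2)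
  refine h3.congr_of_eventuallyEq ?_
  filter_upwards [(trivializationAt (Eu d) (TangentSpace (𝓡 d)) x₀).open_baseSet.mem_nhds
    (FiberBundle.mem_baseSet_trivializationAt' x₀)] with x hx
  exact N3_in x₀ x hx

theorem tensG_smooth {ι : Type} [Fintype ι] {ψ : ι → M → ℝ} {h : ι → ι → M → ℝ}
    (hψ : ∀ i, ContMDiff (𝓡 d) 𝓘(ℝ, ℝ) ∞ (ψ i))
    (hh : ∀ i j, ContMDiff (𝓡 d) 𝓘(ℝ, ℝ) ∞ (h i j)) :
    ContMDiff (𝓡 d) ((𝓡 d).prod 𝓘(ℝ, Eu d →L[ℝ] Eu d →L[ℝ] ℝ)) ∞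
      (fun b : M => TotalSpace.mk' (Eu d →L[ℝ] Eu d →L[ℝ] ℝ)
        (E := fun x : M => TangentSpace (𝓡 d) x →L[ℝ] TangentSpace (𝓡 d) x →L[ℝ] ℝ) b
        (tensG ψ h b)) := by
  unfold tensG
  refine ContMDiff.sum_section fun i _ => ?_
  refine ContMDiff.sum_section fun j _ => ?_
  exact tensor_smooth (hh i j) (hψ i) (hψ j)

end

end Pool.Agent.H73.PZ
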