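import Mathlib
import Pool.Agent.H73.PZ.N3
import Pool.Agent.H73.PZ.E2

/-!
MODULE N1 (MP_d9606f_gt, closed manifolds): differentials in a chart.

* `dL_chart`: `x ∈ source`, `φ = chartAt c`.  `f = (f ∘ φ.symm) ∘ φ` near `x`; chain rule for
  `mfderiv` (`mfderiv_comp`, `mfderiv_eq_fderiv`; `φ` is `MDifferentiableAt` by
  `mdifferentiableAt_atlas` / `contMDiffOn_chart`, with `𝓡 d = 𝓘(ℝ, Eu d)`).
* `chart_inj`: `mfderiv φ x` is injective: `φ.symm ∘ φ = id` near `x`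
  (`(mdifferentiable_chart c).mfderiv_injective`, `MDifferentiable.ker_mfderiv_eq_bot`).
* `dL_comp`: chain rule for `f ∘ g`, `g` a smooth self-map.
* `dL_eq_of_eventuallyEq`: `Filter.EventuallyEq.mfderiv_eq`.
-/

open MeasureTheory Filter Bundle
open scoped Topology ContDiff Manifold

namespace Pool.Agent.H73.PZ

variable {d : ℕ} {M : Type} [TopologicalSpace M] [ChartedSpace (Eu d) M] [IsManifold (𝓡 d) ∞ M]

/-- The differential of a chart. -/
noncomputable def dφ (c : M) (x : M) (v : TangentSpace (𝓡 d) x) : Eu d :=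
  mfderiv (𝓡 d) (𝓡 d) (chartAt (Eu d) c) x v

private theorem one_man (M : Type) [TopologicalSpace M] [ChartedSpace (Eu d) M]
    [IsManifold (𝓡 d) ∞ M] : IsManifold (𝓡 d) 1 M :=
  IsManifold.of_le (n := ∞) (by exact_mod_cast le_top)

theorem dL_chart {f : M → ℝ} (hf : ContMDiff (𝓡 d) 𝓘(ℝ, ℝ) ∞ f) (c x : M)
    (hx : x ∈ (chartAt (Eu d) c).source) (v : TangentSpace (𝓡 d) x) :
    dL f x v = fderiv ℝ (f ∘ (chartAt (Eu d) c).symm) (chartAt (Eu d) c x) (dφ c x v) := by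
  have := one_man (d := d) M
  have hφ : MDifferentiableAt (𝓡 d) (𝓡 d) (chartAt (Eu d) c) x :=
    mdifferentiableAt_atlas (chart_mem_atlas _ _) hx
  have hxt : chartAt (Eu d) c x ∈ (chartAt (Eu d) c).target := (chartAt (Eu d) c).map_source hx
  have hs : MDifferentiableAt (𝓡 d) (𝓡 d) (chartAt (Eu d) c).symm (chartAt (Eu d) c x) :=
    mdifferentiableAt_atlas_symm (chart_mem_atlas _ _) hxt
  have hfd : ∀ y : M, MDifferentiableAt (𝓡 d) 𝓘(ℝ, ℝ) f y := fun y =>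
    (hf y).mdifferentiableAt (by simp)
  have hF : MDifferentiableAt (𝓡 d) 𝓘(ℝ, ℝ) (f ∘ (chartAt (Eu d) c).symm) (chartAt (Eu d) c x) :=
    (hfd _).comp _ hs
  have hev : f =ᶠ[𝓝 x] (f ∘ (chartAt (Eu d) c).symm) ∘ (chartAt (Eu d) c) := by
    filter_upwards [(chartAt (Eu d) c).open_source.mem_nhds hx] with y hy
    simp only [Function.comp_apply, (chartAt (Eu d) c).left_inv hy]
  have h1 : mfderiv (𝓡 d) 𝓘(ℝ, ℝ) f x =
      mfderiv (𝓡 d) 𝓘(ℝ, ℝ) ((f ∘ (chartAt (Eu d) c).symm) ∘ (chartAt (Eu d) c)) x := hev.mfderiv_eq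
  have h2 := mfderiv_comp_apply (x := x) hF hφ v
  have h3 : dL f x v =
      mfderiv (𝓡 d) 𝓘(ℝ, ℝ) ((f ∘ (chartAt (Eu d) c).symm) ∘ (chartAt (Eu d) c)) x v := by
    unfold dL
    rw [h1]
    rfl
  rw [h3, h2]
  unfold dφ
  rw [mfderiv_eq_fderiv]
  rfl

theorem chart_inj (c x : M) (hx : x ∈ (chartAt (Eu d) c).source) (v : TangentSpace (𝓡 d) x)
    (h : dφ c x v = 0) : v = 0 := by
  have := one_man (d := d) M
  have hinj : Function.Injective (mfderiv (𝓡 d) (𝓡 d) (chartAt (Eu d) c) x) :=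
    (mdifferentiable_chart (I := 𝓡 d) c).mfderiv_injective hx
  apply hinj
  rw [map_zero]
  exact h

theorem dL_comp {f : M → ℝ} (hf : ContMDiff (𝓡 d) 𝓘(ℝ, ℝ) ∞ f) {g : M → M}
    (hg : ContMDiff (𝓡 d) (𝓡 d) ∞ g) (x : M) (v : TangentSpace (𝓡 d) x) :
    dL f (g x) (mfderiv (𝓡 d) (𝓡 d) g x v) = dL (fun y => f (g y)) x v := by
  have h1 : MDifferentiableAt (𝓡 d) 𝓘(ℝ, ℝ) f (g x) := (hf (g x)).mdifferentiableAt (by simp)
  have h2 : MDifferentiableAt (𝓡 d) (𝓡 d) g x := (hg x).mdifferentiableAt (by simp)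
  exact (mfderiv_comp_apply (x := x) h1 h2 v).symm

end Pool.Agent.H73.PZ
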