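import Mathlib
import Pool.Agent.H73.PZ.N1

/-!
MODULE N2 (MP_d9606f_gt, closed manifolds): the frame identities on tangent vectors.

`F` is a framed manifold with `F.A = smoothA d M` whose charts are charts of the atlas.
* `frame_dL`: choose `c` with `x ∈ source (F.φ c)` (`F.cover`), `F.φ c = chartAt x₀`; `dL_chart` for
  `f` and for the `ψ j`, and `LF` at `w = F.φ c x` with `u = dφ x₀ x v`.
* `frame_inj`: choose `c` with `F.φ c x ∈ ball (z c) (r c / 2)`; near `F.φ c x` the function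
  `ψ (co c k) ∘ (φ c).symm` is the coordinate `k` (`ψ_co`), so by `dL_chart`
  `0 = dL (ψ (co c k)) x v = (dφ x₀ x v) k` for all `k`, and `chart_inj`.
-/

open MeasureTheory Filter Bundle
open scoped Topology ContDiff Manifold

namespace Pool.Agent.H73.PZ

variable {d : ℕ} {M : Type} [TopologicalSpace M] [ChartedSpace (Eu d) M] [IsManifold (𝓡 d) ∞ M]

theorem frame_dL (F : Fr d M) (hA : F.A = smoothA d M)
    (hch : ∀ c : F.κ, ∃ x₀ : M, F.φ c = chartAt (Eu d) x₀) (f : F.A) (x : M)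
    (v : TangentSpace (𝓡 d) x) :
    dL f.1 x v = ∑ j, dL (F.ψ j).1 x v * (F.X j f).1 x := by
  obtain ⟨c, hx, _⟩ := F.cover x
  obtain ⟨x₀, h0⟩ := hch c
  have hx0 : x ∈ (chartAt (Eu d) x₀).source := h0 ▸ hx
  have hs : ∀ g : F.A, ContMDiff (𝓡 d) 𝓘(ℝ, ℝ) ∞ g.1 := fun g => by
    have h1 : g.1 ∈ smoothA d M := hA ▸ g.2
    exact h1
  have h1 := F.LF c f (F.φ c x) ((F.φ c).map_source hx) (dφ x₀ x v)
  rw [(F.φ c).left_inv hx, h0] at h1
  rw [dL_chart (hs f) x₀ x hx0 v, h1]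
  refine Finset.sum_congr rfl fun j _ => ?_
  rw [dL_chart (hs (F.ψ j)) x₀ x hx0 v]

theorem frame_inj (F : Fr d M) (hA : F.A = smoothA d M)
    (hch : ∀ c : F.κ, ∃ x₀ : M, F.φ c = chartAt (Eu d) x₀) (x : M)
    (v : TangentSpace (𝓡 d) x) (h : ∀ j, dL (F.ψ j).1 x v = 0) : v = 0 := by
  obtain ⟨c, hx, hb⟩ := F.cover x
  obtain ⟨x₀, h0⟩ := hch c
  have hx0 : x ∈ (chartAt (Eu d) x₀).source := h0 ▸ hx
  have hs : ∀ g : F.A, ContMDiff (𝓡 d) 𝓘(ℝ, ℝ) ∞ g.1 := fun g => by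
    have h1 : g.1 ∈ smoothA d M := hA ▸ g.2
    exact h1
  refine chart_inj x₀ x hx0 v ?_
  ext k
  have hk := h (F.co c k)
  rw [dL_chart (hs _) x₀ x hx0 v] at hk
  have hev : ((F.ψ (F.co c k)).1 ∘ (F.φ c).symm) =ᶠ[𝓝 (F.φ c x)]
      fun w : Eu d => (EuclideanSpace.proj k : Eu d →L[ℝ] ℝ) w := by
    have hr : F.r c / 2 ≤ F.r c := by linarith [F.r_pos c]
    have h1 : ∀ᶠ w in 𝓝 (F.φ c x), w ∈ (F.φ c).target :=
      (F.φ c).open_target.mem_nhds ((F.φ c).map_source hx)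
    have h2 : ∀ᶠ w in 𝓝 (F.φ c x), w ∈ Metric.ball (F.z c) (F.r c) :=
      Metric.isOpen_ball.mem_nhds (Metric.ball_subset_ball hr hb)
    filter_upwards [h1, h2] with w hw hw2
    have h3 := F.ψ_co c k ((F.φ c).symm w) ((F.φ c).map_target hw)
      (by rw [(F.φ c).right_inv hw]; exact Metric.ball_subset_closedBall hw2)
    rw [(F.φ c).right_inv hw] at h3
    exact h3
  rw [← h0, hev.fderiv_eq, ContinuousLinearMap.fderiv] at hk
  exact hk

end Pool.Agent.H73.PZ
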