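import Mathlib
import Pool.Agent.H73.PZ.N1

/-!
MODULE W1 (MP_d9606f_gt, closed manifolds): a Riemannian metric is locally comparable with the
Euclidean metric of a chart.

Proof.  `letI : RiemannianBundle (fun x : M => TangentSpace (𝓡 d) x) := ⟨g.toRiemannianMetric⟩`
(see `Mathlib.Topology.VectorBundle.Riemannian`, section on constructing `[RiemannianBundle E]`;
`IsContinuousRiemannianBundle` then is an instance).  Use
`eventually_norm_mfderiv_extChartAt_lt (𝓡 d) x₀` (Mathlib.Geometry.Manifold.Riemannian.Basic) for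
the first inequality (`‖v‖² = g.inner y v v`, `extChartAt (𝓡 d) x₀` is `chartAt x₀`), and
`eventually_norm_mfderivWithin_symm_extChartAt_comp_lt (𝓡 d) x₀` for the second one:
`v = (mfderiv φ.symm (φ y)) (mfderiv φ y v)` for `y` near `x₀`.
Alternatively, directly: in the trivialisation at `x₀` the metric is a continuous family of
positive definite forms on `Eu d` (`g.contMDiff`, `contMDiffAt_hom_bundle`), bounded above and below
near `x₀`.
-/

open MeasureTheory Filter Bundle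
open scoped Topology ContDiff Manifold

namespace Pool.Agent.H73.PZ

variable {d : ℕ} {M : Type} [TopologicalSpace M] [ChartedSpace (Eu d) M] [IsManifold (𝓡 d) ∞ M]

private theorem W1_one (M : Type) [TopologicalSpace M] [ChartedSpace (Eu d) M]
    [IsManifold (𝓡 d) ∞ M] : IsManifold (𝓡 d) 1 M :=
  IsManifold.of_le (n := ∞) (by exact_mod_cast le_top)

theorem local_comp (g : Bundle.ContMDiffRiemannianMetric (𝓡 d) ∞ (Eu d)
      (fun x : M => TangentSpace (𝓡 d) x)) (x₀ : M) :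
    ∃ C : ℝ, 0 < C ∧ ∀ᶠ y in 𝓝 x₀, ∀ v : TangentSpace (𝓡 d) y,
      ‖dφ x₀ y v‖ ^ 2 ≤ C * g.inner y v v ∧ g.inner y v v ≤ C * ‖dφ x₀ y v‖ ^ 2 := by
  have := W1_one (d := d) M
  letI : RiemannianBundle (fun x : M => TangentSpace (𝓡 d) x) := ⟨g.toRiemannianMetric⟩
  have h3 : IsContinuousRiemannianBundle (Eu d) (fun x : M => TangentSpace (𝓡 d) x) :=
    ⟨g.inner, g.contMDiff.continuous, fun _ _ _ => rfl⟩
  have hnorm : ∀ (y : M) (v : TangentSpace (𝓡 d) y), ‖v‖ ^ 2 = g.inner y v v := by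
    intro y v
    rw [← real_inner_self_eq_norm_sq v]
    rfl
  obtain ⟨C₁, hC₁, h₁⟩ := eventually_norm_trivializationAt_lt (Eu d)
    (fun x : M => TangentSpace (𝓡 d) x) x₀
  obtain ⟨C₂, hC₂, h₂⟩ := eventually_norm_symmL_trivializationAt_lt (Eu d)
    (fun x : M => TangentSpace (𝓡 d) x) x₀
  refine ⟨C₁ ^ 2 + C₂ ^ 2, by positivity, ?_⟩
  filter_upwards [h₁, h₂, chart_source_mem_nhds (Eu d) x₀] with y hy1 hy2 hy3
  intro v
  have e1 : (trivializationAt (Eu d) (fun x : M => TangentSpace (𝓡 d) x) x₀).continuousLinearMapAt ℝ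
      y v = dφ x₀ y v := by
    have h4 := TangentBundle.continuousLinearMapAt_trivializationAt (I := 𝓡 d) (𝕜 := ℝ) hy3
    rw [h4]
    unfold dφ
    rfl
  have e2 : (trivializationAt (Eu d) (fun x : M => TangentSpace (𝓡 d) x) x₀).symmL ℝ y
      (dφ x₀ y v) = v := by
    rw [← e1]
    exact (trivializationAt (Eu d) (fun x : M => TangentSpace (𝓡 d) x) x₀).symmL_continuousLinearMapAt
      (R := ℝ) (by simpa using hy3) v
  have hg0 : 0 ≤ g.inner y v v := by
    rw [← hnorm]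
    positivity
  have i1 : ‖dφ x₀ y v‖ ≤ C₁ * ‖v‖ := by
    rw [← e1]
    exact ContinuousLinearMap.le_of_opNorm_le _ hy1.le v
  have i2 : ‖v‖ ≤ C₂ * ‖dφ x₀ y v‖ := by
    calc ‖v‖ = ‖(trivializationAt (Eu d) (fun x : M => TangentSpace (𝓡 d) x) x₀).symmL ℝ y
          (dφ x₀ y v)‖ := by rw [e2]
      _ ≤ _ := ContinuousLinearMap.le_of_opNorm_le _ hy2.le _
  have hn0 : 0 ≤ ‖dφ x₀ y v‖ ^ 2 := by positivity
  constructor
  · have i3 : ‖dφ x₀ y v‖ ^ 2 ≤ (C₁ * ‖v‖) ^ 2 := pow_le_pow_left₀ (norm_nonneg _) i1 2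
    rw [mul_pow, hnorm] at i3
    nlinarith [mul_nonneg (sq_nonneg C₂) hg0]
  · have i3 : ‖v‖ ^ 2 ≤ (C₂ * ‖dφ x₀ y v‖) ^ 2 := pow_le_pow_left₀ (norm_nonneg _) i2 2
    rw [mul_pow, hnorm] at i3
    nlinarith [mul_nonneg (sq_nonneg C₁) hn0]

end Pool.Agent.H73.PZ
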