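import Mathlib
import Pool.Agent.H73.PZ.W1
import Pool.Agent.H73.PZ.N2
import Pool.Agent.H73.PZ.F0

/-!
MODULE W2 (MP_d9606f_gt, closed manifolds): a Riemannian metric is globally comparable with the
metric of the frame.

Proof.  By compactness it is enough to find, for every `x₀`, a constant that works for all `x` in a
neighbourhood of `x₀` (then finitely many neighbourhoods and the maximum).  Let `c` be a chart of
`F` with `x₀ ∈ source (F.φ c)`, `F.φ c x₀ ∈ ball (z c) (r c / 2)` (`F.cover`), `F.φ c = chartAt x₁`.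
* transition: near `x₀`, `chartAt x₀ = T ∘ chartAt x₁` and `chartAt x₁ = T' ∘ chartAt x₀` with smooth
  `T, T'` (`contMDiffOn_chart`, `contMDiffOn_chart_symm`), whose derivatives are bounded near the
  points in question; so `‖dφ x₀ x v‖ ≤ K ‖dφ x₁ x v‖` and conversely, near `x₀`.  (Alternatively
  apply `W1` in the form for `x₁`: its proof works at every point of the source.)
* `dL (F.ψ j) x v = fderiv (F.ψ j ∘ (F.φ c).symm) (F.φ c x) (dφ x₁ x v)` (`dL_chart`), with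
  `F.fderiv_bdd`: `|dL (F.ψ j) x v| ≤ K' ‖dφ x₁ x v‖`; with `local_comp`: first inequality.
* for `x` near `x₀` the coordinate `k` of `dφ x₁ x v` is `dL (F.ψ (F.co c k)) x v` (as in module
  N2), so `‖dφ x₁ x v‖² ≤ ∑_j (dL (F.ψ j) x v)²`; here one can sum over `j` because the square of
  each coordinate is one of the terms (if `co c` is not injective use
  `‖·‖² ≤ d * max_k (..)² ≤ d * ∑_j ..`); with `local_comp`: second inequality.
-/

open MeasureTheory Filter Bundle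
open scoped Topology ContDiff Manifold

namespace Pool.Agent.H73.PZ

variable {d : ℕ} {M : Type} [TopologicalSpace M] [ChartedSpace (Eu d) M] [IsManifold (𝓡 d) ∞ M]

private theorem one_man' (M : Type) [TopologicalSpace M] [ChartedSpace (Eu d) M]
    [IsManifold (𝓡 d) ∞ M] : IsManifold (𝓡 d) 1 M :=
  IsManifold.of_le (n := ∞) (by exact_mod_cast le_top)

private theorem w2_local (F : Fr d M) (hA : F.A = smoothA d M)
    (hch : ∀ c : F.κ, ∃ x₀ : M, F.φ c = chartAt (Eu d) x₀)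
    (g : Bundle.ContMDiffRiemannianMetric (𝓡 d) ∞ (Eu d)
      (fun x : M => TangentSpace (𝓡 d) x)) (x₀ : M) :
    ∃ C : ℝ, 0 < C ∧ ∀ᶠ x in 𝓝 x₀, ∀ v : TangentSpace (𝓡 d) x,
      0 ≤ g.inner x v v ∧ (∀ j, (dL (F.ψ j).1 x v) ^ 2 ≤ C * g.inner x v v) ∧
      g.inner x v v ≤ C * ∑ j, (dL (F.ψ j).1 x v) ^ 2 := by
  obtain ⟨C, hC, hev⟩ := local_comp g x₀
  have hs : ∀ j : F.ι, ContMDiff (𝓡 d) 𝓘(ℝ, ℝ) ∞ (F.ψ j).1 := fun j => by
    have h1 : (F.ψ j).1 ∈ smoothA d M := hA ▸ (F.ψ j).2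
    exact h1
  have hx0 : x₀ ∈ (chartAt (Eu d) x₀).source := mem_chart_source _ _
  have hw0 : chartAt (Eu d) x₀ x₀ ∈ (chartAt (Eu d) x₀).target :=
    (chartAt (Eu d) x₀).map_source hx0
  have hto := (chartAt (Eu d) x₀).open_target
  -- the vector valued function
  have hΨ : ContDiffOn ℝ ∞ (fun (w : Eu d) (j : F.ι) => ((F.ψ j).1 ∘ (chartAt (Eu d) x₀).symm) w)
      (chartAt (Eu d) x₀).target :=
    contDiffOn_pi.mpr fun j => smooth_local ⟨(F.ψ j).1, hs j⟩ x₀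
  set A : Eu d → (Eu d →L[ℝ] (F.ι → ℝ)) :=
    fderiv ℝ (fun (w : Eu d) (j : F.ι) => ((F.ψ j).1 ∘ (chartAt (Eu d) x₀).symm) w) with hAdef
  have hAc : ContinuousAt A (chartAt (Eu d) x₀ x₀) :=
    (hΨ.continuousOn_fderiv_of_isOpen hto (by simp)).continuousAt (hto.mem_nhds hw0)
  have hAj : ∀ x ∈ (chartAt (Eu d) x₀).source, ∀ (v : TangentSpace (𝓡 d) x) (j : F.ι),
      A (chartAt (Eu d) x₀ x) (dφ x₀ x v) j = dL (F.ψ j).1 x v := by
    intro x hx v j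
    rw [dL_chart (hs j) x₀ x hx v, hAdef]
    rw [fderiv_pi (fun j => diff_local ⟨(F.ψ j).1, hs j⟩ x₀
      ((chartAt (Eu d) x₀).map_source hx))]
    rfl
  -- injectivity at the centre
  have hinj : LinearMap.ker (A (chartAt (Eu d) x₀ x₀)).toLinearMap = ⊥ := by
    rw [LinearMap.ker_eq_bot']
    intro u hu
    have h1 := one_man' (d := d) M
    obtain ⟨v, hv⟩ := (mdifferentiable_chart (I := 𝓡 d) x₀).mfderiv_surjective hx0 u
    have hv' : dφ x₀ x₀ v = u := hv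
    have h0 : v = 0 := by
      refine frame_inj F hA hch x₀ v fun j => ?_
      rw [← hAj x₀ hx0 v j, hv']
      exact congrFun hu j
    rw [← hv', h0]
    exact map_zero _
  obtain ⟨K, hK0, hK⟩ := LinearMap.exists_antilipschitzWith _ hinj
  have hK0' : (0 : ℝ) < K := by exact_mod_cast hK0
  have hKb : ∀ u : Eu d, ‖u‖ ≤ K * ‖A (chartAt (Eu d) x₀ x₀) u‖ := by
    intro u
    have h := hK.le_mul_dist u 0
    rw [dist_zero_right, map_zero, dist_zero_right] at h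
    exact h
  set R : ℝ := ‖A (chartAt (Eu d) x₀ x₀)‖ + 1 with hR
  have hR0 : 0 < R := by positivity
  have hnear : ∀ᶠ w in 𝓝 (chartAt (Eu d) x₀ x₀), ‖A w - A (chartAt (Eu d) x₀ x₀)‖ <
      min 1 (1 / (2 * K)) := by
    have hpos : 0 < min (1 : ℝ) (1 / (2 * K)) := by positivity
    have h := Metric.tendsto_nhds.mp hAc _ hpos
    filter_upwards [h] with w hw
    rwa [dist_eq_norm] at hw
  have hcont : ContinuousAt (chartAt (Eu d) x₀) x₀ :=
    (chartAt (Eu d) x₀).continuousAt hx0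
  have hnear' := hcont.eventually hnear
  have hsrc : ∀ᶠ x in 𝓝 x₀, x ∈ (chartAt (Eu d) x₀).source :=
    (chartAt (Eu d) x₀).open_source.mem_nhds hx0
  refine ⟨C * R ^ 2 + C * (2 * K) ^ 2, by positivity, ?_⟩
  filter_upwards [hev, hnear', hsrc] with x h1 h2 h3
  intro v
  obtain ⟨ha, hb⟩ := h1 v
  have hgn : 0 ≤ g.inner x v v := by
    have h4 : 0 ≤ C * g.inner x v v := le_trans (sq_nonneg _) ha
    exact nonneg_of_mul_nonneg_right h4 hC
  have h5 := hAj x h3 v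
  set B : F.ι → ℝ := A (chartAt (Eu d) x₀ x) (dφ x₀ x v) with hB
  have hA1 : ‖A (chartAt (Eu d) x₀ x) - A (chartAt (Eu d) x₀ x₀)‖ ≤ 1 :=
    (h2.trans_le (min_le_left _ _)).le
  have hA2 : ‖A (chartAt (Eu d) x₀ x) - A (chartAt (Eu d) x₀ x₀)‖ ≤ 1 / (2 * K) :=
    (h2.trans_le (min_le_right _ _)).le
  have hAR : ‖A (chartAt (Eu d) x₀ x)‖ ≤ R := by
    have := norm_le_norm_add_norm_sub' (A (chartAt (Eu d) x₀ x)) (A (chartAt (Eu d) x₀ x₀))
    linarith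
  have hBR : ‖B‖ ≤ R * ‖dφ x₀ x v‖ := (A (chartAt (Eu d) x₀ x)).le_of_opNorm_le hAR _
  have hCg : 0 ≤ C * g.inner x v v := mul_nonneg hC.le hgn
  have hS0 : 0 ≤ ∑ j, (dL (F.ψ j).1 x v) ^ 2 := Finset.sum_nonneg fun j _ => sq_nonneg _
  refine ⟨hgn, fun j => ?_, ?_⟩
  · have h6 : |B j| ≤ ‖B‖ := by
      have := norm_le_pi_norm B j
      rwa [Real.norm_eq_abs] at this
    have h7 : |B j| ≤ R * ‖dφ x₀ x v‖ := h6.trans hBR
    have h8 : (B j) ^ 2 ≤ (R * ‖dφ x₀ x v‖) ^ 2 := by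
      rw [← sq_abs]
      exact pow_le_pow_left₀ (abs_nonneg _) h7 2
    rw [← h5 j]
    have h9 : R ^ 2 * ‖dφ x₀ x v‖ ^ 2 ≤ R ^ 2 * (C * g.inner x v v) :=
      mul_le_mul_of_nonneg_left ha (by positivity)
    have h10 : 0 ≤ C * (2 * K) ^ 2 * g.inner x v v := by positivity
    nlinarith
  · have h6 : ‖dφ x₀ x v‖ ≤ 2 * K * ‖B‖ := by
      have e1 := hKb (dφ x₀ x v)
      have e2 : ‖A (chartAt (Eu d) x₀ x₀) (dφ x₀ x v)‖ ≤ ‖B‖ +
          1 / (2 * K) * ‖dφ x₀ x v‖ := by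
        have e3 := (A (chartAt (Eu d) x₀ x) - A (chartAt (Eu d) x₀ x₀)).le_of_opNorm_le hA2
          (dφ x₀ x v)
        rw [ContinuousLinearMap.sub_apply] at e3
        have e4 := norm_le_norm_add_norm_sub' (A (chartAt (Eu d) x₀ x₀) (dφ x₀ x v)) B
        rw [norm_sub_rev] at e4
        linarith
      have e5 : (K : ℝ) * (‖B‖ + 1 / (2 * K) * ‖dφ x₀ x v‖) = K * ‖B‖ + ‖dφ x₀ x v‖ / 2 := by
        field_simp
      have e6 : (K : ℝ) * ‖A (chartAt (Eu d) x₀ x₀) (dφ x₀ x v)‖ ≤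
          K * (‖B‖ + 1 / (2 * K) * ‖dφ x₀ x v‖) := mul_le_mul_of_nonneg_left e2 hK0'.le
      linarith
    have h7 : ‖B‖ ^ 2 ≤ ∑ j, (dL (F.ψ j).1 x v) ^ 2 := by
      have h8 : ‖B‖ ≤ Real.sqrt (∑ j, (dL (F.ψ j).1 x v) ^ 2) := by
        rw [pi_norm_le_iff_of_nonneg (Real.sqrt_nonneg _)]
        intro j
        rw [Real.norm_eq_abs]
        refine Real.abs_le_sqrt ?_
        rw [h5 j]
        exact Finset.single_le_sum (f := fun j => (dL (F.ψ j).1 x v) ^ 2)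
          (fun j _ => sq_nonneg _) (Finset.mem_univ j)
      have h9 := pow_le_pow_left₀ (norm_nonneg _) h8 2
      rwa [Real.sq_sqrt hS0] at h9
    have h8 : ‖dφ x₀ x v‖ ^ 2 ≤ (2 * K * ‖B‖) ^ 2 := pow_le_pow_left₀ (norm_nonneg _) h6 2
    have h9 : (2 * K * ‖B‖) ^ 2 ≤ (2 * K) ^ 2 * ∑ j, (dL (F.ψ j).1 x v) ^ 2 := by
      rw [mul_pow]
      exact mul_le_mul_of_nonneg_left h7 (by positivity)
    have h10 : C * ‖dφ x₀ x v‖ ^ 2 ≤ C * ((2 * K) ^ 2 * ∑ j, (dL (F.ψ j).1 x v) ^ 2) :=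
      mul_le_mul_of_nonneg_left (h8.trans h9) hC.le
    have h11 : 0 ≤ C * R ^ 2 * ∑ j, (dL (F.ψ j).1 x v) ^ 2 := by positivity
    nlinarith

theorem global_comp [CompactSpace M] (F : Fr d M) (hA : F.A = smoothA d M)
    (hch : ∀ c : F.κ, ∃ x₀ : M, F.φ c = chartAt (Eu d) x₀)
    (g : Bundle.ContMDiffRiemannianMetric (𝓡 d) ∞ (Eu d)
      (fun x : M => TangentSpace (𝓡 d) x)) :
    ∃ C : ℝ, 0 < C ∧ ∀ (x : M) (v : TangentSpace (𝓡 d) x),
      (∀ j, (dL (F.ψ j).1 x v) ^ 2 ≤ C * g.inner x v v) ∧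
      g.inner x v v ≤ C * ∑ j, (dL (F.ψ j).1 x v) ^ 2 := by
  choose C hC hev using w2_local F hA hch g
  obtain ⟨t, ht⟩ := CompactSpace.elim_nhds_subcover
    (fun x₀ => {x | ∀ v : TangentSpace (𝓡 d) x,
      0 ≤ g.inner x v v ∧ (∀ j, (dL (F.ψ j).1 x v) ^ 2 ≤ C x₀ * g.inner x v v) ∧
      g.inner x v v ≤ C x₀ * ∑ j, (dL (F.ψ j).1 x v) ^ 2}) (fun x₀ => hev x₀)
  have hle : ∀ x₀ ∈ t, C x₀ ≤ 1 + ∑ y ∈ t, C y := by
    intro x₀ h0
    have := Finset.single_le_sum (f := C) (fun y _ => (hC y).le) h0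
    linarith
  refine ⟨1 + ∑ y ∈ t, C y, ?_, fun x v => ?_⟩
  · have : 0 ≤ ∑ y ∈ t, C y := Finset.sum_nonneg fun y _ => (hC y).le
    linarith
  · have hx : x ∈ (⊤ : Set M) := trivial
    rw [← ht, Set.mem_iUnion₂] at hx
    obtain ⟨x₀, h0, hx⟩ := hx
    obtain ⟨h1, h2, h3⟩ := hx v
    have hS0 : 0 ≤ ∑ j, (dL (F.ψ j).1 x v) ^ 2 := Finset.sum_nonneg fun j _ => sq_nonneg _
    exact ⟨fun j => (h2 j).trans (mul_le_mul_of_nonneg_right (hle x₀ h0) h1),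
      h3.trans (mul_le_mul_of_nonneg_right (hle x₀ h0) hS0)⟩

end Pool.Agent.H73.PZ
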