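import Mathlib
import Pool.Agent.H73.PZ.N2

/-!
MODULE W3 (MP_d9606f_gt, closed manifolds): the derivations `F.X i` are given by tangent vectors.

Proof.  Choose `c` with `x ∈ source (F.φ c)`, `F.φ c x ∈ ball (z c) (r c / 2)` (`F.cover`),
`F.φ c = chartAt x₁`, and `ξ = ∑_k (X i (ψ (co c k))) x • e_k ∈ Eu d`.  The linear map
`v ↦ dφ x₁ x v` from `TangentSpace (𝓡 d) x` (which is `Eu d`) to `Eu d` is injective
(`chart_inj`), hence surjective (`LinearMap.injective_iff_surjective`), so there is `v` with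
`dφ x₁ x v = ξ`, and `dL f x v = fderiv (f ∘ (F.φ c).symm) (F.φ c x) ξ = (X i f) x` by `dL_chart` and
`LF2` (linearity).
-/

open MeasureTheory Filter Bundle
open scoped Topology ContDiff Manifold

namespace Pool.Agent.H73.PZ

variable {d : ℕ} {M : Type} [TopologicalSpace M] [ChartedSpace (Eu d) M] [IsManifold (𝓡 d) ∞ M]

theorem exists_vec (F : Fr d M) (hA : F.A = smoothA d M)
    (hch : ∀ c : F.κ, ∃ x₀ : M, F.φ c = chartAt (Eu d) x₀) (i : F.ι) (x : M) :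
    ∃ v : TangentSpace (𝓡 d) x, ∀ f : F.A, dL f.1 x v = (F.X i f).1 x := by
  have : IsManifold (𝓡 d) 1 M := IsManifold.of_le (n := ∞) (by exact_mod_cast le_top)
  obtain ⟨c, hx, hb⟩ := F.cover x
  obtain ⟨x₀, h0⟩ := hch c
  have hx0 : x ∈ (chartAt (Eu d) x₀).source := h0 ▸ hx
  have hs : ∀ g : F.A, ContMDiff (𝓡 d) 𝓘(ℝ, ℝ) ∞ g.1 := fun g => by
    have h1 : g.1 ∈ smoothA d M := hA ▸ g.2
    exact h1
  have hb' : F.φ c x ∈ Metric.ball (F.z c) (F.r c) :=
    Metric.ball_subset_ball (by linarith [F.r_pos c]) hb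
  have hsurj : Function.Surjective (mfderiv (𝓡 d) (𝓡 d) (chartAt (Eu d) x₀) x) :=
    (mdifferentiable_chart (I := 𝓡 d) x₀).mfderiv_surjective hx0
  obtain ⟨v, hv⟩ := hsurj
    (∑ k, (F.X i (F.ψ (F.co c k))).1 x • EuclideanSpace.single k (1 : ℝ) : Eu d)
  have hv' : dφ x₀ x v =
      ∑ k, (F.X i (F.ψ (F.co c k))).1 x • EuclideanSpace.single k (1 : ℝ) := hv
  refine ⟨v, fun f => ?_⟩
  rw [dL_chart (hs f) x₀ x hx0 v, ← h0, hv', map_sum, F.LF2 c f i x hx hb']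
  apply Finset.sum_congr rfl
  intro k _
  rw [map_smul, smul_eq_mul, mul_comm]

end Pool.Agent.H73.PZ
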