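import Mathlib
import Pool.Agent.H73.PZ.Cal

/-!
MODULE A1 (MP_d9606f_gt, paper `/team-store/h73_padic_zimmer.md`, C1: Leibniz bounds).

Everything at a fixed point `x`.  Induction on the list `I`, for all `u, v, a, b` (and `hu`, `hv`)
at once:
`D (i :: I) (u v) = D I (X_i u * v + u * X_i v)` (`Derivation.leibniz`, smul is multiplication).
* `leib_bound`: `X_i u` satisfies `|D Q (X_i u)| = |D (i :: Q) u| ≤ a Λ^(|Q|+1) = (a Λ) Λ^|Q|` for
  `|Q| ≤ |I|`, so both summands are bounded by `2^|I| (a Λ) b Λ^|I|` (the same for `v`).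
* `leib_bound'`: `D (i::I) (u v) - D (i::I) u * v = [D I (X_i u * v) - D I (X_i u) * v]
  + D I (u * X_i v)`.  The bracket by the induction hypothesis (`X_i u` satisfies the bound with
  `a Λ` for `|Q| + 1 < |I| + 1`), the last term by `leib_bound` (`u` is bounded for
  `|Q| ≤ |I| < |I| + 1`, and `X_i v` with `b Λ` for `|Q| ≤ |I|`).
-/

namespace Pool.Agent.H73.PZ.Calc

variable {Γ : Type} [Group Γ] {M : Type} [TopologicalSpace M] [MeasurableSpace M]
  [MulAction Γ M] {ι : Type} [Fintype ι] {d : ℕ} (c : Calc Γ M ι d)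

private theorem A1_leib (x : M) (i : ι) (I : List ι) (u v : c.A) :
    (c.D (i :: I) (u * v)).1 x = (c.D I (c.X i u * v)).1 x + (c.D I (u * c.X i v)).1 x := by
  have h : c.D (i :: I) (u * v) = c.D I (c.X i u * v) + c.D I (u * c.X i v) := by
    rw [← map_add]
    change XX c.X (i :: I) (u * v) = XX c.X I (c.X i u * v + u * c.X i v)
    rw [XX_cons, Derivation.leibniz, smul_eq_mul, smul_eq_mul, add_comm, mul_comm v]
  rw [h, c.val_add]

theorem leib_bound (x : M) {Λ : ℝ} (hΛ : 0 ≤ Λ) (I : List ι) (u v : c.A) {a b : ℝ} (ha : 0 ≤ a)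
    (hb : 0 ≤ b)
    (hu : ∀ Q : List ι, Q.length ≤ I.length → |(c.D Q u).1 x| ≤ a * Λ ^ Q.length)
    (hv : ∀ Q : List ι, Q.length ≤ I.length → |(c.D Q v).1 x| ≤ b * Λ ^ Q.length) :
    |(c.D I (u * v)).1 x| ≤ 2 ^ I.length * (a * b) * Λ ^ I.length := by
  induction I generalizing u v a b with
  | nil =>
    have h1 := hu [] (le_refl _)
    have h2 := hv [] (le_refl _)
    simp only [List.length_nil, pow_zero, mul_one, one_mul] at h1 h2 ⊢
    change |(u * v).1 x| ≤ a * b
    rw [c.val_mul, abs_mul]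
    exact mul_le_mul h1 h2 (abs_nonneg _) ha
  | cons i I ih =>
    rw [A1_leib]
    have h1 := ih (c.X i u) v (a := a * Λ) (b := b) (mul_nonneg ha hΛ) hb
      (fun Q hQ => by
        have := hu (i :: Q) (by simp only [List.length_cons]; omega)
        simp only [List.length_cons, pow_succ] at this
        calc |(c.D Q (c.X i u)).1 x| ≤ a * (Λ ^ Q.length * Λ) := this
          _ = a * Λ * Λ ^ Q.length := by ring)
      (fun Q hQ => hv Q (by simp only [List.length_cons]; omega))
    have h2 := ih u (c.X i v) (a := a) (b := b * Λ) ha (mul_nonneg hb hΛ)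
      (fun Q hQ => hu Q (by simp only [List.length_cons]; omega))
      (fun Q hQ => by
        have := hv (i :: Q) (by simp only [List.length_cons]; omega)
        simp only [List.length_cons, pow_succ] at this
        calc |(c.D Q (c.X i v)).1 x| ≤ b * (Λ ^ Q.length * Λ) := this
          _ = b * Λ * Λ ^ Q.length := by ring)
    calc |(c.D I (c.X i u * v)).1 x + (c.D I (u * c.X i v)).1 x|
        ≤ |(c.D I (c.X i u * v)).1 x| + |(c.D I (u * c.X i v)).1 x| := abs_add_le _ _
      _ ≤ 2 ^ I.length * (a * Λ * b) * Λ ^ I.length +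
          2 ^ I.length * (a * (b * Λ)) * Λ ^ I.length := add_le_add h1 h2
      _ = 2 ^ (i :: I).length * (a * b) * Λ ^ (i :: I).length := by
          simp only [List.length_cons, pow_succ]; ring

theorem leib_bound' (x : M) {Λ : ℝ} (hΛ : 0 ≤ Λ) (I : List ι) (u v : c.A) {a b : ℝ} (ha : 0 ≤ a)
    (hb : 0 ≤ b)
    (hu : ∀ Q : List ι, Q.length < I.length → |(c.D Q u).1 x| ≤ a * Λ ^ Q.length)
    (hv : ∀ Q : List ι, 1 ≤ Q.length → Q.length ≤ I.length →
      |(c.D Q v).1 x| ≤ b * Λ ^ Q.length) :
    |(c.D I (u * v)).1 x - (c.D I u).1 x * v.1 x| ≤ 2 ^ I.length * (a * b) * Λ ^ I.length := by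
  induction I generalizing u v a b with
  | nil =>
    change |(u * v).1 x - u.1 x * v.1 x| ≤ _
    rw [c.val_mul, sub_self, abs_zero]
    positivity
  | cons i I ih =>
    rw [A1_leib]
    have h1 := ih (c.X i u) v (a := a * Λ) (b := b) (mul_nonneg ha hΛ) hb
      (fun Q hQ => by
        have := hu (i :: Q) (by simp only [List.length_cons]; omega)
        simp only [List.length_cons, pow_succ] at this
        calc |(c.D Q (c.X i u)).1 x| ≤ a * (Λ ^ Q.length * Λ) := this
          _ = a * Λ * Λ ^ Q.length := by ring)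
      (fun Q hQ1 hQ => hv Q hQ1 (by simp only [List.length_cons]; omega))
    have h2 := c.leib_bound x hΛ I u (c.X i v) (a := a) (b := b * Λ) ha (mul_nonneg hb hΛ)
      (fun Q hQ => hu Q (by simp only [List.length_cons]; omega))
      (fun Q hQ => by
        have := hv (i :: Q) (by simp only [List.length_cons]; omega)
          (by simp only [List.length_cons]; omega)
        simp only [List.length_cons, pow_succ] at this
        calc |(c.D Q (c.X i v)).1 x| ≤ b * (Λ ^ Q.length * Λ) := this
          _ = b * Λ * Λ ^ Q.length := by ring)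
    have h3 : (c.D (i :: I) u).1 x = (c.D I (c.X i u)).1 x := rfl
    rw [h3]
    calc |(c.D I (c.X i u * v)).1 x + (c.D I (u * c.X i v)).1 x - (c.D I (c.X i u)).1 x * v.1 x|
        = |((c.D I (c.X i u * v)).1 x - (c.D I (c.X i u)).1 x * v.1 x) +
            (c.D I (u * c.X i v)).1 x| := by congr 1; ring
      _ ≤ |(c.D I (c.X i u * v)).1 x - (c.D I (c.X i u)).1 x * v.1 x| +
            |(c.D I (u * c.X i v)).1 x| := abs_add_le _ _
      _ ≤ 2 ^ I.length * (a * Λ * b) * Λ ^ I.length +
          2 ^ I.length * (a * (b * Λ)) * Λ ^ I.length := add_le_add h1 h2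
      _ = 2 ^ (i :: I).length * (a * b) * Λ ^ (i :: I).length := by
          simp only [List.length_cons, pow_succ]; ring

end Pool.Agent.H73.PZ.Calc
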