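import Mathlib
import Pool.Agent.H73.PZ.A1

/-!
MODULE A2 (MP_d9606f_gt, paper `/team-store/h73_padic_zimmer.md`, C1: higher chain rule).

* `comp_bound`: induction on `L`.  `L = 0`: `I = []`, `C = 1`.  `L + 1`: for `|I| ≤ L` use the
  induction hypothesis.  For `I = i :: I'`, `|I'| = L`:
  `D I (cmp γ f) = ∑_j D I' (u_j * v_j)` with `u_j = X i (cmp γ (ψ j))`, `v_j = cmp γ (X j f)`
  (`chain`, `map_sum`).  `leib_bound` with `a = B Λ`
  (`|D Q u_j| = |D (i :: Q) (cmp γ (ψ j))| ≤ B Λ^(|Q|+1)`, `|Q| ≤ L`) and `b = C_L F` (induction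
  hypothesis for `X j f`: `|D J (X j f)| = |D (j :: J) f| ≤ F` for `|J| ≤ |Q| ≤ L`).  So
  `C_{L+1} = max C_L (card ι * 2^L * B * C_L)`.
* `comp_refined`: `I = i :: I'`, `|I'| = L`, the same `u_j, v_j`;
  `D I (cmp γ (ψ j)) = D I' u_j`, `v_j x = (X j f) (γ x)`; `leib_bound'` with `a = B Λ`
  (`|Q| < L`), `b = C_L F` (`comp_bound`); `C = card ι * 2^L * B * C_L`.
-/

namespace Pool.Agent.H73.PZ.Calc

variable {Γ : Type} [Group Γ] {M : Type} [TopologicalSpace M] [MeasurableSpace M]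
  [MulAction Γ M] {ι : Type} [Fintype ι] {d : ℕ} (c : Calc Γ M ι d)

private theorem A2_expand (γ : Γ) (x : M) (i : ι) (I : List ι) (f : c.A) :
    (c.D (i :: I) (c.cmp γ f)).1 x =
      ∑ l, (c.D I (c.X i (c.cmp γ (c.ψ l)) * c.cmp γ (c.X l f))).1 x := by
  have h : c.D (i :: I) (c.cmp γ f) =
      ∑ l, c.D I (c.X i (c.cmp γ (c.ψ l)) * c.cmp γ (c.X l f)) := by
    rw [← map_sum, ← c.chain]
    rfl
  rw [h, c.val_sum]

theorem comp_bound (L : ℕ) {B : ℝ} (hB : 0 ≤ B) : ∃ C : ℝ, 0 ≤ C ∧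
    ∀ (γ : Γ) (x : M) (Λ : ℝ), 1 ≤ Λ →
    (∀ (l : ι) (Q : List ι), 1 ≤ Q.length → Q.length ≤ L →
      |(c.D Q (c.cmp γ (c.ψ l))).1 x| ≤ B * Λ ^ Q.length) →
    ∀ I : List ι, I.length ≤ L → ∀ (f : c.A) (F : ℝ), 0 ≤ F →
    (∀ J : List ι, J.length ≤ I.length → |(c.D J f).1 (γ • x)| ≤ F) →
    |(c.D I (c.cmp γ f)).1 x| ≤ C * F * Λ ^ I.length := by
  induction L with
  | zero =>
    refine ⟨1, zero_le_one, fun γ x Λ _ _ I hI f F _ hF => ?_⟩
    have hI0 : I = [] := List.length_eq_zero_iff.1 (Nat.le_zero.1 hI)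
    subst hI0
    have h1 := hF [] (le_refl _)
    simp only [List.length_nil, pow_zero, mul_one, one_mul]
    change |(c.cmp γ f).1 x| ≤ F
    rw [c.cmp_apply]
    exact h1
  | succ L ih =>
    obtain ⟨C, hC, hL⟩ := ih
    refine ⟨max C (Fintype.card ι * 2 ^ L * B * C), le_max_of_le_left hC, ?_⟩
    intro γ x Λ hΛ hyp I hI f F hF hJ
    have hΛ0 : 0 ≤ Λ := zero_le_one.trans hΛ
    have key := hL γ x Λ hΛ (fun l Q h1 h2 => hyp l Q h1 (h2.trans (Nat.le_succ L)))
    rcases Nat.lt_or_ge L I.length with hlt | hle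
    · have hlen : I.length = L + 1 := le_antisymm hI hlt
      cases I with
      | nil => simp at hlen
      | cons i I =>
        have hI' : I.length = L := by simpa using hlen
        rw [A2_expand]
        have hterm : ∀ l : ι, |(c.D I (c.X i (c.cmp γ (c.ψ l)) * c.cmp γ (c.X l f))).1 x| ≤
            2 ^ I.length * (B * Λ * (C * F)) * Λ ^ I.length := by
          intro l
          refine c.leib_bound x hΛ0 I _ _ (mul_nonneg hB hΛ0) (mul_nonneg hC hF) ?_ ?_
          · intro Q hQ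
            have := hyp l (i :: Q) (by simp) (by simp only [List.length_cons]; omega)
            simp only [List.length_cons, pow_succ] at this
            calc |(c.D Q (c.X i (c.cmp γ (c.ψ l)))).1 x| ≤ B * (Λ ^ Q.length * Λ) := this
              _ = B * Λ * Λ ^ Q.length := by ring
          · intro Q hQ
            refine key Q (by omega) (c.X l f) F hF fun J hJQ => ?_
            exact hJ (l :: J) (by simp only [List.length_cons]; omega)
        calc |∑ l, (c.D I (c.X i (c.cmp γ (c.ψ l)) * c.cmp γ (c.X l f))).1 x|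
            ≤ ∑ l, |(c.D I (c.X i (c.cmp γ (c.ψ l)) * c.cmp γ (c.X l f))).1 x| :=
              Finset.abs_sum_le_sum_abs _ _
          _ ≤ ∑ _l : ι, 2 ^ I.length * (B * Λ * (C * F)) * Λ ^ I.length :=
              Finset.sum_le_sum fun l _ => hterm l
          _ = (Fintype.card ι * 2 ^ L * B * C) * F * Λ ^ (i :: I).length := by
              rw [Finset.sum_const, nsmul_eq_mul, Finset.card_univ, hI', List.length_cons, hI',
                pow_succ]
              ring
          _ ≤ max C (Fintype.card ι * 2 ^ L * B * C) * F * Λ ^ (i :: I).length :=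
              mul_le_mul_of_nonneg_right (mul_le_mul_of_nonneg_right (le_max_right _ _) hF)
                (pow_nonneg hΛ0 _)
    · refine (key I hle f F hF hJ).trans ?_
      exact mul_le_mul_of_nonneg_right (mul_le_mul_of_nonneg_right (le_max_left _ _) hF)
        (pow_nonneg hΛ0 _)

theorem comp_refined (L : ℕ) {B : ℝ} (hB : 0 ≤ B) : ∃ C : ℝ, 0 ≤ C ∧
    ∀ (γ : Γ) (x : M) (Λ : ℝ), 1 ≤ Λ →
    (∀ (l : ι) (Q : List ι), 1 ≤ Q.length → Q.length ≤ L →
      |(c.D Q (c.cmp γ (c.ψ l))).1 x| ≤ B * Λ ^ Q.length) →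
    ∀ I : List ι, I.length = L + 1 → ∀ (f : c.A) (F : ℝ), 0 ≤ F →
    (∀ J : List ι, J.length ≤ L + 1 → |(c.D J f).1 (γ • x)| ≤ F) →
    |(c.D I (c.cmp γ f)).1 x -
      ∑ l, (c.D I (c.cmp γ (c.ψ l))).1 x * (c.X l f).1 (γ • x)| ≤ C * F * Λ ^ (L + 1) := by
  obtain ⟨C, hC, hL⟩ := c.comp_bound L hB
  refine ⟨Fintype.card ι * 2 ^ L * B * C, by positivity, ?_⟩
  intro γ x Λ hΛ hyp I hI f F hF hJ
  have hΛ0 : 0 ≤ Λ := zero_le_one.trans hΛ
  have key := hL γ x Λ hΛ hyp
  cases I with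
  | nil => simp at hI
  | cons i I =>
    have hI' : I.length = L := by simpa using hI
    rw [A2_expand]
    have hterm : ∀ l : ι, |(c.D I (c.X i (c.cmp γ (c.ψ l)) * c.cmp γ (c.X l f))).1 x -
        (c.D (i :: I) (c.cmp γ (c.ψ l))).1 x * (c.X l f).1 (γ • x)| ≤
        2 ^ I.length * (B * Λ * (C * F)) * Λ ^ I.length := by
      intro l
      have h0 := c.leib_bound' x hΛ0 I (c.X i (c.cmp γ (c.ψ l))) (c.cmp γ (c.X l f))
        (mul_nonneg hB hΛ0) (mul_nonneg hC hF)
        (fun Q hQ => by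
          have := hyp l (i :: Q) (by simp) (by simp only [List.length_cons]; omega)
          simp only [List.length_cons, pow_succ] at this
          calc |(c.D Q (c.X i (c.cmp γ (c.ψ l)))).1 x| ≤ B * (Λ ^ Q.length * Λ) := this
            _ = B * Λ * Λ ^ Q.length := by ring)
        (fun Q _ hQ => by
          refine key Q (by omega) (c.X l f) F hF fun J hJQ => ?_
          exact hJ (l :: J) (by simp only [List.length_cons]; omega))
      rw [c.cmp_apply γ (c.X l f) x] at h0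
      exact h0
    rw [← Finset.sum_sub_distrib]
    calc |∑ l, ((c.D I (c.X i (c.cmp γ (c.ψ l)) * c.cmp γ (c.X l f))).1 x -
          (c.D (i :: I) (c.cmp γ (c.ψ l))).1 x * (c.X l f).1 (γ • x))|
        ≤ ∑ l, |(c.D I (c.X i (c.cmp γ (c.ψ l)) * c.cmp γ (c.X l f))).1 x -
          (c.D (i :: I) (c.cmp γ (c.ψ l))).1 x * (c.X l f).1 (γ • x)| :=
          Finset.abs_sum_le_sum_abs _ _
      _ ≤ ∑ _l : ι, 2 ^ I.length * (B * Λ * (C * F)) * Λ ^ I.length :=
          Finset.sum_le_sum fun l _ => hterm l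
      _ = (Fintype.card ι * 2 ^ L * B * C) * F * Λ ^ (L + 1) := by
          rw [Finset.sum_const, nsmul_eq_mul, Finset.card_univ, hI', pow_succ]
          ring

end Pool.Agent.H73.PZ.Calc
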