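import Mathlib

/-!
MODULE A3a (MP_d9606f_gt, paper `/team-store/h73_padic_zimmer.md`, C2; Mathlib only).
Unrolling a linear recursion with errors.

With `r t = v (t+1) - v t * P t` one has for `m ≥ 1`
`v m = v 0 * Pr 0 + ∑_{t + 1 < m} r t * Pr (t+1) + r (m-1)`
(row vectors times matrices; downward induction: for `t + 1 ≤ m`,
`v m = v t * Pr t + ∑_{t ≤ u, u + 1 < m} r u * Pr (u+1) + r (m-1)`).
Bounds: `|v 0 * Pr 0| ≤ card ι * a * K * Q^m`,
`|r t * Pr (t+1)| ≤ card ι * R * K * Q^(k t) * Q^(m-t-1)`, and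
`∑_{t<m} Q^(k t) Q^(m-t-1) ≤ Q^m ∑_{t<m} (Q^(k-1))^t ≤ Q^m Q^((k-1) m) / (Q - 1)`
(`Q^(k-1) ≥ Q > 1`, geometric sum).  `|r (m-1)| ≤ R Q^(k m)`.
Take `C = a + card ι * a * K + R + card ι * R * K / (Q - 1)`; `m = 0` is trivial.
-/

namespace Pool.Agent.H73.PZ

theorem unroll {ι : Type} [Fintype ι] {Q : ℝ} (hQ : 1 < Q) {k : ℕ} (hk : 2 ≤ k) {K a R : ℝ}
    (hK : 0 ≤ K) (ha : 0 ≤ a) (hR : 0 ≤ R) :
    ∃ C : ℝ, 0 ≤ C ∧ ∀ (m : ℕ) (v : ℕ → ι → ℝ) (P Pr : ℕ → ι → ι → ℝ),
      (∀ t, t + 1 < m → ∀ i j, Pr t i j = ∑ l, P t i l * Pr (t + 1) l j) →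
      (∀ t, t + 1 = m → ∀ i j, Pr t i j = P t i j) →
      (∀ t, t < m → ∀ i j, |Pr t i j| ≤ K * Q ^ (m - t)) →
      (∀ t, t < m → ∀ j, |v (t + 1) j - ∑ l, v t l * P t l j| ≤ R * Q ^ (k * t)) →
      (∀ l, |v 0 l| ≤ a) →
      ∀ j, |v m j| ≤ C * Q ^ (k * m) := by
  have hQ0 : 0 < Q := zero_lt_one.trans hQ
  set T : ℝ := Q ^ (k - 1) with hT
  have hT1 : 1 < T := one_lt_pow₀ hQ (by omega)
  have hT0 : 0 < T := zero_lt_one.trans hT1
  have hTm : 0 < T - 1 := sub_pos.2 hT1
  set n : ℝ := (Fintype.card ι : ℝ) with hn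
  have hn0 : 0 ≤ n := Nat.cast_nonneg _
  refine ⟨a + n * a * K + R + n * R * K / (T - 1), by positivity, ?_⟩
  intro m v P Pr h1 h2 h3 h4 h5 j
  have hQT : ∀ s : ℕ, Q ^ (k * s) = Q ^ s * T ^ s := by
    intro s
    rw [hT, ← pow_mul, ← pow_add]
    congr 1
    obtain ⟨k', rfl⟩ := Nat.exists_eq_add_of_le hk
    have : 2 + k' - 1 = 1 + k' := by omega
    rw [this]
    ring
  rcases Nat.eq_zero_or_pos m with hm | hm
  · subst hm
    rw [mul_zero, pow_zero, mul_one]
    have h6 := h5 j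
    have h7 : 0 ≤ n * a * K := by positivity
    have h8 : 0 ≤ n * R * K / (T - 1) := by positivity
    linarith
  have key : ∀ s : ℕ, ∀ t : ℕ, t + s + 1 = m →
      |v m j - ∑ l, v t l * Pr t l j| ≤
        R * Q ^ (k * m) + n * R * K * Q ^ m * ((T ^ m - T ^ t) / (T - 1)) := by
    intro s
    induction s with
    | zero =>
      intro t ht
      have ht' : t + 1 = m := by omega
      have h6 : ∑ l, v t l * Pr t l j = ∑ l, v t l * P t l j :=
        Finset.sum_congr rfl fun l _ => by rw [h2 t ht' l j]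
      rw [h6]
      have h7 := h4 t (by omega) j
      rw [ht'] at h7
      have h8 : R * Q ^ (k * t) ≤ R * Q ^ (k * m) :=
        mul_le_mul_of_nonneg_left (pow_le_pow_right₀ hQ.le (Nat.mul_le_mul_left k (by omega))) hR
      have h9 : T ^ t ≤ T ^ m := pow_le_pow_right₀ hT1.le (by omega)
      have h10 : 0 ≤ n * R * K * Q ^ m * ((T ^ m - T ^ t) / (T - 1)) :=
        mul_nonneg (by positivity) (div_nonneg (sub_nonneg.2 h9) hTm.le)
      linarith
    | succ s ih =>
      intro t ht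
      have ih' := ih (t + 1) (by omega)
      have e1 : ∑ l, v t l * Pr t l j = ∑ l, (∑ i, v t i * P t i l) * Pr (t + 1) l j := by
        have e2 : ∀ i, v t i * Pr t i j = ∑ l, v t i * P t i l * Pr (t + 1) l j := by
          intro i
          rw [h1 t (by omega) i j, Finset.mul_sum]
          exact Finset.sum_congr rfl fun l _ => by ring
        rw [Finset.sum_congr rfl fun i _ => e2 i, Finset.sum_comm]
        exact Finset.sum_congr rfl fun l _ => by rw [Finset.sum_mul]
      have e3 : v m j - ∑ l, v t l * Pr t l j =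
          (v m j - ∑ l, v (t + 1) l * Pr (t + 1) l j) +
          ∑ l, (v (t + 1) l - ∑ i, v t i * P t i l) * Pr (t + 1) l j := by
        rw [e1]
        simp only [sub_mul, Finset.sum_sub_distrib]
        ring
      rw [e3]
      have e4 : |∑ l, (v (t + 1) l - ∑ i, v t i * P t i l) * Pr (t + 1) l j| ≤
          n * ((R * Q ^ (k * t)) * (K * Q ^ (m - (t + 1)))) := by
        refine (Finset.abs_sum_le_sum_abs _ _).trans ?_
        have e5 : ∀ l ∈ (Finset.univ : Finset ι),
            |(v (t + 1) l - ∑ i, v t i * P t i l) * Pr (t + 1) l j| ≤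
              (R * Q ^ (k * t)) * (K * Q ^ (m - (t + 1))) := by
          intro l _
          rw [abs_mul]
          exact mul_le_mul (h4 t (by omega) l) (h3 (t + 1) (by omega) l j) (abs_nonneg _)
            (by positivity)
        refine (Finset.sum_le_card_nsmul _ _ _ e5).trans ?_
        rw [nsmul_eq_mul, Finset.card_univ]
      have e6 : Q ^ (k * t) * Q ^ (m - (t + 1)) ≤ Q ^ m * T ^ t := by
        rw [hQT t]
        have e7 : Q ^ t * T ^ t * Q ^ (m - (t + 1)) = (Q ^ t * Q ^ (m - (t + 1))) * T ^ t := by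
          ring
        rw [e7, ← pow_add]
        exact mul_le_mul_of_nonneg_right (pow_le_pow_right₀ hQ.le (by omega)) (by positivity)
      have e8 : n * ((R * Q ^ (k * t)) * (K * Q ^ (m - (t + 1)))) ≤
          n * R * K * Q ^ m * T ^ t := by
        have e9 : n * ((R * Q ^ (k * t)) * (K * Q ^ (m - (t + 1)))) =
            (n * R * K) * (Q ^ (k * t) * Q ^ (m - (t + 1))) := by ring
        have e10 : n * R * K * Q ^ m * T ^ t = (n * R * K) * (Q ^ m * T ^ t) := by ring
        rw [e9, e10]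
        exact mul_le_mul_of_nonneg_left e6 (by positivity)
      have e11 : (T ^ m - T ^ t) / (T - 1) = (T ^ m - T ^ (t + 1)) / (T - 1) + T ^ t := by
        rw [pow_succ]
        field_simp
        ring
      rw [e11]
      have e12 := abs_add_le (v m j - ∑ l, v (t + 1) l * Pr (t + 1) l j)
        (∑ l, (v (t + 1) l - ∑ i, v t i * P t i l) * Pr (t + 1) l j)
      have e13 : n * R * K * Q ^ m * ((T ^ m - T ^ (t + 1)) / (T - 1) + T ^ t) =
          n * R * K * Q ^ m * ((T ^ m - T ^ (t + 1)) / (T - 1)) + n * R * K * Q ^ m * T ^ t := by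
        ring
      linarith
  have k1 := key (m - 1) 0 (by omega)
  have k2 : |∑ l, v 0 l * Pr 0 l j| ≤ n * (a * (K * Q ^ m)) := by
    refine (Finset.abs_sum_le_sum_abs _ _).trans ?_
    have e5 : ∀ l ∈ (Finset.univ : Finset ι), |v 0 l * Pr 0 l j| ≤ a * (K * Q ^ m) := by
      intro l _
      rw [abs_mul]
      have := h3 0 hm l j
      rw [Nat.sub_zero] at this
      exact mul_le_mul (h5 l) this (abs_nonneg _) ha
    refine (Finset.sum_le_card_nsmul _ _ _ e5).trans ?_
    rw [nsmul_eq_mul, Finset.card_univ]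
  have k3 : |v m j| ≤ |v m j - ∑ l, v 0 l * Pr 0 l j| + |∑ l, v 0 l * Pr 0 l j| := by
    have := abs_add_le (v m j - ∑ l, v 0 l * Pr 0 l j) (∑ l, v 0 l * Pr 0 l j)
    rwa [sub_add_cancel] at this
  have k4 : Q ^ m ≤ Q ^ (k * m) := by
    apply pow_le_pow_right₀ hQ.le
    have : 1 * m ≤ k * m := Nat.mul_le_mul_right m (by omega)
    omega
  have k5 : n * R * K * Q ^ m * ((T ^ m - T ^ 0) / (T - 1)) ≤
      n * R * K / (T - 1) * Q ^ (k * m) := by
    rw [hQT m]
    have e1 : n * R * K / (T - 1) * (Q ^ m * T ^ m) = n * R * K * Q ^ m * (T ^ m / (T - 1)) := by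
      ring
    rw [e1]
    apply mul_le_mul_of_nonneg_left _ (by positivity)
    apply div_le_div_of_nonneg_right _ hTm.le
    rw [pow_zero]
    linarith
  have k6 : n * (a * (K * Q ^ m)) ≤ n * a * K * Q ^ (k * m) := by
    have e1 : n * (a * (K * Q ^ m)) = n * a * K * Q ^ m := by ring
    rw [e1]
    exact mul_le_mul_of_nonneg_left k4 (by positivity)
  have k7 : 0 ≤ a * Q ^ (k * m) := by positivity
  have k8 : (a + n * a * K + R + n * R * K / (T - 1)) * Q ^ (k * m) =
      a * Q ^ (k * m) + n * a * K * Q ^ (k * m) + R * Q ^ (k * m) +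
        n * R * K / (T - 1) * Q ^ (k * m) := by ring
  rw [k8]
  linarith

end Pool.Agent.H73.PZ
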