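import Mathlib

/-!
Positive semidefinite symmetric bilinear forms on real vector spaces, as plain functions, and the
seminorm `nm B v = √(B v v)`.  (MP_d9606f_gt, helper73; proved.)
-/

namespace Pool.Agent.H73.PZ

noncomputable section

/-- A positive semidefinite symmetric bilinear form. -/
structure PSD {V : Type} [AddCommGroup V] [Module ℝ V] (B : V → V → ℝ) : Prop where
  add_left : ∀ u v w, B (u + v) w = B u w + B v w
  smul_left : ∀ (r : ℝ) (u v), B (r • u) v = r * B u v
  symm : ∀ u v, B u v = B v u
  nonneg : ∀ v, 0 ≤ B v v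

/-- The seminorm of a positive semidefinite form. -/
def nm {V : Type} (B : V → V → ℝ) (v : V) : ℝ := Real.sqrt (B v v)

namespace PSD

variable {V : Type} [AddCommGroup V] [Module ℝ V] {B : V → V → ℝ}

theorem add_right (h : PSD B) (u v w : V) : B u (v + w) = B u v + B u w := by
  rw [h.symm, h.add_left, h.symm v, h.symm w]

theorem smul_right (h : PSD B) (r : ℝ) (u v : V) : B u (r • v) = r * B u v := by
  rw [h.symm, h.smul_left, h.symm v]

theorem zero_left (h : PSD B) (v : V) : B 0 v = 0 := by
  have := h.smul_left 0 0 v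
  simpa using this

theorem zero_right (h : PSD B) (v : V) : B v 0 = 0 := by rw [h.symm, h.zero_left]

theorem neg_left (h : PSD B) (u v : V) : B (-u) v = -B u v := by
  have := h.smul_left (-1) u v
  simpa using this

theorem neg_right (h : PSD B) (u v : V) : B u (-v) = -B u v := by
  rw [h.symm, h.neg_left, h.symm v]

theorem sub_left (h : PSD B) (u v w : V) : B (u - v) w = B u w - B v w := by
  rw [sub_eq_add_neg, h.add_left, h.neg_left]; ring

theorem sub_right (h : PSD B) (u v w : V) : B u (v - w) = B u v - B u w := by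
  rw [h.symm, h.sub_left, h.symm v, h.symm w]

theorem sum_left (h : PSD B) {ι : Type} (s : Finset ι) (f : ι → V) (v : V) :
    B (∑ i ∈ s, f i) v = ∑ i ∈ s, B (f i) v := by
  classical
  induction s using Finset.induction_on with
  | empty => simp [h.zero_left]
  | insert a s ha ih => rw [Finset.sum_insert ha, Finset.sum_insert ha, h.add_left, ih]

theorem sum_right (h : PSD B) {ι : Type} (s : Finset ι) (f : ι → V) (v : V) :
    B v (∑ i ∈ s, f i) = ∑ i ∈ s, B v (f i) := by
  rw [h.symm, h.sum_left]
  exact Finset.sum_congr rfl fun i _ => h.symm _ _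

omit [AddCommGroup V] [Module ℝ V] in
theorem nm_nonneg (v : V) : 0 ≤ nm B v := Real.sqrt_nonneg _

theorem nm_sq (h : PSD B) (v : V) : nm B v ^ 2 = B v v := Real.sq_sqrt (h.nonneg v)

theorem nm_mul_self (h : PSD B) (v : V) : nm B v * nm B v = B v v :=
  Real.mul_self_sqrt (h.nonneg v)

/-- Cauchy-Schwarz. -/
theorem cs_sq (h : PSD B) (u v : V) : B u v ^ 2 ≤ B u u * B v v := by
  have key : ∀ t : ℝ, 0 ≤ B u u * (t * t) + (2 * B u v) * t + B v v := by
    intro t
    have := h.nonneg (t • u + v)
    rw [h.add_left, h.add_right, h.add_right, h.smul_left, h.smul_right, h.smul_left,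
      h.smul_right, h.symm v u] at this
    nlinarith
  have := discrim_le_zero key
  unfold discrim at this
  nlinarith

theorem cs (h : PSD B) (u v : V) : |B u v| ≤ nm B u * nm B v := by
  have := h.cs_sq u v
  rw [← h.nm_sq u, ← h.nm_sq v, ← mul_pow] at this
  exact abs_le_of_sq_le_sq this (mul_nonneg (nm_nonneg u) (nm_nonneg v))

theorem nm_smul (h : PSD B) (r : ℝ) (v : V) : nm B (r • v) = |r| * nm B v := by
  unfold nm
  rw [h.smul_left, h.smul_right, ← mul_assoc, Real.sqrt_mul' _ (h.nonneg v),
    Real.sqrt_mul_self_eq_abs]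

theorem nm_neg (h : PSD B) (v : V) : nm B (-v) = nm B v := by
  unfold nm; rw [h.neg_left, h.neg_right, neg_neg]

theorem nm_zero (h : PSD B) : nm B (0 : V) = 0 := by
  unfold nm; rw [h.zero_left]; simp

theorem nm_add_le (h : PSD B) (u v : V) : nm B (u + v) ≤ nm B u + nm B v := by
  refine abs_le_of_sq_le_sq' ?_ (add_nonneg (nm_nonneg u) (nm_nonneg v)) |>.2
  rw [h.nm_sq, h.add_left, h.add_right, h.add_right, h.symm v u]
  have := le_of_abs_le (h.cs u v)
  have h1 := h.nm_sq u
  have h2 := h.nm_sq v
  nlinarith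

theorem nm_sub_le (h : PSD B) (u v : V) : nm B (u - v) ≤ nm B u + nm B v := by
  rw [sub_eq_add_neg]
  exact (h.nm_add_le _ _).trans (by rw [h.nm_neg])

theorem nm_sum_le (h : PSD B) {ι : Type} (s : Finset ι) (f : ι → V) :
    nm B (∑ i ∈ s, f i) ≤ ∑ i ∈ s, nm B (f i) := by
  classical
  induction s using Finset.induction_on with
  | empty => simp [h.nm_zero]
  | insert a s ha ih =>
    rw [Finset.sum_insert ha, Finset.sum_insert ha]
    exact (h.nm_add_le _ _).trans (by linarith)

end PSD

end

end Pool.Agent.H73.PZ
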