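import Mathlib
import Pool.Agent.H73.PZ.PSD

/-!
Abstract setting for the analysis (MP_d9606f_gt, definitions, helper73).

`Sz q N`: a size function on a group, with coarse geodesics.
`Tw w ρ v = ∑ γ, w γ • ρ γ v`.
`StrongT q N w C₀`: the weights `w m` witness an explicit strong property (T).
-/

namespace Pool.Agent.H73.PZ

noncomputable section

variable {Γ : Type} [Group Γ]

/-- A size function on `Γ` with finite balls and coarse geodesics. -/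
structure Sz (q : ℝ) (N : Γ → ℝ) : Prop where
  q_gt : 1 < q
  one_le : ∀ γ, 1 ≤ N γ
  mul_le : ∀ γ γ', N (γ * γ') ≤ N γ * N γ'
  inv_eq : ∀ γ, N γ⁻¹ = N γ
  finite : ∀ R : ℝ, {γ : Γ | N γ ≤ R}.Finite
  paths : ∃ C : ℝ, 1 ≤ C ∧ ∀ (γ : Γ) (m : ℕ), 1 ≤ m → N γ ≤ q ^ m →
    ∃ w : ℕ → Γ, (∀ i j, i ≤ j → j ≤ m → N (w j * (w i)⁻¹) ≤ C * q ^ (j - i)) ∧
      N (w 0) ≤ C ∧ N (γ * (w m)⁻¹) ≤ C

/-- The operator `∑ γ, w γ • ρ γ`. -/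
def Tw {V : Type} [AddCommGroup V] [Module ℝ V] (w : Γ →₀ ℝ) (ρ : Γ →* Module.End ℝ V) (v : V) :
    V := w.sum fun γ r => r • ρ γ v

/-- The weights `w m` (supported in the ball of radius `C₀ q ^ m`, of total mass between `1` and
`C₀`) satisfy the conclusion of strong property (T) for all representations of small growth. -/
structure StrongT (q : ℝ) (N : Γ → ℝ) (w : ℕ → Γ →₀ ℝ) (C₀ : ℝ) : Prop where
  nonneg : ∀ m γ, 0 ≤ w m γ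
  supp : ∀ m γ, w m γ ≠ 0 → N γ ≤ C₀ * q ^ m
  mass_lower : ∀ m, 1 ≤ (w m).sum fun _ r => r
  mass_upper : ∀ m, ((w m).sum fun _ r => r) ≤ C₀
  conv : ∀ (V : Type) [AddCommGroup V] [Module ℝ V] (B : V → V → ℝ) (ρ : Γ →* Module.End ℝ V)
    (A κ : ℝ), PSD B → 0 ≤ A → 0 ≤ κ → (∀ γ v, nm B (ρ γ v) ≤ A * N γ ^ κ * nm B v) →
    ∀ v, ∃ C : ℝ, ∀ m : ℕ,
      nm B (Tw (w (m + 1)) ρ v - Tw (w m) ρ v) ≤ C * q ^ (-((1 / 2 - 2 * κ) * m))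
  almost_inv : ∀ (V : Type) [AddCommGroup V] [Module ℝ V] (B : V → V → ℝ)
    (ρ : Γ →* Module.End ℝ V)
    (A κ : ℝ), PSD B → 0 ≤ A → 0 ≤ κ → (∀ γ v, nm B (ρ γ v) ≤ A * N γ ^ κ * nm B v) →
    ∀ (γ' : Γ) (v : V), ∃ C : ℝ, ∀ m : ℕ,
      nm B (ρ γ' (Tw (w m) ρ v) - Tw (w m) ρ v) ≤ C * q ^ (-((1 / 2 - 2 * κ) * m))

end

end Pool.Agent.H73.PZ
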