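import Mathlib
import Pool.Agent.H73.PZ.A2
import Pool.Agent.H73.PZ.A3a
import Pool.Agent.H73.PZ.Sz

/-!
MODULE A3 (MP_d9606f_gt, paper `/team-store/h73_padic_zimmer.md`, C2).
Growth of the higher derivatives of group elements: `|D I (ψ l ∘ γ)| ≤ C (N γ ^ s) ^ |I|`.

Proof.  Strong induction on `k`.  `k = 1`: `D [i] (cmp γ (ψ l)) = J γ i l`, hypothesis `Adm`.
Let `k ≥ 2`.  By induction there is one `B ≥ 0` with `|D Q (cmp γ (ψ l)) x| ≤ B (N γ ^ s)^|Q|` for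
`1 ≤ |Q| ≤ k - 1`.  Let `C₁ ≥ 1` be the constant of `paths`.
Given `γ` choose `m ≥ 1` with `N γ ≤ q^m ≤ q * N γ` (`Nat.find`, `N γ ≥ 1`; if `N γ = 1` take
`m = 1`), and the path `w`.  Then `N (w t) ≤ N (w t * (w 0)⁻¹) * N (w 0) ≤ C₁² q^t`.
`s_t = w (t+1) * (w t)⁻¹` lies in the finite set `{N ≤ C₁ q}`;
`cmp (w (t+1)) f = cmp (w t) (cmp (s_t) f)` (`cmp_mul`).
Apply `comp_refined` (`L = k - 1`, `Λ = (C₁² q^t)^s ≥ N (w t)^s`, `≥ 1`) to `f = cmp s_t (ψ j)`;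
`F` = maximum over the finite set, `j`, and the finitely many lists `J` of length `≤ k`, of the
sup norms (`bdd`) of `D J (cmp s_t (ψ j))`.  For a fixed list `I` of length `k` and fixed `x` put
`v t l = (D I (cmp (w t) (ψ l))) x`, `P t l j = (J s_t l j) (w t • x)`.  Then
`|v (t+1) j - ∑ v t l P t l j| ≤ C F (C₁² q^t)^(s k) = R Q^(k t)`, `Q = q ^ s > 1`.
`Pr t i j = (J (w m * (w t)⁻¹) i j) (w t • x)`: for `t + 1 < m` it equals
`∑ l, P t i l * Pr (t+1) l j` by `J_mul_apply` (`w m (w t)⁻¹ = (w m (w (t+1))⁻¹) s_t`,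
`s_t • w t • x = w (t+1) • x`); for `t + 1 = m` it is `P t`.  `|Pr t| ≤ C (C₁ q^(m-t))^s`.
`|v 0 l| ≤ a`: `w 0` lies in the finite set `{N ≤ C₁}`.  `unroll` gives
`|D I (cmp (w m) (ψ l)) x| ≤ C' Q^(k m)`, all constants independent of `γ, x, I, m`.
Finally `γ = g * w m`, `g = γ (w m)⁻¹` in the finite set `{N ≤ C₁}`,
`cmp γ (ψ l) = cmp (w m) (cmp g (ψ l))`; `comp_bound` with `L = k`,
`Λ = (C₁² q^m)^s`, `B' = max B C'` (`Q^(k m) ≤ Λ^k`) gives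
`|D I (cmp γ (ψ l)) x| ≤ C'' ((C₁² q^m)^s)^k ≤ C'' ((C₁² q N γ)^s)^k`.
-/

namespace Pool.Agent.H73.PZ.Calc

variable {Γ : Type} [Group Γ] {M : Type} [TopologicalSpace M] [MeasurableSpace M]
  [MulAction Γ M] {ι : Type} [Fintype ι] {d : ℕ} (c : Calc Γ M ι d)

private theorem A3_fin [CompactSpace M] {q : ℝ} {N : Γ → ℝ} (hS : Sz q N) (R : ℝ) (n : ℕ) :
    ∃ F : ℝ, 0 ≤ F ∧ ∀ g : Γ, N g ≤ R → ∀ (j : ι) (I : List ι), I.length ≤ n → ∀ x : M,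
      |(c.D I (c.cmp g (c.ψ j))).1 x| ≤ F := by
  classical
  have hfin : ({g : Γ | N g ≤ R} ×ˢ ((Set.univ : Set ι) ×ˢ {I : List ι | I.length ≤ n})).Finite :=
    (hS.finite R).prod (Set.finite_univ.prod (List.finite_length_le ι n))
  choose Cf hCf0 hCf using fun p : Γ × (ι × List ι) =>
    c.bdd (c.D p.2.2 (c.cmp p.1 (c.ψ p.2.1)))
  obtain ⟨b, hb⟩ := (hfin.image Cf).bddAbove
  refine ⟨max b 0, le_max_right _ _, ?_⟩
  intro g hg j I hI x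
  refine (hCf (g, (j, I)) x).trans ((hb ?_).trans (le_max_left _ _))
  exact ⟨(g, (j, I)), ⟨hg, Set.mem_univ _, hI⟩, rfl⟩

private theorem A3_path [CompactSpace M] {q : ℝ} {N : Γ → ℝ} (hS : Sz q N) {s : ℝ} (hs : 0 < s)
    (hJ : c.Adm N s) (L : ℕ) (hL : 1 ≤ L) {B : ℝ} (hB : 0 ≤ B)
    (h : ∀ (I : List ι), 1 ≤ I.length → I.length ≤ L → ∀ (γ : Γ) (l : ι) (x : M),
      |(c.D I (c.cmp γ (c.ψ l))).1 x| ≤ B * (N γ ^ s) ^ I.length) {C₁ : ℝ} (hC₁ : 1 ≤ C₁) :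
    ∃ C : ℝ, 0 ≤ C ∧ ∀ (m : ℕ) (w : ℕ → Γ),
      (∀ i j, i ≤ j → j ≤ m → N (w j * (w i)⁻¹) ≤ C₁ * q ^ (j - i)) → N (w 0) ≤ C₁ →
      ∀ (I : List ι), I.length = L + 1 → ∀ (j : ι) (x : M),
      |(c.D I (c.cmp (w m) (c.ψ j))).1 x| ≤ C * (q ^ s) ^ ((L + 1) * m) := by
  have hq := hS.q_gt
  have hq0 : 0 < q := zero_lt_one.trans hq
  have hQ : 1 < q ^ s := Real.one_lt_rpow hq hs
  have hQ0 : 0 < q ^ s := zero_lt_one.trans hQ
  have hC₁0 : 0 < C₁ := zero_lt_one.trans_le hC₁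
  obtain ⟨Cj, hCj0, hCj⟩ := hJ
  obtain ⟨Cr, hCr0, hCr⟩ := c.comp_refined L hB
  obtain ⟨F₀, hF₀0, hF₀⟩ := A3_fin c hS C₁ (L + 1)
  obtain ⟨F₁, hF₁0, hF₁⟩ := A3_fin c hS (C₁ * q) (L + 1)
  have hCs : 0 ≤ C₁ ^ s := Real.rpow_nonneg hC₁0.le s
  have hCs2 : 0 ≤ (C₁ ^ 2) ^ s := Real.rpow_nonneg (by positivity) s
  obtain ⟨C, hC0, hC⟩ := unroll (ι := ι) hQ (show 2 ≤ L + 1 by omega)
    (show 0 ≤ Cj * C₁ ^ s by positivity) hF₀0
    (show 0 ≤ Cr * F₁ * ((C₁ ^ 2) ^ s) ^ (L + 1) by positivity)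
  refine ⟨C, hC0, ?_⟩
  intro m w hw hw0 I hI j x
  have hNw : ∀ t, t ≤ m → N (w t) ≤ C₁ ^ 2 * q ^ t := by
    intro t ht
    have e1 : w t = w t * (w 0)⁻¹ * w 0 := by group
    have e2 := hS.mul_le (w t * (w 0)⁻¹) (w 0)
    rw [← e1] at e2
    have e3 := hw 0 t (Nat.zero_le t) ht
    rw [Nat.sub_zero] at e3
    calc N (w t) ≤ N (w t * (w 0)⁻¹) * N (w 0) := e2
      _ ≤ (C₁ * q ^ t) * C₁ := mul_le_mul e3 hw0 (zero_le_one.trans (hS.one_le _)) (by positivity)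
      _ = C₁ ^ 2 * q ^ t := by ring
  have hpow : ∀ t : ℕ, (C₁ ^ 2 * q ^ t) ^ s = (C₁ ^ 2) ^ s * (q ^ s) ^ t := by
    intro t
    rw [Real.mul_rpow (by positivity) (by positivity), ← Real.rpow_natCast q t,
      ← Real.rpow_mul hq0.le, mul_comm (t : ℝ) s, Real.rpow_mul hq0.le, Real.rpow_natCast]
  have hΛ1 : ∀ t : ℕ, 1 ≤ (C₁ ^ 2 * q ^ t) ^ s := by
    intro t
    apply Real.one_le_rpow _ hs.le
    exact one_le_mul_of_one_le_of_one_le (one_le_pow₀ hC₁) (one_le_pow₀ hq.le)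
  refine hC m (fun t l => (c.D I (c.cmp (w t) (c.ψ l))).1 x)
    (fun t l j => (c.J (w (t + 1) * (w t)⁻¹) l j).1 (w t • x))
    (fun t l j => (c.J (w m * (w t)⁻¹) l j).1 (w t • x)) ?_ ?_ ?_ ?_ ?_ j
  · intro t ht i j
    have e1 : w m * (w t)⁻¹ = w m * (w (t + 1))⁻¹ * (w (t + 1) * (w t)⁻¹) := by group
    rw [e1, c.J_mul_apply]
    apply Finset.sum_congr rfl
    intro l _
    have e2 : (w (t + 1) * (w t)⁻¹) • w t • x = w (t + 1) • x := by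
      rw [smul_smul]
      congr 1
      group
    rw [e2]
  · intro t ht i j
    rw [ht]
  · intro t ht i j
    refine (hCj _ _ _ _).trans ?_
    rw [mul_assoc]
    apply mul_le_mul_of_nonneg_left _ hCj0
    have e1 := hw t m ht.le le_rfl
    calc N (w m * (w t)⁻¹) ^ s ≤ (C₁ * q ^ (m - t)) ^ s :=
          Real.rpow_le_rpow (zero_le_one.trans (hS.one_le _)) e1 hs.le
      _ = C₁ ^ s * (q ^ s) ^ (m - t) := by
        rw [Real.mul_rpow hC₁0.le (by positivity), ← Real.rpow_natCast q (m - t),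
          ← Real.rpow_mul hq0.le, mul_comm ((m - t : ℕ) : ℝ) s, Real.rpow_mul hq0.le,
          Real.rpow_natCast]
  · intro t ht j
    have e1 : w (t + 1) = w (t + 1) * (w t)⁻¹ * w t := by group
    have e2 : c.cmp (w (t + 1)) (c.ψ j) = c.cmp (w t) (c.cmp (w (t + 1) * (w t)⁻¹) (c.ψ j)) := by
      rw [← c.cmp_mul, ← e1]
    rw [e2]
    have e3 : N (w (t + 1) * (w t)⁻¹) ≤ C₁ * q := by
      have := hw t (t + 1) (by omega) (by omega)
      rwa [show t + 1 - t = 1 by omega, pow_one] at this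
    have e4 := hCr (w t) x ((C₁ ^ 2 * q ^ t) ^ s) (hΛ1 t) ?_ I hI
      (c.cmp (w (t + 1) * (w t)⁻¹) (c.ψ j)) F₁ hF₁0
      (fun K hK => hF₁ _ e3 j K hK _)
    · refine e4.trans (le_of_eq ?_)
      rw [hpow t, mul_pow, ← pow_mul, mul_comm t (L + 1)]
      ring
    · intro l K hK1 hK2
      refine (h K hK1 hK2 (w t) l x).trans ?_
      apply mul_le_mul_of_nonneg_left _ hB
      apply pow_le_pow_left₀ (Real.rpow_nonneg (zero_le_one.trans (hS.one_le _)) _)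
      exact Real.rpow_le_rpow (zero_le_one.trans (hS.one_le _)) (hNw t (by omega)) hs.le
  · intro l
    exact hF₀ (w 0) hw0 l I hI.le x

private theorem A3_step [CompactSpace M] {q : ℝ} {N : Γ → ℝ} (hS : Sz q N) {s : ℝ} (hs : 0 < s)
    (hJ : c.Adm N s) (L : ℕ) (hL : 1 ≤ L) {B : ℝ} (hB : 0 ≤ B)
    (h : ∀ (I : List ι), 1 ≤ I.length → I.length ≤ L → ∀ (γ : Γ) (l : ι) (x : M),
      |(c.D I (c.cmp γ (c.ψ l))).1 x| ≤ B * (N γ ^ s) ^ I.length) :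
    ∃ C : ℝ, 0 ≤ C ∧ ∀ (I : List ι), I.length = L + 1 → ∀ (γ : Γ) (l : ι) (x : M),
      |(c.D I (c.cmp γ (c.ψ l))).1 x| ≤ C * (N γ ^ s) ^ (L + 1) := by
  have hq := hS.q_gt
  have hq0 : 0 < q := zero_lt_one.trans hq
  have hQ : 1 < q ^ s := Real.one_lt_rpow hq hs
  have hQ0 : 0 < q ^ s := zero_lt_one.trans hQ
  obtain ⟨C₁, hC₁, hpaths⟩ := hS.paths
  have hC₁0 : 0 < C₁ := zero_lt_one.trans_le hC₁
  obtain ⟨C', hC'0, hC'⟩ := A3_path c hS hs hJ L hL hB h hC₁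
  obtain ⟨F₀, hF₀0, hF₀⟩ := A3_fin c hS C₁ (L + 1)
  have hB'0 : 0 ≤ max B C' := hB.trans (le_max_left _ _)
  obtain ⟨Cb, hCb0, hCb⟩ := c.comp_bound (L + 1) hB'0
  have hCq : 0 ≤ (C₁ ^ 2 * q) ^ s := Real.rpow_nonneg (by positivity) s
  refine ⟨Cb * F₀ * ((C₁ ^ 2 * q) ^ s) ^ (L + 1), by positivity, ?_⟩
  intro I hI γ l x
  have hN0 : 0 < N γ := zero_lt_one.trans_le (hS.one_le γ)
  obtain ⟨m', hm1, hm2⟩ := exists_nat_pow_near (hS.one_le γ) hq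
  obtain ⟨w, hw, hw0, hwm⟩ := hpaths γ (m' + 1) (by omega) hm2.le
  set m := m' + 1 with hm
  have hqm : q ^ m ≤ q * N γ := by
    rw [hm, pow_succ, mul_comm]
    exact mul_le_mul_of_nonneg_left hm1 hq0.le
  have hNw : N (w m) ≤ C₁ ^ 2 * q ^ m := by
    have e1 : w m = w m * (w 0)⁻¹ * w 0 := by group
    have e2 := hS.mul_le (w m * (w 0)⁻¹) (w 0)
    rw [← e1] at e2
    have e3 := hw 0 m (Nat.zero_le m) le_rfl
    rw [Nat.sub_zero] at e3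
    calc N (w m) ≤ N (w m * (w 0)⁻¹) * N (w 0) := e2
      _ ≤ (C₁ * q ^ m) * C₁ := mul_le_mul e3 hw0 (zero_le_one.trans (hS.one_le _)) (by positivity)
      _ = C₁ ^ 2 * q ^ m := by ring
  have hC2 : 1 ≤ C₁ ^ 2 := one_le_pow₀ hC₁
  have hbase : 1 ≤ C₁ ^ 2 * q ^ m := one_le_mul_of_one_le_of_one_le hC2 (one_le_pow₀ hq.le)
  have hΛ1 : 1 ≤ (C₁ ^ 2 * q ^ m) ^ s := Real.one_le_rpow hbase hs.le
  have hΛ0 : 0 ≤ (C₁ ^ 2 * q ^ m) ^ s := zero_le_one.trans hΛ1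
  have hQm : (q ^ s) ^ m ≤ (C₁ ^ 2 * q ^ m) ^ s := by
    have e1 : (q ^ s) ^ m = (q ^ m) ^ s := by
      rw [← Real.rpow_natCast (q ^ s) m, ← Real.rpow_mul hq0.le, mul_comm s (m : ℝ),
        Real.rpow_mul hq0.le, Real.rpow_natCast]
    rw [e1]
    apply Real.rpow_le_rpow (by positivity) _ hs.le
    exact le_mul_of_one_le_left (by positivity) hC2
  have e1 : γ = γ * (w m)⁻¹ * w m := by group
  have e2 : c.cmp γ (c.ψ l) = c.cmp (w m) (c.cmp (γ * (w m)⁻¹) (c.ψ l)) := by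
    rw [← c.cmp_mul, ← e1]
  rw [e2]
  have e3 := hCb (w m) x ((C₁ ^ 2 * q ^ m) ^ s) hΛ1 ?_ I hI.le
    (c.cmp (γ * (w m)⁻¹) (c.ψ l)) F₀ hF₀0
    (fun K hK => hF₀ _ hwm l K (by omega) _)
  · refine e3.trans ?_
    rw [hI, mul_assoc (Cb * F₀), ← mul_pow]
    apply mul_le_mul_of_nonneg_left _ (by positivity)
    apply pow_le_pow_left₀ hΛ0
    rw [← Real.mul_rpow (by positivity) hN0.le]
    apply Real.rpow_le_rpow (by positivity) _ hs.le
    have e4 : C₁ ^ 2 * q ^ m ≤ C₁ ^ 2 * (q * N γ) := mul_le_mul_of_nonneg_left hqm (by positivity)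
    linarith
  · intro l' K hK1 hK2
    rcases Nat.lt_or_ge L K.length with hK3 | hK3
    · have hK4 : K.length = L + 1 := by omega
      refine (hC' m w hw hw0 K hK4 l' x).trans ?_
      rw [hK4, mul_comm (L + 1) m, pow_mul]
      apply mul_le_mul (le_max_right _ _) _ (by positivity) hB'0
      exact pow_le_pow_left₀ (by positivity) hQm _
    · refine (h K hK1 hK3 (w m) l' x).trans ?_
      have hn : 0 ≤ N (w m) ^ s := Real.rpow_nonneg (zero_le_one.trans (hS.one_le _)) _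
      apply mul_le_mul (le_max_left _ _) _ (by positivity) hB'0
      apply pow_le_pow_left₀ hn
      exact Real.rpow_le_rpow (zero_le_one.trans (hS.one_le _)) hNw hs.le

private theorem A3_all [CompactSpace M] {q : ℝ} {N : Γ → ℝ} (hS : Sz q N) {s : ℝ} (hs : 0 < s)
    (hJ : c.Adm N s) (k : ℕ) (hk : 1 ≤ k) :
    ∃ C : ℝ, 0 ≤ C ∧ ∀ (I : List ι), 1 ≤ I.length → I.length ≤ k → ∀ (γ : Γ) (l : ι) (x : M),
      |(c.D I (c.cmp γ (c.ψ l))).1 x| ≤ C * (N γ ^ s) ^ I.length := by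
  induction k with
  | zero => omega
  | succ k ih =>
    rcases Nat.eq_zero_or_pos k with hk0 | hk0
    · subst hk0
      obtain ⟨C, hC0, hC⟩ := hJ
      refine ⟨C, hC0, ?_⟩
      intro I h1 h2 γ l x
      have hI : I.length = 1 := by omega
      obtain ⟨i, rfl⟩ := List.length_eq_one_iff.1 hI
      have := hC γ i l x
      rw [hI, pow_one]
      exact this
    · obtain ⟨B, hB0, hB⟩ := ih hk0
      obtain ⟨C, hC0, hC⟩ := A3_step c hS hs hJ k hk0 hB0 hB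
      refine ⟨max B C, hB0.trans (le_max_left _ _), ?_⟩
      intro I h1 h2 γ l x
      have hN : 0 ≤ (N γ ^ s) ^ I.length :=
        pow_nonneg (Real.rpow_nonneg (zero_le_one.trans (hS.one_le γ)) _) _
      rcases Nat.lt_or_ge k I.length with h3 | h3
      · have e : I.length = k + 1 := by omega
        have := hC I e γ l x
        rw [e] at hN ⊢
        exact this.trans (mul_le_mul_of_nonneg_right (le_max_right _ _) hN)
      · exact (hB I h1 h3 γ l x).trans (mul_le_mul_of_nonneg_right (le_max_left _ _) hN)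

theorem growth [CompactSpace M] {q : ℝ} {N : Γ → ℝ} (hS : Sz q N) {s : ℝ} (hs : 0 < s)
    (hJ : c.Adm N s) (k : ℕ) (hk : 1 ≤ k) :
    ∃ C : ℝ, 0 ≤ C ∧ ∀ (I : List ι), I.length = k → ∀ (γ : Γ) (l : ι) (x : M),
      |(c.D I (c.cmp γ (c.ψ l))).1 x| ≤ C * (N γ ^ s) ^ k := by
  obtain ⟨C, hC0, hC⟩ := A3_all c hS hs hJ k hk
  refine ⟨C, hC0, ?_⟩
  intro I hI γ l x
  have := hC I (by omega) (by omega) γ l x
  rwa [hI] at this

theorem growth_le [CompactSpace M] {q : ℝ} {N : Γ → ℝ} (hS : Sz q N) {s : ℝ} (hs : 0 < s)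
    (hJ : c.Adm N s) (k : ℕ) :
    ∃ C : ℝ, 0 ≤ C ∧ ∀ (I : List ι), 1 ≤ I.length → I.length ≤ k → ∀ (γ : Γ) (l : ι) (x : M),
      |(c.D I (c.cmp γ (c.ψ l))).1 x| ≤ C * (N γ ^ s) ^ I.length := by
  induction k with
  | zero => exact ⟨0, le_rfl, fun I h1 h2 => by omega⟩
  | succ k ih =>
    obtain ⟨C, hC, h⟩ := ih
    obtain ⟨C', hC', h'⟩ := c.growth hS hs hJ (k + 1) (by omega)
    refine ⟨max C C', le_trans hC (le_max_left _ _), fun I h1 h2 γ l x => ?_⟩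
    have hN : 0 ≤ (N γ ^ s) ^ I.length :=
      pow_nonneg (Real.rpow_nonneg (zero_le_one.trans (hS.one_le γ)) _) _
    rcases Nat.lt_or_ge I.length (k + 1) with h3 | h3
    · exact (h I h1 (by omega) γ l x).trans (mul_le_mul_of_nonneg_right (le_max_left _ _) hN)
    · have e : I.length = k + 1 := by omega
      have := h' I e γ l x
      rw [e] at hN ⊢
      exact this.trans (mul_le_mul_of_nonneg_right (le_max_right _ _) hN)

end Pool.Agent.H73.PZ.Calc
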