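import Mathlib
import Pool.Agent.H73.PZ.Cal
import Pool.Agent.H73.PZ.Sz

/-!
The representation of `Γ` on smooth symmetric-type tensors `h = (h i j)` (MP_d9606f_gt, paper C3;
definitions and algebra, proved, helper73).

`(Rho γ h) i j = ∑ a b, J^{γ⁻¹} i a * J^{γ⁻¹} j b * (h a b) ∘ γ⁻¹`, the space
`V = {h | Rho 1 h = h}`, the representation `rho` on `V`, the tensor `h0` of the embedding, the
forms `Bk k`, and `Tm w m = Tw (w m) rho h0`.
-/

open MeasureTheory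

namespace Pool.Agent.H73.PZ.Calc

noncomputable section

variable {Γ : Type} [Group Γ] {M : Type} [TopologicalSpace M] [MeasurableSpace M]
  [MulAction Γ M] {ι : Type} [Fintype ι] {d : ℕ} (c : Calc Γ M ι d)

/-- The action on tensors. -/
def Rho (γ : Γ) : (ι → ι → c.A) →ₗ[ℝ] (ι → ι → c.A) where
  toFun h := fun i j => ∑ a, ∑ b, c.J γ⁻¹ i a * c.J γ⁻¹ j b * c.cmp γ⁻¹ (h a b)
  map_add' h h' := by
    funext i j
    simp only [Pi.add_apply, map_add, mul_add, Finset.sum_add_distrib]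
  map_smul' r h := by
    funext i j
    simp only [Pi.smul_apply, map_smul, RingHom.id_apply, mul_smul_comm, Finset.smul_sum]

theorem Rho_apply (γ : Γ) (h : ι → ι → c.A) (i j : ι) :
    c.Rho γ h i j = ∑ a, ∑ b, c.J γ⁻¹ i a * c.J γ⁻¹ j b * c.cmp γ⁻¹ (h a b) := rfl

/-- `Rho` as a matrix product. -/
theorem Rho_eq (γ : Γ) (h : ι → ι → c.A) :
    Matrix.of (c.Rho γ h) = Matrix.of (c.J γ⁻¹) * (Matrix.of h).map (c.cmp γ⁻¹) *
      (Matrix.of (c.J γ⁻¹)).transpose := by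
  ext1 i j
  rw [Matrix.of_apply, c.Rho_apply, Matrix.mul_apply]
  simp only [Matrix.mul_apply, Matrix.of_apply, Matrix.map_apply, Matrix.transpose_apply,
    Finset.sum_mul]
  rw [Finset.sum_comm]
  exact Finset.sum_congr rfl fun b _ => Finset.sum_congr rfl fun a _ => by ring

theorem J_mul_mat (γ γ' : Γ) : Matrix.of (c.J (γ * γ')) =
    Matrix.of (c.J γ') * (Matrix.of (c.J γ)).map (c.cmp γ') := by
  ext1 i j
  rw [Matrix.of_apply, c.J_mul, Matrix.mul_apply]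
  rfl

theorem Rho_mul (γ γ' : Γ) (h : ι → ι → c.A) : c.Rho (γ * γ') h = c.Rho γ (c.Rho γ' h) := by
  apply Matrix.of.injective
  rw [c.Rho_eq, c.Rho_eq, c.Rho_eq, mul_inv_rev, c.J_mul_mat]
  have e : (Matrix.of h).map (c.cmp (γ'⁻¹ * γ⁻¹)) =
      ((Matrix.of h).map (c.cmp γ'⁻¹)).map (c.cmp γ⁻¹) := by
    ext1 i j
    simp only [Matrix.map_apply, c.cmp_mul]
  rw [e, Matrix.map_mul, Matrix.map_mul, Matrix.transpose_mul, Matrix.transpose_map]
  simp only [Matrix.mul_assoc]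

/-- Tensors on the tangent bundle. -/
def V : Submodule ℝ (ι → ι → c.A) := LinearMap.eqLocus (c.Rho 1) LinearMap.id

theorem mem_V {h : ι → ι → c.A} : h ∈ c.V ↔ c.Rho 1 h = h := Iff.rfl

theorem Rho_mem (γ : Γ) (h : ι → ι → c.A) : c.Rho γ h ∈ c.V := by
  rw [c.mem_V, ← c.Rho_mul, one_mul]

/-- The representation of `Γ` on `V`. -/
def rho : Γ →* Module.End ℝ c.V where
  toFun γ := (c.Rho γ).restrict (p := c.V) (q := c.V) fun h _ => c.Rho_mem γ h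
  map_one' := by
    apply LinearMap.ext; intro h
    apply Subtype.ext
    exact h.2
  map_mul' γ γ' := by
    apply LinearMap.ext; intro h
    apply Subtype.ext
    exact c.Rho_mul γ γ' h.1

theorem rho_val (γ : Γ) (h : c.V) : (c.rho γ h).1 = c.Rho γ h.1 := rfl

theorem rho_apply (γ : Γ) (h : c.V) (i j : ι) :
    (c.rho γ h).1 i j = ∑ a, ∑ b, c.J γ⁻¹ i a * c.J γ⁻¹ j b * c.cmp γ⁻¹ (h.1 a b) := rfl

/-- The tensor `∑ l, dψ_l ⊗ dψ_l`. -/
def h0f : ι → ι → c.A := fun i j => ∑ l, c.J 1 i l * c.J 1 j l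

theorem h0f_eq : Matrix.of c.h0f = Matrix.of (c.J 1) * (Matrix.of (c.J 1)).transpose := by
  ext1 i j
  rw [Matrix.mul_apply]
  rfl

theorem J_mat_one (γ : Γ) :
    Matrix.of (c.J γ) * (Matrix.of (c.J 1)).map (c.cmp γ) = Matrix.of (c.J γ) := by
  rw [← c.J_mul_mat, one_mul]

theorem Rho_h0f (γ : Γ) (i j : ι) : c.Rho γ c.h0f i j = ∑ l, c.J γ⁻¹ i l * c.J γ⁻¹ j l := by
  have h1 : Matrix.of (c.Rho γ c.h0f) =
      Matrix.of (c.J γ⁻¹) * (Matrix.of (c.J γ⁻¹)).transpose := by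
    rw [c.Rho_eq, c.h0f_eq, Matrix.map_mul, Matrix.transpose_map]
    have h2 := c.J_mat_one γ⁻¹
    calc _ = (Matrix.of (c.J γ⁻¹) * (Matrix.of (c.J 1)).map (c.cmp γ⁻¹)) *
          (Matrix.of (c.J γ⁻¹) * (Matrix.of (c.J 1)).map (c.cmp γ⁻¹)).transpose := by
            rw [Matrix.transpose_mul]; simp only [Matrix.mul_assoc]
      _ = _ := by rw [h2]
  have h3 := congrFun (congrFun h1 i) j
  rw [Matrix.mul_apply] at h3
  exact h3

theorem h0f_mem : c.h0f ∈ c.V := by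
  rw [c.mem_V]
  funext i j
  rw [c.Rho_h0f]
  simp only [inv_one]
  rfl

/-- The tensor `∑ l, dψ_l ⊗ dψ_l` as an element of `V`. -/
def h0 : c.V := ⟨c.h0f, c.h0f_mem⟩

theorem rho_h0 (γ : Γ) (i j : ι) :
    (c.rho γ c.h0).1 i j = ∑ l, c.J γ⁻¹ i l * c.J γ⁻¹ j l := c.Rho_h0f γ i j

/-- The averaged metrics. -/
def Tm (w : ℕ → Γ →₀ ℝ) (m : ℕ) : c.V := Tw (w m) c.rho c.h0

theorem Tm_apply (w : ℕ → Γ →₀ ℝ) (m : ℕ) (i j : ι) :
    (c.Tm w m).1 i j = ∑ γ ∈ (w m).support, w m γ • ∑ l, c.J γ⁻¹ i l * c.J γ⁻¹ j l := by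
  unfold Tm Tw Finsupp.sum
  rw [Submodule.coe_sum, Finset.sum_apply, Finset.sum_apply]
  refine Finset.sum_congr rfl fun γ _ => ?_
  rw [Submodule.coe_smul, Pi.smul_apply, Pi.smul_apply, c.rho_h0]

theorem Tm_apply_val (w : ℕ → Γ →₀ ℝ) (m : ℕ) (i j : ι) (x : M) :
    ((c.Tm w m).1 i j).1 x =
      ∑ γ ∈ (w m).support, w m γ * ∑ l, (c.J γ⁻¹ i l).1 x * (c.J γ⁻¹ j l).1 x := by
  rw [c.Tm_apply, c.val_sum]
  refine Finset.sum_congr rfl fun γ _ => ?_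
  rw [c.val_smul, c.val_sum]
  rfl

/-- The Sobolev form of order `k` on tensors. -/
def Bk (k : ℕ) (h h' : c.V) : ℝ :=
  ∑ i, ∑ j, ∑ n ∈ Finset.range (k + 1), ∑ I : Fin n → ι,
    ∫ x, (c.D (List.ofFn I) (h.1 i j)).1 x * (c.D (List.ofFn I) (h'.1 i j)).1 x ∂c.μ

end

end Pool.Agent.H73.PZ.Calc
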