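import Mathlib
import Pool.Agent.H73.PZ.Ten

/-!
MODULE A4b (MP_d9606f_gt, paper `/team-store/h73_padic_zimmer.md`, C3).
The forms `Bk k` are positive semidefinite; they control the L² norms of the derivatives.

Functions in `A` are continuous (`c.cont`), hence bounded (`c.bdd`) and integrable for the finite
measure `c.μ` (`c.finite`; `Integrable.of_bound` with `Continuous.aestronglyMeasurable`), products
of two elements of `A` are in `A`.  `D I` is linear.
`Bk_lower`: every list `I` of length `n ≤ k` is `List.ofFn` of a function on `Fin n`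
(`List.ofFn_get` / `List.ofFn_getElem`), all terms of `Bk k h h` are `≥ 0`.
`Bk_upper`: the number of terms `(i, j, n, I)` is finite and depends only on `k` and `ι`.
-/

open MeasureTheory

namespace Pool.Agent.H73.PZ.Calc

variable {Γ : Type} [Group Γ] {M : Type} [TopologicalSpace M] [MeasurableSpace M]
  [MulAction Γ M] {ι : Type} [Fintype ι] {d : ℕ} (c : Calc Γ M ι d)

theorem integrable [CompactSpace M] [BorelSpace M] (f : c.A) : Integrable f.1 c.μ := by
  have := c.finite
  obtain ⟨C, _, hC⟩ := c.bdd f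
  exact Integrable.of_bound (c.cont f).aestronglyMeasurable C (Filter.Eventually.of_forall fun x => hC x)

private theorem A4b_int [CompactSpace M] [BorelSpace M] (f g : c.A) :
    Integrable (fun x => f.1 x * g.1 x) c.μ := c.integrable (f * g)

private theorem A4b_D_add (I : List ι) (h h' : c.V) (i j : ι) (x : M) :
    (c.D I ((h + h').1 i j)).1 x = (c.D I (h.1 i j)).1 x + (c.D I (h'.1 i j)).1 x := by
  rw [← c.val_add, ← map_add]
  rfl

private theorem A4b_D_smul (I : List ι) (r : ℝ) (h : c.V) (i j : ι) (x : M) :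
    (c.D I ((r • h).1 i j)).1 x = r * (c.D I (h.1 i j)).1 x := by
  rw [← c.val_smul, ← map_smul]
  rfl

theorem Bk_psd [CompactSpace M] [BorelSpace M] (k : ℕ) : PSD (c.Bk k) where
  add_left u v w := by
    unfold Bk
    simp only [← Finset.sum_add_distrib]
    refine Finset.sum_congr rfl fun i _ => Finset.sum_congr rfl fun j _ =>
      Finset.sum_congr rfl fun n _ => Finset.sum_congr rfl fun I _ => ?_
    rw [← integral_add (c.A4b_int _ _) (c.A4b_int _ _)]
    refine integral_congr_ae (Filter.Eventually.of_forall fun x => ?_)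
    simp only [A4b_D_add]
    ring
  smul_left r u v := by
    unfold Bk
    simp only [Finset.mul_sum]
    refine Finset.sum_congr rfl fun i _ => Finset.sum_congr rfl fun j _ =>
      Finset.sum_congr rfl fun n _ => Finset.sum_congr rfl fun I _ => ?_
    rw [← integral_const_mul]
    refine integral_congr_ae (Filter.Eventually.of_forall fun x => ?_)
    simp only [A4b_D_smul]
    ring
  symm u v := by
    unfold Bk
    refine Finset.sum_congr rfl fun i _ => Finset.sum_congr rfl fun j _ =>
      Finset.sum_congr rfl fun n _ => Finset.sum_congr rfl fun I _ => ?_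
    refine integral_congr_ae (Filter.Eventually.of_forall fun x => ?_)
    exact mul_comm _ _
  nonneg v := by
    unfold Bk
    refine Finset.sum_nonneg fun i _ => Finset.sum_nonneg fun j _ =>
      Finset.sum_nonneg fun n _ => Finset.sum_nonneg fun I _ => ?_
    exact integral_nonneg fun x => mul_self_nonneg _

theorem Bk_lower [CompactSpace M] [BorelSpace M] (k : ℕ) (h : c.V) (i j : ι) (I : List ι)
    (hI : I.length ≤ k) : ∫ x, ((c.D I (h.1 i j)).1 x) ^ 2 ∂c.μ ≤ c.Bk k h h := by
  classical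
  unfold Bk
  have hnn : ∀ (i j : ι) (n : ℕ) (J : Fin n → ι), 0 ≤ ∫ x, (c.D (List.ofFn J) (h.1 i j)).1 x *
      (c.D (List.ofFn J) (h.1 i j)).1 x ∂c.μ := fun i j n J =>
    integral_nonneg fun x => mul_self_nonneg _
  have e : ∫ x, ((c.D I (h.1 i j)).1 x) ^ 2 ∂c.μ =
      ∫ x, (c.D (List.ofFn I.get) (h.1 i j)).1 x * (c.D (List.ofFn I.get) (h.1 i j)).1 x
        ∂c.μ := by
    rw [List.ofFn_get]
    refine integral_congr_ae (Filter.Eventually.of_forall fun x => ?_)
    exact pow_two _
  rw [e]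
  calc _ ≤ ∑ J : Fin I.length → ι, ∫ x, (c.D (List.ofFn J) (h.1 i j)).1 x *
          (c.D (List.ofFn J) (h.1 i j)).1 x ∂c.μ :=
        Finset.single_le_sum (f := fun J : Fin I.length → ι =>
          ∫ x, (c.D (List.ofFn J) (h.1 i j)).1 x * (c.D (List.ofFn J) (h.1 i j)).1 x ∂c.μ)
          (fun J _ => hnn i j _ J) (Finset.mem_univ I.get)
    _ ≤ ∑ n ∈ Finset.range (k + 1), ∑ J : Fin n → ι, ∫ x, (c.D (List.ofFn J) (h.1 i j)).1 x *
          (c.D (List.ofFn J) (h.1 i j)).1 x ∂c.μ :=
        Finset.single_le_sum (f := fun n => ∑ J : Fin n → ι,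
          ∫ x, (c.D (List.ofFn J) (h.1 i j)).1 x * (c.D (List.ofFn J) (h.1 i j)).1 x ∂c.μ)
          (fun n _ => Finset.sum_nonneg fun J _ => hnn i j n J)
          (Finset.mem_range.2 (Nat.lt_succ_of_le hI))
    _ ≤ ∑ j', ∑ n ∈ Finset.range (k + 1), ∑ J : Fin n → ι,
          ∫ x, (c.D (List.ofFn J) (h.1 i j')).1 x * (c.D (List.ofFn J) (h.1 i j')).1 x ∂c.μ :=
        Finset.single_le_sum (f := fun j' => ∑ n ∈ Finset.range (k + 1), ∑ J : Fin n → ι,
          ∫ x, (c.D (List.ofFn J) (h.1 i j')).1 x * (c.D (List.ofFn J) (h.1 i j')).1 x ∂c.μ)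
          (fun j' _ => Finset.sum_nonneg fun n _ => Finset.sum_nonneg fun J _ => hnn i j' n J)
          (Finset.mem_univ j)
    _ ≤ _ :=
        Finset.single_le_sum (f := fun i' => ∑ j', ∑ n ∈ Finset.range (k + 1), ∑ J : Fin n → ι,
          ∫ x, (c.D (List.ofFn J) (h.1 i' j')).1 x * (c.D (List.ofFn J) (h.1 i' j')).1 x ∂c.μ)
          (fun i' _ => Finset.sum_nonneg fun j' _ => Finset.sum_nonneg fun n _ =>
            Finset.sum_nonneg fun J _ => hnn i' j' n J)
          (Finset.mem_univ i)

theorem Bk_upper [CompactSpace M] [BorelSpace M] (k : ℕ) : ∃ C : ℝ, 0 ≤ C ∧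
    ∀ (h : c.V) (b : ℝ), (∀ (i j : ι) (I : List ι), I.length ≤ k →
      ∫ x, ((c.D I (h.1 i j)).1 x) ^ 2 ∂c.μ ≤ b) → c.Bk k h h ≤ C * b := by
  classical
  refine ⟨∑ _i : ι, ∑ _j : ι, ∑ n ∈ Finset.range (k + 1), ∑ _I : Fin n → ι, (1 : ℝ),
    Finset.sum_nonneg fun _ _ => Finset.sum_nonneg fun _ _ => Finset.sum_nonneg fun _ _ =>
      Finset.sum_nonneg fun _ _ => zero_le_one, fun h b hb => ?_⟩
  unfold Bk
  simp only [Finset.sum_mul]
  refine Finset.sum_le_sum fun i _ => Finset.sum_le_sum fun j _ =>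
    Finset.sum_le_sum fun n hn => Finset.sum_le_sum fun I _ => ?_
  rw [one_mul]
  refine le_trans (le_of_eq ?_) (hb i j (List.ofFn I) (by
    rw [List.length_ofFn]
    exact Nat.lt_succ_iff.1 (Finset.mem_range.1 hn)))
  refine integral_congr_ae (Filter.Eventually.of_forall fun x => ?_)
  exact (pow_two _).symm

end Pool.Agent.H73.PZ.Calc
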