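import Mathlib
import Pool.Agent.H73.PZ.A4b
import Pool.Agent.H73.PZ.A3

/-!
MODULE A4c (MP_d9606f_gt, paper `/team-store/h73_padic_zimmer.md`, C3).
Growth of the representation `rho` for the form `Bk k`.

Proof.  Let `Λ = N γ ^ s ≥ 1` (`N γ⁻¹ = N γ`), and `C₁` the constant of `growth_le` for lists of
length `≤ k + 1`.  Fix `i, j, I`, `|I| = n ≤ k`, and a point `x`.  Let
`G = ∑_{a b} ∑_{n' ≤ k} ∑_{J : Fin n' → ι} |D J (h a b)| (γ⁻¹ x)`.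
`(rho γ h) i j = ∑ a b, (J^{γ⁻¹} i a * J^{γ⁻¹} j b) * cmp γ⁻¹ (h a b)`.  At `x`:
* `|D Q (J^{γ⁻¹} i a)| = |D (i :: Q) (cmp γ⁻¹ (ψ a))| ≤ C₁ Λ Λ^|Q|` for `|Q| ≤ k`;
* `leib_bound`: `|D Q (J^{γ⁻¹} i a * J^{γ⁻¹} j b)| ≤ 2^k (C₁ Λ)² Λ^|Q|` for `|Q| ≤ k`;
* `comp_bound` (`L = k`, `B = C₁`, `F = G`): `|D Q (cmp γ⁻¹ (h a b))| ≤ C₂ G Λ^|Q|`, `|Q| ≤ k`;
* `leib_bound` again: `|D I (...)| ≤ 2^n 2^k C₁² Λ² C₂ G Λ^n ≤ C₃ Λ^(k+2) G`.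
So `|D I ((rho γ h) i j) x|² ≤ C₄ Λ^(2(k+2)) G(γ⁻¹ x)²
  ≤ C₅ Λ^(2(k+2)) ∑_{a b n' J} (D J (h a b))² (γ⁻¹ x)` (Cauchy-Schwarz, finitely many terms).
`(D J (h a b))²` is a non-negative element of `A`; `distort` for `γ⁻¹` with
`B = C₁ Λ ≥ sup |X i (cmp γ (ψ j))|` gives
`∫ (D J (h a b))² (γ⁻¹ x) ≤ K (1 + C₁ Λ)^d ∫ (D J (h a b))² ≤ C₆ Λ^d Bk k h h` (`Bk_lower`).
`Bk_upper`: `Bk k (rho γ h) (rho γ h) ≤ C₇ Λ^(2(k+2)+d) Bk k h h`; take square roots: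
`nm ≤ √C₇ Λ^(k+2+d/2) nm`, `Λ^(k+2+d/2) = N γ ^ ((k+2+d/2) s)`.
-/

open MeasureTheory

namespace Pool.Agent.H73.PZ.Calc

variable {Γ : Type} [Group Γ] {M : Type} [TopologicalSpace M] [MeasurableSpace M]
  [MulAction Γ M] {ι : Type} [Fintype ι] {d : ℕ} (c : Calc Γ M ι d)

/-- Index set: two indices and a multi-index of length at most `k`. -/
private abbrev A4cT (ι : Type) (k : ℕ) : Type := (ι × ι) × (Σ n : Fin (k + 1), (Fin n → ι))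

private theorem A4c_G (k : ℕ) (h : c.V) (y : M) (a b : ι) (J : List ι) (hJ : J.length ≤ k) :
    |(c.D J (h.1 a b)).1 y| ≤
      ∑ t : A4cT ι k, |(c.D (List.ofFn t.2.2) (h.1 t.1.1 t.1.2)).1 y| := by
  classical
  have e := Finset.single_le_sum (s := (Finset.univ : Finset (A4cT ι k)))
    (f := fun t : A4cT ι k => |(c.D (List.ofFn t.2.2) (h.1 t.1.1 t.1.2)).1 y|)
    (fun t _ => abs_nonneg _)
    (Finset.mem_univ ((a, b), ⟨⟨J.length, Nat.lt_succ_of_le hJ⟩, J.get⟩))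
  refine le_trans (le_of_eq ?_) e
  change _ = |(c.D (List.ofFn J.get) (h.1 a b)).1 y|
  rw [List.ofFn_get]

private theorem A4c_pt [CompactSpace M] {q : ℝ} {N : Γ → ℝ} (hS : Sz q N) {s : ℝ}
    (hs : 0 < s) (k : ℕ) {C₁ : ℝ} (hC₁ : 0 ≤ C₁)
    (hg : ∀ (I : List ι), 1 ≤ I.length → I.length ≤ k + 1 → ∀ (γ : Γ) (l : ι) (x : M),
      |(c.D I (c.cmp γ (c.ψ l))).1 x| ≤ C₁ * (N γ ^ s) ^ I.length) :
    ∃ C : ℝ, 0 ≤ C ∧ ∀ (γ : Γ) (h : c.V) (x : M) (i j : ι) (I : List ι), I.length ≤ k →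
      |(c.D I ((c.rho γ h).1 i j)).1 x| ≤ C * (N γ ^ s) ^ (k + 2) *
        ∑ t : A4cT ι k, |(c.D (List.ofFn t.2.2) (h.1 t.1.1 t.1.2)).1 (γ⁻¹ • x)| := by
  classical
  obtain ⟨C₂, hC₂, hcb⟩ := c.comp_bound k hC₁
  refine ⟨∑ _a : ι, ∑ _b : ι, 2 ^ k * (2 ^ k * (C₁ * C₁) * C₂), by positivity, ?_⟩
  intro γ h x i j I hI
  have hΛ : 1 ≤ N γ ^ s := Real.one_le_rpow (hS.one_le γ) hs.le
  have hNi : N γ⁻¹ ^ s = N γ ^ s := by rw [hS.inv_eq]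
  set Λ : ℝ := N γ ^ s with hΛdef
  have hΛ0 : 0 ≤ Λ := zero_le_one.trans hΛ
  set G : ℝ := ∑ t : A4cT ι k, |(c.D (List.ofFn t.2.2) (h.1 t.1.1 t.1.2)).1 (γ⁻¹ • x)| with hG
  have hG0 : 0 ≤ G := Finset.sum_nonneg fun _ _ => abs_nonneg _
  have hgi : ∀ (Q : List ι), 1 ≤ Q.length → Q.length ≤ k + 1 → ∀ l : ι,
      |(c.D Q (c.cmp γ⁻¹ (c.ψ l))).1 x| ≤ C₁ * Λ ^ Q.length := by
    intro Q h1 h2 l
    have := hg Q h1 h2 γ⁻¹ l x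
    rwa [hNi] at this
  have hJb : ∀ (i' a : ι) (Q : List ι), Q.length ≤ k →
      |(c.D Q (c.J γ⁻¹ i' a)).1 x| ≤ (C₁ * Λ) * Λ ^ Q.length := by
    intro i' a Q hQ
    have := hgi (i' :: Q) (by simp) (by simpa using hQ) a
    rw [List.length_cons, pow_succ] at this
    calc |(c.D Q (c.J γ⁻¹ i' a)).1 x| ≤ C₁ * (Λ ^ Q.length * Λ) := this
      _ = (C₁ * Λ) * Λ ^ Q.length := by ring
  have hcmp : ∀ (a b : ι) (Q : List ι), Q.length ≤ k →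
      |(c.D Q (c.cmp γ⁻¹ (h.1 a b))).1 x| ≤ (C₂ * G) * Λ ^ Q.length := by
    intro a b Q hQ
    exact hcb γ⁻¹ x Λ hΛ (fun l Q' h1 h2 => hgi Q' h1 (h2.trans (Nat.le_succ k)) l) Q hQ
      (h.1 a b) G hG0 (fun J hJ => c.A4c_G k h (γ⁻¹ • x) a b J (hJ.trans hQ))
  have hprod : ∀ (a b : ι) (Q : List ι), Q.length ≤ k →
      |(c.D Q (c.J γ⁻¹ i a * c.J γ⁻¹ j b)).1 x| ≤
        (2 ^ k * ((C₁ * Λ) * (C₁ * Λ))) * Λ ^ Q.length := by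
    intro a b Q hQ
    have h1 := c.leib_bound x hΛ0 Q (c.J γ⁻¹ i a) (c.J γ⁻¹ j b) (a := C₁ * Λ) (b := C₁ * Λ)
      (by positivity) (by positivity) (fun Q' hQ' => hJb i a Q' (hQ'.trans hQ))
      (fun Q' hQ' => hJb j b Q' (hQ'.trans hQ))
    refine h1.trans ?_
    have h2 : (2 : ℝ) ^ Q.length ≤ 2 ^ k := pow_le_pow_right₀ one_le_two hQ
    have h3 : 0 ≤ (C₁ * Λ) * (C₁ * Λ) := by positivity
    have h4 : 0 ≤ Λ ^ Q.length := by positivity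
    exact mul_le_mul_of_nonneg_right (mul_le_mul_of_nonneg_right h2 h3) h4
  have hterm : ∀ a b : ι, |(c.D I (c.J γ⁻¹ i a * c.J γ⁻¹ j b * c.cmp γ⁻¹ (h.1 a b))).1 x| ≤
      2 ^ k * (2 ^ k * (C₁ * C₁) * C₂) * (Λ ^ (k + 2) * G) := by
    intro a b
    have h1 := c.leib_bound x hΛ0 I (c.J γ⁻¹ i a * c.J γ⁻¹ j b) (c.cmp γ⁻¹ (h.1 a b))
      (a := 2 ^ k * ((C₁ * Λ) * (C₁ * Λ))) (b := C₂ * G) (by positivity) (by positivity)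
      (fun Q' hQ' => hprod a b Q' (hQ'.trans hI)) (fun Q' hQ' => hcmp a b Q' (hQ'.trans hI))
    refine h1.trans ?_
    have h2 : (2 : ℝ) ^ I.length ≤ 2 ^ k := pow_le_pow_right₀ one_le_two hI
    have h3 : Λ ^ I.length ≤ Λ ^ k := pow_le_pow_right₀ hΛ hI
    have h4 : 0 ≤ 2 ^ k * ((C₁ * Λ) * (C₁ * Λ)) * (C₂ * G) := by positivity
    calc 2 ^ I.length * (2 ^ k * ((C₁ * Λ) * (C₁ * Λ)) * (C₂ * G)) * Λ ^ I.length
        ≤ 2 ^ k * (2 ^ k * ((C₁ * Λ) * (C₁ * Λ)) * (C₂ * G)) * Λ ^ k := by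
          apply mul_le_mul (mul_le_mul_of_nonneg_right h2 h4) h3 (by positivity) (by positivity)
      _ = 2 ^ k * (2 ^ k * (C₁ * C₁) * C₂) * (Λ ^ (k + 2) * G) := by ring
  have hexp : (c.D I ((c.rho γ h).1 i j)).1 x =
      ∑ a, ∑ b, (c.D I (c.J γ⁻¹ i a * c.J γ⁻¹ j b * c.cmp γ⁻¹ (h.1 a b))).1 x := by
    rw [c.rho_apply, map_sum, c.val_sum]
    refine Finset.sum_congr rfl fun a _ => ?_
    rw [map_sum, c.val_sum]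
  rw [hexp]
  calc |∑ a, ∑ b, (c.D I (c.J γ⁻¹ i a * c.J γ⁻¹ j b * c.cmp γ⁻¹ (h.1 a b))).1 x|
      ≤ ∑ a, |∑ b, (c.D I (c.J γ⁻¹ i a * c.J γ⁻¹ j b * c.cmp γ⁻¹ (h.1 a b))).1 x| :=
        Finset.abs_sum_le_sum_abs _ _
    _ ≤ ∑ a, ∑ b, |(c.D I (c.J γ⁻¹ i a * c.J γ⁻¹ j b * c.cmp γ⁻¹ (h.1 a b))).1 x| :=
        Finset.sum_le_sum fun a _ => Finset.abs_sum_le_sum_abs _ _
    _ ≤ ∑ _a : ι, ∑ _b : ι, 2 ^ k * (2 ^ k * (C₁ * C₁) * C₂) * (Λ ^ (k + 2) * G) :=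
        Finset.sum_le_sum fun a _ => Finset.sum_le_sum fun b _ => hterm a b
    _ = (∑ _a : ι, ∑ _b : ι, 2 ^ k * (2 ^ k * (C₁ * C₁) * C₂)) * Λ ^ (k + 2) * G := by
        simp only [Finset.sum_mul, mul_assoc]

theorem rho_growth [CompactSpace M] [BorelSpace M] {q : ℝ} {N : Γ → ℝ} (hS : Sz q N) {s : ℝ}
    (hs : 0 < s) (hJ : c.Adm N s) (k : ℕ) :
    ∃ A : ℝ, 0 ≤ A ∧ ∀ (γ : Γ) (h : c.V),
      nm (c.Bk k) (c.rho γ h) ≤ A * N γ ^ (((k : ℝ) + 2 + d / 2) * s) * nm (c.Bk k) h := by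
  classical
  obtain ⟨C₁, hC₁, hg⟩ := c.growth_le hS hs hJ (k + 1)
  obtain ⟨C₃, hC₃, hpt⟩ := c.A4c_pt hS hs k hC₁ hg
  obtain ⟨K, hK, hdist⟩ := c.distort
  obtain ⟨C₄, hC₄, hup⟩ := c.Bk_upper k
  set n : ℝ := ((Finset.univ : Finset (A4cT ι k)).card : ℝ) with hn
  have hn0 : 0 ≤ n := Nat.cast_nonneg _
  set C₅ : ℝ := C₄ * (C₃ ^ 2 * n * (K * (1 + C₁) ^ d * n)) with hC₅
  have hC₅0 : 0 ≤ C₅ := by positivity
  refine ⟨Real.sqrt C₅, Real.sqrt_nonneg _, ?_⟩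
  intro γ h
  have hN0 : 0 ≤ N γ := zero_le_one.trans (hS.one_le γ)
  have hΛ : 1 ≤ N γ ^ s := Real.one_le_rpow (hS.one_le γ) hs.le
  set Λ : ℝ := N γ ^ s with hΛdef
  have hΛ0 : 0 ≤ Λ := zero_le_one.trans hΛ
  have hB0 : 0 ≤ c.Bk k h h := (c.Bk_psd k).nonneg h
  -- the nonnegative function
  set f : c.A := ∑ t : A4cT ι k, (c.D (List.ofFn t.2.2) (h.1 t.1.1 t.1.2)) *
    (c.D (List.ofFn t.2.2) (h.1 t.1.1 t.1.2)) with hf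
  have hfv : ∀ y, f.1 y = ∑ t : A4cT ι k, ((c.D (List.ofFn t.2.2) (h.1 t.1.1 t.1.2)).1 y) ^ 2 := by
    intro y
    rw [hf, c.val_sum]
    exact Finset.sum_congr rfl fun t _ => by rw [c.val_mul, pow_two]
  have hf0 : ∀ y, 0 ≤ f.1 y := fun y => by
    rw [hfv]; exact Finset.sum_nonneg fun _ _ => sq_nonneg _
  have hfint : ∫ y, f.1 y ∂c.μ ≤ n * c.Bk k h h := by
    have e1 : ∫ y, f.1 y ∂c.μ = ∑ t : A4cT ι k,
        ∫ y, ((c.D (List.ofFn t.2.2) (h.1 t.1.1 t.1.2)).1 y) ^ 2 ∂c.μ := by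
      simp only [hfv]
      refine integral_finsetSum _ fun t _ => ?_
      have := c.integrable ((c.D (List.ofFn t.2.2) (h.1 t.1.1 t.1.2)) *
        (c.D (List.ofFn t.2.2) (h.1 t.1.1 t.1.2)))
      refine this.congr (Filter.Eventually.of_forall fun y => ?_)
      exact (pow_two _).symm
    rw [e1]
    calc _ ≤ ∑ _t : A4cT ι k, c.Bk k h h := Finset.sum_le_sum fun t _ =>
          c.Bk_lower k h t.1.1 t.1.2 (List.ofFn t.2.2) (by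
            rw [List.length_ofFn]; exact Nat.lt_succ_iff.1 t.2.1.2)
      _ = n * c.Bk k h h := by rw [Finset.sum_const, nsmul_eq_mul]
  have hd : ∫ x, f.1 (γ⁻¹ • x) ∂c.μ ≤ K * (1 + C₁ * Λ) ^ d * ∫ x, f.1 x ∂c.μ := by
    refine hdist γ⁻¹ (C₁ * Λ) (by positivity) ?_ f hf0
    intro i j x
    have := hg [i] (by simp) (by simp) γ j x
    rw [List.length_singleton, pow_one] at this
    rw [inv_inv]
    exact this
  have hd' : ∫ x, f.1 (γ⁻¹ • x) ∂c.μ ≤ K * (1 + C₁) ^ d * n * (Λ ^ d * c.Bk k h h) := by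
    have h1 : (1 + C₁ * Λ) ^ d ≤ (1 + C₁) ^ d * Λ ^ d := by
      rw [← mul_pow]
      apply pow_le_pow_left₀ (by positivity)
      nlinarith
    have hfi : 0 ≤ ∫ y, f.1 y ∂c.μ := integral_nonneg hf0
    calc ∫ x, f.1 (γ⁻¹ • x) ∂c.μ ≤ K * (1 + C₁ * Λ) ^ d * ∫ x, f.1 x ∂c.μ := hd
      _ ≤ K * ((1 + C₁) ^ d * Λ ^ d) * (n * c.Bk k h h) := by
          apply mul_le_mul (mul_le_mul_of_nonneg_left h1 hK) hfint hfi (by positivity)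
      _ = K * (1 + C₁) ^ d * n * (Λ ^ d * c.Bk k h h) := by ring
  have hmain : c.Bk k (c.rho γ h) (c.rho γ h) ≤
      C₄ * ((C₃ ^ 2 * n) * Λ ^ (2 * (k + 2)) *
        (K * (1 + C₁) ^ d * n * (Λ ^ d * c.Bk k h h))) := by
    refine hup (c.rho γ h) _ ?_
    intro i j I hI
    have hle : ∀ x, ((c.D I ((c.rho γ h).1 i j)).1 x) ^ 2 ≤
        (C₃ ^ 2 * n) * Λ ^ (2 * (k + 2)) * f.1 (γ⁻¹ • x) := by
      intro x
      have h1 := hpt γ h x i j I hI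
      have h2 : (∑ t : A4cT ι k, |(c.D (List.ofFn t.2.2) (h.1 t.1.1 t.1.2)).1 (γ⁻¹ • x)|) ^ 2 ≤
          n * f.1 (γ⁻¹ • x) := by
        rw [hfv]
        have := sq_sum_le_card_mul_sum_sq (s := (Finset.univ : Finset (A4cT ι k)))
          (f := fun t : A4cT ι k => |(c.D (List.ofFn t.2.2) (h.1 t.1.1 t.1.2)).1 (γ⁻¹ • x)|)
        simpa only [sq_abs] using this
      rw [← sq_abs]
      calc |(c.D I ((c.rho γ h).1 i j)).1 x| ^ 2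
          ≤ (C₃ * Λ ^ (k + 2) *
            ∑ t : A4cT ι k, |(c.D (List.ofFn t.2.2) (h.1 t.1.1 t.1.2)).1 (γ⁻¹ • x)|) ^ 2 :=
            pow_le_pow_left₀ (abs_nonneg _) h1 2
        _ = C₃ ^ 2 * Λ ^ (2 * (k + 2)) *
            (∑ t : A4cT ι k, |(c.D (List.ofFn t.2.2) (h.1 t.1.1 t.1.2)).1 (γ⁻¹ • x)|) ^ 2 := by
            ring
        _ ≤ C₃ ^ 2 * Λ ^ (2 * (k + 2)) * (n * f.1 (γ⁻¹ • x)) :=
            mul_le_mul_of_nonneg_left h2 (by positivity)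
        _ = (C₃ ^ 2 * n) * Λ ^ (2 * (k + 2)) * f.1 (γ⁻¹ • x) := by ring
    have hi1 : Integrable (fun x => ((c.D I ((c.rho γ h).1 i j)).1 x) ^ 2) c.μ := by
      have := c.integrable ((c.D I ((c.rho γ h).1 i j)) * (c.D I ((c.rho γ h).1 i j)))
      refine this.congr (Filter.Eventually.of_forall fun y => ?_)
      exact (pow_two _).symm
    have hi2 : Integrable (fun x => f.1 (γ⁻¹ • x)) c.μ := by
      have := c.integrable (c.cmp γ⁻¹ f)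
      refine this.congr (Filter.Eventually.of_forall fun y => ?_)
      exact c.cmp_apply _ _ _
    calc ∫ x, ((c.D I ((c.rho γ h).1 i j)).1 x) ^ 2 ∂c.μ
        ≤ ∫ x, (C₃ ^ 2 * n) * Λ ^ (2 * (k + 2)) * f.1 (γ⁻¹ • x) ∂c.μ :=
          integral_mono hi1 (hi2.const_mul _) hle
      _ = (C₃ ^ 2 * n) * Λ ^ (2 * (k + 2)) * ∫ x, f.1 (γ⁻¹ • x) ∂c.μ := integral_const_mul _ _
      _ ≤ _ := mul_le_mul_of_nonneg_left hd' (by positivity)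
  have hmain' : c.Bk k (c.rho γ h) (c.rho γ h) ≤ C₅ * Λ ^ (2 * (k + 2) + d) * c.Bk k h h := by
    refine hmain.trans (le_of_eq ?_)
    rw [hC₅, pow_add]
    ring
  have hsq : Real.sqrt (Λ ^ (2 * (k + 2) + d)) = N γ ^ (((k : ℝ) + 2 + d / 2) * s) := by
    rw [Real.sqrt_eq_rpow, hΛdef, ← Real.rpow_natCast, ← Real.rpow_mul hN0, ← Real.rpow_mul hN0]
    congr 1
    push_cast
    ring
  unfold nm
  calc Real.sqrt (c.Bk k (c.rho γ h) (c.rho γ h))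
      ≤ Real.sqrt (C₅ * Λ ^ (2 * (k + 2) + d) * c.Bk k h h) := Real.sqrt_le_sqrt hmain'
    _ = Real.sqrt C₅ * N γ ^ (((k : ℝ) + 2 + d / 2) * s) * Real.sqrt (c.Bk k h h) := by
        rw [Real.sqrt_mul (by positivity), Real.sqrt_mul hC₅0, hsq]

end Pool.Agent.H73.PZ.Calc
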