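import Mathlib
import Pool.Agent.H73.PZ.A4b

/-!
MODULE A5 (MP_d9606f_gt, paper `/team-store/h73_padic_zimmer.md`, C4).
Interpolation: sup norm from the L² norm and the first derivatives.

Proof.  Let `t = |f x|`; if `t = 0` there is nothing to prove.  `Λ ≥ 1`, `|X i f| ≤ Λ`.  Let
`r₀ = min δ 1` and `r = min r₀ (t / (2 (L + 1) Λ))`.  If `dst x y ≤ r` then (`lip`)
`|f x - f y| ≤ L Λ r ≤ t / 2`, so `|f y| ≥ t / 2`.  By `ball`
`∫ f² ≥ (t/2)² c r^d` (the set `{y | dst x y ≤ r}` is closed, `ψ j` continuous; Markov inequality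
or `setIntegral` monotonicity).
* If `r = r₀`: `t² ≤ C ∫ f²`, `t ≤ C √(∫ f²)`.
* If `r = t / (2 (L+1) Λ)`: `t^(d+2) ≤ C Λ^d ∫ f²`, so `t ≤ C' (Λ^d ∫ f²)^(1/(d+2))`.
-/

open MeasureTheory

namespace Pool.Agent.H73.PZ.Calc

variable {Γ : Type} [Group Γ] {M : Type} [TopologicalSpace M] [MeasurableSpace M]
  [MulAction Γ M] {ι : Type} [Fintype ι] {d : ℕ} (c : Calc Γ M ι d)

theorem interp [CompactSpace M] [BorelSpace M] : ∃ C : ℝ, 0 ≤ C ∧ ∀ (f : c.A) (Λ : ℝ), 1 ≤ Λ →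
    (∀ i x, |(c.X i f).1 x| ≤ Λ) → ∀ x : M,
    |f.1 x| ≤ C * ((∫ y, (f.1 y) ^ 2 ∂c.μ) * Λ ^ d) ^ ((1 : ℝ) / ((d : ℝ) + 2)) +
      C * Real.sqrt (∫ y, (f.1 y) ^ 2 ∂c.μ) := by
  have hfin : IsFiniteMeasure c.μ := c.finite
  obtain ⟨c₀, hc₀, hball⟩ := c.ball
  obtain ⟨r₀, hr₀⟩ : ∃ r₀ : ℝ, r₀ = min c.δ 1 := ⟨_, rfl⟩
  have hr₀0 : 0 < r₀ := by
    rw [hr₀]
    exact lt_min c.δ_pos one_pos
  have hr₀δ : r₀ ≤ c.δ := by
    rw [hr₀]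
    exact min_le_left _ _
  have hr₀1 : r₀ ≤ 1 := by
    rw [hr₀]
    exact min_le_right _ _
  have hL := c.L_nonneg
  obtain ⟨K₁, hK₁⟩ : ∃ K₁ : ℝ, K₁ = 4 / (c₀ * r₀ ^ d) := ⟨_, rfl⟩
  obtain ⟨K₂, hK₂⟩ : ∃ K₂ : ℝ, K₂ = 4 * (2 * (c.L + 1)) ^ d / c₀ := ⟨_, rfl⟩
  have hK₁0 : 0 ≤ K₁ := by
    rw [hK₁]
    positivity
  have hK₂0 : 0 ≤ K₂ := by
    rw [hK₂]
    positivity
  obtain ⟨e, he⟩ : ∃ e : ℝ, e = (1 : ℝ) / ((d : ℝ) + 2) := ⟨_, rfl⟩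
  have hC1 : 0 ≤ Real.sqrt K₁ := Real.sqrt_nonneg _
  have hC2 : 0 ≤ K₂ ^ e := Real.rpow_nonneg hK₂0 _
  refine ⟨Real.sqrt K₁ + K₂ ^ e, add_nonneg hC1 hC2, ?_⟩
  intro f Λ hΛ hX x
  rw [← he]
  obtain ⟨I, hI⟩ : ∃ I : ℝ, I = ∫ y, (f.1 y) ^ 2 ∂c.μ := ⟨_, rfl⟩
  rw [← hI]
  have hI0 : 0 ≤ I := by
    rw [hI]
    exact integral_nonneg fun y => sq_nonneg _
  have hΛ0 : 0 < Λ := by linarith
  have hIΛ : 0 ≤ I * Λ ^ d := by positivity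
  have hR0 : 0 ≤ (I * Λ ^ d) ^ e := Real.rpow_nonneg hIΛ _
  have hS0 : 0 ≤ Real.sqrt I := Real.sqrt_nonneg _
  obtain ⟨t, ht⟩ : ∃ t : ℝ, t = |f.1 x| := ⟨_, rfl⟩
  rw [← ht]
  have ht0 : 0 ≤ t := by
    rw [ht]
    exact abs_nonneg _
  have hexp : (Real.sqrt K₁ + K₂ ^ e) * (I * Λ ^ d) ^ e + (Real.sqrt K₁ + K₂ ^ e) * Real.sqrt I =
      Real.sqrt K₁ * Real.sqrt I + K₂ ^ e * (I * Λ ^ d) ^ e +
        (Real.sqrt K₁ * (I * Λ ^ d) ^ e + K₂ ^ e * Real.sqrt I) := by ring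
  rw [hexp]
  have hA0 : 0 ≤ Real.sqrt K₁ * Real.sqrt I := mul_nonneg hC1 hS0
  have hB0 : 0 ≤ K₂ ^ e * (I * Λ ^ d) ^ e := mul_nonneg hC2 hR0
  have hD0 : 0 ≤ Real.sqrt K₁ * (I * Λ ^ d) ^ e + K₂ ^ e * Real.sqrt I :=
    add_nonneg (mul_nonneg hC1 hR0) (mul_nonneg hC2 hS0)
  rcases ht0.eq_or_lt with h0 | htpos
  · rw [← h0]
    linarith
  -- the radius
  have hden : 0 < 2 * (c.L + 1) * Λ := by positivity
  obtain ⟨r, hr⟩ : ∃ r : ℝ, r = min r₀ (t / (2 * (c.L + 1) * Λ)) := ⟨_, rfl⟩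
  have hr0 : 0 < r := by
    rw [hr]
    exact lt_min hr₀0 (div_pos htpos hden)
  have hrr₀ : r ≤ r₀ := by
    rw [hr]
    exact min_le_left _ _
  have hrt : r ≤ t / (2 * (c.L + 1) * Λ) := by
    rw [hr]
    exact min_le_right _ _
  have hLr : c.L * Λ * r ≤ t / 2 := by
    have h1 : (2 * (c.L + 1) * Λ) * r ≤ t := by
      rw [le_div_iff₀ hden] at hrt
      linarith
    have h2 : 0 ≤ Λ * r := by positivity
    nlinarith
  have hsub : {y | ‖(fun j => (c.ψ j).1 x - (c.ψ j).1 y : ι → ℝ)‖ ≤ r} ⊆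
      {y | t ^ 2 / 4 ≤ (f * f).1 y} := by
    intro y hy
    have hy' : ‖(fun j => (c.ψ j).1 x - (c.ψ j).1 y : ι → ℝ)‖ ≤ r := hy
    have h1 := c.lip f Λ hX x y (hy'.trans (hrr₀.trans hr₀δ))
    have h2 : c.L * Λ * ‖(fun j => (c.ψ j).1 x - (c.ψ j).1 y : ι → ℝ)‖ ≤ c.L * Λ * r :=
      mul_le_mul_of_nonneg_left hy' (by positivity)
    have h3 : |f.1 x| - |f.1 y| ≤ |f.1 x - f.1 y| := abs_sub_abs_le_abs_sub _ _
    have h4 : t / 2 ≤ |f.1 y| := by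
      rw [← ht] at h3
      linarith
    change t ^ 2 / 4 ≤ f.1 y * f.1 y
    have h5 : (t / 2) ^ 2 ≤ |f.1 y| ^ 2 := pow_le_pow_left₀ (by positivity) h4 2
    rw [sq_abs] at h5
    nlinarith
  have hmeas : c₀ * r ^ d ≤ c.μ.real {y | t ^ 2 / 4 ≤ (f * f).1 y} := by
    have h1 := (hball x r hr0 (hrr₀.trans hr₀1)).trans (measure_mono hsub)
    rw [ENNReal.ofReal_le_iff_le_toReal (measure_ne_top _ _)] at h1
    exact h1
  have hmarkov : t ^ 2 / 4 * c.μ.real {y | t ^ 2 / 4 ≤ (f * f).1 y} ≤ ∫ y, (f * f).1 y ∂c.μ :=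
    mul_meas_ge_le_integral_of_nonneg (Filter.Eventually.of_forall fun y => mul_self_nonneg (f.1 y))
      (c.integrable (f * f)) (t ^ 2 / 4)
  have hIeq : ∫ y, (f * f).1 y ∂c.μ = I := by
    rw [hI]
    refine integral_congr_ae (Filter.Eventually.of_forall fun y => ?_)
    change f.1 y * f.1 y = (f.1 y) ^ 2
    ring
  rw [hIeq] at hmarkov
  have hmain : t ^ 2 / 4 * (c₀ * r ^ d) ≤ I :=
    (mul_le_mul_of_nonneg_left hmeas (by positivity)).trans hmarkov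
  rcases min_choice r₀ (t / (2 * (c.L + 1) * Λ)) with hcase | hcase
  · rw [hcase] at hr
    rw [hr] at hmain
    have h1 : t ^ 2 ≤ K₁ * I := by
      rw [hK₁, div_mul_eq_mul_div, le_div_iff₀ (by positivity)]
      linarith
    have h2 : t ≤ Real.sqrt K₁ * Real.sqrt I := by
      rw [← Real.sqrt_mul hK₁0]
      exact Real.le_sqrt_of_sq_le h1
    linarith
  · rw [hcase] at hr
    rw [hr, div_pow] at hmain
    have h1 : t ^ (d + 2) ≤ K₂ * (I * Λ ^ d) := by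
      have h2 : t ^ 2 / 4 * (c₀ * (t ^ d / (2 * (c.L + 1) * Λ) ^ d)) =
          t ^ (d + 2) * c₀ / (4 * (2 * (c.L + 1) * Λ) ^ d) := by
        rw [pow_add]
        field_simp
      rw [h2, div_le_iff₀ (by positivity)] at hmain
      have h3 : K₂ * (I * Λ ^ d) = I * (4 * (2 * (c.L + 1) * Λ) ^ d) / c₀ := by
        rw [hK₂, mul_pow (2 * (c.L + 1)) Λ d]
        field_simp
      rw [h3, le_div_iff₀ hc₀]
      exact hmain
    have h2 : t ≤ K₂ ^ e * (I * Λ ^ d) ^ e := by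
      rw [← Real.mul_rpow hK₂0 hIΛ]
      have h3 : (t ^ (d + 2)) ^ e = t := by
        have h4 := Real.pow_rpow_inv_natCast ht0 (n := d + 2) (by omega)
        have h5 : (((d + 2 : ℕ) : ℝ))⁻¹ = e := by
          rw [he]
          push_cast
          rw [one_div]
        rw [h5] at h4
        exact h4
      calc t = (t ^ (d + 2)) ^ e := h3.symm
        _ ≤ (K₂ * (I * Λ ^ d)) ^ e := Real.rpow_le_rpow (by positivity) h1 (by
          rw [he]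
          positivity)
    linarith

end Pool.Agent.H73.PZ.Calc
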