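import Mathlib
import Pool.Agent.H73.PZ.A3
import Pool.Agent.H73.PZ.Ten

/-!
MODULE A6a (MP_d9606f_gt, paper `/team-store/h73_padic_zimmer.md`, C3: bounds for `T_m`).

Proof.  `(Tm w m) i j = ∑_γ w m γ • ∑_l J^{γ⁻¹} i l * J^{γ⁻¹} j l` (`Tm_apply`).  For
`Λ = N γ ^ s` (`= N γ⁻¹ ^ s`, `≥ 1`): `|D Q (J^{γ⁻¹} i l) x| = |D (i :: Q) (cmp γ⁻¹ (ψ l)) x|
≤ C₁ Λ Λ^|Q|` for `|Q| ≤ k` (`growth_le` with `k + 1`), so by `leib_bound`
`|D I (J^{γ⁻¹} i l * J^{γ⁻¹} j l) x| ≤ 2^k C₁² Λ² Λ^|I|`.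
On the support of `w m`: `N γ ≤ C₀ q^m`, so `Λ ≤ C₀^s (q^m)^s` (`C₀ ≥ 1` since the mass is between
`1` and `C₀`) and the total mass is `≤ C₀`.
`Rho_Tm_bound`: the same for `(rho g (Tm w m)) i j = ∑_γ w m γ • ∑_l J^{(gγ)⁻¹} i l * J^{(gγ)⁻¹} j l`
(`rho g (Tw w rho h0) = ∑ w γ • rho (g γ) h0`, `rho_h0`), `N (g γ) ≤ N g * C₀ q^m`.
-/

open MeasureTheory

namespace Pool.Agent.H73.PZ.Calc

variable {Γ : Type} [Group Γ] {M : Type} [TopologicalSpace M] [MeasurableSpace M]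
  [MulAction Γ M] {ι : Type} [Fintype ι] {d : ℕ} (c : Calc Γ M ι d)

private theorem A6a_one {N : Γ → ℝ} {s : ℝ} {k : ℕ} {C₁ : ℝ} (hC₁ : 0 ≤ C₁)
    (hN : ∀ γ, 1 ≤ N γ) (hs : 0 < s)
    (h : ∀ (I : List ι), 1 ≤ I.length → I.length ≤ k + 1 → ∀ (γ : Γ) (l : ι) (x : M),
      |(c.D I (c.cmp γ (c.ψ l))).1 x| ≤ C₁ * (N γ ^ s) ^ I.length)
    (I : List ι) (hI : I.length ≤ k) (γ : Γ) (i j l : ι) (x : M) :
    |(c.D I (c.J γ i l * c.J γ j l)).1 x| ≤ 2 ^ k * ((C₁ * C₁) * (N γ ^ s) ^ (k + 2)) := by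
  have hΛ : 1 ≤ N γ ^ s := Real.one_le_rpow (hN γ) hs.le
  have hΛ0 : 0 ≤ N γ ^ s := by linarith
  have hJ : ∀ (i l : ι) (Q : List ι), Q.length ≤ I.length →
      |(c.D Q (c.J γ i l)).1 x| ≤ (C₁ * N γ ^ s) * (N γ ^ s) ^ Q.length := by
    intro i l Q hQ
    have h1 := h (i :: Q) (by simp) (by rw [List.length_cons]; omega) γ l x
    rw [List.length_cons] at h1
    calc |(c.D Q (c.J γ i l)).1 x| = |(c.D (i :: Q) (c.cmp γ (c.ψ l))).1 x| := rfl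
      _ ≤ C₁ * (N γ ^ s) ^ (Q.length + 1) := h1
      _ = (C₁ * N γ ^ s) * (N γ ^ s) ^ Q.length := by ring
  have h2 := c.leib_bound x hΛ0 I (c.J γ i l) (c.J γ j l) (mul_nonneg hC₁ hΛ0)
    (mul_nonneg hC₁ hΛ0) (hJ i l) (hJ j l)
  refine h2.trans ?_
  calc 2 ^ I.length * (C₁ * N γ ^ s * (C₁ * N γ ^ s)) * (N γ ^ s) ^ I.length
      = 2 ^ I.length * ((C₁ * C₁) * (N γ ^ s) ^ (I.length + 2)) := by ring
    _ ≤ 2 ^ k * ((C₁ * C₁) * (N γ ^ s) ^ (k + 2)) := by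
        have e1 : (2 : ℝ) ^ I.length ≤ 2 ^ k := pow_le_pow_right₀ one_le_two hI
        have e2 : (N γ ^ s) ^ (I.length + 2) ≤ (N γ ^ s) ^ (k + 2) :=
          pow_le_pow_right₀ hΛ (by omega)
        have e3 : 0 ≤ C₁ * C₁ := mul_nonneg hC₁ hC₁
        exact mul_le_mul e1 (mul_le_mul_of_nonneg_left e2 e3)
          (mul_nonneg e3 (pow_nonneg hΛ0 _)) (by positivity)

private theorem A6a_sum [CompactSpace M] {q : ℝ} {N : Γ → ℝ} (hS : Sz q N) {w : ℕ → Γ →₀ ℝ}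
    {C₀ : ℝ} (hT : StrongT q N w C₀) {s : ℝ} (hs : 0 < s) (hJ : c.Adm N s) (k : ℕ) (g : Γ) :
    ∃ C : ℝ, 0 ≤ C ∧ ∀ (I : List ι), I.length ≤ k → ∀ (m : ℕ) (i j : ι) (x : M),
      |(c.D I (∑ γ ∈ (w m).support, w m γ •
        ∑ l, c.J (g * γ)⁻¹ i l * c.J (g * γ)⁻¹ j l)).1 x| ≤ C * q ^ (((k : ℝ) + 2) * s * m) := by
  obtain ⟨C₁, hC₁, h⟩ := c.growth_le hS hs hJ (k + 1)
  have hC₀ : 1 ≤ C₀ := (hT.mass_lower 0).trans (hT.mass_upper 0)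
  have hq : 0 < q := by have := hS.q_gt; linarith
  have hg : 1 ≤ N g := hS.one_le g
  set R : ℝ := N g * C₀ with hR
  have hR0 : 0 ≤ R := by positivity
  set K : ℝ := 2 ^ k * ((C₁ * C₁) * (R ^ s) ^ (k + 2)) with hK
  have hK0 : 0 ≤ K := by positivity
  refine ⟨C₀ * ((Fintype.card ι : ℝ) * K), by positivity, fun I hI m i j x => ?_⟩
  have hterm : ∀ γ ∈ (w m).support, ∀ l : ι,
      |(c.D I (c.J (g * γ)⁻¹ i l * c.J (g * γ)⁻¹ j l)).1 x| ≤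
        K * q ^ (((k : ℝ) + 2) * s * m) := by
    intro γ hγ l
    have hγ0 : w m γ ≠ 0 := Finsupp.mem_support_iff.mp hγ
    have h1 := c.A6a_one hC₁ hS.one_le hs h I hI (g * γ)⁻¹ i j l x
    have h2 : N (g * γ)⁻¹ ≤ R * q ^ m := by
      rw [hS.inv_eq]
      calc N (g * γ) ≤ N g * N γ := hS.mul_le g γ
        _ ≤ N g * (C₀ * q ^ m) := by
            apply mul_le_mul_of_nonneg_left (hT.supp m γ hγ0)
            linarith
        _ = R * q ^ m := by rw [hR]; ring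
    have h3 : 1 ≤ N (g * γ)⁻¹ := hS.one_le _
    have h4 : N (g * γ)⁻¹ ^ s ≤ (R * q ^ m) ^ s :=
      Real.rpow_le_rpow (by linarith) h2 hs.le
    have h5 : (N (g * γ)⁻¹ ^ s) ^ (k + 2) ≤ ((R * q ^ m) ^ s) ^ (k + 2) :=
      pow_le_pow_left₀ (Real.rpow_nonneg (by linarith) _) h4 _
    have h6 : ((R * q ^ m) ^ s) ^ (k + 2) = (R ^ s) ^ (k + 2) * q ^ (((k : ℝ) + 2) * s * m) := by
      rw [Real.mul_rpow hR0 (by positivity), mul_pow]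
      congr 1
      rw [← Real.rpow_natCast q m, ← Real.rpow_mul hq.le, ← Real.rpow_natCast,
        ← Real.rpow_mul hq.le]
      congr 1
      push_cast
      ring
    refine h1.trans ?_
    calc 2 ^ k * (C₁ * C₁ * (N (g * γ)⁻¹ ^ s) ^ (k + 2))
        ≤ 2 ^ k * (C₁ * C₁ * ((R * q ^ m) ^ s) ^ (k + 2)) := by
          apply mul_le_mul_of_nonneg_left _ (by positivity)
          exact mul_le_mul_of_nonneg_left h5 (by positivity)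
      _ = K * q ^ (((k : ℝ) + 2) * s * m) := by rw [h6, hK]; ring
  rw [map_sum, c.val_sum]
  have hsum : ∀ γ ∈ (w m).support,
      |(c.D I (w m γ • ∑ l, c.J (g * γ)⁻¹ i l * c.J (g * γ)⁻¹ j l)).1 x| ≤
        w m γ * ((Fintype.card ι : ℝ) * (K * q ^ (((k : ℝ) + 2) * s * m))) := by
    intro γ hγ
    rw [map_smul, c.val_smul, abs_mul, abs_of_nonneg (hT.nonneg m γ)]
    apply mul_le_mul_of_nonneg_left _ (hT.nonneg m γ)
    rw [map_sum, c.val_sum]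
    refine (Finset.abs_sum_le_sum_abs _ _).trans ?_
    refine (Finset.sum_le_sum fun l _ => hterm γ hγ l).trans ?_
    rw [Finset.sum_const, Finset.card_univ, nsmul_eq_mul]
  refine (Finset.abs_sum_le_sum_abs _ _).trans ?_
  refine (Finset.sum_le_sum hsum).trans ?_
  rw [← Finset.sum_mul]
  have hmass : ∑ γ ∈ (w m).support, w m γ ≤ C₀ := hT.mass_upper m
  have hnn : 0 ≤ (Fintype.card ι : ℝ) * (K * q ^ (((k : ℝ) + 2) * s * m)) := by positivity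
  calc (∑ γ ∈ (w m).support, w m γ) * ((Fintype.card ι : ℝ) * (K * q ^ (((k : ℝ) + 2) * s * m)))
      ≤ C₀ * ((Fintype.card ι : ℝ) * (K * q ^ (((k : ℝ) + 2) * s * m))) :=
        mul_le_mul_of_nonneg_right hmass hnn
    _ = C₀ * ((Fintype.card ι : ℝ) * K) * q ^ (((k : ℝ) + 2) * s * m) := by ring

theorem Tm_bound [CompactSpace M] {q : ℝ} {N : Γ → ℝ} (hS : Sz q N) {w : ℕ → Γ →₀ ℝ} {C₀ : ℝ}
    (hT : StrongT q N w C₀) {s : ℝ} (hs : 0 < s) (hJ : c.Adm N s) (k : ℕ) :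
    ∃ C : ℝ, 0 ≤ C ∧ ∀ (I : List ι), I.length ≤ k → ∀ (m : ℕ) (i j : ι) (x : M),
      |(c.D I ((c.Tm w m).1 i j)).1 x| ≤ C * q ^ (((k : ℝ) + 2) * s * m) := by
  obtain ⟨C, hC, h⟩ := c.A6a_sum hS hT hs hJ k 1
  refine ⟨C, hC, fun I hI m i j x => ?_⟩
  have h1 := h I hI m i j x
  simp only [one_mul] at h1
  rw [c.Tm_apply]
  exact h1

private theorem A6a_rho (w : ℕ → Γ →₀ ℝ) (m : ℕ) (g : Γ) (i j : ι) :
    (c.rho g (c.Tm w m)).1 i j =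
      ∑ γ ∈ (w m).support, w m γ • ∑ l, c.J (g * γ)⁻¹ i l * c.J (g * γ)⁻¹ j l := by
  unfold Tm Tw Finsupp.sum
  rw [map_sum, Submodule.coe_sum, Finset.sum_apply, Finset.sum_apply]
  refine Finset.sum_congr rfl fun γ _ => ?_
  rw [map_smul, Submodule.coe_smul, Pi.smul_apply, Pi.smul_apply, ← Module.End.mul_apply,
    ← map_mul, c.rho_h0]

theorem Rho_Tm_bound [CompactSpace M] {q : ℝ} {N : Γ → ℝ} (hS : Sz q N) {w : ℕ → Γ →₀ ℝ}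
    {C₀ : ℝ} (hT : StrongT q N w C₀) {s : ℝ} (hs : 0 < s) (hJ : c.Adm N s) (k : ℕ) (g : Γ) :
    ∃ C : ℝ, 0 ≤ C ∧ ∀ (I : List ι), I.length ≤ k → ∀ (m : ℕ) (i j : ι) (x : M),
      |(c.D I ((c.rho g (c.Tm w m)).1 i j)).1 x| ≤ C * q ^ (((k : ℝ) + 2) * s * m) := by
  obtain ⟨C, hC, h⟩ := c.A6a_sum hS hT hs hJ k g
  refine ⟨C, hC, fun I hI m i j x => ?_⟩
  rw [c.A6a_rho]
  exact h I hI m i j x

end Pool.Agent.H73.PZ.Calc
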