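import Mathlib
import Pool.Agent.H73.PZ.A6a
import Pool.Agent.H73.PZ.A5
import Pool.Agent.H73.PZ.A4c

/-!
MODULE A6b (MP_d9606f_gt, paper `/team-store/h73_padic_zimmer.md`, C5: Lemma P_k).

`sg d k s = (1 - 4 (k + 2 + d/2) s - d (k + 3) s) / (d + 2)`.

Proof of `lemmaP`.  Let `κ = (k + 2 + d/2) s`, `4 κ < 1`.  `rho_growth` and `hT.conv` for
`V = c.V`, `B = c.Bk k`, `ρ = c.rho`, `v = c.h0` (`Bk_psd`) give
`nm (Bk k) (T_{m+1} - T_m) ≤ C q^(-(1/2 - 2κ) m)`, so for a list `I`, `|I| ≤ k`, the function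
`f = D I ((T_{m+1} - T_m) i j) ∈ A` has `∫ f² ≤ Bk ≤ C² q^(-(1-4κ) m)` (`Bk_lower`).
`X i' f = D (I ++ [i'])`-type derivative: `X i' (D I g) = D (I ++ [i']) g` (prove
`XX X (I ++ [i]) = X i ∘ XX X I` by induction on `I`), a list of length `≤ k + 1`, so
`|X i' f| ≤ Λ := C' q^((k+3) s m)` with `C' ≥ 1` by `Tm_bound` (`k + 1`) for `m` and `m + 1`
(`q^((k+3)s(m+1)) = q^((k+3)s) q^((k+3)sm)`).
`interp`: `|f x| ≤ C'' (q^(-(1-4κ) m) q^(d (k+3) s m))^(1/(d+2)) + C'' q^(-(1/2-2κ) m)`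
`= C'' q^(-sg m) + C'' q^(-(1-4κ)/2 m)`, and `(1-4κ)/2 ≥ (1-4κ)/(d+2) ≥ sg`.
Proof of `lemmaP'`: the same with `k = 0`, `hT.almost_inv` for `γ' = g`, and `Rho_Tm_bound`
(`k = 1`) for the first derivatives of `rho g T_m - T_m`.
-/

open MeasureTheory

namespace Pool.Agent.H73.PZ.Calc

variable {Γ : Type} [Group Γ] {M : Type} [TopologicalSpace M] [MeasurableSpace M]
  [MulAction Γ M] {ι : Type} [Fintype ι] {d : ℕ} (c : Calc Γ M ι d)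

/-- The exponent of Lemma P. -/
noncomputable def sg (d k : ℕ) (s : ℝ) : ℝ :=
  (1 - 4 * (((k : ℝ) + 2 + d / 2) * s) - d * ((k : ℝ) + 3) * s) / ((d : ℝ) + 2)

private theorem a6b_append (I : List ι) (i : ι) (f : c.A) :
    c.D (I ++ [i]) f = c.X i (c.D I f) := by
  induction I generalizing f with
  | nil => rfl
  | cons a I ih =>
    change c.D (I ++ [i]) (c.X a f) = c.X i (c.D I (c.X a f))
    exact ih (c.X a f)

private theorem a6b_core [CompactSpace M] [BorelSpace M] {q : ℝ} (hq : 1 < q) {s : ℝ}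
    (hs : 0 < s) (k : ℕ) {κ : ℝ} (hκ : κ = ((k : ℝ) + 2 + d / 2) * s) (hk : 4 * κ < 1)
    (K C' : ℝ) (hK : 0 ≤ K) (hC' : 1 ≤ C') :
    ∃ C : ℝ, 0 ≤ C ∧ ∀ (m : ℕ) (f : c.A),
      ∫ x, (f.1 x) ^ 2 ∂c.μ ≤ (K * q ^ (-((1 / 2 - 2 * κ) * m))) ^ 2 →
      (∀ i x, |(c.X i f).1 x| ≤ C' * q ^ (((k : ℝ) + 3) * s * m)) →
      ∀ x, |f.1 x| ≤ C * q ^ (-(sg d k s * m)) := by
  obtain ⟨C, hC, hint⟩ := c.interp
  have hq0 : 0 < q := by linarith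
  have hd : (0 : ℝ) ≤ (d : ℝ) := Nat.cast_nonneg _
  have hk0 : (0 : ℝ) ≤ (k : ℝ) := Nat.cast_nonneg _
  refine ⟨C * (K ^ 2 * C' ^ d) ^ ((1 : ℝ) / ((d : ℝ) + 2)) + C * K, by positivity,
    fun m f hf hX x => ?_⟩
  have hm : (0 : ℝ) ≤ (m : ℝ) := Nat.cast_nonneg _
  have hone : 1 ≤ q ^ (((k : ℝ) + 3) * s * m) := Real.one_le_rpow hq.le (by positivity)
  have hΛ : 1 ≤ C' * q ^ (((k : ℝ) + 3) * s * m) := by nlinarith
  have h1 := hint f _ hΛ hX x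
  refine h1.trans ?_
  have hI0 : 0 ≤ ∫ y, (f.1 y) ^ 2 ∂c.μ := integral_nonneg fun _ => sq_nonneg _
  have hA : ((∫ y, (f.1 y) ^ 2 ∂c.μ) * (C' * q ^ (((k : ℝ) + 3) * s * m)) ^ d) ^
      ((1 : ℝ) / ((d : ℝ) + 2)) ≤
      (K ^ 2 * C' ^ d) ^ ((1 : ℝ) / ((d : ℝ) + 2)) * q ^ (-(sg d k s * m)) := by
    have h2 : (∫ y, (f.1 y) ^ 2 ∂c.μ) * (C' * q ^ (((k : ℝ) + 3) * s * m)) ^ d ≤
        (K ^ 2 * C' ^ d) * q ^ (-((1 - 4 * κ - d * (((k : ℝ) + 3) * s)) * m)) := by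
      calc (∫ y, (f.1 y) ^ 2 ∂c.μ) * (C' * q ^ (((k : ℝ) + 3) * s * m)) ^ d
          ≤ (K * q ^ (-((1 / 2 - 2 * κ) * m))) ^ 2 * (C' * q ^ (((k : ℝ) + 3) * s * m)) ^ d :=
            mul_le_mul_of_nonneg_right hf (by positivity)
        _ = (K ^ 2 * C' ^ d) * q ^ (-((1 - 4 * κ - d * (((k : ℝ) + 3) * s)) * m)) := by
            rw [mul_pow, mul_pow, ← Real.rpow_natCast (q ^ (-((1 / 2 - 2 * κ) * (m : ℝ)))) 2,
              ← Real.rpow_natCast (q ^ (((k : ℝ) + 3) * s * m)) d, ← Real.rpow_mul hq0.le,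
              ← Real.rpow_mul hq0.le]
            have e : K ^ 2 * q ^ (-((1 / 2 - 2 * κ) * (m : ℝ)) * ((2 : ℕ) : ℝ)) *
                (C' ^ d * q ^ (((k : ℝ) + 3) * s * m * (d : ℝ))) =
                (K ^ 2 * C' ^ d) * (q ^ (-((1 / 2 - 2 * κ) * (m : ℝ)) * ((2 : ℕ) : ℝ)) *
                q ^ (((k : ℝ) + 3) * s * m * (d : ℝ))) := by ring
            rw [e, ← Real.rpow_add hq0]
            congr 2
            push_cast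
            ring
    have h3 := Real.rpow_le_rpow (by positivity) h2
      (by positivity : (0 : ℝ) ≤ (1 : ℝ) / ((d : ℝ) + 2))
    refine h3.trans (le_of_eq ?_)
    rw [Real.mul_rpow (by positivity) (by positivity), ← Real.rpow_mul hq0.le]
    congr 2
    unfold sg
    rw [hκ]
    field_simp
  have hB : Real.sqrt (∫ y, (f.1 y) ^ 2 ∂c.μ) ≤ K * q ^ (-(sg d k s * m)) := by
    have h2 : Real.sqrt (∫ y, (f.1 y) ^ 2 ∂c.μ) ≤ K * q ^ (-((1 / 2 - 2 * κ) * m)) := by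
      refine (Real.sqrt_le_sqrt hf).trans (le_of_eq ?_)
      exact Real.sqrt_sq (by positivity)
    refine h2.trans (mul_le_mul_of_nonneg_left ?_ hK)
    refine Real.rpow_le_rpow_of_exponent_le hq.le ?_
    refine neg_le_neg (mul_le_mul_of_nonneg_right ?_ hm)
    unfold sg
    rw [div_le_iff₀ (by linarith), ← hκ]
    nlinarith [mul_nonneg hd (mul_nonneg (by linarith : (0 : ℝ) ≤ (k : ℝ) + 3) hs.le),
      mul_nonneg hd (by linarith : (0 : ℝ) ≤ 1 / 2 - 2 * κ)]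
  calc C * ((∫ y, (f.1 y) ^ 2 ∂c.μ) * (C' * q ^ (((k : ℝ) + 3) * s * m)) ^ d) ^
      ((1 : ℝ) / ((d : ℝ) + 2)) + C * Real.sqrt (∫ y, (f.1 y) ^ 2 ∂c.μ)
      ≤ C * ((K ^ 2 * C' ^ d) ^ ((1 : ℝ) / ((d : ℝ) + 2)) * q ^ (-(sg d k s * m))) +
        C * (K * q ^ (-(sg d k s * m))) :=
        add_le_add (mul_le_mul_of_nonneg_left hA hC) (mul_le_mul_of_nonneg_left hB hC)
    _ = _ := by ring

/-- From the seminorm to the integral. -/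
private theorem a6b_int [CompactSpace M] [BorelSpace M] (k : ℕ) (h : c.V) (i j : ι)
    (I : List ι) (hI : I.length ≤ k) {b : ℝ} (hb : nm (c.Bk k) h ≤ b) :
    ∫ x, ((c.D I (h.1 i j)).1 x) ^ 2 ∂c.μ ≤ b ^ 2 := by
  refine (c.Bk_lower k h i j I hI).trans ?_
  rw [← (c.Bk_psd k).nm_sq h]
  exact pow_le_pow_left₀ (PSD.nm_nonneg h) hb 2

private theorem a6b_sub (h h' : c.V) (i j : ι) : (h - h').1 i j = h.1 i j - h'.1 i j := rfl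

/-- The interpolation step for one difference. -/
private theorem a6b_step [CompactSpace M] [BorelSpace M] {q : ℝ} (hq : 1 < q) {s : ℝ}
    (hs : 0 < s) (k : ℕ) (hk : 4 * (((k : ℝ) + 2 + d / 2) * s) < 1) (K C' : ℝ) :
    ∃ C : ℝ, 0 ≤ C ∧ ∀ (m : ℕ) (h h' : c.V),
      nm (c.Bk k) (h - h') ≤ K * q ^ (-((1 / 2 - 2 * (((k : ℝ) + 2 + d / 2) * s)) * m)) →
      (∀ (I : List ι), I.length ≤ k + 1 → ∀ (i j : ι) (x : M),
        |(c.D I (h.1 i j)).1 x - (c.D I (h'.1 i j)).1 x| ≤ C' * q ^ (((k : ℝ) + 3) * s * m)) →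
      ∀ (I : List ι), I.length ≤ k → ∀ (i j : ι) (x : M),
        |(c.D I (h.1 i j - h'.1 i j)).1 x| ≤ C * q ^ (-(sg d k s * m)) := by
  have hq0 : 0 < q := by linarith
  obtain ⟨C, hC, hcore⟩ := c.a6b_core hq hs k rfl hk (max K 0)
    (max 1 C') (le_max_right _ _) (le_max_left _ _)
  refine ⟨C, hC, fun m h h' hn hX I hI i j x => hcore m _ ?_ ?_ x⟩
  · have h1 : nm (c.Bk k) (h - h') ≤
        max K 0 * q ^ (-((1 / 2 - 2 * (((k : ℝ) + 2 + d / 2) * s)) * m)) :=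
      hn.trans (mul_le_mul_of_nonneg_right (le_max_left _ _) (by positivity))
    have h2 := c.a6b_int k (h - h') i j I hI h1
    rw [c.a6b_sub] at h2
    exact h2
  · intro i' y
    rw [← c.a6b_append, map_sub, c.val_sub]
    have hlen : (I ++ [i']).length ≤ k + 1 := by
      rw [List.length_append, List.length_singleton]
      omega
    refine (hX (I ++ [i']) hlen i j y).trans ?_
    exact mul_le_mul_of_nonneg_right (le_max_right _ _) (by positivity)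

private theorem a6b_conv0 {q : ℝ} {N : Γ → ℝ}
    {w : ℕ → Γ →₀ ℝ} {C₀ : ℝ} (hT : StrongT q N w C₀) (B : c.V → c.V → ℝ) (hp : PSD B)
    (A κ : ℝ) (hA : 0 ≤ A) (hκ : 0 ≤ κ)
    (hgr : ∀ (γ : Γ) (h : c.V), nm B (c.rho γ h) ≤ A * N γ ^ κ * nm B h) :
    ∃ K : ℝ, ∀ m : ℕ, nm B (c.Tm w (m + 1) - c.Tm w m) ≤
      K * q ^ (-((1 / 2 - 2 * κ) * m)) := by
  obtain ⟨K, hK⟩ := hT.conv c.V B c.rho A κ hp hA hκ hgr c.h0
  refine ⟨K, fun m => ?_⟩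
  have h1 := hK m
  unfold Tm
  generalize Tw (w (m + 1)) c.rho c.h0 = a at *
  generalize Tw (w m) c.rho c.h0 = b at *
  exact h1

private theorem a6b_inv0 {q : ℝ} {N : Γ → ℝ}
    {w : ℕ → Γ →₀ ℝ} {C₀ : ℝ} (hT : StrongT q N w C₀) (B : c.V → c.V → ℝ) (hp : PSD B)
    (A κ : ℝ) (hA : 0 ≤ A) (hκ : 0 ≤ κ)
    (hgr : ∀ (γ : Γ) (h : c.V), nm B (c.rho γ h) ≤ A * N γ ^ κ * nm B h) (g : Γ) :
    ∃ K : ℝ, ∀ m : ℕ, nm B (c.rho g (c.Tm w m) - c.Tm w m) ≤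
      K * q ^ (-((1 / 2 - 2 * κ) * m)) := by
  obtain ⟨K, hK⟩ := hT.almost_inv c.V B c.rho A κ hp hA hκ hgr g c.h0
  refine ⟨K, fun m => ?_⟩
  have h1 := hK m
  unfold Tm
  generalize Tw (w m) c.rho c.h0 = b at *
  generalize c.rho g b = a at *
  exact h1

private theorem a6b_conv [CompactSpace M] [BorelSpace M] {q : ℝ} {N : Γ → ℝ} (hS : Sz q N)
    {w : ℕ → Γ →₀ ℝ} {C₀ : ℝ} (hT : StrongT q N w C₀) {s : ℝ} (hs : 0 < s) (hJ : c.Adm N s)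
    (k : ℕ) : ∃ K : ℝ, ∀ m : ℕ, nm (c.Bk k) (c.Tm w (m + 1) - c.Tm w m) ≤
      K * q ^ (-((1 / 2 - 2 * (((k : ℝ) + 2 + d / 2) * s)) * m)) := by
  obtain ⟨A, hA, hgr⟩ := c.rho_growth hS hs hJ k
  exact c.a6b_conv0 hT (c.Bk k) (c.Bk_psd k) A _ hA (by positivity) hgr

private theorem a6b_inv [CompactSpace M] [BorelSpace M] {q : ℝ} {N : Γ → ℝ} (hS : Sz q N)
    {w : ℕ → Γ →₀ ℝ} {C₀ : ℝ} (hT : StrongT q N w C₀) {s : ℝ} (hs : 0 < s) (hJ : c.Adm N s)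
    (k : ℕ) (g : Γ) : ∃ K : ℝ, ∀ m : ℕ, nm (c.Bk k) (c.rho g (c.Tm w m) - c.Tm w m) ≤
      K * q ^ (-((1 / 2 - 2 * (((k : ℝ) + 2 + d / 2) * s)) * m)) := by
  obtain ⟨A, hA, hgr⟩ := c.rho_growth hS hs hJ k
  exact c.a6b_inv0 hT (c.Bk k) (c.Bk_psd k) A _ hA (by positivity) hgr g

theorem lemmaP [CompactSpace M] [BorelSpace M] {q : ℝ} {N : Γ → ℝ} (hS : Sz q N)
    {w : ℕ → Γ →₀ ℝ} {C₀ : ℝ} (hT : StrongT q N w C₀) {s : ℝ} (hs : 0 < s) (hJ : c.Adm N s)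
    (k : ℕ) (hk : 4 * (((k : ℝ) + 2 + d / 2) * s) < 1) :
    ∃ C : ℝ, 0 ≤ C ∧ ∀ (I : List ι), I.length ≤ k → ∀ (m : ℕ) (i j : ι) (x : M),
      |(c.D I ((c.Tm w (m + 1)).1 i j - (c.Tm w m).1 i j)).1 x| ≤ C * q ^ (-(sg d k s * m)) := by
  have hq := hS.q_gt
  have hq0 : 0 < q := by linarith
  obtain ⟨K, hK⟩ := c.a6b_conv hS hT hs hJ k
  obtain ⟨C1, hC1, hTm⟩ := c.Tm_bound hS hT hs hJ (k + 1)
  obtain ⟨C, hC, hstep⟩ := c.a6b_step hq hs k hk K (C1 * (q ^ (((k : ℝ) + 3) * s) + 1))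
  refine ⟨C, hC, fun I hI m i j x => hstep m (c.Tm w (m + 1)) (c.Tm w m) (hK m) ?_ I hI i j x⟩
  intro I' hlen i' j' y
  have h1 := hTm I' hlen (m + 1) i' j' y
  have h2 := hTm I' hlen m i' j' y
  have e0 : (((k + 1 : ℕ) : ℝ) + 2) = (k : ℝ) + 3 := by push_cast; ring
  rw [e0] at h1 h2
  have e1 : q ^ (((k : ℝ) + 3) * s * ((m + 1 : ℕ) : ℝ)) =
      q ^ (((k : ℝ) + 3) * s) * q ^ (((k : ℝ) + 3) * s * m) := by
    rw [← Real.rpow_add hq0]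
    congr 1
    push_cast
    ring
  rw [e1] at h1
  refine (abs_sub _ _).trans ?_
  calc _ ≤ C1 * (q ^ (((k : ℝ) + 3) * s) * q ^ (((k : ℝ) + 3) * s * m)) +
        C1 * q ^ (((k : ℝ) + 3) * s * m) := add_le_add h1 h2
    _ = C1 * (q ^ (((k : ℝ) + 3) * s) + 1) * q ^ (((k : ℝ) + 3) * s * m) := by ring

theorem lemmaP' [CompactSpace M] [BorelSpace M] {q : ℝ} {N : Γ → ℝ} (hS : Sz q N)
    {w : ℕ → Γ →₀ ℝ} {C₀ : ℝ} (hT : StrongT q N w C₀) {s : ℝ} (hs : 0 < s) (hJ : c.Adm N s)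
    (hk : 4 * ((2 + (d : ℝ) / 2) * s) < 1) (g : Γ) :
    ∃ C : ℝ, 0 ≤ C ∧ ∀ (m : ℕ) (i j : ι) (x : M),
      |((c.rho g (c.Tm w m)).1 i j).1 x - ((c.Tm w m).1 i j).1 x| ≤
        C * q ^ (-(sg d 0 s * m)) := by
  have hq := hS.q_gt
  have hk' : 4 * ((((0 : ℕ) : ℝ) + 2 + d / 2) * s) < 1 := by
    rw [Nat.cast_zero, zero_add]
    exact hk
  obtain ⟨K, hK⟩ := c.a6b_inv hS hT hs hJ 0 g
  obtain ⟨C1, hC1, hTm⟩ := c.Tm_bound hS hT hs hJ 1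
  obtain ⟨C2, hC2, hRT⟩ := c.Rho_Tm_bound hS hT hs hJ 1 g
  obtain ⟨C, hC, hstep⟩ := c.a6b_step hq hs 0 hk' K (C2 + C1)
  refine ⟨C, hC, fun m i j x => ?_⟩
  refine hstep m (c.rho g (c.Tm w m)) (c.Tm w m) (hK m) ?_ [] le_rfl i j x
  intro I' hlen i' j' y
  have hlen' : I'.length ≤ 1 := by omega
  have h1 := hRT I' hlen' m i' j' y
  have h2 := hTm I' hlen' m i' j' y
  have e0 : (((1 : ℕ) : ℝ) + 2) = ((0 : ℕ) : ℝ) + 3 := by push_cast; ring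
  rw [e0] at h1 h2
  refine (abs_sub _ _).trans ?_
  calc _ ≤ C2 * q ^ ((((0 : ℕ) : ℝ) + 3) * s * m) + C1 * q ^ ((((0 : ℕ) : ℝ) + 3) * s * m) :=
        add_le_add h1 h2
    _ = (C2 + C1) * q ^ ((((0 : ℕ) : ℝ) + 3) * s * m) := by ring

end Pool.Agent.H73.PZ.Calc
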