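import Mathlib
import Pool.Agent.H73.PZ.Ten
import Pool.Agent.H73.PZ.Sz

/-!
MODULE A6c (MP_d9606f_gt, paper `/team-store/h73_padic_zimmer.md`, C6: lower bound for `T_m`).

A vector `a : ι → ℝ` is tangent at `x` if `a j = ∑ i, a i * (J 1 i j) x` for all `j`.
`Q h x a = ∑ i j, a i * a j * (h i j) x`.

* `Tm_quad`: from `Tm_apply_val`,
  `Q (Tm w m) x a = ∑_γ w m γ * ∑_l (∑_i a i * (J γ⁻¹ i l) x)²` (exchange finite sums).
* `Tm_lower`: let `b l = ∑_i a i (J γ⁻¹ i l) x`.  Then `a j = ∑_l b l * (J γ l j) (γ⁻¹ • x)`: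
  `∑_l b l (J γ l j)(γ⁻¹ x) = ∑_i a i ∑_l (J γ⁻¹ i l) x * (J γ l j) (γ⁻¹ x)
   = ∑_i a i (J 1 i j) x = a j` (`J_mul_apply` for `γ * γ⁻¹ = 1`, tangency).
  So `‖a‖ ≤ card ι * C * N γ ^ s * ‖b‖`, `∑_l (b l)² ≥ ‖b‖²`, and
  `∑_l (b l)² ≥ ‖a‖² / ((card ι + 1) (C + 1) N γ ^ s)²`.  On the support of `w m`
  `N γ ≤ C₀ q^m`; the mass is `≥ 1`.
* `quad_bound`: if `|h i j x| ≤ b` for all `i, j` then `|Q h x a| ≤ (card ι)² b ‖a‖²`.
* `rho_quad`: `Q (rho g h) x a = Q h (g⁻¹ • x) (a')` with `a' l = ∑_i a i (J g⁻¹ i l) x`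
  (`rho_apply`), and `a'` is tangent at `g⁻¹ • x` (`J_mul_one`).
-/

open MeasureTheory

namespace Pool.Agent.H73.PZ.Calc

variable {Γ : Type} [Group Γ] {M : Type} [TopologicalSpace M] [MeasurableSpace M]
  [MulAction Γ M] {ι : Type} [Fintype ι] {d : ℕ} (c : Calc Γ M ι d)

/-- Tangent vectors in the embedding. -/
def Tan (x : M) (a : ι → ℝ) : Prop := ∀ j, a j = ∑ i, a i * (c.J 1 i j).1 x

/-- The quadratic form of a tensor at a point. -/
noncomputable def Qd (h : ι → ι → c.A) (x : M) (a : ι → ℝ) : ℝ :=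
  ∑ i, ∑ j, a i * a j * (h i j).1 x

/-- The image of a vector under a group element. -/
noncomputable def push (g : Γ) (x : M) (a : ι → ℝ) : ι → ℝ :=
  fun l => ∑ i, a i * (c.J g i l).1 x

theorem push_push (g g' : Γ) (x : M) (a : ι → ℝ) :
    c.push g (g' • x) (c.push g' x a) = c.push (g * g') x a := by
  funext l
  unfold push
  have h1 : ∀ k, (c.J (g * g') k l).1 x = ∑ i, (c.J g' k i).1 x * (c.J g i l).1 (g' • x) :=
    fun k => c.J_mul_apply g g' k l x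
  simp only [h1, Finset.sum_mul, Finset.mul_sum]
  rw [Finset.sum_comm]
  exact Finset.sum_congr rfl fun k _ => Finset.sum_congr rfl fun i _ => by ring

theorem push_tan (g : Γ) (x : M) (a : ι → ℝ) : c.Tan (g • x) (c.push g x a) := by
  intro j
  have h := congrFun (c.push_push 1 g x a) j
  rw [one_mul] at h
  exact h.symm

theorem push_one {x : M} {a : ι → ℝ} (ha : c.Tan x a) : c.push 1 x a = a := by
  funext l
  exact (ha l).symm

theorem rho_quad (g : Γ) (h : c.V) (x : M) (a : ι → ℝ) :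
    c.Qd (c.rho g h).1 x a = c.Qd h.1 (g⁻¹ • x) (c.push g⁻¹ x a) := by
  have h1 : ∀ i j, ((c.rho g h).1 i j).1 x = ∑ k, ∑ l,
      (c.J g⁻¹ i k).1 x * (c.J g⁻¹ j l).1 x * (h.1 k l).1 (g⁻¹ • x) := by
    intro i j
    rw [c.rho_apply, c.val_sum]
    refine Finset.sum_congr rfl fun k _ => ?_
    rw [c.val_sum]
    refine Finset.sum_congr rfl fun l _ => ?_
    rw [c.val_mul, c.val_mul, c.cmp_apply]
  unfold Qd push
  simp only [h1]
  have e1 : ∀ i j, a i * a j * ∑ k, ∑ l,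
      (c.J g⁻¹ i k).1 x * (c.J g⁻¹ j l).1 x * (h.1 k l).1 (g⁻¹ • x) =
      ∑ k, ∑ l, (a i * (c.J g⁻¹ i k).1 x) * (a j * (c.J g⁻¹ j l).1 x) *
        (h.1 k l).1 (g⁻¹ • x) := by
    intro i j
    rw [Finset.mul_sum]
    refine Finset.sum_congr rfl fun k _ => ?_
    rw [Finset.mul_sum]
    exact Finset.sum_congr rfl fun l _ => by ring
  simp only [e1]
  have e2 : ∀ k l, (∑ i, a i * (c.J g⁻¹ i k).1 x) * (∑ i, a i * (c.J g⁻¹ i l).1 x) *
      (h.1 k l).1 (g⁻¹ • x) = ∑ i, ∑ j, (a i * (c.J g⁻¹ i k).1 x) *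
        (a j * (c.J g⁻¹ j l).1 x) * (h.1 k l).1 (g⁻¹ • x) := by
    intro k l
    rw [Finset.sum_mul_sum, Finset.sum_mul]
    exact Finset.sum_congr rfl fun i _ => by rw [Finset.sum_mul]
  simp only [e2]
  calc _ = ∑ i, ∑ k, ∑ j, ∑ l, (a i * (c.J g⁻¹ i k).1 x) * (a j * (c.J g⁻¹ j l).1 x) *
        (h.1 k l).1 (g⁻¹ • x) := Finset.sum_congr rfl fun i _ => Finset.sum_comm
    _ = ∑ k, ∑ i, ∑ j, ∑ l, (a i * (c.J g⁻¹ i k).1 x) * (a j * (c.J g⁻¹ j l).1 x) *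
        (h.1 k l).1 (g⁻¹ • x) := Finset.sum_comm
    _ = ∑ k, ∑ i, ∑ l, ∑ j, (a i * (c.J g⁻¹ i k).1 x) * (a j * (c.J g⁻¹ j l).1 x) *
        (h.1 k l).1 (g⁻¹ • x) :=
          Finset.sum_congr rfl fun k _ => Finset.sum_congr rfl fun i _ => Finset.sum_comm
    _ = _ := Finset.sum_congr rfl fun k _ => Finset.sum_comm

theorem quad_bound (h : ι → ι → c.A) (x : M) (a : ι → ℝ) {b : ℝ}
    (hb : ∀ i j, |(h i j).1 x| ≤ b) :
    |c.Qd h x a| ≤ (Fintype.card ι : ℝ) ^ 2 * b * ‖a‖ ^ 2 := by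
  unfold Qd
  have h1 : ∀ i j, |a i * a j * (h i j).1 x| ≤ b * ‖a‖ ^ 2 := by
    intro i j
    rw [abs_mul, abs_mul]
    have h2 : |a i| ≤ ‖a‖ := norm_le_pi_norm a i
    have h3 : |a j| ≤ ‖a‖ := norm_le_pi_norm a j
    have h4 : |a i| * |a j| ≤ ‖a‖ ^ 2 := by
      rw [sq]; exact mul_le_mul h2 h3 (abs_nonneg _) (norm_nonneg _)
    calc _ ≤ ‖a‖ ^ 2 * b := mul_le_mul h4 (hb i j) (abs_nonneg _) (by positivity)
      _ = _ := mul_comm _ _
  calc _ ≤ ∑ i, |∑ j, a i * a j * (h i j).1 x| := Finset.abs_sum_le_sum_abs _ _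
    _ ≤ ∑ i : ι, ∑ j : ι, b * ‖a‖ ^ 2 := Finset.sum_le_sum fun i _ =>
        (Finset.abs_sum_le_sum_abs _ _).trans (Finset.sum_le_sum fun j _ => h1 i j)
    _ = _ := by
        simp only [Finset.sum_const, Finset.card_univ, nsmul_eq_mul]; ring

theorem Tm_quad (w : ℕ → Γ →₀ ℝ) (m : ℕ) (x : M) (a : ι → ℝ) :
    c.Qd (c.Tm w m).1 x a = ∑ γ ∈ (w m).support, w m γ * ∑ l, (c.push γ⁻¹ x a l) ^ 2 := by
  unfold Qd push
  simp only [c.Tm_apply_val]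
  have e1 : ∀ i j, a i * a j * ∑ γ ∈ (w m).support, w m γ *
      ∑ l, (c.J γ⁻¹ i l).1 x * (c.J γ⁻¹ j l).1 x = ∑ γ ∈ (w m).support, w m γ *
      ∑ l, (a i * (c.J γ⁻¹ i l).1 x) * (a j * (c.J γ⁻¹ j l).1 x) := by
    intro i j
    rw [Finset.mul_sum]
    refine Finset.sum_congr rfl fun γ _ => ?_
    rw [mul_left_comm, Finset.mul_sum]
    congr 1
    exact Finset.sum_congr rfl fun l _ => by ring
  simp only [e1]
  have e2 : ∀ (γ : Γ) l, (∑ i, a i * (c.J γ⁻¹ i l).1 x) ^ 2 =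
      ∑ i, ∑ j, (a i * (c.J γ⁻¹ i l).1 x) * (a j * (c.J γ⁻¹ j l).1 x) := by
    intro γ l
    rw [sq, Finset.sum_mul_sum]
  simp only [e2]
  calc _ = ∑ i, ∑ γ ∈ (w m).support, ∑ j, w m γ *
        ∑ l, (a i * (c.J γ⁻¹ i l).1 x) * (a j * (c.J γ⁻¹ j l).1 x) :=
        Finset.sum_congr rfl fun i _ => Finset.sum_comm
    _ = ∑ γ ∈ (w m).support, ∑ i, ∑ j, w m γ *
        ∑ l, (a i * (c.J γ⁻¹ i l).1 x) * (a j * (c.J γ⁻¹ j l).1 x) := Finset.sum_comm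
    _ = _ := by
        refine Finset.sum_congr rfl fun γ _ => ?_
        simp only [← Finset.mul_sum]
        congr 1
        calc _ = ∑ i, ∑ l, ∑ j, (a i * (c.J γ⁻¹ i l).1 x) * (a j * (c.J γ⁻¹ j l).1 x) := by
              refine Finset.sum_congr rfl fun i _ => ?_
              rw [Finset.sum_comm]
          _ = _ := by
              rw [Finset.sum_comm]
              exact Finset.sum_congr rfl fun l _ => Finset.sum_congr rfl fun i _ => by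
                rw [Finset.mul_sum]

theorem Tm_lower {q : ℝ} {N : Γ → ℝ} (hS : Sz q N) {w : ℕ → Γ →₀ ℝ} {C₀ : ℝ}
    (hT : StrongT q N w C₀) {s : ℝ} (hs : 0 < s) (hJ : c.Adm N s) :
    ∃ b : ℝ, 0 < b ∧ ∀ (m : ℕ) (x : M) (a : ι → ℝ), c.Tan x a →
      b * q ^ (-(2 * s * m)) * ‖a‖ ^ 2 ≤ c.Qd (c.Tm w m).1 x a := by
  obtain ⟨C, hC, hJ⟩ := hJ
  have hq : 1 < q := hS.q_gt
  have hq0 : 0 < q := by linarith
  have hC₀ : 1 ≤ C₀ := (hT.mass_lower 0).trans (hT.mass_upper 0)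
  set D : ℝ := ((Fintype.card ι : ℝ) + 1) * (C + 1) with hD
  have hDpos : 0 < D := by positivity
  refine ⟨(D ^ 2 * C₀ ^ (2 * s))⁻¹, by positivity, fun m x a ha => ?_⟩
  -- the estimate for one group element
  have key : ∀ γ : Γ, w m γ ≠ 0 →
      (D ^ 2 * C₀ ^ (2 * s))⁻¹ * q ^ (-(2 * s * m)) * ‖a‖ ^ 2 ≤ ∑ l, (c.push γ⁻¹ x a l) ^ 2 := by
    intro γ hγ
    set b := c.push γ⁻¹ x a with hb
    have hN1 : 1 ≤ N γ := hS.one_le γ
    have hNs : 0 < N γ ^ s := by positivity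
    have h1 : c.push γ (γ⁻¹ • x) b = a := by
      rw [hb, c.push_push, mul_inv_cancel, c.push_one ha]
    have h2 : ∀ j, |a j| ≤ D * N γ ^ s * ‖b‖ := by
      intro j
      have h3 : a j = ∑ l, b l * (c.J γ l j).1 (γ⁻¹ • x) := by
        rw [← congrFun h1 j]; rfl
      rw [h3]
      have h4 : ∀ l, |b l * (c.J γ l j).1 (γ⁻¹ • x)| ≤ ‖b‖ * (C * N γ ^ s) := by
        intro l
        rw [abs_mul]
        exact mul_le_mul (norm_le_pi_norm b l) (hJ _ _ _ _) (abs_nonneg _) (norm_nonneg _)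
      calc _ ≤ ∑ l, |b l * (c.J γ l j).1 (γ⁻¹ • x)| := Finset.abs_sum_le_sum_abs _ _
        _ ≤ ∑ l : ι, ‖b‖ * (C * N γ ^ s) := Finset.sum_le_sum fun l _ => h4 l
        _ = (Fintype.card ι : ℝ) * C * (N γ ^ s * ‖b‖) := by
            rw [Finset.sum_const, Finset.card_univ, nsmul_eq_mul]; ring
        _ ≤ D * (N γ ^ s * ‖b‖) := by
            refine mul_le_mul_of_nonneg_right ?_ (by positivity)
            rw [hD]
            have : (0 : ℝ) ≤ Fintype.card ι := Nat.cast_nonneg _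
            nlinarith
        _ = _ := by ring
    have h5 : ‖a‖ ≤ D * N γ ^ s * ‖b‖ := (pi_norm_le_iff_of_nonneg (by positivity)).2 h2
    have h6 : ‖b‖ ^ 2 ≤ ∑ l, (b l) ^ 2 := by
      have h7 : 0 ≤ ∑ l, (b l) ^ 2 := Finset.sum_nonneg fun l _ => sq_nonneg _
      have h8 : ‖b‖ ≤ Real.sqrt (∑ l, (b l) ^ 2) := by
        refine (pi_norm_le_iff_of_nonneg (Real.sqrt_nonneg _)).2 fun l => ?_
        rw [Real.norm_eq_abs]
        refine Real.abs_le_sqrt ?_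
        exact Finset.single_le_sum (f := fun l => (b l) ^ 2) (fun l _ => sq_nonneg _)
          (Finset.mem_univ l)
      calc ‖b‖ ^ 2 ≤ (Real.sqrt (∑ l, (b l) ^ 2)) ^ 2 :=
            pow_le_pow_left₀ (norm_nonneg _) h8 2
        _ = _ := Real.sq_sqrt h7
    have hsupp : N γ ≤ C₀ * q ^ m := hT.supp m γ hγ
    have h9 : N γ ^ (2 * s) ≤ C₀ ^ (2 * s) * q ^ (2 * s * m) := by
      calc N γ ^ (2 * s) ≤ (C₀ * q ^ m) ^ (2 * s) :=
            Real.rpow_le_rpow (by linarith) hsupp (by linarith)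
        _ = _ := by
            rw [Real.mul_rpow (by linarith) (by positivity), ← Real.rpow_natCast q m,
              ← Real.rpow_mul hq0.le]
            congr 2
            ring
    have h10 : (N γ ^ s) ^ 2 = N γ ^ (2 * s) := by
      rw [← Real.rpow_natCast (N γ ^ s) 2, ← Real.rpow_mul (by linarith)]
      congr 1
      push_cast
      ring
    have h11 : ‖a‖ ^ 2 ≤ D ^ 2 * (C₀ ^ (2 * s) * q ^ (2 * s * m)) * ‖b‖ ^ 2 := by
      calc ‖a‖ ^ 2 ≤ (D * N γ ^ s * ‖b‖) ^ 2 := pow_le_pow_left₀ (norm_nonneg _) h5 2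
        _ = D ^ 2 * N γ ^ (2 * s) * ‖b‖ ^ 2 := by rw [mul_pow, mul_pow, h10]
        _ ≤ _ := by
            refine mul_le_mul_of_nonneg_right ?_ (by positivity)
            exact mul_le_mul_of_nonneg_left h9 (by positivity)
    have h12 : q ^ (-(2 * s * (m : ℝ))) * q ^ (2 * s * (m : ℝ)) = 1 := by
      rw [← Real.rpow_add hq0]
      simp
    have hqp : 0 < q ^ (-(2 * s * (m : ℝ))) := by positivity
    have hCp : 0 < C₀ ^ (2 * s) := by positivity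
    calc (D ^ 2 * C₀ ^ (2 * s))⁻¹ * q ^ (-(2 * s * (m : ℝ))) * ‖a‖ ^ 2
        ≤ (D ^ 2 * C₀ ^ (2 * s))⁻¹ * q ^ (-(2 * s * (m : ℝ))) *
          (D ^ 2 * (C₀ ^ (2 * s) * q ^ (2 * s * (m : ℝ))) * ‖b‖ ^ 2) :=
          mul_le_mul_of_nonneg_left h11 (by positivity)
      _ = ((D ^ 2 * C₀ ^ (2 * s))⁻¹ * (D ^ 2 * C₀ ^ (2 * s))) *
          (q ^ (-(2 * s * (m : ℝ))) * q ^ (2 * s * (m : ℝ))) * ‖b‖ ^ 2 := by ring
      _ = ‖b‖ ^ 2 := by
          rw [h12, inv_mul_cancel₀ (by positivity)]; ring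
      _ ≤ _ := h6
  rw [c.Tm_quad]
  set B : ℝ := (D ^ 2 * C₀ ^ (2 * s))⁻¹ * q ^ (-(2 * s * m)) * ‖a‖ ^ 2 with hB
  have hB0 : 0 ≤ B := by positivity
  have hmass : 1 ≤ ∑ γ ∈ (w m).support, w m γ := hT.mass_lower m
  calc B = 1 * B := (one_mul _).symm
    _ ≤ (∑ γ ∈ (w m).support, w m γ) * B := mul_le_mul_of_nonneg_right hmass hB0
    _ = ∑ γ ∈ (w m).support, w m γ * B := Finset.sum_mul _ _ _
    _ ≤ _ := Finset.sum_le_sum fun γ hγ =>
        mul_le_mul_of_nonneg_left (key γ (Finsupp.mem_support_iff.1 hγ)) (hT.nonneg m γ)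

end Pool.Agent.H73.PZ.Calc
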