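import Mathlib
import Pool.Agent.H73.PZ.A6b
import Pool.Agent.H73.PZ.A6c

/-!
MODULE A7 (MP_d9606f_gt, paper `/team-store/h73_padic_zimmer.md`, C6: pass 1).

Hypothesis `(7 d + 12) s < 1`, `s > 0`: then `4 (2 + d/2) s < 1` and `sg d 0 s > 2 s`
(`(1 - (5 d + 8) s) / (d + 2) > 2 s`).
* `Tm_unif`: by `lemmaP` (`k = 0`, `I = []`) `|T_{m+1} - T_m| ≤ C q^(-σ m)`, `σ = sg d 0 s > 2 s > 0`;
  so for `m' ≥ m`: `|T_{m'} - T_m| ≤ C' q^(-σ m)` (geometric series).  In particular all `T_m` are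
  bounded by a constant (`T_0` is bounded, `c.bdd`).  `quad_bound` and `Tm_lower`:
  `Qd T_{m'} x a ≥ (b q^(-2 s m) - C'' q^(-σ m)) ‖a‖²` for tangent `a`; fix `m = m₀` with
  `b q^(-2 s m) ≥ 2 C'' q^(-σ m)` (possible as `σ > 2 s`).
* `pass_one`: let `g : Γ`, `a` tangent at `x`, `y = g • x`, `b = push g x a`, tangent at `y`.
  `Qd (T_m) x a ≥ Qd (rho g⁻¹ T_m) x a - ε_m ‖a‖²` with `ε_m → 0` (`lemmaP'` for `g⁻¹`,
  `quad_bound`; `g` fixed), and `Qd (rho g⁻¹ T_m) x a = Qd T_m y b ≥ b₀ ‖b‖²` (`rho_quad`), while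
  `Qd (T_m) x a ≤ C ‖a‖²`.  Let `m → ∞`: `‖push g x a‖² ≤ (C / b₀) ‖a‖²` for every `g` and every
  tangent `a`, with `C / b₀` independent of `g, x`.  For `a = fun l => (J 1 i l) x` (`= push 1` of a
  unit vector at `x`, tangent by `push_tan`), bounded by a constant (`bdd`),
  `push g x a j = (J g i j) x` (`J_one_mul`).
-/

open MeasureTheory

namespace Pool.Agent.H73.PZ.Calc

variable {Γ : Type} [Group Γ] {M : Type} [TopologicalSpace M] [MeasurableSpace M]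
  [MulAction Γ M] {ι : Type} [Fintype ι] {d : ℕ} (c : Calc Γ M ι d)

theorem sg_zero_gt {s : ℝ} (h : (7 * (d : ℝ) + 12) * s < 1) : 2 * s < sg d 0 s := by
  unfold sg
  rw [lt_div_iff₀ (by positivity)]
  push_cast
  nlinarith

/-- a finite family of functions of the algebra is bounded -/
private theorem A7_bdd [CompactSpace M] (F : ι → ι → c.A) :
    ∃ C : ℝ, 0 ≤ C ∧ ∀ (i j : ι) (x : M), |(F i j).1 x| ≤ C := by
  choose C hC0 hC using fun i j => c.bdd (F i j)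
  refine ⟨∑ i, ∑ j, C i j, Finset.sum_nonneg fun i _ => Finset.sum_nonneg fun j _ => hC0 i j,
    fun i j x => (hC i j x).trans ?_⟩
  calc C i j ≤ ∑ j, C i j :=
        Finset.single_le_sum (f := fun j => C i j) (fun j _ => hC0 i j) (Finset.mem_univ j)
    _ ≤ ∑ i, ∑ j, C i j :=
        Finset.single_le_sum (f := fun i => ∑ j, C i j)
          (fun i _ => Finset.sum_nonneg fun j _ => hC0 i j) (Finset.mem_univ i)

private theorem A7_Qd_sub (h h' : ι → ι → c.A) (x : M) (a : ι → ℝ) :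
    c.Qd h x a - c.Qd h' x a = c.Qd (fun i j => h i j - h' i j) x a := by
  unfold Qd
  rw [← Finset.sum_sub_distrib]
  refine Finset.sum_congr rfl fun i _ => ?_
  rw [← Finset.sum_sub_distrib]
  refine Finset.sum_congr rfl fun j _ => ?_
  rw [c.val_sub]
  ring

private theorem A7_rpow {q : ℝ} (hq : 1 < q) (t : ℝ) (m : ℕ) :
    q ^ (-(t * m)) = (q ^ (-t)) ^ m := by
  rw [← Real.rpow_natCast, ← Real.rpow_mul (by linarith)]
  congr 1
  ring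

/-- the differences of the `T_m` -/
private theorem A7_cauchy [CompactSpace M] [BorelSpace M] {q : ℝ} {N : Γ → ℝ} (hS : Sz q N)
    {w : ℕ → Γ →₀ ℝ} {C₀ : ℝ} (hT : StrongT q N w C₀) {s : ℝ} (hs : 0 < s) (hJ : c.Adm N s)
    (h : (7 * (d : ℝ) + 12) * s < 1) :
    ∃ C : ℝ, 0 ≤ C ∧ ∀ (m n : ℕ) (i j : ι) (x : M),
      |((c.Tm w (m + n)).1 i j).1 x - ((c.Tm w m).1 i j).1 x| ≤ C * (q ^ (-sg d 0 s)) ^ m := by
  have hq := hS.q_gt
  have hd : (0 : ℝ) ≤ d := Nat.cast_nonneg d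
  have hk : 4 * ((((0 : ℕ) : ℝ) + 2 + d / 2) * s) < 1 := by
    push_cast
    nlinarith [mul_nonneg hd hs.le]
  obtain ⟨C, hC, hP⟩ := c.lemmaP hS hT hs hJ 0 hk
  have hσ : 0 < sg d 0 s := by
    have := sg_zero_gt h
    linarith
  set ρ : ℝ := q ^ (-sg d 0 s) with hρ
  have hρ0 : 0 < ρ := Real.rpow_pos_of_pos (by linarith) _
  have hρ1 : ρ < 1 := Real.rpow_lt_one_of_one_lt_of_neg hq (by linarith)
  have h1ρ : 0 < 1 - ρ := by linarith
  refine ⟨C / (1 - ρ), by positivity, fun m n i j x => ?_⟩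
  have step : ∀ m : ℕ, |((c.Tm w (m + 1)).1 i j).1 x - ((c.Tm w m).1 i j).1 x| ≤ C * ρ ^ m := by
    intro m
    have h1 := hP [] (le_refl _) m i j x
    rw [A7_rpow hq] at h1
    exact h1
  have ind : ∀ n : ℕ, |((c.Tm w (m + n)).1 i j).1 x - ((c.Tm w m).1 i j).1 x| ≤
      C / (1 - ρ) * ρ ^ m * (1 - ρ ^ n) := by
    intro n
    induction n with
    | zero => simp
    | succ n ih =>
      have h2 := step (m + n)
      rw [add_assoc] at h2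
      have h3 := abs_add_le (((c.Tm w (m + (n + 1))).1 i j).1 x - ((c.Tm w (m + n)).1 i j).1 x)
        (((c.Tm w (m + n)).1 i j).1 x - ((c.Tm w m).1 i j).1 x)
      have h4 : ((c.Tm w (m + (n + 1))).1 i j).1 x - ((c.Tm w (m + n)).1 i j).1 x +
          (((c.Tm w (m + n)).1 i j).1 x - ((c.Tm w m).1 i j).1 x) =
          ((c.Tm w (m + (n + 1))).1 i j).1 x - ((c.Tm w m).1 i j).1 x := by ring
      rw [h4] at h3
      refine h3.trans ((add_le_add h2 ih).trans (le_of_eq ?_))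
      field_simp
      ring
  refine (ind n).trans ?_
  have h5 : 0 ≤ C / (1 - ρ) * ρ ^ m := by positivity
  have h6 : 1 - ρ ^ n ≤ 1 := by
    have : 0 ≤ ρ ^ n := by positivity
    linarith
  calc C / (1 - ρ) * ρ ^ m * (1 - ρ ^ n) ≤ C / (1 - ρ) * ρ ^ m * 1 :=
        mul_le_mul_of_nonneg_left h6 h5
    _ = C / (1 - ρ) * ρ ^ m := mul_one _

theorem Tm_unif [CompactSpace M] [BorelSpace M] {q : ℝ} {N : Γ → ℝ} (hS : Sz q N)
    {w : ℕ → Γ →₀ ℝ} {C₀ : ℝ} (hT : StrongT q N w C₀) {s : ℝ} (hs : 0 < s) (hJ : c.Adm N s)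
    (h : (7 * (d : ℝ) + 12) * s < 1) :
    (∃ C : ℝ, 0 ≤ C ∧ ∀ (m : ℕ) (i j : ι) (x : M), |((c.Tm w m).1 i j).1 x| ≤ C) ∧
    ∃ b : ℝ, 0 < b ∧ ∃ m₀ : ℕ, ∀ m, m₀ ≤ m → ∀ (x : M) (a : ι → ℝ), c.Tan x a →
      b * ‖a‖ ^ 2 ≤ c.Qd (c.Tm w m).1 x a := by
  have hq := hS.q_gt
  have hq0 : 0 < q := by linarith
  obtain ⟨C, hC, hcau⟩ := c.A7_cauchy hS hT hs hJ h
  have hσ := sg_zero_gt h
  set σ : ℝ := sg d 0 s with hσd
  constructor
  · obtain ⟨C₁, hC₁, hb⟩ := c.A7_bdd (c.Tm w 0).1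
    refine ⟨C₁ + C, by positivity, fun m i j x => ?_⟩
    have h1 := hcau 0 m i j x
    rw [zero_add, pow_zero, mul_one] at h1
    have h2 := hb i j x
    have h3 := abs_add_le (((c.Tm w 0).1 i j).1 x)
      (((c.Tm w m).1 i j).1 x - ((c.Tm w 0).1 i j).1 x)
    rw [add_sub_cancel] at h3
    linarith
  · obtain ⟨b, hb, hlow⟩ := c.Tm_lower hS hT hs hJ
    set K : ℝ := (Fintype.card ι : ℝ) ^ 2 * C with hK
    have hK0 : 0 ≤ K := by positivity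
    -- the choice of `m₀`
    set τ : ℝ := q ^ (-(σ - 2 * s)) with hτ
    have hτ0 : 0 < τ := Real.rpow_pos_of_pos hq0 _
    have hτ1 : τ < 1 := Real.rpow_lt_one_of_one_lt_of_neg hq (by linarith)
    obtain ⟨m₀, hm₀⟩ := exists_pow_lt_of_lt_one (show 0 < b / (2 * (K + 1)) by positivity) hτ1
    refine ⟨b * q ^ (-(2 * s * m₀)) / 2, by
      have := Real.rpow_pos_of_pos hq0 (-(2 * s * m₀))
      positivity, m₀, fun m hm x a ha => ?_⟩
    obtain ⟨n, rfl⟩ := Nat.exists_eq_add_of_le hm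
    have h1 := hlow m₀ x a ha
    have h2 := c.quad_bound (fun i j => (c.Tm w (m₀ + n)).1 i j - (c.Tm w m₀).1 i j) x a
      (b := C * (q ^ (-σ)) ^ m₀) (fun i j => by
        rw [c.val_sub]
        exact hcau m₀ n i j x)
    rw [← A7_Qd_sub] at h2
    have h3 := (abs_le.1 h2).1
    -- comparison of the two powers
    have h4 : (q ^ (-σ)) ^ m₀ = q ^ (-(2 * s * m₀)) * τ ^ m₀ := by
      rw [hτ, ← A7_rpow hq, ← A7_rpow hq, ← Real.rpow_add hq0]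
      congr 1
      ring
    have h5 : K * (q ^ (-σ)) ^ m₀ ≤ b * q ^ (-(2 * s * m₀)) / 2 := by
      rw [h4]
      have h6 : 0 < q ^ (-(2 * s * (m₀ : ℝ))) := Real.rpow_pos_of_pos hq0 _
      have h7 : K * τ ^ m₀ ≤ b / 2 := by
        have h8 : τ ^ m₀ * (2 * (K + 1)) < b := (lt_div_iff₀ (by positivity)).1 hm₀
        have h9 : 0 < τ ^ m₀ := by positivity
        nlinarith
      calc K * (q ^ (-(2 * s * (m₀ : ℝ))) * τ ^ m₀)
          = q ^ (-(2 * s * (m₀ : ℝ))) * (K * τ ^ m₀) := by ring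
        _ ≤ q ^ (-(2 * s * (m₀ : ℝ))) * (b / 2) := mul_le_mul_of_nonneg_left h7 h6.le
        _ = b * q ^ (-(2 * s * (m₀ : ℝ))) / 2 := by ring
    have h10 : 0 ≤ ‖a‖ ^ 2 := sq_nonneg _
    have h11 := mul_le_mul_of_nonneg_right h5 h10
    have h12 : (Fintype.card ι : ℝ) ^ 2 * (C * (q ^ (-σ)) ^ m₀) * ‖a‖ ^ 2 =
        K * (q ^ (-σ)) ^ m₀ * ‖a‖ ^ 2 := by
      rw [hK]
      ring
    rw [h12] at h3
    linarith

theorem pass_one [CompactSpace M] [BorelSpace M] {q : ℝ} {N : Γ → ℝ} (hS : Sz q N)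
    {w : ℕ → Γ →₀ ℝ} {C₀ : ℝ} (hT : StrongT q N w C₀) {s : ℝ} (hs : 0 < s) (hJ : c.Adm N s)
    (h : (7 * (d : ℝ) + 12) * s < 1) :
    ∃ C : ℝ, 0 ≤ C ∧ ∀ (γ : Γ) (i j : ι) (x : M), |(c.J γ i j).1 x| ≤ C := by
  have hq := hS.q_gt
  have hd : (0 : ℝ) ≤ d := Nat.cast_nonneg d
  have hk : 4 * ((2 + (d : ℝ) / 2) * s) < 1 := by nlinarith [mul_nonneg hd hs.le]
  have hσ : 0 < sg d 0 s := by
    have := sg_zero_gt h
    linarith
  obtain ⟨⟨C, hC, hup⟩, b, hb, m₀, hlow⟩ := c.Tm_unif hS hT hs hJ h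
  obtain ⟨C₁, hC₁, hJ1⟩ := c.A7_bdd (fun i j => c.J 1 i j)
  set K : ℝ := (Fintype.card ι : ℝ) ^ 2 with hK
  have hK0 : 0 ≤ K := by positivity
  refine ⟨√(K * C * C₁ ^ 2 / b), Real.sqrt_nonneg _, fun γ i j x => ?_⟩
  set a : ι → ℝ := fun l => (c.J 1 i l).1 x with ha
  have hpush : c.push γ x a = fun j => (c.J γ i j).1 x := by
    funext j
    show ∑ l, a l * (c.J γ l j).1 x = _
    rw [c.J_one_mul γ i j, c.val_sum]
    rfl
  have htan := c.push_tan γ x a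
  have hna : ‖a‖ ≤ C₁ := (pi_norm_le_iff_of_nonneg hC₁).2 fun l => hJ1 i l x
  obtain ⟨C₂, hC₂, hP⟩ := c.lemmaP' hS hT hs hJ hk γ⁻¹
  set ρ : ℝ := q ^ (-sg d 0 s) with hρ
  have hρ0 : 0 < ρ := Real.rpow_pos_of_pos (by linarith) _
  have hρ1 : ρ < 1 := Real.rpow_lt_one_of_one_lt_of_neg hq (by linarith)
  have hn2 : 0 ≤ ‖a‖ ^ 2 := sq_nonneg _
  have hn3 : ‖a‖ ^ 2 ≤ C₁ ^ 2 := pow_le_pow_left₀ (norm_nonneg _) hna 2
  have main : ∀ m, m₀ ≤ m →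
      b * ‖c.push γ x a‖ ^ 2 ≤ K * C * ‖a‖ ^ 2 + K * C₂ * ‖a‖ ^ 2 * ρ ^ m := by
    intro m hm
    have h1 := hlow m hm (γ • x) (c.push γ x a) htan
    have h2 := c.rho_quad γ⁻¹ (c.Tm w m) x a
    rw [inv_inv] at h2
    rw [← h2] at h1
    have h3 := c.quad_bound (fun i j => (c.rho γ⁻¹ (c.Tm w m)).1 i j - (c.Tm w m).1 i j) x a
      (b := C₂ * ρ ^ m) (fun i j => by
        rw [c.val_sub]
        have := hP m i j x
        rw [A7_rpow hq] at this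
        exact this)
    rw [← A7_Qd_sub] at h3
    have h4 := (abs_le.1 h3).2
    have h5 := (abs_le.1 (c.quad_bound (c.Tm w m).1 x a (fun i j => hup m i j x))).2
    have h6 : (Fintype.card ι : ℝ) ^ 2 * (C₂ * ρ ^ m) * ‖a‖ ^ 2 =
        K * C₂ * ‖a‖ ^ 2 * ρ ^ m := by rw [hK]; ring
    have h7 : (Fintype.card ι : ℝ) ^ 2 * C * ‖a‖ ^ 2 = K * C * ‖a‖ ^ 2 := by rw [hK]
    rw [h6] at h4
    rw [h7] at h5
    linarith
  have lim : b * ‖c.push γ x a‖ ^ 2 ≤ K * C * ‖a‖ ^ 2 := by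
    have t1 : Filter.Tendsto (fun m : ℕ => K * C * ‖a‖ ^ 2 + K * C₂ * ‖a‖ ^ 2 * ρ ^ m)
        Filter.atTop (nhds (K * C * ‖a‖ ^ 2 + K * C₂ * ‖a‖ ^ 2 * 0)) :=
      tendsto_const_nhds.add ((tendsto_pow_atTop_nhds_zero_of_lt_one hρ0.le hρ1).const_mul _)
    rw [mul_zero, add_zero] at t1
    exact ge_of_tendsto t1 (Filter.eventually_atTop.2 ⟨m₀, main⟩)
  apply Real.abs_le_sqrt
  rw [le_div_iff₀ hb]
  have h8 : |(c.J γ i j).1 x| ≤ ‖c.push γ x a‖ := by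
    have := norm_le_pi_norm (c.push γ x a) j
    rw [hpush] at this ⊢
    exact this
  have h9 : (c.J γ i j).1 x ^ 2 ≤ ‖c.push γ x a‖ ^ 2 := by
    rw [← sq_abs]
    exact pow_le_pow_left₀ (abs_nonneg _) h8 2
  have h10 : K * C * ‖a‖ ^ 2 ≤ K * C * C₁ ^ 2 := mul_le_mul_of_nonneg_left hn3 (by positivity)
  nlinarith

end Pool.Agent.H73.PZ.Calc
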