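import Mathlib
import Pool.Agent.H73.PZ.A7

/-!
MODULE A8 (MP_d9606f_gt, paper `/team-store/h73_padic_zimmer.md`, C7: pass 2).

`exists_limit`: all `J^γ` are bounded by a constant, so `Adm N s` holds for every `s > 0`
(`N γ ^ s ≥ 1`).  For every `k` choose `s_k > 0` with `4 (k + 2 + d/2) s_k < 1` and
`sg d k s_k > 0` (e.g. `s_k = 1 / (8 (d + 2) (k + 4))`; note
`4 (k+2+d/2) s + d (k+3) s < 1` is needed: `4k + 8 + 2d + dk + 3d ≤ 8 (d+2) (k+4) - 1`).
`lemmaP` gives `|D I (T_{m+1} - T_m)| ≤ C (q^(-sg))^m` for all lists `I` of length `≤ k`,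
`q^(-sg) < 1`.  Apply `c.complete` to `F m = (Tm w m) i j` for every `i, j`: limits
`h i j ∈ A`, `(T_m i j) x → (h i j) x` for all `x`.
* invariance: `(rho g T_m) i j x = ∑ a b (J g⁻¹ i a) x * (J g⁻¹ j b) x * (T_m a b) (g⁻¹ • x)`
  converges to `(Rho g h) i j x`, and its difference with `(T_m i j) x` tends to `0` by `lemmaP'`
  (for a small `s`).
* positivity: the second part of `Tm_unif` passes to the limit (`Qd` is a finite sum).
* symmetry: `(Tm w m) i j = (Tm w m) j i` from `Tm_apply_val`.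
-/

open MeasureTheory Filter
open scoped Topology

namespace Pool.Agent.H73.PZ.Calc

variable {Γ : Type} [Group Γ] {M : Type} [TopologicalSpace M] [MeasurableSpace M]
  [MulAction Γ M] {ι : Type} [Fintype ι] {d : ℕ} (c : Calc Γ M ι d)

private theorem Rho_val (g : Γ) (h : ι → ι → c.A) (i j : ι) (x : M) :
    (c.Rho g h i j).1 x =
      ∑ a, ∑ b, (c.J g⁻¹ i a).1 x * (c.J g⁻¹ j b).1 x * (h a b).1 (g⁻¹ • x) := by
  rw [c.Rho_apply, c.val_sum]
  refine Finset.sum_congr rfl fun a _ => ?_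
  rw [c.val_sum]
  refine Finset.sum_congr rfl fun b _ => ?_
  rw [c.val_mul, c.val_mul, c.cmp_apply]

theorem pass_two [CompactSpace M] [BorelSpace M] {q : ℝ} {N : Γ → ℝ} (hS : Sz q N)
    {w : ℕ → Γ →₀ ℝ} {C₀ : ℝ} (hT : StrongT q N w C₀)
    (hJ : ∃ C : ℝ, 0 ≤ C ∧ ∀ (γ : Γ) (i j : ι) (x : M), |(c.J γ i j).1 x| ≤ C) :
    ∃ h : ι → ι → c.A, (∀ i j, h i j = h j i) ∧ (∀ g : Γ, c.Rho g h = h) ∧
      ∃ b : ℝ, 0 < b ∧ ∀ (x : M) (a : ι → ℝ), c.Tan x a → b * ‖a‖ ^ 2 ≤ c.Qd h x a := by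
  obtain ⟨C, hC, hJ⟩ := hJ
  have hq1 : 1 < q := hS.q_gt
  have hq0 : 0 < q := by linarith
  have hadm : ∀ s : ℝ, 0 < s → c.Adm N s := by
    intro s hs
    refine ⟨C, hC, fun γ i j x => (hJ γ i j x).trans ?_⟩
    have h1 : 1 ≤ N γ ^ s := Real.one_le_rpow (hS.one_le γ) hs.le
    nlinarith
  have hd0 : (0 : ℝ) ≤ d := Nat.cast_nonneg d
  -- the exponents
  have hexp : ∀ k : ℕ, ∃ s : ℝ, 0 < s ∧ 4 * (((k : ℝ) + 2 + d / 2) * s) < 1 ∧ 0 < sg d k s := by
    intro k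
    have hk0 : (0 : ℝ) ≤ k := Nat.cast_nonneg k
    have hden : (0 : ℝ) < 8 * ((d : ℝ) + 2) * ((k : ℝ) + 4) := by positivity
    refine ⟨1 / (8 * ((d : ℝ) + 2) * ((k : ℝ) + 4)), by positivity, ?_, ?_⟩
    · have e : 4 * (((k : ℝ) + 2 + d / 2) * (1 / (8 * ((d : ℝ) + 2) * ((k : ℝ) + 4)))) =
          (4 * ((k : ℝ) + 2 + d / 2)) / (8 * ((d : ℝ) + 2) * ((k : ℝ) + 4)) := by ring
      rw [e, div_lt_one hden]
      nlinarith [mul_nonneg hd0 hk0]
    · unfold sg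
      apply div_pos _ (by positivity)
      have e : 1 - 4 * (((k : ℝ) + 2 + d / 2) * (1 / (8 * ((d : ℝ) + 2) * ((k : ℝ) + 4)))) -
          d * ((k : ℝ) + 3) * (1 / (8 * ((d : ℝ) + 2) * ((k : ℝ) + 4))) =
          1 - (4 * ((k : ℝ) + 2 + d / 2) + d * ((k : ℝ) + 3)) /
            (8 * ((d : ℝ) + 2) * ((k : ℝ) + 4)) := by ring
      rw [e, sub_pos, div_lt_one hden]
      nlinarith [mul_nonneg hd0 hk0]
  have hrho : ∀ t : ℝ, 0 < t → 0 ≤ q ^ (-t) ∧ q ^ (-t) < 1 := by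
    intro t ht
    exact ⟨Real.rpow_nonneg hq0.le _, Real.rpow_lt_one_of_one_lt_of_neg hq1 (by linarith)⟩
  have hpow : ∀ (t : ℝ) (m : ℕ), q ^ (-(t * m)) = (q ^ (-t)) ^ m := by
    intro t m
    rw [← Real.rpow_natCast, ← Real.rpow_mul hq0.le, neg_mul]
  -- the limit
  have hlim : ∀ i j : ι, ∃ G : c.A, ∀ x,
      Tendsto (fun m => ((c.Tm w m).1 i j).1 x) atTop (𝓝 (G.1 x)) := by
    intro i j
    refine c.complete (fun m => (c.Tm w m).1 i j) fun I => ?_
    obtain ⟨s, hs, hk, hsg⟩ := hexp I.length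
    obtain ⟨C', hC', hP⟩ := c.lemmaP hS hT hs (hadm s hs) I.length hk
    refine ⟨C', q ^ (-(sg d I.length s)), (hrho _ hsg).1, (hrho _ hsg).2, fun m x => ?_⟩
    have h1 := hP I (le_refl _) m i j x
    rw [hpow] at h1
    exact h1
  choose h hh using hlim
  refine ⟨h, fun i j => ?_, fun g => ?_, ?_⟩
  · apply c.ext'
    intro x
    refine tendsto_nhds_unique (hh i j x) ?_
    have e : (fun m => ((c.Tm w m).1 i j).1 x) = fun m => ((c.Tm w m).1 j i).1 x := by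
      funext m
      rw [c.Tm_apply_val, c.Tm_apply_val]
      refine Finset.sum_congr rfl fun γ _ => ?_
      congr 1
      exact Finset.sum_congr rfl fun l _ => mul_comm _ _
    rw [e]
    exact hh j i x
  · funext i j
    apply c.ext'
    intro x
    have h1 : Tendsto (fun m => ((c.rho g (c.Tm w m)).1 i j).1 x) atTop
        (𝓝 ((c.Rho g h i j).1 x)) := by
      have e : ∀ m, ((c.rho g (c.Tm w m)).1 i j).1 x =
          ∑ a, ∑ b, (c.J g⁻¹ i a).1 x * (c.J g⁻¹ j b).1 x * ((c.Tm w m).1 a b).1 (g⁻¹ • x) := by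
        intro m
        rw [c.rho_val]
        exact c.Rho_val g _ i j x
      simp only [e]
      rw [c.Rho_val]
      refine tendsto_finsetSum _ fun a _ => tendsto_finsetSum _ fun b _ => ?_
      exact (hh a b _).const_mul _
    obtain ⟨s, hs, hk, hsg⟩ := hexp 0
    obtain ⟨C', hC', hP⟩ := c.lemmaP' hS hT hs (hadm s hs) (by
      rw [Nat.cast_zero, zero_add] at hk
      exact hk) g
    have h2 : Tendsto (fun m => ((c.rho g (c.Tm w m)).1 i j).1 x - ((c.Tm w m).1 i j).1 x) atTop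
        (𝓝 0) := by
      rw [tendsto_zero_iff_abs_tendsto_zero]
      have h3 : Tendsto (fun m : ℕ => C' * (q ^ (-(sg d 0 s))) ^ m) atTop (𝓝 (C' * 0)) :=
        (tendsto_pow_atTop_nhds_zero_of_lt_one (hrho _ hsg).1 (hrho _ hsg).2).const_mul _
      rw [mul_zero] at h3
      refine squeeze_zero (fun m => abs_nonneg _) (fun m => ?_) h3
      have h4 := hP m i j x
      rw [hpow] at h4
      exact h4
    have h5 := h1.sub h2
    rw [sub_zero] at h5
    refine tendsto_nhds_unique h5 ?_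
    have e2 : (fun m => ((c.rho g (c.Tm w m)).1 i j).1 x -
        (((c.rho g (c.Tm w m)).1 i j).1 x - ((c.Tm w m).1 i j).1 x)) =
        fun m => ((c.Tm w m).1 i j).1 x := by
      funext m
      ring
    rw [e2]
    exact hh i j x
  · have hs : (0 : ℝ) < 1 / (7 * (d : ℝ) + 13) := by positivity
    obtain ⟨-, b, hb, m₀, hm⟩ := c.Tm_unif hS hT hs (hadm _ hs) (by
      rw [mul_one_div, div_lt_one (by positivity)]
      linarith)
    refine ⟨b, hb, fun x a ha => ?_⟩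
    have h1 : Tendsto (fun m => c.Qd (c.Tm w m).1 x a) atTop (𝓝 (c.Qd h x a)) := by
      unfold Qd
      refine tendsto_finsetSum _ fun i _ => tendsto_finsetSum _ fun j _ => ?_
      exact (hh i j x).const_mul _
    refine ge_of_tendsto h1 ?_
    filter_upwards [eventually_ge_atTop m₀] with m hm'
    exact hm m hm' x a ha

/-- Sufficiently slow growth implies an invariant metric. -/
theorem invariant_metric [CompactSpace M] [BorelSpace M] {q : ℝ} {N : Γ → ℝ} (hS : Sz q N)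
    {w : ℕ → Γ →₀ ℝ} {C₀ : ℝ} (hT : StrongT q N w C₀) {s : ℝ} (hs : 0 < s) (hJ : c.Adm N s)
    (h : (7 * (d : ℝ) + 12) * s < 1) :
    ∃ h : ι → ι → c.A, (∀ i j, h i j = h j i) ∧ (∀ g : Γ, c.Rho g h = h) ∧
      ∃ b : ℝ, 0 < b ∧ ∀ (x : M) (a : ι → ℝ), c.Tan x a → b * ‖a‖ ^ 2 ≤ c.Qd h x a :=
  c.pass_two hS hT (c.pass_one hS hT hs hJ h)

end Pool.Agent.H73.PZ.Calc
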