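import Mathlib
import Pool.Agent.H73.PZ.Cal
import Pool.Agent.H73.PZ.Sz

/-!
MODULE D0 (MP_d9606f_gt, paper `/team-store/h73_padic_zimmer.md`, Part D, preparations).

* `dst` is a pseudometric: triangle inequality of the sup norm.
* `dst_lip`: for `f ∈ A` there is `C` with `|f x - f y| ≤ C dst x y` for all `x, y`: if
  `dst x y ≤ δ` this is `c.lip` with `Λ` = a bound for all `X i f` (`bdd`, finite `ι`); otherwise
  `|f x - f y| ≤ 2 sup |f| ≤ (2 sup |f| / δ) dst x y`.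
* `exists_adm`: let `C₁ ≥ 1` be the constant of `paths`, `b ≥ 1` a bound for `|J^g|`, `g` in the
  finite set `{N ≤ C₁ q}` (`bdd`), `a = card ι * b + 1`.  For `N γ ≤ q^m`, `m ≥ 1`, and the path `w`:
  by induction on `t` (`J_mul_apply`, `w (t+1) = s_t * w t`) `|J^{w t}| ≤ b a^t`, and then
  `|J^γ| ≤ b a^(m+1)` (`γ = (γ (w m)⁻¹) w m`).  Choose `m` with `q^(m-1) ≤ N γ ≤ q^m`, `m ≥ 1`,
  and `s = log a / log q`: `a^(m+1) = (q^(m+1))^s ≤ (q² N γ)^s`.
* `adm_mono`: `N γ ≥ 1`.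
-/

open MeasureTheory

namespace Pool.Agent.H73.PZ.Calc

variable {Γ : Type} [Group Γ] {M : Type} [TopologicalSpace M] [MeasurableSpace M]
  [MulAction Γ M] {ι : Type} [Fintype ι] {d : ℕ} (c : Calc Γ M ι d)

theorem dst_self (x : M) : c.dst x x = 0 := by
  unfold dst; simp only [sub_self]; exact norm_zero

theorem dst_nonneg (x y : M) : 0 ≤ c.dst x y := norm_nonneg _

theorem dst_comm (x y : M) : c.dst x y = c.dst y x := by
  unfold dst
  rw [← norm_neg]
  congr 1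
  funext j
  simp

theorem dst_triangle (x y z : M) : c.dst x z ≤ c.dst x y + c.dst y z := by
  unfold dst
  refine le_trans (le_of_eq ?_) (norm_add_le _ _)
  congr 1
  funext j
  simp

theorem le_dst (x y : M) (j : ι) : |(c.ψ j).1 x - (c.ψ j).1 y| ≤ c.dst x y :=
  norm_le_pi_norm (fun j => (c.ψ j).1 x - (c.ψ j).1 y : ι → ℝ) j

theorem dst_le {x y : M} {r : ℝ} (hr : 0 ≤ r) (h : ∀ j, |(c.ψ j).1 x - (c.ψ j).1 y| ≤ r) :
    c.dst x y ≤ r := (pi_norm_le_iff_of_nonneg hr).2 h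

theorem eq_of_dst {x y : M} (h : c.dst x y = 0) : x = y := by
  apply c.sep
  intro j
  have := c.le_dst x y j
  rw [h] at this
  exact sub_eq_zero.1 (abs_nonpos_iff.1 this)

theorem dst_lip [CompactSpace M] (f : c.A) :
    ∃ C : ℝ, 0 ≤ C ∧ ∀ x y, |f.1 x - f.1 y| ≤ C * c.dst x y := by
  classical
  choose B hB0 hB using fun i => c.bdd (c.X i f)
  obtain ⟨S, hS0, hS⟩ := c.bdd f
  set Λ : ℝ := ∑ i, B i with hΛ
  have hΛ0 : 0 ≤ Λ := Finset.sum_nonneg fun i _ => hB0 i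
  have hBΛ : ∀ i, B i ≤ Λ := fun i =>
    Finset.single_le_sum (f := B) (fun j _ => hB0 j) (Finset.mem_univ i)
  have hLΛ : 0 ≤ c.L * Λ := mul_nonneg c.L_nonneg hΛ0
  have hSδ : 0 ≤ 2 * S / c.δ := div_nonneg (by linarith) c.δ_pos.le
  refine ⟨c.L * Λ + 2 * S / c.δ, add_nonneg hLΛ hSδ, fun x y => ?_⟩
  have hd := c.dst_nonneg x y
  by_cases h : c.dst x y ≤ c.δ
  · have h1 := c.lip f Λ (fun i x => (hB i x).trans (hBΛ i)) x y h
    have h2 : |f.1 x - f.1 y| ≤ c.L * Λ * c.dst x y := h1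
    have h3 := mul_nonneg hSδ hd
    rw [add_mul]
    linarith
  · push Not at h
    have h1 : |f.1 x - f.1 y| ≤ 2 * S := by
      have h2 := abs_sub (f.1 x) (f.1 y)
      linarith [hS x, hS y]
    have h2 : 2 * S ≤ 2 * S / c.δ * c.dst x y := by
      rw [div_mul_eq_mul_div, le_div_iff₀ c.δ_pos]
      exact mul_le_mul_of_nonneg_left h.le (by linarith)
    have h3 := mul_nonneg hLΛ hd
    rw [add_mul]
    linarith

theorem adm_mono {q : ℝ} {N : Γ → ℝ} (hS : Sz q N) {s s' : ℝ} (h : s ≤ s') (hs : c.Adm N s) :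
    c.Adm N s' := by
  obtain ⟨C, hC, h1⟩ := hs
  refine ⟨C, hC, fun γ i j x => (h1 γ i j x).trans ?_⟩
  exact mul_le_mul_of_nonneg_left (Real.rpow_le_rpow_of_exponent_le (hS.one_le γ) h) hC

private theorem D0_mul {b B : ℝ} (hB : 0 ≤ B) {γ γ' : Γ}
    (h : ∀ i j x, |(c.J γ i j).1 x| ≤ b) (h' : ∀ i j x, |(c.J γ' i j).1 x| ≤ B) (i j : ι) (x : M) :
    |(c.J (γ * γ') i j).1 x| ≤ Fintype.card ι * b * B := by
  rw [c.J_mul_apply]
  refine (Finset.abs_sum_le_sum_abs _ _).trans ?_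
  have h1 : ∀ l ∈ (Finset.univ : Finset ι),
      |(c.J γ' i l).1 x * (c.J γ l j).1 (γ' • x)| ≤ b * B := by
    intro l _
    rw [abs_mul, mul_comm b B]
    exact mul_le_mul (h' i l x) (h l j _) (abs_nonneg _) hB
  refine (Finset.sum_le_sum h1).trans (le_of_eq ?_)
  rw [Finset.sum_const, nsmul_eq_mul, Finset.card_univ, mul_assoc]

theorem exists_adm [CompactSpace M] {q : ℝ} {N : Γ → ℝ} (hS : Sz q N) :
    ∃ s : ℝ, c.Adm N s := by
  classical
  obtain ⟨C₁, hC₁, hpath⟩ := hS.paths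
  have hq := hS.q_gt
  have hq0 : 0 < q := by linarith
  -- a bound for the small elements
  obtain ⟨b, hb1, hb⟩ : ∃ b : ℝ, 1 ≤ b ∧ ∀ γ, N γ ≤ C₁ * q → ∀ i j x,
      |(c.J γ i j).1 x| ≤ b := by
    choose B hB0 hB using fun γ i j => c.bdd (c.J γ i j)
    have hfin := hS.finite (C₁ * q)
    set T : Finset Γ := hfin.toFinset with hT
    have hs : 0 ≤ ∑ γ ∈ T, ∑ i, ∑ j, B γ i j :=
      Finset.sum_nonneg fun γ _ => Finset.sum_nonneg fun i _ =>
        Finset.sum_nonneg fun j _ => hB0 γ i j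
    refine ⟨1 + ∑ γ ∈ T, ∑ i, ∑ j, B γ i j, by linarith, fun γ hγ i j x => ?_⟩
    have hγT : γ ∈ T := by rw [hT, Set.Finite.mem_toFinset]; exact hγ
    have h1 : B γ i j ≤ ∑ j, B γ i j :=
      Finset.single_le_sum (f := fun j => B γ i j) (fun j _ => hB0 γ i j) (Finset.mem_univ j)
    have h2 : ∑ j, B γ i j ≤ ∑ i, ∑ j, B γ i j :=
      Finset.single_le_sum (f := fun i => ∑ j, B γ i j)
        (fun i _ => Finset.sum_nonneg fun j _ => hB0 γ i j) (Finset.mem_univ i)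
    have h3 : ∑ i, ∑ j, B γ i j ≤ ∑ γ ∈ T, ∑ i, ∑ j, B γ i j :=
      Finset.single_le_sum (f := fun γ => ∑ i, ∑ j, B γ i j)
        (fun γ _ => Finset.sum_nonneg fun i _ => Finset.sum_nonneg fun j _ => hB0 γ i j) hγT
    linarith [hB γ i j x]
  have hb0 : 0 ≤ b := by linarith
  set n : ℝ := (Fintype.card ι : ℝ) with hn
  have hn0 : 0 ≤ n := Nat.cast_nonneg _
  set a : ℝ := n * b + 1 with ha
  have ha1 : 1 ≤ a := by
    have := mul_nonneg hn0 hb0
    linarith
  have ha0 : 0 < a := by linarith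
  have hnb : n * b ≤ a := by linarith
  -- the estimate along a path
  have key : ∀ (γ : Γ) (m : ℕ), 1 ≤ m → N γ ≤ q ^ m → ∀ i j x,
      |(c.J γ i j).1 x| ≤ b * a ^ (m + 1) := by
    intro γ m hm hγ
    obtain ⟨w, hw1, hw2, hw3⟩ := hpath γ m hm hγ
    have hC₁q : C₁ ≤ C₁ * q := by nlinarith
    have hind : ∀ t, t ≤ m → ∀ i j x, |(c.J (w t) i j).1 x| ≤ b * a ^ t := by
      intro t
      induction t with
      | zero =>
        intro _ i j x
        rw [pow_zero, mul_one]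
        exact hb _ (hw2.trans hC₁q) i j x
      | succ t ih =>
        intro ht i j x
        have h1 : N (w (t + 1) * (w t)⁻¹) ≤ C₁ * q := by
          have := hw1 t (t + 1) (Nat.le_succ t) ht
          simpa using this
        have h2 := c.D0_mul (mul_nonneg hb0 (pow_nonneg ha0.le t)) (hb _ h1)
          (ih (by omega)) i j x
        rw [inv_mul_cancel_right] at h2
        refine h2.trans ?_
        calc n * b * (b * a ^ t) ≤ a * (b * a ^ t) :=
              mul_le_mul_of_nonneg_right hnb (mul_nonneg hb0 (pow_nonneg ha0.le t))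
          _ = b * a ^ (t + 1) := by ring
    intro i j x
    have h1 := c.D0_mul (mul_nonneg hb0 (pow_nonneg ha0.le m)) (hb _ (hw3.trans hC₁q))
      (hind m le_rfl) i j x
    rw [inv_mul_cancel_right] at h1
    refine h1.trans ?_
    calc n * b * (b * a ^ m) ≤ a * (b * a ^ m) :=
          mul_le_mul_of_nonneg_right hnb (mul_nonneg hb0 (pow_nonneg ha0.le m))
      _ = b * a ^ (m + 1) := by ring
  -- the exponent
  have hlq : 0 < Real.log q := Real.log_pos hq
  set s : ℝ := Real.log a / Real.log q with hs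
  have hs0 : 0 ≤ s := div_nonneg (Real.log_nonneg ha1) hlq.le
  have hqs : q ^ s = a := by
    rw [Real.rpow_def_of_pos hq0, hs, mul_div_cancel₀ _ hlq.ne', Real.exp_log ha0]
  refine ⟨s, b * (q ^ 2) ^ s, mul_nonneg hb0 (Real.rpow_nonneg (by positivity) _),
    fun γ i j x => ?_⟩
  have hex : ∃ m : ℕ, 1 ≤ m ∧ N γ ≤ q ^ m := by
    obtain ⟨m, hm⟩ := pow_unbounded_of_one_lt (N γ) hq
    refine ⟨m + 1, by omega, hm.le.trans ?_⟩
    exact pow_le_pow_right₀ hq.le (by omega)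
  obtain ⟨hm1, hm2⟩ := Nat.find_spec hex
  set m := Nat.find hex with hm
  have hlow : q ^ (m - 1) ≤ N γ := by
    by_cases h1 : m = 1
    · rw [h1]
      simpa using hS.one_le γ
    · have h2 : m - 1 < m := by omega
      have h3 := Nat.find_min hex h2
      have h4 : ¬ N γ ≤ q ^ (m - 1) := fun h5 => h3 ⟨by omega, h5⟩
      exact (not_le.1 h4).le
  refine (key γ m hm1 hm2 i j x).trans ?_
  rw [mul_assoc]
  refine mul_le_mul_of_nonneg_left ?_ hb0
  have hN0 : 0 ≤ N γ := by linarith [hS.one_le γ]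
  rw [← Real.mul_rpow (by positivity) hN0]
  have e1 : a ^ (m + 1) = (q ^ (m + 1)) ^ s := by
    rw [← hqs, ← Real.rpow_natCast, ← Real.rpow_natCast, ← Real.rpow_mul hq0.le,
      ← Real.rpow_mul hq0.le, mul_comm]
  rw [e1]
  refine Real.rpow_le_rpow (by positivity) ?_ hs0
  have e2 : q ^ (m + 1) = q ^ 2 * q ^ (m - 1) := by
    rw [← pow_add]
    congr 1
    omega
  rw [e2]
  exact mul_le_mul_of_nonneg_left hlow (by positivity)

end Pool.Agent.H73.PZ.Calc
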