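import Mathlib
import Pool.Agent.H73.PZ.D0
import Pool.Agent.H73.PZ.A6c

/-!
MODULE D1 (MP_d9606f_gt, paper `/team-store/h73_padic_zimmer.md`, Part D: the maximal point).

`χ + ε` is an admissible exponent, `χ - ε` is not, `ε > 0`, `χ > 2 ε`.

Proof.  Let `C₁ ≥ 1` be the constant of `paths` and `C₂` with `|J^γ| ≤ C₂ N γ^(χ+ε)`.  Let `B > 0`
be large (depending on `n₀`).  By `hlo` there are `γ, i', j', x'` with
`|(J γ i' j') x'| > B N γ^(χ-ε)`.  Choose `m ≥ 1` with `q^(m-1) ≤ N γ ≤ q^m`.  Let `w` be the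
path; `γ = g₁ (w m (w 0)⁻¹) g₂`, `g₁ = γ (w m)⁻¹`, `g₂ = w 0`, in the finite set `{N ≤ C₁}`.  By
`J_mul_apply` twice `|(J γ i' j') x'| ≤ (card ι)² b² max_{i,l} |(J (w m (w 0)⁻¹) i l) x|` with
`x = g₂ • x'`, `b` a bound for `|J^g|`, `g` in the finite set.  So there is `i` with
`‖fun l => (J (w m (w 0)⁻¹) i l) x‖ ≥ c₁ B N γ^(χ-ε) ≥ c₂ B q^((χ-ε) m)`, `c₂ > 0` depends only on
`b, card ι, q, χ, ε`.  Put `α k = ‖fun l => (J (w k (w 0)⁻¹) i l) x‖` and let `k = n` be a maximum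
point of `α k * q^(-(χ-2ε) k)` on `0 ≤ k ≤ m` (`Finset.exists_max_image`).  Then for `k ≤ n`
`α k ≤ α n q^(-(χ-2ε) (n-k))`, `α n > 0`, and
`α n q^(-(χ-2ε) n) ≥ α m q^(-(χ-2ε) m) ≥ c₂ B q^(ε m) ≥ c₂ B`.  On the other hand
`α n ≤ C₂ (C₁ q^n)^(χ+ε)`, so `c₂ B ≤ C₂ C₁^(χ+ε) q^(3 ε n)`: if `B` is large enough then
`n ≥ n₀`.  The path property for `k ≤ l ≤ n ≤ m` is inherited.
(`card ι ≥ 1` since `i'` exists.)
-/

open MeasureTheory

namespace Pool.Agent.H73.PZ.Calc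

variable {Γ : Type} [Group Γ] {M : Type} [TopologicalSpace M] [MeasurableSpace M]
  [MulAction Γ M] {ι : Type} [Fintype ι] {d : ℕ} (c : Calc Γ M ι d)

/-- A fan: a path `w 0, …, w n` in the group, a point `x` and an index `i` such that the norms
`α k = ‖J^{w k (w 0)⁻¹} (x)_i‖` satisfy `α k ≤ α n q^(-θ (n-k))`. -/
structure Fan (q : ℝ) (N : Γ → ℝ) (C₁ θ : ℝ) (n : ℕ) (w : ℕ → Γ) (i : ι) (x : M) : Prop where
  path : ∀ k l, k ≤ l → l ≤ n → N (w l * (w k)⁻¹) ≤ C₁ * q ^ (l - k)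
  pos : 0 < ‖(fun l => (c.J (w n * (w 0)⁻¹) i l).1 x : ι → ℝ)‖
  max : ∀ k, k ≤ n → ‖(fun l => (c.J (w k * (w 0)⁻¹) i l).1 x : ι → ℝ)‖ ≤
    ‖(fun l => (c.J (w n * (w 0)⁻¹) i l).1 x : ι → ℝ)‖ * q ^ (-(θ * ((n : ℝ) - k)))

theorem exists_fan [CompactSpace M] {q : ℝ} {N : Γ → ℝ} (hS : Sz q N) {χ ε : ℝ} (hε : 0 < ε)
    (hχ : 2 * ε < χ) (hup : c.Adm N (χ + ε)) (hlo : ¬ c.Adm N (χ - ε)) :
    ∃ C₁ : ℝ, 1 ≤ C₁ ∧ ∀ n₀ : ℕ, ∃ n, n₀ ≤ n ∧ ∃ (w : ℕ → Γ) (i : ι) (x : M),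
      c.Fan q N C₁ (χ - 2 * ε) n w i x := by
  classical
  obtain ⟨C₁, hC₁, hpath⟩ := hS.paths
  refine ⟨C₁, hC₁, fun n₀ => ?_⟩
  obtain ⟨C₂, hC₂, hJ⟩ := hup
  have hq1 : 1 < q := hS.q_gt
  have hq0 : 0 < q := by linarith
  have hC₁0 : 0 < C₁ := by linarith
  have hN0 : ∀ g, 0 < N g := fun g => lt_of_lt_of_le one_pos (hS.one_le g)
  have hsum : 0 < χ + ε := by linarith
  have hdif : 0 < χ - ε := by linarith
  set b : ℝ := C₂ * C₁ ^ (χ + ε) + 1 with hb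
  have hCp : 0 ≤ C₂ * C₁ ^ (χ + ε) := mul_nonneg hC₂ (Real.rpow_nonneg hC₁0.le _)
  have hb0 : 0 < b := by linarith
  have hJb : ∀ g, N g ≤ C₁ → ∀ i j x, |(c.J g i j).1 x| ≤ b := by
    intro g hg i j x
    have h1 := hJ g i j x
    have h2 : N g ^ (χ + ε) ≤ C₁ ^ (χ + ε) := Real.rpow_le_rpow (hN0 g).le hg hsum.le
    have h3 := mul_le_mul_of_nonneg_left h2 hC₂
    linarith
  set K : ℝ := ((Fintype.card ι : ℝ) + 1) ^ 2 * b ^ 2 with hK
  have hK0 : 0 < K := by positivity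
  set D : ℝ := C₂ * C₁ ^ (χ + ε) * q ^ (3 * ε * (n₀ : ℝ)) with hD
  have hD0 : 0 ≤ D := mul_nonneg hCp (Real.rpow_nonneg hq0.le _)
  set B : ℝ := K * (q ^ (χ - ε) * (D + 1)) with hB
  have hqd : 0 < q ^ (χ - ε) := Real.rpow_pos_of_pos hq0 _
  have hB0 : 0 < B := by positivity
  obtain ⟨γ, i', j', x', hbig⟩ : ∃ γ i' j' x', B * N γ ^ (χ - ε) < |(c.J γ i' j').1 x'| := by
    by_contra hcon
    push Not at hcon
    exact hlo ⟨B, hB0.le, hcon⟩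
  -- the scale `m`
  obtain ⟨m, hm1, hm2, hm3⟩ : ∃ m : ℕ, 1 ≤ m ∧ N γ ≤ q ^ m ∧ q ^ (m - 1) ≤ N γ := by
    have hex : ∃ m : ℕ, 1 ≤ m ∧ N γ ≤ q ^ m := by
      obtain ⟨m, hm⟩ := pow_unbounded_of_one_lt (N γ) hq1
      refine ⟨m + 1, by omega, hm.le.trans ?_⟩
      exact pow_le_pow_right₀ hq1.le (Nat.le_succ m)
    refine ⟨Nat.find hex, (Nat.find_spec hex).1, (Nat.find_spec hex).2, ?_⟩
    by_cases h1 : Nat.find hex = 1
    · rw [h1, Nat.sub_self, pow_zero]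
      exact hS.one_le γ
    · have h2 := (Nat.find_spec hex).1
      have h3 := Nat.find_min hex (m := Nat.find hex - 1) (by omega)
      push Not at h3
      exact (h3 (by omega)).le
  obtain ⟨w, hw1, hw2, hw3⟩ := hpath γ m hm1 hm2
  set x : M := w 0 • x' with hx
  set α : ι → ℕ → ℝ := fun i k => ‖(fun l => (c.J (w k * (w 0)⁻¹) i l).1 x : ι → ℝ)‖ with hα
  have hα0 : ∀ i k, 0 ≤ α i k := fun i k => norm_nonneg _
  have hαl : ∀ i k l, |(c.J (w k * (w 0)⁻¹) i l).1 x| ≤ α i k := fun i k l =>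
    norm_le_pi_norm (fun l => (c.J (w k * (w 0)⁻¹) i l).1 x : ι → ℝ) l
  -- the best index
  obtain ⟨i, -, hi⟩ := Finset.exists_max_image (Finset.univ : Finset ι) (fun i => α i m)
    ⟨i', Finset.mem_univ i'⟩
  have hbound : |(c.J γ i' j').1 x'| ≤ K * α i m := by
    have hγ : γ = (γ * (w m)⁻¹) * (w m * (w 0)⁻¹) * w 0 := by group
    have h1 : (c.J γ i' j').1 x' = ∑ l, (c.J (w 0) i' l).1 x' *
        ∑ k, (c.J (w m * (w 0)⁻¹) l k).1 x *
          (c.J (γ * (w m)⁻¹) k j').1 ((w m * (w 0)⁻¹) • x) := by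
      conv_lhs => rw [hγ]
      rw [c.J_mul_apply]
      refine Finset.sum_congr rfl fun l _ => ?_
      rw [c.J_mul_apply]
    rw [h1]
    refine (Finset.abs_sum_le_sum_abs _ _).trans ?_
    have h2 : ∀ l ∈ (Finset.univ : Finset ι), |(c.J (w 0) i' l).1 x' *
        ∑ k, (c.J (w m * (w 0)⁻¹) l k).1 x *
          (c.J (γ * (w m)⁻¹) k j').1 ((w m * (w 0)⁻¹) • x)| ≤
        b * ((Fintype.card ι : ℝ) * (α i m * b)) := by
      intro l _
      rw [abs_mul]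
      refine mul_le_mul (hJb _ hw2 _ _ _) ?_ (abs_nonneg _) hb0.le
      refine (Finset.abs_sum_le_sum_abs _ _).trans ?_
      have h3 : ∀ k ∈ (Finset.univ : Finset ι), |(c.J (w m * (w 0)⁻¹) l k).1 x *
          (c.J (γ * (w m)⁻¹) k j').1 ((w m * (w 0)⁻¹) • x)| ≤ α i m * b := by
        intro k _
        rw [abs_mul]
        exact mul_le_mul ((hαl l m k).trans (hi l (Finset.mem_univ l))) (hJb _ hw3 _ _ _)
          (abs_nonneg _) (hα0 i m)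
      refine (Finset.sum_le_sum h3).trans ?_
      rw [Finset.sum_const, Finset.card_univ, nsmul_eq_mul]
    refine (Finset.sum_le_sum h2).trans ?_
    rw [Finset.sum_const, Finset.card_univ, nsmul_eq_mul, hK]
    have h4 : (0 : ℝ) ≤ Fintype.card ι := Nat.cast_nonneg _
    have h5 : (Fintype.card ι : ℝ) ^ 2 ≤ ((Fintype.card ι : ℝ) + 1) ^ 2 := by nlinarith
    have h6 : 0 ≤ b ^ 2 * α i m := mul_nonneg (by positivity) (hα0 i m)
    calc (Fintype.card ι : ℝ) * (b * ((Fintype.card ι : ℝ) * (α i m * b)))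
        = (Fintype.card ι : ℝ) ^ 2 * (b ^ 2 * α i m) := by ring
      _ ≤ ((Fintype.card ι : ℝ) + 1) ^ 2 * (b ^ 2 * α i m) := mul_le_mul_of_nonneg_right h5 h6
      _ = ((Fintype.card ι : ℝ) + 1) ^ 2 * b ^ 2 * α i m := by ring
  -- lower bound of `α i m`
  have hαm : (D + 1) * q ^ ((χ - ε) * (m : ℝ)) < α i m := by
    have h1 : q ^ ((χ - ε) * ((m : ℝ) - 1)) ≤ N γ ^ (χ - ε) := by
      have h2 : (q ^ (m - 1)) ^ (χ - ε) ≤ N γ ^ (χ - ε) :=
        Real.rpow_le_rpow (by positivity) hm3 hdif.le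
      refine le_trans (le_of_eq ?_) h2
      rw [← Real.rpow_natCast, ← Real.rpow_mul hq0.le, Nat.cast_sub hm1, Nat.cast_one, mul_comm]
    have h3 : B * q ^ ((χ - ε) * ((m : ℝ) - 1)) < K * α i m :=
      lt_of_le_of_lt (mul_le_mul_of_nonneg_left h1 hB0.le) (lt_of_lt_of_le hbig hbound)
    have h4 : B * q ^ ((χ - ε) * ((m : ℝ) - 1)) = K * ((D + 1) * q ^ ((χ - ε) * (m : ℝ))) := by
      have h5 : q ^ ((χ - ε) * (m : ℝ)) = q ^ (χ - ε) * q ^ ((χ - ε) * ((m : ℝ) - 1)) := by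
        rw [← Real.rpow_add hq0]
        congr 1
        ring
      rw [h5, hB]
      ring
    rw [h4] at h3
    exact lt_of_mul_lt_mul_left h3 hK0.le
  -- the maximal point
  set θ : ℝ := χ - 2 * ε with hθ
  obtain ⟨n, hn, hmax⟩ := Finset.exists_max_image (Finset.range (m + 1))
    (fun k => α i k * q ^ (-(θ * (k : ℝ)))) ⟨0, Finset.mem_range.2 (by omega)⟩
  have hnm : n ≤ m := by
    have := Finset.mem_range.1 hn
    omega
  have hlow : D + 1 < α i n * q ^ (-(θ * (n : ℝ))) := by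
    have h1 := hmax m (Finset.mem_range.2 (Nat.lt_succ_self m))
    refine lt_of_lt_of_le ?_ h1
    have h2 : 0 < q ^ (-(θ * (m : ℝ))) := Real.rpow_pos_of_pos hq0 _
    have h3 := mul_lt_mul_of_pos_right hαm h2
    refine lt_of_le_of_lt ?_ h3
    rw [mul_assoc, ← Real.rpow_add hq0]
    have h4 : (χ - ε) * (m : ℝ) + -(θ * (m : ℝ)) = ε * m := by rw [hθ]; ring
    rw [h4]
    have h5 : 1 ≤ q ^ (ε * (m : ℝ)) :=
      Real.one_le_rpow hq1.le (mul_nonneg hε.le (Nat.cast_nonneg m))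
    have h6 : 0 ≤ D + 1 := by linarith
    nlinarith
  have hqn : 0 < q ^ (-(θ * (n : ℝ))) := Real.rpow_pos_of_pos hq0 _
  have hαn : 0 < α i n := by
    by_contra hcon
    have h1 : α i n * q ^ (-(θ * (n : ℝ))) ≤ 0 :=
      mul_nonpos_of_nonpos_of_nonneg (not_lt.1 hcon) hqn.le
    linarith
  refine ⟨n, ?_, w, i, x, ?_, hαn, ?_⟩
  · by_contra hcon
    have hnn : (n : ℝ) ≤ n₀ := by exact_mod_cast (not_le.1 hcon).le
    have h1 : α i n ≤ C₂ * (C₁ * q ^ n) ^ (χ + ε) := by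
      refine (pi_norm_le_iff_of_nonneg (by positivity)).2 fun l => ?_
      rw [Real.norm_eq_abs]
      refine (hJ _ i l x).trans (mul_le_mul_of_nonneg_left ?_ hC₂)
      refine Real.rpow_le_rpow (hN0 _).le ?_ hsum.le
      have := hw1 0 n (Nat.zero_le n) hnm
      rwa [Nat.sub_zero] at this
    have h2 : C₂ * (C₁ * q ^ n) ^ (χ + ε) * q ^ (-(θ * (n : ℝ))) =
        C₂ * C₁ ^ (χ + ε) * q ^ (3 * ε * (n : ℝ)) := by
      rw [Real.mul_rpow hC₁0.le (by positivity), ← Real.rpow_natCast, ← Real.rpow_mul hq0.le,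
        mul_assoc, mul_assoc, mul_assoc, ← Real.rpow_add hq0]
      congr 3
      rw [hθ]
      ring
    have h3 : q ^ (3 * ε * (n : ℝ)) ≤ q ^ (3 * ε * (n₀ : ℝ)) :=
      Real.rpow_le_rpow_of_exponent_le hq1.le
        (mul_le_mul_of_nonneg_left hnn (by positivity))
    have h4 : α i n * q ^ (-(θ * (n : ℝ))) ≤ D := by
      calc α i n * q ^ (-(θ * (n : ℝ)))
          ≤ C₂ * (C₁ * q ^ n) ^ (χ + ε) * q ^ (-(θ * (n : ℝ))) :=
            mul_le_mul_of_nonneg_right h1 hqn.le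
        _ = C₂ * C₁ ^ (χ + ε) * q ^ (3 * ε * (n : ℝ)) := h2
        _ ≤ D := mul_le_mul_of_nonneg_left h3 hCp
    linarith
  · intro k l hkl hln
    exact hw1 k l hkl (hln.trans hnm)
  · intro k hk
    have h1 := hmax k (Finset.mem_range.2 (by omega))
    have h2 : 0 < q ^ (θ * (k : ℝ)) := Real.rpow_pos_of_pos hq0 _
    have h3 := mul_le_mul_of_nonneg_right h1 h2.le
    rw [mul_assoc, ← Real.rpow_add hq0, neg_add_cancel, Real.rpow_zero, mul_one, mul_assoc,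
      ← Real.rpow_add hq0] at h3
    have h4 : -(θ * (n : ℝ)) + θ * (k : ℝ) = -(θ * ((n : ℝ) - k)) := by ring
    rw [h4] at h3
    exact h3

end Pool.Agent.H73.PZ.Calc
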