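import Mathlib
import Pool.Agent.H73.PZ.D0
import Pool.Agent.H73.PZ.A6c

/-!
MODULE D2a (MP_d9606f_gt, paper `/team-store/h73_padic_zimmer.md`, Part D: one step).

* `E_near`: `|ψ l (E x u) - ψ l x - ∑_i u i (X i (ψ l)) x| ≤ C ‖u‖²` (`expo` for `f = ψ l`, maximum
  over `l`), and `∑_i u i (X i (ψ l)) x = u l` for tangent `u` (`X i (ψ l) = J 1 i l` because
  `cmp 1 (ψ l) = ψ l`).
* `E_step`: `expo` for `f = cmp s (ψ l)` at `x` (`f y = ψ l (s • y)`, `X i f = J s i l`):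
  `|ψ l (s • E x u) - ψ l (s • x) - (push s x u) l| ≤ C ‖u‖²`; `E_near` at `s • x` for the tangent
  vector `u' = push s x u`: `|ψ l (E (s • x) u') - ψ l (s • x) - u' l| ≤ C ‖u'‖²`, and
  `‖u'‖ ≤ C ‖u‖` (`S` finite, `bdd`).  Subtract.
-/

open MeasureTheory

namespace Pool.Agent.H73.PZ.Calc

variable {Γ : Type} [Group Γ] {M : Type} [TopologicalSpace M] [MeasurableSpace M]
  [MulAction Γ M] {ι : Type} [Fintype ι] {d : ℕ} (c : Calc Γ M ι d)

theorem E_near [CompactSpace M] : ∃ C : ℝ, 0 ≤ C ∧ ∀ (x : M) (u : ι → ℝ), c.Tan x u →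
    ‖u‖ ≤ c.δ → ∀ l, |(c.ψ l).1 (c.E x u) - (c.ψ l).1 x - u l| ≤ C * ‖u‖ ^ 2 := by
  choose C hC using fun l : ι => c.expo (c.ψ l)
  refine ⟨∑ l, |C l|, Finset.sum_nonneg fun l _ => abs_nonneg _, fun x u hu hδ l => ?_⟩
  have h1 := hC l x u hδ
  have h2 : ∑ i, u i * (c.X i (c.ψ l)).1 x = u l := by
    rw [hu l]
    refine Finset.sum_congr rfl fun i _ => ?_
    unfold J
    rw [c.cmp_one]
  rw [h2] at h1
  refine h1.trans (mul_le_mul_of_nonneg_right ?_ (sq_nonneg _))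
  exact (le_abs_self _).trans
    (Finset.single_le_sum (f := fun l => |C l|) (fun l _ => abs_nonneg _) (Finset.mem_univ l))

theorem E_step [CompactSpace M] {S : Set Γ} (hS : S.Finite) : ∃ C : ℝ, 0 ≤ C ∧
    ∀ s ∈ S, ∀ (x : M) (u : ι → ℝ), c.Tan x u → ‖u‖ ≤ c.δ → ‖c.push s x u‖ ≤ c.δ →
      c.dst (s • c.E x u) (c.E (s • x) (c.push s x u)) ≤ C * ‖u‖ ^ 2 := by
  obtain ⟨C', hC'0, hC'⟩ := c.E_near
  choose C hC using fun (s : Γ) (l : ι) => c.expo (c.cmp s (c.ψ l))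
  choose b hb0 hb using fun (s : Γ) (i l : ι) => c.bdd (c.J s i l)
  set C1 : ℝ := ∑ s ∈ hS.toFinset, ∑ l, |C s l| with hC1
  set B : ℝ := ∑ s ∈ hS.toFinset, ∑ l, ∑ i, b s i l with hB
  have hC10 : 0 ≤ C1 := Finset.sum_nonneg fun s _ => Finset.sum_nonneg fun l _ => abs_nonneg _
  have hB0 : 0 ≤ B := Finset.sum_nonneg fun s _ => Finset.sum_nonneg fun l _ =>
    Finset.sum_nonneg fun i _ => hb0 s i l
  refine ⟨C1 + C' * B ^ 2, by positivity, fun s hs x u hu hδ hδ' => ?_⟩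
  have hs' : s ∈ hS.toFinset := hS.mem_toFinset.2 hs
  have hle1 : ∀ l, C s l ≤ C1 := by
    intro l
    refine (le_abs_self _).trans ?_
    refine (Finset.single_le_sum (f := fun l => |C s l|) (fun l _ => abs_nonneg _)
      (Finset.mem_univ l)).trans ?_
    exact Finset.single_le_sum (f := fun s => ∑ l, |C s l|)
      (fun s _ => Finset.sum_nonneg fun l _ => abs_nonneg _) hs'
  have hle2 : ∀ l, ∑ i, b s i l ≤ B := by
    intro l
    refine (Finset.single_le_sum (f := fun l => ∑ i, b s i l)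
      (fun l _ => Finset.sum_nonneg fun i _ => hb0 s i l) (Finset.mem_univ l)).trans ?_
    exact Finset.single_le_sum (f := fun s => ∑ l, ∑ i, b s i l)
      (fun s _ => Finset.sum_nonneg fun l _ => Finset.sum_nonneg fun i _ => hb0 s i l) hs'
  have hnorm : ‖c.push s x u‖ ≤ B * ‖u‖ := by
    rw [pi_norm_le_iff_of_nonneg (by positivity)]
    intro l
    rw [Real.norm_eq_abs]
    unfold push
    refine (Finset.abs_sum_le_sum_abs _ _).trans ?_
    have h1 : ∀ i ∈ Finset.univ, |u i * (c.J s i l).1 x| ≤ b s i l * ‖u‖ := by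
      intro i _
      rw [abs_mul, mul_comm]
      exact mul_le_mul (hb s i l x) (norm_le_pi_norm u i) (abs_nonneg _) (hb0 s i l)
    refine (Finset.sum_le_sum h1).trans ?_
    rw [← Finset.sum_mul]
    exact mul_le_mul_of_nonneg_right (hle2 l) (norm_nonneg _)
  have hsq : ‖c.push s x u‖ ^ 2 ≤ B ^ 2 * ‖u‖ ^ 2 := by
    rw [← mul_pow]
    exact pow_le_pow_left₀ (norm_nonneg _) hnorm 2
  apply c.dst_le (by positivity)
  intro l
  have h1 := hC s l x u hδ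
  rw [c.cmp_apply, c.cmp_apply] at h1
  have h2 : ∑ i, u i * (c.X i (c.cmp s (c.ψ l))).1 x = c.push s x u l := rfl
  rw [h2] at h1
  have h3 := hC' (s • x) (c.push s x u) (c.push_tan s x u) hδ' l
  have h4 : |(c.ψ l).1 (s • c.E x u) - (c.ψ l).1 (s • x) - c.push s x u l| ≤ C1 * ‖u‖ ^ 2 :=
    h1.trans (mul_le_mul_of_nonneg_right (hle1 l) (sq_nonneg _))
  have h5 : |(c.ψ l).1 (c.E (s • x) (c.push s x u)) - (c.ψ l).1 (s • x) - c.push s x u l| ≤
      C' * (B ^ 2 * ‖u‖ ^ 2) := h3.trans (mul_le_mul_of_nonneg_left hsq hC'0)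
  have h6 : (c.ψ l).1 (s • c.E x u) - (c.ψ l).1 (c.E (s • x) (c.push s x u)) =
      ((c.ψ l).1 (s • c.E x u) - (c.ψ l).1 (s • x) - c.push s x u l) -
      ((c.ψ l).1 (c.E (s • x) (c.push s x u)) - (c.ψ l).1 (s • x) - c.push s x u l) := by ring
  rw [h6]
  refine (abs_sub _ _).trans ?_
  refine (add_le_add h4 h5).trans (le_of_eq ?_)
  ring

end Pool.Agent.H73.PZ.Calc
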