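import Mathlib
import Pool.Agent.H73.PZ.D1
import Pool.Agent.H73.PZ.D2a

/-!
MODULE D2 (MP_d9606f_gt, paper `/team-store/h73_padic_zimmer.md`, Part D: shadowing the fan).

Let `θ = χ - 2ε`, `5 ε < χ`.  `S = {N ≤ C₁ q}` finite, `C₂` with `|J^γ| ≤ C₂ N γ^(χ+ε)`,
`C₃` the constant of `E_step` for `S`, `C₄` the constant of `E_near`.  `δ₀ > 0` small, to be fixed
(depending only on these constants and `c.δ`, `c.L`).
Given a fan put `x_k = (w k (w 0)⁻¹) • x`, `a_k l = (J (w k (w 0)⁻¹) i l) x`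
(`= push (w k (w 0)⁻¹) x e_i`, tangent at `x_k`), `α = ‖a_n‖ > 0`, `u_k = (δ₀ / α) • a_k`:
`‖u_k‖ ≤ δ₀ q^(-θ (n-k)) ≤ δ₀ ≤ c.δ`, `‖u_n‖ = δ₀`.  `y_k = E x_k u_k`, `s_k = w (k+1) (w k)⁻¹ ∈ S`,
`s_k • x_k = x_{k+1}`, `push s_k x_k u_k = u_{k+1}` (`push_push`, linearity).
* `E_step`: `dst (s_k • y_k) y_{k+1} ≤ C₃ ‖u_k‖² ≤ C₃ δ₀² ≤ c.δ`.
* for `k + 1 ≤ j ≤ n`, `g = w j (w (k+1))⁻¹`: `lip` for `f = cmp g (ψ l)`,
  `|X i f| = |J g i l| ≤ C₂ (C₁ q^(j-k-1))^(χ+ε)`: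
  `dst (g • s_k • y_k) (g • y_{k+1}) ≤ L C₂ (C₁ q^(j-k))^(χ+ε) C₃ δ₀² q^(-2 θ (n-k))`.
  Here `g s_k = w j (w k)⁻¹`.
* `z_j = (w j (w 0)⁻¹) • y_0`.  Telescoping over `k < j` (`dst_triangle`), `w j (w j)⁻¹ = 1`:
  `dst z_j y_j ≤ ∑_{k<j} C δ₀² q^((χ+ε)(j-k) - 2θ(n-k)) = C δ₀² q^(-2θ(n-j)) ∑_{k<j} q^(-(χ-5ε)(j-k))
  ≤ C₅ δ₀² q^(-θ(n-j))` (geometric series, `χ > 5 ε`).
* `E_near`: `dst y_j x_j ≤ ‖u_j‖ + C₄ ‖u_j‖² ≤ (1 + C₄ δ₀) δ₀ q^(-θ(n-j))`, and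
  `dst y_n x_n ≥ δ₀ - C₄ δ₀²` (look at the coordinate `l` where `|u_n l| = ‖u_n‖`).
So `dst z_n x_n ≥ δ₀ - C₄ δ₀² - C₅ δ₀² ≥ δ₀ / 2` for `δ₀` small, and
`dst z_j x_j ≤ C₆ q^(-θ(n-j))` for all `j ≤ n`.
Take `x' = x_n`, `z' = z_n`, `g i = w (n-i) (w n)⁻¹`: `g i • x_n = x_{n-i}`, `g i • z_n = z_{n-i}`,
`N (g i) = N (w n (w (n-i))⁻¹) ≤ C₁ q^i`.
-/

open MeasureTheory

namespace Pool.Agent.H73.PZ.Calc

variable {Γ : Type} [Group Γ] {M : Type} [TopologicalSpace M] [MeasurableSpace M]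
  [MulAction Γ M] {ι : Type} [Fintype ι] {d : ℕ} (c : Calc Γ M ι d)

private theorem tan_smul' (x : M) (a : ι → ℝ) (r : ℝ) (h : c.Tan x a) :
    c.Tan x (r • a) := by
  intro j
  simp only [Pi.smul_apply, smul_eq_mul]
  rw [h j, Finset.mul_sum]
  exact Finset.sum_congr rfl fun i _ => by ring

private theorem push_smul' (g : Γ) (x : M) (a : ι → ℝ) (r : ℝ) :
    c.push g x (r • a) = r • c.push g x a := by
  funext l
  simp only [push, Pi.smul_apply, smul_eq_mul, Finset.mul_sum]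
  exact Finset.sum_congr rfl fun i _ => by ring

private theorem push_single' [DecidableEq ι] (g : Γ) (x : M) (i : ι) :
    c.push g x (Pi.single i 1) = fun l => (c.J g i l).1 x := by
  funext l
  simp [push, Pi.single_apply]

private theorem dst_smul' {C₂ K : ℝ} {N : Γ → ℝ} (hC₂ : 0 ≤ C₂)
    (h : ∀ γ i j x, |(c.J γ i j).1 x| ≤ C₂ * N γ ^ K) (hN : ∀ γ, 0 ≤ N γ) (g : Γ) (p p' : M)
    (hd : c.dst p p' ≤ c.δ) :
    c.dst (g • p) (g • p') ≤ c.L * (C₂ * N g ^ K) * c.dst p p' := by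
  have h1 := c.L_nonneg
  have h2 := c.dst_nonneg p p'
  have h3 := Real.rpow_nonneg (hN g) K
  apply c.dst_le
  · positivity
  · intro l
    have := c.lip (c.cmp g (c.ψ l)) (C₂ * N g ^ K) (fun i x => h g i l x) p p' hd
    rwa [c.cmp_apply, c.cmp_apply] at this

/-- Telescoping along a finite chain of points. -/
private theorem dst_tele (t : ℕ → M) (b : ℕ → ℝ) (j : ℕ)
    (h : ∀ k, k < j → c.dst (t k) (t (k + 1)) ≤ b k) :
    c.dst (t 0) (t j) ≤ ∑ k ∈ Finset.range j, b k := by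
  induction j with
  | zero => simp [c.dst_self]
  | succ j ih =>
    rw [Finset.sum_range_succ]
    exact (c.dst_triangle _ (t j) _).trans
      (add_le_add (ih fun k hk => h k (by omega)) (h j (by omega)))

private theorem exists_norm_eq [Nonempty ι] (u : ι → ℝ) : ∃ l, |u l| = ‖u‖ := by
  obtain ⟨l, -, hl⟩ := Finset.exists_max_image Finset.univ (fun l => |u l|) Finset.univ_nonempty
  refine ⟨l, le_antisymm (norm_le_pi_norm u l) ?_⟩
  exact (pi_norm_le_iff_of_nonneg (abs_nonneg _)).2 fun k => hl k (Finset.mem_univ _)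

private theorem geom_le {r : ℝ} (h0 : 0 < r) (h1 : r < 1) (j : ℕ) :
    ∑ k ∈ Finset.range j, r ^ (j - k) ≤ 1 / (1 - r) := by
  have e : ∑ k ∈ Finset.range j, r ^ (j - k) = ∑ k ∈ Finset.range j, r ^ (k + 1) := by
    rw [← Finset.sum_range_reflect]
    refine Finset.sum_congr rfl fun k hk => ?_
    rw [Finset.mem_range] at hk
    congr 1
    omega
  rw [e]
  have h2 : ∑ k ∈ Finset.range j, r ^ (k + 1) ≤ ∑ k ∈ Finset.range j, r ^ k :=
    Finset.sum_le_sum fun k _ => pow_le_pow_of_le_one h0.le h1.le (Nat.le_succ k)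
  refine h2.trans ?_
  have h3 : 0 < 1 - r := by linarith
  rw [le_div_iff₀ h3, geom_sum_mul_neg]
  have : 0 < r ^ j := pow_pos h0 j
  linarith

theorem shadow [CompactSpace M] {q : ℝ} {N : Γ → ℝ} (hS : Sz q N) {χ ε : ℝ} (hε : 0 < ε)
    (hχ : 5 * ε < χ) (hup : c.Adm N (χ + ε)) {C₁ : ℝ} (hC₁ : 1 ≤ C₁) :
    ∃ δ₁ C : ℝ, 0 < δ₁ ∧ 0 ≤ C ∧ ∀ (n : ℕ) (w : ℕ → Γ) (i : ι) (x : M),
      c.Fan q N C₁ (χ - 2 * ε) n w i x →
      ∃ (x' z' : M) (g : ℕ → Γ), δ₁ ≤ c.dst x' z' ∧ ∀ i, i ≤ n → N (g i) ≤ C * q ^ i ∧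
        c.dst (g i • x') (g i • z') ≤ C * q ^ (-((χ - 2 * ε) * i)) := by
  classical
  obtain ⟨C₂, hC₂, hJ⟩ := hup
  obtain ⟨C₃, hC₃, hstep⟩ := c.E_step (hS.finite (C₁ * q))
  obtain ⟨C₄, hC₄, hnear⟩ := c.E_near
  have hq : 1 < q := hS.q_gt
  have hq0 : 0 < q := by linarith
  have hN : ∀ γ, 0 ≤ N γ := fun γ => le_trans zero_le_one (hS.one_le γ)
  have hL := c.L_nonneg
  have hδ := c.δ_pos
  obtain ⟨θ, hθ⟩ : ∃ θ, θ = χ - 2 * ε := ⟨_, rfl⟩
  obtain ⟨K, hK⟩ : ∃ K, K = χ + ε := ⟨_, rfl⟩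
  rw [← hK] at hJ
  rw [← hθ]
  have hθ0 : 0 < θ := by rw [hθ]; linarith
  have hK0 : 0 < K := by rw [hK]; linarith
  obtain ⟨r, hr⟩ : ∃ r, r = q ^ (-(χ - 5 * ε)) := ⟨_, rfl⟩
  have hr0 : 0 < r := by rw [hr]; exact Real.rpow_pos_of_pos hq0 _
  have hr1 : r < 1 := by rw [hr]; exact Real.rpow_lt_one_of_one_lt_of_neg hq (by linarith)
  have hC₁0 : 0 ≤ C₁ := by linarith
  obtain ⟨D, hD⟩ : ∃ D, D = c.L * C₂ * C₁ ^ K * C₃ := ⟨_, rfl⟩
  have hD0 : 0 ≤ D := by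
    rw [hD]
    have := Real.rpow_nonneg hC₁0 K
    positivity
  obtain ⟨C₅, hC₅⟩ : ∃ C₅, C₅ = D * (1 / (1 - r)) := ⟨_, rfl⟩
  have hC₅0 : 0 ≤ C₅ := by
    rw [hC₅]
    have : 0 < 1 - r := by linarith
    positivity
  obtain ⟨δ₀, h0, h1, h2, h3, h4⟩ : ∃ δ₀ : ℝ, 0 < δ₀ ∧ δ₀ ≤ 1 ∧ δ₀ ≤ c.δ ∧
      C₃ * δ₀ ^ 2 ≤ c.δ ∧ (C₄ + C₅) * δ₀ ≤ 1 / 2 := by
    have hb : 0 < c.δ / (C₃ + 1) := by positivity
    have hb' : 0 < 1 / (2 * (C₄ + C₅ + 1)) := by positivity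
    refine ⟨min (min 1 (c.δ / (C₃ + 1))) (1 / (2 * (C₄ + C₅ + 1))), ?_, ?_, ?_, ?_, ?_⟩
    · exact lt_min (lt_min one_pos hb) hb'
    · exact (min_le_left _ _).trans (min_le_left _ _)
    · refine ((min_le_left _ _).trans (min_le_right _ _)).trans ?_
      exact div_le_self hδ.le (by linarith)
    · obtain ⟨m, hm⟩ : ∃ m, m = min (min 1 (c.δ / (C₃ + 1))) (1 / (2 * (C₄ + C₅ + 1))) := ⟨_, rfl⟩
      rw [← hm]
      have hm0 : 0 < m := by rw [hm]; exact lt_min (lt_min one_pos hb) hb'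
      have hm1 : m ≤ 1 := by rw [hm]; exact (min_le_left _ _).trans (min_le_left _ _)
      have hm2 : m ≤ c.δ / (C₃ + 1) := by
        rw [hm]; exact (min_le_left _ _).trans (min_le_right _ _)
      rw [le_div_iff₀ (by linarith)] at hm2
      nlinarith [mul_nonneg hC₃ hm0.le, mul_nonneg (mul_nonneg hC₃ hm0.le) (sub_nonneg.2 hm1)]
    · obtain ⟨m, hm⟩ : ∃ m, m = min (min 1 (c.δ / (C₃ + 1))) (1 / (2 * (C₄ + C₅ + 1))) := ⟨_, rfl⟩
      rw [← hm]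
      have hm0 : 0 < m := by rw [hm]; exact lt_min (lt_min one_pos hb) hb'
      have hm2 : m ≤ 1 / (2 * (C₄ + C₅ + 1)) := by rw [hm]; exact min_le_right _ _
      rw [le_div_iff₀ (by linarith)] at hm2
      nlinarith
  refine ⟨δ₀ / 2, max C₁ (1 + C₄ + C₅), by positivity, le_trans hC₁0 (le_max_left _ _), ?_⟩
  intro n w i x hF
  have : Nonempty ι := ⟨i⟩
  -- the path of points
  obtain ⟨W, hW⟩ : ∃ W : ℕ → Γ, W = fun k => w k * (w 0)⁻¹ := ⟨_, rfl⟩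
  have hWk : ∀ k, w k * (w 0)⁻¹ = W k := fun k => by rw [hW]
  obtain ⟨a, ha⟩ : ∃ a : ℕ → ι → ℝ, a = fun k l => (c.J (W k) i l).1 x := ⟨_, rfl⟩
  have hak : ∀ k, a k = c.push (W k) x (Pi.single i 1) := fun k => by
    rw [ha, push_single']
  have hpos : 0 < ‖a n‖ := by
    have := hF.pos
    rw [hWk] at this
    rw [ha]; exact this
  have hmax : ∀ k, k ≤ n → ‖a k‖ ≤ ‖a n‖ * q ^ (-(θ * ((n : ℝ) - k))) := by
    intro k hk
    have := hF.max k hk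
    rw [hWk, hWk] at this
    rw [ha]; exact this
  obtain ⟨u, hu⟩ : ∃ u : ℕ → ι → ℝ, u = fun k => (δ₀ / ‖a n‖) • a k := ⟨_, rfl⟩
  have hun : ∀ k, k ≤ n → ‖u k‖ ≤ δ₀ * q ^ (-(θ * ((n : ℝ) - k))) := by
    intro k hk
    rw [hu]
    simp only [norm_smul, Real.norm_eq_abs]
    rw [abs_of_pos (div_pos h0 hpos)]
    calc δ₀ / ‖a n‖ * ‖a k‖ ≤ δ₀ / ‖a n‖ * (‖a n‖ * q ^ (-(θ * ((n : ℝ) - k)))) :=
          mul_le_mul_of_nonneg_left (hmax k hk) (div_pos h0 hpos).le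
      _ = δ₀ * q ^ (-(θ * ((n : ℝ) - k))) := by field_simp
  have hq1 : ∀ k : ℕ, k ≤ n → q ^ (-(θ * ((n : ℝ) - k))) ≤ 1 := by
    intro k hk
    apply Real.rpow_le_one_of_one_le_of_nonpos hq.le
    have : (k : ℝ) ≤ n := by exact_mod_cast hk
    nlinarith [mul_nonneg hθ0.le (sub_nonneg.2 this)]
  have hu1 : ∀ k, k ≤ n → ‖u k‖ ≤ δ₀ := by
    intro k hk
    refine (hun k hk).trans ?_
    exact mul_le_of_le_one_right h0.le (hq1 k hk)
  have hunn : ‖u n‖ = δ₀ := by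
    rw [hu]
    simp only [norm_smul, Real.norm_eq_abs]
    rw [abs_of_pos (div_pos h0 hpos)]
    field_simp
  have htan : ∀ k, c.Tan (W k • x) (u k) := by
    intro k
    rw [hu]
    apply c.tan_smul'
    rw [hak]
    exact c.push_tan _ _ _
  have hs : ∀ k, w (k + 1) * (w k)⁻¹ * W k = W (k + 1) := by
    intro k; rw [hW]; group
  have hpush : ∀ k, c.push (w (k + 1) * (w k)⁻¹) (W k • x) (u k) = u (k + 1) := by
    intro k
    rw [hu]
    simp only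
    rw [c.push_smul', hak k, c.push_push, hs, hak (k + 1)]
  obtain ⟨y, hy⟩ : ∃ y : ℕ → M, y = fun k => c.E (W k • x) (u k) := ⟨_, rfl⟩
  have hone : ∀ k, k < n →
      c.dst ((w (k + 1) * (w k)⁻¹) • y k) (y (k + 1)) ≤ C₃ * ‖u k‖ ^ 2 := by
    intro k hk
    have hmem : w (k + 1) * (w k)⁻¹ ∈ {γ : Γ | N γ ≤ C₁ * q} := by
      have := hF.path k (k + 1) (by omega) (by omega)
      simpa using this
    have := hstep _ hmem (W k • x) (u k) (htan k) ((hu1 k hk.le).trans h2)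
      (by rw [hpush]; exact (hu1 (k + 1) hk).trans h2)
    rw [hpush, ← mul_smul, hs] at this
    rw [hy]; exact this
  -- the telescoping
  have hzy : ∀ j, j ≤ n →
      c.dst (W j • y 0) (y j) ≤ C₅ * δ₀ ^ 2 * q ^ (-(θ * ((n : ℝ) - j))) := by
    intro j hj
    obtain ⟨t, ht⟩ : ∃ t : ℕ → M, t = fun k => (w j * (w k)⁻¹) • y k := ⟨_, rfl⟩
    have e0 : t 0 = W j • y 0 := by rw [ht, ← hWk]
    have e1 : t j = y j := by rw [ht]; simp
    rw [← e0, ← e1]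
    have key : ∀ k, k < j → c.dst (t k) (t (k + 1)) ≤
        D * δ₀ ^ 2 * q ^ (-(θ * ((n : ℝ) - j))) * r ^ (j - k) := by
      intro k hk
      have hkn : k < n := lt_of_lt_of_le hk hj
      have e2 : t k = (w j * (w (k + 1))⁻¹) • ((w (k + 1) * (w k)⁻¹) • y k) := by
        rw [ht, ← mul_smul]; group
      have e3 : t (k + 1) = (w j * (w (k + 1))⁻¹) • y (k + 1) := by rw [ht]
      have hd := hone k hkn
      have hd' : C₃ * ‖u k‖ ^ 2 ≤ c.δ := by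
        refine le_trans (mul_le_mul_of_nonneg_left ?_ hC₃) h3
        exact pow_le_pow_left₀ (norm_nonneg _) (hu1 k hkn.le) 2
      rw [e2, e3]
      refine (c.dst_smul' hC₂ hJ hN _ _ _ (hd.trans hd')).trans ?_
      have hg : N (w j * (w (k + 1))⁻¹) ≤ C₁ * q ^ (j - k) := by
        refine (hF.path (k + 1) j hk hj).trans ?_
        exact mul_le_mul_of_nonneg_left (pow_le_pow_right₀ hq.le (by omega)) hC₁0
      have hg' : N (w j * (w (k + 1))⁻¹) ^ K ≤ C₁ ^ K * q ^ (K * ((j : ℝ) - k)) := by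
        refine (Real.rpow_le_rpow (hN _) hg hK0.le).trans (le_of_eq ?_)
        rw [Real.mul_rpow hC₁0 (by positivity), ← Real.rpow_natCast q (j - k), ← Real.rpow_mul hq0.le,
          Nat.cast_sub hk.le]
        congr 2
        ring
      have hu2 : ‖u k‖ ^ 2 ≤ δ₀ ^ 2 * q ^ (-(2 * θ * ((n : ℝ) - k))) := by
        refine (pow_le_pow_left₀ (norm_nonneg _) (hun k hkn.le) 2).trans (le_of_eq ?_)
        rw [mul_pow, ← Real.rpow_natCast (q ^ (-(θ * ((n : ℝ) - k)))) 2, ← Real.rpow_mul hq0.le]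
        congr 2
        push_cast
        ring
      have hA : c.L * (C₂ * N (w j * (w (k + 1))⁻¹) ^ K) ≤
          c.L * (C₂ * (C₁ ^ K * q ^ (K * ((j : ℝ) - k)))) :=
        mul_le_mul_of_nonneg_left (mul_le_mul_of_nonneg_left hg' hC₂) hL
      have hB : c.dst ((w (k + 1) * (w k)⁻¹) • y k) (y (k + 1)) ≤
          C₃ * (δ₀ ^ 2 * q ^ (-(2 * θ * ((n : ℝ) - k)))) :=
        hd.trans (mul_le_mul_of_nonneg_left hu2 hC₃)
      have hC1K := Real.rpow_nonneg hC₁0 K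
      refine (mul_le_mul hA hB (c.dst_nonneg _ _) (by positivity)).trans ?_
      have hexp : q ^ (K * ((j : ℝ) - k)) * q ^ (-(2 * θ * ((n : ℝ) - k))) ≤
          q ^ (-(θ * ((n : ℝ) - j))) * r ^ (j - k) := by
        rw [hr, ← Real.rpow_natCast (q ^ (-(χ - 5 * ε))) (j - k), ← Real.rpow_mul hq0.le,
          Nat.cast_sub hk.le, ← Real.rpow_add hq0, ← Real.rpow_add hq0]
        apply Real.rpow_le_rpow_of_exponent_le hq.le
        have hjn : (j : ℝ) ≤ n := by exact_mod_cast hj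
        rw [hK, hθ]
        rw [hθ] at hθ0
        nlinarith [mul_nonneg hθ0.le (sub_nonneg.2 hjn)]
      calc c.L * (C₂ * (C₁ ^ K * q ^ (K * ((j : ℝ) - k)))) *
            (C₃ * (δ₀ ^ 2 * q ^ (-(2 * θ * ((n : ℝ) - k)))))
          = D * δ₀ ^ 2 * (q ^ (K * ((j : ℝ) - k)) * q ^ (-(2 * θ * ((n : ℝ) - k)))) := by
            rw [hD]; ring
        _ ≤ D * δ₀ ^ 2 * (q ^ (-(θ * ((n : ℝ) - j))) * r ^ (j - k)) :=
            mul_le_mul_of_nonneg_left hexp (by positivity)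
        _ = _ := by ring
    refine (c.dst_tele t _ j key).trans ?_
    rw [← Finset.mul_sum]
    refine (mul_le_mul_of_nonneg_left (geom_le hr0 hr1 j) (by positivity)).trans (le_of_eq ?_)
    rw [hC₅]; ring
  have hyx : ∀ j, j ≤ n →
      c.dst (y j) (W j • x) ≤ (1 + C₄) * δ₀ * q ^ (-(θ * ((n : ℝ) - j))) := by
    intro j hj
    have hp : 0 < q ^ (-(θ * ((n : ℝ) - j))) := Real.rpow_pos_of_pos hq0 _
    apply c.dst_le (by positivity)
    intro l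
    have e := hnear (W j • x) (u j) (htan j) ((hu1 j hj).trans h2) l
    have e1 : |u j l| ≤ ‖u j‖ := norm_le_pi_norm (u j) l
    have e2 : ‖u j‖ ^ 2 ≤ ‖u j‖ := by
      have := hu1 j hj
      have := norm_nonneg (u j)
      nlinarith
    have e3 : |(c.ψ l).1 (y j) - (c.ψ l).1 (W j • x)| ≤ ‖u j‖ + C₄ * ‖u j‖ := by
      have e4 : |(c.ψ l).1 (y j) - (c.ψ l).1 (W j • x)| ≤
          |(c.ψ l).1 (y j) - (c.ψ l).1 (W j • x) - u j l| + |u j l| := by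
        have := abs_add_le ((c.ψ l).1 (y j) - (c.ψ l).1 (W j • x) - u j l) (u j l)
        simpa using this
      have e5 : |(c.ψ l).1 (y j) - (c.ψ l).1 (W j • x) - u j l| ≤ C₄ * ‖u j‖ ^ 2 := by
        rw [hy]; exact e
      have e6 := mul_le_mul_of_nonneg_left e2 hC₄
      linarith
    calc _ ≤ ‖u j‖ + C₄ * ‖u j‖ := e3
      _ = (1 + C₄) * ‖u j‖ := by ring
      _ ≤ (1 + C₄) * (δ₀ * q ^ (-(θ * ((n : ℝ) - j)))) :=
          mul_le_mul_of_nonneg_left (hun j hj) (by linarith)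
      _ = _ := by ring
  have hlow : δ₀ - C₄ * δ₀ ^ 2 ≤ c.dst (y n) (W n • x) := by
    obtain ⟨l, hl⟩ := exists_norm_eq (u n)
    have e := hnear (W n • x) (u n) (htan n) ((hu1 n le_rfl).trans h2) l
    have e5 : |(c.ψ l).1 (y n) - (c.ψ l).1 (W n • x) - u n l| ≤ C₄ * ‖u n‖ ^ 2 := by
      rw [hy]; exact e
    rw [hunn] at e5 hl
    refine le_trans ?_ (c.le_dst (y n) (W n • x) l)
    have := abs_sub_abs_le_abs_sub (u n l) ((c.ψ l).1 (y n) - (c.ψ l).1 (W n • x))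
    rw [abs_sub_comm (u n l)] at this
    linarith
  refine ⟨W n • x, W n • y 0, fun i => w (n - i) * (w n)⁻¹, ?_, ?_⟩
  · have hz := hzy n le_rfl
    rw [sub_self, mul_zero, neg_zero, Real.rpow_zero, mul_one] at hz
    have ht := c.dst_triangle (y n) (W n • y 0) (W n • x)
    rw [c.dst_comm (y n) (W n • y 0)] at ht
    rw [c.dst_comm]
    nlinarith
  · intro i hi
    have e1 : (w (n - i) * (w n)⁻¹) * W n = W (n - i) := by rw [hW]; simp [mul_assoc]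
    have e2 : w (n - i) * (w n)⁻¹ = (w n * (w (n - i))⁻¹)⁻¹ := by group
    refine ⟨?_, ?_⟩
    · simp only
      rw [e2, hS.inv_eq]
      have := hF.path (n - i) n (by omega) le_rfl
      have e3 : n - (n - i) = i := by omega
      rw [e3] at this
      exact this.trans (mul_le_mul_of_nonneg_right (le_max_left _ _) (by positivity))
    · simp only
      rw [← mul_smul, ← mul_smul, e1]
      have hz := hzy (n - i) (by omega)
      have hx := hyx (n - i) (by omega)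
      have e3 : (n : ℝ) - ((n - i : ℕ) : ℝ) = i := by
        rw [Nat.cast_sub hi]; ring
      rw [e3] at hz hx
      have ht := c.dst_triangle (W (n - i) • y 0) (y (n - i)) (W (n - i) • x)
      rw [c.dst_comm]
      have hp : 0 < q ^ (-(θ * (i : ℝ))) := Real.rpow_pos_of_pos hq0 _
      have hc : C₅ * δ₀ ^ 2 + (1 + C₄) * δ₀ ≤ max C₁ (1 + C₄ + C₅) := by
        refine le_trans ?_ (le_max_right _ _)
        have s1 : C₅ * δ₀ ^ 2 ≤ C₅ := by
          apply mul_le_of_le_one_right hC₅0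
          nlinarith
        have s2 : (1 + C₄) * δ₀ ≤ 1 + C₄ := mul_le_of_le_one_right (by linarith) h1
        linarith
      calc _ ≤ C₅ * δ₀ ^ 2 * q ^ (-(θ * (i : ℝ))) + (1 + C₄) * δ₀ * q ^ (-(θ * (i : ℝ))) := by
            linarith
        _ = (C₅ * δ₀ ^ 2 + (1 + C₄) * δ₀) * q ^ (-(θ * (i : ℝ))) := by ring
        _ ≤ _ := mul_le_mul_of_nonneg_right hc hp.le

end Pool.Agent.H73.PZ.Calc
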