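import Mathlib
import Pool.Agent.H73.PZ.D0

/-!
MODULE D3 (MP_d9606f_gt, paper `/team-store/h73_padic_zimmer.md`, Part D: the limit).

Proof.  Choose for every `n` data `x_n, z_n, g_n` with the property for all `i ≤ n` (weaken
`n ≥ n₀ = n`).  Let `U` be an ultrafilter on `ℕ` finer than `atTop` (`Filter.hyperfilter ℕ`).
`M` is compact: `x_n → x`, `z_n → z` along `U` (`Ultrafilter` convergence in compact spaces,
`isCompact_univ.ultrafilter_le_nhds`).  `dst` is continuous (`c.cont`), so `δ₁ ≤ dst x z` and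
`x ≠ z`.  For every `i` the elements `g_n i`, `n ≥ i`, lie in the finite set `{N ≤ C q^i}`, so for
some `h i` in it `g_n i = h i` for `U`-almost all `n`
(`Ultrafilter.eventually_exists_mem_iff` / `Ultrafilter.finite_biUnion_mem_iff`).  The map
`y ↦ h i • y` is continuous for the purpose needed: `dst (h i • x_n) (h i • z_n)` is the norm of
`(ψ j (h i • x_n) - ψ j (h i • z_n))_j = ((cmp (h i) (ψ j)) x_n - ...)`, a continuous function
(`cmp_apply`, `c.cont`), so the limit satisfies the same bound.  Then `dst_lip` for every `f`.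
-/

open MeasureTheory

namespace Pool.Agent.H73.PZ.Calc

variable {Γ : Type} [Group Γ] {M : Type} [TopologicalSpace M] [MeasurableSpace M]
  [MulAction Γ M] {ι : Type} [Fintype ι] {d : ℕ} (c : Calc Γ M ι d)

theorem limit_pair [CompactSpace M] {q : ℝ} {N : Γ → ℝ} (hS : Sz q N) {θ δ₁ C : ℝ}
    (hδ : 0 < δ₁)
    (h : ∀ n₀ : ℕ, ∃ n, n₀ ≤ n ∧ ∃ (x z : M) (g : ℕ → Γ), δ₁ ≤ c.dst x z ∧
      ∀ i, i ≤ n → N (g i) ≤ C * q ^ i ∧ c.dst (g i • x) (g i • z) ≤ C * q ^ (-(θ * i))) :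
    ∃ x z : M, x ≠ z ∧ ∃ g : ℕ → Γ, (∀ i, N (g i) ≤ C * q ^ i) ∧
      ∀ f : c.A, ∃ C' : ℝ, ∀ i, |f.1 (g i • x) - f.1 (g i • z)| ≤ C' * q ^ (-(θ * i)) := by
  choose n hn x z g hd hg using h
  obtain ⟨x0, -, hx0⟩ := isCompact_univ.ultrafilter_le_nhds ((Filter.hyperfilter ℕ).map x)
    (by simp)
  obtain ⟨z0, -, hz0⟩ := isCompact_univ.ultrafilter_le_nhds ((Filter.hyperfilter ℕ).map z)
    (by simp)
  have hx : Filter.Tendsto x (Filter.hyperfilter ℕ : Filter ℕ) (nhds x0) := hx0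
  have hz : Filter.Tendsto z (Filter.hyperfilter ℕ : Filter ℕ) (nhds z0) := hz0
  have hcont : ∀ h : Γ, Filter.Tendsto (fun k => c.dst (h • x k) (h • z k))
      (Filter.hyperfilter ℕ : Filter ℕ) (nhds (c.dst (h • x0) (h • z0))) := by
    intro h
    unfold dst
    refine Filter.Tendsto.norm (tendsto_pi_nhds.2 fun j => ?_)
    simp only [← c.cmp_apply]
    exact (((c.cont (c.cmp h (c.ψ j))).tendsto x0).comp hx).sub
      (((c.cont (c.cmp h (c.ψ j))).tendsto z0).comp hz)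
  have h1 : δ₁ ≤ c.dst x0 z0 := by
    have h2 := hcont 1
    simp only [one_smul] at h2
    exact ge_of_tendsto h2 (Filter.Eventually.of_forall hd)
  have hev : ∀ i : ℕ, ∃ h : Γ, N h ≤ C * q ^ i ∧
      ∀ᶠ k in (Filter.hyperfilter ℕ : Filter ℕ), g k i = h := by
    intro i
    have h2 : ∀ᶠ k in (Filter.hyperfilter ℕ : Filter ℕ), i ≤ k :=
      Nat.hyperfilter_le_atTop (Filter.eventually_ge_atTop i)
    have h3 : ∀ᶠ k in (Filter.hyperfilter ℕ : Filter ℕ),
        ∃ h ∈ {γ : Γ | N γ ≤ C * q ^ i}, g k i = h := by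
      filter_upwards [h2] with k hk
      exact ⟨g k i, (hg k i (hk.trans (hn k))).1, rfl⟩
    obtain ⟨h, hh, h4⟩ := (Ultrafilter.eventually_exists_mem_iff (hS.finite (C * q ^ i))).1 h3
    exact ⟨h, hh, h4⟩
  choose h hN hev using hev
  refine ⟨x0, z0, ?_, h, hN, ?_⟩
  · intro he
    rw [he, c.dst_self] at h1
    linarith
  · intro f
    obtain ⟨K, hK, hf⟩ := c.dst_lip f
    refine ⟨K * C, fun i => ?_⟩
    have h2 : ∀ᶠ k in (Filter.hyperfilter ℕ : Filter ℕ), i ≤ k :=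
      Nat.hyperfilter_le_atTop (Filter.eventually_ge_atTop i)
    have h3 : c.dst (h i • x0) (h i • z0) ≤ C * q ^ (-(θ * i)) := by
      refine le_of_tendsto (hcont (h i)) ?_
      filter_upwards [h2, hev i] with k hk he
      rw [← he]
      exact (hg k i (hk.trans (hn k))).2
    calc |f.1 (h i • x0) - f.1 (h i • z0)| ≤ K * c.dst (h i • x0) (h i • z0) := hf _ _
      _ ≤ K * (C * q ^ (-(θ * i))) := mul_le_mul_of_nonneg_left h3 hK
      _ = K * C * q ^ (-(θ * i)) := by ring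

end Pool.Agent.H73.PZ.Calc
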