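import Mathlib
import Pool.Agent.H73.PZ.A8
import Pool.Agent.H73.PZ.D2
import Pool.Agent.H73.PZ.D3

/-!
The abstract dichotomy (MP_d9606f_gt; assembly of parts C and D, helper73).
-/

open MeasureTheory

namespace Pool.Agent.H73.PZ.Calc

variable {Γ : Type} [Group Γ] {M : Type} [TopologicalSpace M] [MeasurableSpace M]
  [MulAction Γ M] {ι : Type} [Fintype ι] {d : ℕ} (c : Calc Γ M ι d)

/-- Below every exponent that is not admissible there are exponentially asymptotic pairs. -/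
theorem pairs [CompactSpace M] {q : ℝ} {N : Γ → ℝ} (hS : Sz q N) {θ χ₁ : ℝ} (hθ : 0 < θ)
    (hχ₁ : θ < χ₁) (hno : ¬ c.Adm N χ₁) :
    ∃ x z : M, x ≠ z ∧ ∃ g : ℕ → Γ, (∃ C : ℝ, ∀ i, N (g i) ≤ C * q ^ i) ∧
      ∀ f : c.A, ∃ C' : ℝ, ∀ i : ℕ, |f.1 (g i • x) - f.1 (g i • z)| ≤ C' * q ^ (-(θ * i)) := by
  obtain ⟨s₀, hs₀⟩ := c.exists_adm hS
  -- the infimum of the admissible exponents
  have hlow : ∀ s, c.Adm N s → χ₁ ≤ s := fun s hs => by
    by_contra hlt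
    exact hno (c.adm_mono hS (not_le.1 hlt).le hs)
  have hbd : BddBelow {s | c.Adm N s} := ⟨χ₁, fun s hs => hlow s hs⟩
  have hne : {s | c.Adm N s}.Nonempty := ⟨s₀, hs₀⟩
  set χ := sInf {s | c.Adm N s} with hχ
  have hχχ : χ₁ ≤ χ := le_csInf hne fun s hs => hlow s hs
  obtain ⟨ε, hε, h2, h5⟩ : ∃ ε : ℝ, 0 < ε ∧ θ ≤ χ - 2 * ε ∧ 5 * ε < χ := by
    refine ⟨min ((χ - θ) / 2) (χ / 10), ?_, ?_, ?_⟩
    · exact lt_min (by linarith) (by linarith)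
    · have := min_le_left ((χ - θ) / 2) (χ / 10)
      linarith
    · have := min_le_right ((χ - θ) / 2) (χ / 10)
      linarith
  have hup : c.Adm N (χ + ε) := by
    obtain ⟨s, hs, hlt⟩ := exists_lt_of_csInf_lt hne (show sInf {s | c.Adm N s} < χ + ε by linarith)
    exact c.adm_mono hS hlt.le hs
  have hlo : ¬ c.Adm N (χ - ε) := fun h => by
    have := csInf_le hbd h
    linarith
  obtain ⟨C₁, hC₁, hfan⟩ := c.exists_fan hS hε (by linarith) hup hlo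
  obtain ⟨δ₁, C, hδ₁, hC, hsh⟩ := c.shadow hS hε h5 hup hC₁
  obtain ⟨x, z, hxz, g, hg, hf⟩ := c.limit_pair (θ := χ - 2 * ε) hS hδ₁ (C := C) (by
    intro n₀
    obtain ⟨n, hn, w, i, x, hF⟩ := hfan n₀
    obtain ⟨x', z', g, h1, h2⟩ := hsh n w i x hF
    exact ⟨n, hn, x', z', g, h1, h2⟩)
  refine ⟨x, z, hxz, g, ⟨C, hg⟩, fun f => ?_⟩
  obtain ⟨C', hC'⟩ := hf f
  refine ⟨C', fun i => (hC' i).trans ?_⟩
  have h0 : 0 ≤ C' := by
    have := hC' 0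
    simp only [Nat.cast_zero, mul_zero, neg_zero, Real.rpow_zero, mul_one] at this
    exact (abs_nonneg _).trans this
  refine mul_le_mul_of_nonneg_left ?_ h0
  apply Real.rpow_le_rpow_of_exponent_le hS.q_gt.le
  have : θ * (i : ℝ) ≤ (χ - 2 * ε) * i := mul_le_mul_of_nonneg_right h2 (Nat.cast_nonneg _)
  linarith

/-- The dichotomy. -/
theorem dichotomy [CompactSpace M] [BorelSpace M] {q : ℝ} {N : Γ → ℝ} (hS : Sz q N)
    {w : ℕ → Γ →₀ ℝ} {C₀ : ℝ} (hT : StrongT q N w C₀) :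
    (∃ h : ι → ι → c.A, (∀ i j, h i j = h j i) ∧ (∀ g : Γ, c.Rho g h = h) ∧
      ∃ b : ℝ, 0 < b ∧ ∀ (x : M) (a : ι → ℝ), c.Tan x a → b * ‖a‖ ^ 2 ≤ c.Qd h x a) ∨
    ∃ x z : M, x ≠ z ∧ ∃ g : ℕ → Γ, (∃ C : ℝ, ∀ i, N (g i) ≤ C * q ^ i) ∧
      ∀ f : c.A, ∃ C' : ℝ, ∀ i : ℕ, |f.1 (g i • x) - f.1 (g i • z)| ≤
        C' * q ^ (-((1 / (7 * (d : ℝ) + 13)) * i)) := by
  have h13 : (0 : ℝ) < 7 * d + 13 := by positivity
  have h12 : (0 : ℝ) < 7 * d + 12 := by positivity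
  set s : ℝ := 1 / (7 * (d : ℝ) + 12.5) with hs
  have h125 : (0 : ℝ) < 7 * d + 12.5 := by positivity
  by_cases hA : c.Adm N s
  · left
    refine c.invariant_metric hS hT (s := s) (by positivity) hA ?_
    rw [hs, mul_one_div, div_lt_one h125]
    norm_num
  · right
    refine c.pairs hS (θ := 1 / (7 * (d : ℝ) + 13)) (χ₁ := s) (by positivity) ?_ hA
    rw [hs]
    apply one_div_lt_one_div_of_lt h125
    norm_num

end Pool.Agent.H73.PZ.Calc
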