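import Mathlib
import Pool.Agent.H73.PZ.Cov

/-!
MODULE E1 (MP_d9606f_gt, closed manifolds): existence of a cover by chart balls.

Proof.  For every `c : M` take a smooth bump function `f c : SmoothBumpFunction (𝓡 d) c`
(`Nonempty` instance) and `r c = rIn`.  `extChartAt (𝓡 d) c` is `chartAt c` here (`𝓡 d` is the
identity, `mfld_simps`), `range (𝓡 d) = univ`, so `closedBall (chartAt c c) (r c) ⊆ ball .. rOut ⊆
target` (`SmoothBumpFunction.ball_subset`), `f c = 1` on the closed chart ball of radius `rIn`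
(`one_of_dist_le`), `tsupport (f c) ⊆ source` (`tsupport_subset_chartAt_source`), `f c` is smooth
(`SmoothBumpFunction.contMDiff`).  The sets `{x ∈ source | chartAt c x ∈ ball (chartAt c c) (r c / 2)}`
are open (`isOpen_inter_preimage`) and contain `c`: finitely many of them cover `M`
(`isCompact_univ.elim_nhds_subcover`), which gives the finite set `S`.
`SmoothPartitionOfUnity.exists_isSubordinate` for the open sets
`{x ∈ source | chartAt c x ∈ ball (chartAt c c) (r c)}`, `c ∈ S`, and the closed set `univ` gives `χ`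
(`finsum` over a finite type is a sum).
-/

open MeasureTheory Filter Bundle
open scoped Topology ContDiff Manifold

namespace Pool.Agent.H73.PZ

/-- The open chart ball. -/
theorem e1_isOpen (d : ℕ) (M : Type) [TopologicalSpace M] [ChartedSpace (Eu d) M] (c : M)
    (s : ℝ) : IsOpen {x : M | x ∈ (chartAt (Eu d) c).source ∧
      chartAt (Eu d) c x ∈ Metric.ball (chartAt (Eu d) c c) s} :=
  (chartAt (Eu d) c).isOpen_inter_preimage Metric.isOpen_ball

theorem exists_cov (d : ℕ) (M : Type) [TopologicalSpace M] [ChartedSpace (Eu d) M]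
    [IsManifold (𝓡 d) ∞ M] [CompactSpace M] [T2Space M] : Nonempty (Cov d M) := by
  classical
  have hne : ∀ c : M, Nonempty (SmoothBumpFunction (𝓡 d) c) := fun c => inferInstance
  have f : ∀ c : M, SmoothBumpFunction (𝓡 d) c := fun c => Classical.choice (hne c)
  have hr : ∀ c : M, 0 < (f c).rIn := fun c => (f c).rIn_pos
  have hopen : ∀ (c : M) (s : ℝ), IsOpen {x : M | x ∈ (chartAt (Eu d) c).source ∧
      chartAt (Eu d) c x ∈ Metric.ball (chartAt (Eu d) c c) s} := fun c s => e1_isOpen d M c s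
  have hmem : ∀ (c : M) (s : ℝ), 0 < s → {x : M | x ∈ (chartAt (Eu d) c).source ∧
      chartAt (Eu d) c x ∈ Metric.ball (chartAt (Eu d) c c) s} ∈ 𝓝 c := by
    intro c s hs
    exact (hopen c s).mem_nhds ⟨mem_chart_source _ c, Metric.mem_ball_self hs⟩
  obtain ⟨S, hS⟩ := CompactSpace.elim_nhds_subcover
    (fun c : M => {x : M | x ∈ (chartAt (Eu d) c).source ∧
      chartAt (Eu d) c x ∈ Metric.ball (chartAt (Eu d) c c) ((f c).rIn / 2)})
    (fun c => hmem c _ (half_pos (hr c)))
  have hcov : ∀ x : M, ∃ c : S, x ∈ (chartAt (Eu d) c.1).source ∧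
      chartAt (Eu d) c.1 x ∈ Metric.ball (chartAt (Eu d) c.1 c.1) ((f c.1).rIn / 2) := by
    intro x
    have hx : x ∈ (⊤ : Set M) := trivial
    rw [← hS] at hx
    obtain ⟨c, hc, hxc⟩ := Set.mem_iUnion₂.1 hx
    exact ⟨⟨c, hc⟩, hxc⟩
  obtain ⟨χ, hχ⟩ := SmoothPartitionOfUnity.exists_isSubordinate (𝓡 d) (s := (Set.univ : Set M))
    isClosed_univ
    (fun c : S => {x : M | x ∈ (chartAt (Eu d) c.1).source ∧
      chartAt (Eu d) c.1 x ∈ Metric.ball (chartAt (Eu d) c.1 c.1) ((f c.1).rIn)})
    (fun c => hopen c.1 _) (by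
      intro x _
      obtain ⟨c, h1, h2⟩ := hcov x
      refine Set.mem_iUnion.2 ⟨c, h1, ?_⟩
      refine Metric.ball_subset_ball ?_ h2
      have := hr c.1
      linarith)
  refine ⟨{
    S := S
    r := fun c => (f c.1).rIn
    r_pos := fun c => hr c.1
    ball := ?_
    cover := hcov
    β := fun c => f c.1
    β_smooth := fun c => (f c.1).contMDiff
    β_supp := fun c => (f c.1).tsupport_subset_chartAt_source
    β_one := ?_
    χ := fun c => χ c
    χ_smooth := fun c => (χ c).contMDiff
    χ_supp := fun c => hχ c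
    χ_sum := ?_ }⟩
  · intro c
    have h1 := (f c.1).ball_subset
    have h2 : Metric.closedBall (chartAt (Eu d) c.1 c.1) (f c.1).rIn ⊆
        Metric.ball (chartAt (Eu d) c.1 c.1) (f c.1).rOut :=
      Metric.closedBall_subset_ball (f c.1).rIn_lt_rOut
    intro y hy
    have h3 := h1 ⟨h2 hy, by simp⟩
    simpa using h3
  · intro c x hx hxc
    refine (f c.1).one_of_dist_le hx ?_
    simpa [Metric.mem_closedBall] using hxc
  · intro x
    have h1 := χ.sum_eq_one (Set.mem_univ x)
    rwa [finsum_eq_sum_of_fintype] at h1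

end Pool.Agent.H73.PZ
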