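import Mathlib
import Pool.Agent.H73.PZ.E2

/-!
MODULE E3 (MP_d9606f_gt, closed manifolds): vector fields and coordinate functions.

* `exists_vf`: for `f` smooth put `g x = χ x * fderiv ℝ (f ∘ (chartAt c).symm) (chartAt c x) e`.
  Smooth at `x ∈ source`: `w ↦ fderiv ℝ (f ∘ symm) w e` is smooth on the open target
  (`smooth_local`, `ContDiffOn.fderiv_of_isOpen`), compose with `contMDiffOn_chart`.  Smooth at
  `x ∉ tsupport χ` since it vanishes nearby (every point is of one of the two kinds, both sets are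
  open).  Derivation property: sum and product rules for `fderiv` at points of the target
  (`diff_local`); for `x ∉ source` both sides vanish since `χ x = 0`.  (`Derivation.mk'`.)
* `exists_coord`: `x ↦ β x * (chartAt c x) k`, smooth for the same reason.
-/

open MeasureTheory Filter Bundle
open scoped Topology ContDiff Manifold

namespace Pool.Agent.H73.PZ

variable {d : ℕ} {M : Type} [TopologicalSpace M] [ChartedSpace (Eu d) M] [IsManifold (𝓡 d) ∞ M]

private theorem e3_smooth (c : M) {χ : M → ℝ} (hχ : ContMDiff (𝓡 d) 𝓘(ℝ, ℝ) ∞ χ)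
    (hs : tsupport χ ⊆ (chartAt (Eu d) c).source) {g : Eu d → ℝ}
    (hg : ContDiffOn ℝ ∞ g (chartAt (Eu d) c).target) :
    (fun x => χ x * g (chartAt (Eu d) c x)) ∈ smoothA d M := by
  rw [mem_smoothA]
  intro x
  by_cases hx : x ∈ (chartAt (Eu d) c).source
  · have h1 : ContMDiffAt (𝓡 d) 𝓘(ℝ, ℝ) ∞ g (chartAt (Eu d) c x) :=
      (hg.contDiffAt ((chartAt (Eu d) c).open_target.mem_nhds
        ((chartAt (Eu d) c).map_source hx))).contMDiffAt
    have h2 : ContMDiffAt (𝓡 d) (𝓡 d) ∞ (chartAt (Eu d) c) x :=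
      contMDiffOn_chart.contMDiffAt ((chartAt (Eu d) c).open_source.mem_nhds hx)
    have h3 : ContMDiffAt (𝓡 d) 𝓘(ℝ, ℝ) ∞ (g ∘ (chartAt (Eu d) c)) x :=
      ContMDiffAt.comp x h1 h2
    exact (hχ x).mul h3
  · have hx' : x ∉ tsupport χ := fun h => hx (hs h)
    have h0 : ContMDiffAt (𝓡 d) 𝓘(ℝ, ℝ) ∞ (fun _ : M => (0 : ℝ)) x := contMDiffAt_const
    refine h0.congr_of_eventuallyEq ?_
    filter_upwards [(isClosed_tsupport χ).isOpen_compl.mem_nhds hx'] with y hy
    rw [image_eq_zero_of_notMem_tsupport hy, zero_mul]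

theorem exists_vf (c : M) {χ : M → ℝ} (hχ : ContMDiff (𝓡 d) 𝓘(ℝ, ℝ) ∞ χ)
    (hs : tsupport χ ⊆ (chartAt (Eu d) c).source) (e : Eu d) :
    ∃ X : Derivation ℝ (smoothA d M) (smoothA d M), ∀ (f : smoothA d M) (x : M),
      (X f).1 x = χ x *
        fderiv ℝ (f.1 ∘ (chartAt (Eu d) c).symm) (chartAt (Eu d) c x) e := by
  have hsm : ∀ f : smoothA d M, (fun x => χ x *
      fderiv ℝ (f.1 ∘ (chartAt (Eu d) c).symm) (chartAt (Eu d) c x) e) ∈ smoothA d M := by
    intro f
    have h1 : ContDiffOn ℝ ∞ (fderiv ℝ (f.1 ∘ (chartAt (Eu d) c).symm))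
        (chartAt (Eu d) c).target :=
      (smooth_local f c).fderiv_of_isOpen (chartAt (Eu d) c).open_target (by simp)
    have h2 : ContDiffOn ℝ ∞ (fun w => fderiv ℝ (f.1 ∘ (chartAt (Eu d) c).symm) w e)
        (chartAt (Eu d) c).target := h1.clm_apply contDiffOn_const
    exact e3_smooth c hχ hs h2
  have hz : ∀ x, x ∉ (chartAt (Eu d) c).source → χ x = 0 := fun x hx =>
    image_eq_zero_of_notMem_tsupport (fun h => hx (hs h))
  have hadd : ∀ (f g : smoothA d M) (x : M), x ∈ (chartAt (Eu d) c).source →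
      fderiv ℝ ((f + g).1 ∘ (chartAt (Eu d) c).symm) (chartAt (Eu d) c x) e =
      fderiv ℝ (f.1 ∘ (chartAt (Eu d) c).symm) (chartAt (Eu d) c x) e +
      fderiv ℝ (g.1 ∘ (chartAt (Eu d) c).symm) (chartAt (Eu d) c x) e := by
    intro f g x hx
    have hw := (chartAt (Eu d) c).map_source hx
    have e1 : ((f + g).1 ∘ (chartAt (Eu d) c).symm) =
        (f.1 ∘ (chartAt (Eu d) c).symm) + (g.1 ∘ (chartAt (Eu d) c).symm) := rfl
    rw [e1, fderiv_add (diff_local f c hw) (diff_local g c hw)]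
    rfl
  have hsmul : ∀ (r : ℝ) (f : smoothA d M) (x : M), x ∈ (chartAt (Eu d) c).source →
      fderiv ℝ ((r • f).1 ∘ (chartAt (Eu d) c).symm) (chartAt (Eu d) c x) e =
      r * fderiv ℝ (f.1 ∘ (chartAt (Eu d) c).symm) (chartAt (Eu d) c x) e := by
    intro r f x hx
    have hw := (chartAt (Eu d) c).map_source hx
    have e1 : ((r • f).1 ∘ (chartAt (Eu d) c).symm) =
        r • (f.1 ∘ (chartAt (Eu d) c).symm) := rfl
    rw [e1, fderiv_const_smul (diff_local f c hw)]
    rfl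
  have hmul : ∀ (f g : smoothA d M) (x : M), x ∈ (chartAt (Eu d) c).source →
      fderiv ℝ ((f * g).1 ∘ (chartAt (Eu d) c).symm) (chartAt (Eu d) c x) e =
      f.1 x * fderiv ℝ (g.1 ∘ (chartAt (Eu d) c).symm) (chartAt (Eu d) c x) e +
      g.1 x * fderiv ℝ (f.1 ∘ (chartAt (Eu d) c).symm) (chartAt (Eu d) c x) e := by
    intro f g x hx
    have hw := (chartAt (Eu d) c).map_source hx
    have e1 : ((f * g).1 ∘ (chartAt (Eu d) c).symm) =
        (f.1 ∘ (chartAt (Eu d) c).symm) * (g.1 ∘ (chartAt (Eu d) c).symm) := rfl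
    rw [e1, fderiv_mul (diff_local f c hw) (diff_local g c hw)]
    have e2 : (chartAt (Eu d) c).symm (chartAt (Eu d) c x) = x := (chartAt (Eu d) c).left_inv hx
    simp only [ContinuousLinearMap.add_apply, ContinuousLinearMap.smul_apply, smul_eq_mul,
      Function.comp_apply, e2]
  let L : smoothA d M →ₗ[ℝ] smoothA d M :=
    { toFun := fun f => ⟨_, hsm f⟩
      map_add' := fun f g => by
        apply Subtype.ext
        funext x
        change χ x * fderiv ℝ ((f + g).1 ∘ (chartAt (Eu d) c).symm) (chartAt (Eu d) c x) e =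
          χ x * fderiv ℝ (f.1 ∘ (chartAt (Eu d) c).symm) (chartAt (Eu d) c x) e +
          χ x * fderiv ℝ (g.1 ∘ (chartAt (Eu d) c).symm) (chartAt (Eu d) c x) e
        by_cases hx : x ∈ (chartAt (Eu d) c).source
        · rw [hadd f g x hx]; ring
        · rw [hz x hx]; ring
      map_smul' := fun r f => by
        apply Subtype.ext
        funext x
        change χ x * fderiv ℝ ((r • f).1 ∘ (chartAt (Eu d) c).symm) (chartAt (Eu d) c x) e =
          r * (χ x * fderiv ℝ (f.1 ∘ (chartAt (Eu d) c).symm) (chartAt (Eu d) c x) e)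
        by_cases hx : x ∈ (chartAt (Eu d) c).source
        · rw [hsmul r f x hx]; ring
        · rw [hz x hx]; ring }
  refine ⟨Derivation.mk' L fun f g => ?_, fun f x => rfl⟩
  apply Subtype.ext
  funext x
  change χ x * fderiv ℝ ((f * g).1 ∘ (chartAt (Eu d) c).symm) (chartAt (Eu d) c x) e =
    f.1 x * (χ x * fderiv ℝ (g.1 ∘ (chartAt (Eu d) c).symm) (chartAt (Eu d) c x) e) +
    g.1 x * (χ x * fderiv ℝ (f.1 ∘ (chartAt (Eu d) c).symm) (chartAt (Eu d) c x) e)
  by_cases hx : x ∈ (chartAt (Eu d) c).source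
  · rw [hmul f g x hx]; ring
  · rw [hz x hx]; ring

theorem exists_coord (c : M) {β : M → ℝ} (hβ : ContMDiff (𝓡 d) 𝓘(ℝ, ℝ) ∞ β)
    (hs : tsupport β ⊆ (chartAt (Eu d) c).source) (k : Fin d) :
    ∃ ψ : smoothA d M, ∀ x : M, ψ.1 x = β x * (chartAt (Eu d) c x) k := by
  have h : ContDiffOn ℝ ∞ (fun w : Eu d => w k) (chartAt (Eu d) c).target := by
    have : ContDiff ℝ ∞ (fun w : Eu d => w k) := by fun_prop
    exact this.contDiffOn
  exact ⟨⟨_, e3_smooth c hβ hs h⟩, fun x => rfl⟩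

end Pool.Agent.H73.PZ
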