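import Mathlib
import Pool.Agent.H73.PZ.E2

open MeasureTheory Filter Bundle
open scoped Topology ContDiff Manifold

/-!
MODULE E4 (MP_d9606f_gt, closed manifolds): the two frame identities.

Notation: `φ c = chartAt c.1`, `U c = {x ∈ source | φ c x ∈ ball (φ c c) (r c)}` (open).
* `LF_lemma`.  Let `x = (φ c).symm w`.  The sum over `(c', none)` vanishes (`hX0`).  For
  `j = (c', some k)` the term is `fderiv (ψ j ∘ (φ c).symm) w u * χ c' x *
  fderiv (f ∘ (φ c').symm) (φ c' x) e_k`.  If `χ c' x ≠ 0` then `x ∈ U c'` (`χ_supp`,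
  `subset_tsupport`), so near `w` the function `ψ j ∘ (φ c).symm` is `(T w') k`,
  `T = φ c' ∘ (φ c).symm` (`β_one` on a neighbourhood), hence
  `fderiv (ψ j ∘ (φ c).symm) w u = (fderiv T w u) k` (`trans_diff`), and
  `∑_k (fderiv T w u) k * fderiv (f ∘ (φ c').symm) (T w) e_k = fderiv (f ∘ (φ c').symm) (T w)
  (fderiv T w u) = fderiv (f ∘ (φ c).symm) w u` (chain rule; `f ∘ (φ c').symm ∘ T = f ∘ (φ c).symm`
  near `w`).  So the sum over `k` is `χ c' x * fderiv (f ∘ (φ c).symm) w u` for every `c'`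
  (also if `χ c' x = 0`), and `χ_sum`.
* `LF2_lemma`.  `x ∈ U c`, `j = (c', some l)` (for `j = (c', none)` both sides are `0`).  If
  `χ c' x = 0` both sides are `0`.  Otherwise `x ∈ U c'`; with `w' = φ c' x`,
  `T = φ c ∘ (φ c').symm`, near `w'`: `f ∘ (φ c').symm = (f ∘ (φ c).symm) ∘ T` and
  `ψ (c, some k) ∘ (φ c').symm = T · k`.  So
  `fderiv (f ∘ (φ c').symm) w' e_l = fderiv (f ∘ (φ c).symm) (φ c x) (fderiv T w' e_l)
   = ∑_k fderiv (f ∘ (φ c).symm) (φ c x) e_k * fderiv (ψ (c, some k) ∘ (φ c').symm) w' e_l`;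
  multiply by `χ c' x`.
-/

namespace Pool.Agent.H73.PZ

variable {d : ℕ} {M : Type} [TopologicalSpace M] [ChartedSpace (Eu d) M] [IsManifold (𝓡 d) ∞ M]

private theorem E4_expand (L : Eu d →L[ℝ] ℝ) (u : Eu d) :
    L u = ∑ k, u k * L (EuclideanSpace.single k 1) := by
  have h := (EuclideanSpace.basisFun (Fin d) ℝ).sum_repr u
  conv_lhs => rw [← h]
  rw [map_sum]
  refine Finset.sum_congr rfl fun k _ => ?_
  rw [map_smul, smul_eq_mul, EuclideanSpace.basisFun_apply, EuclideanSpace.basisFun_repr]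

private theorem E4_key (C : Cov d M) (ψ : C.S × Option (Fin d) → smoothA d M)
    (hψ : ∀ (c : C.S) (k : Fin d) (x : M),
      (ψ (c, some k)).1 x = C.β c x * (chartAt (Eu d) c.1 x) k)
    (c c' : C.S) (f : smoothA d M) (x : M) (hx : x ∈ (chartAt (Eu d) c.1).source)
    (hx' : x ∈ (chartAt (Eu d) c'.1).source)
    (hb : chartAt (Eu d) c'.1 x ∈ Metric.ball (chartAt (Eu d) c'.1 c'.1) (C.r c')) (u : Eu d) :
    fderiv ℝ (f.1 ∘ (chartAt (Eu d) c.1).symm) (chartAt (Eu d) c.1 x) u =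
      ∑ k, fderiv ℝ ((ψ (c', some k)).1 ∘ (chartAt (Eu d) c.1).symm) (chartAt (Eu d) c.1 x) u *
        fderiv ℝ (f.1 ∘ (chartAt (Eu d) c'.1).symm) (chartAt (Eu d) c'.1 x)
          (EuclideanSpace.single k 1) := by
  set φ := chartAt (Eu d) c.1 with hφ
  set φ' := chartAt (Eu d) c'.1 with hφ'
  set w := φ x with hw
  have hwt : w ∈ φ.target := φ.map_source hx
  have hwx : φ.symm w = x := φ.left_inv hx
  have hT : DifferentiableAt ℝ (fun v => φ' (φ.symm v)) w :=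
    trans_diff c.1 c'.1 hwt (by rw [← hφ, hwx]; exact hx')
  -- neighbourhoods
  have hc1 : ContinuousAt φ.symm w := φ.symm.continuousAt hwt
  have hn1 : ∀ᶠ v in 𝓝 w, φ.symm v ∈ φ'.source := by
    apply hc1.eventually
    rw [hwx]
    exact φ'.open_source.mem_nhds hx'
  have hn2 : ∀ᶠ v in 𝓝 w, φ' (φ.symm v) ∈ Metric.ball (φ' c'.1) (C.r c') := by
    apply hT.continuousAt.eventually
    change Metric.ball (φ' c'.1) (C.r c') ∈ 𝓝 (φ' (φ.symm w))
    rw [hwx]
    exact Metric.isOpen_ball.mem_nhds hb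
  have hA : ∀ k : Fin d, fderiv ℝ ((ψ (c', some k)).1 ∘ φ.symm) w u =
      (fderiv ℝ (fun v => φ' (φ.symm v)) w u) k := by
    intro k
    have he : ((ψ (c', some k)).1 ∘ φ.symm) =ᶠ[𝓝 w] (fun v => φ' (φ.symm v) k) := by
      filter_upwards [hn1, hn2] with v h1 h2
      rw [Function.comp_apply, hψ, C.β_one c' _ h1 (Metric.ball_subset_closedBall h2), one_mul]
    rw [he.fderiv_eq]
    have h3 : HasFDerivAt (fun v => φ' (φ.symm v) k)
        ((EuclideanSpace.proj k : Eu d →L[ℝ] ℝ).comp (fderiv ℝ (fun v => φ' (φ.symm v)) w)) w :=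
      (EuclideanSpace.proj k : Eu d →L[ℝ] ℝ).hasFDerivAt.comp w hT.hasFDerivAt
    rw [h3.fderiv]
    rfl
  have hB : fderiv ℝ (f.1 ∘ φ.symm) w u =
      fderiv ℝ (f.1 ∘ φ'.symm) (φ' x) (fderiv ℝ (fun v => φ' (φ.symm v)) w u) := by
    have he : (f.1 ∘ φ.symm) =ᶠ[𝓝 w] ((f.1 ∘ φ'.symm) ∘ (fun v => φ' (φ.symm v))) := by
      filter_upwards [hn1] with v h1
      rw [Function.comp_apply, Function.comp_apply, Function.comp_apply, φ'.left_inv h1]
    rw [he.fderiv_eq]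
    have hd : DifferentiableAt ℝ (f.1 ∘ φ'.symm) (φ' (φ.symm w)) := by
      rw [hwx]
      exact diff_local f c'.1 (φ'.map_source hx')
    rw [fderiv_comp w hd hT, hwx]
    rfl
  rw [hB, E4_expand]
  exact Finset.sum_congr rfl fun k _ => by rw [hA]

private theorem E4_chi (C : Cov d M) (c : C.S) (x : M) (h : C.χ c x ≠ 0) :
    x ∈ (chartAt (Eu d) c.1).source ∧
      chartAt (Eu d) c.1 x ∈ Metric.ball (chartAt (Eu d) c.1 c.1) (C.r c) :=
  C.χ_supp c (subset_tsupport _ h)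

theorem LF_lemma (C : Cov d M) (ψ : C.S × Option (Fin d) → smoothA d M)
    (X : C.S × Option (Fin d) → Derivation ℝ (smoothA d M) (smoothA d M))
    (hψ : ∀ (c : C.S) (k : Fin d) (x : M),
      (ψ (c, some k)).1 x = C.β c x * (chartAt (Eu d) c.1 x) k)
    (hX : ∀ (c : C.S) (k : Fin d) (f : smoothA d M) (x : M), (X (c, some k) f).1 x =
      C.χ c x * fderiv ℝ (f.1 ∘ (chartAt (Eu d) c.1).symm) (chartAt (Eu d) c.1 x)
        (EuclideanSpace.single k 1))
    (hX0 : ∀ (c : C.S) (f : smoothA d M), X (c, none) f = 0)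
    (c : C.S) (f : smoothA d M) (w : Eu d) (hw : w ∈ (chartAt (Eu d) c.1).target) (u : Eu d) :
    fderiv ℝ (f.1 ∘ (chartAt (Eu d) c.1).symm) w u =
      ∑ j, fderiv ℝ ((ψ j).1 ∘ (chartAt (Eu d) c.1).symm) w u *
        (X j f).1 ((chartAt (Eu d) c.1).symm w) := by
  obtain ⟨x, hx⟩ : ∃ x, x = (chartAt (Eu d) c.1).symm w := ⟨_, rfl⟩
  have hxs : x ∈ (chartAt (Eu d) c.1).source := by
    rw [hx]; exact (chartAt (Eu d) c.1).map_target hw
  have hwx : w = chartAt (Eu d) c.1 x := by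
    rw [hx, (chartAt (Eu d) c.1).right_inv hw]
  rw [← hx, Fintype.sum_prod_type]
  have h1 : ∀ c' : C.S, ∑ o : Option (Fin d),
      fderiv ℝ ((ψ (c', o)).1 ∘ (chartAt (Eu d) c.1).symm) w u * (X (c', o) f).1 x =
      C.χ c' x * fderiv ℝ (f.1 ∘ (chartAt (Eu d) c.1).symm) w u := by
    intro c'
    rw [Fintype.sum_option, hX0]
    have e0 : ((0 : smoothA d M) : M → ℝ) x = 0 := rfl
    rw [e0, mul_zero, zero_add]
    by_cases hχ : C.χ c' x = 0
    · rw [hχ, zero_mul]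
      refine Finset.sum_eq_zero fun k _ => ?_
      rw [hX, hχ, zero_mul, mul_zero]
    · obtain ⟨h2, h3⟩ := E4_chi C c' x hχ
      rw [hwx, E4_key C ψ hψ c c' f x hxs h2 h3 u, Finset.mul_sum]
      refine Finset.sum_congr rfl fun k _ => ?_
      rw [hX]
      ring
  rw [Finset.sum_congr rfl fun c' _ => h1 c', ← Finset.sum_mul, C.χ_sum, one_mul]

theorem LF2_lemma (C : Cov d M) (ψ : C.S × Option (Fin d) → smoothA d M)
    (X : C.S × Option (Fin d) → Derivation ℝ (smoothA d M) (smoothA d M))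
    (hψ : ∀ (c : C.S) (k : Fin d) (x : M),
      (ψ (c, some k)).1 x = C.β c x * (chartAt (Eu d) c.1 x) k)
    (hX : ∀ (c : C.S) (k : Fin d) (f : smoothA d M) (x : M), (X (c, some k) f).1 x =
      C.χ c x * fderiv ℝ (f.1 ∘ (chartAt (Eu d) c.1).symm) (chartAt (Eu d) c.1 x)
        (EuclideanSpace.single k 1))
    (hX0 : ∀ (c : C.S) (f : smoothA d M), X (c, none) f = 0)
    (c : C.S) (f : smoothA d M) (j : C.S × Option (Fin d)) (x : M)
    (hx : x ∈ (chartAt (Eu d) c.1).source)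
    (hb : chartAt (Eu d) c.1 x ∈ Metric.ball (chartAt (Eu d) c.1 c.1) (C.r c)) :
    (X j f).1 x = ∑ k, fderiv ℝ (f.1 ∘ (chartAt (Eu d) c.1).symm) (chartAt (Eu d) c.1 x)
      (EuclideanSpace.single k 1) * (X j (ψ (c, some k))).1 x := by
  obtain ⟨c', o⟩ := j
  rcases o with _ | l
  · have e0 : ((0 : smoothA d M) : M → ℝ) x = 0 := rfl
    rw [hX0, e0]
    symm
    refine Finset.sum_eq_zero fun k _ => ?_
    rw [hX0, e0, mul_zero]
  · rw [hX]
    by_cases hχ : C.χ c' x = 0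
    · rw [hχ, zero_mul]
      symm
      refine Finset.sum_eq_zero fun k _ => ?_
      rw [hX, hχ, zero_mul, mul_zero]
    · obtain ⟨h2, h3⟩ := E4_chi C c' x hχ
      rw [E4_key C ψ hψ c' c f x h2 hx hb (EuclideanSpace.single l 1), Finset.mul_sum]
      refine Finset.sum_congr rfl fun k _ => ?_
      rw [hX]
      ring

end Pool.Agent.H73.PZ
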