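import Mathlib
import Pool.Agent.H73.PZ.E1
import Pool.Agent.H73.PZ.E3
import Pool.Agent.H73.PZ.E4

/-!
Every closed manifold is framed (MP_d9606f_gt; assembly, helper73).
-/

open MeasureTheory Filter Bundle
open scoped Topology ContDiff Manifold

namespace Pool.Agent.H73.PZ

noncomputable section

variable (d : ℕ) (M : Type) [TopologicalSpace M] [ChartedSpace (Eu d) M] [IsManifold (𝓡 d) ∞ M]
  [CompactSpace M] [T2Space M]

theorem exists_frame : ∃ F : Fr d M, F.A = smoothA d M ∧
    ∀ c : F.κ, ∃ x₀ : M, F.φ c = chartAt (Eu d) x₀ := by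
  classical
  obtain ⟨C⟩ := exists_cov d M
  choose V hV using fun (c : C.S) (k : Fin d) => exists_vf (d := d) c.1 (C.χ_smooth c)
    ((C.χ_supp c).trans fun x hx => hx.1) (EuclideanSpace.single k 1)
  choose Y hY using fun (c : C.S) (k : Fin d) => exists_coord (d := d) c.1 (C.β_smooth c)
    (C.β_supp c) k
  let ψ : C.S × Option (Fin d) → smoothA d M := fun j =>
    match j with
    | (c, none) => ⟨C.β c, C.β_smooth c⟩
    | (c, some k) => Y c k
  let X : C.S × Option (Fin d) → Derivation ℝ (smoothA d M) (smoothA d M) := fun j =>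
    match j with
    | (_, none) => 0
    | (c, some k) => V c k
  have hψ : ∀ (c : C.S) (k : Fin d) (x : M),
      (ψ (c, some k)).1 x = C.β c x * (chartAt (Eu d) c.1 x) k := fun c k x => hY c k x
  have hX : ∀ (c : C.S) (k : Fin d) (f : smoothA d M) (x : M), (X (c, some k) f).1 x =
      C.χ c x * fderiv ℝ (f.1 ∘ (chartAt (Eu d) c.1).symm) (chartAt (Eu d) c.1 x)
        (EuclideanSpace.single k 1) := fun c k f x => hV c k f x
  have hX0 : ∀ (c : C.S) (f : smoothA d M), X (c, none) f = 0 := fun c f => rfl
  refine ⟨{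
    κ := C.S
    finκ := inferInstance
    φ := fun c => chartAt (Eu d) c.1
    z := fun c => chartAt (Eu d) c.1 c.1
    r := C.r
    r_pos := C.r_pos
    ball := C.ball
    cover := C.cover
    A := smoothA d M
    smooth := fun f c => smooth_local f c.1
    of_smooth := fun f h => smooth_of_local C f h
    ι := C.S × Option (Fin d)
    finι := inferInstance
    ψ := ψ
    co := fun c k => (c, some k)
    ψ_co := fun c k x hx hb => by rw [hψ, C.β_one c x hx hb, one_mul]
    sep := ?_
    X := X
    LF := LF_lemma C ψ X hψ hX hX0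
    LF2 := LF2_lemma C ψ X hψ hX hX0 }, rfl, fun c => ⟨c.1, rfl⟩⟩
  intro x y h
  obtain ⟨c, hx, hb⟩ := C.cover x
  have hb' : chartAt (Eu d) c.1 x ∈ Metric.closedBall (chartAt (Eu d) c.1 c.1) (C.r c) :=
    Metric.ball_subset_closedBall (Metric.ball_subset_ball (by linarith [C.r_pos c]) hb)
  have h1 : C.β c x = 1 := C.β_one c x hx hb'
  have h2 : C.β c y = 1 := by
    have := h (c, none)
    change C.β c x = C.β c y at this
    rw [← this, h1]
  have hy : y ∈ (chartAt (Eu d) c.1).source := by
    apply C.β_supp c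
    apply subset_tsupport
    rw [Function.mem_support, h2]
    exact one_ne_zero
  apply (chartAt (Eu d) c.1).injOn hx hy
  ext k
  have := h (c, some k)
  rwa [hψ, hψ, h1, h2, one_mul, one_mul] at this

end

end Pool.Agent.H73.PZ
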