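import Mathlib
import Pool.Agent.H73.PZ.Fr

/-!
MODULE F2 (MP_d9606f_gt, paper Part C: the chain rule for a smooth map `g : M → M`).

Proof.  Choose `c` with `x ∈ U c`, `c'` with `g x ∈ U c'` (`F.cover`, half balls are in the balls),
`w = φ c x`, and `G = φ c' ∘ g ∘ (φ c).symm`.  Near `w` the point `g ((φ c).symm w')` stays in
`source c'` with image in `ball (z c') (r c')` (continuity), so by `ψ_co` the coordinates of `G` are
`G w' k = ((ψ (co c' k)) ∘ g ∘ (φ c).symm) w'` near `w`: `G` is differentiable at `w` (`hA`,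
`F.smooth`), with `(fderiv G w u) k = fderiv (ψ (co c' k) ∘ g ∘ (φ c).symm) w u`.
Let `ξ = ∑_k (X j (ψ (co c k))) x • e_k ∈ Eu d`.  `LF2` says, for every `h ∈ A`,
`(X j h) x = fderiv (h ∘ (φ c).symm) w ξ` (linearity of `fderiv` in the vector).
For `h = f ∘ g`: near `w`, `f ∘ g ∘ (φ c).symm = (f ∘ (φ c').symm) ∘ G`, so
`(X j (f ∘ g)) x = fderiv (f ∘ (φ c').symm) (G w) (fderiv G w ξ)
 = ∑_l fderiv (ψ l ∘ (φ c').symm) (G w) (fderiv G w ξ) * (X l f) (g x)` (`LF`, `G w = φ c' (g x)`)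
`= ∑_l fderiv (ψ l ∘ g ∘ (φ c).symm) w ξ * (X l f) (g x) = ∑_l (X j (ψ l ∘ g)) x * (X l f) (g x)`
(the chain rule for `ψ l` and `LF2` for `ψ l ∘ g`).
-/

open MeasureTheory Filter
open scoped Topology ContDiff

namespace Pool.Agent.H73.PZ.Fr

variable {d : ℕ} {M : Type} [TopologicalSpace M] (F : Fr d M)

private theorem F2_diff (f : F.A) (c : F.κ) {w : Eu d} (hw : w ∈ (F.φ c).target) :
    DifferentiableAt ℝ (f.1 ∘ (F.φ c).symm) w :=
  ((F.smooth f c).differentiableOn (by simp)).differentiableAt ((F.φ c).open_target.mem_nhds hw)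

theorem chain {g : M → M} (hg : Continuous g) (hA : ∀ f ∈ F.A, f ∘ g ∈ F.A) (f : F.A) (j : F.ι)
    (x : M) :
    (F.X j ⟨f.1 ∘ g, hA _ f.2⟩).1 x =
      ∑ l, (F.X j ⟨(F.ψ l).1 ∘ g, hA _ (F.ψ l).2⟩).1 x * (F.X l f).1 (g x) := by
  obtain ⟨c, hxs, hxb⟩ := F.cover x
  obtain ⟨c', hgs, hgb⟩ := F.cover (g x)
  have hxb' : F.φ c x ∈ Metric.ball (F.z c) (F.r c) :=
    Metric.ball_subset_ball (by linarith [F.r_pos c]) hxb
  have hgb' : F.φ c' (g x) ∈ Metric.ball (F.z c') (F.r c') :=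
    Metric.ball_subset_ball (by linarith [F.r_pos c']) hgb
  set w : Eu d := F.φ c x with hw
  have hwt : w ∈ (F.φ c).target := (F.φ c).map_source hxs
  have hPw : (F.φ c).symm w = x := (F.φ c).left_inv hxs
  set G : Eu d → Eu d := fun v => F.φ c' (g ((F.φ c).symm v)) with hG
  have hGw : G w = F.φ c' (g x) := by rw [hG]; dsimp only; rw [hPw]
  have hPc : ContinuousAt (F.φ c).symm w := (F.φ c).continuousAt_symm hwt
  have hgP : ContinuousAt (fun v => g ((F.φ c).symm v)) w := hg.continuousAt.comp hPc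
  have hV : IsOpen ((F.φ c').source ∩ F.φ c' ⁻¹' Metric.ball (F.z c') (F.r c')) :=
    (F.φ c').isOpen_inter_preimage Metric.isOpen_ball
  have hev : ∀ᶠ v in 𝓝 w, g ((F.φ c).symm v) ∈
      (F.φ c').source ∩ F.φ c' ⁻¹' Metric.ball (F.z c') (F.r c') := by
    apply hgP.eventually_mem
    apply hV.mem_nhds
    rw [hPw]
    exact ⟨hgs, hgb'⟩
  have hGd : DifferentiableAt ℝ G w := by
    rw [differentiableAt_euclidean]
    intro k
    have h1 : DifferentiableAt ℝ (((F.ψ (F.co c' k)).1 ∘ g) ∘ (F.φ c).symm) w :=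
      F2_diff F ⟨(F.ψ (F.co c' k)).1 ∘ g, hA _ (F.ψ (F.co c' k)).2⟩ c hwt
    apply h1.congr_of_eventuallyEq
    filter_upwards [hev] with v hv
    exact (F.ψ_co c' k _ hv.1 (Metric.ball_subset_closedBall hv.2)).symm
  set ξ : Eu d := ∑ k, (F.X j (F.ψ (F.co c k))).1 x • EuclideanSpace.single k (1 : ℝ) with hξ
  have hLF2 : ∀ h : F.A, (F.X j h).1 x = fderiv ℝ (h.1 ∘ (F.φ c).symm) w ξ := by
    intro h
    rw [F.LF2 c h j x hxs hxb', hξ, map_sum]
    apply Finset.sum_congr rfl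
    intro k _
    rw [map_smul, smul_eq_mul, mul_comm]
  have hchain : ∀ h : F.A, fderiv ℝ ((h.1 ∘ g) ∘ (F.φ c).symm) w ξ =
      fderiv ℝ (h.1 ∘ (F.φ c').symm) (G w) (fderiv ℝ G w ξ) := by
    intro h
    have h1 : (h.1 ∘ g) ∘ (F.φ c).symm =ᶠ[𝓝 w] (h.1 ∘ (F.φ c').symm) ∘ G := by
      filter_upwards [hev] with v hv
      show h.1 (g ((F.φ c).symm v)) = h.1 ((F.φ c').symm (F.φ c' (g ((F.φ c).symm v))))
      rw [(F.φ c').left_inv hv.1]
    rw [h1.fderiv_eq, fderiv_comp w _ hGd]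
    · rfl
    · apply F2_diff
      rw [hGw]
      exact (F.φ c').map_source hgs
  have hP'G : (F.φ c').symm (G w) = g x := by
    rw [hGw]
    exact (F.φ c').left_inv hgs
  have hGt : G w ∈ (F.φ c').target := by
    rw [hGw]
    exact (F.φ c').map_source hgs
  rw [hLF2]
  show fderiv ℝ ((f.1 ∘ g) ∘ (F.φ c).symm) w ξ = _
  rw [hchain f, F.LF c' f (G w) hGt, hP'G]
  apply Finset.sum_congr rfl
  intro l _
  congr 1
  rw [hLF2]
  exact (hchain (F.ψ l)).symm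

end Pool.Agent.H73.PZ.Fr
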