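import Mathlib
import Pool.Agent.H73.PZ.F0

/-!
MODULE F3 (MP_d9606f_gt, paper Part C, (L)).

Proof.  `δ` from `common_ball`.  For `x, y` in a common ball of the chart `c`, `w = φ c x`,
`w' = φ c y` are in the convex set `ball (z c) (r c)`, and for `w''` in it `LF` gives
`|fderiv (f ∘ φ.symm) w'' u| ≤ ∑_j ‖fderiv (ψ j ∘ φ.symm) w''‖ ‖u‖ Λ ≤ (∑_j C_j) Λ ‖u‖`
(`fderiv_bdd` for `ψ j`).  Mean value inequality (`Convex.norm_image_sub_le_of_norm_fderiv_le`):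
`|f x - f y| ≤ C Λ ‖w - w'‖`.  And `‖w - w'‖ ≤ √d max_k |w k - w' k| ≤ √d dst x y` by `ψ_co`
(`EuclideanSpace.norm_eq`).  (`Λ ≥ 0` if `ι` and `M` are non-empty; if `ι` is empty the derivative
vanishes by `LF` and `f x = f y`, the right hand side is `L Λ 0`: there `dst = 0`; take care of
`Λ < 0`: then `ι` is empty or `M` is empty.)
-/

open MeasureTheory Filter
open scoped Topology ContDiff

namespace Pool.Agent.H73.PZ.Fr

variable {d : ℕ} {M : Type} [TopologicalSpace M] (F : Fr d M)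

private theorem f3_norm {d : ℕ} (v : Eu d) {m : ℝ} (hm : 0 ≤ m) (h : ∀ k, |v k| ≤ m) :
    ‖v‖ ≤ √(d : ℝ) * m := by
  rw [EuclideanSpace.norm_eq]
  have h1 : ∑ k, ‖v k‖ ^ 2 ≤ (d : ℝ) * m ^ 2 := by
    calc ∑ k, ‖v k‖ ^ 2 ≤ ∑ _k : Fin d, m ^ 2 := by
          apply Finset.sum_le_sum
          intro k _
          rw [Real.norm_eq_abs]
          exact pow_le_pow_left₀ (abs_nonneg _) (h k) 2
      _ = (d : ℝ) * m ^ 2 := by simp
  calc √(∑ k, ‖v k‖ ^ 2) ≤ √((d : ℝ) * m ^ 2) := Real.sqrt_le_sqrt h1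
    _ = √(d : ℝ) * m := by
      rw [Real.sqrt_mul (Nat.cast_nonneg d), Real.sqrt_sq hm]

theorem lip [CompactSpace M] : ∃ L δ : ℝ, 0 ≤ L ∧ 0 < δ ∧ ∀ (f : F.A) (Λ : ℝ),
    (∀ i x, |(F.X i f).1 x| ≤ Λ) → ∀ x y : M, F.dst x y ≤ δ →
    |f.1 x - f.1 y| ≤ L * Λ * F.dst x y := by
  obtain ⟨δ, hδ, hcb⟩ := F.common_ball
  choose C hC0 hC using fun (c : F.κ) (j : F.ι) => F.fderiv_bdd (F.ψ j) c
  have hS0 : ∀ c, 0 ≤ ∑ j, C c j := fun c => Finset.sum_nonneg fun j _ => hC0 c j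
  have hSS0 : 0 ≤ ∑ c, ∑ j, C c j := Finset.sum_nonneg fun c _ => hS0 c
  refine ⟨(∑ c, ∑ j, C c j) * √(d : ℝ), δ, mul_nonneg hSS0 (Real.sqrt_nonneg _), hδ, ?_⟩
  intro f Λ hΛ x y hxy
  obtain ⟨c, hxs, hys, hxb, hyb⟩ := hcb x y hxy
  set w := F.φ c x with hw
  set w' := F.φ c y with hw'
  have hdst0 : 0 ≤ F.dst x y := norm_nonneg _
  have hxc := Metric.ball_subset_closedBall hxb
  have hyc := Metric.ball_subset_closedBall hyb
  -- distance in the chart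
  have hww : ‖w - w'‖ ≤ √(d : ℝ) * F.dst x y := by
    apply f3_norm _ hdst0
    intro k
    have h1 : (w - w') k = (F.ψ (F.co c k)).1 x - (F.ψ (F.co c k)).1 y := by
      rw [F.ψ_co c k x hxs hxc, F.ψ_co c k y hys hyc]
      rfl
    rw [h1]
    exact norm_le_pi_norm (fun j => (F.ψ j).1 x - (F.ψ j).1 y : F.ι → ℝ) (F.co c k)
  -- signs
  have hcase : (∑ j, C c j) * Λ ≤ (∑ c, ∑ j, C c j) * Λ ∧ 0 ≤ (∑ j, C c j) * Λ := by
    rcases isEmpty_or_nonempty F.ι with hι | ⟨⟨i⟩⟩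
    · simp
    · have hΛ0 : 0 ≤ Λ := (abs_nonneg _).trans (hΛ i x)
      refine ⟨mul_le_mul_of_nonneg_right ?_ hΛ0, mul_nonneg (hS0 c) hΛ0⟩
      exact Finset.single_le_sum (f := fun c => ∑ j, C c j) (fun c _ => hS0 c)
        (Finset.mem_univ c)
  -- mean value inequality
  have hmv : ‖(f.1 ∘ (F.φ c).symm) w - (f.1 ∘ (F.φ c).symm) w'‖ ≤
      ((∑ j, C c j) * Λ) * ‖w - w'‖ := by
    apply Convex.norm_image_sub_le_of_norm_fderiv_le (𝕜 := ℝ)
      (s := Metric.ball (F.z c) (F.r c)) _ _ (convex_ball _ _) hyb hxb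
    · intro v hv
      have hvt : v ∈ (F.φ c).target := F.ball c (Metric.ball_subset_closedBall hv)
      exact ((F.smooth f c).contDiffAt ((F.φ c).open_target.mem_nhds hvt)).differentiableAt
        (by simp)
    · intro v hv
      have hvc := Metric.ball_subset_closedBall hv
      have hvt : v ∈ (F.φ c).target := F.ball c hvc
      apply ContinuousLinearMap.opNorm_le_bound _ hcase.2
      intro u
      rw [F.LF c f v hvt u]
      calc ‖∑ j, fderiv ℝ ((F.ψ j).1 ∘ (F.φ c).symm) v u * (F.X j f).1 ((F.φ c).symm v)‖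
          ≤ ∑ j, ‖fderiv ℝ ((F.ψ j).1 ∘ (F.φ c).symm) v u * (F.X j f).1 ((F.φ c).symm v)‖ :=
            norm_sum_le _ _
        _ ≤ ∑ j, (C c j * ‖u‖) * Λ := by
            apply Finset.sum_le_sum
            intro j _
            rw [norm_mul]
            apply mul_le_mul _ _ (norm_nonneg _) (mul_nonneg (hC0 c j) (norm_nonneg _))
            · exact (ContinuousLinearMap.le_opNorm _ u).trans
                (mul_le_mul_of_nonneg_right (hC c j v hvc) (norm_nonneg _))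
            · exact hΛ j _
        _ = ((∑ j, C c j) * Λ) * ‖u‖ := by
            rw [Finset.sum_mul, Finset.sum_mul]
            exact Finset.sum_congr rfl fun j _ => by ring
  have hx' : (f.1 ∘ (F.φ c).symm) w = f.1 x := by
    show f.1 ((F.φ c).symm (F.φ c x)) = f.1 x
    rw [(F.φ c).left_inv hxs]
  have hy' : (f.1 ∘ (F.φ c).symm) w' = f.1 y := by
    show f.1 ((F.φ c).symm (F.φ c y)) = f.1 y
    rw [(F.φ c).left_inv hys]
  rw [hx', hy', Real.norm_eq_abs] at hmv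
  calc |f.1 x - f.1 y| ≤ ((∑ j, C c j) * Λ) * ‖w - w'‖ := hmv
    _ ≤ ((∑ j, C c j) * Λ) * (√(d : ℝ) * F.dst x y) := mul_le_mul_of_nonneg_left hww hcase.2
    _ ≤ ((∑ c, ∑ j, C c j) * Λ) * (√(d : ℝ) * F.dst x y) :=
        mul_le_mul_of_nonneg_right hcase.1 (mul_nonneg (Real.sqrt_nonneg _) hdst0)
    _ = (∑ c, ∑ j, C c j) * √(d : ℝ) * Λ * F.dst x y := by ring

end Pool.Agent.H73.PZ.Fr
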