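import Mathlib
import Pool.Agent.H73.PZ.F0

/-!
MODULE F4 (MP_d9606f_gt, paper Part C, (E)).

Proof.  For every `x` choose `c = c x` with `φ c x ∈ ball (z c) (r c / 2)` (`F.cover`), and put
`ξ i = ∑_k (X i (ψ (co c k))) x • e_k ∈ Eu d` (bounded uniformly in `x`, `i`, `c`: `F.bdd`),
`E x a = (φ c).symm (φ c x + ∑_i a i • ξ i)`.  Let `C₁` be such that
`‖∑_i a i • ξ i‖ ≤ C₁ ‖a‖` for all `x`, and `δ > 0` with `C₁ δ ≤ r c / 2` for all `c` (finitely many;
if `κ` is empty `M` is empty).  For `‖a‖ ≤ δ` the point `w' = w + ∑ a i • ξ i`, `w = φ c x`, is in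
the closed ball, so by `taylor` `|f (E x a) - f x - fderiv (f ∘ φ.symm) w (∑ a i • ξ i)| ≤
C ‖∑ a i • ξ i‖² ≤ C C₁² ‖a‖²` (`C` the maximum over the finitely many charts), and
`fderiv (f ∘ φ.symm) w (∑ a i • ξ i) = ∑ a i (X i f) x` by `LF2` and linearity.
-/

open MeasureTheory Filter
open scoped Topology ContDiff

namespace Pool.Agent.H73.PZ.Fr

variable {d : ℕ} {M : Type} [TopologicalSpace M] (F : Fr d M)

theorem expo [CompactSpace M] : ∃ (E : M → (F.ι → ℝ) → M) (δ : ℝ), 0 < δ ∧ ∀ f : F.A,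
    ∃ C : ℝ, ∀ (x : M) (a : F.ι → ℝ), ‖a‖ ≤ δ →
      |f.1 (E x a) - f.1 x - ∑ i, a i * (F.X i f).1 x| ≤ C * ‖a‖ ^ 2 := by
  classical
  choose c hcs hcb using F.cover
  choose B hB0 hB using fun (i : F.ι) (c : F.κ) (k : Fin d) => F.bdd (F.X i (F.ψ (F.co c k)))
  set S : ℝ := ∑ i, ∑ c, ∑ k, B i c k with hS
  have hS0 : 0 ≤ S := Finset.sum_nonneg fun i _ => Finset.sum_nonneg fun c _ =>
    Finset.sum_nonneg fun k _ => hB0 i c k
  set ξ : M → F.ι → Eu d := fun x i =>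
    ∑ k, (F.X i (F.ψ (F.co (c x) k))).1 x • EuclideanSpace.single k (1 : ℝ) with hξ
  set v : M → (F.ι → ℝ) → Eu d := fun x a => ∑ i, a i • ξ x i with hv
  have hξb : ∀ x i, ‖ξ x i‖ ≤ ∑ c, ∑ k, B i c k := by
    intro x i
    calc ‖ξ x i‖ ≤ ∑ k, ‖(F.X i (F.ψ (F.co (c x) k))).1 x • EuclideanSpace.single k (1 : ℝ)‖ :=
          norm_sum_le _ _
      _ ≤ ∑ k, B i (c x) k := by
          apply Finset.sum_le_sum
          intro k _
          rw [norm_smul, EuclideanSpace.norm_single, norm_one, mul_one, Real.norm_eq_abs]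
          exact hB i (c x) k x
      _ ≤ ∑ c, ∑ k, B i c k :=
          Finset.single_le_sum (f := fun c => ∑ k, B i c k)
            (fun c _ => Finset.sum_nonneg fun k _ => hB0 i c k) (Finset.mem_univ (c x))
  have hvb : ∀ x a, ‖v x a‖ ≤ S * ‖a‖ := by
    intro x a
    calc ‖v x a‖ ≤ ∑ i, ‖a i • ξ x i‖ := norm_sum_le _ _
      _ ≤ ∑ i, (∑ c, ∑ k, B i c k) * ‖a‖ := by
          apply Finset.sum_le_sum
          intro i _
          rw [norm_smul, mul_comm]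
          exact mul_le_mul (hξb x i) (norm_le_pi_norm a i) (norm_nonneg _)
            (Finset.sum_nonneg fun c _ => Finset.sum_nonneg fun k _ => hB0 i c k)
      _ = S * ‖a‖ := by rw [hS, Finset.sum_mul]
  obtain ⟨ρ, hρ, hρr⟩ : ∃ ρ : ℝ, 0 < ρ ∧ ∀ c, ρ ≤ F.r c := by
    rcases isEmpty_or_nonempty F.κ with h | h
    · exact ⟨1, one_pos, fun c => (h.false c).elim⟩
    · obtain ⟨c₀, hc₀⟩ := Finite.exists_min F.r
      exact ⟨F.r c₀, F.r_pos c₀, hc₀⟩
  refine ⟨fun x a => (F.φ (c x)).symm (F.φ (c x) x + v x a), ρ / (2 * (S + 1)), by positivity, ?_⟩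
  intro f
  choose C hC0 hC using fun c : F.κ => F.taylor f c
  refine ⟨(∑ c, C c) * S ^ 2, ?_⟩
  intro x a ha
  have hw : F.φ (c x) x ∈ Metric.closedBall (F.z (c x)) (F.r (c x)) := by
    have h1 := hcb x
    rw [Metric.mem_ball] at h1
    rw [Metric.mem_closedBall]
    linarith [F.r_pos (c x)]
  have hva : ‖v x a‖ ≤ F.r (c x) / 2 := by
    have h1 : S * ‖a‖ ≤ S * (ρ / (2 * (S + 1))) := mul_le_mul_of_nonneg_left ha hS0
    have h2 : S * (ρ / (2 * (S + 1))) ≤ ρ / 2 := by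
      rw [← mul_div_assoc, div_le_div_iff₀ (by positivity) (by positivity)]
      nlinarith
    linarith [hvb x a, hρr (c x)]
  have hw' : F.φ (c x) x + v x a ∈ Metric.closedBall (F.z (c x)) (F.r (c x)) := by
    have h1 := hcb x
    rw [Metric.mem_ball, dist_eq_norm] at h1
    rw [Metric.mem_closedBall, dist_eq_norm]
    have h2 : F.φ (c x) x + v x a - F.z (c x) = (F.φ (c x) x - F.z (c x)) + v x a := by abel
    rw [h2]
    linarith [norm_add_le (F.φ (c x) x - F.z (c x)) (v x a)]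
  have hT := hC (c x) _ hw _ hw'
  rw [(F.φ (c x)).left_inv (hcs x), add_sub_cancel_left] at hT
  have hd : fderiv ℝ (f.1 ∘ (F.φ (c x)).symm) (F.φ (c x) x) (v x a) =
      ∑ i, a i * (F.X i f).1 x := by
    simp only [hv]
    rw [map_sum]
    apply Finset.sum_congr rfl
    intro i _
    rw [map_smul, smul_eq_mul]
    congr 1
    rw [F.LF2 (c x) f i x (hcs x) (Metric.ball_subset_ball (by linarith [F.r_pos (c x)]) (hcb x))]
    simp only [hξ]
    rw [map_sum]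
    apply Finset.sum_congr rfl
    intro k _
    rw [map_smul, smul_eq_mul, mul_comm]
  rw [hd] at hT
  refine hT.trans ?_
  have h3 : C (c x) ≤ ∑ c, C c :=
    Finset.single_le_sum (f := C) (fun c _ => hC0 c) (Finset.mem_univ (c x))
  have h4 : ‖v x a‖ ^ 2 ≤ (S * ‖a‖) ^ 2 := pow_le_pow_left₀ (norm_nonneg _) (hvb x a) 2
  calc C (c x) * ‖v x a‖ ^ 2 ≤ (∑ c, C c) * (S * ‖a‖) ^ 2 :=
        mul_le_mul h3 h4 (by positivity) ((hC0 (c x)).trans h3)
    _ = (∑ c, C c) * S ^ 2 * ‖a‖ ^ 2 := by ring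

end Pool.Agent.H73.PZ.Fr
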