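import Mathlib
import Pool.Agent.H73.PZ.F0

/-!
MODULE F5 (MP_d9606f_gt, paper Part C, (mu): the measure).

`mu = ∑_c (φ c).symm_* (Lebesgue on ball (z c) (r c))`.  `(φ c).symm` is continuous on the open
target, which contains the ball, so it is a.e. measurable for the restricted Lebesgue measure
(`ContinuousOn.aemeasurable`).
* `mu_finite`: balls have finite Lebesgue measure.
* `mu_integral`: `integral_finsetSum_measure`, `integral_map`; for continuous bounded `f`
  (integrable for finite measures).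
* `mu_ball`: `x` with `w = φ c x ∈ ball (z c) (r c / 2)`.  By `lipschitz` (for all `ψ j`)
  `dst x ((φ c).symm w') ≤ C ‖w' - w‖` for `w'` in the closed ball, `C ≥ 1` independent of `c, x`.
  So for `ρ = min (r' / C) (r c / 2)` (`≥ a' r'` as `r' ≤ 1`) the ball `ball w ρ` is mapped into
  `{y | dst x y ≤ r'}`, and its Lebesgue measure is `ρ^d * volume (ball 0 1)`
  (`Measure.addHaar_ball`), `volume (ball 0 1) > 0`.  `Measure.map_apply_of_aemeasurable`;
  `{y | dst x y ≤ r'}` is closed.  One term of the sum is enough.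
-/

open MeasureTheory Filter
open scoped Topology ContDiff

namespace Pool.Agent.H73.PZ.Fr

variable {d : ℕ} {M : Type} [TopologicalSpace M] [MeasurableSpace M] (F : Fr d M)

/-- The measure. -/
noncomputable def mu : Measure M :=
  ∑ c, ((volume : Measure (Eu d)).restrict (Metric.ball (F.z c) (F.r c))).map (F.φ c).symm

theorem symm_aemeasurable [BorelSpace M] (c : F.κ) :
    AEMeasurable (F.φ c).symm
      ((volume : Measure (Eu d)).restrict (Metric.ball (F.z c) (F.r c))) := by
  have h : ContinuousOn (F.φ c).symm (Metric.ball (F.z c) (F.r c)) :=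
    (F.φ c).continuousOn_symm.mono (Metric.ball_subset_closedBall.trans (F.ball c))
  exact h.aemeasurable Metric.isOpen_ball.measurableSet

omit [MeasurableSpace M] in
private theorem f5_restrict_finite (c : F.κ) :
    IsFiniteMeasure ((volume : Measure (Eu d)).restrict (Metric.ball (F.z c) (F.r c))) :=
  ⟨by rw [Measure.restrict_apply_univ]; exact measure_ball_lt_top⟩

theorem mu_finite : IsFiniteMeasure F.mu := by
  have h : ∀ c, IsFiniteMeasure
      ((volume : Measure (Eu d)).restrict (Metric.ball (F.z c) (F.r c))) :=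
    fun c => f5_restrict_finite F c
  unfold mu
  infer_instance

theorem mu_integral [CompactSpace M] [BorelSpace M] {f : M → ℝ} (hf : Continuous f) :
    ∫ x, f x ∂F.mu = ∑ c, ∫ w in Metric.ball (F.z c) (F.r c), f ((F.φ c).symm w) := by
  have h : ∀ c, IsFiniteMeasure
      ((volume : Measure (Eu d)).restrict (Metric.ball (F.z c) (F.r c))) :=
    fun c => f5_restrict_finite F c
  have hb : ∃ C : ℝ, ∀ x, ‖f x‖ ≤ C := by
    obtain ⟨C, hC⟩ := (isCompact_range hf.norm).bddAbove
    exact ⟨C, fun x => hC ⟨x, rfl⟩⟩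
  obtain ⟨C, hC⟩ := hb
  have hm : ∀ c, AEStronglyMeasurable f
      (((volume : Measure (Eu d)).restrict (Metric.ball (F.z c) (F.r c))).map (F.φ c).symm) :=
    fun c => hf.aestronglyMeasurable
  unfold mu
  rw [integral_finsetSum_measure]
  · refine Finset.sum_congr rfl fun c _ => ?_
    rw [integral_map (F.symm_aemeasurable c) (hm c)]
  · intro c _
    exact Integrable.of_bound (hm c) C (Filter.Eventually.of_forall hC)

private theorem f5_exists_min {κ : Type} [Finite κ] {g : κ → ℝ} (hg : ∀ c, 0 < g c) :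
    ∃ a : ℝ, 0 < a ∧ ∀ c, a ≤ g c := by
  have h1 : ∀ᶠ a : ℝ in 𝓝[>] (0 : ℝ), ∀ c, a ≤ g c := by
    rw [Filter.eventually_all]
    intro c
    exact mem_nhdsWithin_of_mem_nhds ((eventually_lt_nhds (hg c)).mono fun a ha => ha.le)
  have h2 : ∀ᶠ a : ℝ in 𝓝[>] (0 : ℝ), 0 < a := self_mem_nhdsWithin
  obtain ⟨a, ha⟩ := (h1.and h2).exists
  exact ⟨a, ha.2, ha.1⟩

omit [MeasurableSpace M] in
private theorem f5_dst_le : ∃ C : ℝ, 0 < C ∧ ∀ (c : F.κ),
    ∀ w ∈ Metric.closedBall (F.z c) (F.r c), ∀ w' ∈ Metric.closedBall (F.z c) (F.r c),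
      F.dst ((F.φ c).symm w) ((F.φ c).symm w') ≤ C * ‖w' - w‖ := by
  choose C hC0 hC using fun (j : F.ι) (c : F.κ) => F.lipschitz (F.ψ j) c
  have hle : ∀ j c, C j c ≤ 1 + ∑ j, ∑ c, C j c := by
    intro j c
    have h1 : C j c ≤ ∑ c, C j c :=
      Finset.single_le_sum (f := fun c => C j c) (fun i _ => hC0 j i) (Finset.mem_univ c)
    have h2 : ∑ c, C j c ≤ ∑ j, ∑ c, C j c :=
      Finset.single_le_sum (f := fun j => ∑ c, C j c)
        (fun i _ => Finset.sum_nonneg fun c _ => hC0 i c) (Finset.mem_univ j)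
    linarith
  have hpos : 0 < 1 + ∑ j, ∑ c, C j c := by
    have : 0 ≤ ∑ j, ∑ c, C j c :=
      Finset.sum_nonneg fun i _ => Finset.sum_nonneg fun c _ => hC0 i c
    linarith
  refine ⟨1 + ∑ j, ∑ c, C j c, hpos, fun c w hw w' hw' => ?_⟩
  unfold dst
  rw [pi_norm_le_iff_of_nonneg (by positivity)]
  intro j
  rw [Real.norm_eq_abs, abs_sub_comm]
  refine (hC j c w hw w' hw').trans ?_
  exact mul_le_mul_of_nonneg_right (hle j c) (norm_nonneg _)

omit [MeasurableSpace M] in
private theorem f5_dst_cont (x : M) : Continuous fun y => F.dst x y := by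
  unfold dst
  refine Continuous.norm ?_
  exact continuous_pi fun j => continuous_const.sub (F.cont (F.ψ j))

theorem mu_ball [CompactSpace M] [BorelSpace M] : ∃ a : ℝ, 0 < a ∧ ∀ (x : M) (r : ℝ), 0 < r →
    r ≤ 1 → ENNReal.ofReal (a * r ^ d) ≤ F.mu {y | F.dst x y ≤ r} := by
  obtain ⟨C, hC0, hC⟩ := f5_dst_le F
  have hs0 : ∀ c, 0 < min (1 / C) (F.r c / 2) := fun c =>
    lt_min (by positivity) (half_pos (F.r_pos c))
  have hv0 : 0 < ((volume : Measure (Eu d)) (Metric.ball 0 1)).toReal :=
    ENNReal.toReal_pos (Metric.measure_ball_pos _ _ one_pos).ne' measure_ball_lt_top.ne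
  obtain ⟨a, ha0, ha⟩ := f5_exists_min (g := fun c => (min (1 / C) (F.r c / 2)) ^ d *
    ((volume : Measure (Eu d)) (Metric.ball 0 1)).toReal)
    (fun c => mul_pos (pow_pos (hs0 c) d) hv0)
  refine ⟨a, ha0, fun x r hr0 hr1 => ?_⟩
  obtain ⟨c, hx, hb⟩ := F.cover x
  set s : ℝ := min (1 / C) (F.r c / 2) with hs
  have hs1 : s ≤ 1 / C := min_le_left _ _
  have hs2 : s ≤ F.r c / 2 := min_le_right _ _
  have hs' : 0 < s := hs0 c
  have hrs : 0 < r * s := mul_pos hr0 hs'
  have hmeas : MeasurableSet {y | F.dst x y ≤ r} :=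
    (isClosed_le (f5_dst_cont F x) continuous_const).measurableSet
  have hxw : (F.φ c).symm (F.φ c x) = x := (F.φ c).left_inv hx
  have hsub1 : Metric.ball (F.φ c x) (r * s) ⊆ Metric.ball (F.z c) (F.r c) := by
    intro w hw
    rw [Metric.mem_ball] at hw hb ⊢
    have h1 : dist w (F.z c) ≤ dist w (F.φ c x) + dist (F.φ c x) (F.z c) := dist_triangle _ _ _
    have h2 : r * s ≤ 1 * s := mul_le_mul_of_nonneg_right hr1 hs'.le
    linarith
  have hsub2 : Metric.ball (F.φ c x) (r * s) ⊆ (F.φ c).symm ⁻¹' {y | F.dst x y ≤ r} := by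
    intro w hw
    have hw' : w ∈ Metric.closedBall (F.z c) (F.r c) :=
      Metric.ball_subset_closedBall (hsub1 hw)
    have hx' : F.φ c x ∈ Metric.closedBall (F.z c) (F.r c) :=
      Metric.ball_subset_closedBall (hsub1 (Metric.mem_ball_self hrs))
    have h1 := hC c (F.φ c x) hx' w hw'
    rw [hxw] at h1
    show F.dst x ((F.φ c).symm w) ≤ r
    rw [Metric.mem_ball, dist_eq_norm] at hw
    have h2 : C * ‖w - F.φ c x‖ ≤ C * (r * s) := mul_le_mul_of_nonneg_left hw.le hC0.le
    have h3 : C * (r * s) ≤ r := by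
      have : C * s ≤ 1 := by
        have := mul_le_mul_of_nonneg_left hs1 hC0.le
        rwa [mul_one_div_cancel hC0.ne'] at this
      nlinarith
    linarith
  have hone : ((volume : Measure (Eu d)).restrict (Metric.ball (F.z c) (F.r c))).map
      (F.φ c).symm {y | F.dst x y ≤ r} ≤ F.mu {y | F.dst x y ≤ r} := by
    unfold mu
    rw [Measure.finsetSum_apply]
    exact Finset.single_le_sum (f := fun c => ((volume : Measure (Eu d)).restrict
      (Metric.ball (F.z c) (F.r c))).map (F.φ c).symm {y | F.dst x y ≤ r})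
      (fun _ _ => zero_le) (Finset.mem_univ c)
  refine le_trans ?_ hone
  rw [Measure.map_apply_of_aemeasurable (F.symm_aemeasurable c) hmeas]
  have hlow : (volume : Measure (Eu d)) (Metric.ball (F.φ c x) (r * s)) ≤
      (volume : Measure (Eu d)).restrict (Metric.ball (F.z c) (F.r c))
        ((F.φ c).symm ⁻¹' {y | F.dst x y ≤ r}) := by
    calc (volume : Measure (Eu d)) (Metric.ball (F.φ c x) (r * s))
        = (volume : Measure (Eu d)).restrict (Metric.ball (F.z c) (F.r c))
          (Metric.ball (F.φ c x) (r * s)) := by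
          rw [Measure.restrict_apply measurableSet_ball, Set.inter_eq_left.2 hsub1]
      _ ≤ _ := measure_mono hsub2
  refine le_trans ?_ hlow
  rw [Measure.addHaar_ball_of_pos _ _ hrs, finrank_euclideanSpace_fin]
  rw [← ENNReal.ofReal_toReal (measure_ball_lt_top
    (μ := (volume : Measure (Eu d))) (x := 0) (r := 1)).ne,
    ← ENNReal.ofReal_mul (by positivity)]
  refine ENNReal.ofReal_le_ofReal ?_
  have h1 := mul_le_mul_of_nonneg_right (ha c) (pow_nonneg hr0.le d)
  calc a * r ^ d ≤ (s ^ d * ((volume : Measure (Eu d)) (Metric.ball 0 1)).toReal) * r ^ d := h1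
    _ = (r * s) ^ d * ((volume : Measure (Eu d)) (Metric.ball 0 1)).toReal := by
      rw [mul_pow]; ring

end Pool.Agent.H73.PZ.Fr
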