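import Mathlib
import Pool.Agent.H73.PZ.Fr

/-!
MODULE F6a (MP_d9606f_gt; Mathlib only).  `|det L| ≤ ‖L‖ ^ d` for endomorphisms of Euclidean space.

Proof.  `L` maps the unit ball into the ball of radius `‖L‖`.  Volumes
(`Measure.addHaar_image_continuousLinearMap`, `Measure.addHaar_closedBall`):
`|det L| volume (closedBall 0 1) = volume (L '' closedBall 0 1) ≤ volume (closedBall 0 ‖L‖)
 = ‖L‖^d volume (closedBall 0 1)`, and `0 < volume (closedBall 0 1) < ∞`.
-/

open MeasureTheory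

namespace Pool.Agent.H73.PZ

theorem abs_det_le_pow {d : ℕ} (L : Eu d →L[ℝ] Eu d) : |L.det| ≤ ‖L‖ ^ d := by
  have h1 : (volume (L '' Metric.closedBall (0 : Eu d) 1)) =
      ENNReal.ofReal |L.det| * volume (Metric.closedBall (0 : Eu d) 1) :=
    Measure.addHaar_image_continuousLinearMap volume L _
  have hsub : L '' Metric.closedBall (0 : Eu d) 1 ⊆ Metric.closedBall (0 : Eu d) ‖L‖ := by
    rintro _ ⟨x, hx, rfl⟩
    rw [mem_closedBall_zero_iff] at hx ⊢
    calc ‖L x‖ ≤ ‖L‖ * ‖x‖ := L.le_opNorm x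
      _ ≤ ‖L‖ * 1 := mul_le_mul_of_nonneg_left hx (norm_nonneg _)
      _ = ‖L‖ := mul_one _
  have h2 : volume (Metric.closedBall (0 : Eu d) ‖L‖) =
      ENNReal.ofReal (‖L‖ ^ Module.finrank ℝ (Eu d)) * volume (Metric.closedBall (0 : Eu d) 1) :=
    Measure.addHaar_closedBall' volume (0 : Eu d) (norm_nonneg _)
  have hd : Module.finrank ℝ (Eu d) = d := by
    simp [Eu]
  rw [hd] at h2
  have h3 : ENNReal.ofReal |L.det| * volume (Metric.closedBall (0 : Eu d) 1) ≤
      ENNReal.ofReal (‖L‖ ^ d) * volume (Metric.closedBall (0 : Eu d) 1) := by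
    rw [← h1, ← h2]
    exact measure_mono hsub
  have hpos : volume (Metric.closedBall (0 : Eu d) 1) ≠ 0 :=
    (Metric.measure_closedBall_pos volume (0 : Eu d) one_pos).ne'
  have hfin : volume (Metric.closedBall (0 : Eu d) 1) ≠ ⊤ :=
    measure_closedBall_lt_top.ne
  have h4 := (ENNReal.mul_le_mul_iff_left hpos hfin).1 h3
  exact (ENNReal.ofReal_le_ofReal_iff (pow_nonneg (norm_nonneg _) _)).1 h4

end Pool.Agent.H73.PZ
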