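import Mathlib
import Pool.Agent.H73.PZ.F0
import Pool.Agent.H73.PZ.F6a

/-!
MODULE F6b (MP_d9606f_gt, paper Part C, (mu): determinants of the local expressions).

`G = φ c' ∘ g ∘ (φ c).symm` at `w ∈ ball (z c) (r c)` with `G w ∈ ball (z c') (r c')`.
As in module F2: near `w` the coordinates of `G` are `ψ (co c' k) ∘ g ∘ (φ c).symm` (`ψ_co`,
continuity of `g`), so `G` is differentiable at `w`.  In the same way
`H = φ c ∘ g' ∘ (φ c').symm` is differentiable at `G w`, `H ∘ G = id` near `w`, so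
`fderiv H (G w) ∘ fderiv G w = id` and `det (fderiv H (G w)) * det (fderiv G w) = 1`.
The `k`-th coordinate of `fderiv H (G w) u` is
`fderiv (ψ (co c k) ∘ g' ∘ (φ c').symm) (G w) u
 = ∑_l fderiv (ψ l ∘ (φ c').symm) (G w) u * (X l (ψ (co c k) ∘ g')) ((φ c').symm (G w))` by `LF`,
bounded by `∑_l C ‖u‖ B` (`fderiv_bdd`), so `‖fderiv H (G w)‖ ≤ K B ≤ K (1 + B)` with `K`
independent of `g, g', c, c', w`.  `abs_det_le_pow`: `1 = |det| |det| ≤ (K (1+B))^d |det G'|`.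
-/

open MeasureTheory Filter
open scoped Topology ContDiff

namespace Pool.Agent.H73.PZ.Fr

variable {d : ℕ} {M : Type} [TopologicalSpace M] (F : Fr d M)

/-- Near `w` the local expression stays in the ball. -/
private theorem F6b_near {h : M → M} (hh : Continuous h) {c c' : F.κ} {w : Eu d}
    (hw : w ∈ Metric.ball (F.z c) (F.r c)) (hs : h ((F.φ c).symm w) ∈ (F.φ c').source)
    (hb : F.φ c' (h ((F.φ c).symm w)) ∈ Metric.ball (F.z c') (F.r c')) :
    ∀ᶠ w' in 𝓝 w, w' ∈ (F.φ c).target ∧ h ((F.φ c).symm w') ∈ (F.φ c').source ∧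
      F.φ c' (h ((F.φ c).symm w')) ∈ Metric.ball (F.z c') (F.r c') := by
  have hwt : w ∈ (F.φ c).target := F.ball c (Metric.ball_subset_closedBall hw)
  have h1 : ContinuousAt (F.φ c).symm w := (F.φ c).continuousAt_symm hwt
  have h2 : ContinuousAt (fun w' => h ((F.φ c).symm w')) w := hh.continuousAt.comp h1
  have h3 : ContinuousAt (F.φ c') (h ((F.φ c).symm w)) := (F.φ c').continuousAt hs
  have h4 : ContinuousAt (fun w' => F.φ c' (h ((F.φ c).symm w'))) w :=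
    ContinuousAt.comp (f := fun w' => h ((F.φ c).symm w')) h3 h2
  filter_upwards [(F.φ c).open_target.mem_nhds hwt,
    h2.preimage_mem_nhds ((F.φ c').open_source.mem_nhds hs),
    h4.preimage_mem_nhds (Metric.isOpen_ball.mem_nhds hb)] with w' a b c
  exact ⟨a, b, c⟩

/-- Derivative of the coordinates of the local expression. -/
private theorem F6b_diff {h : M → M} (hh : Continuous h) (hA : ∀ f ∈ F.A, f ∘ h ∈ F.A)
    {c c' : F.κ} {w : Eu d}
    (hw : w ∈ Metric.ball (F.z c) (F.r c)) (hs : h ((F.φ c).symm w) ∈ (F.φ c').source)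
    (hb : F.φ c' (h ((F.φ c).symm w)) ∈ Metric.ball (F.z c') (F.r c')) :
    DifferentiableAt ℝ (fun w => F.φ c' (h ((F.φ c).symm w))) w ∧
      ∀ (k : Fin d) (u : Eu d),
        (fderiv ℝ (fun w => F.φ c' (h ((F.φ c).symm w))) w u) k =
        ∑ l, fderiv ℝ ((F.ψ l).1 ∘ (F.φ c).symm) w u *
          (F.X l ⟨(F.ψ (F.co c' k)).1 ∘ h, hA _ (F.ψ (F.co c' k)).2⟩).1 ((F.φ c).symm w) := by
  have hwt : w ∈ (F.φ c).target := F.ball c (Metric.ball_subset_closedBall hw)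
  have hnear := F6b_near F hh hw hs hb
  have hev : ∀ k : Fin d, (fun w' => (F.φ c' (h ((F.φ c).symm w'))) k) =ᶠ[𝓝 w]
      (⟨(F.ψ (F.co c' k)).1 ∘ h, hA _ (F.ψ (F.co c' k)).2⟩ : F.A).1 ∘ (F.φ c).symm := by
    intro k
    filter_upwards [hnear] with w' hw'
    exact (F.ψ_co c' k _ hw'.2.1 (Metric.ball_subset_closedBall hw'.2.2)).symm
  have hd : ∀ k : Fin d, DifferentiableAt ℝ
      ((⟨(F.ψ (F.co c' k)).1 ∘ h, hA _ (F.ψ (F.co c' k)).2⟩ : F.A).1 ∘ (F.φ c).symm) w := fun k =>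
    ((F.smooth _ c).differentiableOn (by simp)).differentiableAt
      ((F.φ c).open_target.mem_nhds hwt)
  have hd' : ∀ k : Fin d, DifferentiableAt ℝ (fun w' => (F.φ c' (h ((F.φ c).symm w'))) k) w :=
    fun k => (hd k).congr_of_eventuallyEq (hev k)
  have hD : DifferentiableAt ℝ (fun w => F.φ c' (h ((F.φ c).symm w))) w :=
    differentiableAt_euclidean.2 hd'
  refine ⟨hD, fun k u => ?_⟩
  have h1 : HasFDerivAt (fun w' => (F.φ c' (h ((F.φ c).symm w'))) k)
      ((EuclideanSpace.proj (𝕜 := ℝ) (ι := Fin d) k).comp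
        (fderiv ℝ (fun w => F.φ c' (h ((F.φ c).symm w))) w)) w :=
    (EuclideanSpace.proj (𝕜 := ℝ) (ι := Fin d) k).hasFDerivAt.comp w hD.hasFDerivAt
  have h2 := h1.fderiv
  rw [(hev k).fderiv_eq] at h2
  have h3 := F.LF c ⟨(F.ψ (F.co c' k)).1 ∘ h, hA _ (F.ψ (F.co c' k)).2⟩ w hwt u
  rw [← h3, h2]
  rfl

private theorem F6b_norm_le (x : Eu d) : ‖x‖ ≤ ∑ k, |x k| := by
  have h := (EuclideanSpace.basisFun (Fin d) ℝ).sum_repr x
  conv_lhs => rw [← h]
  refine (norm_sum_le _ _).trans (Finset.sum_le_sum fun k _ => ?_)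
  rw [norm_smul]
  simp

theorem trans_det [CompactSpace M] : ∃ K : ℝ, 0 ≤ K ∧ ∀ (g g' : M → M), Continuous g →
    Continuous g' → (∀ x, g' (g x) = x) → (∀ x, g (g' x) = x) → (∀ f ∈ F.A, f ∘ g ∈ F.A) →
    ∀ (hA' : ∀ f ∈ F.A, f ∘ g' ∈ F.A) (B : ℝ), 0 ≤ B →
    (∀ i j x, |(F.X i ⟨(F.ψ j).1 ∘ g', hA' _ (F.ψ j).2⟩).1 x| ≤ B) →
    ∀ (c c' : F.κ) (w : Eu d), w ∈ Metric.ball (F.z c) (F.r c) →
    g ((F.φ c).symm w) ∈ (F.φ c').source →
    F.φ c' (g ((F.φ c).symm w)) ∈ Metric.ball (F.z c') (F.r c') →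
    DifferentiableAt ℝ (fun w => F.φ c' (g ((F.φ c).symm w))) w ∧
      1 ≤ (K * (1 + B)) ^ d *
        |(fderiv ℝ (fun w => F.φ c' (g ((F.φ c).symm w))) w).det| := by
  choose C hC0 hC using fun (l : F.ι) (c : F.κ) => F.fderiv_bdd (F.ψ l) c
  set S : ℝ := ∑ c, ∑ l, C l c with hS
  have hS0 : 0 ≤ S := Finset.sum_nonneg fun c _ => Finset.sum_nonneg fun l _ => hC0 l c
  refine ⟨d * S, by positivity, ?_⟩
  intro g g' hg hg' hgg hgg' hA hA' B hB hX c c' w hw hs hb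
  obtain ⟨hdG, -⟩ := F6b_diff F hg hA hw hs hb
  refine ⟨hdG, ?_⟩
  have hwt : w ∈ (F.φ c).target := F.ball c (Metric.ball_subset_closedBall hw)
  set v : Eu d := F.φ c' (g ((F.φ c).symm w)) with hv
  have e1 : (F.φ c').symm v = g ((F.φ c).symm w) := (F.φ c').left_inv hs
  have e2 : g' ((F.φ c').symm v) = (F.φ c).symm w := by rw [e1, hgg]
  have hs' : g' ((F.φ c').symm v) ∈ (F.φ c).source := by
    rw [e2]; exact (F.φ c).map_target hwt
  have hb' : F.φ c (g' ((F.φ c').symm v)) ∈ Metric.ball (F.z c) (F.r c) := by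
    rw [e2, (F.φ c).right_inv hwt]; exact hw
  obtain ⟨hdH, hH⟩ := F6b_diff F hg' hA' hb hs' hb'
  set G : Eu d → Eu d := fun w => F.φ c' (g ((F.φ c).symm w)) with hG
  set H : Eu d → Eu d := fun v => F.φ c (g' ((F.φ c').symm v)) with hHd
  have hcomp : (fun w' => H (G w')) =ᶠ[𝓝 w] fun w' => w' := by
    filter_upwards [F6b_near F hg hw hs hb] with w' hw'
    simp only [hG, hHd]
    rw [(F.φ c').left_inv hw'.2.1, hgg, (F.φ c).right_inv hw'.1]
  have hfd : (fderiv ℝ H v).comp (fderiv ℝ G w) = ContinuousLinearMap.id ℝ (Eu d) := by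
    have h1 : HasFDerivAt (fun w' => H (G w')) ((fderiv ℝ H v).comp (fderiv ℝ G w)) w :=
      HasFDerivAt.comp (f := G) (g := H) w hdH.hasFDerivAt hdG.hasFDerivAt
    have h2 : HasFDerivAt (fun w' => H (G w')) (ContinuousLinearMap.id ℝ (Eu d)) w :=
      (hasFDerivAt_id w).congr_of_eventuallyEq hcomp
    exact h1.unique h2
  have hdet : (fderiv ℝ H v).det * (fderiv ℝ G w).det = 1 := by
    have h1 : ((fderiv ℝ H v).comp (fderiv ℝ G w)).det = 1 := by
      rw [hfd]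
      exact LinearMap.det_id
    rw [← h1]
    exact (LinearMap.det_comp _ _).symm
  have hnorm : ‖fderiv ℝ H v‖ ≤ d * S * (1 + B) := by
    refine ContinuousLinearMap.opNorm_le_bound _ (by positivity) fun u => ?_
    refine (F6b_norm_le _).trans ?_
    have hk : ∀ k : Fin d, |(fderiv ℝ H v u) k| ≤ S * (1 + B) * ‖u‖ := by
      intro k
      rw [hH k u]
      refine (Finset.abs_sum_le_sum_abs _ _).trans ?_
      have h1 : ∀ l : F.ι, |fderiv ℝ ((F.ψ l).1 ∘ (F.φ c').symm) v u *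
          (F.X l ⟨(F.ψ (F.co c k)).1 ∘ g', hA' _ (F.ψ (F.co c k)).2⟩).1 ((F.φ c').symm v)| ≤
          C l c' * ‖u‖ * B := by
        intro l
        rw [abs_mul]
        refine mul_le_mul ?_ (hX _ _ _) (abs_nonneg _) (by have := hC0 l c'; positivity)
        have h2 := (fderiv ℝ ((F.ψ l).1 ∘ (F.φ c').symm) v).le_opNorm u
        rw [Real.norm_eq_abs] at h2
        exact h2.trans (mul_le_mul_of_nonneg_right
          (hC l c' v (Metric.ball_subset_closedBall hb)) (norm_nonneg _))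
      refine (Finset.sum_le_sum fun l _ => h1 l).trans ?_
      have h3 : ∑ l, C l c' ≤ S :=
        Finset.single_le_sum (f := fun c => ∑ l, C l c)
          (fun c _ => Finset.sum_nonneg fun l _ => hC0 l c) (Finset.mem_univ c')
      rw [← Finset.sum_mul, ← Finset.sum_mul]
      have h4 : 0 ≤ ‖u‖ := norm_nonneg u
      calc (∑ l, C l c') * ‖u‖ * B ≤ S * ‖u‖ * B := by gcongr
        _ ≤ S * ‖u‖ * (1 + B) := by gcongr; linarith
        _ = S * (1 + B) * ‖u‖ := by ring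
    refine (Finset.sum_le_sum fun k _ => hk k).trans (le_of_eq ?_)
    rw [Finset.sum_const, Finset.card_univ, Fintype.card_fin, nsmul_eq_mul]
    ring
  have h5 : |(fderiv ℝ H v).det| ≤ (d * S * (1 + B)) ^ d :=
    (abs_det_le_pow _).trans (pow_le_pow_left₀ (norm_nonneg _) hnorm d)
  calc (1 : ℝ) = |(fderiv ℝ H v).det| * |(fderiv ℝ G w).det| := by
        rw [← abs_mul, hdet, abs_one]
    _ ≤ _ := mul_le_mul_of_nonneg_right h5 (abs_nonneg _)

end Pool.Agent.H73.PZ.Fr
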