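import Mathlib
import Pool.Agent.H73.PZ.F5
import Pool.Agent.H73.PZ.F6b

/-!
MODULE F6 (MP_d9606f_gt, paper Part C, (mu): distortion).

Proof.  `K` from `trans_det`; the constant is `(card κ)² K^d` (or any bigger one).  `f ∘ g ∈ A` is
continuous.  `mu_integral`: `∫ f ∘ g dmu = ∑_c ∫_{ball c} f (g ((φ c).symm w)) dw`.
For `c, c'` let `O = {w ∈ ball c | g ((φ c).symm w) ∈ source c', φ c' (...) ∈ ball c'}`, open, and
`G w = φ c' (g ((φ c).symm w))`.  `ball c = ⋃_{c'} O c c'` (`F.cover`), `f ≥ 0`, so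
`∫_{ball c} f∘g∘(φ c).symm ≤ ∑_{c'} ∫_{O c c'}`.  On `O`: `f (g ((φ c).symm w)) = f ((φ c').symm (G w))
≤ (K (1+B))^d |det G' w| f ((φ c').symm (G w))` (`trans_det`), `G` is injective on `O` (`g` and the
charts are injective) with `HasFDerivWithinAt`, so by the change of variables formula
(`integral_image_eq_integral_abs_det_fderiv_smul`, or the `lintegral` version)
`∫_O |det G'| f ((φ c').symm (G w)) dw = ∫_{G '' O} f ((φ c').symm y) dy ≤
∫_{ball c'} f ((φ c').symm y) dy ≤ ∫ f dmu` (`G '' O ⊆ ball c'`, `f ≥ 0`, bounded).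
-/

open MeasureTheory Filter
open scoped Topology ContDiff

namespace Pool.Agent.H73.PZ.Fr

variable {d : ℕ} {M : Type} [TopologicalSpace M] [MeasurableSpace M] (F : Fr d M)

private theorem int_on [CompactSpace M] [BorelSpace M] (f : F.A) (g : M → M)
    (hg : Continuous g) (c : F.κ) :
    IntegrableOn (fun w => f.1 (g ((F.φ c).symm w))) (Metric.ball (F.z c) (F.r c)) := by
  have h1 : ContinuousOn (fun w => f.1 (g ((F.φ c).symm w)))
      (Metric.closedBall (F.z c) (F.r c)) := by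
    have h2 : ContinuousOn (F.φ c).symm (Metric.closedBall (F.z c) (F.r c)) :=
      (F.φ c).symm.continuousOn.mono (F.ball c)
    exact ((F.cont f).comp hg).comp_continuousOn h2
  exact (h1.integrableOn_compact (isCompact_closedBall _ _)).mono_set Metric.ball_subset_closedBall

private theorem per_chart [CompactSpace M] [BorelSpace M] {D : ℝ} (hD : 0 ≤ D) {g g' : M → M}
    (hg : Continuous g) (hgg : ∀ x, g' (g x) = x) (c : F.κ)
    (hd : ∀ (c' : F.κ) (w : Eu d), w ∈ Metric.ball (F.z c) (F.r c) →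
      g ((F.φ c).symm w) ∈ (F.φ c').source →
      F.φ c' (g ((F.φ c).symm w)) ∈ Metric.ball (F.z c') (F.r c') →
      DifferentiableAt ℝ (fun w => F.φ c' (g ((F.φ c).symm w))) w ∧
        1 ≤ D * |(fderiv ℝ (fun w => F.φ c' (g ((F.φ c).symm w))) w).det|)
    (f : F.A) (hf : ∀ x, 0 ≤ f.1 x) :
    ∫ w in Metric.ball (F.z c) (F.r c), f.1 (g ((F.φ c).symm w)) ≤
      ∑ c', D * ∫ y in Metric.ball (F.z c') (F.r c'), f.1 ((F.φ c').symm y) := by
  have hI := F.int_on f g hg c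
  have hJ : ∀ c', IntegrableOn (fun w => f.1 ((F.φ c').symm w))
      (Metric.ball (F.z c') (F.r c')) := fun c' => F.int_on f id continuous_id c'
  have hJ0 : ∀ c', 0 ≤ ∫ y in Metric.ball (F.z c') (F.r c'), f.1 ((F.φ c').symm y) := fun c' =>
    integral_nonneg fun y => hf _
  rw [← ENNReal.ofReal_le_ofReal_iff (Finset.sum_nonneg fun c' _ => mul_nonneg hD (hJ0 c')),
    ofReal_integral_eq_lintegral_ofReal hI (Filter.Eventually.of_forall fun w => hf _),
    ENNReal.ofReal_sum_of_nonneg (fun c' _ => mul_nonneg hD (hJ0 c'))]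
  -- the pieces
  obtain ⟨O, hO⟩ : ∃ O : F.κ → Set (Eu d), O = fun c' => Metric.ball (F.z c) (F.r c) ∩
      ((F.φ c).symm.source ∩ (F.φ c).symm ⁻¹'
        (g ⁻¹' ((F.φ c').source ∩ F.φ c' ⁻¹' Metric.ball (F.z c') (F.r c')))) := ⟨_, rfl⟩
  have hOpen : ∀ c', IsOpen (O c') := by
    intro c'
    rw [hO]
    refine Metric.isOpen_ball.inter ((F.φ c).symm.isOpen_inter_preimage ?_)
    exact ((F.φ c').isOpen_inter_preimage Metric.isOpen_ball).preimage hg
  have hcov : Metric.ball (F.z c) (F.r c) ⊆ ⋃ c', O c' := by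
    intro w hw
    obtain ⟨c', h1, h2⟩ := F.cover (g ((F.φ c).symm w))
    refine Set.mem_iUnion.2 ⟨c', ?_⟩
    rw [hO]
    refine ⟨hw, F.ball c (Metric.ball_subset_closedBall hw), h1, ?_⟩
    exact Metric.ball_subset_ball (by linarith [F.r_pos c']) h2
  refine (lintegral_mono_set hcov).trans ((lintegral_iUnion_le _ _).trans ?_)
  rw [tsum_fintype]
  refine Finset.sum_le_sum fun c' _ => ?_
  obtain ⟨G, hG⟩ : ∃ G : Eu d → Eu d, G = fun w => F.φ c' (g ((F.φ c).symm w)) := ⟨_, rfl⟩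
  have hmem : ∀ w ∈ O c', w ∈ Metric.ball (F.z c) (F.r c) ∧
      g ((F.φ c).symm w) ∈ (F.φ c').source ∧
      F.φ c' (g ((F.φ c).symm w)) ∈ Metric.ball (F.z c') (F.r c') := by
    intro w hw
    rw [hO] at hw
    exact ⟨hw.1, hw.2.2.1, hw.2.2.2⟩
  have hd' : ∀ w ∈ O c', DifferentiableAt ℝ G w ∧ 1 ≤ D * |(fderiv ℝ G w).det| := by
    intro w hw
    obtain ⟨h1, h2, h3⟩ := hmem w hw
    rw [hG]
    exact hd c' w h1 h2 h3
  have hinv : ∀ w ∈ O c', (F.φ c').symm (G w) = g ((F.φ c).symm w) := by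
    intro w hw
    rw [hG]
    exact (F.φ c').left_inv (hmem w hw).2.1
  have hinj : Set.InjOn G (O c') := by
    intro w hw v hv h
    have h1 : g ((F.φ c).symm w) = g ((F.φ c).symm v) := by
      rw [← hinv w hw, ← hinv v hv, h]
    have h2 : (F.φ c).symm w = (F.φ c).symm v := by
      rw [← hgg ((F.φ c).symm w), h1, hgg]
    exact (F.φ c).symm.injOn (F.ball c (Metric.ball_subset_closedBall (hmem w hw).1))
      (F.ball c (Metric.ball_subset_closedBall (hmem v hv).1)) h2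
  have himg : G '' O c' ⊆ Metric.ball (F.z c') (F.r c') := by
    rintro _ ⟨w, hw, rfl⟩
    rw [hG]
    exact (hmem w hw).2.2
  have hcv := lintegral_image_eq_lintegral_abs_det_fderiv_mul (volume : Measure (Eu d))
    (hOpen c').measurableSet (fun w hw => (hd' w hw).1.hasFDerivAt.hasFDerivWithinAt) hinj
    (fun y => ENNReal.ofReal (f.1 ((F.φ c').symm y)))
  rw [ENNReal.ofReal_mul hD, ofReal_integral_eq_lintegral_ofReal (hJ c')
    (Filter.Eventually.of_forall fun w => hf _)]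
  calc ∫⁻ w in O c', ENNReal.ofReal (f.1 (g ((F.φ c).symm w)))
      ≤ ∫⁻ w in O c', ENNReal.ofReal D * (ENNReal.ofReal |(fderiv ℝ G w).det| *
          ENNReal.ofReal (f.1 ((F.φ c').symm (G w)))) := by
        refine setLIntegral_mono' (hOpen c').measurableSet fun w hw => ?_
        rw [hinv w hw, ← mul_assoc, ← ENNReal.ofReal_mul hD]
        refine le_trans (le_of_eq (one_mul _).symm) (mul_le_mul_left ?_ _)
        rw [← ENNReal.ofReal_one]
        exact ENNReal.ofReal_le_ofReal (hd' w hw).2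
    _ = ENNReal.ofReal D * ∫⁻ w in O c', ENNReal.ofReal |(fderiv ℝ G w).det| *
          ENNReal.ofReal (f.1 ((F.φ c').symm (G w))) :=
        lintegral_const_mul' _ _ ENNReal.ofReal_ne_top
    _ = ENNReal.ofReal D * ∫⁻ y in G '' O c', ENNReal.ofReal (f.1 ((F.φ c').symm y)) := by
        rw [hcv]
    _ ≤ ENNReal.ofReal D * ∫⁻ y in Metric.ball (F.z c') (F.r c'),
          ENNReal.ofReal (f.1 ((F.φ c').symm y)) :=
        mul_le_mul_right (lintegral_mono_set himg) _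

theorem distort [CompactSpace M] [BorelSpace M] : ∃ K : ℝ, 0 ≤ K ∧ ∀ (g g' : M → M),
    Continuous g → Continuous g' → (∀ x, g' (g x) = x) → (∀ x, g (g' x) = x) →
    (∀ f ∈ F.A, f ∘ g ∈ F.A) → ∀ (hA' : ∀ f ∈ F.A, f ∘ g' ∈ F.A) (B : ℝ), 0 ≤ B →
    (∀ i j x, |(F.X i ⟨(F.ψ j).1 ∘ g', hA' _ (F.ψ j).2⟩).1 x| ≤ B) →
    ∀ f : F.A, (∀ x, 0 ≤ f.1 x) →
      ∫ x, f.1 (g x) ∂F.mu ≤ K * (1 + B) ^ d * ∫ x, f.1 x ∂F.mu := by
  obtain ⟨K, hK, htr⟩ := F.trans_det
  refine ⟨(Fintype.card F.κ : ℝ) * K ^ d, by positivity, ?_⟩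
  intro g g' hg hg' h1 h2 hA hA' B hB hX f hf
  have hD : 0 ≤ (K * (1 + B)) ^ d := by positivity
  have hpc : ∀ c : F.κ, ∫ w in Metric.ball (F.z c) (F.r c), f.1 (g ((F.φ c).symm w)) ≤
      ∑ c', (K * (1 + B)) ^ d *
        ∫ y in Metric.ball (F.z c') (F.r c'), f.1 ((F.φ c').symm y) := fun c =>
    F.per_chart hD hg h1 c (fun c' w hw hs hb => htr g g' hg hg' h1 h2 hA hA' B hB hX c c' w hw hs hb)
      f hf
  have e1 : ∫ x, f.1 (g x) ∂F.mu =
      ∑ c, ∫ w in Metric.ball (F.z c) (F.r c), f.1 (g ((F.φ c).symm w)) :=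
    F.mu_integral ((F.cont f).comp hg)
  have e2 : ∫ x, f.1 x ∂F.mu =
      ∑ c, ∫ w in Metric.ball (F.z c) (F.r c), f.1 ((F.φ c).symm w) :=
    F.mu_integral (F.cont f)
  rw [e1, e2]
  refine (Finset.sum_le_sum fun c _ => hpc c).trans (le_of_eq ?_)
  rw [Finset.sum_const, Finset.card_univ, nsmul_eq_mul, ← Finset.mul_sum, mul_pow]
  ring

end Pool.Agent.H73.PZ.Fr
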