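import Mathlib
import Pool.Agent.H73.PZ.F0

/-!
MODULE F7 (MP_d9606f_gt, paper Part C, (comp)): limits of smooth functions.

Proof.  Call a sequence `f` in `A` good if it satisfies `h`.  If `f` is good then so is
`m ↦ X j (f m)` (`D I (X j g) = D (j :: I) g`, `map_sub`).
Claim: for every `k : ℕ` and every good `f` there is `G : M → ℝ` with `f m → G` uniformly
(Cauchy with geometric increments: `|f m x - G x| ≤ C ρ^m / (1 - ρ)`, take `I = []`) and
`ContDiffOn ℝ k (G ∘ (φ c).symm) (ball (z c) (r c))` for all `c`.  Note `G` is unique.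
`k = 0`: uniform limits of continuous functions.
`k + 1`: let `G` be the limit of `f`, `G_j` the limit of `X j (f m)` (claim for `k`).  On the open
ball, by `LF`, `fderiv (f m ∘ φ.symm) w = ∑_j ((X j (f m)) (φ.symm w)) • fderiv (ψ j ∘ φ.symm) w`,
which converges uniformly on the ball (`fderiv_bdd` for `ψ j`) to
`L w = ∑_j (G_j (φ.symm w)) • fderiv (ψ j ∘ φ.symm) w`.  By `hasFDerivAt_of_tendstoUniformlyOn`
(open set) `G ∘ φ.symm` has derivative `L w` on the ball, and `L` is `C^k` there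
(claim for `G_j`, smoothness of `ψ j ∘ φ.symm`); `contDiffOn_succ_iff_fderiv_of_isOpen`.
So `G ∘ (φ c).symm` is `C^k` on the ball for all `k`, hence smooth (`contDiffOn_infty`), and
`G ∈ A` by `of_smooth`.
-/

open MeasureTheory Filter
open scoped Topology ContDiff

namespace Pool.Agent.H73.PZ.Fr

variable {d : ℕ} {M : Type} [TopologicalSpace M] (F : Fr d M)

private def F7good (f : ℕ → F.A) : Prop := ∀ I : List F.ι, ∃ C ρ : ℝ, 0 ≤ ρ ∧ ρ < 1 ∧
    ∀ m x, |(XX F.X I (f (m + 1) - f m)).1 x| ≤ C * ρ ^ m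

private theorem F7_lim {f : ℕ → F.A} (h : F7good F f) : ∃ (G : M → ℝ) (C ρ : ℝ), 0 ≤ ρ ∧ ρ < 1 ∧
    (∀ m x, |(f m).1 x - G x| ≤ C * ρ ^ m) := by
  obtain ⟨C, ρ, h0, h1, hb⟩ := h []
  have hb' : ∀ x m, dist ((f m).1 x) ((f (m + 1)).1 x) ≤ C * ρ ^ m := by
    intro x m
    have := hb m x
    rw [XX_nil, F.val_sub] at this
    rw [Real.dist_eq, abs_sub_comm]
    exact this
  have hc : ∀ x, ∃ a, Tendsto (fun m => (f m).1 x) atTop (𝓝 a) := fun x =>
    cauchySeq_tendsto_of_complete (cauchySeq_of_le_geometric ρ C h1 (hb' x))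
  choose G hG using hc
  refine ⟨G, C / (1 - ρ), ρ, h0, h1, fun m x => ?_⟩
  have := dist_le_of_le_geometric_of_tendsto ρ C h1 (hb' x) (hG x) m
  rw [Real.dist_eq] at this
  refine this.trans (le_of_eq ?_)
  ring

private theorem F7_tendsto {f : ℕ → F.A} {G : M → ℝ} {C ρ : ℝ} (h0 : 0 ≤ ρ) (h1 : ρ < 1)
    (h : ∀ m x, |(f m).1 x - G x| ≤ C * ρ ^ m) (x : M) :
    Tendsto (fun m => (f m).1 x) atTop (𝓝 (G x)) := by
  rw [tendsto_iff_dist_tendsto_zero]
  refine squeeze_zero (fun _ => dist_nonneg) (fun m => ?_)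
    (g := fun m => C * ρ ^ m) ?_
  · rw [Real.dist_eq]; exact h m x
  · simpa using (tendsto_pow_atTop_nhds_zero_of_lt_one h0 h1).const_mul C

private theorem F7_good_X {f : ℕ → F.A} (h : F7good F f) (j : F.ι) :
    F7good F (fun m => F.X j (f m)) := by
  intro I
  obtain ⟨C, ρ, h0, h1, hb⟩ := h (j :: I)
  refine ⟨C, ρ, h0, h1, fun m x => ?_⟩
  have := hb m x
  rw [XX_cons, map_sub] at this
  exact this

private theorem F7_main (k : ℕ) : ∀ (f : ℕ → F.A), F7good F f → ∀ (G : M → ℝ),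
    (∀ x, Tendsto (fun m => (f m).1 x) atTop (𝓝 (G x))) → ∀ c,
    ContDiffOn ℝ (k : ℕ∞) (G ∘ (F.φ c).symm) (Metric.ball (F.z c) (F.r c)) := by
  induction k with
  | zero =>
    intro f h G hG c
    obtain ⟨G', C, ρ, h0, h1, hb⟩ := F7_lim F h
    have hGG : G = G' := by
      funext x
      exact tendsto_nhds_unique (hG x) (F7_tendsto F h0 h1 hb x)
    subst hGG
    have hu : TendstoUniformly (fun m => (f m).1) G atTop := by
      rw [Metric.tendstoUniformly_iff]
      intro e he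
      have h2 : Tendsto (fun m : ℕ => C * ρ ^ m) atTop (𝓝 0) := by
        simpa using (tendsto_pow_atTop_nhds_zero_of_lt_one h0 h1).const_mul C
      filter_upwards [h2.eventually (gt_mem_nhds he)] with m hm x
      rw [dist_comm, Real.dist_eq]
      exact (hb m x).trans_lt hm
    have hc : Continuous G := hu.continuous (Frequently.of_forall fun m => F.cont (f m))
    have hb2 : Metric.ball (F.z c) (F.r c) ⊆ (F.φ c).target :=
      Metric.ball_subset_closedBall.trans (F.ball c)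
    have : ContinuousOn (G ∘ (F.φ c).symm) (Metric.ball (F.z c) (F.r c)) :=
      hc.comp_continuousOn ((F.φ c).continuousOn_symm.mono hb2)
    simpa using this
  | succ k ih =>
    intro f h G hG c
    have hb2 : Metric.ball (F.z c) (F.r c) ⊆ (F.φ c).target :=
      Metric.ball_subset_closedBall.trans (F.ball c)
    have hopen : IsOpen (Metric.ball (F.z c) (F.r c)) := Metric.isOpen_ball
    have hlim : ∀ j, ∃ (G : M → ℝ) (C ρ : ℝ), 0 ≤ ρ ∧ ρ < 1 ∧
        (∀ m x, |(F.X j (f m)).1 x - G x| ≤ C * ρ ^ m) := fun j => F7_lim F (F7_good_X F h j)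
    choose Gj Cj ρj h0 h1 hb using hlim
    choose Kj hK0 hK using fun j => F.fderiv_bdd (F.ψ j) c
    have hcd : ∀ j, ContDiffOn ℝ (k : ℕ∞) (Gj j ∘ (F.φ c).symm) (Metric.ball (F.z c) (F.r c)) :=
      fun j => ih _ (F7_good_X F h j) (Gj j) (fun x => F7_tendsto F (h0 j) (h1 j) (hb j) x) c
    set L : Eu d → (Eu d →L[ℝ] ℝ) := fun w =>
      ∑ j, (Gj j ((F.φ c).symm w)) • fderiv ℝ ((F.ψ j).1 ∘ (F.φ c).symm) w with hL
    set Lm : ℕ → Eu d → (Eu d →L[ℝ] ℝ) := fun m w =>
      ∑ j, ((F.X j (f m)).1 ((F.φ c).symm w)) • fderiv ℝ ((F.ψ j).1 ∘ (F.φ c).symm) w with hLm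
    have hfd : ∀ m w, w ∈ Metric.ball (F.z c) (F.r c) →
        HasFDerivAt ((f m).1 ∘ (F.φ c).symm) (Lm m w) w := by
      intro m w hw
      have hd : DifferentiableAt ℝ ((f m).1 ∘ (F.φ c).symm) w :=
        ((F.smooth (f m) c).differentiableOn (by simp)).differentiableAt
          ((F.φ c).open_target.mem_nhds (hb2 hw))
      have e : fderiv ℝ ((f m).1 ∘ (F.φ c).symm) w = Lm m w := by
        ext u
        rw [F.LF c (f m) w (hb2 hw) u]
        simp only [hLm, _root_.sum_apply, _root_.smul_apply, smul_eq_mul]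
        exact Finset.sum_congr rfl fun j _ => mul_comm _ _
      rw [← e]
      exact hd.hasFDerivAt
    have hunif : TendstoUniformlyOn Lm L atTop (Metric.ball (F.z c) (F.r c)) := by
      rw [Metric.tendstoUniformlyOn_iff]
      intro e he
      have h2 : Tendsto (fun m : ℕ => ∑ j, Cj j * ρj j ^ m * Kj j) atTop (𝓝 0) := by
        have : Tendsto (fun m : ℕ => ∑ j, Cj j * ρj j ^ m * Kj j) atTop (𝓝 (∑ j : F.ι, 0)) := by
          refine tendsto_finsetSum _ fun j _ => ?_
          have := ((tendsto_pow_atTop_nhds_zero_of_lt_one (h0 j) (h1 j)).const_mul (Cj j)).mul_const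
            (Kj j)
          simpa using this
        simpa using this
      filter_upwards [h2.eventually (gt_mem_nhds he)] with m hm w hw
      refine lt_of_le_of_lt ?_ hm
      rw [dist_comm, dist_eq_norm]
      simp only [hL, hLm]
      rw [← Finset.sum_sub_distrib]
      refine (norm_sum_le _ _).trans (Finset.sum_le_sum fun j _ => ?_)
      have e3 := sub_smul ((F.X j (f m)).1 ((F.φ c).symm w)) (Gj j ((F.φ c).symm w))
        (fderiv ℝ ((F.ψ j).1 ∘ (F.φ c).symm) w)
      refine (le_of_eq (congrArg norm e3.symm)).trans ?_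
      refine (norm_smul_le _ _).trans ?_
      rw [Real.norm_eq_abs]
      exact mul_le_mul (hb j m _) (hK j w (Metric.ball_subset_closedBall hw)) (norm_nonneg _)
        ((abs_nonneg _).trans (hb j m ((F.φ c).symm w)))
    have hder : ∀ w ∈ Metric.ball (F.z c) (F.r c), HasFDerivAt (G ∘ (F.φ c).symm) (L w) w := by
      intro w hw
      exact hasFDerivAt_of_tendstoUniformlyOn hopen hunif hfd
        (fun w _ => hG ((F.φ c).symm w)) hw
    have hLc : ContDiffOn ℝ (k : ℕ∞) L (Metric.ball (F.z c) (F.r c)) := by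
      refine ContDiffOn.sum fun j _ => ?_
      refine ContDiffOn.smul (hcd j) ?_
      have h3 : ContDiffOn ℝ ∞ (fderiv ℝ ((F.ψ j).1 ∘ (F.φ c).symm)) (F.φ c).target :=
        (F.smooth (F.ψ j) c).fderiv_of_isOpen (F.φ c).open_target (by simp)
      exact (h3.mono hb2).of_le (by exact_mod_cast le_top)
    have hgoal : ContDiffOn ℝ ((k : ℕ∞) + 1 : WithTop ℕ∞) (G ∘ (F.φ c).symm)
        (Metric.ball (F.z c) (F.r c)) := by
      rw [contDiffOn_succ_iff_fderiv_of_isOpen hopen]
      refine ⟨fun w hw => (hder w hw).differentiableAt.differentiableWithinAt, ?_, ?_⟩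
      · intro hω
        exact absurd hω (by simp)
      · exact hLc.congr fun w hw => (hder w hw).fderiv
    simpa using hgoal

theorem complete (f : ℕ → F.A) (h : ∀ I : List F.ι, ∃ C ρ : ℝ, 0 ≤ ρ ∧ ρ < 1 ∧
    ∀ m x, |(XX F.X I (f (m + 1) - f m)).1 x| ≤ C * ρ ^ m) :
    ∃ G : F.A, ∀ x, Tendsto (fun m => (f m).1 x) atTop (𝓝 (G.1 x)) := by
  obtain ⟨G, C, ρ, h0, h1, hb⟩ := F7_lim F h
  have hG := F7_tendsto F h0 h1 hb
  refine ⟨⟨G, F.of_smooth G fun c => ?_⟩, hG⟩
  rw [contDiffOn_infty]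
  intro k
  exact_mod_cast F7_main F k f h G hG c

end Pool.Agent.H73.PZ.Fr
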