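import Mathlib
import Pool.Agent.H73.PZ.F2
import Pool.Agent.H73.PZ.F3
import Pool.Agent.H73.PZ.F4
import Pool.Agent.H73.PZ.F6
import Pool.Agent.H73.PZ.F7

/-!
The calculus of a smooth action on a framed manifold (MP_d9606f_gt; assembly, helper73).
-/

open MeasureTheory Filter
open scoped Topology ContDiff

namespace Pool.Agent.H73.PZ.Fr

variable {Γ : Type} [Group Γ] {d : ℕ} {M : Type} [TopologicalSpace M] [MeasurableSpace M]
  [MulAction Γ M] (F : Fr d M)

/-- Composition with a group element. -/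
def cmp (hA : ∀ γ : Γ, ∀ f ∈ F.A, (fun x => f (γ • x)) ∈ F.A) (γ : Γ) : F.A →ₐ[ℝ] F.A where
  toFun f := ⟨fun x => f.1 (γ • x), hA γ f.1 f.2⟩
  map_one' := rfl
  map_mul' _ _ := rfl
  map_zero' := rfl
  map_add' _ _ := rfl
  commutes' _ := rfl

theorem exists_calc [CompactSpace M] [BorelSpace M] (hc : ∀ γ : Γ, Continuous fun x : M => γ • x)
    (hA : ∀ γ : Γ, ∀ f ∈ F.A, (fun x => f (γ • x)) ∈ F.A) :
    ∃ C : Calc Γ M F.ι d, C.A = F.A ∧ (∀ j, (C.ψ j).1 = (F.ψ j).1) ∧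
      ∀ (γ : Γ) (i j : F.ι) (x : M),
        (C.J γ i j).1 x = (F.X i ⟨fun y => (F.ψ j).1 (γ • y), hA γ _ (F.ψ j).2⟩).1 x := by
  classical
  obtain ⟨L, δ, hL, hδ, hlip⟩ := F.lip
  obtain ⟨E, δ', hδ', hexpo⟩ := F.expo
  obtain ⟨K, hK, hdist⟩ := F.distort
  refine ⟨{
    A := F.A
    cont := F.cont
    X := F.X
    ψ := F.ψ
    cmp := F.cmp hA
    cmp_apply := fun γ f x => rfl
    chain := fun γ i f => by
      apply Subtype.ext
      funext x
      have h := F.chain (hc γ) (hA γ) f i x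
      rw [F.val_sum]
      exact h
    sep := F.sep
    L := L
    L_nonneg := hL
    δ := min δ δ'
    δ_pos := lt_min hδ hδ'
    lip := fun f Λ hΛ x y hxy => hlip f Λ hΛ x y (hxy.trans (min_le_left _ _))
    E := E
    expo := fun f => by
      obtain ⟨C, hC⟩ := hexpo f
      exact ⟨C, fun x a ha => hC x a (ha.trans (min_le_right _ _))⟩
    μ := F.mu
    finite := F.mu_finite
    ball := F.mu_ball
    distort := ⟨K, hK, fun γ B hB hJ f hf => hdist (fun x => γ • x) (fun x => γ⁻¹ • x) (hc γ)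
      (hc γ⁻¹) (fun x => inv_smul_smul γ x) (fun x => smul_inv_smul γ x) (hA γ) (hA γ⁻¹) B hB
      hJ f hf⟩
    complete := F.complete }, rfl, fun j => rfl, fun γ i j x => rfl⟩

end Pool.Agent.H73.PZ.Fr
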