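import Mathlib
import Pool.Agent.H73.PZ.N3
import Pool.Agent.H73.PZ.Pub

/-!
MODULE N4 (MP_d9606f_gt, closed manifolds): the Riemannian metric from a tensor.

Construct `g : Bundle.ContMDiffRiemannianMetric` with `g.inner x = tensG ψ h x`: `symm` and `pos`
from the hypotheses, `contMDiff` from `tensG_smooth`, and `isVonNBounded`: in the finite
dimensional space `TangentSpace (𝓡 d) x` (which is `Eu d`), the positive definite form
`v ↦ tensG ψ h x v v` is continuous and positive on the compact unit sphere, so it is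
`≥ b ‖v‖²`, `b > 0`, and `{v | tensG ψ h x v v < 1}` is contained in a ball
(`NormedSpace.isVonNBounded_iff`); if `d = 0` everything is trivial.
(The topology on `TangentSpace (𝓡 d) x` is that of `Eu d`; use `change` or `show` to work in
`Eu d`.)  The invariance under the group is the hypothesis `hinv`.
-/

open MeasureTheory Filter Bundle
open scoped Topology ContDiff Manifold

namespace Pool.Agent.H73.PZ

private theorem vonN {d : ℕ} (B : Eu d →L[ℝ] Eu d →L[ℝ] ℝ) (hB : ∀ v, v ≠ 0 → 0 < B v v) :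
    Bornology.IsVonNBounded ℝ {v : Eu d | B v v < 1} := by
  have hcont : Continuous fun v : Eu d => B v v := B.continuous.clm_apply continuous_id
  obtain ⟨b, hb, hmin⟩ : ∃ b : ℝ, 0 < b ∧ ∀ v ∈ Metric.sphere (0 : Eu d) 1, b ≤ B v v := by
    rcases (Metric.sphere (0 : Eu d) 1).eq_empty_or_nonempty with h | h
    · exact ⟨1, one_pos, fun v hv => by rw [h] at hv; exact absurd hv (Set.notMem_empty v)⟩
    · obtain ⟨u, hu, hmin⟩ := (isCompact_sphere (0 : Eu d) 1).exists_isMinOn h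
        hcont.continuousOn
      refine ⟨B u u, hB u ?_, fun v hv => hmin hv⟩
      rintro rfl
      rw [mem_sphere_zero_iff_norm, norm_zero] at hu
      exact zero_ne_one hu
  rw [NormedSpace.isVonNBounded_iff]
  refine (Metric.isBounded_iff_subset_closedBall 0).2 ⟨1 / b + 1, fun v hv => ?_⟩
  rw [mem_closedBall_zero_iff]
  by_cases hv0 : v = 0
  · rw [hv0, norm_zero]; positivity
  have hn : 0 < ‖v‖ := norm_pos_iff.2 hv0
  have h1 : b ≤ B (‖v‖⁻¹ • v) (‖v‖⁻¹ • v) := hmin _ (by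
    rw [mem_sphere_zero_iff_norm, norm_smul, norm_inv, norm_norm, inv_mul_cancel₀ hn.ne'])
  have h1' : B (‖v‖⁻¹ • v) (‖v‖⁻¹ • v) = ‖v‖⁻¹ * (‖v‖⁻¹ * B v v) := by simp
  rw [h1'] at h1
  have h2 : b * ‖v‖ ^ 2 ≤ B v v := by
    have h3 : B v v = ‖v‖ ^ 2 * (‖v‖⁻¹ * (‖v‖⁻¹ * B v v)) := by field_simp
    rw [h3, mul_comm]
    exact mul_le_mul_of_nonneg_left h1 (by positivity)
  have h4 : b * ‖v‖ ^ 2 < 1 := lt_of_le_of_lt h2 hv
  by_contra hcon
  push Not at hcon
  have h5 : 1 < ‖v‖ := by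
    have : 0 < 1 / b := by positivity
    linarith
  have h6 : 1 / b < ‖v‖ := by linarith
  have h7 : 1 < b * ‖v‖ := by
    rw [div_lt_iff₀ hb] at h6
    linarith [mul_comm b ‖v‖]
  nlinarith

variable {d : ℕ} {M : Type} [TopologicalSpace M] [ChartedSpace (Eu d) M] [IsManifold (𝓡 d) ∞ M]

theorem isometric_of_tensor {Γ : Type} [Group Γ] [MulAction Γ M] {ι : Type} [Fintype ι]
    {ψ : ι → M → ℝ} {h : ι → ι → M → ℝ}
    (hψ : ∀ i, ContMDiff (𝓡 d) 𝓘(ℝ, ℝ) ∞ (ψ i))
    (hh : ∀ i j, ContMDiff (𝓡 d) 𝓘(ℝ, ℝ) ∞ (h i j))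
    (hsymm : ∀ (x : M) (v w : TangentSpace (𝓡 d) x), tensG ψ h x v w = tensG ψ h x w v)
    (hpos : ∀ (x : M) (v : TangentSpace (𝓡 d) x), v ≠ 0 → 0 < tensG ψ h x v v)
    (hinv : ∀ (γ : Γ) (x : M) (v w : TangentSpace (𝓡 d) x),
      tensG ψ h (γ • x) (mfderiv (𝓡 d) (𝓡 d) (fun y : M => γ • y) x v)
        (mfderiv (𝓡 d) (𝓡 d) (fun y : M => γ • y) x w) = tensG ψ h x v w) :
    IsIsometricAction d Γ M := by
  refine ⟨⟨fun x => tensG ψ h x, hsymm, hpos, fun x => ?_, tensG_smooth hψ hh⟩, hinv⟩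
  exact vonN (d := d) (tensG ψ h x) (hpos x)

end Pool.Agent.H73.PZ
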