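import Mathlib
import Pool.Agent.H73.PZ.Grp

/-!
MODULE G2 (MP_d9606f_gt, paper `/team-store/h73_padic_zimmer.md`, A1).
The congruence subgroup of level `p ^ 2` has no elements of finite order.

Proof.  It is enough to treat prime exponents `q` (if `g ^ q = 1` with `q > 0` minimal and `g ≠ 1`,
take a prime divisor `ℓ` of the order `q` of `g`; `g ^ (q / ℓ)` is in `KM 2`, is not `1` and has
`ℓ`-th power `1`).  Let `g = 1 + X`, `‖X i j‖ ≤ p ^ (-2)`, `g ^ q = 1`, `q` prime.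
In the ring of matrices, `0 = (1 + X) ^ q - 1 = ∑_{k=1}^{q} C(q,k) X ^ k = X * Z` where
`Z = ∑_{k=1}^{q} C(q,k) X ^ (k-1)` (the powers of `X` commute).
* `q ≠ p`: `Z = q (1 + Y)`, all entries of `Y` have norm `< 1` because `‖(q : ℚ_p)‖ = 1` and every
  term with `k ≥ 2` contains `X`.
* `q = p`: `Z = p (1 + Y)`, the entries of `Y` have norm `< 1`: for `2 ≤ k ≤ p - 1` the
  coefficient `C(p,k)` is divisible by `p` and `X ^ (k-1)` has entries of norm `≤ p ^ (-2)`; for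
  `k = p` the entries of `X ^ (p-1)` have norm `≤ p ^ (-2 (p-1)) ≤ p ^ (-2)`, divided by `p` still
  `≤ p ^ (-1)`.
In both cases `det (1 + Y)` has norm `1` (it is `≡ 1`), so it is non-zero, `1 + Y` is invertible
and `X = 0`.  (An alternative that avoids the determinant: suppose `X ≠ 0` and let `(i, j)` be an
entry of maximal norm `a > 0` of `X`; the `(i, j)` entry of `X * Y` has norm `≤ a * p^(-1) < a`, so
`X * (1 + Y)` has a non-zero `(i, j)` entry: contradiction.)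
-/

namespace Pool.Agent.H73.PZ

variable {p : ℕ} [Fact p.Prime] {n : ℕ}

private theorem G2_pow (X : Matrix (Fin n) (Fin n) ℚ_[p]) {a : ℝ} (ha : 0 ≤ a)
    (hX : ∀ i j, ‖X i j‖ ≤ a) (m : ℕ) (i j : Fin n) : ‖(X ^ m) i j‖ ≤ a ^ m := by
  induction m generalizing i j with
  | zero =>
    rw [pow_zero, pow_zero]
    exact norm_one_entry i j
  | succ m ih =>
    rw [pow_succ, Matrix.mul_apply, pow_succ]
    refine IsUltrametricDist.norm_sum_le_of_forall_le_of_nonneg (by positivity) fun k _ => ?_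
    rw [norm_mul]
    exact mul_le_mul (ih i k) (hX k j) (norm_nonneg _) (by positivity)

private theorem G2_expand (X : Matrix (Fin n) (Fin n) ℚ_[p]) (l : ℕ) (i j : Fin n) :
    ((X + 1) ^ l) i j = ∑ m ∈ Finset.range (l + 1), (l.choose m : ℚ_[p]) * (X ^ m) i j := by
  rw [(Commute.one_right X).add_pow, Matrix.sum_apply]
  refine Finset.sum_congr rfl fun m _ => ?_
  rw [one_pow, mul_one, ← nsmul_eq_mul', Matrix.smul_apply, nsmul_eq_mul]

private theorem G2_prime {X : Matrix (Fin n) (Fin n) ℚ_[p]}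
    (hX : ∀ i j, ‖X i j‖ ≤ (p : ℝ) ^ (-((2 : ℕ) : ℤ))) {l : ℕ} (hl : l.Prime)
    (h : (X + 1) ^ l = 1) : X = 0 := by
  by_contra hne
  obtain ⟨i1, j1, h1⟩ : ∃ i j, X i j ≠ 0 := by
    by_contra hc
    push Not at hc
    exact hne (by ext i j; simpa using hc i j)
  have : Nonempty (Fin n × Fin n) := ⟨(i1, j1)⟩
  obtain ⟨⟨i0, j0⟩, hmax⟩ := Finite.exists_max (fun x : Fin n × Fin n => ‖X x.1 x.2‖)
  have hmax' : ∀ i j, ‖X i j‖ ≤ ‖X i0 j0‖ := fun i j => hmax (i, j)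
  have hpos : 0 < ‖X i0 j0‖ := lt_of_lt_of_le (norm_pos_iff.2 h1) (hmax' i1 j1)
  have hp1 : (1 : ℝ) < p := by exact_mod_cast (Fact.out : p.Prime).one_lt
  have hp0 : (0 : ℝ) < p := by linarith
  have hsmall := hX i0 j0
  have hz : (p : ℝ) ^ (-((2 : ℕ) : ℤ)) = (p : ℝ)⁻¹ * (p : ℝ)⁻¹ := by
    rw [zpow_neg, zpow_natCast, pow_two, mul_inv]
  rw [hz] at hsmall
  set a := ‖X i0 j0‖ with ha
  have hinv1 : (p : ℝ)⁻¹ < 1 := inv_lt_one_of_one_lt₀ hp1
  have hinv0 : 0 < (p : ℝ)⁻¹ := inv_pos.2 hp0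
  have ha1 : a ≤ 1 := by nlinarith
  have hlpos : 0 < ‖(l : ℚ_[p])‖ := norm_pos_iff.2 (by exact_mod_cast hl.ne_zero)
  -- the entries of the terms of degree at least two
  have hterm : ∀ m, 2 ≤ m → m ≤ l →
      ‖(l.choose m : ℚ_[p]) * (X ^ m) i0 j0‖ ≤ ‖(l : ℚ_[p])‖ * a * (p : ℝ)⁻¹ := by
    intro m hm hml
    rw [norm_mul]
    have h2 : ‖(X ^ m) i0 j0‖ ≤ a * ((p : ℝ)⁻¹ * (p : ℝ)⁻¹) := by
      refine (G2_pow X hpos.le hmax' m i0 j0).trans ?_
      obtain ⟨k, rfl⟩ : ∃ k, m = k + 2 := ⟨m - 2, by omega⟩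
      have h3 : a ^ (k + 2) = a ^ k * (a * a) := by ring
      rw [h3]
      have h4 : a ^ k ≤ 1 := pow_le_one₀ hpos.le ha1
      have h5 : a * a ≤ a * ((p : ℝ)⁻¹ * (p : ℝ)⁻¹) := mul_le_mul_of_nonneg_left hsmall hpos.le
      calc a ^ k * (a * a) ≤ 1 * (a * a) := mul_le_mul_of_nonneg_right h4 (by positivity)
        _ = a * a := one_mul _
        _ ≤ _ := h5
    have h3 : ‖(l.choose m : ℚ_[p])‖ * ‖(X ^ m) i0 j0‖ ≤
        ‖(l.choose m : ℚ_[p])‖ * (a * ((p : ℝ)⁻¹ * (p : ℝ)⁻¹)) :=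
      mul_le_mul_of_nonneg_left h2 (norm_nonneg _)
    refine h3.trans ?_
    have hc1 : ‖(l.choose m : ℚ_[p])‖ ≤ 1 := by
      have := Padic.norm_int_le_one (p := p) (l.choose m : ℤ)
      simpa using this
    by_cases hlp : l = p
    · have hlinv : ‖(l : ℚ_[p])‖ = (p : ℝ)⁻¹ := by
        rw [hlp]
        exact Padic.norm_p
      rw [hlinv]
      have h4 : (p : ℝ)⁻¹ * a * (p : ℝ)⁻¹ = 1 * (a * ((p : ℝ)⁻¹ * (p : ℝ)⁻¹)) := by ring
      rw [h4]
      exact mul_le_mul_of_nonneg_right hc1 (by positivity)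
    · have hl1 : ‖(l : ℚ_[p])‖ = 1 := by
        have h5 : ¬ (p : ℤ) ∣ (l : ℤ) := by
          intro hd
          have h6 : p ∣ l := by exact_mod_cast hd
          exact hlp (((Nat.prime_dvd_prime_iff_eq (Fact.out : p.Prime) hl).1 h6).symm)
        have h7 := Padic.norm_int_le_one (p := p) (l : ℤ)
        have h8 := (Padic.norm_intCast_lt_one_iff (p := p) (k := (l : ℤ))).not.2 h5
        push Not at h8
        have h9 : ‖((l : ℤ) : ℚ_[p])‖ = 1 := le_antisymm h7 h8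
        simpa using h9
      rw [hl1]
      have h4 : a * ((p : ℝ)⁻¹ * (p : ℝ)⁻¹) ≤ a * (p : ℝ)⁻¹ := by
        apply mul_le_mul_of_nonneg_left _ hpos.le
        nlinarith
      calc ‖(l.choose m : ℚ_[p])‖ * (a * ((p : ℝ)⁻¹ * (p : ℝ)⁻¹))
          ≤ 1 * (a * ((p : ℝ)⁻¹ * (p : ℝ)⁻¹)) := mul_le_mul_of_nonneg_right hc1 (by positivity)
        _ ≤ 1 * a * (p : ℝ)⁻¹ := by linarith
  -- expand
  obtain ⟨t, rfl⟩ : ∃ t, l = t + 1 := ⟨l - 1, by have := hl.pos; omega⟩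
  have e := congrFun (congrFun h i0) j0
  rw [G2_expand, Finset.sum_range_succ', Finset.sum_range_succ'] at e
  have e0 : (((t + 1).choose 0 : ℕ) : ℚ_[p]) * (X ^ 0) i0 j0 =
      (1 : Matrix (Fin n) (Fin n) ℚ_[p]) i0 j0 := by
    rw [Nat.choose_zero_right, Nat.cast_one, pow_zero, one_mul]
  have e1 : (((t + 1).choose (0 + 1) : ℕ) : ℚ_[p]) * (X ^ (0 + 1)) i0 j0 =
      ((t + 1 : ℕ) : ℚ_[p]) * X i0 j0 := by
    rw [zero_add, Nat.choose_one_right, pow_one]
  rw [e0, e1] at e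
  have e2 : ((t + 1 : ℕ) : ℚ_[p]) * X i0 j0 =
      -∑ m ∈ Finset.range t, (((t + 1).choose (m + 1 + 1) : ℕ) : ℚ_[p]) * (X ^ (m + 1 + 1)) i0 j0 := by
    linear_combination e
  have e3 : ‖((t + 1 : ℕ) : ℚ_[p])‖ * a ≤ ‖((t + 1 : ℕ) : ℚ_[p])‖ * a * (p : ℝ)⁻¹ := by
    rw [ha, ← norm_mul, e2, norm_neg, ← norm_neg, ← e2, norm_mul, ← ha]
    have e4 : ‖((t + 1 : ℕ) : ℚ_[p])‖ * a = ‖∑ m ∈ Finset.range t,
        (((t + 1).choose (m + 1 + 1) : ℕ) : ℚ_[p]) * (X ^ (m + 1 + 1)) i0 j0‖ := by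
      rw [ha, ← norm_mul, e2, norm_neg]
    rw [e4]
    refine IsUltrametricDist.norm_sum_le_of_forall_le_of_nonneg (by positivity) fun m hm => ?_
    rw [← e4]
    exact hterm (m + 1 + 1) (by omega) (by have := Finset.mem_range.1 hm; omega)
  have h6 : 0 < ‖((t + 1 : ℕ) : ℚ_[p])‖ * a := mul_pos hlpos hpos
  nlinarith

theorem KM_two_torsionFree {g : SLn p n} (hg : g ∈ KM p n 2) {q : ℕ} (hq : 0 < q)
    (h : g ^ q = 1) : g = 1 := by
  induction q using Nat.strong_induction_on generalizing g with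
  | _ q ih =>
    by_cases hq1 : q = 1
    · rw [hq1, pow_one] at h
      exact h
    · have hl : (q.minFac).Prime := Nat.minFac_prime hq1
      obtain ⟨r, hr⟩ := Nat.minFac_dvd q
      have hr0 : 0 < r := by
        rcases Nat.eq_zero_or_pos r with h0 | h0
        · rw [h0, mul_zero] at hr
          omega
        · exact h0
      have hrq : r < q := by
        calc r = 1 * r := (one_mul r).symm
          _ < q.minFac * r := Nat.mul_lt_mul_of_pos_right hl.one_lt hr0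
          _ = q := hr.symm
      have h1 : g ^ q.minFac = 1 := by
        refine ih r hrq (pow_mem hg _) hr0 ?_
        rw [← pow_mul, ← hr, h]
      have h2 : (g.1 - 1) = 0 := by
        refine G2_prime (fun i j => ?_) hl ?_
        · rw [Matrix.sub_apply]
          exact (mem_KM.1 hg).2 i j
        · rw [sub_add_cancel]
          have h3 := congrArg Subtype.val h1
          rwa [Matrix.SpecialLinearGroup.coe_pow, Matrix.SpecialLinearGroup.coe_one] at h3
      apply Subtype.ext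
      rw [Matrix.SpecialLinearGroup.coe_one]
      exact sub_eq_zero.1 h2

end Pool.Agent.H73.PZ
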