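import Mathlib
import Pool.Agent.H73.PZ.G1
import Pool.Agent.H73.PZ.G2

/-!
MODULE G3 (MP_d9606f_gt, paper `/team-store/h73_padic_zimmer.md`, A2).
Lattices of `SL_n(ℚ_p)` are cocompact.

* `lattice_finite_size`: `Γ` is discrete, hence closed (`Subgroup.isClosed_of_discrete`), so its
  intersection with the compact set `{size ≤ R}` is compact and discrete, hence finite.
* `lattice_cocompact`.  Let `U = KM 2`.  For `g` in the group, `Γ ∩ g U g⁻¹` is contained in
  `{size ≤ size g ^ 2}`, so it is finite, so all its elements have finite order, and `g⁻¹ γ g ∈ U`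
  is `1` by `KM_two_torsionFree`.  Hence `(γ, u) ↦ γ g u` is injective on `Γ × U`.
  Let `μ` be the Haar measure and `F` the fundamental domain of `IsLattice`, `μ F < ∞`.  For every
  `g`: `μ (g U) ≤ μ (F ∩ Γ g U)`: up to measure zero `g U` is the disjoint union of the sets
  `g U ∩ γ F`; `μ (g U ∩ γ F) = μ (γ⁻¹ g U ∩ F)` and the sets `γ⁻¹ g U` are pairwise disjoint
  subsets of `Γ g U` (`Γ` is countable: it is a discrete subspace of a second countable space, or
  because it is a countable union of the finite sets `{size ≤ k}`).  Also `μ (g U) = μ U > 0`.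
  The double cosets `Γ g U` are pairwise disjoint or equal, so at most `μ F / μ U` of them exist.
  Let `R` be a finite set of representatives of the double cosets `Γ g U`; then
  `G = Γ R U ⊆ Γ R KK`.
-/

open MeasureTheory

namespace Pool.Agent.H73.PZ

variable {p : ℕ} [Fact p.Prime] {n : ℕ}

theorem lattice_finite_size {Γ : Subgroup (SLn p n)} (hΓ : DiscreteTopology Γ) (R : ℝ) :
    {γ : Γ | size (γ : SLn p n) ≤ R}.Finite := by
  have hcl : IsClosed (Γ : Set (SLn p n)) := Subgroup.isClosed_of_discrete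
  have hemb : Topology.IsClosedEmbedding (Subtype.val : Γ → SLn p n) := hcl.isClosedEmbedding_subtypeVal
  have hc : IsCompact ((Subtype.val : Γ → SLn p n) ⁻¹' {g : SLn p n | size g ≤ R}) :=
    hemb.isCompact_preimage (isCompact_size_le R)
  exact isCompact_iff_finite.1 hc

private theorem G3_countable {Γ : Subgroup (SLn p n)} (hΓ : DiscreteTopology Γ) : Countable Γ := by
  have h : (Set.univ : Set Γ) = ⋃ k : ℕ, {γ : Γ | size (γ : SLn p n) ≤ (k : ℝ)} := by
    ext γ
    simp only [Set.mem_univ, Set.mem_iUnion, Set.mem_setOf_eq, true_iff]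
    exact exists_nat_ge _
  have h2 : (⋃ k : ℕ, {γ : Γ | size (γ : SLn p n) ≤ (k : ℝ)}).Countable :=
    Set.countable_iUnion fun k => (lattice_finite_size hΓ (k : ℝ)).countable
  rw [← h] at h2
  exact Set.countable_univ_iff.1 h2

private theorem G3_inj {Γ : Subgroup (SLn p n)} (hΓ : DiscreteTopology Γ) {γ γ' : Γ}
    {g u u' : SLn p n} (hu : u ∈ KM p n 2) (hu' : u' ∈ KM p n 2)
    (h : (γ : SLn p n) * g * u = γ' * g * u') : γ = γ' := by
  have hu0 : u' * u⁻¹ ∈ KM p n 2 := mul_mem hu' (inv_mem hu)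
  have hd : ((γ'⁻¹ * γ : Γ) : SLn p n) = g * (u' * u⁻¹) * g⁻¹ := by
    push_cast
    have h1 : (γ : SLn p n) = γ' * g * u' * u⁻¹ * g⁻¹ := by
      rw [← h]
      group
    rw [h1]
    group
  have hpow : ∀ k : ℕ, (((γ'⁻¹ * γ) ^ k : Γ) : SLn p n) = g * (u' * u⁻¹) ^ k * g⁻¹ := by
    intro k
    rw [SubmonoidClass.coe_pow, hd, conj_pow]
  have hfin : IsOfFinOrder (γ'⁻¹ * γ) := by
    by_contra hf
    have h2 := injective_pow_iff_not_isOfFinOrder.2 hf
    refine Set.infinite_of_injective_forall_mem h2 (s := {γ : Γ | size (γ : SLn p n) ≤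
      size g * 1 * size g}) (fun k => ?_) (lattice_finite_size hΓ _)
    show size (((γ'⁻¹ * γ) ^ k : Γ) : SLn p n) ≤ size g * 1 * size g
    rw [hpow]
    refine (size_mul_le _ _).trans ?_
    rw [size_inv]
    refine mul_le_mul_of_nonneg_right ?_ (size_nonneg _)
    refine (size_mul_le _ _).trans ?_
    exact mul_le_mul_of_nonneg_left (mem_KK.1 (KM_le_KK 2 (pow_mem hu0 k))) (size_nonneg _)
  obtain ⟨k, hk, hk1⟩ := isOfFinOrder_iff_pow_eq_one.1 hfin
  have h3 := hpow k
  rw [hk1, Subgroup.coe_one] at h3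
  have h4 : (u' * u⁻¹) ^ k = 1 := by
    have h5 : (u' * u⁻¹) ^ k = g⁻¹ * (g * (u' * u⁻¹) ^ k * g⁻¹) * g := by group
    rw [h5, ← h3]
    group
  have h6 := KM_two_torsionFree hu0 hk h4
  rw [h6, mul_one, mul_inv_cancel] at hd
  have h7 : γ'⁻¹ * γ = 1 := by
    apply Subtype.ext
    rw [hd]
    rfl
  exact (inv_mul_eq_one.1 h7).symm

/-- the double coset -/
private def G3_D (Γ : Subgroup (SLn p n)) (g : SLn p n) : Set (SLn p n) :=
  {x | ∃ γ : Γ, ∃ u ∈ KM p n 2, x = γ * g * u}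

open scoped Pointwise in
private theorem G3_D_eq (Γ : Subgroup (SLn p n)) (g : SLn p n) :
    G3_D Γ g = ⋃ γ : Γ, γ • (g • (KM p n 2 : Set (SLn p n))) := by
  ext x
  simp only [G3_D, Set.mem_setOf_eq, Set.mem_iUnion]
  constructor
  · rintro ⟨γ, u, hu, rfl⟩
    refine ⟨γ, Set.mem_smul_set.2 ⟨g * u, Set.mem_smul_set.2 ⟨u, hu, rfl⟩, ?_⟩⟩
    rw [mul_assoc]
    rfl
  · rintro ⟨γ, hx⟩
    obtain ⟨y, hy, rfl⟩ := Set.mem_smul_set.1 hx
    obtain ⟨u, hu, rfl⟩ := Set.mem_smul_set.1 hy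
    refine ⟨γ, u, hu, ?_⟩
    rw [mul_assoc]
    rfl

open scoped Pointwise in
private theorem G3_open (Γ : Subgroup (SLn p n)) (g : SLn p n) (γ : Γ) :
    IsOpen (γ • (g • (KM p n 2 : Set (SLn p n)))) :=
  ((isOpen_KM 2).smul g).smul (γ : SLn p n)

open scoped Pointwise in
private theorem G3_measure {Γ : Subgroup (SLn p n)} (hΓ : DiscreteTopology Γ)
    {μ : Measure (SLn p n)} (hμ : μ.IsHaarMeasure) {F : Set (SLn p n)}
    (hF : IsFundamentalDomain Γ F μ) (g : SLn p n) :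
    (μ.restrict F) (G3_D Γ g) = μ (KM p n 2 : Set (SLn p n)) := by
  have := G3_countable hΓ
  have h1 : μ (g • (KM p n 2 : Set (SLn p n))) = μ (KM p n 2 : Set (SLn p n)) :=
    measure_smul μ g _
  rw [← h1, hF.measure_eq_tsum, G3_D_eq, measure_iUnion]
  · refine tsum_congr fun γ => ?_
    rw [Measure.restrict_apply (G3_open Γ g γ).measurableSet]
  · intro γ γ' hne
    refine Set.disjoint_left.2 fun x hx hx' => hne ?_
    obtain ⟨y, hy, rfl⟩ := Set.mem_smul_set.1 hx
    obtain ⟨u, hu, rfl⟩ := Set.mem_smul_set.1 hy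
    obtain ⟨y', hy', hyy⟩ := Set.mem_smul_set.1 hx'
    obtain ⟨u', hu', rfl⟩ := Set.mem_smul_set.1 hy'
    have h2 : (γ' : SLn p n) * (g * u') = γ * (g * u) := hyy
    refine G3_inj (g := g) hΓ hu hu' ?_
    rw [mul_assoc, mul_assoc]
    exact h2.symm
  · exact fun γ => (G3_open Γ g γ).measurableSet

theorem lattice_cocompact {Γ : Subgroup (SLn p n)} (hΓ : IsLattice Γ) :
    ∃ R : Finset (SLn p n), ∀ g : SLn p n, ∃ γ : Γ, ∃ r ∈ R, ∃ k ∈ KK p n,
      g = (γ : SLn p n) * r * k := by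
  obtain ⟨hd, μ, hμ, F, hF, hfin⟩ := hΓ
  have hpos : 0 < μ (KM p n 2 : Set (SLn p n)) := (isOpen_KM 2).measure_pos μ ⟨1, one_mem _⟩
  -- the number of double cosets is bounded
  have hbound : ∀ S : Finset (SLn p n), (S : Set (SLn p n)).PairwiseDisjoint (G3_D Γ) →
      (S.card : ENNReal) * μ (KM p n 2 : Set (SLn p n)) ≤ μ F := by
    intro S hS
    have hm : ∀ g, MeasurableSet (G3_D Γ g) := by
      intro g
      rw [G3_D_eq]
      exact (isOpen_iUnion fun γ => G3_open Γ g γ).measurableSet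
    have h1 : (μ.restrict F) (⋃ g ∈ S, G3_D Γ g) = ∑ g ∈ S, (μ.restrict F) (G3_D Γ g) :=
      measure_biUnion_finset hS fun g _ => hm g
    rw [Finset.sum_congr rfl fun g _ => G3_measure hd hμ hF g, Finset.sum_const,
      nsmul_eq_mul] at h1
    rw [← h1]
    refine (measure_mono (Set.subset_univ _)).trans ?_
    rw [Measure.restrict_apply_univ]
  by_contra hR
  push Not at hR
  have hall : ∀ c : ℕ, ∃ S : Finset (SLn p n), S.card = c ∧
      (S : Set (SLn p n)).PairwiseDisjoint (G3_D Γ) := by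
    intro c
    induction c with
    | zero => exact ⟨∅, rfl, by simp⟩
    | succ c ih =>
      obtain ⟨S, hS, hSd⟩ := ih
      obtain ⟨g, hg⟩ := hR S
      have hgS : g ∉ S := fun h => hg 1 g h 1 (one_mem _) (by simp)
      refine ⟨Finset.cons g S hgS, by rw [Finset.card_cons, hS], ?_⟩
      rw [Finset.coe_cons]
      refine hSd.insert fun s hs _ => ?_
      refine Set.disjoint_left.2 ?_
      rintro x ⟨γ, u, hu, rfl⟩ ⟨γ', u', hu', hx⟩
      refine hg (γ⁻¹ * γ') s hs (u' * u⁻¹) (KM_le_KK 2 (mul_mem hu' (inv_mem hu))) ?_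
      have h1 : g = (γ : SLn p n)⁻¹ * ((γ : SLn p n) * g * u) * u⁻¹ := by group
      rw [h1, hx]
      push_cast
      group
  have hfin2 : μ F / μ (KM p n 2 : Set (SLn p n)) ≠ ⊤ := ENNReal.div_ne_top hfin hpos.ne'
  obtain ⟨N, hN⟩ := ENNReal.exists_nat_gt hfin2
  obtain ⟨S, hS, hSd⟩ := hall N
  have h1 := hbound S hSd
  rw [hS] at h1
  have hUfin : μ (KM p n 2 : Set (SLn p n)) ≠ ⊤ := by
    have h2 : IsCompact (KK p n : Set (SLn p n)) := isCompact_KK
    exact ((measure_mono (KM_le_KK 2)).trans_lt h2.measure_lt_top).ne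
  have h2 : (N : ENNReal) ≤ μ F / μ (KM p n 2 : Set (SLn p n)) :=
    (ENNReal.le_div_iff_mul_le (Or.inl hpos.ne') (Or.inl hUfin)).2 h1
  exact absurd hN (not_lt.2 h2)

end Pool.Agent.H73.PZ
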