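import Mathlib
import Pool.Agent.H73.PZ.G3
import Pool.Agent.H73.PZ.G4

/-!
MODULE G5 (MP_d9606f_gt, paper `/team-store/h73_padic_zimmer.md`, A5).
Coarse geodesics in the lattice.

Proof.  Let `R` be as in `lattice_cocompact` and `c` the maximum of `size r`, `r ∈ R` (and `1`).
Applying `lattice_cocompact` to inverses: for every `g` there is `w ∈ Γ` with
`size (g * w⁻¹) ≤ c` (from `g⁻¹ = γ r k` we get `g = k⁻¹ r⁻¹ γ⁻¹`, `w = γ⁻¹`).
Let `size γ ≤ p ^ m`, `m ≥ 1`, `γ = k * dg p a * k'` (`cartan`).  Then `dg p a = k⁻¹ γ k'⁻¹` has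
size `≤ p ^ m`, so `|a i| ≤ m` for all `i` (look at the diagonal entries `p ^ (a i)`, and at those
of the inverse, `norm_p_zpow`).  For `0 ≤ j ≤ m` let `b j i = ⌊a i * j / m⌋` (integer division
`a i * j / m`) for `i` not the last index and `b j last = - ∑_{i ≠ last} b j i`.  Then `∑ b j = 0`,
and for `j ≤ j'`: `|b j' i - b j i| ≤ (j' - j) + 1` for `i` not last, and for the last index,
because `∑ a = 0`, `b j last` differs from `a last * j / m` by at most `n`, so
`|b j' last - b j last| ≤ (j' - j) + 2 n`.  Choose `w j ∈ Γ` with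
`size (dg p (b j) * k' * (w j)⁻¹) ≤ c`.  Then
`w j' * (w j)⁻¹ = (dg (b j') k' (w j')⁻¹)⁻¹ * dg (b j' - b j) * (dg (b j) k' (w j)⁻¹)` has size
`≤ c ^ 2 * p ^ (j' - j + 2 n)`.  For `j = 0`: `b 0 = 0`, `w 0 = (k' (w 0)⁻¹)⁻¹ k'` has size `≤ c`.
For `j = m`: `b m = a` (at the last index because `∑ a = 0`) and
`γ * (w m)⁻¹ = k * (dg a * k' * (w m)⁻¹)` has size `≤ c`.
-/

namespace Pool.Agent.H73.PZ

variable {p : ℕ} [Fact p.Prime] {n : ℕ}

private theorem G5_proj {Γ : Subgroup (SLn p n)} (hΓ : IsLattice Γ) :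
    ∃ c : ℝ, 1 ≤ c ∧ ∀ g : SLn p n, ∃ w : Γ, size (g * (w : SLn p n)⁻¹) ≤ c := by
  classical
  obtain ⟨R, hR⟩ := lattice_cocompact hΓ
  refine ⟨1 + ∑ r ∈ R, size r, ?_, fun g => ?_⟩
  · have : 0 ≤ ∑ r ∈ R, size r := Finset.sum_nonneg fun r _ => size_nonneg r
    linarith
  · obtain ⟨γ, r, hr, k, hk, e⟩ := hR g⁻¹
    refine ⟨γ⁻¹, ?_⟩
    have e2 : g * (((γ⁻¹ : Γ) : SLn p n))⁻¹ = k⁻¹ * r⁻¹ := by
      have : g = (g⁻¹)⁻¹ := (inv_inv g).symm
      rw [this, e]
      push_cast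
      group
    rw [e2]
    refine (size_mul_le _ _).trans ?_
    rw [size_inv, size_inv]
    have h1 : size k ≤ 1 := mem_KK.1 hk
    have h2 : size r ≤ ∑ r ∈ R, size r :=
      Finset.single_le_sum (f := fun r => size r) (fun r _ => size_nonneg r) hr
    have h3 := size_nonneg r
    nlinarith [size_nonneg k]

private theorem G5_div {m : ℤ} (hm : 0 < m) {x : ℤ} {j j' : ℤ} (hj : j ≤ j') (hx : |x| ≤ m) :
    |x * j' / m - x * j / m| ≤ j' - j := by
  have h1 := Int.emod_add_mul_ediv (x * j) m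
  have h2 := Int.emod_add_mul_ediv (x * j') m
  have h3 := Int.emod_nonneg (x * j) hm.ne'
  have h4 := Int.emod_nonneg (x * j') hm.ne'
  have h5 := Int.emod_lt_of_pos (x * j) hm
  have h6 := Int.emod_lt_of_pos (x * j') hm
  have h7 : x * (j' - j) ≤ m * (j' - j) :=
    mul_le_mul_of_nonneg_right (abs_le.1 hx).2 (by linarith)
  have h8 : -m * (j' - j) ≤ x * (j' - j) :=
    mul_le_mul_of_nonneg_right (abs_le.1 hx).1 (by linarith)
  rw [abs_le]
  constructor
  · by_contra hc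
    have hc' : x * j' / m - x * j / m ≤ -(j' - j) - 1 := by omega
    have := mul_le_mul_of_nonneg_left hc' hm.le
    nlinarith
  · by_contra hc
    have hc' : (j' - j) + 1 ≤ x * j' / m - x * j / m := by omega
    have := mul_le_mul_of_nonneg_left hc' hm.le
    nlinarith

private theorem G5_exps (hn : 0 < n) {a : Fin n → ℤ} (ha : ∑ i, a i = 0) {m : ℕ} (hm : 1 ≤ m)
    (hb : ∀ i, |a i| ≤ m) : ∃ b : ℕ → Fin n → ℤ, (∀ j, ∑ i, b j i = 0) ∧ b 0 = (fun _ => 0) ∧
      b m = a ∧ ∀ i j, i ≤ j → ∀ l, |b j l - b i l| ≤ ((j - i + n : ℕ) : ℤ) := by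
  classical
  have hm0 : (0 : ℤ) < m := by exact_mod_cast hm
  set i0 : Fin n := ⟨0, hn⟩ with hi0
  set q : ℕ → Fin n → ℤ := fun j i => a i * (j : ℤ) / (m : ℤ) with hq
  have hsplit : ∀ f : Fin n → ℤ, ∑ i, f i = f i0 + ∑ i ∈ Finset.univ.erase i0, f i :=
    fun f => (Finset.add_sum_erase _ _ (Finset.mem_univ i0)).symm
  refine ⟨fun j i => if i = i0 then -∑ l ∈ Finset.univ.erase i0, q j l else q j i,
    fun j => ?_, ?_, ?_, fun i j hij l => ?_⟩
  · rw [hsplit]
    beta_reduce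
    rw [if_pos rfl]
    rw [Finset.sum_congr rfl (g := fun l => q j l) (fun l hl => if_neg (Finset.ne_of_mem_erase hl))]
    ring
  · funext i
    simp [hq]
  · have hqm : ∀ l, q m l = a l := fun l => Int.mul_ediv_cancel _ hm0.ne'
    funext i
    simp only [hqm]
    split_ifs with h
    · subst h
      have := hsplit a
      rw [ha] at this
      linarith
    · rfl
  · have hcast : ((j - i + n : ℕ) : ℤ) = (j : ℤ) - i + n := by
      push_cast [Nat.cast_sub hij]
      ring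
    rw [hcast]
    have hij' : (i : ℤ) ≤ j := by exact_mod_cast hij
    have hn' : (0 : ℤ) ≤ n := by positivity
    by_cases hl : l = i0
    · simp only [hl, if_true]
      -- the special index
      have key : ∀ t : ℕ, a i0 * t ≤ m * (-∑ l ∈ Finset.univ.erase i0, q t l) ∧
          m * (-∑ l ∈ Finset.univ.erase i0, q t l) ≤ a i0 * t + n * m := by
        intro t
        have e1 : ∑ l ∈ Finset.univ.erase i0, (a l * (t : ℤ)) = -(a i0 * t) := by
          rw [← Finset.sum_mul]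
          have := hsplit a
          rw [ha] at this
          have h2 : ∑ l ∈ Finset.univ.erase i0, a l = -a i0 := by linarith
          rw [h2]; ring
        have e2 : ∑ l ∈ Finset.univ.erase i0, (a l * (t : ℤ)) =
            ∑ l ∈ Finset.univ.erase i0, (a l * (t : ℤ)) % m +
              m * ∑ l ∈ Finset.univ.erase i0, q t l := by
          rw [Finset.mul_sum, ← Finset.sum_add_distrib]
          exact Finset.sum_congr rfl fun l _ => (Int.emod_add_mul_ediv _ _).symm
        have e3 : 0 ≤ ∑ l ∈ Finset.univ.erase i0, (a l * (t : ℤ)) % m :=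
          Finset.sum_nonneg fun l _ => Int.emod_nonneg _ hm0.ne'
        have e4 : ∑ l ∈ Finset.univ.erase i0, (a l * (t : ℤ)) % m ≤ n * m := by
          calc _ ≤ ∑ _l ∈ Finset.univ.erase i0, (m : ℤ) :=
                Finset.sum_le_sum fun l _ => (Int.emod_lt_of_pos _ hm0).le
            _ ≤ ∑ _l : Fin n, (m : ℤ) :=
                Finset.sum_le_sum_of_subset_of_nonneg (Finset.erase_subset _ _)
                  fun _ _ _ => hm0.le
            _ = n * m := by simp
        constructor <;> linarith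
      obtain ⟨k1, k2⟩ := key i
      obtain ⟨k3, k4⟩ := key j
      set X := -∑ l ∈ Finset.univ.erase i0, q j l with hX
      set Y := -∑ l ∈ Finset.univ.erase i0, q i l with hY
      have h7 : a i0 * ((j : ℤ) - i) ≤ m * ((j : ℤ) - i) :=
        mul_le_mul_of_nonneg_right (abs_le.1 (hb i0)).2 (by linarith)
      have h8 : -(m : ℤ) * ((j : ℤ) - i) ≤ a i0 * ((j : ℤ) - i) :=
        mul_le_mul_of_nonneg_right (abs_le.1 (hb i0)).1 (by linarith)
      rw [abs_le]
      constructor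
      · refine le_of_mul_le_mul_left ?_ hm0
        linarith
      · refine le_of_mul_le_mul_left ?_ hm0
        linarith
    · simp only [hl, if_false]
      have := G5_div hm0 hij' (hb l)
      linarith

private theorem G5_bound {a : Fin n → ℤ} (ha : ∑ i, a i = 0) {m : ℕ}
    (h : size (dg p a) ≤ (p : ℝ) ^ m) (i : Fin n) : |a i| ≤ m := by
  have hp1 : (1 : ℝ) < p := by exact_mod_cast (Fact.out : p.Prime).one_lt
  have h1 := (norm_le_size (dg p a) i i).trans h
  have h2 := (norm_inv_le_size (dg p a) i i).trans h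
  rw [dg_coe ha, Matrix.diagonal_apply_eq, norm_p_zpow, ← zpow_natCast,
    zpow_le_zpow_iff_right₀ hp1] at h1
  rw [← dg_neg ha, dg_coe (by rw [Finset.sum_neg_distrib, ha, neg_zero]),
    Matrix.diagonal_apply_eq, norm_p_zpow, ← zpow_natCast, zpow_le_zpow_iff_right₀ hp1] at h2
  rw [abs_le]
  constructor <;> linarith

theorem lattice_paths (hn : 0 < n) {Γ : Subgroup (SLn p n)} (hΓ : IsLattice Γ) :
    ∃ C : ℝ, ∀ (γ : Γ) (m : ℕ), 1 ≤ m → size (γ : SLn p n) ≤ (p : ℝ) ^ m →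
      ∃ w : ℕ → Γ, (∀ i j, i ≤ j → j ≤ m →
          size ((w j * (w i)⁻¹ : Γ) : SLn p n) ≤ C * (p : ℝ) ^ (j - i)) ∧
        size ((w 0 : Γ) : SLn p n) ≤ C ∧ size ((γ * (w m)⁻¹ : Γ) : SLn p n) ≤ C := by
  have hp1 : (1 : ℝ) ≤ p := by exact_mod_cast (Fact.out : p.Prime).one_lt.le
  obtain ⟨c, hc1, hc⟩ := G5_proj hΓ
  have hpn : (1 : ℝ) ≤ (p : ℝ) ^ n := one_le_pow₀ hp1
  have hcC : c ≤ c ^ 2 * (p : ℝ) ^ n := by
    have h1 : c ≤ c ^ 2 := by nlinarith
    nlinarith [sq_nonneg c]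
  refine ⟨c ^ 2 * (p : ℝ) ^ n, fun γ m hm hsz => ?_⟩
  obtain ⟨k, hk, k', hk', a, ha, e⟩ := cartan hn (γ : SLn p n)
  have hsk : size k ≤ 1 := mem_KK.1 hk
  have hsk' : size k' ≤ 1 := mem_KK.1 hk'
  have hda : size (dg p a) ≤ (p : ℝ) ^ m := by
    have e1 : dg p a = k⁻¹ * (γ : SLn p n) * k'⁻¹ := by
      rw [e]; group
    rw [e1]
    refine (size_mul_le _ _).trans ?_
    have h1 := size_mul_le k⁻¹ (γ : SLn p n)
    rw [size_inv] at h1
    rw [size_inv]
    have h2 := size_nonneg k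
    have h3 := size_nonneg k'
    have h4 := size_nonneg (γ : SLn p n)
    have h5 := size_nonneg (k⁻¹ * (γ : SLn p n))
    calc size (k⁻¹ * (γ : SLn p n)) * size k' ≤ size (k⁻¹ * (γ : SLn p n)) * 1 :=
          mul_le_mul_of_nonneg_left hsk' h5
      _ ≤ size k * size (γ : SLn p n) := by rw [mul_one]; exact h1
      _ ≤ 1 * size (γ : SLn p n) := mul_le_mul_of_nonneg_right hsk h4
      _ ≤ (p : ℝ) ^ m := by rw [one_mul]; exact hsz
  obtain ⟨b, hb0, hbz, hbm, hbd⟩ := G5_exps hn ha hm (G5_bound ha hda)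
  choose w hw using fun j => hc (dg p (b j) * k')
  refine ⟨w, fun i j hij _ => ?_, ?_, ?_⟩
  · have hsum : ∑ l, (b j l + -b i l) = 0 := by
      rw [Finset.sum_add_distrib, Finset.sum_neg_distrib, hb0, hb0]; simp
    have e1 : ((w j * (w i)⁻¹ : Γ) : SLn p n) = (dg p (b j) * k' * (w j : SLn p n)⁻¹)⁻¹ *
        dg p (fun l => b j l + -b i l) * (dg p (b i) * k' * (w i : SLn p n)⁻¹) := by
      rw [dg_add (hb0 j) (by rw [Finset.sum_neg_distrib, hb0, neg_zero]), dg_neg (hb0 i)]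
      push_cast
      group
    have h1 : size (dg p (fun l => b j l + -b i l)) ≤ (p : ℝ) ^ (((j - i + n : ℕ) : ℤ)) :=
      size_dg_le hsum fun l => by
        have := hbd i j hij l
        rwa [sub_eq_add_neg] at this
    rw [zpow_natCast, pow_add] at h1
    rw [e1]
    refine (size_mul_le _ _).trans ?_
    have h2 := size_mul_le (dg p (b j) * k' * (w j : SLn p n)⁻¹)⁻¹
      (dg p (fun l => b j l + -b i l))
    rw [size_inv] at h2
    have hpp : (0 : ℝ) ≤ (p : ℝ) ^ (j - i) * (p : ℝ) ^ n := by positivity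
    have hc0 : 0 ≤ c := by linarith
    have h3 : size ((dg p (b j) * k' * (w j : SLn p n)⁻¹)⁻¹ *
        dg p (fun l => b j l + -b i l)) ≤ c * ((p : ℝ) ^ (j - i) * (p : ℝ) ^ n) :=
      h2.trans (mul_le_mul (hw j) h1 (size_nonneg _) hc0)
    calc _ ≤ c * ((p : ℝ) ^ (j - i) * (p : ℝ) ^ n) * c :=
          mul_le_mul h3 (hw i) (size_nonneg _) (mul_nonneg hc0 hpp)
      _ = c ^ 2 * (p : ℝ) ^ n * (p : ℝ) ^ (j - i) := by ring
  · have e1 : ((w 0 : Γ) : SLn p n) = (dg p (b 0) * k' * (w 0 : SLn p n)⁻¹)⁻¹ * k' := by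
      rw [hbz, dg_zero]
      group
    rw [e1]
    refine (size_mul_le _ _).trans ?_
    rw [size_inv]
    refine le_trans ?_ hcC
    calc _ ≤ c * 1 := mul_le_mul (hw 0) hsk' (size_nonneg _) (by linarith)
      _ = c := mul_one c
  · have e1 : ((γ * (w m)⁻¹ : Γ) : SLn p n) =
        k * (dg p (b m) * k' * (w m : SLn p n)⁻¹) := by
      rw [hbm]
      push_cast
      rw [e]
      group
    rw [e1]
    refine (size_mul_le _ _).trans ?_
    refine le_trans ?_ hcC
    calc _ ≤ 1 * c := mul_le_mul hsk (hw m) (size_nonneg _) (by linarith)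
      _ = c := one_mul c

end Pool.Agent.H73.PZ
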