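import Mathlib
import Pool.Agent.H73.PZ.G1
import Pool.Agent.H73.PZ.G7

/-!
MODULE G6 (MP_d9606f_gt, paper `/team-store/h73_padic_zimmer.md`, A3).
A bi-invariant Haar measure on `SL_n(ℚ_p)` with `μ (SL_n(ℤ_p)) = 1`.

Proof.  `SL_n(ℚ_p)` is locally compact (`locallyCompactSpace_SLn`), second countable (subspace of a
finite dimensional space over `ℚ_p`; or inner regularity can be avoided by working with the
modular character of Mathlib).  Let `μ` be a (left) Haar measure, normalised by `μ KK = 1` (`KK` is
compact and open, so `0 < μ KK < ∞`).  For `g` let `c g` be the factor with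
`map (· * g) μ = c g • μ` (uniqueness of Haar measure, or `modularCharacterFun`); `c` is a
homomorphism to the positive reals.  For `g = EE h x`: with `S = {EE h y | ‖y‖ ≤ ‖x‖}`, a subgroup
contained in the compact set `{size ≤ max 1 ‖x‖}`, the set `V = ` (finite union of translates) ...
the simplest way: the set `c '' S` is a subgroup of `(0, ∞)`, and it is bounded: `c g⁻¹`
(or `c g`) equals `μ (KK * g) / μ KK` and `KK * g ⊆ {size ≤ R}`, a compact set, for
all `g ∈ S`, so `c` is bounded on `S`; a bounded subgroup of `(0, ∞)` is trivial (powers).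
So `c (EE h x) = 1` for all `h, x`, and `c = 1` by `EE_induction` (`n ≥ 2`).
-/

open MeasureTheory

namespace Pool.Agent.H73.PZ

variable {p : ℕ} [Fact p.Prime] {n : ℕ}

private theorem g6_secondCountable : SecondCountableTopology (SLn p n) := by
  have : SecondCountableTopology (Matrix (Fin n) (Fin n) ℚ_[p]) := by
    change SecondCountableTopology (Fin n → Fin n → ℚ_[p])
    infer_instance
  exact Topology.IsEmbedding.subtypeVal.secondCountableTopology

/-- A transvection has modular character one. -/
private theorem g6_char_EE (c : SLn p n →* NNReal) {i j : Fin n} (h : i ≠ j) (x : ℚ_[p]) :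
    c (EE h x) = 1 := by
  have hp2 : 2 ≤ p := (Fact.out : p.Prime).two_le
  set a : Fin n → ℤ := fun k => (if k = i then 1 else 0) - (if k = j then 1 else 0) with ha
  have hsum : ∑ k, a k = 0 := by
    rw [ha, Finset.sum_sub_distrib]
    simp
  have haij : a i - a j = 2 := by
    simp only [ha]
    simp [h, h.symm]
  have h1 := dg_conj (p := p) hsum h x
  rw [haij] at h1
  have h2 : EE h ((p : ℚ_[p]) ^ (2 : ℤ) * x) = EE h x ^ (p ^ 2) := by
    rw [← EE_nsmul]
    congr 1
    push_cast
    norm_cast
  rw [h2] at h1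
  have h3 := congrArg c h1
  rw [map_mul, map_mul, map_pow, mul_comm] at h3
  have hne : ∀ g : SLn p n, c g ≠ 0 := by
    intro g hg
    have : c (g * g⁻¹) = 0 := by rw [map_mul, hg, zero_mul]
    rw [mul_inv_cancel, map_one] at this
    exact one_ne_zero this
  have h4 : c (EE h x) = c (EE h x) ^ (p ^ 2) := mul_right_cancel₀ (hne _) h3
  have h5 : c (EE h x) ^ (p ^ 2 - 1) = 1 := by
    have h6 : c (EE h x) ^ (p ^ 2 - 1) * c (EE h x) = 1 * c (EE h x) := by
      rw [one_mul, ← pow_succ, Nat.sub_add_cancel (Nat.one_le_pow _ _ (by omega))]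
      exact h4.symm
    exact mul_right_cancel₀ (hne _) h6
  have h7 : p ^ 2 - 1 ≠ 0 := by
    have : 2 ^ 2 ≤ p ^ 2 := Nat.pow_le_pow_left hp2 2
    omega
  exact (pow_eq_one_iff.1 h5).resolve_right h7

theorem exists_bihaar (hn : 2 ≤ n) : ∃ μ : Measure (SLn p n), μ.IsHaarMeasure ∧
    (∀ (g : SLn p n) (s : Set (SLn p n)), MeasurableSet s → μ ((fun x => x * g) ⁻¹' s) = μ s) ∧
    μ (KK p n : Set (SLn p n)) = 1 := by
  have := locallyCompactSpace_SLn (p := p) (n := n)
  have := g6_secondCountable (p := p) (n := n)
  let K₀ : TopologicalSpace.PositiveCompacts (SLn p n) :=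
    ⟨⟨KK p n, isCompact_KK⟩, by
      rw [isOpen_KK.interior_eq]
      exact ⟨1, one_mem _⟩⟩
  refine ⟨Measure.haarMeasure K₀, inferInstance, ?_, Measure.haarMeasure_self⟩
  intro g s hs
  set μ := Measure.haarMeasure K₀
  have hc : Measure.modularCharacter g = 1 :=
    EE_induction hn (fun g => Measure.modularCharacter g = 1)
      (fun i j h x => g6_char_EE _ h x)
      (fun a b ha hb => by rw [map_mul, ha, hb, one_mul]) g
  have hmap : Measure.map (· * g) μ = μ := by
    have h1 : Measure.map (· * g) μ = Measure.haarScalarFactor (Measure.map (· * g) μ) μ • μ :=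
      Measure.isMulLeftInvariant_eq_smul _ μ
    have h2 : Measure.haarScalarFactor (Measure.map (· * g) μ) μ = 1 := by
      rw [← Measure.modularCharacterFun_eq_haarScalarFactor μ g]
      exact hc
    rw [h1, h2, one_smul]
  rw [← Measure.map_apply (measurable_mul_const g) hs, hmap]

end Pool.Agent.H73.PZ
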