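import Mathlib
import Pool.Agent.H73.PZ.PSD
import Pool.Agent.H73.PZ.Grp

/-!
Representations of `SL_n(ℚ_p)` of polynomial growth on spaces with a positive semidefinite form, on
which `SL_n(ℤ_p)` acts isometrically.  (MP_d9606f_gt, helper73; definitions.)
-/

namespace Pool.Agent.H73.PZ

/-- `τ` is a representation of `SL_n(ℚ_p)` on `(H, B)`; `KK` acts isometrically, the norm of
`τ g` is at most `A * size g ^ κ`, and every vector is fixed by a congruence subgroup. -/
structure Rep (p : ℕ) [Fact p.Prime] (n : ℕ) {H : Type} [AddCommGroup H] [Module ℝ H]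
    (B : H → H → ℝ) (τ : SLn p n →* Module.End ℝ H) (A κ : ℝ) : Prop where
  psd : PSD B
  isom : ∀ k ∈ KK p n, ∀ u v, B (τ k u) (τ k v) = B u v
  A_nonneg : 0 ≤ A
  κ_nonneg : 0 ≤ κ
  growth : ∀ g v, nm B (τ g v) ≤ A * size g ^ κ * nm B v
  smooth : ∀ v, ∃ M : ℕ, ∀ u ∈ KM p n M, τ u v = v

end Pool.Agent.H73.PZ
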