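import Mathlib
import Pool.Agent.H73.PZ.Rep
import Pool.Agent.H73.PZ.G1

/-!
The induced representation (MP_d9606f_gt, paper B3; definitions, helper73).

`CC R` is the compact open set `⋃_{r ∈ R ∪ {1}} r KK`.  `HS ρ` is the space of functions
`F : SL_n(ℚ_p) → V` with `F (γ g) = ρ γ (F g)` that are right invariant under some congruence
subgroup; `rt ρ` is the action of `SL_n(ℚ_p)` by right translation; `BH μ R B` is the form
`∫_{CC R} B (F g) (F' g) dμ`.
-/

open MeasureTheory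

namespace Pool.Agent.H73.PZ

noncomputable section

variable {p : ℕ} [Fact p.Prime] {n : ℕ}

/-- The compact open set `⋃_{r ∈ R ∪ {1}} r KK`. -/
def CC (R : Finset (SLn p n)) : Set (SLn p n) :=
  {g | ∃ r : SLn p n, (r = 1 ∨ r ∈ R) ∧ ∃ k ∈ KK p n, g = r * k}

variable {Γ : Subgroup (SLn p n)} {V : Type} [AddCommGroup V] [Module ℝ V]

/-- Equivariant, right locally constant functions. -/
def HS (ρ : Γ →* Module.End ℝ V) : Submodule ℝ (SLn p n → V) where
  carrier := {F | (∀ (γ : Γ) (g : SLn p n), F ((γ : SLn p n) * g) = ρ γ (F g)) ∧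
    ∃ M : ℕ, ∀ g : SLn p n, ∀ u ∈ KM p n M, F (g * u) = F g}
  add_mem' := by
    rintro F F' ⟨h1, M, h2⟩ ⟨h1', M', h2'⟩
    refine ⟨fun γ g => by simp [h1, h1', map_add], max M M', fun g u hu => ?_⟩
    rw [Pi.add_apply, Pi.add_apply, h2 g u (KM_anti (le_max_left _ _) hu),
      h2' g u (KM_anti (le_max_right _ _) hu)]
  zero_mem' := ⟨fun γ g => by simp, 0, fun g u _ => rfl⟩
  smul_mem' := by
    rintro c F ⟨h1, M, h2⟩
    refine ⟨fun γ g => by simp [h1, map_smul], M, fun g u hu => ?_⟩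
    rw [Pi.smul_apply, Pi.smul_apply, h2 g u hu]

theorem HS_equiv {ρ : Γ →* Module.End ℝ V} (F : HS ρ) (γ : Γ) (g : SLn p n) :
    F.1 ((γ : SLn p n) * g) = ρ γ (F.1 g) := F.2.1 γ g

theorem HS_smooth {ρ : Γ →* Module.End ℝ V} (F : HS ρ) :
    ∃ M : ℕ, ∀ g : SLn p n, ∀ u ∈ KM p n M, F.1 (g * u) = F.1 g := F.2.2

/-- Right translation by `h`. -/
def rt1 (ρ : Γ →* Module.End ℝ V) (h : SLn p n) : Module.End ℝ (HS ρ) where
  toFun F := ⟨fun g => F.1 (g * h), by
    obtain ⟨M, hM⟩ := HS_smooth F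
    obtain ⟨M', hM'⟩ := KM_conj h⁻¹ M
    refine ⟨fun γ g => ?_, M', fun g u hu => ?_⟩
    · change F.1 ((γ : SLn p n) * g * h) = ρ γ (F.1 (g * h))
      rw [mul_assoc, HS_equiv]
    · change F.1 (g * u * h) = F.1 (g * h)
      have e : g * u * h = g * h * (h⁻¹ * u * h⁻¹⁻¹) := by group
      rw [e, hM _ _ (hM' u hu)]⟩
  map_add' F F' := rfl
  map_smul' c F := rfl

theorem rt1_apply (ρ : Γ →* Module.End ℝ V) (h : SLn p n) (F : HS ρ) (g : SLn p n) :
    (rt1 ρ h F).1 g = F.1 (g * h) := rfl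

/-- The representation by right translations. -/
def rt (ρ : Γ →* Module.End ℝ V) : SLn p n →* Module.End ℝ (HS ρ) where
  toFun := rt1 ρ
  map_one' := by
    apply LinearMap.ext; intro F
    apply Subtype.ext; funext g
    rw [rt1_apply, mul_one]; rfl
  map_mul' h h' := by
    apply LinearMap.ext; intro F
    apply Subtype.ext; funext g
    rw [rt1_apply, Module.End.mul_apply, rt1_apply, rt1_apply, mul_assoc]

theorem rt_apply (ρ : Γ →* Module.End ℝ V) (h : SLn p n) (F : HS ρ) (g : SLn p n) :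
    (rt ρ h F).1 g = F.1 (g * h) := rfl

/-- The form on `HS ρ`. -/
def BH (μ : Measure (SLn p n)) (R : Finset (SLn p n)) (B : V → V → ℝ)
    {ρ : Γ →* Module.End ℝ V} (F F' : HS ρ) : ℝ :=
  ∫ g in CC R, B (F.1 g) (F'.1 g) ∂μ

end

end Pool.Agent.H73.PZ
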