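import Mathlib
import Pool.Agent.H73.PZ.HS
import Pool.Agent.H73.PZ.G3

/-!
MODULE HA (MP_d9606f_gt, paper `/team-store/h73_padic_zimmer.md`, B and B3).
Elementary facts on the compact open set `CC R = ⋃_{r ∈ R ∪ {1}} r KK`.

* open, compact: finite union of left translates of `KK` (`isOpen_KK`, `isCompact_KK`).
* `CC_count`: if `γ g, γ' g ∈ r KK` with the same `r` then `γ γ'⁻¹ ∈ r KK r⁻¹` has size
  `≤ size r ^ 2`, so for every `r` the set of these `γ` injects into the finite set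
  `{size ≤ size r ^ 2}` (`lattice_finite_size`); sum over `r ∈ R ∪ {1}`.  The bound does not depend
  on `g`.
-/

open MeasureTheory

namespace Pool.Agent.H73.PZ

variable {p : ℕ} [Fact p.Prime] {n : ℕ} {R : Finset (SLn p n)} {Γ : Subgroup (SLn p n)}

theorem KK_subset_CC : (KK p n : Set (SLn p n)) ⊆ CC R := fun k hk =>
  ⟨1, Or.inl rfl, k, hk, (one_mul k).symm⟩

theorem CC_mul_mem {g k : SLn p n} (hg : g ∈ CC R) (hk : k ∈ KK p n) : g * k ∈ CC R := by
  obtain ⟨r, hr, k', hk', rfl⟩ := hg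
  exact ⟨r, hr, k' * k, mul_mem hk' hk, mul_assoc _ _ _⟩

private theorem HA_CC_eq : CC R = ⋃ r ∈ insert (1 : SLn p n) (R : Set (SLn p n)),
    (fun k => r * k) '' (KK p n : Set (SLn p n)) := by
  ext g
  simp only [CC, Set.mem_ofPred_eq, Set.mem_iUnion, Set.mem_image, Set.mem_insert_iff,
    SetLike.mem_coe, exists_prop]
  constructor
  · rintro ⟨r, hr, k, hk, rfl⟩
    exact ⟨r, hr, k, hk, rfl⟩
  · rintro ⟨r, hr, k, hk, rfl⟩
    exact ⟨r, hr, k, hk, rfl⟩

theorem isOpen_CC : IsOpen (CC R) := by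
  rw [HA_CC_eq]
  exact isOpen_biUnion fun r _ => isOpenMap_mul_left r _ isOpen_KK

theorem isCompact_CC : IsCompact (CC R) := by
  rw [HA_CC_eq]
  refine Set.Finite.isCompact_biUnion ((Finset.finite_toSet R).insert _) fun r _ => ?_
  exact isCompact_KK.image (continuous_const_mul r)

theorem CC_bound (R : Finset (SLn p n)) : ∃ c : ℝ, 1 ≤ c ∧ ∀ g ∈ CC R, size g ≤ c := by
  refine ⟨1 + ∑ r ∈ R, size r, ?_, ?_⟩
  · have := Finset.sum_nonneg (fun r (_ : r ∈ R) => size_nonneg (r : SLn p n))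
    linarith
  · rintro g ⟨r, hr, k, hk, rfl⟩
    have h0 := Finset.sum_nonneg (fun r (_ : r ∈ R) => size_nonneg (r : SLn p n))
    have h1 : size (r * k) ≤ size r * 1 := (size_mul_le r k).trans
      (mul_le_mul_of_nonneg_left (mem_KK.1 hk) (size_nonneg r))
    rcases hr with rfl | hr
    · have := size_one_le (p := p) (n := n)
      linarith
    · have h2 := Finset.single_le_sum (f := fun r : SLn p n => size r)
        (fun r (_ : r ∈ R) => size_nonneg (r : SLn p n)) hr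
      linarith

theorem CC_cover (hR : ∀ g : SLn p n, ∃ γ : Γ, ∃ r ∈ R, ∃ k ∈ KK p n, g = (γ : SLn p n) * r * k)
    (g : SLn p n) : ∃ γ : Γ, ((γ⁻¹ : Γ) : SLn p n) * g ∈ CC R := by
  obtain ⟨γ, r, hr, k, hk, e⟩ := hR g
  refine ⟨γ, r, Or.inr hr, k, hk, ?_⟩
  rw [e, Subgroup.coe_inv]
  group

theorem CC_finite (hΓ : DiscreteTopology Γ) (g : SLn p n) :
    {γ : Γ | (γ : SLn p n) * g ∈ CC R}.Finite := by
  obtain ⟨c, hc, hb⟩ := CC_bound R
  refine (lattice_finite_size hΓ (c * size g)).subset fun γ hγ => ?_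
  have e : (γ : SLn p n) = ((γ : SLn p n) * g) * g⁻¹ := by group
  have h1 := size_mul_le ((γ : SLn p n) * g) g⁻¹
  rw [← e, size_inv] at h1
  exact h1.trans (mul_le_mul_of_nonneg_right (hb _ hγ) (size_nonneg g))

/-- For every `r`, the number of `γ` with `γ g ∈ r KK` is bounded independently of `g`. -/
private theorem HA_count1 (hΓ : DiscreteTopology Γ) (r g : SLn p n) :
    {γ : Γ | ∃ k ∈ KK p n, (γ : SLn p n) * g = r * k}.ncard ≤
      {γ : Γ | size (γ : SLn p n) ≤ size r * size r}.ncard := by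
  classical
  rcases Set.eq_empty_or_nonempty {γ : Γ | ∃ k ∈ KK p n, (γ : SLn p n) * g = r * k} with h | h
  · rw [h, Set.ncard_empty]; exact Nat.zero_le _
  · obtain ⟨γ₀, k₀, hk₀, e₀⟩ := h
    refine Set.ncard_le_ncard_of_injOn (fun γ => γ * γ₀⁻¹) ?_ ?_
      (lattice_finite_size hΓ _)
    · rintro γ ⟨k, hk, e⟩
      have e1 : ((γ * γ₀⁻¹ : Γ) : SLn p n) = r * (k * k₀⁻¹) * r⁻¹ := by
        have e2 : (γ : SLn p n) = r * k * g⁻¹ := by rw [← e]; group
        have e3 : (γ₀ : SLn p n) = r * k₀ * g⁻¹ := by rw [← e₀]; group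
        rw [Subgroup.coe_mul, Subgroup.coe_inv, e2, e3]
        group
      change size ((γ * γ₀⁻¹ : Γ) : SLn p n) ≤ _
      rw [e1]
      have h1 := size_mul_le (r * (k * k₀⁻¹)) r⁻¹
      have h2 := size_mul_le r (k * k₀⁻¹)
      have h3 : size (k * k₀⁻¹) ≤ 1 := mem_KK.1 (mul_mem hk (inv_mem hk₀))
      rw [size_inv] at h1
      have h4 : size r * size (k * k₀⁻¹) ≤ size r * 1 :=
        mul_le_mul_of_nonneg_left h3 (size_nonneg r)
      refine h1.trans (mul_le_mul_of_nonneg_right ?_ (size_nonneg r))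
      linarith
    · intro γ _ γ' _ hh
      exact mul_right_cancel hh

theorem CC_count (hΓ : DiscreteTopology Γ) (R : Finset (SLn p n)) :
    ∃ N₀ : ℕ, ∀ g : SLn p n, {γ : Γ | (γ : SLn p n) * g ∈ CC R}.ncard ≤ N₀ := by
  classical
  refine ⟨∑ r ∈ insert 1 R, {γ : Γ | size (γ : SLn p n) ≤ size r * size r}.ncard, fun g => ?_⟩
  have hsub : {γ : Γ | (γ : SLn p n) * g ∈ CC R} ⊆
      ⋃ r ∈ insert (1 : SLn p n) R, {γ : Γ | ∃ k ∈ KK p n, (γ : SLn p n) * g = r * k} := by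
    rintro γ ⟨r, hr, k, hk, e⟩
    simp only [Set.mem_iUnion, exists_prop]
    exact ⟨r, Finset.mem_insert.2 hr, k, hk, e⟩
  have hfin : (⋃ r ∈ insert (1 : SLn p n) R,
      {γ : Γ | ∃ k ∈ KK p n, (γ : SLn p n) * g = r * k}).Finite := by
    refine (CC_finite (R := insert 1 R) hΓ g).subset fun γ hγ => ?_
    simp only [Set.mem_iUnion, exists_prop] at hγ
    obtain ⟨r, hr, k, hk, e⟩ := hγ
    exact ⟨r, Or.inr hr, k, hk, e⟩
  refine (Set.ncard_le_ncard hsub hfin).trans ?_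
  refine (Finset.set_ncard_biUnion_le _ _).trans ?_
  exact Finset.sum_le_sum fun r _ => HA_count1 hΓ r g

end Pool.Agent.H73.PZ
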