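import Mathlib
import Pool.Agent.H73.PZ.HA

/-!
MODULE HB (MP_d9606f_gt, paper `/team-store/h73_padic_zimmer.md`, B3).
The form `BH` on the induced space: it is positive semidefinite, `KK` acts isometrically, and
values at points are controlled by the norm.

`μ` is a Haar measure, right invariant in the form of `hr`, `μ KK = 1`.
* For `F, F' ∈ HS ρ` the function `g ↦ B (F g) (F' g)` is right invariant under some `KM M`, which
  is open (`isOpen_KM`), so it is locally constant, hence continuous; `CC R` is compact and `μ` is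
  finite on compacts, so it is integrable on `CC R` (`ContinuousOn.integrableOn_compact`).
  Additivity etc. of `BH` follow (`integral_add`, ...).
* `BH_isom`: the function `f g = B (F g) (F' g)` satisfies `∫_{CC} f (g k) = ∫_{CC} f` since
  `CC R * k = CC R` and `map (· * k) μ = μ` (from `hr`; `MeasureTheory.Measure.ext`).
* `BH_eval`: for `g ∈ CC R`, `g KM M ⊆ CC R` and the integrand of `BH F F` is `≥ 0`, equal to
  `B (F g) (F g)` on `g KM M`, whose measure is `μ (KM M)` (left invariance).
* `BH_le`: the integrand is bounded by `b ^ 2`.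
-/

open MeasureTheory

namespace Pool.Agent.H73.PZ

variable {p : ℕ} [Fact p.Prime] {n : ℕ} {R : Finset (SLn p n)} {Γ : Subgroup (SLn p n)}
  {V : Type} [AddCommGroup V] [Module ℝ V] {B : V → V → ℝ} {ρ : Γ →* Module.End ℝ V}
  {μ : Measure (SLn p n)}

private theorem hb_locConst (F : HS ρ) : IsLocallyConstant F.1 := by
  obtain ⟨M, hM⟩ := HS_smooth F
  rw [IsLocallyConstant.iff_exists_open]
  intro g
  refine ⟨(fun x => g⁻¹ * x) ⁻¹' (KM p n M : Set (SLn p n)), ?_, ?_, ?_⟩
  · exact (isOpen_KM M).preimage (continuous_const.mul continuous_id)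
  · simp [one_mem]
  · intro x hx
    have h1 : g⁻¹ * x ∈ KM p n M := hx
    have h2 := hM g _ h1
    rwa [mul_inv_cancel_left] at h2

private theorem hb_cont (F F' : HS ρ) : Continuous (fun g => B (F.1 g) (F'.1 g)) :=
  ((hb_locConst F).comp₂ (hb_locConst F') B).continuous

theorem HS_integrable (hB : PSD B) (hμ : μ.IsHaarMeasure) (F F' : HS ρ) :
    IntegrableOn (fun g => B (F.1 g) (F'.1 g)) (CC R) μ := by
  have _ := hB
  exact (hb_cont F F').continuousOn.integrableOn_compact' isCompact_CC isOpen_CC.measurableSet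

theorem BH_psd (hB : PSD B) (hμ : μ.IsHaarMeasure) : PSD (BH μ R B (ρ := ρ)) where
  add_left u v w := by
    unfold BH
    rw [← integral_add (HS_integrable hB hμ u w) (HS_integrable hB hμ v w)]
    refine integral_congr_ae (Filter.Eventually.of_forall fun g => ?_)
    exact hB.add_left _ _ _
  smul_left r u v := by
    unfold BH
    rw [← integral_const_mul]
    refine integral_congr_ae (Filter.Eventually.of_forall fun g => ?_)
    exact hB.smul_left _ _ _
  symm u v := by
    unfold BH
    refine integral_congr_ae (Filter.Eventually.of_forall fun g => ?_)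
    exact hB.symm _ _
  nonneg v := by
    unfold BH
    exact integral_nonneg fun g => hB.nonneg _

theorem BH_isom (hB : PSD B) (hμ : μ.IsHaarMeasure)
    (hr : ∀ (g : SLn p n) (s : Set (SLn p n)), MeasurableSet s →
      μ ((fun x => x * g) ⁻¹' s) = μ s)
    {k : SLn p n} (hk : k ∈ KK p n) (F F' : HS ρ) :
    BH μ R B (rt ρ k F) (rt ρ k F') = BH μ R B F F' := by
  have _ := hB
  have _ := hμ
  have hmeas : Measurable (fun x : SLn p n => x * k) :=
    (continuous_id.mul continuous_const).measurable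
  have hmp : MeasurePreserving (fun x : SLn p n => x * k) μ μ := by
    refine ⟨hmeas, ?_⟩
    refine Measure.ext fun s hs => ?_
    rw [Measure.map_apply hmeas hs]
    exact hr k s hs
  have hemb : MeasurableEmbedding (fun x : SLn p n => x * k) :=
    (Homeomorph.mulRight k).measurableEmbedding
  have hpre : (fun x : SLn p n => x * k) ⁻¹' (CC R) = CC R := by
    ext x
    constructor
    · rintro ⟨r, hr', k', hk', he⟩
      refine ⟨r, hr', k' * k⁻¹, mul_mem hk' (inv_mem hk), ?_⟩
      have he' : x * k = r * k' := he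
      rw [← mul_assoc, ← he', mul_inv_cancel_right]
    · intro hx
      exact CC_mul_mem hx hk
  have h1 := hmp.setIntegral_preimage_emb hemb (fun g => B (F.1 g) (F'.1 g)) (CC R)
  rw [hpre] at h1
  unfold BH
  rw [← h1]
  rfl

theorem KM_measure_pos (hμ : μ.IsHaarMeasure) (M : ℕ) :
    0 < (μ (KM p n M : Set (SLn p n))).toReal := by
  apply ENNReal.toReal_pos
  · exact ((isOpen_KM M).measure_pos μ ⟨1, one_mem _⟩).ne'
  · exact (lt_of_le_of_lt (measure_mono (KM_le_KK M : (KM p n M : Set (SLn p n)) ⊆ KK p n))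
      (isCompact_KK.measure_lt_top)).ne

private theorem hb_eval (hB : PSD B) (hμ : μ.IsHaarMeasure) (F : HS ρ) {s : Set (SLn p n)}
    (hs : MeasurableSet s) (hsub : s ⊆ CC R) {g : SLn p n} (hF : ∀ x ∈ s, F.1 x = F.1 g) :
    (μ s).toReal * B (F.1 g) (F.1 g) ≤ BH μ R B F F := by
  have h1 : ∫ x in s, B (F.1 x) (F.1 x) ∂μ = (μ s).toReal * B (F.1 g) (F.1 g) := by
    rw [setIntegral_congr_fun hs (g := fun _ => B (F.1 g) (F.1 g))
      (fun x hx => by simp only [hF x hx])]
    rw [setIntegral_const, smul_eq_mul]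
    rfl
  rw [← h1]
  unfold BH
  apply setIntegral_mono_set (HS_integrable hB hμ F F)
  · exact Filter.Eventually.of_forall fun x => hB.nonneg _
  · exact hsub.eventuallyLE

theorem BH_eval (hB : PSD B) (hμ : μ.IsHaarMeasure) (F : HS ρ) {M : ℕ}
    (hF : ∀ g : SLn p n, ∀ u ∈ KM p n M, F.1 (g * u) = F.1 g) {g : SLn p n} (hg : g ∈ CC R) :
    (μ (KM p n M : Set (SLn p n))).toReal * B (F.1 g) (F.1 g) ≤ BH μ R B F F := by
  have h1 : μ ((fun x => g⁻¹ * x) ⁻¹' (KM p n M : Set (SLn p n))) = μ (KM p n M) :=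
    measure_preimage_mul μ g⁻¹ _
  rw [← h1]
  apply hb_eval hB hμ F
  · exact ((isOpen_KM M).preimage (continuous_const.mul continuous_id)).measurableSet
  · intro x hx
    have h2 : g⁻¹ * x ∈ KM p n M := hx
    have h3 := CC_mul_mem hg (KM_le_KK M h2)
    rwa [mul_inv_cancel_left] at h3
  · intro x hx
    have h2 : g⁻¹ * x ∈ KM p n M := hx
    have h3 := hF g _ h2
    rwa [mul_inv_cancel_left] at h3

theorem BH_eval_KK (hB : PSD B) (hμ : μ.IsHaarMeasure)
    (h1 : μ (KK p n : Set (SLn p n)) = 1) (F : HS ρ)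
    (hF : ∀ g : SLn p n, ∀ u ∈ KK p n, F.1 (g * u) = F.1 g) :
    B (F.1 1) (F.1 1) ≤ BH μ R B F F := by
  have h2 := hb_eval (R := R) hB hμ F (s := (KK p n : Set (SLn p n))) isOpen_KK.measurableSet
    KK_subset_CC (g := 1) (fun x hx => by
      have := hF 1 x hx
      rwa [one_mul] at this)
  rw [h1] at h2
  simpa using h2

theorem BH_le (hB : PSD B) (hμ : μ.IsHaarMeasure) (F : HS ρ) {b : ℝ} (hb : 0 ≤ b)
    (hF : ∀ g ∈ CC R, nm B (F.1 g) ≤ b) :
    BH μ R B F F ≤ (μ (CC R)).toReal * b ^ 2 := by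
  have h1 : ∫ _ in CC R, b ^ 2 ∂μ = (μ (CC R)).toReal * b ^ 2 := by
    rw [setIntegral_const, smul_eq_mul]
    rfl
  rw [← h1]
  unfold BH
  apply setIntegral_mono_on (HS_integrable hB hμ F F) _ isOpen_CC.measurableSet
  · intro g hg
    rw [← hB.nm_sq]
    exact pow_le_pow_left₀ (PSD.nm_nonneg _) (hF g hg) 2
  · exact integrableOn_const (isCompact_CC.measure_lt_top).ne

end Pool.Agent.H73.PZ
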