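import Mathlib
import Pool.Agent.H73.PZ.HB

/-!
MODULE HD (MP_d9606f_gt, paper `/team-store/h73_padic_zimmer.md`, B3).
Growth of the induced representation.

Proof.  Let `f g = B (F g) (F g) ≥ 0`, a locally constant function.
`BH (rt h F) (rt h F) = ∫_{g ∈ CC} f (g h) = ∫ 1_{CC}(g h⁻¹) f g dg` (right invariance).
For every `g` there is `γ ∈ Γ` with `γ⁻¹ g ∈ CC` (`CC_cover`), and for each such `γ`
`F g = ρ γ (F (γ⁻¹ g))`, so
`f g ≤ ∑_{γ ∈ Γ} 1_{CC}(γ⁻¹ g) A² size(γ)^(2κ) f (γ⁻¹ g)`.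
Hence the integral is at most (Tonelli, `Γ` countable; left invariance, `g → γ g`)
`∑_γ ∫ 1_{CC}(γ g h⁻¹) 1_{CC}(g) A² size(γ)^(2κ) f g dg
  = ∫_{CC} f g (∑_{γ : γ g h⁻¹ ∈ CC} A² size(γ)^(2κ)) dg`.
For `g ∈ CC` and `γ g h⁻¹ ∈ CC`: `γ = (γ g h⁻¹) h g⁻¹`, `size γ ≤ c² size h`; the number of these
`γ` is at most `N₀` (`CC_count` at the point `g h⁻¹`).  So the norm squared is at most
`N₀ A² (c² size h)^(2κ) BH F F`; take `A₁ = √N₀ * A * c^(2κ)`.
It is convenient to do the computation with `lintegral` and `ENNReal.ofReal`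
(`lintegral_tsum`), all functions being measurable (locally constant).
-/

open MeasureTheory

namespace Pool.Agent.H73.PZ

variable {p : ℕ} [Fact p.Prime] {n : ℕ} {R : Finset (SLn p n)} {Γ : Subgroup (SLn p n)}
  {V : Type} [AddCommGroup V] [Module ℝ V] {B : V → V → ℝ} {ρ : Γ →* Module.End ℝ V}
  {μ : Measure (SLn p n)}

private theorem HD_countable (hΓ : DiscreteTopology Γ) : Countable Γ := by
  have h : (Set.univ : Set Γ) = ⋃ k : ℕ, {γ : Γ | size (γ : SLn p n) ≤ k} := by
    ext γ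
    simp only [Set.mem_univ, Set.mem_iUnion, Set.mem_ofPred_eq, true_iff]
    exact exists_nat_ge _
  rw [← Set.countable_univ_iff, h]
  exact Set.countable_iUnion fun k => (lattice_finite_size hΓ _).countable

private theorem HD_cont (F : HS ρ) : Continuous (fun g => B (F.1 g) (F.1 g)) := by
  obtain ⟨M, hM⟩ := HS_smooth F
  have h : IsLocallyConstant (fun g => B (F.1 g) (F.1 g)) := by
    rw [IsLocallyConstant.iff_exists_open]
    intro g
    refine ⟨(fun y => g⁻¹ * y) ⁻¹' (KM p n M : Set (SLn p n)),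
      (isOpen_KM M).preimage (continuous_const.mul continuous_id), ?_, ?_⟩
    · change g⁻¹ * g ∈ KM p n M
      rw [inv_mul_cancel]
      exact one_mem _
    · intro y hy
      have h1 : F.1 y = F.1 g := by
        have h2 := hM g (g⁻¹ * y) hy
        rwa [mul_inv_cancel_left] at h2
      change B (F.1 y) (F.1 y) = B (F.1 g) (F.1 g)
      rw [h1]
  exact h.continuous

private theorem HD_lint (hB : PSD B) (hμ : μ.IsHaarMeasure) (F : HS ρ) :
    ENNReal.ofReal (BH μ R B F F) =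
      ∫⁻ g in CC R, ENNReal.ofReal (B (F.1 g) (F.1 g)) ∂μ := by
  unfold BH
  exact ofReal_integral_eq_lintegral_ofReal (HS_integrable hB hμ F F)
    (Filter.Eventually.of_forall fun g => hB.nonneg _)

theorem BH_growth (hn : 0 < n) (hΓ : DiscreteTopology Γ)
    (hR : ∀ g : SLn p n, ∃ γ : Γ, ∃ r ∈ R, ∃ k ∈ KK p n, g = (γ : SLn p n) * r * k)
    (hB : PSD B) (hμ : μ.IsHaarMeasure)
    (hr : ∀ (g : SLn p n) (s : Set (SLn p n)), MeasurableSet s →
      μ ((fun x => x * g) ⁻¹' s) = μ s)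
    {A κ : ℝ} (hA : 0 ≤ A) (hκ : 0 ≤ κ)
    (hρ : ∀ (γ : Γ) (v : V), nm B (ρ γ v) ≤ A * size (γ : SLn p n) ^ κ * nm B v) :
    ∃ A₁ : ℝ, 0 ≤ A₁ ∧ ∀ (h : SLn p n) (F : HS ρ),
      nm (BH μ R B) (rt ρ h F) ≤ A₁ * size h ^ κ * nm (BH μ R B) F := by
  have _ := hn
  have := hμ
  have := HD_countable (Γ := Γ) hΓ
  obtain ⟨c, hc1, hc⟩ := CC_bound R
  obtain ⟨N₀, hN⟩ := CC_count (Γ := Γ) hΓ R
  have hc0 : 0 ≤ c := zero_le_one.trans hc1
  refine ⟨Real.sqrt N₀ * A * (c * c) ^ κ, by positivity, ?_⟩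
  intro h F
  -- measurability
  have hCC : MeasurableSet (CC R : Set (SLn p n)) := isOpen_CC.measurableSet
  set u : SLn p n → ENNReal := (CC R).indicator (fun _ => 1) with hu
  have hum : Measurable u := measurable_const.indicator hCC
  set f : SLn p n → ENNReal := fun g => ENNReal.ofReal (B (F.1 g) (F.1 g)) with hf
  have hfm : Measurable f := (HD_cont F).measurable.ennreal_ofReal
  have hset : ∀ φ : SLn p n → ENNReal, ∫⁻ g in CC R, φ g ∂μ = ∫⁻ g, u g * φ g ∂μ := by
    intro φ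
    rw [← lintegral_indicator hCC]
    congr 1
    funext g
    by_cases hg : g ∈ CC R
    · rw [hu, Set.indicator_of_mem hg, Set.indicator_of_mem hg, one_mul]
    · rw [hu, Set.indicator_of_notMem hg, Set.indicator_of_notMem hg, zero_mul]
  -- the constants
  set cf : Γ → ENNReal := fun γ => ENNReal.ofReal ((A * size (γ : SLn p n) ^ κ) ^ 2) with hcf
  set K : ENNReal := ENNReal.ofReal ((A * (c * size h * c) ^ κ) ^ 2) with hK
  -- step 1
  have hmp : MeasurePreserving (fun x : SLn p n => x * h) μ μ := by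
    refine ⟨measurable_mul_const h, ?_⟩
    ext s hs
    rw [Measure.map_apply (measurable_mul_const h) hs]
    exact hr h s hs
  have h1 : ∫⁻ g in CC R, f (g * h) ∂μ = ∫⁻ y, u (y * h⁻¹) * f y ∂μ := by
    have hφ : Measurable (fun y => u (y * h⁻¹) * f y) :=
      (hum.comp (measurable_mul_const h⁻¹)).mul hfm
    have hφ' := hmp.lintegral_comp hφ
    rw [hset, ← hφ']
    congr 1
    funext g
    rw [mul_inv_cancel_right]
  -- step 2
  have h2 : ∀ g : SLn p n, f g ≤ ∑' γ : Γ, u (((γ⁻¹ : Γ) : SLn p n) * g) *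
      (cf γ * f (((γ⁻¹ : Γ) : SLn p n) * g)) := by
    intro g
    obtain ⟨γ, hγ⟩ := CC_cover hR g
    refine le_trans ?_ (ENNReal.le_tsum γ)
    rw [hu, Set.indicator_of_mem hγ, one_mul, hcf, hf]
    simp only
    rw [← ENNReal.ofReal_mul (by positivity)]
    apply ENNReal.ofReal_le_ofReal
    have e1 : F.1 g = ρ γ (F.1 (((γ⁻¹ : Γ) : SLn p n) * g)) := by
      rw [← HS_equiv]
      rw [← mul_assoc, Subgroup.coe_inv, mul_inv_cancel, one_mul]
    have e2 := hρ γ (F.1 (((γ⁻¹ : Γ) : SLn p n) * g))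
    rw [← e1] at e2
    rw [← hB.nm_sq (F.1 g), ← hB.nm_sq (F.1 (((γ⁻¹ : Γ) : SLn p n) * g)), ← mul_pow]
    exact pow_le_pow_left₀ (PSD.nm_nonneg _) e2 2
  -- step 3
  have hm3 : ∀ γ : Γ, Measurable (fun z : SLn p n =>
      u ((γ : SLn p n) * z * h⁻¹) * (u z * (cf γ * f z))) := by
    intro γ
    refine Measurable.mul ?_ (hum.mul (measurable_const.mul hfm))
    exact hum.comp ((measurable_mul_const h⁻¹).comp (measurable_const_mul (γ : SLn p n)))
  have h3 : ∀ γ : Γ, ∫⁻ y, u (y * h⁻¹) * (u (((γ⁻¹ : Γ) : SLn p n) * y) *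
      (cf γ * f (((γ⁻¹ : Γ) : SLn p n) * y))) ∂μ =
      ∫⁻ z, u ((γ : SLn p n) * z * h⁻¹) * (u z * (cf γ * f z)) ∂μ := by
    intro γ
    rw [← lintegral_mul_left_eq_self (μ := μ)
      (fun z => u ((γ : SLn p n) * z * h⁻¹) * (u z * (cf γ * f z))) (((γ⁻¹ : Γ) : SLn p n))]
    congr 1
    funext y
    have e : (γ : SLn p n) * (((γ⁻¹ : Γ) : SLn p n) * y) = y := by
      rw [← mul_assoc, Subgroup.coe_inv, mul_inv_cancel, one_mul]
    rw [e]
  -- step 4
  have h4 : ∀ z : SLn p n, ∑' γ : Γ, u ((γ : SLn p n) * z * h⁻¹) * (u z * (cf γ * f z)) ≤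
      (N₀ * K) * (u z * f z) := by
    intro z
    by_cases hz : z ∈ CC R
    · have hfin : {γ : Γ | (γ : SLn p n) * (z * h⁻¹) ∈ CC R}.Finite := CC_finite hΓ (z * h⁻¹)
      rw [tsum_eq_sum (s := hfin.toFinset)]
      · have hb : ∀ γ ∈ hfin.toFinset,
            u ((γ : SLn p n) * z * h⁻¹) * (u z * (cf γ * f z)) ≤ K * (u z * f z) := by
          intro γ hγ
          have hγ' : (γ : SLn p n) * (z * h⁻¹) ∈ CC R := by simpa using hγ
          have e1 : u ((γ : SLn p n) * z * h⁻¹) = 1 := by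
            rw [hu, mul_assoc, Set.indicator_of_mem hγ']
          have e2 : cf γ ≤ K := by
            rw [hcf, hK]
            apply ENNReal.ofReal_le_ofReal
            have e3 : size (γ : SLn p n) ≤ c * size h * c := by
              have e4 : (γ : SLn p n) = ((γ : SLn p n) * (z * h⁻¹)) * h * z⁻¹ := by group
              calc size (γ : SLn p n) = size (((γ : SLn p n) * (z * h⁻¹)) * h * z⁻¹) := by
                    rw [← e4]
                _ ≤ size (((γ : SLn p n) * (z * h⁻¹)) * h) * size z⁻¹ := size_mul_le _ _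
                _ ≤ (size ((γ : SLn p n) * (z * h⁻¹)) * size h) * size z := by
                    rw [size_inv]
                    exact mul_le_mul_of_nonneg_right (size_mul_le _ _) (size_nonneg _)
                _ ≤ (c * size h) * c := by
                    apply mul_le_mul _ (hc z hz) (size_nonneg _)
                      (mul_nonneg hc0 (size_nonneg _))
                    exact mul_le_mul_of_nonneg_right (hc _ hγ') (size_nonneg _)
            apply pow_le_pow_left₀ (mul_nonneg hA (Real.rpow_nonneg (size_nonneg _) _))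
            exact mul_le_mul_of_nonneg_left (Real.rpow_le_rpow (size_nonneg _) e3 hκ) hA
          rw [e1, one_mul]
          calc u z * (cf γ * f z) = cf γ * (u z * f z) := mul_left_comm _ _ _
            _ ≤ K * (u z * f z) := by gcongr
        refine (Finset.sum_le_card_nsmul _ _ _ hb).trans ?_
        rw [nsmul_eq_mul, mul_assoc]
        apply mul_le_mul_left
        have hcard := hN (z * h⁻¹)
        rw [Set.ncard_eq_toFinset_card _ hfin] at hcard
        exact_mod_cast hcard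
      · intro γ hγ
        have hγ' : (γ : SLn p n) * z * h⁻¹ ∉ CC R := by
          intro h'
          apply hγ
          rw [Set.Finite.mem_toFinset]
          change (γ : SLn p n) * (z * h⁻¹) ∈ CC R
          rwa [← mul_assoc]
        rw [hu, Set.indicator_of_notMem hγ', zero_mul]
    · have e1 : u z = 0 := by rw [hu, Set.indicator_of_notMem hz]
      simp [e1]
  -- the integral inequality
  have h5 : ∫⁻ g in CC R, f (g * h) ∂μ ≤ (N₀ * K) * ∫⁻ g in CC R, f g ∂μ := by
    calc ∫⁻ g in CC R, f (g * h) ∂μ = ∫⁻ y, u (y * h⁻¹) * f y ∂μ := h1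
      _ ≤ ∫⁻ y, ∑' γ : Γ, u (y * h⁻¹) * (u (((γ⁻¹ : Γ) : SLn p n) * y) *
          (cf γ * f (((γ⁻¹ : Γ) : SLn p n) * y))) ∂μ := by
          apply lintegral_mono
          intro y
          simp only
          rw [ENNReal.tsum_mul_left]
          exact mul_le_mul_right (h2 y) _
      _ = ∑' γ : Γ, ∫⁻ y, u (y * h⁻¹) * (u (((γ⁻¹ : Γ) : SLn p n) * y) *
          (cf γ * f (((γ⁻¹ : Γ) : SLn p n) * y))) ∂μ := by
          apply lintegral_tsum
          intro γ
          apply Measurable.aemeasurable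
          have hl : Measurable (fun y : SLn p n => ((γ⁻¹ : Γ) : SLn p n) * y) :=
            measurable_const_mul _
          exact (hum.comp (measurable_mul_const h⁻¹)).mul
            ((hum.comp hl).mul (measurable_const.mul (hfm.comp hl)))
      _ = ∑' γ : Γ, ∫⁻ z, u ((γ : SLn p n) * z * h⁻¹) * (u z * (cf γ * f z)) ∂μ := by
          congr 1
          funext γ
          exact h3 γ
      _ = ∫⁻ z, ∑' γ : Γ, u ((γ : SLn p n) * z * h⁻¹) * (u z * (cf γ * f z)) ∂μ :=
          (lintegral_tsum fun γ => (hm3 γ).aemeasurable).symm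
      _ ≤ ∫⁻ z, (N₀ * K) * (u z * f z) ∂μ := lintegral_mono h4
      _ = (N₀ * K) * ∫⁻ z, u z * f z ∂μ := lintegral_const_mul _ (hum.mul hfm)
      _ = _ := by rw [hset]
  -- conclusion
  have h6 : BH μ R B (rt ρ h F) (rt ρ h F) ≤
      N₀ * (A * (c * size h * c) ^ κ) ^ 2 * BH μ R B F F := by
    have hnn : 0 ≤ BH μ R B F F := (BH_psd hB hμ).nonneg F
    have e0 : 0 ≤ (A * (c * size h * c) ^ κ) ^ 2 := sq_nonneg _
    rw [← ENNReal.ofReal_le_ofReal_iff (by positivity), ENNReal.ofReal_mul (by positivity),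
      ENNReal.ofReal_mul (by positivity), HD_lint hB hμ, HD_lint hB hμ, ENNReal.ofReal_natCast]
    exact h5
  have hs0 := size_nonneg h
  have e1 : (c * size h * c) ^ κ = (c * c) ^ κ * size h ^ κ := by
    rw [← Real.mul_rpow (by positivity) hs0]
    congr 1
    ring
  rw [e1] at h6
  have h7 : nm (BH μ R B) (rt ρ h F) = Real.sqrt (BH μ R B (rt ρ h F) (rt ρ h F)) := rfl
  rw [h7, Real.sqrt_le_iff]
  have hnm := PSD.nm_nonneg (B := BH μ R B (ρ := ρ)) F
  refine ⟨by positivity, h6.trans (le_of_eq ?_)⟩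
  rw [← (BH_psd hB hμ).nm_sq F]
  have h8 : Real.sqrt (N₀ : ℝ) ^ 2 = N₀ := Real.sq_sqrt (Nat.cast_nonneg _)
  calc (N₀ : ℝ) * (A * ((c * c) ^ κ * size h ^ κ)) ^ 2 * nm (BH μ R B) F ^ 2
      = Real.sqrt (N₀ : ℝ) ^ 2 * (A * ((c * c) ^ κ * size h ^ κ)) ^ 2 *
        nm (BH μ R B) F ^ 2 := by rw [h8]
    _ = _ := by ring

end Pool.Agent.H73.PZ
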