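import Mathlib
import Pool.Agent.H73.PZ.PSD

/-!
MODULE R1 (MP_d9606f_gt, paper `/team-store/h73_padic_zimmer.md`, B1).
The Heisenberg lemma.  `B` is a positive semidefinite form, `a, b, z` are linear automorphisms
preserving `B`, `a b = b a z`, `z` commutes with `a` and `b`.  `ζ` is fixed by `a` and by
`b ^ (q ^ L)`, `z ^ (q ^ L)`; `φ` is linear, `|φ v| ≤ c ‖v‖`, `φ ∘ b = φ`.  Then
`|φ (z ^ (q ^ r t) ζ) - φ ζ| ≤ 2 q ^ (-(r+1)/2) c ‖ζ‖`.

Proof.  Replacing `L` by a larger number we may assume `r + 1 ≤ L` (the hypotheses persist).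
Let `E_L = {v | z ^ (q ^ L) v = v, b ^ (q ^ L) v = v}`; it is stable under `a, b, z` and inverses
(`b ^ k a = a b ^ k z ^ (-k)`, by induction).  `P v = q ^ (-(L-r)) ∑_{i < q^(L-r)} z ^ (q^r i) v`.
On `E_L`: `z ^ (q^r) P v = P v` (shift the sum, `z ^ (q ^ L) v = v`), `P` commutes with `a, b, z`,
`P P v = P v`, `B (P u) v = B u (P v)` so `‖v - P v‖ ≤ ‖v‖` (`B (v - Pv) (v - Pv) = B v v - B (Pv)
(Pv)`).
Put `v = z ^ (q^r t) ζ - ζ`.  As `z ^ (q^r t) (P ζ) = P ζ`, `v = z ^ (q^r t) ζ₁ - ζ₁` with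
`ζ₁ = ζ - P ζ`; hence `‖v‖ ≤ 2 ‖ζ₁‖ ≤ 2 ‖ζ‖`, `a v = v`, `P v = 0`, `v ∈ E_L`.
`Q v = q ^ (-L) ∑_{i < q^L} b ^ i v`: `φ v = φ (Q v)`, so `|φ v| ≤ c ‖Q v‖`, and
`‖Q v‖² = q ^ (-2L) ∑_{i,j} B (b ^ i v) (b ^ j v) = q ^ (-L) ∑_{k < q^L} B (b ^ k v) v`
(isometry and periodicity; equivalently `B (Q v) (Q v) = B (Q v) v`).
For `k < q ^ L` and every `x`:
`B (b^k v) v = B (b^k a^x v) (a^x v) = B (a^(-x) b^k a^x v) v = B (b^k z^(-k x) v) v`.
Average over `0 ≤ x < q^L`.  If `v_q(k) ≤ r` (in particular `k ≠ 0`), write `k = q^e k'`, `e ≤ r`,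
`q` not dividing `k'`; then `x ↦ k x mod q^L` is uniform on the multiples of `q^e` in `ℤ/q^L`, so
`∑_x z^(-k x) v = q^e ∑_{y < q^(L-e)} z^(-q^e y) v` and, splitting `y` modulo `q^(r-e)`, the sum
is a sum of translates of `P v = 0`.  So `B (b^k v) v = 0`.  (A slicker way: with
`S = ∑_{x < q^L} z^(-k x) v` one has `z^(k) S = S`, hence `z^(q^e) S = S` since `k'` is invertible
modulo `q^L`, hence `z^(q^r) S = S`, hence `S = P S = ∑ z^(-kx) P v = 0`.)
If `v_q(k) ≥ r + 1` (or `k = 0`): `|B (b^k v) v| ≤ ‖v‖²`; there are `q^(L-r-1)` such `k < q^L`.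
So `‖Q v‖² ≤ q ^ (-(r+1)) ‖v‖²`.
-/

namespace Pool.Agent.H73.PZ

section R1aux

variable {E : Type} [AddCommGroup E] [Module ℝ E]

private theorem r1_pres {B : E → E → ℝ} {g : E ≃ₗ[ℝ] E} (hg : ∀ u v, B (g u) (g v) = B u v)
    (n : ℕ) (u v : E) : B ((g ^ n) u) ((g ^ n) v) = B u v := by
  induction n with
  | zero => simp
  | succ n ih => rw [pow_succ', LinearEquiv.mul_apply, LinearEquiv.mul_apply, hg, ih]

private theorem r1_fix {g : E ≃ₗ[ℝ] E} {v : E} (h : g v = v) (n : ℕ) : (g ^ n) v = v := by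
  induction n with
  | zero => simp
  | succ n ih => rw [pow_succ, LinearEquiv.mul_apply, h, ih]

private theorem r1_fix_mul {g : E ≃ₗ[ℝ] E} {v : E} {m : ℕ} (h : (g ^ m) v = v) (n : ℕ) :
    (g ^ (m * n)) v = v := by
  rw [pow_mul]; exact r1_fix h n

/-- The relation `a ^ x * b ^ k = b ^ k * a ^ x * z ^ (k x)`. -/
private theorem r1_rel {G : Type*} [Group G] {a b z : G} (hab : a * b = b * (a * z))
    (haz : a * z = z * a) (hbz : b * z = z * b) (k x : ℕ) :
    a ^ x * b ^ k = b ^ k * (a ^ x * z ^ (k * x)) := by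
  have h1 : ∀ k : ℕ, a * b ^ k = b ^ k * (a * z ^ k) := by
    intro k
    induction k with
    | zero => simp
    | succ k ih =>
      have hc : z ^ k * b = b * z ^ k := ((show Commute z b from hbz.symm).pow_left k).eq
      calc a * b ^ (k + 1) = a * b ^ k * b := by rw [pow_succ, mul_assoc]
        _ = b ^ k * (a * (z ^ k * b)) := by rw [ih]; group
        _ = b ^ k * ((a * b) * z ^ k) := by rw [hc, mul_assoc a b]
        _ = b ^ (k + 1) * (a * z ^ (k + 1)) := by
          rw [hab, pow_succ b, pow_succ' z]; group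
  induction x with
  | zero => simp
  | succ x ih =>
    have hc : z ^ k * a ^ x = a ^ x * z ^ k :=
      ((show Commute z a from haz.symm).pow_pow k x).eq
    calc a ^ (x + 1) * b ^ k = a * (a ^ x * b ^ k) := by rw [pow_succ', mul_assoc]
      _ = (a * b ^ k) * (a ^ x * z ^ (k * x)) := by rw [ih, mul_assoc]
      _ = b ^ k * (a * ((z ^ k * a ^ x) * z ^ (k * x))) := by rw [h1]; group
      _ = b ^ k * (a ^ (x + 1) * (z ^ k * z ^ (k * x))) := by
        rw [hc, pow_succ']; group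
      _ = b ^ k * (a ^ (x + 1) * z ^ (k * (x + 1))) := by
        rw [← pow_add]; congr 3; ring

/-- Shifting a periodic sum. -/
private theorem r1_shift {g : E ≃ₗ[ℝ] E} {v : E} {m : ℕ} (h : (g ^ m) v = v) :
    g (∑ i ∈ Finset.range m, (g ^ i) v) = ∑ i ∈ Finset.range m, (g ^ i) v := by
  rw [map_sum]
  have e : ∀ i, g ((g ^ i) v) = (g ^ (i + 1)) v := fun i => by
    rw [pow_succ', LinearEquiv.mul_apply]
  simp only [e]
  have h1 := Finset.sum_range_succ (fun i => (g ^ i) v) m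
  have h2 := Finset.sum_range_succ' (fun i => (g ^ i) v) m
  have h3 : (g ^ 0) v = v := by simp
  rw [h1, h, h3] at h2
  exact (add_right_cancel h2).symm

private theorem r1_shift_pow {g : E ≃ₗ[ℝ] E} {v : E} {m : ℕ} (h : (g ^ m) v = v) (t : ℕ) :
    (g ^ t) (∑ i ∈ Finset.range m, (g ^ i) v) = ∑ i ∈ Finset.range m, (g ^ i) v :=
  r1_fix (r1_shift h) t

private theorem r1_gcd {z : E ≃ₗ[ℝ] E} {S : E} {k m : ℕ} (hk : (z ^ k) S = S)
    (hm : (z ^ m) S = S) {d : ℕ} (hd : Nat.gcd k m ∣ d) : (z ^ d) S = S := by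
  have hk' : z ^ k ∈ MulAction.stabilizer (E ≃ₗ[ℝ] E) S := hk
  have hm' : z ^ m ∈ MulAction.stabilizer (E ≃ₗ[ℝ] E) S := hm
  have hg : z ^ (Nat.gcd k m) ∈ MulAction.stabilizer (E ≃ₗ[ℝ] E) S := by
    have e : z ^ (Nat.gcd k m) = (z ^ k) ^ (Nat.gcdA k m) * (z ^ m) ^ (Nat.gcdB k m) := by
      rw [← zpow_natCast z (Nat.gcd k m), Nat.gcd_eq_gcd_ab, zpow_add, zpow_mul, zpow_mul,
        zpow_natCast, zpow_natCast]
    rw [e]
    exact mul_mem (zpow_mem hk' _) (zpow_mem hm' _)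
  obtain ⟨c, rfl⟩ := hd
  rw [pow_mul]
  exact pow_mem hg c

private theorem r1_count {q : ℕ} (hq : q.Prime) {L r : ℕ} (h : r + 1 ≤ L) :
    ((Finset.range (q ^ L)).filter (fun k => q ^ (r + 1) ∣ k)).card ≤ q ^ (L - (r + 1)) := by
  have hpos : 0 < q ^ (r + 1) := pow_pos hq.pos _
  have e : q ^ L = q ^ (r + 1) * q ^ (L - (r + 1)) := by
    rw [← pow_add]; congr 1; omega
  calc _ ≤ ((Finset.range (q ^ (L - (r + 1)))).image (fun i => q ^ (r + 1) * i)).card := by
        apply Finset.card_le_card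
        intro k hk
        rw [Finset.mem_filter, Finset.mem_range] at hk
        obtain ⟨hk1, c, rfl⟩ := hk
        rw [Finset.mem_image]
        refine ⟨c, ?_, rfl⟩
        rw [Finset.mem_range]
        rw [e] at hk1
        exact lt_of_mul_lt_mul_left hk1 (Nat.zero_le _)
    _ ≤ _ := by
        refine Finset.card_image_le.trans ?_
        rw [Finset.card_range]

end R1aux

theorem lemmaH {q : ℕ} (hq : q.Prime) {E : Type} [AddCommGroup E] [Module ℝ E]
    {B : E → E → ℝ} (hB : PSD B) (a b z : E ≃ₗ[ℝ] E)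
    (ha : ∀ u v, B (a u) (a v) = B u v) (hb : ∀ u v, B (b u) (b v) = B u v)
    (hz : ∀ u v, B (z u) (z v) = B u v)
    (hab : ∀ v, a (b v) = b (a (z v))) (haz : ∀ v, a (z v) = z (a v))
    (hbz : ∀ v, b (z v) = z (b v))
    (ζ : E) (haζ : a ζ = ζ) (L : ℕ) (hbL : (b ^ (q ^ L)) ζ = ζ) (hzL : (z ^ (q ^ L)) ζ = ζ)
    (φ : E →ₗ[ℝ] ℝ) (c : ℝ) (hc : 0 ≤ c) (hφ : ∀ v, |φ v| ≤ c * nm B v)
    (hφb : ∀ v, φ (b v) = φ v) (r t : ℕ) :
    |φ ((z ^ (q ^ r * t)) ζ) - φ ζ| ≤
      2 * (q : ℝ) ^ (-(((r : ℝ) + 1) / 2)) * c * nm B ζ := by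
  -- enlarge `L`
  obtain ⟨M, hM, hbM, hzM⟩ : ∃ M, r + 1 ≤ M ∧ (b ^ (q ^ M)) ζ = ζ ∧ (z ^ (q ^ M)) ζ = ζ := by
    refine ⟨L + (r + 1), by omega, ?_, ?_⟩
    · rw [pow_add]; exact r1_fix_mul hbL _
    · rw [pow_add]; exact r1_fix_mul hzL _
  clear hbL hzL
  set N := q ^ M with hN
  have hNpos : 0 < N := pow_pos hq.pos _
  have hNr : (0 : ℝ) < N := by exact_mod_cast hNpos
  have gab : a * b = b * (a * z) := by
    ext v; simpa [LinearEquiv.mul_apply] using hab v
  have gaz : a * z = z * a := by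
    ext v; simpa [LinearEquiv.mul_apply] using haz v
  have gbz : b * z = z * b := by
    ext v; simpa [LinearEquiv.mul_apply] using hbz v
  have hcom : ∀ (g : E ≃ₗ[ℝ] E), g * z = z * g → ∀ (i j : ℕ) (v : E),
      (g ^ i) ((z ^ j) v) = (z ^ j) ((g ^ i) v) := by
    intro g hg i j v
    have := ((show Commute g z from hg).pow_pow i j).eq
    rw [← LinearEquiv.mul_apply, this, LinearEquiv.mul_apply]
  set v := (z ^ (q ^ r * t)) ζ - ζ with hv
  have hva : ∀ x : ℕ, (a ^ x) v = v := by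
    intro x
    rw [hv, map_sub, hcom a gaz, r1_fix haζ]
  have hvz : (z ^ N) v = v := by
    rw [hv, map_sub, hcom z rfl, hzM]
  have hvb : (b ^ N) v = v := by
    rw [hv, map_sub, hcom b gbz, hbM]
  have hnv : nm B v ≤ 2 * nm B ζ := by
    have h1 := hB.nm_sub_le ((z ^ (q ^ r * t)) ζ) ζ
    have h2 : nm B ((z ^ (q ^ r * t)) ζ) = nm B ζ := by
      unfold nm; rw [r1_pres hz]
    rw [h2] at h1
    linarith
  have hP : ∑ i ∈ Finset.range (q ^ (M - r)), ((z ^ (q ^ r)) ^ i) v = 0 := by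
    have hper : ((z ^ (q ^ r)) ^ (q ^ (M - r))) ζ = ζ := by
      rw [← pow_mul, ← pow_add, show r + (M - r) = M by omega]; exact hzM
    have h1 := r1_shift_pow hper t
    rw [hv]
    simp only [map_sub, Finset.sum_sub_distrib]
    rw [sub_eq_zero, ← h1, map_sum]
    refine Finset.sum_congr rfl fun i _ => ?_
    rw [pow_mul, ← LinearEquiv.mul_apply, ← LinearEquiv.mul_apply, ← pow_add, ← pow_add,
      add_comm]
  -- the vanishing
  have hvan : ∀ k : ℕ, ¬ q ^ (r + 1) ∣ k → B ((b ^ k) v) v = 0 := by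
    intro k hk
    set S := ∑ x ∈ Finset.range N, ((z ^ k) ^ x) v with hS
    have hper : ((z ^ k) ^ N) v = v := by
      rw [← pow_mul, mul_comm]; exact r1_fix_mul hvz k
    have hS1 : (z ^ k) S = S := r1_shift hper
    have hS2 : (z ^ N) S = S := by
      rw [hS, map_sum]
      refine Finset.sum_congr rfl fun x _ => ?_
      rw [← pow_mul, hcom z rfl, hvz]
    have hgcd : Nat.gcd k N ∣ q ^ r := by
      obtain ⟨e, he, he'⟩ := (Nat.dvd_prime_pow hq).1 (Nat.gcd_dvd_right k N)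
      rw [he']
      apply pow_dvd_pow
      by_contra hlt
      apply hk
      exact (pow_dvd_pow q (by omega)).trans (he' ▸ Nat.gcd_dvd_left k N)
    have hS3 : (z ^ (q ^ r)) S = S := r1_gcd hS1 hS2 hgcd
    have hS0 : S = 0 := by
      have h1 : ∑ i ∈ Finset.range (q ^ (M - r)), ((z ^ (q ^ r)) ^ i) S = 0 := by
        rw [hS]
        simp only [map_sum]
        rw [Finset.sum_comm]
        refine Finset.sum_eq_zero fun x _ => ?_
        have : ∀ i, ((z ^ q ^ r) ^ i) (((z ^ k) ^ x) v) =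
            ((z ^ k) ^ x) (((z ^ q ^ r) ^ i) v) := by
          intro i
          rw [← pow_mul, ← pow_mul, hcom z rfl]
        simp only [this]
        rw [← map_sum, hP, map_zero]
      have h2 : ∀ i, ((z ^ (q ^ r)) ^ i) S = S := fun i => r1_fix hS3 i
      simp only [h2, Finset.sum_const, Finset.card_range] at h1
      rw [← Nat.cast_smul_eq_nsmul ℝ] at h1
      rcases smul_eq_zero.1 h1 with h | h
      · exfalso
        have : (0 : ℝ) < ((q ^ (M - r) : ℕ) : ℝ) := by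
          exact_mod_cast pow_pos hq.pos _
        exact this.ne' h
      · exact h
    have hx : ∀ x : ℕ, B ((b ^ k) v) v = B ((b ^ k) (((z ^ k) ^ x) v)) v := by
      intro x
      have e1 : B ((b ^ k) v) v = B ((a ^ x) ((b ^ k) v)) ((a ^ x) v) := (r1_pres ha x _ _).symm
      have e2 : (a ^ x) ((b ^ k) v) = (b ^ k) (((z ^ k) ^ x) v) := by
        rw [← LinearEquiv.mul_apply, r1_rel gab gaz gbz k x, LinearEquiv.mul_apply,
          LinearEquiv.mul_apply, hcom a gaz, hva, pow_mul]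
      rw [e1, hva, e2]
    have hsum : (N : ℝ) * B ((b ^ k) v) v = 0 := by
      have h1 : ∑ x ∈ Finset.range N, B ((b ^ k) (((z ^ k) ^ x) v)) v = 0 := by
        rw [← hB.sum_left, ← map_sum, ← hS, hS0, map_zero, hB.zero_left]
      have h2 : ∑ x ∈ Finset.range N, B ((b ^ k) (((z ^ k) ^ x) v)) v =
          ∑ x ∈ Finset.range N, B ((b ^ k) v) v :=
        Finset.sum_congr rfl fun x _ => (hx x).symm
      rw [h2, Finset.sum_const, Finset.card_range, nsmul_eq_mul] at h1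
      exact h1
    rcases mul_eq_zero.1 hsum with h | h
    · exact absurd h hNr.ne'
    · exact h
  -- the average
  set T := ∑ i ∈ Finset.range N, (b ^ i) v with hT
  have hbT : ∀ i : ℕ, (b ^ i) T = T := fun i => r1_shift_pow hvb i
  have hφT : φ T = N * φ v := by
    have : ∀ i : ℕ, φ ((b ^ i) v) = φ v := by
      intro i
      induction i with
      | zero => simp
      | succ i ih => rw [pow_succ', LinearEquiv.mul_apply, hφb, ih]
    rw [hT, map_sum, Finset.sum_congr rfl fun i _ => this i, Finset.sum_const,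
      Finset.card_range, nsmul_eq_mul]
  have hTT : B T T = N * ∑ k ∈ Finset.range N, B ((b ^ k) v) v := by
    have h1 : B T T = N * B v T := by
      have h3 : B T T = ∑ i ∈ Finset.range N, B ((b ^ i) v) T := by
        conv_lhs => rw [hT]
        rw [← hT, hB.sum_left]
      rw [h3]
      have h2 : ∀ i ∈ Finset.range N, B ((b ^ i) v) T = B v T := by
        intro i _
        have := r1_pres hb i v T
        rw [hbT i] at this
        exact this
      rw [Finset.sum_congr rfl h2, Finset.sum_const, Finset.card_range, nsmul_eq_mul]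
    rw [h1, hB.symm v T, hT, hB.sum_left]
  have hbound : B T T ≤ N * (q ^ (M - (r + 1)) * nm B v ^ 2) := by
    rw [hTT]
    refine mul_le_mul_of_nonneg_left ?_ hNr.le
    rw [← Finset.sum_filter_add_sum_filter_not (Finset.range N) (fun k => q ^ (r + 1) ∣ k)]
    have h0 : ∑ k ∈ (Finset.range N).filter (fun k => ¬ q ^ (r + 1) ∣ k),
        B ((b ^ k) v) v = 0 :=
      Finset.sum_eq_zero fun k hk => hvan k (Finset.mem_filter.1 hk).2
    rw [h0, add_zero]
    have h1 : ∀ k, B ((b ^ k) v) v ≤ nm B v ^ 2 := by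
      intro k
      have h2 := (abs_le.1 (hB.cs ((b ^ k) v) v)).2
      have h3 : nm B ((b ^ k) v) = nm B v := by
        unfold nm; rw [r1_pres hb]
      rw [h3] at h2
      linarith [sq (nm B v)]
    calc _ ≤ ∑ k ∈ (Finset.range N).filter (fun k => q ^ (r + 1) ∣ k), nm B v ^ 2 :=
          Finset.sum_le_sum fun k _ => h1 k
      _ = ((Finset.range N).filter (fun k => q ^ (r + 1) ∣ k)).card * nm B v ^ 2 := by
          rw [Finset.sum_const, nsmul_eq_mul]
      _ ≤ _ := by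
          refine mul_le_mul_of_nonneg_right ?_ (sq_nonneg _)
          exact_mod_cast r1_count hq hM
  -- conclusion
  have hq0 : (0 : ℝ) < q := by exact_mod_cast hq.pos
  have hqN : (N : ℝ) = q ^ (r + 1) * q ^ (M - (r + 1)) := by
    rw [hN, ← pow_add]
    push_cast
    congr 1
    omega
  set κ : ℝ := (q : ℝ) ^ (-(((r : ℝ) + 1) / 2)) with hκ
  have hκ0 : 0 < κ := Real.rpow_pos_of_pos hq0 _
  have hκ2 : κ ^ 2 * q ^ (r + 1) = 1 := by
    rw [hκ, ← Real.rpow_natCast, ← Real.rpow_mul hq0.le, ← Real.rpow_natCast (q : ℝ) (r + 1),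
      ← Real.rpow_add hq0]
    push_cast
    rw [show -(((r : ℝ) + 1) / 2) * 2 + (r + 1) = 0 by ring, Real.rpow_zero]
  have hnT : nm B T ≤ N * κ * nm B v := by
    refine abs_le_of_sq_le_sq' ?_ (by
      have := PSD.nm_nonneg (B := B) v
      positivity) |>.2
    rw [hB.nm_sq]
    refine hbound.trans (le_of_eq ?_)
    rw [mul_pow, mul_pow]
    have : (N : ℝ) * (q : ℝ) ^ (M - (r + 1)) = N ^ 2 * κ ^ 2 := by
      have h5 : (q : ℝ) ^ (M - (r + 1)) = N * κ ^ 2 := by
        rw [hqN]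
        calc (q : ℝ) ^ (M - (r + 1)) = (κ ^ 2 * q ^ (r + 1)) * q ^ (M - (r + 1)) := by
              rw [hκ2, one_mul]
          _ = _ := by ring
      rw [h5]; ring
    rw [← mul_assoc, this]
  have hfin : (N : ℝ) * |φ v| ≤ N * (κ * c * nm B v) := by
    calc (N : ℝ) * |φ v| = |φ T| := by
          rw [hφT, abs_mul, abs_of_pos hNr]
      _ ≤ c * nm B T := hφ T
      _ ≤ c * (N * κ * nm B v) := mul_le_mul_of_nonneg_left hnT hc
      _ = _ := by ring
  have hfin' : |φ v| ≤ κ * c * nm B v := le_of_mul_le_mul_left hfin hNr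
  rw [← map_sub, ← hv]
  calc |φ v| ≤ κ * c * nm B v := hfin'
    _ ≤ κ * c * (2 * nm B ζ) := mul_le_mul_of_nonneg_left hnv (by positivity)
    _ = _ := by ring

end Pool.Agent.H73.PZ
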