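import Mathlib
import Pool.Agent.H73.PZ.Rep
import Pool.Agent.H73.PZ.R1
import Pool.Agent.H73.PZ.G1
import Pool.Agent.H73.PZ.G7

/-!
MODULE R2 (MP_d9606f_gt, paper `/team-store/h73_padic_zimmer.md`, B2, the elementary estimate).

`i, j, k` are distinct, `a` are the exponents of a diagonal matrix `A = dg p a` such that
`A * EE_ik(x) * A⁻¹` is integral for `‖x‖ ≤ p^(-α)` and `A * EE_kj(y) * A⁻¹` is integral for
`‖y‖ ≤ p^(-β)` (this is what `hik`, `hkj` say, by `dg_conj`).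
Type 1: `ζ` is fixed by the `EE_ik(x)`, `‖x‖ ≤ p^(-α)`, and `φ` is invariant under the
`EE_kj(y)`, `‖y‖ ≤ p^(-β)`.  Type 2: the roles of `EE_ik` and `EE_kj` are exchanged.
Conclusion: `φ` hardly sees the difference of `EE_ij(x) ζ` and `ζ` if `‖x‖ ≤ p^(-(α+β+r))`.

Proof of type 1.  Apply `lemmaH` (`q = p`) on the space `(H, B)` to
`a = τ (A EE_ik(p^α) A⁻¹)`, `b = τ (A EE_kj(p^β) A⁻¹)`, `z = τ (A EE_ij(p^(α+β)) A⁻¹)`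
(as linear equivalences, the inverse of `τ g` is `τ g⁻¹`), the vector `ζ' = τ A ζ` and the
functional `φ' = φ ∘ τ A⁻¹`.
* The three matrices are `EE(p^(a_i - a_k + α))` etc. (`dg_conj`), so they lie in `KK`
  (`EE_mem_KK`) and `a, b, z` preserve `B`.
* `a b = b a z`, `z` commutes with `a, b`: `EE_heis`, `EE_comm_left`, `EE_comm_right`, conjugated.
* `a ζ' = τ A τ (EE_ik(p^α)) ζ = ζ'`; `φ' (b v) = φ (τ (EE_kj(p^β)) (τ A⁻¹ v)) = φ' v`.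
* `ζ'` is fixed by some `KM M`; `z ^ (p^L) = τ (EE_ij(p^(a_i - a_j + α + β + L)))` and
  `b ^ (p^L) = τ (EE_kj(p^(a_k - a_j + β + L)))` fix `ζ'` for large `L` (`EE_nsmul`, `EE_mem_KM`).
* `|φ' v| ≤ c * nm B (τ A⁻¹ v) ≤ c * (A₁ * size A ^ κ) * nm B v` (`size_inv`).
* `x = p^(α+β+r) * y` with `‖y‖ ≤ 1`; choose a natural number `t` with `‖y - t‖ ≤ p^(-L')`, `L'`
  so large that `EE_ij(p^(a_i-a_j+α+β+r) (y - t))` fixes `ζ'` (density of `ℕ` in `ℤ_[p]`,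
  e.g. `PadicInt.appr`).  Then `τ A (τ (EE_ij x) ζ) = (z ^ (p^r t)) ζ'` and
  `φ (τ (EE_ij x) ζ) = φ' ((z ^ (p^r t)) ζ')`, `φ ζ = φ' ζ'`.
Type 2: the same with `a` and `b` exchanged: `a = τ (A EE_kj(p^β) A⁻¹)`,
`b = τ (A EE_ik(p^α) A⁻¹)`, `z = τ (A EE_ij(-p^(α+β)) A⁻¹)` (from `EE_heis`:
`EE_kj(y) EE_ik(x) = EE_ik(x) EE_kj(y) EE_ij(-xy)`), and `x = -p^(α+β+r) y`.
-/

namespace Pool.Agent.H73.PZ

variable {p : ℕ} [Fact p.Prime] {n : ℕ} {H : Type} [AddCommGroup H] [Module ℝ H]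
  {B : H → H → ℝ} {τ : SLn p n →* Module.End ℝ H} {A κ : ℝ}

/-- The representation as a homomorphism to linear automorphisms. -/
private noncomputable def TT (τ : SLn p n →* Module.End ℝ H) : SLn p n →* (H ≃ₗ[ℝ] H) :=
  (LinearMap.GeneralLinearGroup.generalLinearEquiv ℝ H).toMonoidHom.comp τ.toHomUnits

private theorem TT_apply (g : SLn p n) (v : H) : TT τ g v = τ g v := rfl

private theorem tau_mul (g h : SLn p n) (v : H) : τ (g * h) v = τ g (τ h v) := by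
  rw [map_mul]; rfl

private theorem tau_inv_cancel (g : SLn p n) (v : H) : τ g⁻¹ (τ g v) = v := by
  rw [← tau_mul, inv_mul_cancel, map_one]; rfl

private theorem coreG (hR : Rep p n B τ A κ) (ga gb gz : SLn p n) (hga : ga ∈ KK p n)
    (hgb : gb ∈ KK p n) (hgz : gz ∈ KK p n) (hrel : ga * gb = gb * ga * gz)
    (hc1 : ga * gz = gz * ga) (hc2 : gb * gz = gz * gb) (L : ℕ) (ζ : H)
    (hζ : τ ga ζ = ζ) (hbL : τ (gb ^ (p ^ L)) ζ = ζ) (hzL : τ (gz ^ (p ^ L)) ζ = ζ)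
    (φ : H →ₗ[ℝ] ℝ) (c : ℝ) (hc : 0 ≤ c) (hφ : ∀ v, |φ v| ≤ c * nm B v)
    (hφi : ∀ v, φ (τ gb v) = φ v) (r t : ℕ) :
    |φ (τ (gz ^ (p ^ r * t)) ζ) - φ ζ| ≤
      2 * (p : ℝ) ^ (-(((r : ℝ) + 1) / 2)) * c * nm B ζ := by
  have h := lemmaH (Fact.out : p.Prime) hR.psd (TT τ ga) (TT τ gb) (TT τ gz)
    (fun u v => hR.isom ga hga u v) (fun u v => hR.isom gb hgb u v)
    (fun u v => hR.isom gz hgz u v)
    (fun v => by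
      simp only [TT_apply, ← tau_mul]
      rw [hrel, mul_assoc])
    (fun v => by simp only [TT_apply, ← tau_mul, hc1])
    (fun v => by simp only [TT_apply, ← tau_mul, hc2])
    ζ hζ L (by rw [← map_pow]; exact hbL) (by rw [← map_pow]; exact hzL) φ c hc hφ hφi r t
  rw [← map_pow] at h
  exact h

private theorem exists_nat_close {y : ℚ_[p]} (hy : ‖y‖ ≤ 1) (M : ℕ) :
    ∃ t : ℕ, ‖y - (t : ℚ_[p])‖ ≤ (p : ℝ) ^ (-(M : ℤ)) := by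
  obtain ⟨Y, hY⟩ : ∃ Y : ℤ_[p], (Y : ℚ_[p]) = y := ⟨⟨y, hy⟩, rfl⟩
  refine ⟨PadicInt.appr Y M, ?_⟩
  have ht : ‖Y - (PadicInt.appr Y M : ℤ_[p])‖ ≤ (p : ℝ) ^ (-(M : ℤ)) := by
    rw [PadicInt.norm_le_pow_iff_mem_span_pow]
    exact PadicInt.appr_spec M _
  rw [PadicInt.norm_def] at ht
  push_cast at ht
  rw [← hY]
  exact ht

private theorem keyCore (hR : Rep p n B τ A κ) {i j : Fin n} (hij : i ≠ j)
    (a : Fin n → ℤ) (ha : ∑ l, a l = 0) (ga gb : SLn p n) (hga : ga ∈ KK p n)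
    (hgb : gb ∈ KK p n) (w : ℚ_[p]) (hw : ‖w‖ ≤ 1)
    (hrel : ga * gb = gb * ga * EE hij w) (hc1 : ga * EE hij w = EE hij w * ga)
    (hc2 : gb * EE hij w = EE hij w * gb) (hgbM : ∀ M : ℕ, gb ^ (p ^ M) ∈ KM p n M)
    (ζ : H) (hζ : τ ga (τ (dg p a) ζ) = τ (dg p a) ζ)
    (φ : H →ₗ[ℝ] ℝ) (c : ℝ) (hc : 0 ≤ c) (hφ : ∀ v, |φ v| ≤ c * nm B v)
    (hφi : ∀ v, φ (τ (dg p a)⁻¹ (τ gb v)) = φ (τ (dg p a)⁻¹ v))
    (x y : ℚ_[p]) (r : ℕ) (hy : ‖y‖ ≤ 1)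
    (hx : (p : ℚ_[p]) ^ (a i - a j) * x = (p : ℚ_[p]) ^ r * w * y) :
    |φ (τ (EE hij x) ζ) - φ ζ| ≤ 2 * (p : ℝ) ^ (-(((r : ℝ) + 1) / 2)) *
      (c * (A * size (dg p a) ^ κ)) * nm B (τ (dg p a) ζ) := by
  obtain ⟨M, hM⟩ := hR.smooth (τ (dg p a) ζ)
  have hp0 : (0 : ℝ) < p := by exact_mod_cast (Fact.out : p.Prime).pos
  have hpM : ∀ m : ℕ, ‖((p ^ m : ℕ) : ℚ_[p])‖ = (p : ℝ) ^ (-(m : ℤ)) := by
    intro m
    rw [Nat.cast_pow, ← zpow_natCast, norm_p_zpow]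
  have hsz : 0 ≤ size (dg p a) ^ κ := Real.rpow_nonneg (size_nonneg _) _
  obtain ⟨t, ht⟩ := exists_nat_close hy M
  have h := coreG hR ga gb (EE hij w) hga hgb (EE_mem_KK hij hw) hrel hc1 hc2 M
    (τ (dg p a) ζ) hζ (hM _ (hgbM M))
    (by
      apply hM
      rw [← EE_nsmul]
      apply EE_mem_KM
      rw [norm_mul, hpM]
      have : (0 : ℝ) < (p : ℝ) ^ (-(M : ℤ)) := by positivity
      nlinarith)
    (φ.comp (τ (dg p a)⁻¹)) (c * (A * size (dg p a) ^ κ))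
    (mul_nonneg hc (mul_nonneg hR.A_nonneg hsz))
    (fun v => by
      rw [LinearMap.comp_apply]
      refine (hφ _).trans ?_
      have h1 := hR.growth (dg p a)⁻¹ v
      rw [size_inv] at h1
      calc c * nm B (τ (dg p a)⁻¹ v) ≤ c * (A * size (dg p a) ^ κ * nm B v) :=
            mul_le_mul_of_nonneg_left h1 hc
        _ = _ := by ring)
    (fun v => by
      rw [LinearMap.comp_apply, LinearMap.comp_apply]
      exact hφi v) r t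
  rw [LinearMap.comp_apply, LinearMap.comp_apply, tau_inv_cancel] at h
  have key : τ (EE hij w ^ (p ^ r * t)) (τ (dg p a) ζ) = τ (dg p a) (τ (EE hij x) ζ) := by
    have e1 : τ (EE hij ((p : ℚ_[p]) ^ r * w * (y - t))) (τ (dg p a) ζ) = τ (dg p a) ζ := by
      apply hM
      apply EE_mem_KM
      have h2 : ‖(p : ℚ_[p]) ^ r‖ ≤ 1 := by
        rw [norm_pow]
        exact pow_le_one₀ (norm_nonneg _) Padic.norm_p_lt_one.le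
      rw [norm_mul, norm_mul]
      have h3 : ‖(p : ℚ_[p]) ^ r‖ * ‖w‖ ≤ 1 := mul_le_one₀ h2 (norm_nonneg _) hw
      calc _ ≤ 1 * ‖y - (t : ℚ_[p])‖ := mul_le_mul_of_nonneg_right h3 (norm_nonneg _)
        _ ≤ _ := by rw [one_mul]; exact ht
    rw [← EE_nsmul]
    rw [← tau_mul (dg p a), dg_conj ha hij x, tau_mul, hx]
    have e2 : (p : ℚ_[p]) ^ r * w * y =
        ((p ^ r * t : ℕ) : ℚ_[p]) * w + (p : ℚ_[p]) ^ r * w * (y - t) := by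
      push_cast
      ring
    rw [e2, EE_add, tau_mul, e1]
  rw [key, tau_inv_cancel] at h
  exact h

private theorem conj_fix {i k : Fin n} (hik : i ≠ k) {a : Fin n → ℤ} (ha : ∑ l, a l = 0)
    (x : ℚ_[p]) (v : H) :
    τ (EE hik ((p : ℚ_[p]) ^ (a i - a k) * x)) (τ (dg p a) v) =
      τ (dg p a) (τ (EE hik x) v) := by
  rw [← tau_mul, ← dg_conj ha hik x, tau_mul]

private theorem conj_inv {k j : Fin n} (hkj : k ≠ j) {a : Fin n → ℤ} (ha : ∑ l, a l = 0)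
    (x : ℚ_[p]) (v : H) :
    τ (dg p a)⁻¹ (τ (EE hkj ((p : ℚ_[p]) ^ (a k - a j) * x)) v) =
      τ (EE hkj x) (τ (dg p a)⁻¹ v) := by
  rw [← tau_mul, ← tau_mul]
  congr 2
  rw [eq_mul_inv_iff_mul_eq, mul_assoc, ← dg_conj ha hkj x, inv_mul_cancel_left]

private theorem norm_w (s t : ℤ) (h : 0 ≤ s + t) :
    ‖(p : ℚ_[p]) ^ s * (p : ℚ_[p]) ^ t‖ ≤ 1 := by
  rw [← zpow_add₀ pne, norm_p_zpow]
  exact zpow_le_one_of_nonpos₀ (by exact_mod_cast (Fact.out : p.Prime).one_lt.le) (by omega)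

private theorem pow_mem {i j : Fin n} (hij : i ≠ j) {w : ℚ_[p]} (hw : ‖w‖ ≤ 1) (M : ℕ) :
    EE hij w ^ (p ^ M) ∈ KM p n M := by
  have hp0 : (0 : ℝ) < p := by exact_mod_cast (Fact.out : p.Prime).pos
  have hpM : ‖((p ^ M : ℕ) : ℚ_[p])‖ = (p : ℝ) ^ (-(M : ℤ)) := by
    rw [Nat.cast_pow, ← zpow_natCast, norm_p_zpow]
  rw [← EE_nsmul]
  apply EE_mem_KM
  rw [norm_mul, hpM]
  have : (0 : ℝ) < (p : ℝ) ^ (-(M : ℤ)) := by positivity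
  nlinarith

private theorem norm_y {x : ℚ_[p]} {s : ℤ} (hx : ‖x‖ ≤ (p : ℝ) ^ (-s)) :
    ‖(p : ℚ_[p]) ^ (-s) * x‖ ≤ 1 := by
  have hp0 : (0 : ℝ) < p := by exact_mod_cast (Fact.out : p.Prime).pos
  rw [norm_mul, norm_p_zpow, neg_neg]
  calc (p : ℝ) ^ s * ‖x‖ ≤ (p : ℝ) ^ s * (p : ℝ) ^ (-s) :=
        mul_le_mul_of_nonneg_left hx (by positivity)
    _ = 1 := by rw [← zpow_add₀ hp0.ne', add_neg_cancel, zpow_zero]

theorem keyE1 (hR : Rep p n B τ A κ) {i j k : Fin n} (hik : i ≠ k) (hkj : k ≠ j) (hij : i ≠ j)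
    (a : Fin n → ℤ) (ha : ∑ l, a l = 0) (α β : ℤ) (h1 : 0 ≤ a i - a k + α)
    (h2 : 0 ≤ a k - a j + β) (ζ : H)
    (hζ : ∀ x : ℚ_[p], ‖x‖ ≤ (p : ℝ) ^ (-α) → τ (EE hik x) ζ = ζ)
    (φ : H →ₗ[ℝ] ℝ) (c : ℝ) (hc : 0 ≤ c) (hφ : ∀ v, |φ v| ≤ c * nm B v)
    (hφi : ∀ y : ℚ_[p], ‖y‖ ≤ (p : ℝ) ^ (-β) → ∀ v, φ (τ (EE hkj y) v) = φ v)
    (x : ℚ_[p]) (r : ℕ) (hx : ‖x‖ ≤ (p : ℝ) ^ (-(α + β + r))) :
    |φ (τ (EE hij x) ζ) - φ ζ| ≤ 2 * (p : ℝ) ^ (-(((r : ℝ) + 1) / 2)) *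
      (c * (A * size (dg p a) ^ κ)) * nm B (τ (dg p a) ζ) := by
  have ga1 := norm_w (p := p) (a i - a k) α h1
  have gb1 := norm_w (p := p) (a k - a j) β h2
  refine keyCore hR hij a ha (EE hik ((p : ℚ_[p]) ^ (a i - a k) * (p : ℚ_[p]) ^ α))
    (EE hkj ((p : ℚ_[p]) ^ (a k - a j) * (p : ℚ_[p]) ^ β)) (EE_mem_KK hik ga1)
    (EE_mem_KK hkj gb1)
    ((p : ℚ_[p]) ^ (a i - a k) * (p : ℚ_[p]) ^ α * ((p : ℚ_[p]) ^ (a k - a j) *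
      (p : ℚ_[p]) ^ β)) (by rw [norm_mul]; exact mul_le_one₀ ga1 (norm_nonneg _) gb1)
    (EE_heis hik hkj hij _ _) (EE_comm_left hik hij _ _) (EE_comm_right hkj hij _ _)
    (pow_mem hkj gb1) ζ (by rw [conj_fix hik ha, hζ _ (norm_p_zpow α).le]) φ c hc hφ
    (fun v => by rw [conj_inv hkj ha, hφi _ (norm_p_zpow β).le])
    x ((p : ℚ_[p]) ^ (-(α + β + r)) * x) r (norm_y hx) ?_
  have e : (p : ℚ_[p]) ^ (a i - a j) = (p : ℚ_[p]) ^ r * ((p : ℚ_[p]) ^ (a i - a k) *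
      (p : ℚ_[p]) ^ α * ((p : ℚ_[p]) ^ (a k - a j) * (p : ℚ_[p]) ^ β)) *
      (p : ℚ_[p]) ^ (-(α + β + r)) := by
    rw [← zpow_natCast, ← zpow_add₀ pne, ← zpow_add₀ pne, ← zpow_add₀ pne, ← zpow_add₀ pne,
      ← zpow_add₀ pne]
    congr 1
    ring
  rw [e]
  ring

theorem keyE2 (hR : Rep p n B τ A κ) {i j k : Fin n} (hik : i ≠ k) (hkj : k ≠ j) (hij : i ≠ j)
    (a : Fin n → ℤ) (ha : ∑ l, a l = 0) (α β : ℤ) (h1 : 0 ≤ a i - a k + α)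
    (h2 : 0 ≤ a k - a j + β) (ζ : H)
    (hζ : ∀ y : ℚ_[p], ‖y‖ ≤ (p : ℝ) ^ (-β) → τ (EE hkj y) ζ = ζ)
    (φ : H →ₗ[ℝ] ℝ) (c : ℝ) (hc : 0 ≤ c) (hφ : ∀ v, |φ v| ≤ c * nm B v)
    (hφi : ∀ x : ℚ_[p], ‖x‖ ≤ (p : ℝ) ^ (-α) → ∀ v, φ (τ (EE hik x) v) = φ v)
    (x : ℚ_[p]) (r : ℕ) (hx : ‖x‖ ≤ (p : ℝ) ^ (-(α + β + r))) :
    |φ (τ (EE hij x) ζ) - φ ζ| ≤ 2 * (p : ℝ) ^ (-(((r : ℝ) + 1) / 2)) *
      (c * (A * size (dg p a) ^ κ)) * nm B (τ (dg p a) ζ) := by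
  have ga1 := norm_w (p := p) (a i - a k) α h1
  have gb1 := norm_w (p := p) (a k - a j) β h2
  refine keyCore hR hij a ha (EE hkj ((p : ℚ_[p]) ^ (a k - a j) * (p : ℚ_[p]) ^ β))
    (EE hik ((p : ℚ_[p]) ^ (a i - a k) * (p : ℚ_[p]) ^ α)) (EE_mem_KK hkj gb1)
    (EE_mem_KK hik ga1)
    (-((p : ℚ_[p]) ^ (a i - a k) * (p : ℚ_[p]) ^ α * ((p : ℚ_[p]) ^ (a k - a j) *
      (p : ℚ_[p]) ^ β))) (by rw [norm_neg, norm_mul]; exact mul_le_one₀ ga1 (norm_nonneg _) gb1)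
    (by rw [EE_heis hik hkj hij, mul_assoc, ← EE_add, add_neg_cancel]; simp)
    (EE_comm_right hkj hij _ _) (EE_comm_left hik hij _ _)
    (pow_mem hik ga1) ζ (by rw [conj_fix hkj ha, hζ _ (norm_p_zpow β).le]) φ c hc hφ
    (fun v => by rw [conj_inv hik ha, hφi _ (norm_p_zpow α).le])
    x (-((p : ℚ_[p]) ^ (-(α + β + r)) * x)) r (by rw [norm_neg]; exact norm_y hx) ?_
  have e : (p : ℚ_[p]) ^ (a i - a j) = (p : ℚ_[p]) ^ r * ((p : ℚ_[p]) ^ (a i - a k) *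
      (p : ℚ_[p]) ^ α * ((p : ℚ_[p]) ^ (a k - a j) * (p : ℚ_[p]) ^ β)) *
      (p : ℚ_[p]) ^ (-(α + β + r)) := by
    rw [← zpow_natCast, ← zpow_add₀ pne, ← zpow_add₀ pne, ← zpow_add₀ pne, ← zpow_add₀ pne,
      ← zpow_add₀ pne]
    congr 1
    ring
  rw [e]
  ring

end Pool.Agent.H73.PZ
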