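import Mathlib
import Pool.Agent.H73.PZ.R2

/-!
MODULE R3 (MP_d9606f_gt, paper `/team-store/h73_padic_zimmer.md`, B2, Theorem K).

Fix the representation.  Say that `g` is good if for every `M` there is `C ≥ 0` with, for all `m`,
all `KK`-fixed `ξ` and all linear `φ` with `|φ v| ≤ c * nm B v`, `φ (τ u v) = φ v` (`u ∈ KM M`):
`|φ (τ g (τ (Dm m) ξ)) - φ (τ (Dm m) ξ)| ≤ C * p^(-((1/2 - 2κ) m)) * c * nm B ξ`.
1. Products of good elements are good: `φ' = φ ∘ τ g` is invariant under `KM M'` for some `M'`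
   (`KM_conj`: `τ g τ u = τ (g u g⁻¹) τ g`) and bounded by `c * A * size g ^ κ`;
   `φ (τ (g g') ζ) - φ ζ = (φ' (τ g' ζ) - φ' ζ) + (φ (τ g ζ) - φ ζ)`.
   By `EE_induction` it is enough that all `EE h x` are good.
2. The trivial bound: `|φ (τ g ζ) - φ ζ| ≤ c (A size g ^ κ + 1) A (p^m)^κ nm B ξ`
   (`size_Dm_le`); it gives what is needed for the finitely many `m < m₀`.
3. Write `λ = lam n m`, `ζ = τ (Dm m) ξ`.  `ζ` is fixed by `EE_ij(x)` for `‖x‖ ≤ p^(λ_j - λ_i)`: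
   `EE_ij(x) Dm = Dm EE_ij(p^(λ_j - λ_i) x)` (`dg_conj`), `EE_mem_KK`.
   First index `0`, last index `n - 1`; the others are middle, `λ = -m, 0, …, 0, m`.
   (a) `λ_i < λ_j` (`i` first or `j` last): `λ_j - λ_i ≥ m`, so `τ (EE x) ζ = ζ` once
       `‖x‖ ≤ p^m`.
   (b) `i` middle, `j` middle or first: `k = ` last.  `keyE1` with `α = -m`, `β = M`,
       `a = 2q` at `i`, `-q` at `j` and `k`, `0` elsewhere, `q = (m + 2) / 3` (so
       `m ≤ 3 q ≤ m + 2`); `h1 : 3 q - m ≥ 0`, `h2 : 0 + M ≥ 0`.  `ζ` is fixed by `EE_ik(x)`,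
       `‖x‖ ≤ p^m`, and `φ` is invariant under `EE_kj(y) ∈ KM M`, `‖y‖ ≤ p^(-M)`.
       If `‖x‖ ≤ p^s` (`s ≥ 0` an integer) take `r = m - M - s` (for `m ≥ M + s`).
       `size (dg a) ≤ p^(2q)`, and `nm B (τ (dg a) ζ) = nm B (τ (dg a * Dm m) ξ)`,
       `dg a * Dm m = dg (a + λ)` with exponents bounded by `m + q` (check all positions:
       `i : 2q ≤ m + q`, `k : m - q`, `j : -q` or `-m - q`, first index if it is not `j` : `-m`).
       The bound is `2 p^(-(m-M-s+1)/2) c A (p^(2q))^κ A (p^(m+q))^κ nm B ξ` and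
       `2q + m + q = m + 3q ≤ 2m + 2`.
   (c) `i` last, `j` middle: `k = ` first.  `keyE2` with `β = -m`, `α = M`, `a = q` at `i` and
       `k`, `-2q` at `j`: `h1 : a i - a k + M ≥ 0`, `h2 : a k - a j - m = 3 q - m ≥ 0`.
       `ζ` is fixed by `EE_kj(y)`, `‖y‖ ≤ p^m` (`λ_j - λ_k = m`), `φ` is invariant under
       `EE_ik(x)`, `‖x‖ ≤ p^(-M)`.  Exponents of `dg (a + λ)` bounded by `m + q` again.
   (d) `i` last, `j` first: `EE_ij(x) = EE_ik(x) EE_kj(1) EE_ik(-x) EE_kj(-1)` for a middle `k`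
       (`n ≥ 3`; from `EE_heis`: `EE_ik(x) EE_kj(1) = EE_kj(1) EE_ik(x) EE_ij(x)`), a product of
       elements treated in (c) and (b).
Real powers: `(p^(k:ℕ))^κ = p^(k κ)` (`Real.rpow_natCast`, `Real.rpow_mul`), collect exponents.
-/

namespace Pool.Agent.H73.PZ

variable {p : ℕ} [Fact p.Prime] {n : ℕ} {H : Type} [AddCommGroup H] [Module ℝ H]
  {B : H → H → ℝ} {τ : SLn p n →* Module.End ℝ H} {A κ : ℝ}

/-- Good elements. -/
private def R3Good (B : H → H → ℝ) (τ : SLn p n →* Module.End ℝ H) (κ : ℝ) (g : SLn p n) : Prop :=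
  ∀ M : ℕ, ∃ C : ℝ, 0 ≤ C ∧ ∀ (m : ℕ) (ξ : H), (∀ k ∈ KK p n, τ k ξ = ξ) →
      ∀ (φ : H →ₗ[ℝ] ℝ) (c : ℝ), 0 ≤ c → (∀ v, |φ v| ≤ c * nm B v) →
        (∀ u ∈ KM p n M, ∀ v, φ (τ u v) = φ v) →
        |φ (τ g (τ (Dm p n m) ξ)) - φ (τ (Dm p n m) ξ)| ≤
          C * (p : ℝ) ^ (-((1 / 2 - 2 * κ) * m)) * c * nm B ξ

omit [Fact p.Prime] in
private theorem R3_p1 [Fact p.Prime] : (1 : ℝ) ≤ p := by
  exact_mod_cast (Fact.out : p.Prime).one_lt.le

omit [Fact p.Prime] in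
private theorem R3_p0 [Fact p.Prime] : (0 : ℝ) < p := by
  exact_mod_cast (Fact.out : p.Prime).pos

private theorem R3_mul_apply (a b : SLn p n) (v : H) : τ (a * b) v = τ a (τ b v) := by
  rw [map_mul, Module.End.mul_apply]

private theorem R3_good_mul (hR : Rep p n B τ A κ) {a b : SLn p n} (ha : R3Good B τ κ a)
    (hb : R3Good B τ κ b) : R3Good B τ κ (a * b) := by
  intro M
  obtain ⟨M', hM'⟩ := KM_conj a M
  obtain ⟨Ca, hCa, Ha⟩ := ha M
  obtain ⟨Cb, hCb, Hb⟩ := hb M'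
  have hs : 0 ≤ A * size a ^ κ := mul_nonneg hR.A_nonneg (Real.rpow_nonneg (size_nonneg a) κ)
  refine ⟨Cb * (A * size a ^ κ) + Ca, add_nonneg (mul_nonneg hCb hs) hCa, ?_⟩
  intro m ξ hξ φ c hc hφ hφi
  have h1 := Ha m ξ hξ φ c hc hφ hφi
  have h2 := Hb m ξ hξ (φ.comp (τ a)) (c * (A * size a ^ κ)) (mul_nonneg hc hs) (by
    intro v
    rw [LinearMap.comp_apply]
    refine (hφ _).trans ?_
    rw [mul_assoc]
    exact mul_le_mul_of_nonneg_left (hR.growth a v) hc) (by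
    intro u hu v
    rw [LinearMap.comp_apply, LinearMap.comp_apply]
    have e : τ a (τ u v) = τ (a * u * a⁻¹) (τ a v) := by
      rw [← R3_mul_apply, ← R3_mul_apply]
      congr 2
      group
    rw [e]
    exact hφi _ (hM' u hu) _)
  rw [LinearMap.comp_apply, LinearMap.comp_apply] at h2
  rw [R3_mul_apply]
  have e : φ (τ a (τ b (τ (Dm p n m) ξ))) - φ (τ (Dm p n m) ξ) =
      (φ (τ a (τ b (τ (Dm p n m) ξ))) - φ (τ a (τ (Dm p n m) ξ))) +
      (φ (τ a (τ (Dm p n m) ξ)) - φ (τ (Dm p n m) ξ)) := by ring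
  rw [e]
  refine (abs_add_le _ _).trans ((add_le_add h2 h1).trans (le_of_eq ?_))
  ring

/-- It is enough to treat the large `m`. -/
private theorem R3_large (hn : 2 ≤ n) (hR : Rep p n B τ A κ) {g : SLn p n}
    (h : ∀ M : ℕ, ∃ (C : ℝ) (m₀ : ℕ), 0 ≤ C ∧ ∀ (m : ℕ), m₀ ≤ m → ∀ (ξ : H),
      (∀ k ∈ KK p n, τ k ξ = ξ) →
      ∀ (φ : H →ₗ[ℝ] ℝ) (c : ℝ), 0 ≤ c → (∀ v, |φ v| ≤ c * nm B v) →
        (∀ u ∈ KM p n M, ∀ v, φ (τ u v) = φ v) →
        |φ (τ g (τ (Dm p n m) ξ)) - φ (τ (Dm p n m) ξ)| ≤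
          C * (p : ℝ) ^ (-((1 / 2 - 2 * κ) * m)) * c * nm B ξ) : R3Good B τ κ g := by
  intro M
  obtain ⟨C, m₀, hC, H⟩ := h M
  have hA := hR.A_nonneg
  have hκ := hR.κ_nonneg
  have hs : 0 ≤ A * size g ^ κ := mul_nonneg hA (Real.rpow_nonneg (size_nonneg g) κ)
  have hp0 : (0 : ℝ) < p := R3_p0
  have hp1 : (1 : ℝ) ≤ p := R3_p1
  have hC2 : 0 ≤ (A * size g ^ κ + 1) * A * (p : ℝ) ^ ((m₀ : ℝ) / 2) :=
    mul_nonneg (mul_nonneg (by linarith) hA) (Real.rpow_nonneg hp0.le _)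
  refine ⟨C + (A * size g ^ κ + 1) * A * (p : ℝ) ^ ((m₀ : ℝ) / 2), add_nonneg hC hC2, ?_⟩
  intro m ξ hξ φ c hc hφ hφi
  have hX : 0 ≤ nm B ξ := PSD.nm_nonneg ξ
  have hpe : 0 ≤ (p : ℝ) ^ (-((1 / 2 - 2 * κ) * m)) := Real.rpow_nonneg hp0.le _
  have hcX : 0 ≤ (p : ℝ) ^ (-((1 / 2 - 2 * κ) * m)) * c * nm B ξ :=
    mul_nonneg (mul_nonneg hpe hc) hX
  have e0 : (C + (A * size g ^ κ + 1) * A * (p : ℝ) ^ ((m₀ : ℝ) / 2)) *
      (p : ℝ) ^ (-((1 / 2 - 2 * κ) * m)) * c * nm B ξ =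
      C * (p : ℝ) ^ (-((1 / 2 - 2 * κ) * m)) * c * nm B ξ +
      ((A * size g ^ κ + 1) * A * (p : ℝ) ^ ((m₀ : ℝ) / 2)) *
        ((p : ℝ) ^ (-((1 / 2 - 2 * κ) * m)) * c * nm B ξ) := by ring
  rw [e0]
  rcases le_or_gt m₀ m with hm | hm
  · exact (H m hm ξ hξ φ c hc hφ hφi).trans (le_add_of_nonneg_right (mul_nonneg hC2 hcX))
  · refine le_trans ?_ (le_add_of_nonneg_left
      (mul_nonneg (mul_nonneg (mul_nonneg hC hpe) hc) hX))
    set ζ := τ (Dm p n m) ξ with hζ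
    have h1 : |φ (τ g ζ) - φ ζ| ≤ c * ((A * size g ^ κ + 1) * nm B ζ) := by
      have a1 : |φ (τ g ζ) - φ ζ| ≤ |φ (τ g ζ)| + |φ ζ| := abs_sub _ _
      have a2 := (hφ (τ g ζ)).trans (mul_le_mul_of_nonneg_left (hR.growth g ζ) hc)
      have a3 := hφ ζ
      calc _ ≤ _ := a1
        _ ≤ c * (A * size g ^ κ * nm B ζ) + c * nm B ζ := add_le_add a2 a3
        _ = _ := by ring
    have h2 : nm B ζ ≤ A * (p : ℝ) ^ ((m : ℝ) * κ) * nm B ξ := by
      refine (hR.growth _ _).trans (mul_le_mul_of_nonneg_right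
        (mul_le_mul_of_nonneg_left ?_ hA) hX)
      refine (Real.rpow_le_rpow (size_nonneg _) (size_Dm_le hn m) hκ).trans (le_of_eq ?_)
      rw [← Real.rpow_natCast, ← Real.rpow_mul hp0.le]
    have h3 : (p : ℝ) ^ ((m : ℝ) * κ) ≤
        (p : ℝ) ^ ((m₀ : ℝ) / 2) * (p : ℝ) ^ (-((1 / 2 - 2 * κ) * m)) := by
      rw [← Real.rpow_add hp0]
      apply Real.rpow_le_rpow_of_exponent_le hp1
      have hm' : (m : ℝ) ≤ m₀ := by exact_mod_cast hm.le
      have hm0 : (0 : ℝ) ≤ m := Nat.cast_nonneg m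
      nlinarith [mul_nonneg hm0 hκ]
    calc |φ (τ g ζ) - φ ζ| ≤ c * ((A * size g ^ κ + 1) * nm B ζ) := h1
      _ ≤ c * ((A * size g ^ κ + 1) * (A * ((p : ℝ) ^ ((m₀ : ℝ) / 2) *
            (p : ℝ) ^ (-((1 / 2 - 2 * κ) * m))) * nm B ξ)) := by
          refine mul_le_mul_of_nonneg_left (mul_le_mul_of_nonneg_left ?_ (by linarith)) hc
          exact h2.trans (mul_le_mul_of_nonneg_right (mul_le_mul_of_nonneg_left h3 hA) hX)
      _ = _ := by ring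

private theorem R3_fix (hn : 2 ≤ n) {ξ : H} (hξ : ∀ k ∈ KK p n, τ k ξ = ξ) (m : ℕ)
    {i j : Fin n} (h : i ≠ j) {x : ℚ_[p]} (hx : ‖x‖ ≤ (p : ℝ) ^ (lam n m j - lam n m i)) :
    τ (EE h x) (τ (Dm p n m) ξ) = τ (Dm p n m) ξ := by
  have e := dg_conj (p := p) (sum_lam hn m) h ((p : ℚ_[p]) ^ (lam n m j - lam n m i) * x)
  have e1 : (p : ℚ_[p]) ^ (lam n m i - lam n m j) *
      ((p : ℚ_[p]) ^ (lam n m j - lam n m i) * x) = x := by
    rw [← mul_assoc, ← zpow_add₀ pne]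
    simp
  rw [e1] at e
  rw [← R3_mul_apply]
  have e2 : EE h x * Dm p n m =
      Dm p n m * EE h ((p : ℚ_[p]) ^ (lam n m j - lam n m i) * x) := e.symm
  rw [e2, R3_mul_apply]
  congr 1
  apply hξ
  apply EE_mem_KK
  rw [norm_mul, norm_p_zpow]
  have hp0 : (0 : ℝ) < p := R3_p0
  calc (p : ℝ) ^ (-(lam n m j - lam n m i)) * ‖x‖ ≤
        (p : ℝ) ^ (-(lam n m j - lam n m i)) * (p : ℝ) ^ (lam n m j - lam n m i) :=
        mul_le_mul_of_nonneg_left hx (by positivity)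
    _ = 1 := by rw [← zpow_add₀ hp0.ne']; simp

private theorem R3_num {c X Q N : ℝ} (hA : 0 ≤ A) (hκ : 0 ≤ κ) (hc : 0 ≤ c)
    (hX : 0 ≤ X) {m M s q r : ℕ} (hr : m = M + s + r) (hq : 3 * q ≤ m + 2) (hQ0 : 0 ≤ Q)
    (hQ : Q ≤ (p : ℝ) ^ ((2 * q : ℕ) : ℤ)) (hN : N ≤ A * ((p : ℝ) ^ ((m + q : ℕ) : ℤ)) ^ κ * X) :
    2 * (p : ℝ) ^ (-(((r : ℝ) + 1) / 2)) * (c * (A * Q ^ κ)) * N ≤
      (2 * A ^ 2 * (p : ℝ) ^ (((M : ℝ) + s) / 2 + 2 * κ)) *
        (p : ℝ) ^ (-((1 / 2 - 2 * κ) * m)) * c * X := by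
  have hp0 : (0 : ℝ) < p := R3_p0
  have hp1 : (1 : ℝ) ≤ p := R3_p1
  have e1 : ((p : ℝ) ^ ((2 * q : ℕ) : ℤ)) ^ κ = (p : ℝ) ^ ((2 * q : ℝ) * κ) := by
    rw [← Real.rpow_intCast, ← Real.rpow_mul hp0.le]
    push_cast; ring_nf
  have e2 : ((p : ℝ) ^ ((m + q : ℕ) : ℤ)) ^ κ = (p : ℝ) ^ ((m + q : ℝ) * κ) := by
    rw [← Real.rpow_intCast, ← Real.rpow_mul hp0.le]
    push_cast; ring_nf
  have hQ' : Q ^ κ ≤ (p : ℝ) ^ ((2 * q : ℝ) * κ) := by
    rw [← e1]; exact Real.rpow_le_rpow hQ0 hQ hκ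
  rw [e2] at hN
  have key : (p : ℝ) ^ (-(((r : ℝ) + 1) / 2)) * ((p : ℝ) ^ ((2 * q : ℝ) * κ) *
      (p : ℝ) ^ ((m + q : ℝ) * κ)) ≤
      (p : ℝ) ^ (((M : ℝ) + s) / 2 + 2 * κ) * (p : ℝ) ^ (-((1 / 2 - 2 * κ) * m)) := by
    rw [← Real.rpow_add hp0, ← Real.rpow_add hp0, ← Real.rpow_add hp0]
    apply Real.rpow_le_rpow_of_exponent_le hp1
    have hm : (m : ℝ) = M + s + r := by exact_mod_cast hr
    have hq' : (3 : ℝ) * q ≤ m + 2 := by exact_mod_cast hq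
    nlinarith [mul_le_mul_of_nonneg_right hq' hκ]
  have hb0 : 0 ≤ 2 * (p : ℝ) ^ (-(((r : ℝ) + 1) / 2)) := by positivity
  have hQk : 0 ≤ Q ^ κ := Real.rpow_nonneg hQ0 κ
  calc 2 * (p : ℝ) ^ (-(((r : ℝ) + 1) / 2)) * (c * (A * Q ^ κ)) * N
      ≤ 2 * (p : ℝ) ^ (-(((r : ℝ) + 1) / 2)) * (c * (A * Q ^ κ)) *
        (A * (p : ℝ) ^ ((m + q : ℝ) * κ) * X) :=
        mul_le_mul_of_nonneg_left hN (mul_nonneg hb0 (mul_nonneg hc (mul_nonneg hA hQk)))
    _ ≤ 2 * (p : ℝ) ^ (-(((r : ℝ) + 1) / 2)) * (c * (A * (p : ℝ) ^ ((2 * q : ℝ) * κ))) *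
        (A * (p : ℝ) ^ ((m + q : ℝ) * κ) * X) := by
        refine mul_le_mul_of_nonneg_right (mul_le_mul_of_nonneg_left
          (mul_le_mul_of_nonneg_left (mul_le_mul_of_nonneg_left hQ' hA) hc) hb0) ?_
        exact mul_nonneg (mul_nonneg hA (Real.rpow_nonneg hp0.le _)) hX
    _ = (2 * A ^ 2 * c * X) * ((p : ℝ) ^ (-(((r : ℝ) + 1) / 2)) * ((p : ℝ) ^ ((2 * q : ℝ) * κ) *
      (p : ℝ) ^ ((m + q : ℝ) * κ))) := by ring
    _ ≤ (2 * A ^ 2 * c * X) * ((p : ℝ) ^ (((M : ℝ) + s) / 2 + 2 * κ) *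
        (p : ℝ) ^ (-((1 / 2 - 2 * κ) * m))) := mul_le_mul_of_nonneg_left key (by positivity)
    _ = _ := by ring

/-- The bound for the vector `τ (dg a) ζ`. -/
private theorem R3_vec (hn : 2 ≤ n) (hR : Rep p n B τ A κ) {a : Fin n → ℤ} (ha : ∑ l, a l = 0)
    {m q : ℕ} (hb : ∀ l, |a l + lam n m l| ≤ ((m + q : ℕ) : ℤ)) (ξ : H) :
    nm B (τ (dg p a) (τ (Dm p n m) ξ)) ≤ A * ((p : ℝ) ^ ((m + q : ℕ) : ℤ)) ^ κ * nm B ξ := by
  rw [← R3_mul_apply]
  have e : dg p a * Dm p n m = dg p (fun i => a i + lam n m i) :=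
    (dg_add ha (sum_lam hn m)).symm
  rw [e]
  refine (hR.growth _ _).trans (mul_le_mul_of_nonneg_right
    (mul_le_mul_of_nonneg_left ?_ hR.A_nonneg) (PSD.nm_nonneg ξ))
  refine Real.rpow_le_rpow (size_nonneg _) ?_ hR.κ_nonneg
  refine size_dg_le ?_ hb
  rw [Finset.sum_add_distrib, ha, sum_lam hn m, add_zero]

private theorem R3_exp (x : ℚ_[p]) : ∃ s : ℕ, ‖x‖ ≤ (p : ℝ) ^ (s : ℤ) := by
  have hp1 : (1 : ℝ) < p := by exact_mod_cast (Fact.out : p.Prime).one_lt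
  obtain ⟨s, hs⟩ := pow_unbounded_of_one_lt ‖x‖ hp1
  exact ⟨s, by rw [zpow_natCast]; exact hs.le⟩

/-- Three distinct positions. -/
private theorem R3_sum {i j k : Fin n} (hik : i ≠ k) (hkj : k ≠ j) (hij : i ≠ j)
    {u v w : ℤ} (h : u + v + w = 0) :
    ∑ l, (if l = i then u else if l = j then v else if l = k then w else 0) = 0 := by
  have e : ∀ l : Fin n, (if l = i then u else if l = j then v else if l = k then w else 0) =
      (if l = i then u else 0) + (if l = j then v else 0) + (if l = k then w else 0) := by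
    intro l
    by_cases h1 : l = i
    · subst h1; simp [hij, hik]
    · by_cases h2 : l = j
      · subst h2; simp [h1, hkj.symm]
      · simp [h1, h2]
  simp only [e, Finset.sum_add_distrib, Finset.sum_ite_eq', Finset.mem_univ, if_true]
  exact h

/-- Case (a): the first index is first or the second index is last. -/
private theorem R3_caseA (hn : 2 ≤ n) (hR : Rep p n B τ A κ) {i j : Fin n} (h : i ≠ j)
    (hc : i.1 = 0 ∨ j.1 + 1 = n) (x : ℚ_[p]) : R3Good B τ κ (EE h x) := by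
  apply R3_large hn hR
  intro M
  obtain ⟨s, hs⟩ := R3_exp x
  refine ⟨0, s, le_rfl, ?_⟩
  intro m hm ξ hξ φ c hc' hφ hφi
  have hp1 : (1 : ℝ) ≤ p := R3_p1
  have hx : ‖x‖ ≤ (p : ℝ) ^ (lam n m j - lam n m i) := by
    refine hs.trans (zpow_le_zpow_right₀ hp1 ?_)
    have hij : i.1 ≠ j.1 := fun e => h (Fin.ext e)
    have hi := i.2
    have hj := j.2
    unfold lam
    split_ifs <;> omega
  rw [R3_fix hn hξ m h hx, sub_self, abs_zero]
  simp

/-- Case (b): the first index is neither first nor last, the second is not last. -/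
private theorem R3_caseB (hn : 2 ≤ n) (hR : Rep p n B τ A κ) {i j : Fin n} (h : i ≠ j)
    (h0 : i.1 ≠ 0) (h1 : i.1 + 1 ≠ n) (hj1 : j.1 + 1 ≠ n) (x : ℚ_[p]) :
    R3Good B τ κ (EE h x) := by
  apply R3_large hn hR
  intro M
  obtain ⟨s, hs⟩ := R3_exp x
  refine ⟨2 * A ^ 2 * (p : ℝ) ^ (((M : ℝ) + s) / 2 + 2 * κ), M + s, by positivity, ?_⟩
  intro m hm ξ hξ φ c hc hφ hφi
  have hp1 : (1 : ℝ) ≤ p := R3_p1
  obtain ⟨r, hr⟩ : ∃ r, m = M + s + r := ⟨m - (M + s), by omega⟩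
  obtain ⟨q, hq1, hq2⟩ : ∃ q : ℕ, m ≤ 3 * q ∧ 3 * q ≤ m + 2 := ⟨(m + 2) / 3, by omega, by omega⟩
  have hk : n - 1 < n := by omega
  have hij : i.1 ≠ j.1 := fun e => h (Fin.ext e)
  have hi2 := i.2
  have hj2 := j.2
  have hik : i ≠ ⟨n - 1, hk⟩ := fun e => h1 (by rw [e]; simp; omega)
  have hkj : (⟨n - 1, hk⟩ : Fin n) ≠ j := fun e => hj1 (by rw [← e]; simp; omega)
  have ha := R3_sum hik hkj h (u := 2 * (q : ℤ)) (v := -(q : ℤ)) (w := -(q : ℤ)) (by ring)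
  set k : Fin n := ⟨n - 1, hk⟩ with hkdef
  set a : Fin n → ℤ := fun l => if l = i then 2 * (q : ℤ) else if l = j then -(q : ℤ)
    else if l = k then -(q : ℤ) else 0 with hadef
  have ai : a i = 2 * (q : ℤ) := by simp [hadef]
  have aj : a j = -(q : ℤ) := by simp [hadef, h.symm]
  have ak : a k = -(q : ℤ) := by simp [hadef, hik.symm, hkj]
  have hlk : lam n m k = m := by
    unfold lam
    have e1 : k.1 ≠ 0 := by simp [hkdef]; omega
    have e2 : k.1 + 1 = n := by simp [hkdef]; omega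
    rw [if_neg e1, if_pos e2]
  have hli : lam n m i = 0 := by
    unfold lam
    rw [if_neg h0, if_neg h1]
  have key := keyE1 hR hik hkj h a ha (-(m : ℤ)) (M : ℤ) (by rw [ai, ak]; omega)
    (by rw [ak, aj]; omega) (τ (Dm p n m) ξ)
    (fun y hy => R3_fix hn hξ m hik (by
      rw [hlk, hli, sub_zero]
      rwa [neg_neg] at hy))
    φ c hc hφ (fun y hy v => hφi _ (EE_mem_KM hkj hy) v) x r (by
      refine hs.trans (zpow_le_zpow_right₀ hp1 ?_)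
      omega)
  refine key.trans (R3_num hR.A_nonneg hR.κ_nonneg hc (PSD.nm_nonneg ξ) hr hq2 (size_nonneg _)
    ?_ ?_)
  · refine size_dg_le ha fun l => ?_
    change |a l| ≤ _
    simp only [hadef]
    split_ifs <;> rw [abs_le] <;> constructor <;> push_cast <;> omega
  · refine R3_vec hn hR ha (fun l => ?_) ξ
    change |a l + _| ≤ _
    simp only [hadef]
    have hl2 := l.2
    by_cases hl : l = i
    · rw [if_pos hl, hl, hli, abs_le]; constructor <;> push_cast <;> omega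
    · rw [if_neg hl]
      have : -(m : ℤ) ≤ lam n m l ∧ lam n m l ≤ m := by
        unfold lam; split_ifs <;> omega
      split_ifs <;> rw [abs_le] <;> constructor <;> push_cast <;> omega

/-- Case (c): the first index is last, the second is neither first nor last. -/
private theorem R3_caseC (hn : 2 ≤ n) (hR : Rep p n B τ A κ) {i j : Fin n} (h : i ≠ j)
    (h1 : i.1 + 1 = n) (hj0 : j.1 ≠ 0) (x : ℚ_[p]) :
    R3Good B τ κ (EE h x) := by
  apply R3_large hn hR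
  intro M
  obtain ⟨s, hs⟩ := R3_exp x
  refine ⟨2 * A ^ 2 * (p : ℝ) ^ (((M : ℝ) + s) / 2 + 2 * κ), M + s, by positivity, ?_⟩
  intro m hm ξ hξ φ c hc hφ hφi
  have hp1 : (1 : ℝ) ≤ p := R3_p1
  obtain ⟨r, hr⟩ : ∃ r, m = M + s + r := ⟨m - (M + s), by omega⟩
  obtain ⟨q, hq1, hq2⟩ : ∃ q : ℕ, m ≤ 3 * q ∧ 3 * q ≤ m + 2 := ⟨(m + 2) / 3, by omega, by omega⟩
  have hk : 0 < n := by omega
  have hij : i.1 ≠ j.1 := fun e => h (Fin.ext e)
  have hi2 := i.2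
  have hj2 := j.2
  have hj1 : j.1 + 1 ≠ n := by omega
  have hik : i ≠ ⟨0, hk⟩ := fun e => by
    have : i.1 = 0 := by rw [e]
    omega
  have hkj : (⟨0, hk⟩ : Fin n) ≠ j := fun e => hj0 (by rw [← e])
  have ha := R3_sum hik hkj h (u := (q : ℤ)) (v := -(2 * (q : ℤ))) (w := (q : ℤ)) (by ring)
  set k : Fin n := ⟨0, hk⟩ with hkdef
  set a : Fin n → ℤ := fun l => if l = i then (q : ℤ) else if l = j then -(2 * (q : ℤ))
    else if l = k then (q : ℤ) else 0 with hadef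
  have ai : a i = (q : ℤ) := by simp [hadef]
  have aj : a j = -(2 * (q : ℤ)) := by simp [hadef, h.symm]
  have ak : a k = (q : ℤ) := by simp [hadef, hik.symm, hkj]
  have hlk : lam n m k = -(m : ℤ) := by
    unfold lam
    rw [if_pos (by simp [hkdef])]
  have hlj : lam n m j = 0 := by
    unfold lam
    rw [if_neg hj0, if_neg hj1]
  have key := keyE2 hR hik hkj h a ha (M : ℤ) (-(m : ℤ)) (by rw [ai, ak]; omega)
    (by rw [ak, aj]; omega) (τ (Dm p n m) ξ)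
    (fun y hy => R3_fix hn hξ m hkj (by
      rw [hlk, hlj, zero_sub]
      exact hy))
    φ c hc hφ (fun y hy v => hφi _ (EE_mem_KM hik hy) v) x r (by
      refine hs.trans (zpow_le_zpow_right₀ hp1 ?_)
      omega)
  refine key.trans (R3_num hR.A_nonneg hR.κ_nonneg hc (PSD.nm_nonneg ξ) hr hq2 (size_nonneg _)
    ?_ ?_)
  · refine size_dg_le ha fun l => ?_
    change |a l| ≤ _
    simp only [hadef]
    split_ifs <;> rw [abs_le] <;> constructor <;> push_cast <;> omega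
  · refine R3_vec hn hR ha (fun l => ?_) ξ
    change |a l + _| ≤ _
    simp only [hadef]
    by_cases hl : l = j
    · have hji : j ≠ i := h.symm
      rw [hl, if_neg hji, if_pos rfl, hlj, abs_le]; constructor <;> push_cast <;> omega
    · have : -(m : ℤ) ≤ lam n m l ∧ lam n m l ≤ m := by
        unfold lam; split_ifs <;> omega
      rw [if_neg hl]
      split_ifs <;> rw [abs_le] <;> constructor <;> push_cast <;> omega

private theorem R3_EE (hn : 3 ≤ n) (hR : Rep p n B τ A κ) (i j : Fin n) (h : i ≠ j)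
    (x : ℚ_[p]) : R3Good B τ κ (EE h x) := by
  have hn2 : 2 ≤ n := by omega
  by_cases hA : i.1 = 0 ∨ j.1 + 1 = n
  · exact R3_caseA hn2 hR h hA x
  · push Not at hA
    by_cases hi : i.1 + 1 = n
    · by_cases hj : j.1 = 0
      · have hk : 1 < n := by omega
        have hik : i ≠ ⟨1, hk⟩ := fun e => by
          have : i.1 = 1 := by rw [e]
          omega
        have hkj : (⟨1, hk⟩ : Fin n) ≠ j := fun e => by
          have : j.1 = 1 := by rw [← e]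
          omega
        have e : EE h x = EE hik (-x) * (EE hkj (-1) * (EE hik x * EE hkj 1)) := by
          rw [EE_heis hik hkj h x 1, mul_one, ← EE_inv, ← EE_inv]
          group
        rw [e]
        have g1 : ∀ y, R3Good B τ κ (EE hik y) := fun y =>
          R3_caseC hn2 hR hik hi (by simp) y
        have g2 : ∀ y, R3Good B τ κ (EE hkj y) := fun y =>
          R3_caseB hn2 hR hkj (by simp) (by simp; omega) (by omega) y
        exact R3_good_mul hR (g1 _) (R3_good_mul hR (g2 _) (R3_good_mul hR (g1 _) (g2 _)))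
      · exact R3_caseC hn2 hR h hi hj x
    · exact R3_caseB hn2 hR h hA.1 hi hA.2 x

theorem keyK (hn : 3 ≤ n) (hR : Rep p n B τ A κ) (g : SLn p n) (M : ℕ) :
    ∃ C : ℝ, 0 ≤ C ∧ ∀ (m : ℕ) (ξ : H), (∀ k ∈ KK p n, τ k ξ = ξ) →
      ∀ (φ : H →ₗ[ℝ] ℝ) (c : ℝ), 0 ≤ c → (∀ v, |φ v| ≤ c * nm B v) →
        (∀ u ∈ KM p n M, ∀ v, φ (τ u v) = φ v) →
        |φ (τ g (τ (Dm p n m) ξ)) - φ (τ (Dm p n m) ξ)| ≤
          C * (p : ℝ) ^ (-((1 / 2 - 2 * κ) * m)) * c * nm B ξ := by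
  have hg : R3Good B τ κ g := EE_induction (by omega) (R3Good B τ κ)
    (fun i j h x => R3_EE hn hR i j h x) (fun a b ha hb => R3_good_mul hR ha hb) g
  exact hg M

end Pool.Agent.H73.PZ
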