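import Mathlib
import Pool.Agent.H73.PZ.HB

/-!
MODULE HF (MP_d9606f_gt, paper `/team-store/h73_padic_zimmer.md`, B3).
The functions `F_v (g) = ∑_{γ : γ⁻¹ g ∈ CC R} ρ γ v`.

* equivariance: substitute `γ ↦ γ' γ` in the finite sum; right `KK`-invariance: `CC_mul_mem` (in
  both directions, `k` and `k⁻¹`).
* the set `{γ | γ⁻¹ g ∈ CC R}` is the image of `{γ | γ g ∈ CC R}` under inversion: finite
  (`CC_finite`), at most `N₀` elements (`CC_count`), non-empty (`CC_cover`).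
* bound: for `g ∈ CC R` and `γ⁻¹ g ∈ CC R`: `size γ ≤ c²`.
* `exists_Rm`: `KK ∩ Dm KK Dm⁻¹` contains some `KM M` (`KM_conj`), hence has finite index in `KK`
  (`KM_finite`); take one representative in every coset (`KK`-cosets `k (KK ∩ Dm KK Dm⁻¹)`).
* `avg_fixed`: `g ∈ KK` permutes the cosets `k KK_m`, and `τ k ζ` only depends on the coset of `k`.
-/

open MeasureTheory

namespace Pool.Agent.H73.PZ

noncomputable section

open Classical in
/-- The function `g ↦ ∑_{γ : γ⁻¹ g ∈ CC R} ρ γ v`. -/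
def FvFun {p : ℕ} [Fact p.Prime] {n : ℕ} (R : Finset (SLn p n)) {Γ : Subgroup (SLn p n)}
    {V : Type} [AddCommGroup V] [Module ℝ V] (ρ : Γ →* Module.End ℝ V) (v : V)
    (g : SLn p n) : V :=
  ∑ᶠ γ : Γ, if ((γ⁻¹ : Γ) : SLn p n) * g ∈ CC R then ρ γ v else 0

variable {p : ℕ} [Fact p.Prime] {n : ℕ} {R : Finset (SLn p n)} {Γ : Subgroup (SLn p n)}
  {V : Type} [AddCommGroup V] [Module ℝ V] {B : V → V → ℝ} {ρ : Γ →* Module.End ℝ V}
  {μ : Measure (SLn p n)}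

private theorem HF_finite (hΓ : DiscreteTopology Γ) (g : SLn p n) :
    {γ : Γ | ((γ⁻¹ : Γ) : SLn p n) * g ∈ CC R}.Finite :=
  (CC_finite (R := R) hΓ g).preimage (f := fun γ : Γ => γ⁻¹) inv_injective.injOn

private theorem HF_right {g k : SLn p n} (hk : k ∈ KK p n) (x : SLn p n) :
    x * (g * k) ∈ CC R ↔ x * g ∈ CC R := by
  constructor
  · intro h
    have h1 := CC_mul_mem h (inv_mem hk)
    have e : x * (g * k) * k⁻¹ = x * g := by group
    rwa [e] at h1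
  · intro h
    have h1 := CC_mul_mem h hk
    rwa [mul_assoc] at h1

private theorem HF_fun_right (v : V) (g : SLn p n) {k : SLn p n} (hk : k ∈ KK p n) :
    FvFun R ρ v (g * k) = FvFun R ρ v g := by
  unfold FvFun
  refine finsum_congr fun γ => ?_
  by_cases h : ((γ⁻¹ : Γ) : SLn p n) * g ∈ CC R
  · rw [if_pos h, if_pos ((HF_right hk _).2 h)]
  · rw [if_neg h, if_neg fun h' => h ((HF_right hk _).1 h')]

private theorem HF_supp (hΓ : DiscreteTopology Γ) (v : V) (g : SLn p n) :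
    (Function.support fun γ : Γ =>
      open Classical in if ((γ⁻¹ : Γ) : SLn p n) * g ∈ CC R then ρ γ v else 0).Finite := by
  classical
  refine (HF_finite (R := R) hΓ g).subset fun γ hγ => ?_
  by_contra h
  apply hγ
  exact if_neg h

theorem FvFun_mem (hΓ : DiscreteTopology Γ) (v : V) : FvFun R ρ v ∈ HS ρ := by
  classical
  refine ⟨fun γ' g => ?_, 0, fun g u hu => HF_fun_right v g (KM_le_KK 0 hu)⟩
  unfold FvFun
  rw [← finsum_comp_equiv (Equiv.mulLeft γ')]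
  have h1 := AddMonoidHom.map_finsum (ρ γ').toAddMonoidHom (HF_supp (R := R) (ρ := ρ) hΓ v g)
  refine Eq.trans ?_ h1.symm
  refine finsum_congr fun γ => ?_
  have e : (((Equiv.mulLeft γ' γ)⁻¹ : Γ) : SLn p n) * ((γ' : SLn p n) * g) =
      ((γ⁻¹ : Γ) : SLn p n) * g := by
    rw [Equiv.coe_mulLeft, Subgroup.coe_inv, Subgroup.coe_mul, Subgroup.coe_inv]
    group
  rw [e]
  by_cases h : ((γ⁻¹ : Γ) : SLn p n) * g ∈ CC R
  · rw [if_pos h, if_pos h, Equiv.coe_mulLeft, map_mul]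
    rfl
  · rw [if_neg h, if_neg h]
    exact (map_zero (ρ γ')).symm

/-- `F_v` as an element of `HS ρ`. -/
def Fv (hΓ : DiscreteTopology Γ) (R : Finset (SLn p n)) (ρ : Γ →* Module.End ℝ V) (v : V) :
    HS ρ := ⟨FvFun R ρ v, FvFun_mem hΓ v⟩

theorem Fv_right (hΓ : DiscreteTopology Γ) (v : V) (g : SLn p n) {k : SLn p n}
    (hk : k ∈ KK p n) : (Fv hΓ R ρ v).1 (g * k) = (Fv hΓ R ρ v).1 g :=
  HF_fun_right v g hk

theorem Fv_fixed (hΓ : DiscreteTopology Γ) (v : V) {k : SLn p n} (hk : k ∈ KK p n) :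
    rt ρ k (Fv hΓ R ρ v) = Fv hΓ R ρ v := by
  apply Subtype.ext; funext g
  rw [rt_apply]
  exact Fv_right hΓ v g hk

private theorem HF_bound (hΓ : DiscreteTopology Γ) (hB : PSD B) {A κ : ℝ} (hA : 0 ≤ A)
    (hκ : 0 ≤ κ)
    (hρ : ∀ (γ : Γ) (v : V), nm B (ρ γ v) ≤ A * size (γ : SLn p n) ^ κ * nm B v)
    {c : ℝ} (hc : ∀ g ∈ CC R, size g ≤ c) {N₀ : ℕ}
    (hN : ∀ g : SLn p n, {γ : Γ | (γ : SLn p n) * g ∈ CC R}.ncard ≤ N₀) (v : V)
    {g : SLn p n} (hg : g ∈ CC R) :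
    nm B (FvFun R ρ v g) ≤ N₀ * (A * (c * c) ^ κ) * nm B v := by
  classical
  have hfin := HF_finite (R := R) hΓ g
  have e1 : FvFun R ρ v g = ∑ γ ∈ hfin.toFinset, ρ γ v := by
    unfold FvFun
    rw [finsum_eq_sum_of_support_subset _ (s := hfin.toFinset) ?_]
    · refine Finset.sum_congr rfl fun γ hγ => ?_
      rw [Set.Finite.mem_toFinset] at hγ
      exact if_pos hγ
    · intro γ hγ
      rw [Set.Finite.coe_toFinset]
      by_contra h
      exact hγ (if_neg h)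
  have hc0 : 0 ≤ c := (size_nonneg g).trans (hc g hg)
  have e2 : ∀ γ ∈ hfin.toFinset, nm B (ρ γ v) ≤ A * (c * c) ^ κ * nm B v := by
    intro γ hγ
    rw [Set.Finite.mem_toFinset] at hγ
    refine (hρ γ v).trans ?_
    have h1 : size (γ : SLn p n) ≤ c * c := by
      have e : (γ : SLn p n) = g * (((γ⁻¹ : Γ) : SLn p n) * g)⁻¹ := by
        rw [Subgroup.coe_inv]
        group
      rw [e]
      refine (size_mul_le _ _).trans ?_
      rw [size_inv]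
      exact mul_le_mul (hc g hg) (hc _ hγ) (size_nonneg _) hc0
    have h2 : size (γ : SLn p n) ^ κ ≤ (c * c) ^ κ :=
      Real.rpow_le_rpow (size_nonneg _) h1 hκ
    exact mul_le_mul_of_nonneg_right (mul_le_mul_of_nonneg_left h2 hA) (PSD.nm_nonneg _)
  have e3 : (hfin.toFinset.card : ℝ) ≤ N₀ := by
    have h1 : {γ : Γ | ((γ⁻¹ : Γ) : SLn p n) * g ∈ CC R}.ncard =
        {γ : Γ | (γ : SLn p n) * g ∈ CC R}.ncard := by
      have h2 : {γ : Γ | ((γ⁻¹ : Γ) : SLn p n) * g ∈ CC R} =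
          (fun γ : Γ => γ⁻¹) '' {γ : Γ | (γ : SLn p n) * g ∈ CC R} := by
        ext γ
        simp only [Set.mem_ofPred_eq, Set.mem_image]
        constructor
        · intro h
          exact ⟨γ⁻¹, h, inv_inv γ⟩
        · rintro ⟨γ', h, rfl⟩
          rwa [inv_inv]
      rw [h2, Set.ncard_image_of_injective _ inv_injective]
    rw [← Set.ncard_eq_toFinset_card _ hfin, h1]
    exact_mod_cast hN g
  rw [e1]
  refine (hB.nm_sum_le _ _).trans ((Finset.sum_le_sum e2).trans ?_)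
  rw [Finset.sum_const, nsmul_eq_mul, mul_assoc (N₀ : ℝ)]
  exact mul_le_mul_of_nonneg_right e3
    (mul_nonneg (mul_nonneg hA (Real.rpow_nonneg (mul_nonneg hc0 hc0) _)) (PSD.nm_nonneg _))

theorem Fv_norm (hΓ : DiscreteTopology Γ) (hB : PSD B) (hμ : μ.IsHaarMeasure)
    {A κ : ℝ} (hA : 0 ≤ A) (hκ : 0 ≤ κ)
    (hρ : ∀ (γ : Γ) (v : V), nm B (ρ γ v) ≤ A * size (γ : SLn p n) ^ κ * nm B v) :
    ∃ C : ℝ, 0 ≤ C ∧ ∀ v : V, nm (BH μ R B) (Fv hΓ R ρ v) ≤ C * nm B v := by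
  obtain ⟨c, hc1, hc⟩ := CC_bound R
  obtain ⟨N₀, hN⟩ := CC_count (Γ := Γ) hΓ R
  have hc0 : 0 ≤ c := zero_le_one.trans hc1
  have hC0 : 0 ≤ (N₀ : ℝ) * (A * (c * c) ^ κ) := by positivity
  refine ⟨Real.sqrt (μ (CC R)).toReal * (N₀ * (A * (c * c) ^ κ)),
    mul_nonneg (Real.sqrt_nonneg _) hC0, fun v => ?_⟩
  have hb : 0 ≤ N₀ * (A * (c * c) ^ κ) * nm B v := mul_nonneg hC0 (PSD.nm_nonneg _)
  have h1 := BH_le (R := R) hB hμ (Fv hΓ R ρ v) hb
    (fun g hg => HF_bound hΓ hB hA hκ hρ hc hN v hg)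
  unfold nm
  refine (Real.sqrt_le_sqrt h1).trans ?_
  rw [Real.sqrt_mul' _ (sq_nonneg _), Real.sqrt_sq hb]
  change _ ≤ Real.sqrt (μ (CC R)).toReal * (N₀ * (A * (c * c) ^ κ)) * nm B v
  exact le_of_eq (by ring)

/-- Representatives of the cosets of `KK ∩ Dm KK Dm⁻¹` in `KK`. -/
theorem exists_Rm (p : ℕ) [Fact p.Prime] (n : ℕ) (m : ℕ) : ∃ S : Finset (SLn p n), S.Nonempty ∧
    (∀ s ∈ S, s ∈ KK p n) ∧
    ∀ k ∈ KK p n, ∃! s, s ∈ S ∧ (Dm p n m)⁻¹ * (s⁻¹ * k) * Dm p n m ∈ KK p n := by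
  classical
  obtain ⟨L, hL⟩ : ∃ L : Subgroup (SLn p n), ∀ x, x ∈ L ↔ (Dm p n m)⁻¹ * x * Dm p n m ∈ KK p n := by
    refine ⟨(KK p n).comap (MulAut.conj (Dm p n m)⁻¹).toMonoidHom, fun x => ?_⟩
    rw [Subgroup.mem_comap]
    simp
  obtain ⟨M, hM⟩ := KM_conj (Dm p n m)⁻¹ 0
  have hML : ∀ u ∈ KM p n M, u ∈ L := by
    intro u hu
    rw [hL]
    have h1 := KM_le_KK 0 (hM u hu)
    rwa [inv_inv] at h1
  obtain ⟨S₀, hS₀, hS₁⟩ := KM_finite (p := p) (n := n) M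
  let Q := KK p n ⧸ L.subgroupOf (KK p n)
  have hfin : Finite Q := by
    refine Finite.of_surjective (α := {s // s ∈ S₀})
      (fun s => (QuotientGroup.mk (⟨(s.1)⁻¹, inv_mem (hS₀ s.1 s.2)⟩ : KK p n) : Q)) ?_
    intro q
    obtain ⟨k, rfl⟩ := QuotientGroup.mk_surjective q
    obtain ⟨s, hs, u, hu, e⟩ := hS₁ ((k : SLn p n)⁻¹) (inv_mem k.2)
    refine ⟨⟨s, hs⟩, ?_⟩
    rw [QuotientGroup.eq, Subgroup.mem_subgroupOf]
    have e1 : ((((⟨s⁻¹, inv_mem (hS₀ s hs)⟩ : KK p n))⁻¹ * k : KK p n) : SLn p n) = u⁻¹ := by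
      have e2 : (k : SLn p n) = s⁻¹ * u⁻¹ := by
        rw [← _root_.mul_inv_rev, ← e, inv_inv]
      rw [Subgroup.coe_mul, Subgroup.coe_inv]
      change (s⁻¹)⁻¹ * (k : SLn p n) = u⁻¹
      rw [e2]
      group
    rw [e1]
    exact inv_mem (hML u hu)
  have := Fintype.ofFinite Q
  refine ⟨Finset.univ.image (fun q : Q => ((q.out : KK p n) : SLn p n)), ?_, ?_, ?_⟩
  · exact ⟨_, Finset.mem_image_of_mem _ (Finset.mem_univ (QuotientGroup.mk 1 : Q))⟩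
  · intro s hs
    obtain ⟨q, -, rfl⟩ := Finset.mem_image.1 hs
    exact (q.out : KK p n).2
  · intro k hk
    have key : ∀ q : Q, (Dm p n m)⁻¹ * ((((q.out : KK p n) : SLn p n))⁻¹ * k) * Dm p n m ∈ KK p n ↔
        q = QuotientGroup.mk (⟨k, hk⟩ : KK p n) := by
      intro q
      rw [← hL]
      have h1 : (QuotientGroup.mk (q.out : KK p n) : Q) = q := QuotientGroup.out_eq' q
      constructor
      · intro h
        rw [← h1, QuotientGroup.eq, Subgroup.mem_subgroupOf]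
        exact h
      · intro h
        have h2 : (QuotientGroup.mk (q.out : KK p n) : Q) = QuotientGroup.mk (⟨k, hk⟩ : KK p n) :=
          h1.trans h
        rw [QuotientGroup.eq, Subgroup.mem_subgroupOf] at h2
        exact h2
    refine ⟨(((QuotientGroup.mk (⟨k, hk⟩ : KK p n) : Q).out : KK p n) : SLn p n),
      ⟨Finset.mem_image_of_mem _ (Finset.mem_univ _), (key _).2 rfl⟩, ?_⟩
    rintro s ⟨hs, hs'⟩
    obtain ⟨q, -, rfl⟩ := Finset.mem_image.1 hs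
    rw [(key q).1 hs']

/-- The average over the cosets of `KK ∩ Dm KK Dm⁻¹` of a vector `τ (Dm m) ξ`, `ξ` fixed by `KK`,
is fixed by `KK`. -/
theorem avg_fixed {H : Type} [AddCommGroup H] [Module ℝ H] (τ : SLn p n →* Module.End ℝ H)
    (m : ℕ) (S : Finset (SLn p n)) (hS : ∀ s ∈ S, s ∈ KK p n)
    (hS' : ∀ k ∈ KK p n, ∃! s, s ∈ S ∧ (Dm p n m)⁻¹ * (s⁻¹ * k) * Dm p n m ∈ KK p n)
    (ξ : H) (hξ : ∀ k ∈ KK p n, τ k ξ = ξ) {k : SLn p n} (hk : k ∈ KK p n) :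
    τ k ((S.card : ℝ)⁻¹ • ∑ s ∈ S, τ s (τ (Dm p n m) ξ)) =
      (S.card : ℝ)⁻¹ • ∑ s ∈ S, τ s (τ (Dm p n m) ξ) := by
  classical
  have hex : ∀ x : SLn p n, ∃ s, x ∈ KK p n →
      (s ∈ S ∧ (Dm p n m)⁻¹ * (s⁻¹ * x) * Dm p n m ∈ KK p n) := by
    intro x
    by_cases hx : x ∈ KK p n
    · obtain ⟨s, hs, -⟩ := hS' x hx
      exact ⟨s, fun _ => hs⟩
    · exact ⟨1, fun h => absurd h hx⟩
  choose r hr using hex
  rw [map_smul, map_sum]
  congr 1
  have hmaps : ∀ s ∈ S, r (k * s) ∈ S := fun s hs => (hr _ (mul_mem hk (hS s hs))).1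
  have hinj : Set.InjOn (fun s => r (k * s)) (S : Set (SLn p n)) := by
    intro s hs t ht hst
    have hst' : r (k * s) = r (k * t) := hst
    have h1 := (hr _ (mul_mem hk (hS s hs))).2
    have h2 := (hr _ (mul_mem hk (hS t ht))).2
    rw [hst'] at h1
    have h3 := mul_mem (inv_mem h1) h2
    have e : ((Dm p n m)⁻¹ * ((r (k * t))⁻¹ * (k * s)) * Dm p n m)⁻¹ *
        ((Dm p n m)⁻¹ * ((r (k * t))⁻¹ * (k * t)) * Dm p n m) =
        (Dm p n m)⁻¹ * (s⁻¹ * t) * Dm p n m := by group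
    rw [e] at h3
    refine (hS' t (hS t ht)).unique ⟨hs, h3⟩ ⟨ht, ?_⟩
    have e2 : (Dm p n m)⁻¹ * (t⁻¹ * t) * Dm p n m = 1 := by group
    rw [e2]
    exact one_mem _
  refine Finset.sum_nbij (fun s => r (k * s)) hmaps hinj
    (Finset.surjOn_of_injOn_of_card_le _ (fun s hs => hmaps s hs) hinj le_rfl) ?_
  intro s hs
  have h2 := (hr _ (mul_mem hk (hS s hs))).2
  have e : k * s * Dm p n m = r (k * s) * Dm p n m *
      ((Dm p n m)⁻¹ * ((r (k * s))⁻¹ * (k * s)) * Dm p n m) := by group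
  have e1 : τ k (τ s (τ (Dm p n m) ξ)) = τ (k * s * Dm p n m) ξ := by
    rw [map_mul, map_mul]
    rfl
  have e2 : τ (r (k * s)) (τ (Dm p n m) ξ) = τ (r (k * s) * Dm p n m) ξ := by
    rw [map_mul]
    rfl
  rw [e1, e2, e, map_mul]
  change τ (r (k * s) * Dm p n m)
    (τ ((Dm p n m)⁻¹ * ((r (k * s))⁻¹ * (k * s)) * Dm p n m) ξ) = _
  rw [hξ _ h2]

end

end Pool.Agent.H73.PZ
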