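import Mathlib
import Pool.Agent.H73.PZ.HF
import Pool.Agent.H73.PZ.Sz

/-!
MODULE R4a (MP_d9606f_gt, paper `/team-store/h73_padic_zimmer.md`, B and B3).
The weights and their relation to the averages of the functions `F_v`.

`wtFun R S m γ = #{s ∈ S : γ⁻¹ s Dm ∈ CC R} / #S`.
* `wtFun_finite`: for each of the finitely many `s ∈ S` the set `{γ | γ⁻¹ (s Dm) ∈ CC}` is finite
  (`CC_finite` and inversion).
* `wt_size`: `γ⁻¹ s Dm = g ∈ CC` gives `γ = s Dm g⁻¹`, of size `≤ 1 * p^m * c` (`size_mul_le`,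
  `size_inv`, `mem_KK`, `size_Dm_le`), `c ≥ 1` a bound for the sizes on `CC R` (`hc`).
* `wt_mass`: `∑ γ, wt γ = #S⁻¹ ∑_{s ∈ S} #{γ | γ⁻¹ (s Dm) ∈ CC}` (exchange the finite sums), and
  each of these numbers is between `1` (`CC_cover`) and `N₀` (`hN`; inversion is a bijection).
* `avF_one`: `(avF)(g) = #S⁻¹ ∑_{s ∈ S} F_v (g s Dm)`, at `g = 1` exchange the sums.
* `avF_coe`: equivariance (`HS_equiv`).
* `avF_fixed`: `avg_fixed` with `ξ = F_v` (`Fv_fixed`).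
-/

open MeasureTheory

namespace Pool.Agent.H73.PZ

noncomputable section

variable {p : ℕ} [Fact p.Prime] {n : ℕ} {R : Finset (SLn p n)} {Γ : Subgroup (SLn p n)}
  {V : Type} [AddCommGroup V] [Module ℝ V]

open Classical in
/-- The weights as a function. -/
def wtFun (R S : Finset (SLn p n)) (m : ℕ) (γ : Γ) : ℝ :=
  ((S.filter fun s => ((γ⁻¹ : Γ) : SLn p n) * (s * Dm p n m) ∈ CC R).card : ℝ) / (S.card : ℝ)

private theorem R4a_fin (hΓ : DiscreteTopology Γ) (R : Finset (SLn p n)) (g : SLn p n) :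
    {γ : Γ | ((γ⁻¹ : Γ) : SLn p n) * g ∈ CC R}.Finite :=
  (CC_finite (R := R) hΓ g).preimage (f := fun γ : Γ => γ⁻¹) inv_injective.injOn

private theorem R4a_ncard (hΓ : DiscreteTopology Γ) (R : Finset (SLn p n)) (g : SLn p n) :
    {γ : Γ | ((γ⁻¹ : Γ) : SLn p n) * g ∈ CC R}.ncard ≤
      {γ : Γ | (γ : SLn p n) * g ∈ CC R}.ncard := by
  refine Set.ncard_le_ncard_of_injOn (fun γ : Γ => γ⁻¹) ?_ inv_injective.injOn
    (CC_finite (R := R) hΓ g)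
  intro γ hγ
  exact hγ

private theorem R4a_mem {S : Finset (SLn p n)} {m : ℕ} {γ : Γ} (h : wtFun R S m γ ≠ 0) :
    ∃ s ∈ S, ((γ⁻¹ : Γ) : SLn p n) * (s * Dm p n m) ∈ CC R := by
  classical
  unfold wtFun at h
  by_contra hcon
  apply h
  have : S.filter (fun s => ((γ⁻¹ : Γ) : SLn p n) * (s * Dm p n m) ∈ CC R) = ∅ := by
    rw [Finset.filter_eq_empty_iff]
    intro s hs hh
    exact hcon ⟨s, hs, hh⟩
  rw [this]
  simp

theorem wtFun_finite (hΓ : DiscreteTopology Γ) (R S : Finset (SLn p n)) (m : ℕ) :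
    (Function.support (wtFun (Γ := Γ) R S m)).Finite := by
  have h1 : (⋃ s ∈ S, {γ : Γ | ((γ⁻¹ : Γ) : SLn p n) * (s * Dm p n m) ∈ CC R}).Finite :=
    S.finite_toSet.biUnion fun s _ => R4a_fin hΓ R _
  refine h1.subset fun γ hγ => ?_
  obtain ⟨s, hs, hh⟩ := R4a_mem hγ
  simp only [Set.mem_iUnion, exists_prop]
  exact ⟨s, hs, hh⟩

/-- The weights. -/
def wt (hΓ : DiscreteTopology Γ) (R S : Finset (SLn p n)) (m : ℕ) : Γ →₀ ℝ :=
  Finsupp.ofSupportFinite (wtFun R S m) (wtFun_finite hΓ R S m)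

theorem wt_apply (hΓ : DiscreteTopology Γ) (R S : Finset (SLn p n)) (m : ℕ) (γ : Γ) :
    wt hΓ R S m γ = wtFun R S m γ := rfl

theorem wt_nonneg (hΓ : DiscreteTopology Γ) (R S : Finset (SLn p n)) (m : ℕ) (γ : Γ) :
    0 ≤ wt hΓ R S m γ := by
  rw [wt_apply]; unfold wtFun; positivity

theorem wt_size (hn : 2 ≤ n) (hΓ : DiscreteTopology Γ) (R S : Finset (SLn p n)) (m : ℕ)
    (hS : ∀ s ∈ S, s ∈ KK p n) {c : ℝ} (hc : ∀ g ∈ CC R, size g ≤ c) (hc1 : 1 ≤ c)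
    (γ : Γ) (h : wt hΓ R S m γ ≠ 0) : size (γ : SLn p n) ≤ c * (p : ℝ) ^ m := by
  rw [wt_apply] at h
  obtain ⟨s, hs, hh⟩ := R4a_mem h
  have e : (γ : SLn p n) = (s * Dm p n m) * (((γ⁻¹ : Γ) : SLn p n) * (s * Dm p n m))⁻¹ := by
    rw [Subgroup.coe_inv]; group
  have h1 := size_mul_le (s * Dm p n m) (((γ⁻¹ : Γ) : SLn p n) * (s * Dm p n m))⁻¹
  rw [← e, size_inv] at h1
  have h2 := size_mul_le s (Dm p n m)
  have h3 : size s ≤ 1 := mem_KK.1 (hS s hs)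
  have h4 := size_Dm_le (p := p) hn m
  have h5 := hc _ hh
  have h6 : size (s * Dm p n m) ≤ (p : ℝ) ^ m := by
    calc _ ≤ size s * size (Dm p n m) := h2
      _ ≤ 1 * (p : ℝ) ^ m := mul_le_mul h3 h4 (size_nonneg _) zero_le_one
      _ = _ := one_mul _
  have hp : (0 : ℝ) ≤ (p : ℝ) ^ m := by positivity
  calc _ ≤ _ := h1
    _ ≤ (p : ℝ) ^ m * c := mul_le_mul h6 h5 (size_nonneg _) hp
    _ = _ := mul_comm _ _

/-- the exchange of the finite sums -/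
private theorem R4a_sum (hΓ : DiscreteTopology Γ) (R S : Finset (SLn p n)) (m : ℕ)
    {W : Type} [AddCommGroup W] [Module ℝ W] (φ : Γ → W) :
    ((wt hΓ R S m).sum fun γ r => r • φ γ) = (S.card : ℝ)⁻¹ • ∑ s ∈ S, ∑ᶠ γ : Γ,
      (open Classical in if ((γ⁻¹ : Γ) : SLn p n) * (s * Dm p n m) ∈ CC R then φ γ else 0) := by
  classical
  set T : Finset Γ := S.biUnion fun s => (R4a_fin (Γ := Γ) hΓ R (s * Dm p n m)).toFinset with hT
  have hmemT : ∀ s ∈ S, ∀ γ : Γ, ((γ⁻¹ : Γ) : SLn p n) * (s * Dm p n m) ∈ CC R → γ ∈ T := by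
    intro s hs γ hγ
    rw [hT, Finset.mem_biUnion]
    exact ⟨s, hs, by rw [Set.Finite.mem_toFinset]; exact hγ⟩
  have hsub : (wt hΓ R S m).support ⊆ T := by
    intro γ hγ
    rw [Finsupp.mem_support_iff, wt_apply] at hγ
    obtain ⟨s, hs, hh⟩ := R4a_mem hγ
    exact hmemT s hs γ hh
  rw [Finsupp.sum_of_support_subset _ hsub (fun (γ : Γ) (r : ℝ) => r • φ γ)
    (fun γ _ => zero_smul ℝ (φ γ))]
  have h1 : ∀ γ ∈ T, wt hΓ R S m γ • φ γ = (S.card : ℝ)⁻¹ • ∑ s ∈ S,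
      (if ((γ⁻¹ : Γ) : SLn p n) * (s * Dm p n m) ∈ CC R then φ γ else 0) := by
    intro γ _
    rw [wt_apply, ← Finset.sum_filter, Finset.sum_const, ← Nat.cast_smul_eq_nsmul ℝ, smul_smul]
    unfold wtFun
    rw [div_eq_inv_mul]
  rw [Finset.sum_congr rfl h1, ← Finset.smul_sum, Finset.sum_comm]
  congr 1
  refine Finset.sum_congr rfl fun s hs => ?_
  rw [finsum_eq_sum_of_support_subset (s := T)]
  intro γ hγ
  rw [Function.mem_support] at hγ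
  refine hmemT s hs γ ?_
  by_contra hcon
  exact hγ (if_neg hcon)

private theorem R4a_count (hΓ : DiscreteTopology Γ) (R : Finset (SLn p n)) (g : SLn p n) :
    (∑ᶠ γ : Γ, (open Classical in if ((γ⁻¹ : Γ) : SLn p n) * g ∈ CC R then (1 : ℝ) else 0)) =
      ({γ : Γ | ((γ⁻¹ : Γ) : SLn p n) * g ∈ CC R}.ncard : ℝ) := by
  classical
  have hf := R4a_fin (Γ := Γ) hΓ R g
  rw [finsum_eq_sum_of_support_subset (s := hf.toFinset), Set.ncard_eq_toFinset_card _ hf]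
  · rw [Finset.sum_congr rfl (g := fun _ => (1 : ℝ))]
    · simp
    · intro γ hγ
      rw [Set.Finite.mem_toFinset] at hγ
      exact if_pos hγ
  · intro γ hγ
    rw [Function.mem_support] at hγ
    rw [Set.Finite.coe_toFinset]
    by_contra hcon
    exact hγ (if_neg hcon)

theorem wt_mass (hΓ : DiscreteTopology Γ) (R S : Finset (SLn p n)) (m : ℕ) (hS : S.Nonempty)
    (hR : ∀ g : SLn p n, ∃ γ : Γ, ∃ r ∈ R, ∃ k ∈ KK p n, g = (γ : SLn p n) * r * k)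
    {N₀ : ℕ} (hN : ∀ g : SLn p n, {γ : Γ | (γ : SLn p n) * g ∈ CC R}.ncard ≤ N₀) :
    (1 ≤ (wt hΓ R S m).sum fun _ r => r) ∧ ((wt hΓ R S m).sum fun _ r => r) ≤ N₀ := by
  have h0 := R4a_sum hΓ R S m (fun _ : Γ => (1 : ℝ))
  simp only [smul_eq_mul, mul_one] at h0
  rw [h0]
  have hpos : (0 : ℝ) < S.card := by exact_mod_cast hS.card_pos
  have h1 : ∀ s ∈ S, (∑ᶠ γ : Γ,
      (open Classical in if ((γ⁻¹ : Γ) : SLn p n) * (s * Dm p n m) ∈ CC R then (1 : ℝ) else 0)) =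
      ({γ : Γ | ((γ⁻¹ : Γ) : SLn p n) * (s * Dm p n m) ∈ CC R}.ncard : ℝ) :=
    fun s _ => R4a_count hΓ R _
  rw [Finset.sum_congr rfl h1]
  constructor
  · rw [inv_mul_eq_div, le_div_iff₀ hpos, one_mul]
    have h2 : ∑ s ∈ S, (1 : ℝ) ≤
        ∑ s ∈ S, ({γ : Γ | ((γ⁻¹ : Γ) : SLn p n) * (s * Dm p n m) ∈ CC R}.ncard : ℝ) := by
      refine Finset.sum_le_sum fun s _ => ?_
      have h3 : {γ : Γ | ((γ⁻¹ : Γ) : SLn p n) * (s * Dm p n m) ∈ CC R}.Nonempty :=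
        CC_cover hR (s * Dm p n m)
      have h4 := (Set.ncard_pos (R4a_fin (Γ := Γ) hΓ R (s * Dm p n m))).2 h3
      exact_mod_cast h4
    simpa using h2
  · rw [inv_mul_eq_div, div_le_iff₀ hpos]
    have h2 : ∑ s ∈ S, ({γ : Γ | ((γ⁻¹ : Γ) : SLn p n) * (s * Dm p n m) ∈ CC R}.ncard : ℝ) ≤
        ∑ s ∈ S, (N₀ : ℝ) := by
      refine Finset.sum_le_sum fun s _ => ?_
      exact_mod_cast (R4a_ncard hΓ R (s * Dm p n m)).trans (hN (s * Dm p n m))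
    rw [Finset.sum_const, nsmul_eq_mul, mul_comm] at h2
    exact h2

/-- The average of the translates of `F_v`. -/
def avF (hΓ : DiscreteTopology Γ) (R S : Finset (SLn p n)) (m : ℕ) (ρ : Γ →* Module.End ℝ V)
    (v : V) : HS ρ :=
  (S.card : ℝ)⁻¹ • ∑ s ∈ S, rt ρ s (rt ρ (Dm p n m) (Fv hΓ R ρ v))

theorem avF_one (hΓ : DiscreteTopology Γ) (R S : Finset (SLn p n)) (m : ℕ)
    (ρ : Γ →* Module.End ℝ V) (v : V) :
    (avF hΓ R S m ρ v).1 1 = Tw (wt hΓ R S m) ρ v := by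
  unfold Tw
  rw [R4a_sum hΓ R S m (fun γ : Γ => ρ γ v)]
  have h1 : (avF hΓ R S m ρ v).1 1 =
      (S.card : ℝ)⁻¹ • ∑ s ∈ S, (rt ρ s (rt ρ (Dm p n m) (Fv hΓ R ρ v))).1 1 := by
    unfold avF
    rw [Submodule.coe_smul, Pi.smul_apply, AddSubmonoidClass.coe_finsetSum, Finset.sum_apply]
  rw [h1]
  congr 1
  refine Finset.sum_congr rfl fun s _ => ?_
  rw [rt_apply, rt_apply, one_mul]
  rfl

theorem avF_coe (hΓ : DiscreteTopology Γ) (R S : Finset (SLn p n)) (m : ℕ)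
    (ρ : Γ →* Module.End ℝ V) (v : V) (γ : Γ) :
    (avF hΓ R S m ρ v).1 (γ : SLn p n) = ρ γ (Tw (wt hΓ R S m) ρ v) := by
  have h := HS_equiv (avF hΓ R S m ρ v) γ 1
  rw [mul_one, avF_one] at h
  exact h

theorem avF_fixed (hΓ : DiscreteTopology Γ) (R S : Finset (SLn p n)) (m : ℕ)
    (hS : ∀ s ∈ S, s ∈ KK p n)
    (hS' : ∀ k ∈ KK p n, ∃! s, s ∈ S ∧ (Dm p n m)⁻¹ * (s⁻¹ * k) * Dm p n m ∈ KK p n)
    (ρ : Γ →* Module.End ℝ V) (v : V) {k : SLn p n} (hk : k ∈ KK p n) :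
    rt ρ k (avF hΓ R S m ρ v) = avF hΓ R S m ρ v :=
  avg_fixed (rt ρ) m S hS hS' (Fv hΓ R ρ v) (fun _ hk => Fv_fixed hΓ v hk) hk

end

end Pool.Agent.H73.PZ
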