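import Mathlib
import Pool.Agent.H73.PZ.R4a
import Pool.Agent.H73.PZ.R3
import Pool.Agent.H73.PZ.HD

/-!
MODULE R4b (MP_d9606f_gt, paper `/team-store/h73_padic_zimmer.md`, B3).
The two estimates for the averages in the induced representation.

Notation: `H = HS ρ`, form `BH μ R B`, `τ = rt ρ`, `ζ_m = τ (Dm m) F_v`,
`TF m = avF hΓ R (S m) m ρ v`.
* `rep_HS`: fields from `BH_psd`, `BH_isom`, `BH_growth` (as hypothesis `hg`); `smooth`: if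
  `F (g u) = F g` for `u ∈ KM M` then `rt ρ u F = F` (`Subtype.ext`, `rt_apply`).
* `conv_est`: `Δ = TF (m+1) - TF m` is fixed by `KK` (`avF_fixed`), so it is right `KK`-invariant
  as a function and `B (Δ 1) (Δ 1) ≤ BH Δ Δ` (`BH_eval_KK`).  `φ u = BH u Δ` is linear,
  `|φ u| ≤ nm Δ * nm u` (`PSD.cs`), `φ (τ k u) = φ u` for `k ∈ KK` (isometry, `τ k⁻¹ Δ = Δ`).
  `BH Δ Δ = φ (TF (m+1)) - φ (TF m) = φ (τ (Dm (m+1)) F_v) - φ (τ (Dm m) F_v)` (every term of the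
  average has the same value) `= φ (τ (Dm 1) ζ_m) - φ ζ_m` (`Dm_succ`), so by `keyK` (`g = Dm 1`,
  level `0`, `ξ = F_v`, `c = nm Δ`) `nm Δ ^ 2 ≤ C p^(-(1/2-2κ)m) nm Δ nm F_v`, and
  `nm B (Δ 1) ≤ nm Δ ≤ C p^(-(1/2-2κ)m) nm F_v`.  (If `nm Δ = 0` it is trivial.)
* `inv_est`: `h` is a fixed element (it will be in `Γ`), `Δ = τ h (TF m) - TF m`.  By `KM_conj h⁻¹ 0`
  there is `M₁` (depending only on `h`) such that `τ u Δ = Δ` for `u ∈ KM M₁`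
  (`τ u τ h = τ h τ (h⁻¹ u h)`, `h⁻¹ u h ∈ KM 0 ≤ KK`, and `τ u (TF m) = TF m`).
  By `BH_eval` (at `g = 1 ∈ CC`), `μ (KM M₁) B (Δ 1) (Δ 1) ≤ BH Δ Δ`.  `φ u = BH u Δ`, invariant under
  `τ u`, `u ∈ KM M₁`.  `BH Δ Δ` is the average over `s ∈ S m` of
  `φ (τ (h s) ζ_m) - φ (τ s ζ_m)`.  By `KM_conj h M₁` there is `M₂ ≥ M₁` with
  `h u h⁻¹ ∈ KM M₁` for `u ∈ KM M₂`; `s = u * s'` with `u ∈ KM M₂`, `s'` in a finite set `Sf`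
  (`KM_finite M₂`); `h s = (h u h⁻¹) (h s')`.  So
  `φ (τ (h s) ζ_m) = φ (τ (h s') ζ_m)` and `φ (τ s ζ_m) = φ (τ s' ζ_m)`.  `keyK` for
  `g = h s'` and for `g = s'` at level `M₁` (take the maximum of the constants over `s' ∈ Sf`)
  bounds both differences with `φ ζ_m`.  Hence `nm Δ ≤ C p^(-(1/2-2κ)m) nm F_v` and
  `nm B (Δ 1) ≤ μ(KM M₁)^(-1/2) nm Δ`.
-/

open MeasureTheory

namespace Pool.Agent.H73.PZ

noncomputable section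

variable {p : ℕ} [Fact p.Prime] {n : ℕ} {R : Finset (SLn p n)} {Γ : Subgroup (SLn p n)}
  {V : Type} [AddCommGroup V] [Module ℝ V] {B : V → V → ℝ} {ρ : Γ →* Module.End ℝ V}
  {μ : Measure (SLn p n)}

private theorem R4b_div {a K : ℝ} (ha : 0 ≤ a) (hK : 0 ≤ K) (h : a ^ 2 ≤ K * a) : a ≤ K := by
  rcases ha.eq_or_lt with h0 | h0
  · rw [← h0]; exact hK
  · rw [pow_two] at h
    exact le_of_mul_le_mul_right h h0

section abs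

variable {H : Type} [AddCommGroup H] [Module ℝ H] {b : H → H → ℝ}
  {τ : SLn p n →* Module.End ℝ H} {A κ : ℝ}

/-- the functional `u ↦ b u Δ` -/
private def R4b_phi (hb : PSD b) (Δ : H) : H →ₗ[ℝ] ℝ where
  toFun u := b u Δ
  map_add' u v := hb.add_left u v Δ
  map_smul' r u := hb.smul_left r u Δ

private theorem R4b_phi_apply (hb : PSD b) (Δ u : H) : R4b_phi hb Δ u = b u Δ := rfl

private theorem R4b_phi_le (hb : PSD b) (Δ u : H) : |R4b_phi hb Δ u| ≤ nm b Δ * nm b u := by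
  rw [R4b_phi_apply, mul_comm]
  exact hb.cs u Δ

private theorem R4b_phi_inv (hR : Rep p n b τ A κ) {Δ : H} {k : SLn p n} (hk : k ∈ KK p n)
    (hΔ : τ k Δ = Δ) (u : H) : R4b_phi hR.psd Δ (τ k u) = R4b_phi hR.psd Δ u := by
  rw [R4b_phi_apply, R4b_phi_apply]
  have h1 := hR.isom k hk u Δ
  rwa [hΔ] at h1

private theorem R4b_avg (S : Finset (SLn p n)) (hSn : S.Nonempty) (φ : H →ₗ[ℝ] ℝ) (f : SLn p n → H)
    {c : ℝ} (hc : ∀ s ∈ S, φ (f s) = c) : φ ((S.card : ℝ)⁻¹ • ∑ s ∈ S, f s) = c := by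
  rw [map_smul, map_sum, Finset.sum_congr rfl hc, Finset.sum_const, nsmul_eq_mul, smul_eq_mul,
    ← mul_assoc, inv_mul_cancel₀, one_mul]
  have : 0 < S.card := hSn.card_pos
  positivity

private theorem R4b_avg_le (S : Finset (SLn p n)) (hSn : S.Nonempty) (φ : H →ₗ[ℝ] ℝ)
    (f : SLn p n → H) {c : ℝ} (hc : ∀ s ∈ S, φ (f s) ≤ c) :
    φ ((S.card : ℝ)⁻¹ • ∑ s ∈ S, f s) ≤ c := by
  have h0 : (0 : ℝ) < S.card := by exact_mod_cast hSn.card_pos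
  have h1 : ∑ s ∈ S, φ (f s) ≤ S.card * c := by
    have := Finset.sum_le_sum hc
    rwa [Finset.sum_const, nsmul_eq_mul] at this
  rw [map_smul, map_sum, smul_eq_mul]
  calc (S.card : ℝ)⁻¹ * ∑ s ∈ S, φ (f s) ≤ (S.card : ℝ)⁻¹ * (S.card * c) :=
        mul_le_mul_of_nonneg_left h1 (inv_nonneg.2 h0.le)
    _ = c := by rw [← mul_assoc, inv_mul_cancel₀ h0.ne', one_mul]

private theorem R4b_mul (g h : SLn p n) (v : H) : τ (g * h) v = τ g (τ h v) := by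
  rw [map_mul]; rfl

/-- abstract form of `conv_est` -/
private theorem R4b_conv (hn : 3 ≤ n) (hR : Rep p n b τ A κ) (S : ℕ → Finset (SLn p n))
    (hSn : ∀ m, (S m).Nonempty) (hS : ∀ m, ∀ s ∈ S m, s ∈ KK p n) (ξ : H)
    (hξ : ∀ k ∈ KK p n, τ k ξ = ξ)
    (hfix : ∀ m, ∀ k ∈ KK p n, τ k (((S m).card : ℝ)⁻¹ • ∑ s ∈ S m, τ s (τ (Dm p n m) ξ)) =
      ((S m).card : ℝ)⁻¹ • ∑ s ∈ S m, τ s (τ (Dm p n m) ξ)) :
    ∃ C : ℝ, ∀ m : ℕ,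
      nm b ((((S (m + 1)).card : ℝ)⁻¹ • ∑ s ∈ S (m + 1), τ s (τ (Dm p n (m + 1)) ξ)) -
        ((S m).card : ℝ)⁻¹ • ∑ s ∈ S m, τ s (τ (Dm p n m) ξ)) ≤
        C * (p : ℝ) ^ (-((1 / 2 - 2 * κ) * m)) := by
  obtain ⟨C, hC0, hC⟩ := keyK hn hR (Dm p n 1) 0
  refine ⟨C * nm b ξ, fun m => ?_⟩
  set X : ℝ := (p : ℝ) ^ (-((1 / 2 - 2 * κ) * m)) with hX
  have hX0 : 0 ≤ X := by positivity
  set P : H := ((S (m + 1)).card : ℝ)⁻¹ • ∑ s ∈ S (m + 1), τ s (τ (Dm p n (m + 1)) ξ) with hP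
  set Q : H := ((S m).card : ℝ)⁻¹ • ∑ s ∈ S m, τ s (τ (Dm p n m) ξ) with hQ
  have hΔ : ∀ k ∈ KK p n, τ k (P - Q) = P - Q := by
    intro k hk
    rw [map_sub, hP, hQ, hfix (m + 1) k hk, hfix m k hk]
  have hinv : ∀ k ∈ KK p n, ∀ u, R4b_phi hR.psd (P - Q) (τ k u) = R4b_phi hR.psd (P - Q) u :=
    fun k hk u => R4b_phi_inv hR hk (hΔ k hk) u
  have e1 : R4b_phi hR.psd (P - Q) P =
      R4b_phi hR.psd (P - Q) (τ (Dm p n 1) (τ (Dm p n m) ξ)) := by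
    rw [← R4b_mul, ← Dm_succ (by omega) m]
    conv_lhs => rw [hP]
    exact R4b_avg _ (hSn _) _ _ fun s hs => hinv s (hS _ s hs) _
  have e2 : R4b_phi hR.psd (P - Q) Q = R4b_phi hR.psd (P - Q) (τ (Dm p n m) ξ) := by
    conv_lhs => rw [hQ]
    exact R4b_avg _ (hSn _) _ _ fun s hs => hinv s (hS _ s hs) _
  have e3 : nm b (P - Q) ^ 2 = R4b_phi hR.psd (P - Q) P - R4b_phi hR.psd (P - Q) Q := by
    rw [hR.psd.nm_sq, ← map_sub, R4b_phi_apply]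
  have h4 := hC m ξ hξ (R4b_phi hR.psd (P - Q)) (nm b (P - Q)) (PSD.nm_nonneg _)
    (fun v => R4b_phi_le hR.psd _ v) (fun u hu v => hinv u (KM_le_KK 0 hu) v)
  rw [← e1, ← e2, ← e3] at h4
  have h5 := (le_abs_self _).trans h4
  have h6 : 0 ≤ C * nm b ξ * X := mul_nonneg (mul_nonneg hC0 (PSD.nm_nonneg _)) hX0
  apply R4b_div (PSD.nm_nonneg _) h6
  calc nm b (P - Q) ^ 2 ≤ C * X * nm b (P - Q) * nm b ξ := h5
    _ = C * nm b ξ * X * nm b (P - Q) := by ring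

/-- abstract form of `inv_est` -/
private theorem R4b_inv (hn : 3 ≤ n) (hR : Rep p n b τ A κ) (S : ℕ → Finset (SLn p n))
    (hSn : ∀ m, (S m).Nonempty) (hS : ∀ m, ∀ s ∈ S m, s ∈ KK p n) (ξ : H)
    (hξ : ∀ k ∈ KK p n, τ k ξ = ξ)
    (hfix : ∀ m, ∀ k ∈ KK p n, τ k (((S m).card : ℝ)⁻¹ • ∑ s ∈ S m, τ s (τ (Dm p n m) ξ)) =
      ((S m).card : ℝ)⁻¹ • ∑ s ∈ S m, τ s (τ (Dm p n m) ξ)) (h : SLn p n) :
    ∃ M : ℕ, ∃ C : ℝ, ∀ m : ℕ,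
      (∀ u ∈ KM p n M, τ u (τ h (((S m).card : ℝ)⁻¹ • ∑ s ∈ S m, τ s (τ (Dm p n m) ξ)) -
        ((S m).card : ℝ)⁻¹ • ∑ s ∈ S m, τ s (τ (Dm p n m) ξ)) =
        τ h (((S m).card : ℝ)⁻¹ • ∑ s ∈ S m, τ s (τ (Dm p n m) ξ)) -
        ((S m).card : ℝ)⁻¹ • ∑ s ∈ S m, τ s (τ (Dm p n m) ξ)) ∧
      nm b (τ h (((S m).card : ℝ)⁻¹ • ∑ s ∈ S m, τ s (τ (Dm p n m) ξ)) -
        ((S m).card : ℝ)⁻¹ • ∑ s ∈ S m, τ s (τ (Dm p n m) ξ)) ≤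
        C * (p : ℝ) ^ (-((1 / 2 - 2 * κ) * m)) := by
  obtain ⟨M₁, hM₁⟩ := KM_conj h⁻¹ 0
  obtain ⟨M₂', hM₂'⟩ := KM_conj h M₁
  obtain ⟨Sf, hSf, hcov⟩ := KM_finite (p := p) (n := n) (max M₂' M₁)
  choose C₁ hC₁0 hC₁ using fun s : SLn p n => keyK hn hR (h * s) M₁
  choose C₂ hC₂0 hC₂ using fun s : SLn p n => keyK hn hR s M₁
  refine ⟨M₁, (∑ s ∈ Sf, (C₁ s + C₂ s)) * nm b ξ, fun m => ?_⟩
  set X : ℝ := (p : ℝ) ^ (-((1 / 2 - 2 * κ) * m)) with hX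
  have hX0 : 0 ≤ X := by positivity
  set Q : H := ((S m).card : ℝ)⁻¹ • ∑ s ∈ S m, τ s (τ (Dm p n m) ξ) with hQ
  have hΔ : ∀ u ∈ KM p n M₁, τ u (τ h Q - Q) = τ h Q - Q := by
    intro u hu
    have h1 : τ u Q = Q := hfix m u (KM_le_KK _ hu)
    have h2 : τ u (τ h Q) = τ h Q := by
      have h3 : u * h = h * (h⁻¹ * u * h⁻¹⁻¹) := by group
      rw [← R4b_mul, h3, R4b_mul]
      congr 1
      exact hfix m _ (KM_le_KK _ (hM₁ u hu))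
    rw [map_sub, h1, h2]
  refine ⟨hΔ, ?_⟩
  set φ := R4b_phi hR.psd (τ h Q - Q) with hφ
  have hinv : ∀ u ∈ KM p n M₁, ∀ v, φ (τ u v) = φ v :=
    fun u hu v => R4b_phi_inv hR (KM_le_KK _ hu) (hΔ u hu) v
  have hCs : ∀ s ∈ Sf, C₁ s + C₂ s ≤ ∑ s ∈ Sf, (C₁ s + C₂ s) := fun s hs =>
    Finset.single_le_sum (f := fun s => C₁ s + C₂ s)
      (fun s _ => add_nonneg (hC₁0 s) (hC₂0 s)) hs
  have hCsum0 : 0 ≤ ∑ s ∈ Sf, (C₁ s + C₂ s) :=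
    Finset.sum_nonneg fun s _ => add_nonneg (hC₁0 s) (hC₂0 s)
  set N := nm b (τ h Q - Q) with hN
  have hN0 : 0 ≤ N := PSD.nm_nonneg _
  have hξ0 : 0 ≤ nm b ξ := PSD.nm_nonneg _
  -- every term
  have hterm : ∀ s ∈ S m, φ (τ h (τ s (τ (Dm p n m) ξ)) - τ s (τ (Dm p n m) ξ)) ≤
      (∑ s ∈ Sf, (C₁ s + C₂ s)) * X * N * nm b ξ := by
    intro s hs
    obtain ⟨s', hs', u, hu, rfl⟩ := hcov s (hS m s hs)
    have hu1 : u ∈ KM p n M₁ := KM_anti (le_max_right _ _) hu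
    have hu2 : h * u * h⁻¹ ∈ KM p n M₁ := hM₂' u (KM_anti (le_max_left _ _) hu)
    set ζ := τ (Dm p n m) ξ with hζ
    have e1 : τ h (τ (u * s') ζ) = τ (h * u * h⁻¹) (τ (h * s') ζ) := by
      have e : h * (u * s') = h * u * h⁻¹ * (h * s') := by group
      rw [← R4b_mul h (u * s') ζ, ← R4b_mul (h * u * h⁻¹) (h * s') ζ, e]
    have e2 : φ (τ h (τ (u * s') ζ)) = φ (τ (h * s') ζ) := by
      rw [e1]; exact hinv _ hu2 _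
    have e3 : φ (τ (u * s') ζ) = φ (τ s' ζ) := by
      rw [R4b_mul]; exact hinv _ hu1 _
    have k1 := hC₁ s' m ξ hξ φ N hN0 (fun v => R4b_phi_le hR.psd _ v) hinv
    have k2 := hC₂ s' m ξ hξ φ N hN0 (fun v => R4b_phi_le hR.psd _ v) hinv
    rw [← hζ] at k1 k2
    rw [map_sub, e2, e3]
    have k3 := (abs_le.1 k1).2
    have k4 := (abs_le.1 k2).1
    have k5 : (C₁ s' + C₂ s') * (X * N * nm b ξ) ≤
        (∑ s ∈ Sf, (C₁ s + C₂ s)) * (X * N * nm b ξ) :=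
      mul_le_mul_of_nonneg_right (hCs s' hs') (by positivity)
    nlinarith
  have e0 : τ h Q - Q = ((S m).card : ℝ)⁻¹ •
      ∑ s ∈ S m, (τ h (τ s (τ (Dm p n m) ξ)) - τ s (τ (Dm p n m) ξ)) := by
    rw [Finset.sum_sub_distrib, smul_sub, hQ, map_smul, map_sum]
  have h7 : N ^ 2 ≤ (∑ s ∈ Sf, (C₁ s + C₂ s)) * X * N * nm b ξ := by
    have e4 : N ^ 2 = φ (τ h Q - Q) := by
      rw [hN, hR.psd.nm_sq]
      rfl
    rw [e4, e0]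
    exact R4b_avg_le _ (hSn m) φ _ hterm
  apply R4b_div hN0 (by positivity)
  calc N ^ 2 ≤ (∑ s ∈ Sf, (C₁ s + C₂ s)) * X * N * nm b ξ := h7
    _ = (∑ s ∈ Sf, (C₁ s + C₂ s)) * nm b ξ * X * N := by ring

end abs

theorem rep_HS (hB : PSD B) (hμ : μ.IsHaarMeasure)
    (hr : ∀ (g : SLn p n) (s : Set (SLn p n)), MeasurableSet s →
      μ ((fun x => x * g) ⁻¹' s) = μ s) {A₁ κ : ℝ} (hA : 0 ≤ A₁) (hκ : 0 ≤ κ)
    (hg : ∀ (h : SLn p n) (F : HS ρ),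
      nm (BH μ R B) (rt ρ h F) ≤ A₁ * size h ^ κ * nm (BH μ R B) F) :
    Rep p n (BH μ R B) (rt ρ) A₁ κ where
  psd := BH_psd hB hμ
  isom k hk u v := BH_isom hB hμ hr hk u v
  A_nonneg := hA
  κ_nonneg := hκ
  growth := hg
  smooth F := by
    obtain ⟨M, hM⟩ := HS_smooth F
    refine ⟨M, fun u hu => Subtype.ext (funext fun g => ?_)⟩
    rw [rt_apply]
    exact hM g u hu

theorem conv_est (hn : 3 ≤ n) (hΓ : DiscreteTopology Γ) (hB : PSD B) (hμ : μ.IsHaarMeasure)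
    (hr : ∀ (g : SLn p n) (s : Set (SLn p n)), MeasurableSet s →
      μ ((fun x => x * g) ⁻¹' s) = μ s)
    (h1 : μ (KK p n : Set (SLn p n)) = 1) {A₁ κ : ℝ}
    (hRep : Rep p n (BH μ R B) (rt ρ) A₁ κ)
    (S : ℕ → Finset (SLn p n)) (hSn : ∀ m, (S m).Nonempty) (hS : ∀ m, ∀ s ∈ S m, s ∈ KK p n)
    (hS' : ∀ m, ∀ k ∈ KK p n,
      ∃! s, s ∈ S m ∧ (Dm p n m)⁻¹ * (s⁻¹ * k) * Dm p n m ∈ KK p n) (v : V) :
    ∃ C : ℝ, ∀ m : ℕ,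
      nm B ((avF hΓ R (S (m + 1)) (m + 1) ρ v).1 1 - (avF hΓ R (S m) m ρ v).1 1) ≤
        C * (p : ℝ) ^ (-((1 / 2 - 2 * κ) * m)) := by
  have _ := hr
  obtain ⟨C, hC⟩ := R4b_conv hn hRep S hSn hS (Fv hΓ R ρ v) (fun _ hk => Fv_fixed hΓ v hk)
    (fun m _ hk => avF_fixed hΓ R (S m) m (hS m) (hS' m) ρ v hk)
  refine ⟨C, fun m => le_trans ?_ (hC m)⟩
  set Δ : HS ρ := avF hΓ R (S (m + 1)) (m + 1) ρ v - avF hΓ R (S m) m ρ v with hΔ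
  have hfix : ∀ k ∈ KK p n, rt ρ k Δ = Δ := by
    intro k hk
    rw [hΔ, map_sub, avF_fixed hΓ R (S (m + 1)) (m + 1) (hS _) (hS' _) ρ v hk,
      avF_fixed hΓ R (S m) m (hS m) (hS' m) ρ v hk]
  have h2 := BH_eval_KK (R := R) hB hμ h1 Δ (fun g u hu => by
    have h3 := congrArg (fun F : HS ρ => F.1 g) (hfix u hu)
    exact h3)
  change nm B (Δ.1 1) ≤ nm (BH μ R B) Δ
  exact Real.sqrt_le_sqrt h2

theorem inv_est (hn : 3 ≤ n) (hΓ : DiscreteTopology Γ) (hB : PSD B) (hμ : μ.IsHaarMeasure)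
    (hr : ∀ (g : SLn p n) (s : Set (SLn p n)), MeasurableSet s →
      μ ((fun x => x * g) ⁻¹' s) = μ s)
    (h1 : μ (KK p n : Set (SLn p n)) = 1) {A₁ κ : ℝ}
    (hRep : Rep p n (BH μ R B) (rt ρ) A₁ κ)
    (S : ℕ → Finset (SLn p n)) (hSn : ∀ m, (S m).Nonempty) (hS : ∀ m, ∀ s ∈ S m, s ∈ KK p n)
    (hS' : ∀ m, ∀ k ∈ KK p n,
      ∃! s, s ∈ S m ∧ (Dm p n m)⁻¹ * (s⁻¹ * k) * Dm p n m ∈ KK p n) (h : SLn p n) (v : V) :
    ∃ C : ℝ, ∀ m : ℕ,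
      nm B ((avF hΓ R (S m) m ρ v).1 h - (avF hΓ R (S m) m ρ v).1 1) ≤
        C * (p : ℝ) ^ (-((1 / 2 - 2 * κ) * m)) := by
  have _ := hr
  have _ := h1
  obtain ⟨M, C, hC⟩ := R4b_inv hn hRep S hSn hS (Fv hΓ R ρ v) (fun _ hk => Fv_fixed hΓ v hk)
    (fun m _ hk => avF_fixed hΓ R (S m) m (hS m) (hS' m) ρ v hk) h
  have ht := KM_measure_pos hμ M
  set t : ℝ := (μ (KM p n M : Set (SLn p n))).toReal with htd
  refine ⟨C / Real.sqrt t, fun m => ?_⟩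
  obtain ⟨hfix, hle⟩ := hC m
  set Δ : HS ρ := rt ρ h (avF hΓ R (S m) m ρ v) - avF hΓ R (S m) m ρ v with hΔ
  have hfix' : ∀ u ∈ KM p n M, rt ρ u Δ = Δ := hfix
  have hle' : nm (BH μ R B) Δ ≤ C * (p : ℝ) ^ (-((1 / 2 - 2 * κ) * m)) := hle
  have h2 := BH_eval (R := R) hB hμ Δ (M := M) (fun g u hu => by
    have h3 := congrArg (fun F : HS ρ => F.1 g) (hfix' u hu)
    exact h3) (g := 1) (KK_subset_CC (one_mem _))
  rw [← htd] at h2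
  have e1 : (avF hΓ R (S m) m ρ v).1 h - (avF hΓ R (S m) m ρ v).1 1 = Δ.1 1 := by
    change _ = (avF hΓ R (S m) m ρ v).1 (1 * h) - (avF hΓ R (S m) m ρ v).1 1
    rw [one_mul]
  rw [e1]
  have hs : 0 < Real.sqrt t := Real.sqrt_pos.2 ht
  have h3 : Real.sqrt t * nm B (Δ.1 1) ≤ nm (BH μ R B) Δ := by
    unfold nm
    rw [← Real.sqrt_mul ht.le]
    exact Real.sqrt_le_sqrt h2
  have h4 : nm B (Δ.1 1) ≤ nm (BH μ R B) Δ / Real.sqrt t := by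
    rw [le_div_iff₀ hs, mul_comm]
    exact h3
  refine h4.trans ?_
  rw [div_mul_eq_mul_div]
  exact div_le_div_of_nonneg_right hle' hs.le

end

end Pool.Agent.H73.PZ
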