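import Mathlib
import Pool.Agent.H73.PZ.R4b
import Pool.Agent.H73.PZ.G5
import Pool.Agent.H73.PZ.G6

/-!
Strong property (T) for lattices in `SL_n(ℚ_p)`, explicit form, and the size function
(MP_d9606f_gt; assembly of part B from the modules, helper73).
-/

open MeasureTheory

namespace Pool.Agent.H73.PZ

noncomputable section

variable {p : ℕ} [Fact p.Prime] {n : ℕ}

theorem lattice_sz (hn : 0 < n) {Γ : Subgroup (SLn p n)} (hΓ : IsLattice Γ) :
    Sz (p : ℝ) (fun γ : Γ => size (γ : SLn p n)) where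
  q_gt := by exact_mod_cast (Fact.out : p.Prime).one_lt
  one_le γ := one_le_size hn _
  mul_le γ γ' := size_mul_le _ _
  inv_eq γ := size_inv _
  finite R := lattice_finite_size hΓ.1 R
  paths := by
    obtain ⟨C, hC⟩ := lattice_paths hn hΓ
    refine ⟨max C 1, le_max_right _ _, fun γ m hm hγ => ?_⟩
    obtain ⟨w, h1, h2, h3⟩ := hC γ m hm hγ
    refine ⟨w, fun i j hij hj => (h1 i j hij hj).trans ?_, h2.trans (le_max_left _ _),
      h3.trans (le_max_left _ _)⟩
    exact mul_le_mul_of_nonneg_right (le_max_left _ _) (by positivity)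

theorem lattice_strongT (hn : 3 ≤ n) {Γ : Subgroup (SLn p n)} (hΓ : IsLattice Γ) :
    ∃ (w : ℕ → Γ →₀ ℝ) (C₀ : ℝ), StrongT (p : ℝ) (fun γ : Γ => size (γ : SLn p n)) w C₀ := by
  classical
  obtain ⟨R, hR⟩ := lattice_cocompact hΓ
  obtain ⟨μ, hμ, hr, h1⟩ := exists_bihaar (p := p) (n := n) (by omega)
  obtain ⟨c, hc1, hc⟩ := CC_bound (p := p) (n := n) R
  obtain ⟨N₀, hN⟩ := CC_count hΓ.1 R
  choose S hSn hS hS' using fun m => exists_Rm p n m
  refine ⟨fun m => wt hΓ.1 R (S m) m, max c N₀, ?_⟩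
  have hp : (0 : ℝ) < p := by exact_mod_cast (Fact.out : p.Prime).pos
  refine
    { nonneg := fun m γ => wt_nonneg _ _ _ _ _
      supp := fun m γ h => (wt_size (by omega) hΓ.1 R (S m) m (hS m) hc hc1 γ h).trans
        (mul_le_mul_of_nonneg_right (le_max_left _ _) (by positivity))
      mass_lower := fun m => (wt_mass hΓ.1 R (S m) m (hSn m) hR hN).1
      mass_upper := fun m => (wt_mass hΓ.1 R (S m) m (hSn m) hR hN).2.trans (le_max_right _ _)
      conv := ?_
      almost_inv := ?_ }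
  · intro V _ _ B ρ A κ hB hA hκ hρ v
    obtain ⟨A₁, hA₁, hg⟩ := BH_growth (R := R) (by omega) hΓ.1 hR hB hμ hr hA hκ hρ
    have hRep := rep_HS hB hμ hr hA₁ hκ hg
    obtain ⟨C, hC⟩ := conv_est hn hΓ.1 hB hμ hr h1 hRep S hSn hS hS' v
    refine ⟨C, fun m => ?_⟩
    have := hC m
    rwa [avF_one, avF_one] at this
  · intro V _ _ B ρ A κ hB hA hκ hρ γ' v
    obtain ⟨A₁, hA₁, hg⟩ := BH_growth (R := R) (by omega) hΓ.1 hR hB hμ hr hA hκ hρ
    have hRep := rep_HS hB hμ hr hA₁ hκ hg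
    obtain ⟨C, hC⟩ := inv_est hn hΓ.1 hB hμ hr h1 hRep S hSn hS hS' (γ' : SLn p n) v
    refine ⟨C, fun m => ?_⟩
    have := hC m
    rwa [avF_coe, avF_one] at this

end

end Pool.Agent.H73.PZ
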