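import Mathlib
import Pool.Agent.H73.PZ.R4
import Pool.Agent.H73.PZ.Abs
import Pool.Agent.H73.PZ.F8
import Pool.Agent.H73.PZ.E5
import Pool.Agent.H73.PZ.N2
import Pool.Agent.H73.PZ.N4

/-!
The main theorems on smooth actions of lattices in `SL_n(ℚ_p)` (MP_d9606f_gt; assembly, helper73).
-/

open MeasureTheory Filter Bundle
open scoped Topology ContDiff Manifold

namespace Pool.Agent.H73.PZ

variable {p : ℕ} [Fact p.Prime] {n : ℕ} {d : ℕ} {M : Type} [TopologicalSpace M]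
  [ChartedSpace (EuclideanSpace ℝ (Fin d)) M] [IsManifold (𝓡 d) ∞ M]
  [CompactSpace M] [T2Space M]

theorem quad_sum {ι : Type} [Fintype ι] (A J : ι → ι → ℝ) (a b : ι → ℝ) :
    ∑ i, ∑ j, A i j * ((∑ k, a k * J k i) * (∑ l, b l * J l j)) =
      ∑ k, ∑ l, (∑ i, ∑ j, J k i * J l j * A i j) * (a k * b l) := by
  have h1 : ∀ i j, A i j * ((∑ k, a k * J k i) * (∑ l, b l * J l j)) =
      ∑ k, ∑ l, J k i * J l j * A i j * (a k * b l) := by
    intro i j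
    rw [Finset.sum_mul_sum, Finset.mul_sum]
    refine Finset.sum_congr rfl fun k _ => ?_
    rw [Finset.mul_sum]
    exact Finset.sum_congr rfl fun l _ => by ring
  rw [Finset.sum_congr rfl fun i _ => Finset.sum_congr rfl fun j _ => h1 i j]
  simp only [Finset.sum_mul]
  calc ∑ i, ∑ j, ∑ k, ∑ l, J k i * J l j * A i j * (a k * b l)
      = ∑ i, ∑ k, ∑ j, ∑ l, J k i * J l j * A i j * (a k * b l) :=
        Finset.sum_congr rfl fun i _ => Finset.sum_comm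
    _ = ∑ k, ∑ i, ∑ j, ∑ l, J k i * J l j * A i j * (a k * b l) := Finset.sum_comm
    _ = ∑ k, ∑ i, ∑ l, ∑ j, J k i * J l j * A i j * (a k * b l) :=
        Finset.sum_congr rfl fun k _ => Finset.sum_congr rfl fun i _ => Finset.sum_comm
    _ = ∑ k, ∑ l, ∑ i, ∑ j, J k i * J l j * A i j * (a k * b l) :=
        Finset.sum_congr rfl fun k _ => Finset.sum_comm

/-- The calculus of a smooth action on a closed manifold. -/
structure Setup (d : ℕ) (Γ : Type) [Group Γ] (M : Type) [TopologicalSpace M]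
    [ChartedSpace (EuclideanSpace ℝ (Fin d)) M] [MeasurableSpace M] [MulAction Γ M] where
  /-- the frame -/
  F : Fr d M
  hA : F.A = smoothA d M
  hch : ∀ c : F.κ, ∃ x₀ : M, F.φ c = chartAt (Eu d) x₀
  hAA : ∀ γ : Γ, ∀ f ∈ F.A, (fun x => f (γ • x)) ∈ F.A
  /-- the calculus -/
  C : Calc Γ M F.ι d
  hCA : C.A = F.A
  hCψ : ∀ j, (C.ψ j).1 = (F.ψ j).1
  hCJ : ∀ (γ : Γ) (i j : F.ι) (x : M),
    (C.J γ i j).1 x = (F.X i ⟨fun y => (F.ψ j).1 (γ • y), hAA γ _ (F.ψ j).2⟩).1 x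

theorem exists_setup {Γ : Type} [Group Γ] [MulAction Γ M] [MeasurableSpace M] [BorelSpace M]
    (hs : IsSmoothAction d Γ M) : Nonempty (Setup d Γ M) := by
  obtain ⟨F, hA, hch⟩ := exists_frame d M
  have hc : ∀ γ : Γ, Continuous fun x : M => γ • x := fun γ => (hs γ).continuous
  have hmem : ∀ f : M → ℝ, f ∈ F.A ↔ ContMDiff (𝓡 d) 𝓘(ℝ, ℝ) ∞ f := fun f => by
    rw [hA]; rfl
  have hAA : ∀ γ : Γ, ∀ f ∈ F.A, (fun x => f (γ • x)) ∈ F.A := by
    intro γ f hf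
    rw [hmem] at hf ⊢
    exact ContMDiff.comp hf (hs γ)
  obtain ⟨C, hCA, hCψ, hCJ⟩ := F.exists_calc hc hAA
  exact ⟨⟨F, hA, hch, hAA, C, hCA, hCψ, hCJ⟩⟩

namespace Setup

variable {Γ : Type} [Group Γ] [MulAction Γ M] [MeasurableSpace M] (S : Setup d Γ M)

omit [IsManifold (𝓡 d) ∞ M] [CompactSpace M] [T2Space M] in
theorem mem_iff (f : M → ℝ) : f ∈ S.F.A ↔ ContMDiff (𝓡 d) 𝓘(ℝ, ℝ) ∞ f := by
  rw [S.hA]; rfl

omit [IsManifold (𝓡 d) ∞ M] [CompactSpace M] [T2Space M] in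
theorem memC_iff (f : M → ℝ) : f ∈ S.C.A ↔ ContMDiff (𝓡 d) 𝓘(ℝ, ℝ) ∞ f := by
  rw [S.hCA, S.hA]; rfl

omit [IsManifold (𝓡 d) ∞ M] [CompactSpace M] [T2Space M] in
theorem smF (f : S.F.A) : ContMDiff (𝓡 d) 𝓘(ℝ, ℝ) ∞ f.1 := (S.mem_iff f.1).1 f.2

omit [IsManifold (𝓡 d) ∞ M] [CompactSpace M] [T2Space M] in
theorem smC (f : S.C.A) : ContMDiff (𝓡 d) 𝓘(ℝ, ℝ) ∞ f.1 := (S.memC_iff f.1).1 f.2

/-- An invariant positive tensor gives an invariant Riemannian metric. -/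
theorem isometric (hs : IsSmoothAction d Γ M)
    (h : ∃ h : S.F.ι → S.F.ι → S.C.A, (∀ i j, h i j = h j i) ∧ (∀ g : Γ, S.C.Rho g h = h) ∧
      ∃ b : ℝ, 0 < b ∧ ∀ (x : M) (a : S.F.ι → ℝ), S.C.Tan x a →
        b * ‖a‖ ^ 2 ≤ S.C.Qd h x a) : IsIsometricAction d Γ M := by
  obtain ⟨F, hA, hch, hAA, C, hCA, hCψ, hCJ⟩ := S
  obtain ⟨h, hsym, hinv, b, hb, hpos⟩ := h
  have hmem : ∀ f : M → ℝ, f ∈ F.A ↔ ContMDiff (𝓡 d) 𝓘(ℝ, ℝ) ∞ f := fun f => by
    rw [hA]; rfl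
  have hmemC : ∀ f : M → ℝ, f ∈ C.A ↔ ContMDiff (𝓡 d) 𝓘(ℝ, ℝ) ∞ f := fun f => by
    rw [hCA, hA]; rfl
  have hsm : ∀ f : F.A, ContMDiff (𝓡 d) 𝓘(ℝ, ℝ) ∞ f.1 := fun f => (hmem f.1).1 f.2
  have hsmC : ∀ f : C.A, ContMDiff (𝓡 d) 𝓘(ℝ, ℝ) ∞ f.1 := fun f => (hmemC f.1).1 f.2
  -- differentials of compositions
  have hJ : ∀ (γ : Γ) (j : F.ι) (x : M) (v : TangentSpace (𝓡 d) x),
      dL (fun y => (F.ψ j).1 (γ • y)) x v = ∑ i, dL (F.ψ i).1 x v * (C.J γ i j).1 x := by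
    intro γ j x v
    have := frame_dL F hA hch ⟨fun y => (F.ψ j).1 (γ • y), hAA γ _ (F.ψ j).2⟩ x v
    rw [this]
    exact Finset.sum_congr rfl fun i _ => by rw [hCJ]
  have hTan : ∀ (x : M) (v : TangentSpace (𝓡 d) x), C.Tan x fun j => dL (F.ψ j).1 x v := by
    intro x v j
    have := hJ 1 j x v
    simpa only [one_smul] using this
  refine isometric_of_tensor (ψ := fun i => (F.ψ i).1) (h := fun i j => (h i j).1)
    (fun i => hsm _) (fun i j => hsmC _) ?_ ?_ ?_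
  · intro x v w'
    rw [tensG_apply, tensG_apply, Finset.sum_comm]
    refine Finset.sum_congr rfl fun i _ => Finset.sum_congr rfl fun j _ => ?_
    rw [hsym j i]; ring
  · intro x v hv
    have h1 := hpos x (fun j => dL (F.ψ j).1 x v) (hTan x v)
    have h2 : (fun j => dL (F.ψ j).1 x v) ≠ 0 := fun h0 =>
      hv (frame_inj F hA hch x v fun j => congrFun h0 j)
    have h3 : 0 < b * ‖(fun j => dL (F.ψ j).1 x v)‖ ^ 2 :=
      mul_pos hb (pow_pos (norm_pos_iff.2 h2) 2)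
    refine h3.trans_le (h1.trans (le_of_eq ?_))
    rw [tensG_apply]
    unfold Calc.Qd
    refine Finset.sum_congr rfl fun i _ => Finset.sum_congr rfl fun j _ => ?_
    ring
  · intro γ x v w'
    rw [tensG_apply, tensG_apply]
    simp only [dL_comp (hsm _) (hs γ), hJ]
    -- invariance of `h` under `γ⁻¹`
    have hi : ∀ a b' : F.ι, (h a b').1 x = ∑ i, ∑ j, (C.J γ a i).1 x * (C.J γ b' j).1 x *
        (h i j).1 (γ • x) := by
      intro a b'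
      have h4 := congrArg (fun k : F.ι → F.ι → C.A => (k a b').1 x) (hinv γ⁻¹)
      simp only [C.Rho_apply, inv_inv, C.val_sum, C.val_mul, C.cmp_apply] at h4
      exact h4.symm
    simp only [hi]
    exact quad_sum (fun i j => (h i j).1 (γ • x)) (fun k i => (C.J γ k i).1 x)
      (fun k => dL (F.ψ k).1 x v) (fun k => dL (F.ψ k).1 x w')

end Setup

/-- A smooth action is isometric or has an exponentially asymptotic pair with a universal rate. -/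
theorem smooth_dichotomy (hn : 3 ≤ n) {Γ : Subgroup (SLn p n)} (hΓ : IsLattice Γ)
    [MulAction Γ M] (hs : IsSmoothAction d Γ M) :
    IsIsometricAction d Γ M ∨
    ∃ x z : M, x ≠ z ∧ ∃ g : ℕ → Γ, (∃ C : ℝ, ∀ i, size ((g i : Γ) : SLn p n) ≤ C * (p : ℝ) ^ i) ∧
      ∀ f : M → ℝ, ContMDiff (𝓡 d) 𝓘(ℝ, ℝ) ∞ f → ∃ C' : ℝ, ∀ i : ℕ,
        |f (g i • x) - f (g i • z)| ≤ C' * (p : ℝ) ^ (-((1 / (7 * (d : ℝ) + 13)) * i)) := by
  classical
  let _ : MeasurableSpace M := borel M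
  have _ : BorelSpace M := ⟨rfl⟩
  obtain ⟨S⟩ := exists_setup hs
  obtain ⟨w, C₀, hT⟩ := lattice_strongT hn hΓ
  have hS := lattice_sz (by omega) hΓ
  rcases S.C.dichotomy hS hT with h | h
  · exact Or.inl (S.isometric hs h)
  · right
    obtain ⟨x, z, hxz, g, hg, hf⟩ := h
    refine ⟨x, z, hxz, g, hg, fun f hfs => ?_⟩
    have hfA : f ∈ S.C.A := (S.memC_iff f).2 hfs
    exact hf ⟨f, hfA⟩

end Pool.Agent.H73.PZ
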