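import Mathlib
import Pool.Agent.H73.PZ.Z
import Pool.Agent.H73.PZ.Pub2
import Pool.Agent.H73.PZ.W2
import Pool.Agent.H73.PZ.W3

/-!
Equivalences for smooth actions of lattices in `SL_n(ℚ_p)` (MP_d9606f_gt; assembly, helper73).
-/

open MeasureTheory Filter Bundle
open scoped Topology ContDiff Manifold

namespace Pool.Agent.H73.PZ

namespace Calc

variable {Γ : Type} [Group Γ] {M : Type} [TopologicalSpace M] [MeasurableSpace M]
  [MulAction Γ M] {ι : Type} [Fintype ι] {d : ℕ} (c : Calc Γ M ι d)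

/-- If all derivatives are bounded then the action is uniformly Lipschitz at small scales. -/
theorem unif_lip {C : ℝ} (hC : ∀ (γ : Γ) (i j : ι) (x : M), |(c.J γ i j).1 x| ≤ C) (γ : Γ)
    (x y : M) (hxy : c.dst x y ≤ c.δ) : c.dst (γ • x) (γ • y) ≤ c.L * |C| * c.dst x y := by
  apply c.dst_le (mul_nonneg (mul_nonneg c.L_nonneg (abs_nonneg _)) (c.dst_nonneg _ _))
  intro j
  have h := c.lip (c.cmp γ (c.ψ j)) |C| (fun i x => (hC γ i j x).trans (le_abs_self C)) x y hxy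
  rwa [c.cmp_apply, c.cmp_apply] at h

/-- If all derivatives are bounded, different points stay apart. -/
theorem apart {C : ℝ} (hC : ∀ (γ : Γ) (i j : ι) (x : M), |(c.J γ i j).1 x| ≤ C) {x y : M}
    (hxy : x ≠ y) : ∃ ε : ℝ, 0 < ε ∧ ∀ γ : Γ, ε ≤ c.dst (γ • x) (γ • y) := by
  have h0 : 0 < c.dst x y := lt_of_le_of_ne (c.dst_nonneg _ _) fun h =>
    hxy (c.eq_of_dst h.symm)
  have h1 : 0 < c.L * |C| + 1 := by
    have := mul_nonneg c.L_nonneg (abs_nonneg C)
    linarith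
  refine ⟨min c.δ (c.dst x y / (c.L * |C| + 1)), lt_min c.δ_pos (div_pos h0 h1), fun γ => ?_⟩
  by_contra hlt
  rw [not_le, lt_min_iff] at hlt
  have h2 := c.unif_lip hC γ⁻¹ (γ • x) (γ • y) hlt.1.le
  rw [inv_smul_smul, inv_smul_smul] at h2
  have h3 := hlt.2
  rw [lt_div_iff₀ h1] at h3
  nlinarith [c.dst_nonneg (γ • x) (γ • y), mul_nonneg c.L_nonneg (abs_nonneg C)]

end Calc

variable {p : ℕ} [Fact p.Prime] {n : ℕ} {d : ℕ} {M : Type} [TopologicalSpace M]
  [ChartedSpace (EuclideanSpace ℝ (Fin d)) M] [IsManifold (𝓡 d) ∞ M]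
  [CompactSpace M] [T2Space M]

/-- Growth of the derivatives in a Riemannian metric bounds the Jacobi matrices. -/
theorem adm_of_growth (F : Fr d M) (hA : F.A = smoothA d M)
    (hch : ∀ c : F.κ, ∃ x₀ : M, F.φ c = chartAt (Eu d) x₀)
    (g : Bundle.ContMDiffRiemannianMetric (𝓡 d) ∞ (EuclideanSpace ℝ (Fin d))
      (fun x : M => TangentSpace (𝓡 d) x)) {Γ : Type} [Group Γ] [MulAction Γ M]
    (hs : IsSmoothAction d Γ M) (b : Γ → ℝ)
    (hb : ∀ (γ : Γ) (x : M) (v : TangentSpace (𝓡 d) x),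
      g.inner (γ • x) (mfderiv (𝓡 d) (𝓡 d) (fun y : M => γ • y) x v)
        (mfderiv (𝓡 d) (𝓡 d) (fun y : M => γ • y) x v) ≤ b γ ^ 2 * g.inner x v v)
    (hAA : ∀ γ : Γ, ∀ f ∈ F.A, (fun x => f (γ • x)) ∈ F.A) :
    ∃ C : ℝ, 0 ≤ C ∧ ∀ (γ : Γ) (i j : F.ι) (x : M),
      |(F.X i ⟨fun y => (F.ψ j).1 (γ • y), hAA γ _ (F.ψ j).2⟩).1 x| ≤ C * |b γ| := by
  obtain ⟨K, hK, hcomp⟩ := global_comp F hA hch g
  have hsm : ∀ f : F.A, ContMDiff (𝓡 d) 𝓘(ℝ, ℝ) ∞ f.1 := fun f => by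
    have h : f.1 ∈ smoothA d M := by rw [← hA]; exact f.2
    exact h
  choose B hB0 hB using fun (i j : F.ι) => F.bdd (F.X i (F.ψ j))
  have hS0 : 0 ≤ ∑ i, ∑ j, B i j ^ 2 :=
    Finset.sum_nonneg fun i _ => Finset.sum_nonneg fun j _ => sq_nonneg _
  refine ⟨Real.sqrt (K * (K * ∑ i, ∑ j, B i j ^ 2)), Real.sqrt_nonneg _, fun γ i j x => ?_⟩
  obtain ⟨v, hv⟩ := exists_vec F hA hch i x
  have h1 := hv ⟨fun y => (F.ψ j).1 (γ • y), hAA γ _ (F.ψ j).2⟩
  rw [← h1]
  have h2 : dL (fun y => (F.ψ j).1 (γ • y)) x v =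
      dL (F.ψ j).1 (γ • x) (mfderiv (𝓡 d) (𝓡 d) (fun y : M => γ • y) x v) :=
    (dL_comp (hsm _) (hs γ) x v).symm
  have h3 : (dL (fun y => (F.ψ j).1 (γ • y)) x v) ^ 2 ≤ K * (b γ ^ 2 * g.inner x v v) := by
    rw [h2]
    exact ((hcomp (γ • x) _).1 j).trans (mul_le_mul_of_nonneg_left (hb γ x v) hK.le)
  have h4 : g.inner x v v ≤ K * ∑ i, ∑ j, B i j ^ 2 := by
    refine ((hcomp x v).2).trans (mul_le_mul_of_nonneg_left ?_ hK.le)
    calc ∑ l, (dL (F.ψ l).1 x v) ^ 2 ≤ ∑ l, B i l ^ 2 := by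
          refine Finset.sum_le_sum fun l _ => ?_
          rw [hv (F.ψ l)]
          exact sq_le_sq' (by have := hB i l x; rw [abs_le] at this; linarith [this.1])
            ((le_abs_self _).trans (hB i l x))
      _ ≤ ∑ i, ∑ j, B i j ^ 2 :=
          Finset.single_le_sum (f := fun i => ∑ j, B i j ^ 2)
            (fun i _ => Finset.sum_nonneg fun j _ => sq_nonneg _) (Finset.mem_univ i)
  have h5 : (dL (fun y => (F.ψ j).1 (γ • y)) x v) ^ 2 ≤
      (Real.sqrt (K * (K * ∑ i, ∑ j, B i j ^ 2)) * |b γ|) ^ 2 := by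
    rw [mul_pow, Real.sq_sqrt (mul_nonneg hK.le (mul_nonneg hK.le hS0)), sq_abs]
    refine h3.trans ?_
    have := mul_le_mul_of_nonneg_left h4 (mul_nonneg hK.le (sq_nonneg (b γ)))
    nlinarith
  exact abs_le_of_sq_le_sq h5 (mul_nonneg (Real.sqrt_nonneg _) (abs_nonneg _))

/-- Distal actions have no asymptotic pairs. -/
theorem not_pair_of_distal {Γ : Subgroup (SLn p n)} [MulAction Γ M]
    (hs : IsSmoothAction d Γ M) (h : IsDistalAction Γ M) : ¬ HasAsymptoticPair p n d Γ M := by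
  classical
  rintro ⟨x, y, hxy, γ, -, hf⟩
  let _ : MeasurableSpace M := borel M
  have _ : BorelSpace M := ⟨rfl⟩
  obtain ⟨S⟩ := exists_setup hs
  -- a limit point of the orbit of the pair
  obtain ⟨U⟩ : Nonempty (Ultrafilter ℕ) := ⟨Filter.hyperfilter ℕ⟩
  obtain ⟨⟨a, b⟩, -, hab⟩ := (isCompact_univ (X := M × M)).ultrafilter_le_nhds
    (Ultrafilter.map (fun k : ℕ => (γ k • x, γ k • y)) (Filter.hyperfilter ℕ))
    (by simp)
  have hlim : Tendsto (fun k : ℕ => (γ k • x, γ k • y)) (Filter.hyperfilter ℕ : Filter ℕ)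
      (𝓝 (a, b)) := hab
  have ha : Tendsto (fun k : ℕ => γ k • x) (Filter.hyperfilter ℕ : Filter ℕ) (𝓝 a) :=
    (continuous_fst.tendsto _).comp hlim
  have hb : Tendsto (fun k : ℕ => γ k • y) (Filter.hyperfilter ℕ : Filter ℕ) (𝓝 b) :=
    (continuous_snd.tendsto _).comp hlim
  have hle : (Filter.hyperfilter ℕ : Filter ℕ) ≤ atTop := Nat.hyperfilter_le_atTop
  have hp1 : (1 : ℝ) < p := by exact_mod_cast (Fact.out : p.Prime).one_lt
  have heq : a = b := by
    apply S.F.sep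
    intro j
    obtain ⟨C, hC⟩ := hf (S.F.ψ j).1 (S.smF _)
    have hcont := S.F.cont (S.F.ψ j)
    have h1 : Tendsto (fun k : ℕ => (S.F.ψ j).1 (γ k • x) - (S.F.ψ j).1 (γ k • y))
        (Filter.hyperfilter ℕ : Filter ℕ) (𝓝 ((S.F.ψ j).1 a - (S.F.ψ j).1 b)) :=
      ((hcont.tendsto a).comp ha).sub ((hcont.tendsto b).comp hb)
    have h2 : Tendsto (fun k : ℕ => C * (p : ℝ) ^ (-((k : ℝ) / (7 * (d : ℝ) + 13)))) atTop
        (𝓝 0) := by
      have h3 : Tendsto (fun k : ℕ => -((k : ℝ) / (7 * (d : ℝ) + 13))) atTop atBot := by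
        apply Filter.tendsto_neg_atTop_atBot.comp
        exact tendsto_natCast_atTop_atTop.atTop_div_const (by positivity)
      have h4 := (tendsto_rpow_atBot_of_base_gt_one (p : ℝ) hp1).comp h3
      simpa using h4.const_mul C
    have h5 : Tendsto (fun k : ℕ => (S.F.ψ j).1 (γ k • x) - (S.F.ψ j).1 (γ k • y)) atTop
        (𝓝 0) := squeeze_zero_norm (fun k => hC k) h2
    exact sub_eq_zero.1 (tendsto_nhds_unique h1 (h5.mono_left hle))
  have hcl : (a, b) ∈ closure (Set.range fun g : Γ => (g • x, g • y)) :=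
    mem_closure_of_tendsto hlim (Filter.Eventually.of_forall fun k => ⟨γ k, rfl⟩)
  exact Set.disjoint_left.1 (h x y hxy) hcl (by rw [Set.mem_diagonal_iff]; exact heq)

/-- Isometric actions have bounded derivatives. -/
theorem bounded_of_isometric {Γ : Type} [Group Γ] [MulAction Γ M] [MeasurableSpace M]
    (S : Setup d Γ M) (hs : IsSmoothAction d Γ M) (h : IsIsometricAction d Γ M) :
    ∃ C : ℝ, ∀ (γ : Γ) (i j : S.F.ι) (x : M), |(S.C.J γ i j).1 x| ≤ C := by
  obtain ⟨g, hg⟩ := h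
  obtain ⟨C, hC, h1⟩ := adm_of_growth S.F S.hA S.hch g hs (fun _ => 1)
    (fun γ x v => by rw [hg γ x v v]; simp) S.hAA
  refine ⟨C, fun γ i j x => ?_⟩
  rw [S.hCJ]
  simpa using h1 γ i j x

/-- Isometric actions are distal and have no asymptotic pairs. -/
theorem distal_of_isometric {Γ : Type} [Group Γ] [MulAction Γ M]
    (hs : IsSmoothAction d Γ M) (h : IsIsometricAction d Γ M) : IsDistalAction Γ M := by
  classical
  let _ : MeasurableSpace M := borel M
  have _ : BorelSpace M := ⟨rfl⟩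
  obtain ⟨S⟩ := exists_setup hs
  obtain ⟨C, hC⟩ := bounded_of_isometric S hs h
  intro x y hxy
  obtain ⟨ε, hε, hap⟩ := S.C.apart hC hxy
  rw [Set.disjoint_left]
  rintro ⟨a, b⟩ hcl hd
  rw [Set.mem_diagonal_iff] at hd
  have hclosed : IsClosed {q : M × M | ε ≤ S.C.dst q.1 q.2} := by
    apply isClosed_le continuous_const
    unfold Calc.dst
    apply Continuous.norm
    apply continuous_pi
    intro j
    exact ((S.C.cont (S.C.ψ j)).comp continuous_fst).sub
      ((S.C.cont (S.C.ψ j)).comp continuous_snd)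
  have hsub : closure (Set.range fun g : Γ => (g • x, g • y)) ⊆
      {q : M × M | ε ≤ S.C.dst q.1 q.2} := by
    apply closure_minimal _ hclosed
    rintro _ ⟨γ, rfl⟩
    exact hap γ
  have h1 : ε ≤ S.C.dst a b := hsub hcl
  change a = b at hd
  rw [hd, S.C.dst_self] at h1
  linarith

/-- Slow growth implies isometric. -/
theorem isometric_of_growth (hn : 3 ≤ n) {Γ : Subgroup (SLn p n)} (hΓ : IsLattice Γ)
    [MulAction Γ M] (hs : IsSmoothAction d Γ M) (h : HasSlowGrowth p n d Γ M) :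
    IsIsometricAction d Γ M := by
  classical
  let _ : MeasurableSpace M := borel M
  have _ : BorelSpace M := ⟨rfl⟩
  obtain ⟨S⟩ := exists_setup hs
  obtain ⟨g, C, s, hsd, hg⟩ := h
  obtain ⟨w, C₀, hT⟩ := lattice_strongT hn hΓ
  have hS := lattice_sz (by omega) hΓ
  obtain ⟨K, hK, h1⟩ := adm_of_growth S.F S.hA S.hch g hs
    (fun γ => C * size (γ : SLn p n) ^ s) hg S.hAA
  have h13 : (0 : ℝ) < 7 * d + 13 := by positivity
  have h12 : (0 : ℝ) < 7 * d + 12 := by positivity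
  have hs' : 0 < max s (1 / (7 * (d : ℝ) + 13)) := lt_max_of_lt_right (by positivity)
  have hs2 : max s (1 / (7 * (d : ℝ) + 13)) < 1 / (7 * (d : ℝ) + 12) :=
    max_lt hsd (one_div_lt_one_div_of_lt h12 (by linarith))
  refine S.isometric hs (S.C.invariant_metric hS hT hs' ?_ ?_)
  · refine ⟨K * |C|, mul_nonneg hK (abs_nonneg _), fun γ i j x => ?_⟩
    rw [S.hCJ]
    refine (h1 γ i j x).trans ?_
    have hsz : 1 ≤ size (γ : SLn p n) := one_le_size (by omega) _
    rw [abs_mul, abs_of_nonneg (Real.rpow_nonneg (by linarith) _), mul_assoc]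
    refine mul_le_mul_of_nonneg_left (mul_le_mul_of_nonneg_left ?_ (abs_nonneg _)) hK
    exact Real.rpow_le_rpow_of_exponent_le hsz (le_max_left _ _)
  · rw [lt_div_iff₀ h12] at hs2
    linarith

/-- **Main theorem.** -/
theorem main_tfae (hn : 3 ≤ n) {Γ : Subgroup (SLn p n)} (hΓ : IsLattice Γ)
    [MulAction Γ M] (hs : IsSmoothAction d Γ M) :
    List.TFAE [IsIsometricAction d Γ M, IsDistalAction Γ M, HasSlowGrowth p n d Γ M,
      ¬ HasAsymptoticPair p n d Γ M] := by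
  tfae_have 1 → 2 := distal_of_isometric hs
  tfae_have 2 → 4 := not_pair_of_distal hs
  tfae_have 4 → 1 := by
    intro h4
    rcases smooth_dichotomy hn hΓ hs with h | h
    · exact h
    · exfalso
      apply h4
      obtain ⟨x, z, hxz, g, hg, hf⟩ := h
      refine ⟨x, z, hxz, g, hg, fun f hfs => ?_⟩
      obtain ⟨C, hC⟩ := hf f hfs
      refine ⟨C, fun k => (hC k).trans (le_of_eq ?_)⟩
      congr 2
      ring
  tfae_have 1 → 3 := by
    rintro ⟨g, hg⟩
    refine ⟨g, 1, 0, by positivity, fun γ x v => ?_⟩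
    rw [hg γ x v v]
    simp
  tfae_have 3 → 1 := isometric_of_growth hn hΓ hs
  tfae_finish

end Pool.Agent.H73.PZ
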