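import Mathlib
import Pool.Agent.H73.PZ.Z2
import Pool.Agent.H73.PZ.Pub3

/-!
The main theorem in terms of the definitions of `Pub3.lean` (MP_d9606f_gt; assembly, helper73).
-/

open scoped Manifold ContDiff

namespace Pool.Agent.H73.PZ

variable {p : ℕ} [Fact p.Prime] {n : ℕ} {d : ℕ} {M : Type} [TopologicalSpace M]
  [ChartedSpace (EuclideanSpace ℝ (Fin d)) M] [IsManifold (𝓡 d) ∞ M]

theorem slow_iff {Γ : Subgroup (SLn p n)} [MulAction Γ M] : HasSlowGrowth p n d Γ M ↔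
    ∃ s : ℝ, s < 1 / (7 * (d : ℝ) + 12) ∧ GrowthLE (𝓡 d) M Γ (sz Γ) s := by
  constructor
  · rintro ⟨g, C, s, hs, h⟩
    exact ⟨s, hs, g, C, h⟩
  · rintro ⟨s, hs, g, C, h⟩
    exact ⟨g, C, s, hs, h⟩

omit [IsManifold (𝓡 d) ∞ M] in
theorem pair_iff {Γ : Subgroup (SLn p n)} [MulAction Γ M] : HasAsymptoticPair p n d Γ M ↔
    AsymptoticPair (𝓡 d) M Γ (sz Γ) p (1 / (7 * (d : ℝ) + 13)) := by
  have e : ∀ k : ℕ, -((k : ℝ) / (7 * (d : ℝ) + 13)) = -(1 / (7 * (d : ℝ) + 13) * k) := by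
    intro k; ring
  unfold HasAsymptoticPair AsymptoticPair
  simp only [e]
  exact Iff.rfl

end Pool.Agent.H73.PZ
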