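import Mathlib
import Pool.Agent.H73.PZ.Sz

/-!
From generators to the whole group (MP_d9606f_gt, helper73, proved).  If the generators (and their
inverses) are `(1 + ε)`-Lipschitz then `γ` is `C N(γ)^s`-Lipschitz, `ε` depends only on the group,
the generators and `s`.
-/

namespace Pool.Agent.H73.PZ

variable {Γ : Type} [Group Γ]

/-- A family of Lipschitz conditions, closed under products. -/
structure LipFam (Q : Γ → ℝ → Prop) : Prop where
  one : Q 1 1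
  mul : ∀ γ γ' K K', 0 ≤ K → 0 ≤ K' → Q γ K → Q γ' K' → Q (γ * γ') (K * K')
  mono : ∀ γ K K', 0 ≤ K → K ≤ K' → Q γ K → Q γ K'

theorem word_pow {S : Set Γ} (hgen : Subgroup.closure S = ⊤) (γ : Γ) :
    ∃ k : ℕ, ∀ ε : ℝ, 0 < ε → ∀ Q : Γ → ℝ → Prop, LipFam Q →
      (∀ γ ∈ S, Q γ (1 + ε) ∧ Q γ⁻¹ (1 + ε)) →
      Q γ ((1 + ε) ^ k) ∧ Q γ⁻¹ ((1 + ε) ^ k) := by
  have hγ : γ ∈ Subgroup.closure S := by rw [hgen]; trivial
  induction hγ using Subgroup.closure_induction with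
  | mem x hx => exact ⟨1, fun ε _ Q _ h => by simpa using h x hx⟩
  | one => exact ⟨0, fun ε _ Q hQ _ => by simpa using hQ.one⟩
  | mul x y _ _ ihx ihy =>
    obtain ⟨k, hk⟩ := ihx
    obtain ⟨l, hl⟩ := ihy
    refine ⟨k + l, fun ε hε Q hQ h => ?_⟩
    have h0 : ∀ m : ℕ, (0 : ℝ) ≤ (1 + ε) ^ m := fun m => by positivity
    have hk' := hk ε hε Q hQ h
    have hl' := hl ε hε Q hQ h
    refine ⟨?_, ?_⟩
    · rw [pow_add]; exact hQ.mul _ _ _ _ (h0 _) (h0 _) hk'.1 hl'.1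
    · rw [mul_inv_rev, add_comm k l, pow_add]; exact hQ.mul _ _ _ _ (h0 _) (h0 _) hl'.2 hk'.2
  | inv x _ ihx =>
    obtain ⟨k, hk⟩ := ihx
    refine ⟨k, fun ε hε Q hQ h => ?_⟩
    rw [inv_inv]
    exact (hk ε hε Q hQ h).symm

theorem word_growth {q : ℝ} {N : Γ → ℝ} (hS : Sz q N) {S : Set Γ}
    (hgen : Subgroup.closure S = ⊤) {s : ℝ} (hs : 0 < s) :
    ∃ ε : ℝ, 0 < ε ∧ ∀ Q : Γ → ℝ → Prop, LipFam Q →
      (∀ γ ∈ S, Q γ (1 + ε) ∧ Q γ⁻¹ (1 + ε)) →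
      ∃ C : ℝ, 0 ≤ C ∧ ∀ γ, Q γ (C * N γ ^ s) := by
  classical
  obtain ⟨C₁, hC₁, hpath⟩ := hS.paths
  have hq := hS.q_gt
  have hq0 : 0 < q := by linarith
  choose k hk using fun γ : Γ => word_pow hgen γ
  let T : Finset Γ := (hS.finite (C₁ * q)).toFinset
  have hT : ∀ γ, N γ ≤ C₁ * q → γ ∈ T := fun γ h => by
    rw [Set.Finite.mem_toFinset]; exact h
  obtain ⟨l, hl⟩ : ∃ l : ℕ, ∀ γ ∈ T, k γ ≤ l :=
    ⟨T.sup k, fun γ hγ => Finset.le_sup (f := k) hγ⟩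
  have hl1 : (0 : ℝ) < (l : ℝ) + 1 := by positivity
  set e : ℝ := q ^ (s / ((l : ℝ) + 1)) with he
  have he1 : 1 < e := Real.one_lt_rpow hq (by positivity)
  have hel : e ^ (l + 1) = q ^ s := by
    rw [he, ← Real.rpow_natCast, ← Real.rpow_mul hq0.le]
    congr 1
    push_cast
    field_simp
  refine ⟨e - 1, by linarith, fun Q hQ hQS => ?_⟩
  have hee : 1 + (e - 1) = e := by ring
  rw [hee] at hQS
  have he0 : ∀ m : ℕ, 0 ≤ e ^ m := fun m => by positivity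
  have hTQ : ∀ γ, N γ ≤ C₁ * q → Q γ (e ^ (l + 1)) := by
    intro γ hγ
    have h1 := (hk γ (e - 1) (by linarith) Q hQ (by rw [hee]; exact hQS)).1
    rw [hee] at h1
    refine hQ.mono _ _ _ (he0 _) ?_ h1
    exact pow_le_pow_right₀ he1.le ((hl γ (hT γ hγ)).trans (Nat.le_succ l))
  have hqs : 0 < q ^ s := Real.rpow_pos_of_pos hq0 _
  refine ⟨(q ^ s) ^ 3, by positivity, fun γ => ?_⟩
  -- choose `m`
  obtain ⟨m, hm1, hm2, hm3⟩ : ∃ m : ℕ, 1 ≤ m ∧ N γ ≤ q ^ m ∧ q ^ m ≤ q * N γ := by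
    have hex : ∃ m : ℕ, N γ ≤ q ^ m := by
      obtain ⟨m, hm⟩ := pow_unbounded_of_one_lt (N γ) hq
      exact ⟨m, hm.le⟩
    rcases Nat.eq_zero_or_pos (Nat.find hex) with h0 | h0
    · refine ⟨1, le_rfl, ?_, ?_⟩
      · have := Nat.find_spec hex
        rw [h0, pow_zero] at this
        rw [pow_one]; linarith
      · rw [pow_one]
        have := hS.one_le γ
        nlinarith
    · refine ⟨Nat.find hex, h0, Nat.find_spec hex, ?_⟩
      have h1 := Nat.find_min hex (m := Nat.find hex - 1) (by omega)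
      rw [not_le] at h1
      have h2 : q ^ (Nat.find hex) = q * q ^ (Nat.find hex - 1) := by
        rw [← pow_succ']; congr 1; omega
      rw [h2]
      exact mul_le_mul_of_nonneg_left h1.le hq0.le
  obtain ⟨w, hw1, hw2, hw3⟩ := hpath γ m hm1 hm2
  have hC₁q : C₁ ≤ C₁ * q := by nlinarith
  have hwt : ∀ t, t ≤ m → Q (w t) ((e ^ (l + 1)) ^ (t + 1)) := by
    intro t
    induction t with
    | zero =>
      intro _
      rw [zero_add, pow_one]
      exact hTQ _ (hw2.trans hC₁q)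
    | succ t ih =>
      intro ht
      have h1 := ih (by omega)
      have h2 : Q (w (t + 1) * (w t)⁻¹) (e ^ (l + 1)) := by
        apply hTQ
        have := hw1 t (t + 1) (by omega) ht
        rwa [Nat.add_sub_cancel_left, pow_one] at this
      have h3 := hQ.mul _ _ _ _ (he0 _) (pow_nonneg (he0 _) _) h2 h1
      rw [inv_mul_cancel_right] at h3
      rw [pow_succ' (e ^ (l + 1)) (t + 1)]
      exact h3
  have h4 : Q γ ((e ^ (l + 1)) * (e ^ (l + 1)) ^ (m + 1)) := by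
    have h5 := hQ.mul _ _ _ _ (he0 _) (pow_nonneg (he0 _) _) (hTQ _ (hw3.trans hC₁q))
      (hwt m le_rfl)
    rwa [inv_mul_cancel_right] at h5
  refine hQ.mono _ _ _ (mul_nonneg (he0 _) (pow_nonneg (he0 _) _)) ?_ h4
  rw [hel, ← pow_succ']
  have h6 : (q ^ s) ^ (m + 1 + 1) = (q ^ s) ^ 2 * (q ^ m) ^ s := by
    rw [pow_add, pow_add, pow_one, mul_assoc, mul_comm, ← sq]
    congr 1
    rw [← Real.rpow_natCast, ← Real.rpow_natCast, ← Real.rpow_mul hq0.le, ← Real.rpow_mul hq0.le,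
      mul_comm]
  rw [h6]
  have h7 : (q ^ m) ^ s ≤ (q * N γ) ^ s := Real.rpow_le_rpow (by positivity) hm3 hs.le
  have hN0 : 0 ≤ N γ := zero_le_one.trans (hS.one_le γ)
  rw [Real.mul_rpow hq0.le hN0] at h7
  calc (q ^ s) ^ 2 * (q ^ m) ^ s ≤ (q ^ s) ^ 2 * (q ^ s * N γ ^ s) :=
        mul_le_mul_of_nonneg_left h7 (by positivity)
    _ = (q ^ s) ^ 3 * N γ ^ s := by ring

end Pool.Agent.H73.PZ
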