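import Mathlib
import Pool.Agent.H73.PZ.Z2
import Pool.Agent.H73.PZ.Wd

/-!
Almost isometric actions of lattices in `SL_n(ℚ_p)` are isometric, with a constant that does not
depend on the manifold (MP_d9606f_gt; assembly, helper73).
-/

open MeasureTheory Filter Bundle
open scoped Topology ContDiff Manifold

namespace Pool.Agent.H73.PZ

section

variable {d : ℕ} {M : Type} [TopologicalSpace M] [ChartedSpace (EuclideanSpace ℝ (Fin d)) M]
  [IsManifold (𝓡 d) ∞ M]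

/-- The pull back of the metric by `f`. -/
noncomputable def GG (g : Bundle.ContMDiffRiemannianMetric (𝓡 d) ∞ (EuclideanSpace ℝ (Fin d))
      (fun x : M => TangentSpace (𝓡 d) x)) (f : M → M) (x : M) (v : TangentSpace (𝓡 d) x) : ℝ :=
  g.inner (f x) (mfderiv (𝓡 d) (𝓡 d) f x v) (mfderiv (𝓡 d) (𝓡 d) f x v)

variable (g : Bundle.ContMDiffRiemannianMetric (𝓡 d) ∞ (EuclideanSpace ℝ (Fin d))
      (fun x : M => TangentSpace (𝓡 d) x))

theorem GG_id (x : M) (v : TangentSpace (𝓡 d) x) : GG g (fun y => y) x v = g.inner x v v := by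
  unfold GG
  have h : mfderiv (𝓡 d) (𝓡 d) (fun y : M => y) x = ContinuousLinearMap.id ℝ _ :=
    mfderiv_id
  rw [h]
  rfl

theorem GG_comp {f f' : M → M} (hf : ContMDiff (𝓡 d) (𝓡 d) ∞ f)
    (hf' : ContMDiff (𝓡 d) (𝓡 d) ∞ f') (x : M) (v : TangentSpace (𝓡 d) x) :
    GG g (fun y => f (f' y)) x v = GG g f (f' x) (mfderiv (𝓡 d) (𝓡 d) f' x v) := by
  unfold GG
  have h : mfderiv (𝓡 d) (𝓡 d) (fun y => f (f' y)) x =
      (mfderiv (𝓡 d) (𝓡 d) f (f' x)).comp (mfderiv (𝓡 d) (𝓡 d) f' x) :=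
    mfderiv_comp x ((hf.mdifferentiable (by simp)) (f' x)) ((hf'.mdifferentiable (by simp)) x)
  rw [h]
  rfl

variable {Γ : Type} [Group Γ] [MulAction Γ M]

theorem lipFam (hs : IsSmoothAction d Γ M) :
    LipFam (fun (γ : Γ) (K : ℝ) => ∀ (x : M) (v : TangentSpace (𝓡 d) x),
      GG g (fun y => γ • y) x v ≤ K ^ 2 * g.inner x v v) where
  one := by
    intro x v
    have e : (fun y : M => (1 : Γ) • y) = fun y => y := by funext y; exact one_smul Γ y
    rw [e, GG_id, one_pow, one_mul]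
  mul := by
    intro γ γ' K K' hK hK' h h' x v
    have e : (fun y : M => (γ * γ') • y) = fun y => γ • γ' • y := by
      funext y; exact mul_smul γ γ' y
    rw [e, GG_comp g (hs γ) (hs γ')]
    refine (h _ _).trans ?_
    rw [mul_pow, mul_assoc]
    exact mul_le_mul_of_nonneg_left (h' x v) (sq_nonneg K)
  mono := by
    intro γ K K' hK hKK h x v
    refine (h x v).trans ?_
    have h0 : 0 ≤ g.inner x v v := by
      by_cases hv : v = 0
      · rw [hv]; simp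
      · exact (g.pos x v hv).le
    exact mul_le_mul_of_nonneg_right (pow_le_pow_left₀ hK hKK 2) h0

end

/-- Almost isometric actions are isometric. -/
theorem almost_isometric {p : ℕ} [Fact p.Prime] {n : ℕ} (hn : 3 ≤ n) {Γ : Subgroup (SLn p n)}
    (hΓ : IsLattice Γ) (d : ℕ) {S : Set Γ} (hgen : Subgroup.closure S = ⊤) :
    ∃ ε : ℝ, 0 < ε ∧ ∀ (M : Type) [TopologicalSpace M]
      [ChartedSpace (EuclideanSpace ℝ (Fin d)) M] [IsManifold (𝓡 d) ∞ M] [CompactSpace M]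
      [T2Space M] [MulAction Γ M], IsSmoothAction d Γ M →
      ∀ g : Bundle.ContMDiffRiemannianMetric (𝓡 d) ∞ (EuclideanSpace ℝ (Fin d))
        (fun x : M => TangentSpace (𝓡 d) x),
      (∀ γ ∈ S, ∀ (x : M) (v : TangentSpace (𝓡 d) x),
        g.inner (γ • x) (mfderiv (𝓡 d) (𝓡 d) (fun y : M => γ • y) x v)
          (mfderiv (𝓡 d) (𝓡 d) (fun y : M => γ • y) x v) ≤ (1 + ε) ^ 2 * g.inner x v v ∧
        g.inner x v v ≤ (1 + ε) ^ 2 *
          g.inner (γ • x) (mfderiv (𝓡 d) (𝓡 d) (fun y : M => γ • y) x v)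
          (mfderiv (𝓡 d) (𝓡 d) (fun y : M => γ • y) x v)) →
      IsIsometricAction d Γ M := by
  have hs0 : (0 : ℝ) < 1 / (7 * (d : ℝ) + 13) := by positivity
  obtain ⟨ε, hε, hQ⟩ := word_growth (lattice_sz (by omega) hΓ) hgen hs0
  refine ⟨ε, hε, ?_⟩
  intro M _ _ _ _ _ _ hs g hg
  obtain ⟨C, hC, h⟩ := hQ _ (lipFam g hs) (by
    intro γ hγ
    refine ⟨fun x v => (hg γ hγ x v).1, fun y w => ?_⟩
    have h1 := (hg γ hγ (γ⁻¹ • y) (mfderiv (𝓡 d) (𝓡 d) (fun y : M => γ⁻¹ • y) y w)).2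
    have h2 : GG g (fun z => γ • z) (γ⁻¹ • y)
        (mfderiv (𝓡 d) (𝓡 d) (fun y : M => γ⁻¹ • y) y w) = g.inner y w w := by
      rw [← GG_comp g (hs γ) (hs γ⁻¹)]
      have e : (fun z : M => γ • γ⁻¹ • z) = fun z => z := by
        funext z; exact smul_inv_smul γ z
      rw [e, GG_id]
    have h3 : g.inner (γ • γ⁻¹ • y) (mfderiv (𝓡 d) (𝓡 d) (fun y : M => γ • y) (γ⁻¹ • y)
        (mfderiv (𝓡 d) (𝓡 d) (fun y : M => γ⁻¹ • y) y w))
        (mfderiv (𝓡 d) (𝓡 d) (fun y : M => γ • y) (γ⁻¹ • y)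
        (mfderiv (𝓡 d) (𝓡 d) (fun y : M => γ⁻¹ • y) y w)) = g.inner y w w := h2
    rw [h3] at h1
    exact h1)
  refine isometric_of_growth hn hΓ hs ⟨g, C, 1 / (7 * (d : ℝ) + 13), ?_, fun γ x v => h γ x v⟩
  exact one_div_lt_one_div_of_lt (by positivity) (by linarith)

end Pool.Agent.H73.PZ
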